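import Pool.Agent.Work.MP_82fd4a_nt.Defs
import Pool.Agent.Lib.ANT.PNTError
import Pool.Agent.Lib.ANT.Mertens

/-! The second theorem of Mertens with a logarithmic power saving. -/

set_option autoImplicit false
open Filter Topology Finset

namespace Pool.Agent.Work.MP_82fd4a_nt

/-- the logarithm restricted to the primes -/
noncomputable def mertL (n : ℕ) : ℝ := if n.Prime then Real.log n else 0

/-- the error term in the prime number theorem -/
noncomputable def mertD (n : ℕ) : ℝ := ∑ m ∈ Ioc 0 n, mertL m - n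

lemma mertD_succ (n : ℕ) : mertD (n + 1) = mertD n + mertL (n + 1) - 1 := by
  unfold mertD
  rw [sum_Ioc_succ_top (Nat.zero_le n)]
  push_cast; ring

lemma mertD_sub {a b : ℕ} (h : a ≤ b) : ∑ n ∈ Ioc a b, (mertL n - 1) = mertD b - mertD a := by
  induction b, h using Nat.le_induction with
  | base => simp
  | succ b hb ih => rw [sum_Ioc_succ_top hb, ih, mertD_succ]; ring

lemma mert_theta (B : ℕ) : ∀ᶠ X : ℕ in atTop, ∀ x : ℕ, x ≤ X →
    |mertD x| ≤ X / Real.log X ^ B := by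
  obtain ⟨C, hC⟩ := Chebyshev.psi_sub_theta_le_mul_sqrt
  have e1 : ∀ᶠ X : ℕ in atTop, |C| * √(X : ℝ) ≤ X / (2 * Real.log X ^ B) := by
    filter_upwards [Lib.ANT.PNTError.eventually_pow_log_le (4 * (|C| + 1) ^ 2) (by positivity) (2 * B),
      Lib.ANT.PNTError.tendsto_log.eventually_gt_atTop 0] with X h h0
    have hX : (0 : ℝ) ≤ X := Nat.cast_nonneg _
    have h1 : 2 * (|C| + 1) * Real.log X ^ B ≤ √(X : ℝ) := by
      apply Real.le_sqrt_of_sq_le
      calc _ = 4 * (|C| + 1) ^ 2 * Real.log X ^ (2 * B) := by ring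
        _ ≤ _ := h
    rw [le_div_iff₀ (by positivity)]
    have h2 : √(X : ℝ) * √(X : ℝ) = X := Real.mul_self_sqrt hX
    have h3 : 0 ≤ √(X : ℝ) := Real.sqrt_nonneg _
    have h4 : 0 ≤ Real.log X ^ B := by positivity
    calc |C| * √(X : ℝ) * (2 * Real.log X ^ B) = √(X : ℝ) * (2 * |C| * Real.log X ^ B) := by ring
      _ ≤ √(X : ℝ) * (2 * (|C| + 1) * Real.log X ^ B) := by gcongr; linarith
      _ ≤ √(X : ℝ) * √(X : ℝ) := by gcongr
      _ = X := h2
  filter_upwards [Lib.ANT.pnt_error (B + 1), e1,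
    Lib.ANT.PNTError.tendsto_log.eventually_ge_atTop 2] with X h1 h2 h3 x hx
  have hp := h1 x hx
  have hI : Icc 1 x = Ioc 0 x := by ext n; simp [Nat.succ_le_iff]
  rw [hI] at hp
  have hψ : Chebyshev.psi x = ∑ n ∈ Ioc 0 x, ArithmeticFunction.vonMangoldt n := by
    simp [Chebyshev.psi]
  have hθ : Chebyshev.theta x = ∑ n ∈ Ioc 0 x, mertL n := by
    simp [Chebyshev.theta, mertL, sum_filter]
  have h4 := hC x
  have h5 := Chebyshev.theta_le_psi x
  have hxX : √(x : ℝ) ≤ √(X : ℝ) := Real.sqrt_le_sqrt (by exact_mod_cast hx)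
  have h6 : C * √(x : ℝ) ≤ |C| * √(X : ℝ) :=
    mul_le_mul (le_abs_self C) hxX (Real.sqrt_nonneg _) (abs_nonneg C)
  have hX : (0 : ℝ) ≤ X := Nat.cast_nonneg _
  have hL : 0 < Real.log X ^ B := by positivity
  have h7 : (X : ℝ) / Real.log X ^ (B + 1) ≤ X / (2 * Real.log X ^ B) := by
    apply div_le_div_of_nonneg_left hX (by positivity)
    rw [pow_succ]; nlinarith
  have h8 : (X : ℝ) / (2 * Real.log X ^ B) + X / (2 * Real.log X ^ B) = X / Real.log X ^ B := by
    field_simp; ring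
  rw [← hψ] at hp
  unfold mertD
  rw [← hθ]
  rw [abs_le] at hp ⊢
  constructor <;> linarith [hp.1, hp.2]

/-- the weight of the summation by parts -/
noncomputable def mertW (n : ℕ) : ℝ := 1 / (n * Real.log n)

lemma mert_log_succ {n : ℕ} (hn : 1 ≤ n) :
    1 / ((n : ℝ) + 1) ≤ Real.log (n + 1) - Real.log n ∧
      Real.log (n + 1) - Real.log n ≤ 1 / (n : ℝ) := by
  have h0 : (0 : ℝ) < n := by exact_mod_cast hn
  constructor
  · have := Real.log_le_sub_one_of_pos (x := (n : ℝ) / (n + 1)) (by positivity)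
    rw [Real.log_div h0.ne' (by positivity)] at this
    have e : (n : ℝ) / (n + 1) - 1 = -(1 / ((n : ℝ) + 1)) := by field_simp; ring
    linarith
  · have := Real.log_le_sub_one_of_pos (x := ((n : ℝ) + 1) / n) (by positivity)
    rw [Real.log_div (by positivity) h0.ne'] at this
    have e : ((n : ℝ) + 1) / n - 1 = 1 / (n : ℝ) := by field_simp; ring
    linarith

lemma mert_loglog_succ {n : ℕ} (hn : 1 ≤ n) (hL : 1 ≤ Real.log n) :
    mertW (n + 1) ≤ Real.log (Real.log (n + 1)) - Real.log (Real.log n) ∧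
      Real.log (Real.log (n + 1)) - Real.log (Real.log n) ≤ mertW n := by
  have h0 : (0 : ℝ) < n := by exact_mod_cast hn
  obtain ⟨h1, h2⟩ := mert_log_succ hn
  have h3 : 0 < 1 / ((n : ℝ) + 1) := by positivity
  set a := Real.log n with ha
  set b := Real.log (n + 1) with hb
  have ha0 : 0 < a := by linarith
  have hb0 : 0 < b := by linarith
  unfold mertW
  push_cast
  rw [← ha, ← hb]
  constructor
  · have := Real.log_le_sub_one_of_pos (x := a / b) (by positivity)
    rw [Real.log_div ha0.ne' hb0.ne'] at this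
    have e : a / b - 1 = -((b - a) / b) := by field_simp; ring
    have e2 : 1 / (((n : ℝ) + 1) * b) = (1 / ((n : ℝ) + 1)) / b := by field_simp
    have : (1 / ((n : ℝ) + 1)) / b ≤ (b - a) / b := by gcongr
    linarith
  · have := Real.log_le_sub_one_of_pos (x := b / a) (by positivity)
    rw [Real.log_div hb0.ne' ha0.ne'] at this
    have e : b / a - 1 = (b - a) / a := by field_simp
    have e2 : 1 / ((n : ℝ) * a) = (1 / (n : ℝ)) / a := by field_simp
    have : (b - a) / a ≤ (1 / (n : ℝ)) / a := by gcongr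
    linarith

lemma mertW_diff {n : ℕ} (hn : 1 ≤ n) (hL : 1 ≤ Real.log n) :
    (n : ℝ) * (mertW n - mertW (n + 1)) ≤
      8 * Real.log n * (1 / Real.log n - 1 / Real.log (n + 1)) := by
  have h0 : (1 : ℝ) ≤ n := by exact_mod_cast hn
  obtain ⟨h1, h2⟩ := mert_log_succ hn
  have h3 : 0 < 1 / ((n : ℝ) + 1) := by positivity
  have h4 : 1 / (n : ℝ) ≤ 1 := by rw [div_le_one (by linarith)]; exact h0
  set a := Real.log n with ha
  set b := Real.log (n + 1) with hb
  have ha0 : 0 < a := by linarith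
  have hb0 : 0 < b := by linarith
  unfold mertW
  push_cast
  rw [← ha, ← hb]
  have e1 : (n : ℝ) * (1 / (n * a) - 1 / ((n + 1) * b)) =
      (((n : ℝ) + 1) * b - n * a) / (((n : ℝ) + 1) * a * b) := by field_simp
  have e2 : 8 * a * (1 / a - 1 / b) = (8 * a * (((n : ℝ) + 1) * (b - a))) /
      (((n : ℝ) + 1) * a * b) := by field_simp
  rw [e1, e2]
  gcongr
  have h5 : 1 ≤ ((n : ℝ) + 1) * (b - a) := by
    rw [div_le_iff₀ (by positivity)] at h1; linarith
  have h6 : (n : ℝ) * (b - a) ≤ 1 := by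
    rw [le_div_iff₀ (by positivity)] at h2; linarith
  nlinarith

/-- the telescoping quantity -/
noncomputable def mertG (n : ℕ) : ℝ :=
  ∑ m ∈ Ioc 0 n, (if m.Prime then (m : ℝ)⁻¹ else 0) - Real.log (Real.log n) - mertD n * mertW n

lemma mertG_succ {n : ℕ} (hn : 1 ≤ n) : mertG (n + 1) - mertG n =
    mertW (n + 1) - (Real.log (Real.log (n + 1)) - Real.log (Real.log n)) +
      mertD n * (mertW n - mertW (n + 1)) := by
  have e : mertL (n + 1) * mertW (n + 1) = if (n + 1).Prime then ((n + 1 : ℕ) : ℝ)⁻¹ else 0 := by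
    unfold mertL mertW
    split_ifs with h
    · have h1 : (1 : ℝ) < ((n + 1 : ℕ) : ℝ) := by exact_mod_cast h.one_lt
      have h2 := Real.log_pos h1
      field_simp
    · simp
  unfold mertG
  rw [sum_Ioc_succ_top (Nat.zero_le n), mertD_succ, ← e]
  push_cast; ring

lemma mertG_bound {B y : ℕ} (hy : 1 ≤ y) (hL : 1 ≤ Real.log y)
    (hD : ∀ n, y ≤ n → |mertD n| ≤ n / Real.log n ^ (B + 1)) {z : ℕ} (hz : y ≤ z) :
    |mertG z - mertG y| ≤ (mertW y + 8 / Real.log y ^ B * (1 / Real.log y)) -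
      (mertW z + 8 / Real.log y ^ B * (1 / Real.log z)) := by
  induction z, hz using Nat.le_induction with
  | base => simp
  | succ n hn ih =>
    have hn1 : 1 ≤ n := hy.trans hn
    have hy0 : (0 : ℝ) < y := by exact_mod_cast hy
    have hyn : Real.log y ≤ Real.log n := Real.log_le_log hy0 (by exact_mod_cast hn)
    have hLn : 1 ≤ Real.log n := hL.trans hyn
    obtain ⟨h1, h2⟩ := mert_loglog_succ hn1 hLn
    have h3 := mertW_diff hn1 hLn
    have h4 := hD n hn
    have h5 : 0 ≤ mertW n - mertW (n + 1) := by linarith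
    obtain ⟨h6, -⟩ := mert_log_succ hn1
    have h7 : 0 < 1 / ((n : ℝ) + 1) := by positivity
    have h8 : 0 ≤ 1 / Real.log n - 1 / Real.log (n + 1) := by
      have : 1 / Real.log (n + 1) ≤ 1 / Real.log n :=
        one_div_le_one_div_of_le (by linarith) (by linarith)
      linarith
    have h9 : |mertD n * (mertW n - mertW (n + 1))| ≤
        8 / Real.log y ^ B * (1 / Real.log n - 1 / Real.log (n + 1)) := by
      rw [abs_mul, abs_of_nonneg h5]
      have hp : 0 < Real.log n := by linarith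
      calc _ ≤ n / Real.log n ^ (B + 1) * (mertW n - mertW (n + 1)) := by gcongr
        _ = (n * (mertW n - mertW (n + 1))) / Real.log n ^ (B + 1) := by ring
        _ ≤ (8 * Real.log n * (1 / Real.log n - 1 / Real.log (n + 1))) / Real.log n ^ (B + 1) := by
          gcongr
        _ = 8 / Real.log n ^ B * (1 / Real.log n - 1 / Real.log (n + 1)) := by
          rw [pow_succ]; field_simp
        _ ≤ _ := by gcongr
    have e := mertG_succ hn1
    push_cast
    rw [abs_le] at ih h9 ⊢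
    constructor <;> linarith [ih.1, ih.2, h9.1, h9.2]

lemma mert_nat (B : ℕ) : ∀ᶠ y : ℕ in atTop, ∀ z : ℕ, y ≤ z →
    mertW z ≤ 1 / Real.log y ^ B ∧
    |∑ p ∈ (Ioc y z).filter Nat.Prime, (p : ℝ)⁻¹ -
      (Real.log (Real.log z) - Real.log (Real.log y))| ≤ 11 / Real.log y ^ B := by
  obtain ⟨y₀, hy₀⟩ := eventually_atTop.1 (mert_theta (B + 1))
  filter_upwards [eventually_ge_atTop y₀, eventually_ge_atTop 1,
    Lib.ANT.PNTError.tendsto_log.eventually_ge_atTop 1,
    Lib.ANT.PNTError.eventually_pow_log_le 1 one_pos B] with y h0 h1 hL hP z hz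
  have hD : ∀ n, y ≤ n → |mertD n| ≤ n / Real.log n ^ (B + 1) :=
    fun n hn => hy₀ n (h0.trans hn) n le_rfl
  have hy0 : (0 : ℝ) < y := by exact_mod_cast h1
  have hLB : 0 < Real.log y ^ B := by positivity
  have hW : ∀ n, y ≤ n → 0 ≤ mertW n ∧ mertW n ≤ 1 / Real.log y ^ B ∧
      |mertD n * mertW n| ≤ 1 / Real.log y ^ B := by
    intro n hn
    have hyn' : (y : ℝ) ≤ n := by exact_mod_cast hn
    have hyn : Real.log y ≤ Real.log n := Real.log_le_log hy0 hyn'
    have hLn : 1 ≤ Real.log n := hL.trans hyn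
    have hn0 : (0 : ℝ) < n := by linarith
    have hw0 : 0 ≤ mertW n := by unfold mertW; positivity
    refine ⟨hw0, ?_, ?_⟩
    · unfold mertW
      apply one_div_le_one_div_of_le hLB
      nlinarith
    · rw [abs_mul, abs_of_nonneg hw0]
      have hp : 0 < Real.log n := by linarith
      calc _ ≤ n / Real.log n ^ (B + 1) * mertW n := by gcongr; exact hD n hn
        _ = 1 / (Real.log n ^ B * (Real.log n * Real.log n)) := by
          unfold mertW; rw [pow_succ]; field_simp
        _ ≤ 1 / (Real.log y ^ B * 1) := by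
          apply one_div_le_one_div_of_le (by positivity)
          gcongr
          nlinarith
        _ = _ := by rw [mul_one]
  refine ⟨(hW z hz).2.1, ?_⟩
  have hG := mertG_bound h1 hL hD hz
  have e : ∑ p ∈ (Ioc y z).filter Nat.Prime, (p : ℝ)⁻¹ -
      (Real.log (Real.log z) - Real.log (Real.log y)) =
      mertG z - mertG y + mertD z * mertW z - mertD y * mertW y := by
    unfold mertG
    rw [sum_filter, ← sum_Ioc_consecutive _ (Nat.zero_le y) hz]
    ring
  obtain ⟨a1, a2, a3⟩ := hW y le_rfl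
  obtain ⟨b1, -, b3⟩ := hW z hz
  have hzL : 0 ≤ Real.log z := Real.log_natCast_nonneg z
  have c1 : 0 ≤ 8 / Real.log y ^ B * (1 / Real.log z) := by positivity
  have c2 : 8 / Real.log y ^ B * (1 / Real.log y) ≤ 8 / Real.log y ^ B * 1 := by
    gcongr
    rw [div_le_one (by linarith)]; exact hL
  have c3 : (11 : ℝ) / Real.log y ^ B = 8 / Real.log y ^ B + 3 * (1 / Real.log y ^ B) := by ring
  rw [e, c3]
  rw [abs_le] at hG a3 b3 ⊢
  constructor <;> linarith [hG.1, hG.2, a3.1, a3.2, b3.1, b3.2]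

lemma mert_floor {t : ℝ} (h1 : 1 ≤ ⌊Real.exp t⌋₊) (hL : 1 ≤ Real.log ⌊Real.exp t⌋₊) :
    t - 1 ≤ Real.log ⌊Real.exp t⌋₊ ∧
    0 ≤ Real.log t - Real.log (Real.log ⌊Real.exp t⌋₊) ∧
      Real.log t - Real.log (Real.log ⌊Real.exp t⌋₊) ≤ mertW ⌊Real.exp t⌋₊ := by
  set n := ⌊Real.exp t⌋₊ with hn
  have h0 : (1 : ℝ) ≤ n := by exact_mod_cast h1
  have a1 : Real.log n ≤ t := by
    rw [Real.log_le_iff_le_exp (by linarith)]; exact Nat.floor_le (Real.exp_pos t).le
  have a2 : t ≤ Real.log (n + 1) := by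
    rw [Real.le_log_iff_exp_le (by linarith)]; exact (Nat.lt_floor_add_one _).le
  obtain ⟨-, b2⟩ := mert_log_succ h1
  have b3 : 1 / (n : ℝ) ≤ 1 := by rw [div_le_one (by linarith)]; exact h0
  obtain ⟨-, c2⟩ := mert_loglog_succ h1 hL
  have d1 : Real.log (Real.log n) ≤ Real.log t := Real.log_le_log (by linarith) a1
  have d2 : Real.log t ≤ Real.log (Real.log (n + 1)) := Real.log_le_log (by linarith) a2
  exact ⟨by linarith, by linarith, by linarith⟩

theorem mertens_pnt (A : ℕ) : ∀ᶠ lo : ℝ in atTop, ∀ hi : ℝ, lo ≤ hi →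
    |∑ p ∈ Pr lo hi, (p : ℝ)⁻¹ - Real.log (hi / lo)| ≤ 1 / lo ^ A := by
  have ht : Tendsto (fun t : ℝ => ⌊Real.exp t⌋₊) atTop atTop :=
    tendsto_nat_floor_atTop.comp Real.tendsto_exp_atTop
  filter_upwards [ht.eventually (mert_nat (A + 1)), ht.eventually (eventually_ge_atTop 1),
    ht.eventually (Lib.ANT.PNTError.tendsto_log.eventually_ge_atTop 1),
    eventually_ge_atTop (2 : ℝ), eventually_ge_atTop ((13 : ℝ) * 2 ^ (A + 1))]
    with lo hm h1 hL h2 h3 hi hle
  set y := ⌊Real.exp lo⌋₊ with hy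
  set z := ⌊Real.exp hi⌋₊ with hz
  have hyz : y ≤ z := Nat.floor_le_floor (Real.exp_le_exp.2 hle)
  have hy0 : (0 : ℝ) < y := by exact_mod_cast h1
  have hLz : 1 ≤ Real.log z := hL.trans (Real.log_le_log hy0 (by exact_mod_cast hyz))
  obtain ⟨a1, a2, a3⟩ := mert_floor (t := lo) h1 hL
  obtain ⟨-, b2, b3⟩ := mert_floor (t := hi) (h1.trans hyz) hLz
  rw [← hy] at a1 a2 a3
  rw [← hz] at b2 b3
  have hP : Pr lo hi = (Ioc y z).filter Nat.Prime := by
    ext p
    rw [mem_Pr, mem_filter, mem_Ioc]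
    constructor
    · rintro ⟨p1, p2, p3⟩
      have h0 : (0 : ℝ) < p := by exact_mod_cast p1.pos
      rw [Real.lt_log_iff_exp_lt h0] at p2
      rw [Real.log_le_iff_le_exp h0] at p3
      exact ⟨⟨(Nat.floor_lt (Real.exp_pos _).le).2 p2, Nat.le_floor p3⟩, p1⟩
    · rintro ⟨⟨p2, p3⟩, p1⟩
      have h0 : (0 : ℝ) < p := by exact_mod_cast p1.pos
      rw [Real.lt_log_iff_exp_lt h0, Real.log_le_iff_le_exp h0]
      exact ⟨p1, (Nat.floor_lt (Real.exp_pos _).le).1 p2,
        (Nat.le_floor_iff (Real.exp_pos _).le).1 p3⟩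
  obtain ⟨w1, -⟩ := hm y le_rfl
  obtain ⟨w2, hm⟩ := hm z hyz
  have hlo : 0 < lo := by linarith
  have hfin : 13 * (1 / Real.log y ^ (A + 1)) ≤ 1 / lo ^ A := by
    have e1 : (lo / 2) ^ (A + 1) ≤ Real.log y ^ (A + 1) := by gcongr; linarith
    calc _ ≤ 13 * (1 / (lo / 2) ^ (A + 1)) := by gcongr
      _ = (13 * 2 ^ (A + 1) / lo) * (1 / lo ^ A) := by rw [div_pow, pow_succ lo]; field_simp
      _ ≤ 1 * (1 / lo ^ A) := by gcongr; rw [div_le_one hlo]; exact h3
      _ = _ := one_mul _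
  have c3 : (11 : ℝ) / Real.log y ^ (A + 1) = 11 * (1 / Real.log y ^ (A + 1)) := by ring
  have c4 : 0 ≤ 1 / Real.log y ^ (A + 1) := by positivity
  rw [hP, Real.log_div (by linarith) hlo.ne']
  rw [c3, abs_le] at hm
  rw [abs_le]
  constructor <;> linarith [hm.1, hm.2]

end Pool.Agent.Work.MP_82fd4a_nt
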