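import Pool.Agent.Work.MP_82fd4a_nt.Trans
import Pool.Agent.Work.MP_82fd4a_nt.Mert

/-! Blocks of primes on a doubly logarithmic scale. -/

set_option autoImplicit false
open Filter Topology Finset

namespace Pool.Agent.Work.MP_82fd4a_nt

/-- relative width of the blocks -/
noncomputable def gam : ℝ := 1 / 1000

/-- the end points of the blocks -/
noncomputable def uu (s : ℝ) (l : ℕ) : ℝ := s * (1 + gam) ^ l

/-- the blocks of primes -/
noncomputable def blk (Z s : ℝ) (l : ℕ) : Finset ℕ :=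
  Pr (Z * Real.exp (-uu s (l + 1))) (Z * Real.exp (-uu s l))

/-- slightly less than the expected number of prime factors in a block -/
noncomputable def nn (s : ℝ) (l : ℕ) : ℕ := ⌈(1 - gam) * gam * uu s l⌉₊

/-- the first `n` blocks -/
noncomputable def bls (Z s : ℝ) (n : ℕ) : List (Finset ℕ × ℕ) :=
  (List.range n).map fun l => (blk Z s l, 2 * nn s l)

lemma blocks_uu_succ (s : ℝ) (l : ℕ) : uu s (l + 1) = uu s l + gam * uu s l := by
  unfold uu; ring

lemma blocks_le_uu {s : ℝ} (hs : 0 ≤ s) (l : ℕ) : s ≤ uu s l := by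
  unfold uu
  exact le_mul_of_one_le_right hs (one_le_pow₀ (by norm_num [gam]))

lemma blocks_uu_mono {s : ℝ} (hs : 0 ≤ s) {l l' : ℕ} (h : l ≤ l') : uu s l ≤ uu s l' := by
  unfold uu
  exact mul_le_mul_of_nonneg_left (pow_le_pow_right₀ (by norm_num [gam]) h) hs

lemma blocks_uu_add {s : ℝ} (hs : 0 ≤ s) (l j : ℕ) : uu s l + j * (gam * s) ≤ uu s (l + j) := by
  induction j with
  | zero => simp
  | succ j ih =>
    rw [← add_assoc, blocks_uu_succ]
    have h1 := mul_le_mul_of_nonneg_left (blocks_le_uu hs (l + j)) (by norm_num [gam] : 0 ≤ gam)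
    push_cast
    linarith

lemma blocks_om_nat (P : Finset ℕ) (n : ℕ) : ∃ k : ℕ, om P n = k := by
  unfold om cadd
  induction n.primeFactorsList with
  | nil => exact ⟨0, by simp⟩
  | cons p l ih =>
    obtain ⟨k, hk⟩ := ih
    rw [List.map_cons, List.sum_cons, hk]
    split_ifs
    · exact ⟨k + 1, by push_cast; ring⟩
    · exact ⟨k, by simp⟩

lemma blocks_geom {s : ℝ} (hs : 2 * 10 ^ 12 ≤ s) (l₀ n : ℕ) :
    ∑ l ∈ Ico l₀ n, Real.exp (-(gam ^ 3 * uu s l / 2)) ≤
      2 * Real.exp (-(gam ^ 3 * uu s l₀ / 2)) := by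
  have hs0 : 0 ≤ s := by linarith
  rw [sum_Ico_eq_sum_range]
  have h1 : ∀ j ∈ range (n - l₀), Real.exp (-(gam ^ 3 * uu s (l₀ + j) / 2)) ≤
      (1 / 2 : ℝ) ^ j * Real.exp (-(gam ^ 3 * uu s l₀ / 2)) := by
    intro j _
    have h2 : Real.exp (-1) ≤ 1 / 2 := by
      have := Real.exp_neg_one_lt_d9
      linarith
    refine le_trans ?_ (mul_le_mul_of_nonneg_right
      (pow_le_pow_left₀ (Real.exp_pos _).le h2 j) (Real.exp_pos _).le)
    rw [← Real.exp_nat_mul, ← Real.exp_add]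
    refine Real.exp_le_exp.2 ?_
    have h3 := blocks_uu_add hs0 l₀ j
    have h4 := mul_le_mul_of_nonneg_left hs (Nat.cast_nonneg (α := ℝ) j)
    unfold gam at h3 ⊢
    nlinarith
  refine (sum_le_sum h1).trans ?_
  rw [← sum_mul]
  exact mul_le_mul_of_nonneg_right (sum_geometric_two_le _) (Real.exp_pos _).le

/-- numbers with few prime factors in some block are rare -/
theorem atypical {s : ℝ} (hs : 2 * 10 ^ 12 ≤ s) : ∀ᶠ Z : ℝ in atTop, ∀ n l₀ : ℕ,
    uu s n ≤ (1 - gam) * Real.log Z → ∀ A : Finset ℕ,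
    (∀ a ∈ A, Smooth (Real.exp Z) a ∧ ∃ l, l₀ ≤ l ∧ l < n ∧ om (blk Z s l) a < nn s l) →
    ∑ a ∈ A, (a : ℝ)⁻¹ ≤ 4 * Real.exp (-(gam ^ 3 * uu s l₀ / 2)) * VV (Real.exp Z) := by
  classical
  have hs0 : 0 ≤ s := by linarith
  have hg : 0 < gam := by norm_num [gam]
  obtain ⟨lo, hlo⟩ := eventually_atTop.1 ((mertens_pnt 1).and (eventually_ge_atTop (20 : ℝ)))
  have ht : Tendsto (fun Z : ℝ => Real.exp (gam * Real.log Z)) atTop atTop :=
    Real.tendsto_exp_atTop.comp (Real.tendsto_log_atTop.const_mul_atTop hg)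
  filter_upwards [ht.eventually_ge_atTop lo, eventually_gt_atTop (0 : ℝ)] with Z hZ hZ0
  intro n l₀ hn A hA
  have hV : 0 ≤ VV (Real.exp Z) := by simpa using sum_inv_smooth (Real.exp Z) ∅ (by simp)
  have key : ∀ l ∈ Ico l₀ n, ∑ a ∈ A with om (blk Z s l) a < nn s l, (a : ℝ)⁻¹ ≤
      2 * Real.exp (-(gam ^ 3 * uu s l / 2)) * VV (Real.exp Z) := by
    intro l hl
    have hu0 : 0 ≤ uu s l := hs0.trans (blocks_le_uu hs0 l)
    have h1 : lo ≤ Z * Real.exp (-uu s (l + 1)) := by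
      refine hZ.trans ?_
      nth_rewrite 2 [← Real.exp_log hZ0]
      rw [← Real.exp_add]
      have := blocks_uu_mono hs0 (show l + 1 ≤ n from (mem_Ico.1 hl).2)
      exact Real.exp_le_exp.2 (by linarith)
    obtain ⟨h2, h3⟩ := hlo _ h1
    have h4 := h2 (Z * Real.exp (-uu s l)) (mul_le_mul_of_nonneg_left
      (Real.exp_le_exp.2 (neg_le_neg (blocks_uu_mono hs0 (Nat.le_succ l)))) hZ0.le)
    rw [mul_div_mul_left _ _ hZ0.ne', ← Real.exp_sub, Real.log_exp, pow_one] at h4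
    have h5 : 1 / (Z * Real.exp (-uu s (l + 1))) ≤ 1 / 20 :=
      one_div_le_one_div_of_le (by norm_num) h3
    have h6 : gam * uu s l - 1 / 20 ≤ ∑ p ∈ blk Z s l, (p : ℝ)⁻¹ := by
      have := (abs_le.1 h4).1
      have h7 := blocks_uu_succ s l
      unfold blk
      linarith
    have h8 := few_primes (Real.exp Z) (blk Z s l) (fun p hp => by
      obtain ⟨e1, -, e2⟩ := mem_Pr.1 hp
      refine ⟨e1, ?_⟩
      rw [← Real.log_le_iff_le_exp (by exact_mod_cast e1.pos)]
      exact e2.trans (mul_le_of_le_one_right hZ0.le (Real.exp_le_one_iff.2 (by linarith))))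
      hg.le ((1 - gam) * gam * uu s l) (A.filter fun a => om (blk Z s l) a < nn s l)
      fun a ha => by
        obtain ⟨e1, e2⟩ := mem_filter.1 ha
        refine ⟨(hA a e1).1, ?_⟩
        obtain ⟨k, hk⟩ := blocks_om_nat (blk Z s l) a
        rw [hk] at e2 ⊢
        exact (Nat.lt_ceil.1 (by exact_mod_cast e2)).le
    refine h8.trans (mul_le_mul_of_nonneg_right ?_ hV)
    have h9 : Real.exp (1 / 2) ≤ 2 := by
      have := Real.abs_exp_sub_one_le (x := 1 / 2) (by rw [abs_of_nonneg] <;> norm_num)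
      rw [abs_of_nonneg (by norm_num : (0 : ℝ) ≤ 1 / 2)] at this
      linarith [le_abs_self (Real.exp (1 / 2) - 1)]
    refine le_trans ?_ (mul_le_mul_of_nonneg_right h9 (Real.exp_pos _).le)
    rw [← Real.exp_add]
    refine Real.exp_le_exp.2 ?_
    unfold gam at h6 ⊢
    linarith
  calc ∑ a ∈ A, (a : ℝ)⁻¹
      ≤ ∑ a ∈ A, ∑ l ∈ Ico l₀ n, if om (blk Z s l) a < nn s l then (a : ℝ)⁻¹ else 0 := by
        refine sum_le_sum fun a ha => ?_
        obtain ⟨l, e1, e2, e3⟩ := (hA a ha).2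
        refine le_trans (le_of_eq (if_pos e3).symm) (single_le_sum
          (f := fun l => if om (blk Z s l) a < nn s l then (a : ℝ)⁻¹ else 0) (fun l _ => ?_)
          (mem_Ico.2 ⟨e1, e2⟩))
        split_ifs <;> positivity
    _ = ∑ l ∈ Ico l₀ n, ∑ a ∈ A with om (blk Z s l) a < nn s l, (a : ℝ)⁻¹ := by
        rw [sum_comm]
        exact sum_congr rfl fun l _ => (sum_filter _ _).symm
    _ ≤ ∑ l ∈ Ico l₀ n, 2 * Real.exp (-(gam ^ 3 * uu s l / 2)) * VV (Real.exp Z) :=
        sum_le_sum key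
    _ ≤ _ := by
        rw [← sum_mul, ← mul_sum]
        refine mul_le_mul_of_nonneg_right ?_ hV
        linarith [blocks_geom hs l₀ n]

theorem length_pat_le {s : ℝ} (hs : 10 ^ 6 ≤ s) (Z : ℝ) (n : ℕ) :
    ((pat (bls Z s n)).length : ℝ) ≤ 2 * (uu s n - s) := by
  have hs0 : 0 ≤ s := by linarith
  induction n with
  | zero => simp [pat, bls, uu]
  | succ n ih =>
    have h1 : (pat (bls Z s (n + 1))).length = (pat (bls Z s n)).length + 2 * nn s n := by
      simp [pat, bls, List.range_succ]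
    have h2 := blocks_le_uu hs0 n
    have h3 : (nn s n : ℝ) < (1 - gam) * gam * uu s n + 1 :=
      Nat.ceil_lt_add_one (mul_nonneg (by norm_num [gam]) (hs0.trans h2))
    rw [h1, blocks_uu_succ]
    push_cast
    unfold gam at h3 ⊢
    linarith

theorem bls_disjoint {s Z : ℝ} (hs : 0 ≤ s) (hZ : 0 ≤ Z) (n : ℕ) :
    (bls Z s n).Pairwise fun b b' => Disjoint b.1 b'.1 := by
  unfold bls
  rw [List.pairwise_map]
  refine List.pairwise_lt_range.imp fun {l l'} h => disjoint_left.2 fun p hp hp' => ?_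
  have h1 := (mem_Pr.1 hp).2.1
  have h2 := (mem_Pr.1 hp').2.2
  have h3 := mul_le_mul_of_nonneg_left
    (Real.exp_le_exp.2 (neg_le_neg (blocks_uu_mono hs (show l + 1 ≤ l' from h)))) hZ
  linarith

end Pool.Agent.Work.MP_82fd4a_nt
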