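import Pool.Agent.Work.MP_82fd4a_nt.BridgeA

/-! Divisors in dyadic windows and subset sums on a cyclic group. -/

set_option autoImplicit false
open Finset

namespace Pool.Agent.Work.MP_82fd4a_nt

/-- number of divisors `e` of `s` with `y < e * q ≤ 2 * y` -/
noncomputable def win (s q : ℕ) (y : ℝ) : ℝ :=
  (#(s.divisors.filter fun e : ℕ => y < (e : ℝ) * q ∧ (e : ℝ) * q ≤ 2 * y) : ℝ)

lemma br_win {s q : ℕ} (hq : 0 < q) {y : ℝ} (hy : 0 < y) : win s q y = ∑ e ∈ s.divisors,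
    if 0 ≤ Real.log (2 * y) - Real.log q - Real.log e ∧
      Real.log (2 * y) - Real.log q - Real.log e < Real.log 2 then 1 else 0 := by
  rw [win, card_filter]
  push_cast
  refine sum_congr rfl fun e he => if_congr ?_ rfl rfl
  have e0 : (0 : ℝ) < e := by exact_mod_cast Nat.pos_of_mem_divisors he
  have q0 : (0 : ℝ) < q := by exact_mod_cast hq
  rw [← Real.log_lt_log_iff hy (mul_pos e0 q0),
    ← Real.log_le_log_iff (mul_pos e0 q0) (by positivity), Real.log_mul e0.ne' q0.ne',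
    Real.log_mul two_ne_zero hy.ne']
  constructor <;> rintro ⟨a, b⟩ <;> constructor <;> linarith

theorem bridge {Q : ℕ} [NeZero Q] {M r J K : ℕ} (hM : 3 ≤ M) (hr : 1 ≤ r) (hK : 1 ≤ K)
    {δ Λ : ℝ} (hδ : δ = Real.log 2 / (M * r)) (hΛ : 12 ≤ Λ)
    (hJ : 24 * ((M + 2) * r * 2 ^ J * δ) ≤ Λ) (hQ : 4 * Λ / δ ≤ Q)
    {s : ℕ} (hs : s ≠ 0) (hsΛ : Real.log s ≤ Λ / 8) (as : List ℕ) (hnd : as.Nodup)
    (hlen : as.length ≤ r) (has : ∀ p ∈ as, p.Prime ∧ p ∣ s ∧ ¬ p ^ 2 ∣ s)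
    (q : Fin K → ℕ) (hq : ∀ i : Fin K, Λ + (i : ℕ) * Λ / K ≤ Real.log (q i) ∧
      Real.log (q i) ≤ Λ + ((i : ℕ) + 1) * Λ / K)
    {y : ℝ} (hy : 0 < y) (hy1 : 5 * Λ / 4 ≤ Real.log y) (hy2 : Real.log y ≤ 15 * Λ / 8) :
    |∑ i, win s (q i) y - K * Real.log 2 / Λ * tau s| ≤ K * Real.log 2 / Λ * tau s *
      (2 / M + 4 * Λ / (K * (r * 2 ^ J * δ)) + 2 * (Λ / δ) *
        (disc Q r ((M + 2) * r) J (as.map (grid Q δ))
          + disc Q r ((M - 2) * r) J (as.map (grid Q δ)))) := by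
  obtain ⟨m, rfl⟩ : ∃ m, M = m + 2 := ⟨M - 2, by omega⟩
  rw [Nat.add_sub_cancel]
  have hm : 1 ≤ m := by omega
  have r0 : (0 : ℝ) < r := by exact_mod_cast hr
  have r1 : (1 : ℝ) ≤ r := by exact_mod_cast hr
  have m1 : (1 : ℝ) ≤ m := by exact_mod_cast hm
  have K0 : (0 : ℝ) < K := by exact_mod_cast hK
  have l2 : 0 < Real.log 2 := Real.log_pos one_lt_two
  have l3 : Real.log 2 < 0.7 := Real.log_two_lt_d9.trans (by norm_num)
  have Λ0 : 0 < Λ := by linarith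
  have δ0 : 0 < δ := by rw [hδ]; positivity
  have hδ' : Real.log 2 = ((m + 2 : ℕ) : ℝ) * r * δ := by rw [hδ]; field_simp
  have p2 : (1 : ℝ) ≤ 2 ^ J := one_le_pow₀ one_le_two
  obtain ⟨s', a1, a2, a3, a4⟩ := br_split (Q := Q) δ0 as hs hnd has
  have hmap : as.map (grid Q δ) =
      (as.map fun p : ℕ => ⌊Real.log p / δ⌋₊).map (Nat.cast : ℕ → ZMod Q) := by
    rw [List.map_map]; rfl
  rw [hmap] at a4 ⊢
  generalize (as.map fun p : ℕ => ⌊Real.log p / δ⌋₊) = l at a3 a4 ⊢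
  -- sizes
  obtain ⟨ρ, hρ⟩ : ∃ ρ, ρ = r * 2 ^ J * δ := ⟨_, rfl⟩
  have ρ1 : r * δ ≤ ρ := by
    have := mul_le_mul_of_nonneg_left p2 (mul_pos r0 δ0).le
    rw [hρ]; linarith
  have rδ : δ ≤ r * δ := le_mul_of_one_le_left δ0.le r1
  have hJ' : 24 * ((m + 4) * ρ) ≤ Λ := by
    refine le_of_eq_of_le ?_ hJ
    rw [hρ]; push_cast; ring
  have ρ2 : 5 * ρ ≤ (m + 4) * ρ := mul_le_mul_of_nonneg_right (by linarith) (by linarith)
  have ρ3 : (m + 4) * (r * δ) ≤ (m + 4) * ρ := mul_le_mul_of_nonneg_left ρ1 (by linarith)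
  have hQ' := hQ
  rw [div_le_iff₀ δ0] at hQ'
  have wQ : (m + 2 + 2) * r ≤ Q := by
    have : (((m + 2 + 2) * r : ℕ) : ℝ) * δ ≤ Q * δ := by push_cast; linarith
    exact_mod_cast le_of_mul_le_mul_right this δ0
  have hL : ∀ i, Λ ≤ Real.log (q i) ∧ Real.log (q i) ≤ 2 * Λ := fun i => by
    obtain ⟨c, d⟩ := hq i
    have : (((i : ℕ) : ℝ) + 1) * Λ / K ≤ Λ := by
      rw [div_le_iff₀ K0, mul_comm Λ]
      exact mul_le_mul_of_nonneg_right (by exact_mod_cast i.2) Λ0.le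
    exact ⟨le_trans (le_add_of_nonneg_right (by positivity)) c, by linarith⟩
  have q0 : ∀ i, 0 < q i := fun i => Nat.pos_of_ne_zero fun k => by
    have := (hL i).1
    rw [k, Nat.cast_zero, Real.log_zero] at this
    linarith
  have ly : Real.log (2 * y) = Real.log 2 + Real.log y := Real.log_mul two_ne_zero hy.ne'
  have hw : ∀ v : ℝ, (0 ≤ v ∧ v < Real.log 2) ↔ 0 ≤ v / δ ∧ v / δ < ((m + 2 : ℕ) : ℝ) * r :=
    fun v => by rw [le_div_iff₀ δ0, div_lt_iff₀ δ0, zero_mul, ← hδ']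
  -- the smoothed counts
  have sc : ∀ (w : ℕ) (c : ℤ), 1 ≤ w → w ≤ (m + 2 + 2) * r → |c| ≤ r → ∀ e ∈ s'.divisors,
      |∑ i, mu (l.map (Nat.cast : ℕ → ZMod Q)) (conv (box Q r) (box Q w))
        (((⌊(Real.log (2 * y) - Real.log (q i) - Real.log e) / δ⌋ : ℤ) : ZMod Q) + c)
          - δ * K / Λ| ≤ 2 / (w * 2 ^ J : ℕ) + K * disc Q r w J (l.map (Nat.cast : ℕ → ZMod Q)) := by
    intro w c w1 w2 hc e he
    have e1 := Real.log_le_log (by exact_mod_cast Nat.pos_of_mem_divisors he)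
      (show (e : ℝ) ≤ s' by exact_mod_cast Nat.divisor_le he)
    have e2 := Real.log_natCast_nonneg e
    have e3 : ((r * 2 ^ J : ℕ) : ℝ) * δ = ρ := by rw [hρ]; push_cast; ring
    have e4 : ((w * 2 ^ J : ℕ) : ℝ) * δ ≤ (m + 4) * ρ := by
      have : (w : ℝ) ≤ (m + 2 + 2) * r := by exact_mod_cast w2
      have := mul_le_mul_of_nonneg_right this (mul_pos (lt_of_lt_of_le one_pos p2) δ0).le
      rw [hρ]; push_cast
      linarith
    simp only [sub_right_comm _ _ (Real.log e)]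
    exact br_scale hK hr w1 δ0 hQ _ hq l c hc (by linarith) (by linarith) (by linarith)
  have t0 : 0 ≤ tau s := tau_nonneg s
  have d1 := br_disc_nonneg (Q := Q) r ((m + 2 + 2) * r) J (l.map (Nat.cast : ℕ → ZMod Q))
  have d2 := br_disc_nonneg (Q := Q) r (m * r) J (l.map (Nat.cast : ℕ → ZMod Q))
  have up : ∑ i, win s (q i) y ≤ tau s * (((m + 2 + 2) * r : ℕ) * (δ * K / Λ +
      (2 / ((m + 2 + 2) * r * 2 ^ J : ℕ) +
        K * disc Q r ((m + 2 + 2) * r) J (l.map (Nat.cast : ℕ → ZMod Q))))) := by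
    refine (sum_le_sum fun i _ => (br_win (q0 i) hy).trans_le
      (a4 _ (fun v => if 0 ≤ v ∧ v < Real.log 2 then 1 else 0)
        (fun t => ((m + 2 + 2) * r : ℕ) *
          conv (box Q r) (box Q ((m + 2 + 2) * r)) (t + (r - 1 : ℤ))) fun v V _ _ b3 b4 => by
        simp only [hw]
        exact br_up hr hlen wQ b3 b4)).trans ?_
    simp only [br_mu_aff]
    rw [← mul_sum, sum_comm, a2, mul_assoc, tau, ← nsmul_eq_mul, ← sum_const]
    refine mul_le_mul_of_nonneg_left (sum_le_sum fun e he => ?_) (by positivity)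
    rw [← mul_sum]
    refine mul_le_mul_of_nonneg_left ?_ (Nat.cast_nonneg _)
    have := (abs_le.1 (sc _ (r - 1) (Nat.mul_pos (by omega) hr) le_rfl (by rw [abs_le]; omega) e he)).2
    linarith
  have low : ∑ i, -win s (q i) y ≤ tau s * (-(m * r : ℕ) * (δ * K / Λ -
      (2 / (m * r * 2 ^ J : ℕ) + K * disc Q r (m * r) J (l.map (Nat.cast : ℕ → ZMod Q))))) := by
    refine (sum_le_sum fun i _ => ((congrArg Neg.neg (br_win (q0 i) hy)).trans
      (sum_neg_distrib _).symm).trans_le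
      (a4 _ (fun v => -if 0 ≤ v ∧ v < Real.log 2 then 1 else 0)
        (fun t => -(m * r : ℕ) *
          conv (box Q r) (box Q (m * r)) (t + (-r : ℤ))) fun v V b1 b2 b3 b4 => by
        simp only [hw]
        rw [neg_mul, neg_le_neg_iff]
        obtain ⟨c, d⟩ := hL i
        refine br_low hr hm hlen b3 b4 ?_ ?_ ((Nat.le_mul_of_pos_left r (by omega)).trans wQ)
        · rw [le_div_iff₀ δ0]
          push_cast
          linarith [mul_pos r0 δ0]
        · rw [div_lt_iff₀ δ0]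
          linarith)).trans ?_
    simp only [br_mu_aff]
    rw [← mul_sum, sum_comm, a2, mul_assoc, tau, ← nsmul_eq_mul, ← sum_const]
    refine mul_le_mul_of_nonneg_left (sum_le_sum fun e he => ?_) (by positivity)
    rw [← mul_sum]
    refine mul_le_mul_of_nonpos_left ?_ (neg_nonpos.2 (Nat.cast_nonneg _))
    have := (abs_le.1 (sc (m * r) (-r) (Nat.mul_pos hm hr)
      (Nat.mul_le_mul_right r (by omega)) (by simp) e he)).1
    linarith
  rw [sum_neg_distrib] at low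
  generalize disc Q r ((m + 2 + 2) * r) J (l.map (Nat.cast : ℕ → ZMod Q)) = D₁ at *
  generalize disc Q r (m * r) J (l.map (Nat.cast : ℕ → ZMod Q)) = D₂ at *
  have P0 : (0 : ℝ) < 2 ^ J := by positivity
  have e : K * Real.log 2 / Λ * tau s * (2 / ((m + 2 : ℕ) : ℝ) + 4 * Λ / (K * (r * 2 ^ J * δ)) +
      2 * (Λ / δ) * (D₁ + D₂)) = tau s * (2 * (r * (δ * K / Λ)) + 4 * (m + 2) / 2 ^ J +
        2 * (m + 2) * (r * K * D₁) + 2 * (m + 2) * (r * K * D₂)) := by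
    rw [hδ']; push_cast; field_simp; ring
  have e' : K * Real.log 2 / Λ * tau s = tau s * ((m + 2) * (r * (δ * K / Λ))) := by
    rw [hδ']; push_cast; ring
  have e1 : (((m + 2 + 2) * r : ℕ) : ℝ) * (δ * K / Λ + (2 / ((m + 2 + 2) * r * 2 ^ J : ℕ) + K * D₁)) =
      (m + 4) * (r * (δ * K / Λ)) + 2 / 2 ^ J + (m + 4) * (r * K * D₁) := by
    push_cast; field_simp; ring
  have e2 : -((m * r : ℕ) : ℝ) * (δ * K / Λ - (2 / (m * r * 2 ^ J : ℕ) + K * D₂)) =
      -(m * (r * (δ * K / Λ))) + 2 / 2 ^ J + m * (r * K * D₂) := by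
    have : (m : ℝ) ≠ 0 := by linarith
    push_cast; field_simp; ring
  rw [e1] at up
  rw [e2] at low
  rw [e, e', abs_le]
  have f1 : (2 : ℝ) / 2 ^ J ≤ 4 * (m + 2) / 2 ^ J := div_le_div_of_nonneg_right (by linarith) P0.le
  have f2 : 0 ≤ r * K * D₁ := by positivity
  have f3 : 0 ≤ r * K * D₂ := by positivity
  generalize (r : ℝ) * K * D₁ = E₁ at *
  generalize (r : ℝ) * K * D₂ = E₂ at *
  generalize (r : ℝ) * (δ * K / Λ) = κ at *
  have f4 := mul_nonneg (zero_le_one.trans m1) f2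
  have f5 := mul_nonneg (zero_le_one.trans m1) f3
  have g1 := mul_le_mul_of_nonneg_left (show (m + 4) * κ + 2 / 2 ^ J + (m + 4) * E₁ ≤
    (m + 2) * κ + (2 * κ + 4 * (m + 2) / 2 ^ J + 2 * (m + 2) * E₁ + 2 * (m + 2) * E₂) by linarith) t0
  have g2 := mul_le_mul_of_nonneg_left (show -(m * κ) + 2 / 2 ^ J + m * E₂ ≤
    -((m + 2) * κ) + (2 * κ + 4 * (m + 2) / 2 ^ J + 2 * (m + 2) * E₁ + 2 * (m + 2) * E₂) by
      linarith) t0
  constructor <;> linarith

end Pool.Agent.Work.MP_82fd4a_nt
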