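import Pool.Agent.Work.MP_82fd4a_nt.Conv

/-! The unfolding lemma of `mu`, generated once. -/

theorem Pool.Agent.Eqs.mu82 : type_of% @Pool.Agent.Work.MP_82fd4a_nt.mu.eq_def :=
  @Pool.Agent.Work.MP_82fd4a_nt.mu.eq_def
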