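import Pool.Agent.Work.MP_82fd4a_nt.Conv
import Pool.Agent.Work.MP_82fd4a_nt.ConvEqs

/-! Divisors in dyadic windows and subset sums on a cyclic group: auxiliary lemmas. -/

set_option autoImplicit false
open Finset

namespace Pool.Agent.Work.MP_82fd4a_nt

section aux

variable {Q : ℕ}

lemma br_mu_av (l : List (ZMod Q)) (a : ZMod Q) (f : ZMod Q → ℝ) :
    mu l (av a f) = av a (mu l f) := by
  induction l with
  | nil => rfl
  | cons b l ih =>
    funext y
    simp only [mu, ih, av, sub_right_comm y a b]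
    ring

lemma br_mu_add (l : List (ZMod Q)) (f g : ZMod Q → ℝ) (y : ZMod Q) :
    mu l (fun t => f t + g t) y = mu l f y + mu l g y := by
  induction l generalizing y with
  | nil => rfl
  | cons b l ih =>
    simp only [mu, ih, av]
    ring

lemma br_mu_aff (l : List (ZMod Q)) (f : ZMod Q → ℝ) (c : ℝ) (d y : ZMod Q) :
    mu l (fun t => c * f (t + d)) y = c * mu l f (y + d) := by
  induction l generalizing y with
  | nil => rfl
  | cons b l ih =>
    simp only [mu, ih, av, add_sub_right_comm y d b]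
    ring

/-- a bound that holds for all small shifts holds for the average over subset sums -/
lemma br_mu_shift {ι : Type*} (S : Finset ι) (l : List ℕ) (f : ZMod Q → ℝ) (V : ι → ZMod Q)
    {c B : ℝ} (h : ∀ n : ℕ, n ≤ l.sum → |∑ i ∈ S, f (V i - n) - c| ≤ B) :
    |∑ i ∈ S, mu (l.map (Nat.cast : ℕ → ZMod Q)) f (V i) - c| ≤ B := by
  induction l generalizing V with
  | nil => simpa [mu] using h 0 le_rfl
  | cons a l ih =>
    have h1 := ih V fun n hn => h n (by rw [List.sum_cons]; omega)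
    have h2 := ih (fun i => V i - a) fun n hn => by
      have := h (a + n) (by rw [List.sum_cons]; omega)
      simpa only [Nat.cast_add, sub_sub] using this
    simp only [List.map_cons, mu, av]
    rw [← sum_div, sum_add_distrib]
    rw [abs_le] at h1 h2 ⊢
    constructor <;> linarith [h1.1, h1.2, h2.1, h2.2]

variable [NeZero Q]

lemma br_box_int {w : ℕ} {n : ℤ} (h1 : (w : ℤ) - Q ≤ n) (h2 : n < Q) :
    box Q w (n : ZMod Q) = if 0 ≤ n ∧ n < w then 1 / (w : ℝ) else 0 := by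
  have e : (((n : ZMod Q).val : ℕ) : ℤ) = n % Q := ZMod.val_intCast n
  unfold box
  refine if_congr ?_ rfl rfl
  rcases le_or_gt 0 n with h | h
  · rw [Int.emod_eq_of_lt h h2] at e
    omega
  · rw [Int.emod_eq_add_self_emod, Int.emod_eq_of_lt (by omega) (by omega)] at e
    omega

omit [NeZero Q] in
lemma br_box_nonneg (w : ℕ) (y : ZMod Q) : 0 ≤ box Q w y := by
  unfold box
  split_ifs <;> positivity

lemma br_conv_box {r : ℕ} (hr : r ≤ Q) (g : ZMod Q → ℝ) (y : ZMod Q) :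
    conv (box Q r) g y = (∑ t ∈ range r, g (y - t)) / r := by
  unfold conv box
  rw [sum_div]
  simp only [ite_mul, zero_mul]
  rw [← sum_filter]
  refine sum_nbij' ZMod.val Nat.cast (fun t ht => ?_) (fun t ht => ?_) (fun t _ => ?_)
    (fun t ht => ?_) fun t _ => ?_
  · simpa using ht
  · have : t < r := by simpa using ht
    rw [mem_filter, ZMod.val_cast_of_lt (this.trans_le hr)]
    exact ⟨mem_univ _, this⟩
  · simp
  · have : t < r := by simpa using ht
    exact ZMod.val_cast_of_lt (this.trans_le hr)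
  · rw [ZMod.natCast_zmod_val]
    ring

lemma br_tele {r w : ℕ} (hr : 2 * r ≤ Q) : conv (box Q r) (box Q w) =
    fun y => conv (box Q (2 * r)) (box Q (2 * w)) y + conv (box Q r) (Kd Q r w) y := by
  funext y
  rw [br_conv_box hr, br_conv_box (by omega), br_conv_box (by omega), two_mul r, sum_range_add]
  simp only [Kd, av, sum_sub_distrib, ← sum_div, sum_add_distrib, Nat.cast_add, sub_sub,
    add_comm (r : ZMod Q)]
  rcases eq_or_ne (r : ℝ) 0 with h | h
  · simp [h]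
  · field_simp
    ring

lemma br_disc {r w : ℕ} (J : ℕ) (hr : r * 2 ^ J ≤ Q) (l : List (ZMod Q)) (y : ZMod Q) :
    |mu l (conv (box Q r) (box Q w)) y - mu l (conv (box Q (r * 2 ^ J)) (box Q (w * 2 ^ J))) y|
      ≤ disc Q r w J l := by
  induction J with
  | zero => simp [disc]
  | succ J ih =>
    have e1 : r * 2 ^ (J + 1) = 2 * (r * 2 ^ J) := by ring
    have e2 : w * 2 ^ (J + 1) = 2 * (w * 2 ^ J) := by ring
    have := ih (by omega)
    rw [br_tele (r := r * 2 ^ J) (by omega), br_mu_add] at this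
    have h2 := norm_le_pi_norm (mu l (conv (box Q (r * 2 ^ J)) (Kd Q (r * 2 ^ J) (w * 2 ^ J)))) y
    rw [disc, sum_range_succ, ← disc, e1, e2]
    rw [Real.norm_eq_abs, abs_le] at h2
    rw [abs_le] at this ⊢
    constructor <;> linarith [this.1, this.2, h2.1, h2.2]

lemma br_disc_nonneg (r w J : ℕ) (l : List (ZMod Q)) : 0 ≤ disc Q r w J l :=
  sum_nonneg fun _ _ => norm_nonneg _

end aux

lemma br_count {K : ℕ} (u : Fin K → ℝ) (hu : ∀ i : Fin K, (i : ℕ) ≤ u i ∧ u i ≤ (i : ℕ) + 1)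
    {a b : ℝ} (ha : 0 ≤ a) (hab : a ≤ b) (hb : b ≤ K) :
    |(#{i | a < u i ∧ u i ≤ b} : ℝ) - (b - a)| ≤ 2 := by
  have a1 := Nat.floor_le ha
  have a2 := Nat.lt_floor_add_one a
  have b1 := Nat.floor_le (ha.trans hab)
  have b2 := Nat.lt_floor_add_one b
  have m := Nat.floor_mono hab
  have bK : ⌊b⌋₊ ≤ K := by exact_mod_cast b1.trans hb
  have h1 : #{i | a < u i ∧ u i ≤ b} ≤ #(Icc ⌊a⌋₊ ⌊b⌋₊) := by
    refine card_le_card_of_injOn Fin.val (fun i hi => ?_) Fin.val_injective.injOn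
    obtain ⟨c, d⟩ : a < u i ∧ u i ≤ b := by simpa using hi
    have e1 : (⌊a⌋₊ : ℝ) < (i : ℕ) + 1 := by linarith [(hu i).2]
    have e2 : ⌊a⌋₊ < (i : ℕ) + 1 := by exact_mod_cast e1
    rw [coe_Icc]
    exact ⟨by omega, Nat.le_floor ((hu i).1.trans d)⟩
  have h2 : #(Ioo ⌊a⌋₊ ⌊b⌋₊) ≤ #{i | a < u i ∧ u i ≤ b} := by
    refine card_le_card_of_surjOn Fin.val fun j hj => ?_
    rw [coe_Ioo] at hj
    refine ⟨⟨j, hj.2.trans_le bK⟩, ?_, rfl⟩
    have e1 : (⌊a⌋₊ : ℝ) + 1 ≤ j := by exact_mod_cast hj.1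
    have e2 : (j : ℝ) + 1 ≤ ⌊b⌋₊ := by exact_mod_cast hj.2
    have := hu ⟨j, hj.2.trans_le bK⟩
    simp only [coe_filter, mem_univ, true_and, Set.mem_ofPred_eq]
    constructor <;> linarith [this.1, this.2]
  rw [Nat.card_Icc] at h1
  rw [Nat.card_Ioo] at h2
  have h3 : (#{i | a < u i ∧ u i ≤ b} : ℝ) + ⌊a⌋₊ ≤ ⌊b⌋₊ + 1 := by
    exact_mod_cast (by omega : #{i | a < u i ∧ u i ≤ b} + ⌊a⌋₊ ≤ ⌊b⌋₊ + 1)
  have h4 : (⌊b⌋₊ : ℝ) ≤ #{i | a < u i ∧ u i ≤ b} + ⌊a⌋₊ + 1 := by
    exact_mod_cast (by omega : ⌊b⌋₊ ≤ #{i | a < u i ∧ u i ≤ b} + ⌊a⌋₊ + 1)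
  rw [abs_le]
  constructor <;> linarith

/-- one window of length `w * δ` inside `[Λ, 2 * Λ]` -/
lemma br_window {Q : ℕ} [NeZero Q] {K w : ℕ} (hK : 1 ≤ K) (hw : 1 ≤ w) {δ Λ B : ℝ} (hδ : 0 < δ)
    (hΛ : δ ≤ Λ) (hQ : 4 * Λ / δ ≤ Q) (L : Fin K → ℝ)
    (hL : ∀ i : Fin K, Λ + (i : ℕ) * Λ / K ≤ L i ∧ L i ≤ Λ + ((i : ℕ) + 1) * Λ / K)
    (h1 : Λ + w * δ ≤ B) (h2 : B ≤ 2 * Λ) :
    |∑ i, box Q w ((⌊(B - L i) / δ⌋ : ℤ) : ZMod Q) - δ * K / Λ| ≤ 2 / w := by
  have hΛ0 : 0 < Λ := hδ.trans_le hΛ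
  have hK0 : (0 : ℝ) < K := by exact_mod_cast hK
  have hw0 : (0 : ℝ) < w := by exact_mod_cast hw
  have hwδ : 0 < w * δ := mul_pos hw0 hδ
  have hc : 0 < K / Λ := div_pos hK0 hΛ0
  rw [div_le_iff₀ hδ] at hQ
  have key := br_count (fun i => (L i - Λ) * (K / Λ)) (fun i => by
      obtain ⟨c, d⟩ := hL i
      constructor
      · calc ((i : ℕ) : ℝ) = (i : ℕ) * Λ / K * (K / Λ) := by field_simp
          _ ≤ _ := mul_le_mul_of_nonneg_right (by linarith) hc.le
      · calc _ ≤ ((i : ℕ) + 1) * Λ / K * (K / Λ) := mul_le_mul_of_nonneg_right (by linarith) hc.le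
          _ = _ := by field_simp)
    (a := (B - w * δ - Λ) * (K / Λ)) (b := (B - Λ) * (K / Λ))
    (mul_nonneg (by linarith) hc.le) (mul_le_mul_of_nonneg_right (by linarith) hc.le) (by
      calc _ ≤ Λ * (K / Λ) := mul_le_mul_of_nonneg_right (by linarith) hc.le
        _ = K := by field_simp)
  have e : ∀ i, box Q w ((⌊(B - L i) / δ⌋ : ℤ) : ZMod Q) =
      if (B - w * δ - Λ) * (K / Λ) < (L i - Λ) * (K / Λ) ∧
        (L i - Λ) * (K / Λ) ≤ (B - Λ) * (K / Λ) then 1 / (w : ℝ) else 0 := by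
    intro i
    obtain ⟨c, d⟩ := hL i
    have c' : Λ ≤ L i := le_trans (le_add_of_nonneg_right (by positivity)) c
    have d' : L i ≤ 2 * Λ := by
      have : (((i : ℕ) : ℝ) + 1) * Λ / K ≤ Λ := by
        rw [div_le_iff₀ hK0, mul_comm Λ]
        exact mul_le_mul_of_nonneg_right (by exact_mod_cast i.2) hΛ0.le
      linarith
    rw [br_box_int]
    · refine if_congr ?_ rfl rfl
      rw [Int.floor_nonneg, Int.floor_lt, mul_lt_mul_iff_left₀ hc, mul_le_mul_iff_left₀ hc,
        le_div_iff₀ hδ, div_lt_iff₀ hδ, Int.cast_natCast]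
      constructor <;> rintro ⟨p, q⟩ <;> constructor <;> linarith
    · rw [Int.le_floor, le_div_iff₀ hδ]
      push_cast
      linarith
    · rw [Int.floor_lt, div_lt_iff₀ hδ, Int.cast_natCast]
      linarith
  simp only [e]
  rw [← sum_filter, sum_const, nsmul_eq_mul]
  rw [show (B - Λ) * (K / Λ) - (B - w * δ - Λ) * (K / Λ) = w * (δ * K / Λ) by ring] at key
  generalize (#{i | (B - w * δ - Λ) * (K / Λ) < (L i - Λ) * (K / Λ) ∧
    (L i - Λ) * (K / Λ) ≤ (B - Λ) * (K / Λ)} : ℝ) = N at key ⊢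
  rw [show N * (1 / w) - δ * K / Λ = (N - w * (δ * K / Λ)) / w by field_simp, abs_div,
    abs_of_pos hw0]
  exact div_le_div_of_nonneg_right key hw0.le

/-- splitting off the primes of the list from the divisors -/
lemma br_split {Q : ℕ} {δ : ℝ} (hδ : 0 < δ) (as : List ℕ) {s : ℕ} (hs : s ≠ 0) (hnd : as.Nodup)
    (has : ∀ p ∈ as, p.Prime ∧ p ∣ s ∧ ¬ p ^ 2 ∣ s) :
    ∃ s' : ℕ, s' ≠ 0 ∧ tau s = 2 ^ as.length * tau s' ∧
      ((as.map fun p : ℕ => ⌊Real.log p / δ⌋₊).sum : ℕ) * δ + Real.log s' ≤ Real.log s ∧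
      ∀ (A : ℝ) (φ : ℝ → ℝ) (f : ZMod Q → ℝ),
        (∀ (v : ℝ) (V : ℤ), A - Real.log s ≤ v → v ≤ A → (V : ℝ) - as.length ≤ v / δ →
          v / δ < V + 1 → φ v ≤ f V) →
        ∑ e ∈ s.divisors, φ (A - Real.log e) ≤ 2 ^ as.length *
          ∑ e ∈ s'.divisors, mu (as.map (grid Q δ)) f (⌊(A - Real.log e) / δ⌋ : ℤ) := by
  induction as generalizing s with
  | nil =>
    refine ⟨s, hs, by simp, by simp, fun A φ f h => ?_⟩
    simp only [List.length_nil, pow_zero, one_mul, List.map_nil, mu]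
    refine sum_le_sum fun e he => h _ _ ?_ ?_ ?_ (Int.lt_floor_add_one _)
    · have := Real.log_le_log (by exact_mod_cast Nat.pos_of_mem_divisors he)
        (show (e : ℝ) ≤ s by exact_mod_cast Nat.divisor_le he)
      linarith
    · linarith [Real.log_natCast_nonneg e]
    · simpa using Int.floor_le _
  | cons p as ih =>
    obtain ⟨hp, ⟨t, rfl⟩, h2⟩ := has p List.mem_cons_self
    rw [List.nodup_cons] at hnd
    have ht : t ≠ 0 := right_ne_zero_of_mul hs
    have hpt : ¬ p ∣ t := fun k => h2 (by rw [pow_two]; exact Nat.mul_dvd_mul_left p k)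
    obtain ⟨s', a1, a2, a3, a4⟩ := ih ht hnd.2 fun r hr => by
      obtain ⟨b1, b2, b3⟩ := has r (List.mem_cons_of_mem _ hr)
      refine ⟨b1, ((Nat.Prime.dvd_mul b1).1 b2).resolve_left fun k => ?_,
        fun k => b3 (k.mul_left p)⟩
      exact hnd.1 ((Nat.prime_dvd_prime_iff_eq b1 hp).1 k ▸ hr)
    have hdiv : ∀ F : ℕ → ℝ, ∑ e ∈ (p * t).divisors, F e = ∑ e ∈ t.divisors, (F e + F (p * e)) := by
      intro F
      rw [Nat.divisors_mul, mul_def,
        sum_image ((Nat.Prime.coprime_iff_not_dvd hp).2 hpt).mul_injOn_divisors,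
        sum_product, hp.sum_divisors, sum_add_distrib, add_comm]
      simp
    have p0 : (p : ℝ) ≠ 0 := by exact_mod_cast hp.ne_zero
    have lp : 0 ≤ Real.log p := Real.log_natCast_nonneg p
    have hl : Real.log ((p * t : ℕ) : ℝ) = Real.log p + Real.log t := by
      rw [Nat.cast_mul, Real.log_mul p0 (by exact_mod_cast ht)]
    have g1 : (⌊Real.log p / δ⌋₊ : ℝ) ≤ Real.log p / δ := Nat.floor_le (div_nonneg lp hδ.le)
    have g2 := Nat.lt_floor_add_one (Real.log p / δ)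
    refine ⟨s', a1, ?_, ?_, fun A φ f h => ?_⟩
    · have := hdiv fun _ => 1
      simp only [sum_const, nsmul_eq_mul, mul_one] at this
      rw [tau, this, ← tau, a2, List.length_cons]
      ring
    · rw [List.map_cons, List.sum_cons, hl, Nat.cast_add]
      rw [le_div_iff₀ hδ] at g1
      linarith
    · have := a4 A (fun v => (φ v + φ (v - Real.log p)) / 2) (av (grid Q δ p) f)
        fun v V b1 b2 b3 b4 => by
          rw [hl, List.length_cons, Nat.cast_succ] at h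
          have c1 := h v V (by linarith) b2 (by linarith) b4
          have c2 := h (v - Real.log p) (V - ⌊Real.log p / δ⌋₊) (by linarith) (by linarith)
            (by push_cast; rw [sub_div]; linarith) (by push_cast; rw [sub_div]; linarith)
          rw [Int.cast_sub, Int.cast_natCast] at c2
          unfold av grid
          linarith
      rw [br_mu_av, ← sum_div] at this
      have e1 : ∑ e ∈ t.divisors, (φ (A - Real.log e) + φ (A - Real.log ((p * e : ℕ) : ℝ))) =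
          ∑ e ∈ t.divisors, (φ (A - Real.log e) + φ (A - Real.log e - Real.log p)) :=
        sum_congr rfl fun e he => by
          rw [Nat.cast_mul, Real.log_mul p0
            (by exact_mod_cast (Nat.pos_of_mem_divisors he).ne'), add_comm (Real.log p), ← sub_sub]
      rw [hdiv, List.length_cons, List.map_cons, mu, pow_succ, e1]
      linarith


/-- equidistribution of the smoothed window count for a fixed cofactor -/
lemma br_scale {Q : ℕ} [NeZero Q] {K r w J : ℕ} (hK : 1 ≤ K) (hr : 1 ≤ r) (hw : 1 ≤ w)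
    {δ Λ A : ℝ} (hδ : 0 < δ) (hQ : 4 * Λ / δ ≤ Q) (L : Fin K → ℝ)
    (hL : ∀ i : Fin K, Λ + (i : ℕ) * Λ / K ≤ L i ∧ L i ≤ Λ + ((i : ℕ) + 1) * Λ / K)
    (l : List ℕ) (c : ℤ) (hc : |c| ≤ r) (h0 : (r * 2 ^ J : ℕ) * δ ≤ Λ)
    (h1 : Λ + (w * 2 ^ J : ℕ) * δ + l.sum * δ + 2 * ((r * 2 ^ J : ℕ) * δ) ≤ A)
    (h2 : A + r * δ ≤ 2 * Λ) :
    |∑ i, mu (l.map (Nat.cast : ℕ → ZMod Q)) (conv (box Q r) (box Q w))
      (((⌊(A - L i) / δ⌋ : ℤ) : ZMod Q) + c) - δ * K / Λ| ≤
      2 / (w * 2 ^ J : ℕ) + K * disc Q r w J (l.map (Nat.cast : ℕ → ZMod Q)) := by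
  have p2 : 1 ≤ 2 ^ J := Nat.one_le_two_pow
  have r1 : r ≤ r * 2 ^ J := Nat.le_mul_of_pos_right r p2
  have r0 : 1 ≤ r * 2 ^ J := hr.trans r1
  have w0 : 1 ≤ w * 2 ^ J := hw.trans (Nat.le_mul_of_pos_right w p2)
  have r1' : (r : ℝ) ≤ (r * 2 ^ J : ℕ) := by exact_mod_cast r1
  have r0' : (1 : ℝ) ≤ (r * 2 ^ J : ℕ) := by exact_mod_cast r0
  have hΛ : δ ≤ Λ := le_trans (le_mul_of_one_le_left hδ.le r0') h0
  have rQ : r * 2 ^ J ≤ Q := by
    have : ((r * 2 ^ J : ℕ) : ℝ) ≤ 4 * Λ / δ := by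
      rw [le_div_iff₀ hδ]
      linarith
    exact_mod_cast this.trans hQ
  have hc' : |(c : ℝ)| ≤ r := by exact_mod_cast hc
  rw [abs_le] at hc'
  have key := br_mu_shift univ l (conv (box Q (r * 2 ^ J)) (box Q (w * 2 ^ J)))
    (fun i => ((⌊(A - L i) / δ⌋ : ℤ) : ZMod Q) + c) (c := δ * K / Λ) (B := 2 / (w * 2 ^ J : ℕ))
    fun n hn => by
      generalize r * 2 ^ J = R at *
      generalize w * 2 ^ J = W at *
      have hn' : (n : ℝ) ≤ l.sum := by exact_mod_cast hn
      have R0 : (0 : ℝ) < R := by linarith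
      have e : ∀ t ∈ range R, |∑ i, box Q W (((⌊(A - L i) / δ⌋ : ℤ) : ZMod Q) + c - n - t)
          - δ * K / Λ| ≤ 2 / W := by
        intro t ht
        have ht' : (t : ℝ) ≤ R := by exact_mod_cast (mem_range.1 ht).le
        have := br_window hK w0 hδ hΛ hQ L hL (B := A - ((n + t - c : ℤ) : ℝ) * δ)
          (by
            have := mul_le_mul_of_nonneg_right
              (show (n : ℝ) + t - c ≤ (l.sum : ℕ) + 2 * R by linarith [hc'.1]) hδ.le
            rw [Int.cast_sub, Int.cast_add, Int.cast_natCast, Int.cast_natCast]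
            linarith) (by
            have := mul_le_mul_of_nonneg_right (show -(r : ℝ) ≤ (n : ℝ) + t - c by
              linarith [hc'.2, n.cast_nonneg (α := ℝ), t.cast_nonneg (α := ℝ)]) hδ.le
            push_cast
            linarith)
        refine le_of_eq_of_le ?_ this
        congr 2
        refine sum_congr rfl fun i _ => ?_
        rw [show (A - ((n + t - c : ℤ) : ℝ) * δ - L i) / δ =
          (A - L i) / δ - ((n + t - c : ℤ) : ℝ) by field_simp; ring, Int.floor_sub_intCast]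
        push_cast
        congr 1
        ring
      simp only [br_conv_box rQ]
      rw [← sum_div, sum_comm, show ∀ S : ℝ, S / R - δ * K / Λ =
          (S - ∑ _t ∈ range R, δ * K / Λ) / R from fun S => by
        rw [sum_const, card_range, nsmul_eq_mul]; field_simp, ← sum_sub_distrib, abs_div,
        abs_of_pos R0, div_le_iff₀ R0]
      refine (abs_sum_le_sum_abs _ _).trans ((sum_le_sum e).trans_eq ?_)
      rw [sum_const, card_range, nsmul_eq_mul, mul_comm]
  have k2 := (abs_sum_le_sum_abs _ _).trans (sum_le_sum fun (i : Fin K) (_ : i ∈ univ) =>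
    br_disc (w := w) J rQ (l.map (Nat.cast : ℕ → ZMod Q)) (((⌊(A - L i) / δ⌋ : ℤ) : ZMod Q) + c))
  rw [sum_const, card_univ, Fintype.card_fin, nsmul_eq_mul, sum_sub_distrib, abs_le] at k2
  rw [abs_le] at key ⊢
  constructor <;> linarith [key.1, key.2, k2.1, k2.2]

/-- the smoothed window majorises the true one -/
lemma br_up {Q : ℕ} [NeZero Q] {M r n : ℕ} (hr : 1 ≤ r) (hn : n ≤ r) (hQ : (M + 2) * r ≤ Q)
    {x : ℝ} {V : ℤ} (h1 : (V : ℝ) - n ≤ x) (h2 : x < V + 1) :
    (if 0 ≤ x ∧ x < M * r then 1 else 0 : ℝ) ≤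
      ((M + 2) * r : ℕ) * conv (box Q r) (box Q ((M + 2) * r)) ((V : ZMod Q) + (r - 1 : ℤ)) := by
  have e : (M + 2) * r = M * r + 2 * r := by ring
  rw [br_conv_box (by omega)]
  split_ifs with h
  · have hn' : (n : ℝ) ≤ r := by exact_mod_cast hn
    have a : (-1 : ℤ) < V := by exact_mod_cast (by push_cast; linarith [h.1] : ((-1 : ℤ) : ℝ) < V)
    have b : V < (M * r : ℕ) + r := by
      exact_mod_cast (by push_cast; linarith [h.2] : (V : ℝ) < (((M * r : ℕ) + r : ℤ) : ℝ))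
    rw [sum_congr rfl (g := fun _ => 1 / (((M + 2) * r : ℕ) : ℝ)) fun t ht => ?_, sum_const,
      card_range, nsmul_eq_mul]
    · have : (0 : ℝ) < r := by exact_mod_cast hr
      apply le_of_eq
      push_cast
      field_simp
    · rw [mem_range] at ht
      rw [show (V : ZMod Q) + (r - 1 : ℤ) - t = ((V + (r - 1) - t : ℤ) : ZMod Q) by push_cast; ring,
        br_box_int (by omega) (by omega), if_pos (by omega)]
  · exact mul_nonneg (Nat.cast_nonneg _)
      (div_nonneg (sum_nonneg fun _ _ => br_box_nonneg _ _) (Nat.cast_nonneg _))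

/-- the smoothed window minorises the true one -/
lemma br_low {Q : ℕ} [NeZero Q] {m r n : ℕ} (hr : 1 ≤ r) (hm : 1 ≤ m) (hn : n ≤ r)
    {x : ℝ} {V : ℤ} (h1 : (V : ℝ) - n ≤ x) (h2 : x < V + 1) (h3 : ((m + 2) * r : ℕ) + 1 - Q ≤ x)
    (h4 : x < Q) (hQ : r ≤ Q) :
    (m * r : ℕ) * conv (box Q r) (box Q (m * r)) ((V : ZMod Q) + (-r : ℤ)) ≤
      (if 0 ≤ x ∧ x < (m + 2 : ℕ) * r then 1 else 0 : ℝ) := by
  have e : (m + 2) * r = m * r + 2 * r := by ring
  have r0 : (0 : ℝ) < r := by exact_mod_cast hr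
  have m0 : (0 : ℝ) < m := by exact_mod_cast hm
  have hn' : (n : ℝ) ≤ r := by exact_mod_cast hn
  have a : (((m + 2) * r : ℕ) : ℤ) - Q < V := by
    exact_mod_cast (by push_cast at h3 ⊢; linarith : (((((m + 2) * r : ℕ) : ℤ) - Q : ℤ) : ℝ) < V)
  have b : V < Q + r := by exact_mod_cast (by push_cast; linarith : (V : ℝ) < ((Q + r : ℤ) : ℝ))
  rw [br_conv_box hQ]
  split_ifs with h
  · have : ∑ t ∈ range r, box Q (m * r) ((V : ZMod Q) + (-r : ℤ) - t) ≤
        ∑ _t ∈ range r, 1 / ((m * r : ℕ) : ℝ) := sum_le_sum fun t _ => by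
      unfold box
      split_ifs
      · exact le_rfl
      · positivity
    rw [sum_const, card_range, nsmul_eq_mul] at this
    refine (mul_le_mul_of_nonneg_left (div_le_div_of_nonneg_right this r0.le)
      (Nat.cast_nonneg _)).trans_eq ?_
    push_cast
    field_simp
  · rw [sum_eq_zero fun t ht => ?_, zero_div, mul_zero]
    rw [mem_range] at ht
    rw [show (V : ZMod Q) + (-r : ℤ) - t = ((V - r - t : ℤ) : ZMod Q) by push_cast; ring,
      br_box_int (by omega) (by omega), if_neg fun k => h ?_]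
    have c : (r : ℝ) ≤ V := by exact_mod_cast (by omega : (r : ℤ) ≤ V)
    have d : (V : ℝ) + 1 ≤ ((m + 2) * r : ℕ) := by
      exact_mod_cast (by omega : V + 1 ≤ (((m + 2) * r : ℕ) : ℤ))
    rw [Nat.cast_mul] at d
    constructor <;> linarith

end Pool.Agent.Work.MP_82fd4a_nt
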