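import Pool.Agent.Work.MP_82fd4a_nt.Defs
import Pool.Agent.Lib.ANT.Mertens

/-! Large deviation bounds for additive functions on smooth numbers. -/

set_option autoImplicit false
open Finset

namespace Pool.Agent.Work.MP_82fd4a_nt

theorem VV_le {z : ℝ} (hz : 2 ≤ z) : VV z ≤ Real.exp 73 * Real.log z := by
  have h2 : 2 ≤ ⌊z⌋₊ := Nat.le_floor (by exact_mod_cast hz)
  refine (Lib.ANT.prod_one_sub_inv_prime_inv_le ⌊z⌋₊ h2).trans ?_
  refine mul_le_mul_of_nonneg_left ?_ (Real.exp_pos _).le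
  have h0 : (0 : ℝ) < (⌊z⌋₊ : ℕ) := by exact_mod_cast (by omega : 0 < ⌊z⌋₊)
  exact Real.log_le_log h0 (Nat.floor_le (by linarith))

lemma chern_mem {z : ℝ} {p : ℕ} :
    p ∈ (Ioc 0 ⌊z⌋₊).filter Nat.Prime ↔ p.Prime ∧ (p : ℝ) ≤ z := by
  rw [mem_filter, mem_Ioc]
  constructor
  · rintro ⟨⟨h1, h2⟩, h3⟩
    refine ⟨h3, ?_⟩
    have hz : 0 ≤ z := by
      by_contra hz
      rw [Nat.floor_of_nonpos (le_of_lt (not_le.1 hz))] at h2
      omega
    exact (Nat.le_floor_iff hz).1 h2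
  · rintro ⟨h1, h2⟩
    exact ⟨⟨h1.pos, Nat.le_floor h2⟩, h1⟩

lemma chern_cadd_congr {h h' : ℕ → ℝ} {s : ℕ}
    (H : ∀ p : ℕ, p.Prime → p ∣ s → h p = h' p) : cadd h s = cadd h' s := by
  unfold cadd
  congr 1
  exact List.map_congr_left fun p hp =>
    H p (Nat.prime_of_mem_primeFactorsList hp) (Nat.dvd_of_mem_primeFactorsList hp)

lemma chern_cadd_smul (c : ℝ) (h : ℕ → ℝ) (s : ℕ) :
    cadd (fun p => c * h p) s = c * cadd h s := by
  unfold cadd
  exact List.sum_map_mul_left _ _ _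

/-- the completely multiplicative function behind the trick of Rankin -/
noncomputable def chernF (h : ℕ → ℝ) : ℕ →* ℝ where
  toFun n := Real.exp (cadd h n) / n
  map_one' := by simp [cadd_one]
  map_mul' a b := by
    rcases eq_or_ne a 0 with rfl | ha
    · simp
    rcases eq_or_ne b 0 with rfl | hb
    · simp
    rw [cadd_mul h ha hb, Real.exp_add, Nat.cast_mul, div_mul_div_comm]

lemma chernF_apply (h : ℕ → ℝ) (n : ℕ) : chernF h n = Real.exp (cadd h n) / n := rfl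

/-- the trick of Rankin -/
theorem rankin (z : ℝ) (h : ℕ → ℝ) (hh : ∀ p : ℕ, p.Prime → (p : ℝ) ≤ z → Real.exp (h p) < p)
    (a : ℝ) (A : Finset ℕ) (hA : ∀ s ∈ A, Smooth z s ∧ a ≤ cadd h s) :
    ∑ s ∈ A, (s : ℝ)⁻¹ ≤ Real.exp (-a) *
      ∏ p ∈ (Ioc 0 ⌊z⌋₊).filter Nat.Prime, (1 - Real.exp (h p) / p)⁻¹ := by
  classical
  set h' : ℕ → ℝ := fun p => if (p : ℝ) ≤ z then h p else 0 with hh'
  have hlt : ∀ {p : ℕ}, p.Prime → ‖chernF h' p‖ < 1 := by
    intro p hp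
    have hp1 : (1 : ℝ) < p := by exact_mod_cast hp.one_lt
    rw [chernF_apply, cadd_prime _ hp, Real.norm_of_nonneg (by positivity),
      div_lt_one (by linarith)]
    by_cases hz : (p : ℝ) ≤ z
    · simp only [hh', if_pos hz]; exact hh p hp hz
    · simp only [hh', if_neg hz, Real.exp_zero]; exact hp1
  obtain ⟨-, hs⟩ :=
    EulerProduct.summable_and_hasSum_factoredNumbers_prod_filter_prime_geometric hlt (Ioc 0 ⌊z⌋₊)
  have hprod : ∏ p ∈ (Ioc 0 ⌊z⌋₊).filter Nat.Prime, (1 - chernF h' p)⁻¹ =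
      ∏ p ∈ (Ioc 0 ⌊z⌋₊).filter Nat.Prime, (1 - Real.exp (h p) / p)⁻¹ := by
    refine prod_congr rfl fun p hp => ?_
    obtain ⟨h1, h2⟩ := chern_mem.1 hp
    rw [chernF_apply, cadd_prime _ h1]
    simp only [hh', if_pos h2]
  rw [hprod] at hs
  have hmem : ∀ s ∈ A, s ∈ Nat.factoredNumbers (Ioc 0 ⌊z⌋₊) := fun s hs' =>
    Nat.mem_factoredNumbers'.2 fun p hp hd =>
      (mem_filter.1 (chern_mem.2 ⟨hp, (hA s hs').1.2 p hp hd⟩)).1
  have h1 : ∑ s ∈ A, chernF h' s ≤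
      ∏ p ∈ (Ioc 0 ⌊z⌋₊).filter Nat.Prime, (1 - Real.exp (h p) / p)⁻¹ := by
    have h2 := sum_le_hasSum (A.subtype (· ∈ Nat.factoredNumbers (Ioc 0 ⌊z⌋₊)))
      (fun m _ => by rw [chernF_apply]; positivity) hs
    refine le_trans (le_of_eq ?_) h2
    exact (sum_subtype_of_mem (fun s => chernF h' s) hmem).symm
  refine le_trans ?_ (mul_le_mul_of_nonneg_left h1 (Real.exp_pos _).le)
  rw [mul_sum]
  refine sum_le_sum fun s hs' => ?_
  have he : cadd h' s = cadd h s :=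
    chern_cadd_congr fun p hp hd => by simp only [hh', if_pos ((hA s hs').1.2 p hp hd)]
  rw [chernF_apply, he, ← mul_div_assoc, ← Real.exp_add, inv_eq_one_div]
  refine div_le_div_of_nonneg_right ?_ (Nat.cast_nonneg _)
  exact Real.one_le_exp (by linarith [(hA s hs').2])

theorem sum_inv_smooth (z : ℝ) (A : Finset ℕ) (hA : ∀ s ∈ A, Smooth z s) :
    ∑ s ∈ A, (s : ℝ)⁻¹ ≤ VV z := by
  have h := rankin z (fun _ => 0) (fun p hp _ => by
    rw [Real.exp_zero]; exact_mod_cast hp.one_lt) 0 A fun s hs => ⟨hA s hs, by simp [cadd]⟩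
  simpa [VV] using h

theorem sum_tau_smooth (z : ℝ) (A : Finset ℕ) (hA : ∀ s ∈ A, Smooth z s) :
    ∑ s ∈ A, tau s / s ≤ VV z ^ 2 := by
  classical
  set B := A.biUnion Nat.divisors with hB
  have hBs : ∀ d ∈ B, Smooth z d := by
    intro d hd
    obtain ⟨s, hs, hds⟩ := mem_biUnion.1 hd
    obtain ⟨e, rfl⟩ := Nat.dvd_of_mem_divisors hds
    exact (smooth_mul.1 (hA _ hs)).1
  have h1 := sum_inv_smooth z B hBs
  have h0 : 0 ≤ ∑ s ∈ B, (s : ℝ)⁻¹ := sum_nonneg fun _ _ => by positivity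
  refine le_trans ?_ (pow_le_pow_left₀ h0 h1 2)
  rw [sq, sum_mul_sum, ← sum_product']
  have h2 : ∀ s ∈ A, tau s / s =
      ∑ x ∈ s.divisorsAntidiagonal, ((x.1 : ℝ)⁻¹ * (x.2 : ℝ)⁻¹) := by
    intro s _
    rw [sum_congr rfl (g := fun _ => (s : ℝ)⁻¹) fun x hx => by
      rw [← mul_inv, ← Nat.cast_mul, (Nat.mem_divisorsAntidiagonal.1 hx).1]]
    rw [sum_const, nsmul_eq_mul, tau, div_eq_mul_inv, ← Nat.map_div_right_divisors, card_map]
  rw [sum_congr rfl h2, ← sum_biUnion]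
  · refine sum_le_sum_of_subset_of_nonneg ?_ fun _ _ _ => by positivity
    intro x hx
    obtain ⟨s, hs, hxs⟩ := mem_biUnion.1 hx
    exact mem_product.2 ⟨mem_biUnion.2 ⟨s, hs, Nat.fst_mem_divisors_of_mem_antidiagonal hxs⟩,
      mem_biUnion.2 ⟨s, hs, Nat.snd_mem_divisors_of_mem_antidiagonal hxs⟩⟩
  · intro s _ t _ hst
    refine disjoint_left.2 fun x hx hx' => hst ?_
    rw [← (Nat.mem_divisorsAntidiagonal.1 hx).1, (Nat.mem_divisorsAntidiagonal.1 hx').1]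

lemma chern_exp_neg_le {γ : ℝ} (hγ : 0 ≤ γ) : Real.exp (-γ) ≤ 1 - γ + γ ^ 2 / 2 := by
  have h1 := Real.quadratic_le_exp_of_nonneg hγ
  have h2 : 0 < 1 - γ + γ ^ 2 / 2 := by nlinarith [sq_nonneg (γ - 1)]
  rw [Real.exp_neg, inv_le_iff_one_le_mul₀ (Real.exp_pos _)]
  nlinarith [mul_le_mul_of_nonneg_left h1 h2.le, sq_nonneg (γ ^ 2)]

/-- comparison of two Euler products, factor by factor -/
lemma chern_prod_le (z : ℝ) (h c : ℕ → ℝ)
    (hh : ∀ p : ℕ, p.Prime → (p : ℝ) ≤ z → Real.exp (h p) < p)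
    (hc : ∀ p : ℕ, p.Prime → (p : ℝ) ≤ z →
      1 - (p : ℝ)⁻¹ ≤ Real.exp (c p) * (1 - Real.exp (h p) / p)) :
    ∏ p ∈ (Ioc 0 ⌊z⌋₊).filter Nat.Prime, (1 - Real.exp (h p) / p)⁻¹ ≤
      Real.exp (∑ p ∈ (Ioc 0 ⌊z⌋₊).filter Nat.Prime, c p) * VV z := by
  rw [Real.exp_sum, VV, ← prod_mul_distrib]
  have key : ∀ p ∈ (Ioc 0 ⌊z⌋₊).filter Nat.Prime, 0 < 1 - Real.exp (h p) / p := by
    intro p hp
    obtain ⟨h1, h2⟩ := chern_mem.1 hp
    have hp0 : (0 : ℝ) < p := by exact_mod_cast h1.pos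
    rw [sub_pos, div_lt_one hp0]
    exact hh p h1 h2
  refine prod_le_prod (fun p hp => (inv_pos.2 (key p hp)).le) fun p hp => ?_
  obtain ⟨h1, h2⟩ := chern_mem.1 hp
  have hp1 : (1 : ℝ) < p := by exact_mod_cast h1.one_lt
  have h3 : 0 < 1 - (p : ℝ)⁻¹ := sub_pos.2 (inv_lt_one_of_one_lt₀ hp1)
  rw [← div_eq_mul_inv, le_div_iff₀ h3, inv_mul_le_iff₀ (key p hp), mul_comm]
  exact hc p h1 h2

/-- few prime factors in a set of primes -/
theorem few_primes (z : ℝ) (P : Finset ℕ) (hP : ∀ p ∈ P, p.Prime ∧ (p : ℝ) ≤ z) {γ : ℝ}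
    (hγ : 0 ≤ γ) (a : ℝ) (A : Finset ℕ) (hA : ∀ s ∈ A, Smooth z s ∧ om P s ≤ a) :
    ∑ s ∈ A, (s : ℝ)⁻¹ ≤ Real.exp (γ * a - (γ - γ ^ 2 / 2) * ∑ p ∈ P, (p : ℝ)⁻¹) * VV z := by
  set h : ℕ → ℝ := fun p => -γ * (if p ∈ P then 1 else 0) with hdef
  have hh : ∀ p : ℕ, p.Prime → (p : ℝ) ≤ z → Real.exp (h p) < p := by
    intro p hp _
    have hp1 : (1 : ℝ) < p := by exact_mod_cast hp.one_lt
    refine lt_of_le_of_lt (Real.exp_le_one_iff.2 ?_) hp1
    simp only [hdef]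
    split_ifs <;> linarith
  have h1 := rankin z h hh (-(γ * a)) A fun s hs => ⟨(hA s hs).1, by
    rw [hdef, chern_cadd_smul]
    have := mul_le_mul_of_nonneg_left (hA s hs).2 hγ
    unfold om at this
    linarith⟩
  have h2 := chern_prod_le z h (fun p => if p ∈ P then -((γ - γ ^ 2 / 2) * (p : ℝ)⁻¹) else 0) hh
    (by
      intro p hp _
      have hp1 : (1 : ℝ) < p := by exact_mod_cast hp.one_lt
      by_cases hpP : p ∈ P
      · simp only [hdef, if_pos hpP, mul_one]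
        have hk0 : 0 < Real.exp (-γ) := Real.exp_pos _
        have hk1 : Real.exp (-γ) ≤ 1 := Real.exp_le_one_iff.2 (by linarith)
        have hk2 := chern_exp_neg_le hγ
        set k := Real.exp (-γ)
        have hv0 : 0 < (p : ℝ)⁻¹ := by positivity
        have hv1 : (p : ℝ)⁻¹ < 1 := inv_lt_one_of_one_lt₀ hp1
        rw [div_eq_mul_inv k]
        set v := (p : ℝ)⁻¹
        have e1 : 1 - (1 - k) * v ≤ Real.exp (-((γ - γ ^ 2 / 2) * v)) := by
          have := Real.add_one_le_exp (-((γ - γ ^ 2 / 2) * v))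
          nlinarith [mul_le_mul_of_nonneg_right hk2 hv0.le]
        have e2 : 0 ≤ 1 - k * v := by nlinarith
        refine le_trans ?_ (mul_le_mul_of_nonneg_right e1 e2)
        nlinarith [mul_nonneg (mul_nonneg hk0.le (sub_nonneg.2 hk1)) (sq_nonneg v)]
      · simp [hdef, hpP])
  have h3 : ∑ p ∈ (Ioc 0 ⌊z⌋₊).filter Nat.Prime,
      (if p ∈ P then -((γ - γ ^ 2 / 2) * (p : ℝ)⁻¹) else 0) =
      -((γ - γ ^ 2 / 2) * ∑ p ∈ P, (p : ℝ)⁻¹) := by
    rw [← sum_filter, mul_sum, ← sum_neg_distrib]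
    refine sum_congr ?_ fun _ _ => rfl
    ext p
    rw [mem_filter, chern_mem]
    exact ⟨fun H => H.2, fun H => ⟨hP p H, H⟩⟩
  rw [h3] at h2
  refine h1.trans ((mul_le_mul_of_nonneg_left h2 (Real.exp_pos _).le).trans (le_of_eq ?_))
  rw [← mul_assoc, ← Real.exp_add, neg_neg, sub_eq_add_neg (γ * a)]

/-- a large part composed of primes with logarithm at most `Y` -/
theorem large_part (z : ℝ) {Y : ℝ} (hY : 14 ≤ Y) (P : ℕ → Prop) [DecidablePred P]
    (hP : ∀ p, P p → Real.log p ≤ Y) (a : ℝ) (A : Finset ℕ)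
    (hA : ∀ s ∈ A, Smooth z s ∧ a ≤ cadd (fun p => if P p then Real.log p else 0) s) :
    ∑ s ∈ A, (s : ℝ)⁻¹ ≤ Real.exp (16 - a / Y) * VV z := by
  have hY0 : 0 < Y := by linarith
  set h : ℕ → ℝ := fun p => Y⁻¹ * (if P p then Real.log p else 0) with hdef
  have hb : ∀ p : ℕ, p.Prime → 0 ≤ h p ∧ h p ≤ 1 ∧ h p ≤ ((p : ℝ) - 1) / 14 := by
    intro p hp
    have hp1 : (1 : ℝ) < p := by exact_mod_cast hp.one_lt
    have hl : 0 ≤ Real.log p := Real.log_nonneg hp1.le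
    simp only [hdef]
    split_ifs with hPp
    · refine ⟨by positivity, ?_, ?_⟩
      · rw [inv_mul_le_iff₀ hY0, mul_one]; exact hP p hPp
      · rw [inv_mul_le_iff₀ hY0]
        have := Real.log_le_sub_one_of_pos (by linarith : (0 : ℝ) < p)
        nlinarith
    · refine ⟨by simp, by simp, ?_⟩
      rw [mul_zero]; linarith
  have he : ∀ p : ℕ, p.Prime → Real.exp (h p) ≤ 1 + 2 * h p := by
    intro p hp
    obtain ⟨h0, h1, -⟩ := hb p hp
    have := Real.abs_exp_sub_one_le (x := h p) (by rw [abs_of_nonneg h0]; exact h1)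
    rw [abs_of_nonneg h0] at this
    linarith [le_abs_self (Real.exp (h p) - 1)]
  have he' : ∀ p : ℕ, p.Prime → Real.exp (h p) ≤ 3 / 4 * p := by
    intro p hp
    have hp2 : (2 : ℝ) ≤ p := by exact_mod_cast hp.two_le
    linarith [he p hp, (hb p hp).2.2]
  have hh : ∀ p : ℕ, p.Prime → (p : ℝ) ≤ z → Real.exp (h p) < p := by
    intro p hp _
    have hp2 : (2 : ℝ) ≤ p := by exact_mod_cast hp.two_le
    linarith [he' p hp]
  have h1 := rankin z h hh (a / Y) A fun s hs => ⟨(hA s hs).1, by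
    rw [hdef, chern_cadd_smul, div_eq_inv_mul]
    exact mul_le_mul_of_nonneg_left (hA s hs).2 (by positivity)⟩
  have h2 := chern_prod_le z h (fun p => 8 * h p / p) hh (by
    intro p hp _
    have hp2 : (2 : ℝ) ≤ p := by exact_mod_cast hp.two_le
    have e0 := (hb p hp).1
    have e1 := he p hp
    have e2 := he' p hp
    have hv0 : 0 < (p : ℝ)⁻¹ := by positivity
    have e3 : Real.exp (h p) * (p : ℝ)⁻¹ ≤ 3 / 4 := by
      rw [← div_eq_mul_inv, div_le_iff₀ (by linarith)]; exact e2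
    have e4 := Real.add_one_le_exp (8 * h p / p)
    rw [div_eq_mul_inv (Real.exp (h p))]
    refine le_trans ?_ (mul_le_mul_of_nonneg_right e4 (by linarith))
    rw [div_eq_mul_inv]
    have e5 := mul_le_mul_of_nonneg_right e1 hv0.le
    have e6 := mul_le_mul_of_nonneg_left e3 (mul_nonneg e0 hv0.le)
    nlinarith)
  have h3 : ∑ p ∈ (Ioc 0 ⌊z⌋₊).filter Nat.Prime, 8 * h p / p ≤ 16 := by
    have hN : 0 < ⌊Real.exp Y⌋₊ := Nat.floor_pos.2 (Real.one_le_exp hY0.le)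
    have m1 := (abs_le.1 (Lib.ANT.abs_sum_log_div_prime_sub_log_le _ hN)).2
    have m2 : Real.log (⌊Real.exp Y⌋₊ : ℕ) ≤ Y := by
      rw [Real.log_le_iff_le_exp (by exact_mod_cast hN)]
      exact Nat.floor_le (Real.exp_pos _).le
    have m3 : ∑ p ∈ (Ioc 0 ⌊z⌋₊).filter Nat.Prime, 8 * h p / p =
        ∑ p ∈ ((Ioc 0 ⌊z⌋₊).filter Nat.Prime).filter P, 8 * Y⁻¹ * (Real.log p / p) := by
      rw [sum_filter (p := P)]
      refine sum_congr rfl fun p _ => ?_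
      simp only [hdef]
      split_ifs <;> ring
    have m4 : ∑ p ∈ ((Ioc 0 ⌊z⌋₊).filter Nat.Prime).filter P, Real.log p / p ≤
        ∑ p ∈ (Ioc 0 ⌊Real.exp Y⌋₊).filter Nat.Prime, Real.log p / p := by
      refine sum_le_sum_of_subset_of_nonneg (fun p hp => ?_) fun p _ _ =>
        div_nonneg (Real.log_natCast_nonneg p) (Nat.cast_nonneg p)
      obtain ⟨hp1, hp2⟩ := mem_filter.1 hp
      have hp3 := (mem_filter.1 hp1).2
      refine chern_mem.2 ⟨hp3, ?_⟩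
      rw [← Real.log_le_iff_le_exp (by exact_mod_cast hp3.pos)]
      exact hP p hp2
    rw [m3, ← mul_sum, mul_assoc, ← div_eq_inv_mul]
    have m5 : (∑ p ∈ ((Ioc 0 ⌊z⌋₊).filter Nat.Prime).filter P, Real.log p / p) / Y ≤ 2 := by
      rw [div_le_iff₀ hY0]; linarith
    linarith
  have hV : 0 ≤ VV z := by simpa using sum_inv_smooth z ∅ (by simp)
  refine h1.trans ((mul_le_mul_of_nonneg_left h2 (Real.exp_pos _).le).trans ?_)
  rw [← mul_assoc, ← Real.exp_add]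
  exact mul_le_mul_of_nonneg_right (Real.exp_le_exp.2 (by linarith)) hV

end Pool.Agent.Work.MP_82fd4a_nt
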