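import Pool.Agent.Work.MP_82fd4a_nt.Defs

/-! Random subset sums on a cyclic group: definitions. -/

set_option autoImplicit false
open Finset

namespace Pool.Agent.Work.MP_82fd4a_nt

/-- a finitely supported weight on the natural numbers -/
structure Law where
  supp : Finset ℕ
  wt : ℕ → ℝ

/-- the weight is a probability -/
def Law.Prob (l : Law) : Prop := (∀ p ∈ l.supp, 0 ≤ l.wt p) ∧ ∑ p ∈ l.supp, l.wt p = 1

/-- expectation over independent choices -/
noncomputable def Ex : List Law → (List ℕ → ℝ) → ℝ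
  | [], F => F []
  | l :: ls, F => ∑ p ∈ l.supp, l.wt p * Ex ls fun as => F (p :: as)

/-- the law proportional to `1 / p` on `P` -/
noncomputable def law (P : Finset ℕ) : Law := ⟨P, fun p => (p : ℝ)⁻¹ / ∑ q ∈ P, (q : ℝ)⁻¹⟩

variable {Q : ℕ} [NeZero Q]

/-- image of a law in the cyclic group -/
noncomputable def Law.push (l : Law) (a : ℕ → ZMod Q) (g : ZMod Q) : ℝ :=
  ∑ p ∈ l.supp with a p = g, l.wt p

/-- convolution -/
noncomputable def conv (f g : ZMod Q → ℝ) (y : ZMod Q) : ℝ := ∑ t, f t * g (y - t)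

/-- average of a function and a translate -/
noncomputable def av (a : ZMod Q) (f : ZMod Q → ℝ) (y : ZMod Q) : ℝ := (f y + f (y - a)) / 2

/-- average over all the subset sums of a list -/
noncomputable def mu : List (ZMod Q) → (ZMod Q → ℝ) → ZMod Q → ℝ
  | [], f => f
  | a :: l, f => av a (mu l f)

/-- normalised indicator of an initial segment -/
noncomputable def box (Q w : ℕ) (y : ZMod Q) : ℝ := if y.val < w then 1 / w else 0

/-- the kernel of mean zero that appears when both scales are doubled -/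
noncomputable def Kd (Q r w : ℕ) (y : ZMod Q) : ℝ := box Q w y - av (r : ZMod Q) (box Q (2 * w)) y

/-- total discrepancy over the scales -/
noncomputable def disc (Q : ℕ) [NeZero Q] (r w J : ℕ) (l : List (ZMod Q)) : ℝ :=
  ∑ j ∈ range J, ‖mu l (conv (box Q (r * 2 ^ j)) (Kd Q (r * 2 ^ j) (w * 2 ^ j)))‖

/-- rounded logarithm -/
noncomputable def grid (Q : ℕ) (δ : ℝ) (p : ℕ) : ZMod Q := (⌊Real.log p / δ⌋₊ : ℕ)

omit [NeZero Q] in
lemma Ex_append (l₁ l₂ : List Law) (F : List ℕ → ℝ) :
    Ex (l₁ ++ l₂) F = Ex l₁ fun as => Ex l₂ fun bs => F (as ++ bs) := by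
  induction l₁ generalizing F with
  | nil => simp [Ex]
  | cons l ls ih => simp [Ex, ih]

/-- monotonicity, only lists in the support matter -/
lemma Ex_mono {ls : List Law} (h : ∀ l ∈ ls, l.Prob) {F G : List ℕ → ℝ}
    (hFG : ∀ as, List.Forall₂ (fun p (l : Law) => p ∈ l.supp) as ls → F as ≤ G as) :
    Ex ls F ≤ Ex ls G := by
  induction ls generalizing F G with
  | nil => exact hFG [] List.Forall₂.nil
  | cons l ls ih =>
    refine sum_le_sum fun p hp => mul_le_mul_of_nonneg_left ?_ ((h l List.mem_cons_self).1 p hp)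
    exact ih (fun l' hl' => h l' (List.mem_cons_of_mem _ hl'))
      fun as has => hFG _ (List.Forall₂.cons hp has)

lemma Ex_const {ls : List Law} (h : ∀ l ∈ ls, l.Prob) (c : ℝ) : Ex ls (fun _ => c) = c := by
  induction ls with
  | nil => rfl
  | cons l ls ih =>
    simp only [Ex]
    rw [ih fun l' hl' => h l' (List.mem_cons_of_mem _ hl'), ← sum_mul,
      (h l List.mem_cons_self).2, one_mul]

lemma Ex_add (ls : List Law) (F G : List ℕ → ℝ) :
    Ex ls (fun as => F as + G as) = Ex ls F + Ex ls G := by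
  induction ls generalizing F G with
  | nil => rfl
  | cons l ls ih => simp only [Ex, ih, mul_add, sum_add_distrib]

lemma Ex_mul (ls : List Law) (c : ℝ) (F : List ℕ → ℝ) :
    Ex ls (fun as => c * F as) = c * Ex ls F := by
  induction ls generalizing F with
  | nil => rfl
  | cons l ls ih =>
    simp only [Ex, ih, mul_sum]
    exact sum_congr rfl fun _ _ => by ring

lemma Ex_sum {ι : Type*} (ls : List Law) (s : Finset ι) (F : ι → List ℕ → ℝ) :
    Ex ls (fun as => ∑ i ∈ s, F i as) = ∑ i ∈ s, Ex ls (F i) := by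
  induction ls generalizing F with
  | nil => rfl
  | cons l ls ih =>
    simp only [Ex, ih, mul_sum]
    exact sum_comm

lemma law_prob {P : Finset ℕ} (h : 0 < ∑ q ∈ P, (q : ℝ)⁻¹) : (law P).Prob :=
  ⟨fun p _ => div_nonneg (by positivity) h.le, by
    simp only [law]
    rw [← sum_div, div_self h.ne']⟩

end Pool.Agent.Work.MP_82fd4a_nt
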