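import Mathlib

/-! Large prime factors in short intervals: definitions. -/

set_option autoImplicit false
open Finset

namespace Pool.Agent.Work.MP_82fd4a_nt

/-- all prime factors exceed `w` -/
def Rough (w : ℝ) (n : ℕ) : Prop := ∀ p : ℕ, p.Prime → p ∣ n → w < p

/-- nonzero, and all prime factors are at most `z` -/
def Smooth (z : ℝ) (n : ℕ) : Prop := n ≠ 0 ∧ ∀ p : ℕ, p.Prime → p ∣ n → (p : ℝ) ≤ z

noncomputable instance (w : ℝ) : DecidablePred (Rough w) := Classical.decPred _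

noncomputable instance (z : ℝ) : DecidablePred (Smooth z) := Classical.decPred _

/-- indicator of the rough numbers -/
noncomputable def rf (w : ℝ) (n : ℕ) : ℝ := if Rough w n then 1 else 0

/-- number of divisors -/
noncomputable def tau (n : ℕ) : ℝ := (n.divisors.card : ℝ)

/-- the weight that localises to a short interval around `x` -/
noncomputable def gk (x : ℕ) (T : ℝ) (n : ℕ) : ℝ :=
  if x < 2 * n ∧ n ≤ 2 * x then Real.exp (-(T * |Real.log n - Real.log x|)) else 0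

/-- total mass of the weight -/
noncomputable def Gam (x : ℕ) (T : ℝ) : ℝ := ∑ n ∈ Icc 1 (2 * x), gk x T n

/-- bilinear form with both variables of size about the square root of `x` -/
noncomputable def Bil (x : ℕ) (T : ℝ) (A B : ℕ → ℝ) : ℝ :=
  ∑ a ∈ Ioc x.sqrt (2 * x.sqrt), ∑ b ∈ Icc 1 (4 * x.sqrt), A a * B b * gk x T (a * b)

/-- the completely additive function with the given values at the primes -/
noncomputable def cadd (h : ℕ → ℝ) (n : ℕ) : ℝ := (n.primeFactorsList.map h).sum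

/-- number of prime factors in `P`, with multiplicity -/
noncomputable def om (P : Finset ℕ) (n : ℕ) : ℝ := cadd (fun p => if p ∈ P then 1 else 0) n

/-- the Euler product up to `z` -/
noncomputable def VV (z : ℝ) : ℝ := ∏ p ∈ (Ioc 0 ⌊z⌋₊).filter Nat.Prime, (1 - (p : ℝ)⁻¹)⁻¹

/-- the primes whose logarithm lies between `lo` and `hi` -/
noncomputable def Pr (lo hi : ℝ) : Finset ℕ :=
  (Icc 1 ⌊Real.exp hi⌋₊).filter fun p => p.Prime ∧ lo < Real.log p

/-- three distinct primes of middle size -/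
def Tri (x N : ℕ) : Prop := ∃ p q r : ℕ, p ≠ q ∧ p ≠ r ∧ q ≠ r ∧ N = p * q * r ∧
  p ∈ Pr (Real.log x / 6) (Real.log x / 3) ∧ q ∈ Pr (Real.log x / 6) (Real.log x / 3) ∧
  r ∈ Pr (Real.log x / 6) (Real.log x / 3)

noncomputable instance (x : ℕ) : DecidablePred (Tri x) := Classical.decPred _

/-- the margin in the level of distribution -/
noncomputable def del : ℝ := 1 / 4000

lemma mem_Pr {lo hi : ℝ} {p : ℕ} :
    p ∈ Pr lo hi ↔ p.Prime ∧ lo < Real.log p ∧ Real.log p ≤ hi := by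
  unfold Pr
  rw [mem_filter, mem_Icc]
  constructor
  · rintro ⟨⟨h1, h2⟩, h3, h4⟩
    refine ⟨h3, h4, ?_⟩
    have h0 : (0 : ℝ) < p := by exact_mod_cast h1
    rw [Real.log_le_iff_le_exp h0]
    exact (Nat.le_floor_iff (Real.exp_pos _).le).1 h2
  · rintro ⟨h1, h2, h3⟩
    have h0 : (0 : ℝ) < p := by exact_mod_cast h1.pos
    rw [Real.log_le_iff_le_exp h0] at h3
    exact ⟨⟨h1.pos, Nat.le_floor h3⟩, h1, h2⟩

lemma gk_nonneg (x : ℕ) (T : ℝ) (n : ℕ) : 0 ≤ gk x T n := by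
  unfold gk; split_ifs
  · exact (Real.exp_pos _).le
  · exact le_rfl

lemma gk_le_one (x : ℕ) {T : ℝ} (hT : 0 ≤ T) (n : ℕ) : gk x T n ≤ 1 := by
  unfold gk; split_ifs
  · rw [Real.exp_le_one_iff]
    have := mul_nonneg hT (abs_nonneg (Real.log n - Real.log x))
    linarith
  · exact zero_le_one

lemma gk_ne_zero {x : ℕ} {T : ℝ} {n : ℕ} (h : gk x T n ≠ 0) : x < 2 * n ∧ n ≤ 2 * x := by
  by_contra h'
  exact h (if_neg h')

lemma rf_nonneg (w : ℝ) (n : ℕ) : 0 ≤ rf w n := by unfold rf; split_ifs <;> norm_num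

lemma rf_le_one (w : ℝ) (n : ℕ) : rf w n ≤ 1 := by unfold rf; split_ifs <;> norm_num

lemma tau_nonneg (n : ℕ) : 0 ≤ tau n := Nat.cast_nonneg _

lemma rough_mul {w : ℝ} {a b : ℕ} : Rough w (a * b) ↔ Rough w a ∧ Rough w b :=
  ⟨fun h => ⟨fun p hp hd => h p hp (hd.mul_right b), fun p hp hd => h p hp (hd.mul_left a)⟩,
    fun h p hp hd => ((Nat.Prime.dvd_mul hp).1 hd).elim (h.1 p hp) (h.2 p hp)⟩

lemma smooth_mul {z : ℝ} {a b : ℕ} : Smooth z (a * b) ↔ Smooth z a ∧ Smooth z b :=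
  ⟨fun h => ⟨⟨left_ne_zero_of_mul h.1, fun p hp hd => h.2 p hp (hd.mul_right b)⟩,
      ⟨right_ne_zero_of_mul h.1, fun p hp hd => h.2 p hp (hd.mul_left a)⟩⟩,
    fun h => ⟨mul_ne_zero h.1.1 h.2.1,
      fun p hp hd => ((Nat.Prime.dvd_mul hp).1 hd).elim (h.1.2 p hp) (h.2.2 p hp)⟩⟩

lemma cadd_mul (h : ℕ → ℝ) {a b : ℕ} (ha : a ≠ 0) (hb : b ≠ 0) :
    cadd h (a * b) = cadd h a + cadd h b := by
  unfold cadd
  rw [((Nat.perm_primeFactorsList_mul ha hb).map h).sum_eq, List.map_append, List.sum_append]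

lemma cadd_prime (h : ℕ → ℝ) {p : ℕ} (hp : p.Prime) : cadd h p = h p := by
  simp [cadd, Nat.primeFactorsList_prime hp]

lemma cadd_one (h : ℕ → ℝ) : cadd h 1 = 0 := by simp [cadd]

end Pool.Agent.Work.MP_82fd4a_nt
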