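import Pool.Agent.Work.MP_82fd4a_nt.DivEqA

/-! Equidistribution of the divisors of a typical smooth number, uniformly in the window. -/

set_option autoImplicit false
open Filter Topology Finset

namespace Pool.Agent.Work.MP_82fd4a_nt

/-- the data produced by the equidistribution theorem -/
structure DivData (ε ε' A R Z : ℝ) (K : ℕ) (Typ Hi Lo : ℕ → Prop) (err : ℕ → ℝ) : Prop where
  err_nonneg : ∀ s, 0 ≤ err s
  size : ∀ s, Typ s → Real.log s ≤ A * Z / 8
  mul : ∀ a b, Smooth (Real.exp Z) a → Smooth (Real.exp Z) b → ¬ Hi a → ¬ Lo a → ¬ Hi b → ¬ Lo b →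
    Typ (a * b)
  inv : ∀ p : ℕ, p.Prime → Real.log p ≤ Z / R → ∀ s, Hi (p * s) ↔ Hi s
  hi : ∀ S : Finset ℕ, (∀ s ∈ S, Smooth (Real.exp Z) s ∧ Hi s) → ∑ s ∈ S, (s : ℝ)⁻¹ ≤ ε * Z
  lo : ∀ S : Finset ℕ, (∀ s ∈ S, Smooth (Real.exp Z) s ∧ Lo s) → ∑ s ∈ S, (s : ℝ)⁻¹ ≤ ε' * Z
  mean : ∀ S : Finset ℕ, (∀ s ∈ S, Smooth (Real.exp Z) s ∧ Typ s) →
    ∑ s ∈ S, tau s * err s / s ≤ ε * Z ^ 2
  equi : ∀ s, Smooth (Real.exp Z) s → Typ s → ∀ q : Fin K → ℕ,
    (∀ i : Fin K, A * Z + (i : ℕ) * (A * Z) / K ≤ Real.log (q i) ∧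
      Real.log (q i) ≤ A * Z + ((i : ℕ) + 1) * (A * Z) / K) →
    ∀ y : ℝ, 0 < y → 5 * (A * Z) / 4 ≤ Real.log y → Real.log y ≤ 15 * (A * Z) / 8 →
    |∑ i, win s (q i) y - K * Real.log 2 / (A * Z) * tau s|
      ≤ K * Real.log 2 / (A * Z) * tau s * err s

/-- expectation of the total discrepancy -/
lemma deq_disc {Q : ℕ} [NeZero Q] (ls : List Law) {Z δ C u₀ : ℝ} (hZ : 0 < Z) (hδ : 0 < δ)
    (hC : 0 < C) {r w J : ℕ} (hr : 0 < r)
    (hu : u₀ ≤ Real.log (Z / (δ * (r * 2 ^ J : ℕ))))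
    (h : ∀ j ≤ J, Ex ls (fun as => ‖mu (as.map (grid Q δ))
        (conv (box Q (r * 2 ^ j)) (Kd Q (r * 2 ^ j) (w * 2 ^ j)))‖)
      ≤ C * (δ / Z) * Real.exp (-(Real.log (Z / (δ * (r * 2 ^ j : ℕ))) / 50))) :
    Ex ls (fun as => disc Q r w (J + 1) (as.map (grid Q δ)))
      ≤ C * (δ / Z) * (100 * Real.exp (-(u₀ / 50))) := by
  unfold disc
  rw [Ex_sum]
  have hr0 : (0 : ℝ) < r := by exact_mod_cast hr
  have hg := deq_geom (fun j => Real.log (Z / (δ * (r * 2 ^ j : ℕ)))) (fun j => by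
    push_cast
    rw [← Real.log_mul (by positivity) (by norm_num)]
    congr 1
    rw [pow_succ]
    field_simp) J
  calc _ ≤ ∑ j ∈ range (J + 1),
        C * (δ / Z) * Real.exp (-(Real.log (Z / (δ * (r * 2 ^ j : ℕ))) / 50)) :=
        sum_le_sum fun j hj => h j (Nat.lt_succ_iff.1 (mem_range.1 hj))
    _ = C * (δ / Z) * ∑ j ∈ range (J + 1),
        Real.exp (-(Real.log (Z / (δ * (r * 2 ^ j : ℕ))) / 50)) := by rw [mul_sum]
    _ ≤ C * (δ / Z) * (100 * Real.exp (-(u₀ / 50))) := by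
        refine mul_le_mul_of_nonneg_left (hg.trans ?_) (by positivity)
        exact mul_le_mul_of_nonneg_left (Real.exp_le_exp.2 (by linarith)) (by norm_num)

lemma deq_disc_nonneg (Q : ℕ) [NeZero Q] (r w J : ℕ) (l : List (ZMod Q)) : 0 ≤ disc Q r w J l :=
  sum_nonneg fun _ _ => norm_nonneg _

/-- the mean value of the relative error -/
lemma deq_mean {s A : ℝ} (hs : 10 ^ 6 ≤ s) (hA : 100 ≤ A) {M : ℕ} (hM : 3 ≤ M) :
    ∃ C u₁ : ℝ, 0 < C ∧ ∀ u₀ : ℝ, u₁ ≤ u₀ → 48 * (M + 2) * Real.exp (-u₀) ≤ A → ∀ K : ℕ, 1 ≤ K →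
    ∀ᶠ Z : ℝ in atTop, ∀ n : ℕ, uu s n ≤ (1 - gam) * Real.log Z →
      (1 - gam) * Real.log Z < uu s (n + 1) → ∀ S : Finset ℕ,
      (∀ a ∈ S, Smooth (Real.exp Z) a ∧ Real.log a ≤ A * Z / 8 ∧
        ∀ l < n, 2 * (nn s l : ℝ) ≤ om (blk Z s l) a) →
      ∑ a ∈ S, tau a * dErr (A * Z) K a / a ≤ VV (Real.exp Z) ^ 2 *
        (2 / M + 4 * A * Real.exp u₀ / K + 400 * A * C * Real.exp (-(u₀ / 50))
          + 6 * (1 + 2 * A) * Z / Real.exp (Z ^ gam)) := by
  classical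
  obtain ⟨C, u₁, hC, hsc⟩ := scale_num hs (M + 2)
  refine ⟨C, u₁, hC, fun u₀ hu hAu K hK => ?_⟩
  have hl2 := Real.log_two_gt_d9
  have hl2' := Real.log_two_lt_d9
  have hM0 : (3 : ℝ) ≤ M := by exact_mod_cast hM
  have hK0 : (1 : ℝ) ≤ K := by exact_mod_cast hK
  have hg := gam_pos
  have hg1 : gam ≤ 1 := by unfold gam; norm_num
  filter_upwards [hsc, deq_log_small (M : ℝ), eventually_ge_atTop 1,
    Real.tendsto_log_atTop.eventually (eventually_ge_atTop u₀),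
    Real.tendsto_log_atTop.eventually (eventually_ge_atTop (Real.log (M / Real.log 2) / gam))]
    with Z hsc hZr hZ1 hZu hZg n hn1 hn2 S hS
  have hZ0 : 0 < Z := by linarith
  have hlog : 0 ≤ Real.log Z := Real.log_nonneg hZ1
  obtain ⟨r, hr⟩ : ∃ r : ℕ, r = ⌈2 * Real.log Z⌉₊ + 1 := ⟨_, rfl⟩
  have hr1 : 1 ≤ r := by omega
  have hr0 : (1 : ℝ) ≤ r := by exact_mod_cast hr1
  have hrlo : 2 * Real.log Z ≤ r := by
    rw [hr]; push_cast
    linarith [Nat.le_ceil (2 * Real.log Z)]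
  have hrhi : (r : ℝ) ≤ 2 * Real.log Z + 2 := by
    rw [hr]; push_cast
    linarith [(Nat.ceil_lt_add_one (by linarith : 0 ≤ 2 * Real.log Z)).le]
  obtain ⟨δ, hδ⟩ : ∃ δ : ℝ, δ = Real.log 2 / (M * r) := ⟨_, rfl⟩
  have hδ0 : 0 < δ := by rw [hδ]; positivity
  have hδ1 : δ ≤ 1 := by
    rw [hδ, div_le_one (by positivity)]
    nlinarith only [hM0, hr0, hl2']
  have hδZ : 1 / Z ≤ δ := by
    rw [hδ, div_le_div_iff₀ hZ0 (by positivity)]
    nlinarith only [hM0, hrhi, hZr]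
  have hδr : δ * r = Real.log 2 / M := by rw [hδ]; field_simp
  have hZδ : 1 ≤ Z / δ := by rw [le_div_iff₀ hδ0]; linarith
  obtain ⟨Q, hQ⟩ : ∃ Q : ℕ, Q = ⌈4 * (A * Z) / δ⌉₊ := ⟨_, rfl⟩
  have hQ1 : 4 * (A * Z) / δ ≤ Q := hQ ▸ Nat.le_ceil _
  have hQ2 : 2 * (Z / δ) + 2 ≤ Q := by
    have : 4 * (A * Z) / δ = 4 * A * (Z / δ) := by ring
    nlinarith only [this, hQ1, hZδ, hA]
  have : NeZero Q := ⟨by
    intro h
    rw [h] at hQ2
    push_cast at hQ2
    linarith⟩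
  -- the number of scales
  have hv : ∀ j : ℕ, Real.log (Z / (δ * (r * 2 ^ j : ℕ)))
      = Real.log Z + Real.log (M / Real.log 2) - j * Real.log 2 := by
    intro j
    push_cast
    rw [← mul_assoc, hδr, ← Real.log_pow, ← Real.log_mul hZ0.ne' (by positivity),
      ← Real.log_div (by positivity) (by positivity)]
    congr 1
    field_simp
  have hM1 : 0 ≤ Real.log (M / Real.log 2) :=
    Real.log_nonneg (by rw [le_div_iff₀ (by linarith)]; linarith)
  have hex : ∃ j : ℕ, Real.log (Z / (δ * (r * 2 ^ j : ℕ))) < u₀ := by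
    obtain ⟨j, hj⟩ := exists_nat_gt ((Real.log Z + Real.log (M / Real.log 2) - u₀) / Real.log 2)
    rw [div_lt_iff₀ (by linarith)] at hj
    exact ⟨j, by rw [hv]; linarith⟩
  have hJ0 : Nat.find hex ≠ 0 := by
    intro h
    have := Nat.find_spec hex
    rw [h, hv] at this
    push_cast at this
    linarith
  obtain ⟨J, hJ⟩ := Nat.exists_eq_succ_of_ne_zero hJ0
  have hJlo : ∀ j ≤ J, u₀ ≤ Real.log (Z / (δ * (r * 2 ^ j : ℕ))) := fun j hj =>
    not_lt.1 (Nat.find_min hex (by omega))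
  have hJhi : Real.log (Z / (δ * (r * 2 ^ (J + 1) : ℕ))) < u₀ := by
    have := Nat.find_spec hex
    rwa [hJ] at this
  have hup : ∀ j : ℕ, Real.log (Z / (δ * (r * 2 ^ j : ℕ))) ≤ (1 + gam) * Real.log Z := by
    intro j
    rw [hv]
    rw [div_le_iff₀ hg] at hZg
    have : 0 ≤ (j : ℝ) * Real.log 2 := by positivity
    linarith
  have hsc' := fun (w : ℕ) (h1 : 1 ≤ w) (h2 : w ≤ M + 2) (j : ℕ) (hj : j ≤ J) =>
    hsc n hn1 hn2 δ hδZ hδ1 Q hQ2 (r * 2 ^ j) (w * r * 2 ^ j) (by positivity)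
      (by rw [mul_assoc]; exact Nat.le_mul_of_pos_left _ h1)
      (by rw [mul_assoc]; exact Nat.mul_le_mul_right _ h2) (hu.trans (hJlo j hj)) (hup j)
  have hprob : ∀ l ∈ pat (bls Z s n), l.Prob := (hsc' 1 le_rfl (by omega) 0 (Nat.zero_le _)).1
  have e1 := deq_disc (Q := Q) (pat (bls Z s n)) hZ0 hδ0 hC (w := (M + 2) * r) hr1 (hJlo J le_rfl)
    fun j hj => (hsc' (M + 2) (by omega) le_rfl j hj).2
  have e2 := deq_disc (Q := Q) (pat (bls Z s n)) hZ0 hδ0 hC (w := (M - 2) * r) hr1 (hJlo J le_rfl)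
    fun j hj => (hsc' (M - 2) (by omega) (by omega) j hj).2
  have hΛ : 100 ≤ A * Z := by nlinarith only [hA, hZ1]
  have hJ1 : 24 * ((M + 2) * r * 2 ^ (J + 1) * δ) ≤ A * Z := by
    have h1 := hJlo J le_rfl
    push_cast at h1
    rw [Real.le_log_iff_exp_le (by positivity), le_div_iff₀ (by positivity)] at h1
    have h2 : δ * (r * 2 ^ J) ≤ Real.exp (-u₀) * Z := by
      rw [Real.exp_neg, ← div_eq_inv_mul, le_div_iff₀ (Real.exp_pos _)]
      linarith
    calc 24 * ((M + 2) * r * 2 ^ (J + 1) * δ) = 48 * (M + 2) * (δ * (r * 2 ^ J)) := by ring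
      _ ≤ 48 * (M + 2) * (Real.exp (-u₀) * Z) := by gcongr
      _ = 48 * (M + 2) * Real.exp (-u₀) * Z := by ring
      _ ≤ A * Z := by gcongr
  have hJ2 : 4 * (A * Z) / (K * (r * 2 ^ (J + 1) * δ)) ≤ 4 * A * Real.exp u₀ / K := by
    have h1 := hJhi
    push_cast at h1
    rw [Real.log_lt_iff_lt_exp (by positivity), div_lt_iff₀ (by positivity)] at h1
    rw [div_le_div_iff₀ (by positivity) (by positivity)]
    calc 4 * (A * Z) * K = 4 * A * K * Z := by ring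
      _ ≤ 4 * A * K * (Real.exp u₀ * (δ * (r * 2 ^ (J + 1)))) := by gcongr
      _ = _ := by ring
  have hs0 : 0 < s := by linarith
  have htr := transfer (Real.exp Z) (bls Z s n) (bls_disjoint hs0.le hZ0.le n)
    (y := Real.exp (Z ^ gam)) (Real.one_le_exp (by positivity))
    (by
      intro b hb
      obtain ⟨l, hl, rfl⟩ := List.mem_map.1 hb
      rw [List.mem_range] at hl
      exact ⟨deq_nonempty hs0 hl hprob, fun p hp => deq_blk hs0.le hZ1 hn1 hl hp⟩)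
    (dErr (A * Z) K)
    (fun as => 2 / M + 4 * (A * Z) / (K * (r * 2 ^ (J + 1) * δ)) + 2 * (A * Z / δ) *
      (disc Q r ((M + 2) * r) (J + 1) (as.map (grid Q δ))
        + disc Q r ((M - 2) * r) (J + 1) (as.map (grid Q δ))))
    (M := 1 + 2 * (A * Z)) (by linarith) (dErr_triv (by linarith) K)
    (fun as => by
      have := deq_disc_nonneg Q r ((M + 2) * r) (J + 1) (as.map (grid Q δ))
      have := deq_disc_nonneg Q r ((M - 2) * r) (J + 1) (as.map (grid Q δ))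
      positivity)
    S
    (by
      intro a ha
      refine ⟨(hS a ha).1, fun b hb => ?_⟩
      obtain ⟨l, hl, rfl⟩ := List.mem_map.1 hb
      rw [List.mem_range] at hl
      push_cast
      exact (hS a ha).2.2 l hl)
    (by
      intro a ha as hnd hf has
      have hlen : as.length ≤ r := by
        have h1 := length_pat_le hs Z n
        rw [← hf.length_eq] at h1
        have h3 : 0 ≤ gam * Real.log Z := mul_nonneg hg.le hlog
        have h2 : (as.length : ℝ) ≤ r := by linarith only [h1, h3, hn1, hrlo, hs0]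
        exact_mod_cast h2
      refine dErr_le (by linarith) ?_ fun q y hq => ?_
      · have := deq_disc_nonneg Q r ((M + 2) * r) (J + 1) (as.map (grid Q δ))
        have := deq_disc_nonneg Q r ((M - 2) * r) (J + 1) (as.map (grid Q δ))
        positivity
      · exact bridge hM hr1 hK hδ (by linarith) hJ1 hQ1 (hS a ha).1.1 (hS a ha).2.1 as hnd hlen has
          q hq.1 hq.2.1 hq.2.2.1 hq.2.2.2)
  refine htr.trans (mul_le_mul_of_nonneg_left ?_ (sq_nonneg _))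
  rw [Ex_add, Ex_const hprob, Ex_mul, Ex_add]
  have h3 : 2 * (A * Z / δ) * (Ex (pat (bls Z s n))
        (fun as => disc Q r ((M + 2) * r) (J + 1) (as.map (grid Q δ))) + Ex (pat (bls Z s n))
        (fun as => disc Q r ((M - 2) * r) (J + 1) (as.map (grid Q δ))))
      ≤ 400 * A * C * Real.exp (-(u₀ / 50)) := by
    calc _ ≤ 2 * (A * Z / δ) * (C * (δ / Z) * (100 * Real.exp (-(u₀ / 50)))
          + C * (δ / Z) * (100 * Real.exp (-(u₀ / 50)))) :=
          mul_le_mul_of_nonneg_left (add_le_add e1 e2) (by positivity)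
      _ = _ := by field_simp; ring
  have h4 : 6 * (1 + 2 * (A * Z)) / Real.exp (Z ^ gam)
      ≤ 6 * (1 + 2 * A) * Z / Real.exp (Z ^ gam) :=
    div_le_div_of_nonneg_right (by linarith only [hZ1]) (Real.exp_pos _).le
  linarith only [h3, h4, hJ2]

theorem divEq {ε : ℝ} (hε : 0 < ε) : ∃ A : ℝ, 100 ≤ A ∧ ∃ K : ℕ, 1 ≤ K ∧ ∀ ε' : ℝ, 0 < ε' →
    ∃ R : ℝ, 1 ≤ R ∧ ∀ᶠ Z : ℝ in atTop, ∃ (Typ Hi Lo : ℕ → Prop) (err : ℕ → ℝ),
      DivData ε ε' A R Z K Typ Hi Lo err := by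
  have hg := gam_pos
  have hg1 : 0 < 1 - gam := by unfold gam; norm_num
  have hc : 0 < gam ^ 3 / 2 := by positivity
  obtain ⟨s, hs, hs1⟩ := ((eventually_ge_atTop (2 * 10 ^ 12 : ℝ)).and
    (deq_small (4 * Real.exp 73) hc (half_pos hε))).exists
  obtain ⟨A, hA, hA1⟩ := ((eventually_ge_atTop (100 : ℝ)).and
    (deq_small (Real.exp 16 * Real.exp 73) (by norm_num : (0 : ℝ) < 1 / 32) (half_pos hε))).exists
  obtain ⟨E, hE⟩ : ∃ E : ℝ, E = Real.exp 73 ^ 2 := ⟨_, rfl⟩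
  have hE0 : 0 < E := by rw [hE]; positivity
  obtain ⟨M, hM⟩ := exists_nat_ge (max 3 (8 * E / ε))
  have hM3 : 3 ≤ M := by exact_mod_cast (le_max_left _ _).trans hM
  have hM0 : (0 : ℝ) < M := by exact_mod_cast (by omega : 0 < M)
  have hM1 : 2 / (M : ℝ) ≤ ε / (4 * E) := by
    have := (le_max_right _ _).trans hM
    rw [div_le_iff₀ hε] at this
    rw [div_le_div_iff₀ hM0 (by positivity)]
    linarith
  have hs6 : (10 : ℝ) ^ 6 ≤ s := by linarith
  have hs0 : 0 < s := by linarith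
  obtain ⟨C, u₁, hC, hmean⟩ := deq_mean hs6 hA hM3
  obtain ⟨u₀, hu1, hu2, hu3⟩ := ((eventually_ge_atTop u₁).and
    ((deq_small (48 * (M + 2)) one_pos (by linarith : 0 < A)).and
    (deq_small (400 * A * C) (by norm_num : (0 : ℝ) < 1 / 50)
      (by positivity : 0 < ε / (4 * E))))).exists
  rw [one_mul] at hu2
  rw [one_div_mul_eq_div] at hu3
  obtain ⟨K, hK⟩ := exists_nat_ge (max 1 (16 * A * Real.exp u₀ * E / ε))
  have hK1 : 1 ≤ K := by exact_mod_cast (le_max_left _ _).trans hK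
  have hK0 : (0 : ℝ) < K := by exact_mod_cast hK1
  have hK2 : 4 * A * Real.exp u₀ / K ≤ ε / (4 * E) := by
    have := (le_max_right _ _).trans hK
    rw [div_le_iff₀ hε] at this
    rw [div_le_div_iff₀ hK0 (by positivity)]
    linarith
  refine ⟨A, hA, K, hK1, fun ε' hε' => ?_⟩
  obtain ⟨l₀, hl1, hl2⟩ := ((deq_uu_tendsto hs0).eventually
    ((deq_small (4 * Real.exp 73) hc (half_pos hε')).and
    (deq_small (Real.exp 16 * Real.exp 73) one_pos (half_pos hε')))).exists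
  have hu0 : 0 ≤ uu s l₀ := by
    have := deq_uu_mono hs0.le (Nat.zero_le l₀)
    rw [deq_uu_zero] at this
    linarith
  obtain ⟨R, hR⟩ : ∃ R : ℝ, R = Real.exp (uu s l₀) := ⟨_, rfl⟩
  have hR1 : 1 ≤ R := hR ▸ Real.one_le_exp hu0
  have hR2 : uu s l₀ ≤ R := by rw [hR]; linarith [Real.add_one_le_exp (uu s l₀)]
  refine ⟨R, hR1, ?_⟩
  filter_upwards [hmean u₀ hu1 hu2 K hK1, atypical hs, eventually_ge_atTop (14 * R),
    deq_tail (6 * (1 + 2 * A)) (by positivity : 0 < ε / (4 * E)),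
    Real.tendsto_log_atTop.eventually (eventually_ge_atTop (s / (1 - gam)))]
    with Z hmean haty hZR htail hZs
  have hZ14 : 14 ≤ Z := by linarith
  have hZ0 : 0 < Z := by linarith
  have hY : 14 ≤ Z / R := by rw [le_div_iff₀ (by linarith)]; linarith
  obtain ⟨n, hn1, hn2⟩ := deq_exists_n hs0 (t := (1 - gam) * Real.log Z)
    (by rw [div_le_iff₀ hg1] at hZs; linarith)
  have hV : VV (Real.exp Z) ≤ Real.exp 73 * Z := by
    have := VV_le (z := Real.exp Z) (by linarith [Real.add_one_le_exp Z])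
    rwa [Real.log_exp] at this
  have hV0 : 0 ≤ VV (Real.exp Z) := by
    simpa using sum_inv_smooth (Real.exp Z) ∅ (by simp)
  have hΛ : 0 < A * Z := by positivity
  refine ⟨fun a => Real.log a ≤ A * Z / 8 ∧ ∀ l < n, 2 * (nn s l : ℝ) ≤ om (blk Z s l) a,
    fun a => (∃ l, l < l₀ ∧ l < n ∧ om (blk Z s l) a < nn s l) ∨
      A * Z / 32 < clog (fun p => Z / R < Real.log p ∧ Real.log p ≤ Z) a,
    fun a => (∃ l, l₀ ≤ l ∧ l < n ∧ om (blk Z s l) a < nn s l) ∨
      A * Z / 32 < clog (fun p => Real.log p ≤ Z / R) a,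
    dErr (A * Z) K, dErr_nonneg hΛ K, fun _ h => h.1, ?_, ?_, ?_, ?_, ?_, ?_⟩
  · intro a b ha hb h1 h2 h3 h4
    push Not at h1 h2 h3 h4
    constructor
    · rw [Nat.cast_mul, Real.log_mul (by exact_mod_cast ha.1) (by exact_mod_cast hb.1),
        deq_log_split (Y := Z / R) ha, deq_log_split (Y := Z / R) hb]
      linarith [h1.2, h2.2, h3.2, h4.2]
    · intro l hl
      rw [om_mul _ ha.1 hb.1]
      rcases lt_or_ge l l₀ with h | h
      · linarith [h1.1 l h hl, h3.1 l h hl]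
      · linarith [h2.1 l h hl, h4.1 l h hl]
  · intro p hp hpR a
    rcases eq_or_ne a 0 with rfl | ha
    · rw [mul_zero]
    have h1 : clog (fun p => Z / R < Real.log p ∧ Real.log p ≤ Z) (p * a)
        = clog (fun p => Z / R < Real.log p ∧ Real.log p ≤ Z) a := by
      rw [clog_mul _ hp.ne_zero ha]
      unfold clog
      rw [cadd_prime _ hp, if_neg (fun h => absurd h.1 (not_lt.2 hpR)), zero_add]
    have h2 : ∀ l < l₀, om (blk Z s l) (p * a) = om (blk Z s l) a := by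
      intro l hl
      rw [om_mul _ hp.ne_zero ha]
      unfold om
      rw [cadd_prime _ hp, if_neg, zero_add]
      intro h
      have h3 := (mem_Pr.1 h).2.1
      have h4 : uu s (l + 1) ≤ uu s l₀ := deq_uu_mono hs0.le hl
      have h5 : Z / R ≤ Z * Real.exp (-uu s (l + 1)) := by
        rw [hR, div_eq_mul_inv, ← Real.exp_neg]
        exact mul_le_mul_of_nonneg_left (Real.exp_le_exp.2 (by linarith)) hZ0.le
      linarith
    rw [h1]
    refine or_congr_left (exists_congr fun l => and_congr_right fun hl => ?_)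
    rw [h2 l hl]
  · intro S hS
    have := deq_split S (fun a => ∃ l, l < l₀ ∧ l < n ∧ om (blk Z s l) a < nn s l)
      (fun T hT => haty n 0 hn1 T fun a ha => ⟨(hS a (hT a ha).1).1, by
        obtain ⟨l, -, h⟩ := (hT a ha).2
        exact ⟨l, Nat.zero_le _, h⟩⟩)
      (fun T hT => deq_large (Real.exp Z) hZ14 _ (fun p hp => hp.2) (A * Z / 32) T fun a ha =>
        ⟨(hS a (hT a ha).1).1, ((hS a (hT a ha).1).2.resolve_left (hT a ha).2).le⟩)
    refine this.trans ?_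
    rw [deq_uu_zero]
    have h1 : 4 * Real.exp (-(gam ^ 3 * s / 2)) * VV (Real.exp Z) ≤ ε / 2 * Z := by
      calc _ ≤ 4 * Real.exp (-(gam ^ 3 * s / 2)) * (Real.exp 73 * Z) := by gcongr
        _ = 4 * Real.exp 73 * Real.exp (-(gam ^ 3 / 2 * s)) * Z := by
          rw [div_mul_eq_mul_div]; ring
        _ ≤ _ := by gcongr
    have h2 : Real.exp (16 - A * Z / 32 / Z) * VV (Real.exp Z) ≤ ε / 2 * Z := by
      calc _ ≤ Real.exp (16 - A * Z / 32 / Z) * (Real.exp 73 * Z) := by gcongr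
        _ = Real.exp 16 * Real.exp 73 * Real.exp (-(1 / 32 * A)) * Z := by
          rw [show 16 - A * Z / 32 / Z = 16 + -(1 / 32 * A) by field_simp; ring, Real.exp_add]
          ring
        _ ≤ _ := by gcongr
    linarith
  · intro S hS
    have := deq_split S (fun a => ∃ l, l₀ ≤ l ∧ l < n ∧ om (blk Z s l) a < nn s l)
      (fun T hT => haty n l₀ hn1 T fun a ha => ⟨(hS a (hT a ha).1).1, (hT a ha).2⟩)
      (fun T hT => deq_large (Real.exp Z) hY _ (fun p hp => hp) (A * Z / 32) T fun a ha =>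
        ⟨(hS a (hT a ha).1).1, ((hS a (hT a ha).1).2.resolve_left (hT a ha).2).le⟩)
    refine this.trans ?_
    have h1 : 4 * Real.exp (-(gam ^ 3 * uu s l₀ / 2)) * VV (Real.exp Z) ≤ ε' / 2 * Z := by
      calc _ ≤ 4 * Real.exp (-(gam ^ 3 * uu s l₀ / 2)) * (Real.exp 73 * Z) := by gcongr
        _ = 4 * Real.exp 73 * Real.exp (-(gam ^ 3 / 2 * uu s l₀)) * Z := by
          rw [div_mul_eq_mul_div]; ring
        _ ≤ _ := by gcongr
    have h2 : Real.exp (16 - A * Z / 32 / (Z / R)) * VV (Real.exp Z) ≤ ε' / 2 * Z := by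
      have h3 : 16 - A * Z / 32 / (Z / R) ≤ 16 + -(1 * uu s l₀) := by
        rw [show A * Z / 32 / (Z / R) = A / 32 * R by field_simp]
        nlinarith
      calc _ ≤ Real.exp (16 + -(1 * uu s l₀)) * (Real.exp 73 * Z) := by gcongr
        _ = Real.exp 16 * Real.exp 73 * Real.exp (-(1 * uu s l₀)) * Z := by
          rw [Real.exp_add]; ring
        _ ≤ _ := by gcongr
    linarith
  · intro S hS
    refine (hmean n hn1 hn2 S hS).trans ?_
    calc _ ≤ (Real.exp 73 * Z) ^ 2 * (ε / E) := by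
          refine mul_le_mul (pow_le_pow_left₀ hV0 hV 2) ?_ (by positivity) (sq_nonneg _)
          have : ε / E = 4 * (ε / (4 * E)) := by field_simp
          linarith
      _ = ε * Z ^ 2 := by rw [mul_pow, ← hE]; field_simp
  · intro a ha _ q hq y hy h1 h2
    exact dErr_spec hΛ hK1 ha.1 ⟨hq, hy, h1, h2⟩

end Pool.Agent.Work.MP_82fd4a_nt
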