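import Pool.Agent.Work.MP_82fd4a_nt.Scale
import Pool.Agent.Work.MP_82fd4a_nt.Bridge

/-! Auxiliary facts for the equidistribution theorem. -/

set_option autoImplicit false
open Filter Topology Finset

namespace Pool.Agent.Work.MP_82fd4a_nt

lemma deq_small {c η : ℝ} (B : ℝ) (hc : 0 < c) (hη : 0 < η) :
    ∀ᶠ t : ℝ in atTop, B * Real.exp (-(c * t)) ≤ η := by
  have h1 : Tendsto (fun t : ℝ => B * Real.exp (-(c * t))) atTop (𝓝 (B * 0)) :=
    (Real.tendsto_exp_neg_atTop_nhds_zero.comp (tendsto_id.const_mul_atTop hc)).const_mul B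
  rw [mul_zero] at h1
  exact h1.eventually (ge_mem_nhds hη)

lemma gam_pos : 0 < gam := by unfold gam; norm_num

lemma deq_uu_mono {s : ℝ} (hs : 0 ≤ s) : Monotone (uu s) := by
  intro a b hab
  unfold uu
  exact mul_le_mul_of_nonneg_left (pow_le_pow_right₀ (by linarith [gam_pos]) hab) hs

lemma deq_uu_zero (s : ℝ) : uu s 0 = s := by simp [uu]

lemma deq_uu_tendsto {s : ℝ} (hs : 0 < s) : Tendsto (uu s) atTop atTop :=
  (tendsto_pow_atTop_atTop_of_one_lt (by linarith [gam_pos] : (1 : ℝ) < 1 + gam)).const_mul_atTop hs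

lemma deq_exists_n {s t : ℝ} (hs : 0 < s) (ht : s ≤ t) : ∃ n, uu s n ≤ t ∧ t < uu s (n + 1) := by
  classical
  have hex : ∃ n, t < uu s n := ((deq_uu_tendsto hs).eventually (eventually_gt_atTop t)).exists
  have h0 : Nat.find hex ≠ 0 := by
    intro h
    have := Nat.find_spec hex
    rw [h, deq_uu_zero] at this
    linarith
  obtain ⟨n, hn⟩ := Nat.exists_eq_succ_of_ne_zero h0
  refine ⟨n, not_lt.1 (Nat.find_min hex (by omega)), ?_⟩
  have := Nat.find_spec hex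
  rwa [hn] at this

open Classical in
/-- the logarithm of the part composed of the primes with a property -/
noncomputable def clog (P : ℕ → Prop) (s : ℕ) : ℝ :=
  cadd (fun p => if P p then Real.log p else 0) s

lemma clog_mul (P : ℕ → Prop) {a b : ℕ} (ha : a ≠ 0) (hb : b ≠ 0) :
    clog P (a * b) = clog P a + clog P b := cadd_mul _ ha hb

lemma om_mul (P : Finset ℕ) {a b : ℕ} (ha : a ≠ 0) (hb : b ≠ 0) :
    om P (a * b) = om P a + om P b := cadd_mul _ ha hb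

lemma deq_log_split {Z Y : ℝ} {a : ℕ} (ha : Smooth (Real.exp Z) a) :
    Real.log a = clog (fun p => Y < Real.log p ∧ Real.log p ≤ Z) a
      + clog (fun p => Real.log p ≤ Y) a := by
  induction a using induction_on_primes with
  | zero => exact absurd rfl ha.1
  | one => simp [clog, cadd_one]
  | prime_mul p a hp ih =>
    obtain ⟨h1, h2⟩ := smooth_mul.1 ha
    have hp0 : (0 : ℝ) < p := by exact_mod_cast hp.pos
    have hpZ : Real.log p ≤ Z := (Real.log_le_iff_le_exp hp0).2 (h1.2 p hp dvd_rfl)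
    rw [clog_mul _ h1.1 h2.1, clog_mul _ h1.1 h2.1, Nat.cast_mul,
      Real.log_mul hp0.ne' (by exact_mod_cast h2.1), ih h2]
    have : Real.log p = clog (fun p => Y < Real.log p ∧ Real.log p ≤ Z) p
        + clog (fun p => Real.log p ≤ Y) p := by
      unfold clog
      rw [cadd_prime _ hp, cadd_prime _ hp]
      by_cases h : Real.log p ≤ Y
      · rw [if_neg (fun h' => absurd h'.1 (not_lt.2 h)), if_pos h, zero_add]
      · rw [if_pos ⟨not_le.1 h, hpZ⟩, if_neg h, add_zero]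
    linarith

lemma deq_large (z : ℝ) {Y : ℝ} (hY : 14 ≤ Y) (P : ℕ → Prop) (hP : ∀ p, P p → Real.log p ≤ Y)
    (a : ℝ) (A : Finset ℕ) (hA : ∀ s ∈ A, Smooth z s ∧ a ≤ clog P s) :
    ∑ s ∈ A, (s : ℝ)⁻¹ ≤ Real.exp (16 - a / Y) * VV z := by
  classical
  exact large_part z hY P hP a A fun s hs => ⟨(hA s hs).1, by
    have := (hA s hs).2
    unfold clog at this
    convert this⟩

lemma deq_geom (v : ℕ → ℝ) (hv : ∀ j, v j = v (j + 1) + Real.log 2) (J : ℕ) :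
    ∑ j ∈ range (J + 1), Real.exp (-(v j / 50)) ≤ 100 * Real.exp (-(v J / 50)) := by
  induction J with
  | zero =>
    have := Real.exp_pos (-(v 0 / 50))
    simp only [zero_add, range_one, sum_singleton]
    linarith
  | succ J ih =>
    rw [sum_range_succ]
    have h1 : Real.exp (-(v J / 50)) * Real.exp (Real.log 2 / 50) = Real.exp (-(v (J + 1) / 50)) := by
      rw [← Real.exp_add, hv J]; congr 1; ring
    have h2 : Real.log 2 / 50 + 1 ≤ Real.exp (Real.log 2 / 50) := Real.add_one_le_exp _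
    have h3 := Real.log_two_gt_d9
    have h4 := Real.exp_pos (-(v J / 50))
    nlinarith

/-- admissible windows -/
def Adm (Λ : ℝ) (K : ℕ) (q : Fin K → ℕ) (y : ℝ) : Prop :=
  (∀ i : Fin K, Λ + (i : ℕ) * Λ / K ≤ Real.log (q i) ∧
    Real.log (q i) ≤ Λ + ((i : ℕ) + 1) * Λ / K) ∧
  0 < y ∧ 5 * Λ / 4 ≤ Real.log y ∧ Real.log y ≤ 15 * Λ / 8

/-- the worst relative error -/
noncomputable def dErr (Λ : ℝ) (K s : ℕ) : ℝ :=
  sSup {e | ∃ (q : Fin K → ℕ) (y : ℝ), Adm Λ K q y ∧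
    e = |∑ i, win s (q i) y - K * Real.log 2 / Λ * tau s| / (K * Real.log 2 / Λ * tau s)}

lemma deq_kappa_nonneg {Λ : ℝ} (hΛ : 0 < Λ) (K s : ℕ) : 0 ≤ K * Real.log 2 / Λ * tau s := by
  have := Real.log_two_gt_d9
  have := tau_nonneg s
  positivity

lemma dErr_nonneg {Λ : ℝ} (hΛ : 0 < Λ) (K s : ℕ) : 0 ≤ dErr Λ K s := by
  refine Real.sSup_nonneg ?_
  rintro e ⟨q, y, -, rfl⟩
  exact div_nonneg (abs_nonneg _) (deq_kappa_nonneg hΛ K s)

lemma dErr_le {Λ : ℝ} (hΛ : 0 < Λ) {K s : ℕ} {b : ℝ} (hb : 0 ≤ b)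
    (h : ∀ q y, Adm Λ K q y → |∑ i, win s (q i) y - K * Real.log 2 / Λ * tau s|
      ≤ K * Real.log 2 / Λ * tau s * b) : dErr Λ K s ≤ b := by
  refine Real.sSup_le ?_ hb
  rintro e ⟨q, y, hq, rfl⟩
  exact div_le_of_le_mul₀ (deq_kappa_nonneg hΛ K s) hb (by rw [mul_comm b]; exact h q y hq)

lemma deq_triv {Λ : ℝ} (hΛ : 0 < Λ) (K s : ℕ) (q : Fin K → ℕ) (y : ℝ) :
    |∑ i, win s (q i) y - K * Real.log 2 / Λ * tau s|
      ≤ K * Real.log 2 / Λ * tau s * (1 + 2 * Λ) := by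
  have h0 := deq_kappa_nonneg hΛ K s
  have h1 : 0 ≤ ∑ i, win s (q i) y := sum_nonneg fun i _ => Nat.cast_nonneg _
  have h2 : ∑ i, win s (q i) y ≤ K * tau s := by
    calc ∑ i, win s (q i) y ≤ ∑ _i : Fin K, tau s := sum_le_sum fun i _ => by
          unfold win tau
          exact_mod_cast card_filter_le _ _
      _ = K * tau s := by simp
  have h3 : K * Real.log 2 / Λ * tau s * (1 + 2 * Λ)
      = K * Real.log 2 / Λ * tau s + 2 * Real.log 2 * (K * tau s) := by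
    field_simp
  have h4 := Real.log_two_gt_d9
  have h5 : (0 : ℝ) ≤ K * tau s := mul_nonneg (Nat.cast_nonneg _) (tau_nonneg s)
  rw [h3, abs_le]
  constructor <;> nlinarith

lemma dErr_triv {Λ : ℝ} (hΛ : 0 < Λ) (K s : ℕ) : dErr Λ K s ≤ 1 + 2 * Λ :=
  dErr_le hΛ (by linarith) fun q y _ => deq_triv hΛ K s q y

lemma dErr_spec {Λ : ℝ} (hΛ : 0 < Λ) {K s : ℕ} (hK : 1 ≤ K) (hs : s ≠ 0) {q : Fin K → ℕ} {y : ℝ}
    (h : Adm Λ K q y) : |∑ i, win s (q i) y - K * Real.log 2 / Λ * tau s|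
      ≤ K * Real.log 2 / Λ * tau s * dErr Λ K s := by
  have h1 : 0 < tau s := by
    unfold tau
    exact_mod_cast card_pos.2 ⟨1, Nat.one_mem_divisors.2 hs⟩
  have h2 := Real.log_two_gt_d9
  have h3 : (0 : ℝ) < K := by exact_mod_cast hK
  have h4 : 0 < K * Real.log 2 / Λ * tau s := by positivity
  rw [mul_comm _ (dErr Λ K s), ← div_le_iff₀ h4]
  refine le_csSup ⟨1 + 2 * Λ, ?_⟩ ⟨q, y, h, rfl⟩
  rintro e ⟨q', y', -, rfl⟩
  rw [div_le_iff₀ h4, mul_comm (1 + 2 * Λ)]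
  exact deq_triv hΛ K s q' y'

lemma deq_tail (B : ℝ) {η : ℝ} (hη : 0 < η) :
    ∀ᶠ Z : ℝ in atTop, B * Z / Real.exp (Z ^ gam) ≤ η := by
  have h1 := ((Real.tendsto_pow_mul_exp_neg_atTop_nhds_zero 1000).comp
    (tendsto_rpow_atTop gam_pos)).const_mul B
  rw [mul_zero] at h1
  filter_upwards [h1.eventually (ge_mem_nhds hη), eventually_ge_atTop 0] with Z h hZ
  have h2 : (Z ^ gam) ^ 1000 = Z := by
    rw [← Real.rpow_natCast, ← Real.rpow_mul hZ]
    unfold gam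
    norm_num
  simp only [Function.comp, h2, Real.exp_neg] at h
  rwa [mul_div_assoc, div_eq_mul_inv]

lemma deq_log_small (B : ℝ) : ∀ᶠ Z : ℝ in atTop, B * (2 * Real.log Z + 2) ≤ Z * Real.log 2 := by
  have h2 := Real.log_two_gt_d9
  have h1 := Real.isLittleO_log_id_atTop.bound (c := 1 / (8 * (|B| + 1))) (by positivity)
  filter_upwards [h1, eventually_ge_atTop (8 * (|B| + 1)), eventually_ge_atTop 1] with Z h hZ hZ1
  have h3 : 0 ≤ Real.log Z := Real.log_nonneg hZ1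
  simp only [id, Real.norm_eq_abs] at h
  rw [abs_of_nonneg h3, abs_of_nonneg (by linarith : 0 ≤ Z)] at h
  have h4 : (|B| + 1) * Real.log Z ≤ Z / 8 := by
    have h5 : 0 < |B| + 1 := by positivity
    calc (|B| + 1) * Real.log Z ≤ (|B| + 1) * (1 / (8 * (|B| + 1)) * Z) := by gcongr
      _ = Z / 8 := by field_simp
  have h6 := le_abs_self B
  nlinarith

lemma deq_blk {Z s : ℝ} (hs : 0 ≤ s) (hZ : 1 ≤ Z) {n l : ℕ} (hn : uu s n ≤ (1 - gam) * Real.log Z)
    (hl : l < n) {p : ℕ} (hp : p ∈ blk Z s l) :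
    p.Prime ∧ Real.exp (Z ^ gam) < p ∧ (p : ℝ) ≤ Real.exp Z := by
  obtain ⟨h1, h2, h3⟩ := mem_Pr.1 hp
  have hp0 : (0 : ℝ) < p := by exact_mod_cast h1.pos
  have hZ0 : 0 < Z := by linarith
  refine ⟨h1, ?_, ?_⟩
  · rw [← Real.lt_log_iff_exp_lt hp0]
    refine lt_of_le_of_lt ?_ h2
    have h4 : uu s (l + 1) ≤ uu s n := deq_uu_mono hs hl
    rw [Real.rpow_def_of_pos hZ0]
    conv_rhs => rw [← Real.exp_log hZ0, ← Real.exp_add]
    exact Real.exp_le_exp.2 (by linarith)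
  · rw [← Real.log_le_iff_le_exp hp0]
    have h4 : 0 ≤ uu s l := by
      have := deq_uu_mono hs (Nat.zero_le l)
      rw [deq_uu_zero] at this
      linarith
    have h5 : Real.exp (-uu s l) ≤ 1 := Real.exp_le_one_iff.2 (by linarith)
    nlinarith

lemma deq_nn_pos {s : ℝ} (hs : 0 < s) (l : ℕ) : 0 < nn s l := by
  unfold nn
  refine Nat.ceil_pos.2 ?_
  have h1 := deq_uu_mono hs.le (Nat.zero_le l)
  rw [deq_uu_zero] at h1
  have h2 : 0 < 1 - gam := by unfold gam; norm_num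
  have h3 := gam_pos
  have : 0 < uu s l := by linarith
  positivity

lemma deq_nonempty {Z s : ℝ} (hs : 0 < s) {n l : ℕ} (hl : l < n)
    (h : ∀ L ∈ pat (bls Z s n), L.Prob) : (blk Z s l).Nonempty := by
  have h1 : law (blk Z s l) ∈ pat (bls Z s n) := by
    unfold pat bls
    rw [List.mem_flatMap]
    refine ⟨(blk Z s l, 2 * nn s l), List.mem_map.2 ⟨l, List.mem_range.2 hl, rfl⟩, ?_⟩
    have := deq_nn_pos hs l
    exact List.mem_replicate.2 ⟨by simp only; omega, rfl⟩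
  have h2 := (h _ h1).2
  by_contra h3
  rw [not_nonempty_iff_eq_empty] at h3
  simp [law, h3] at h2

lemma deq_split (S : Finset ℕ) (P : ℕ → Prop) {a b : ℝ}
    (h1 : ∀ T : Finset ℕ, (∀ s ∈ T, s ∈ S ∧ P s) → ∑ s ∈ T, (s : ℝ)⁻¹ ≤ a)
    (h2 : ∀ T : Finset ℕ, (∀ s ∈ T, s ∈ S ∧ ¬ P s) → ∑ s ∈ T, (s : ℝ)⁻¹ ≤ b) :
    ∑ s ∈ S, (s : ℝ)⁻¹ ≤ a + b := by
  classical
  rw [← sum_filter_add_sum_filter_not S P]
  exact add_le_add (h1 _ fun s hs => mem_filter.1 hs) (h2 _ fun s hs => mem_filter.1 hs)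

end Pool.Agent.Work.MP_82fd4a_nt
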