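import Pool.Agent.Work.MP_82fd4a_nt.Defs
import Pool.Agent.Lib.ANT.RosserMain
import Pool.Agent.Lib.ANT.Mertens

/-! The fundamental lemma of the sieve, as a pointwise approximation. -/

set_option autoImplicit false
open Filter Topology Finset

namespace Pool.Agent.Work.MP_82fd4a_nt

section fundaux

open Pool.Agent.Lib.ANT

theorem fund_inv_le_exp {x : ℝ} (h1 : x ≤ 1 / 2) : (1 - x)⁻¹ ≤ Real.exp (x + 2 * x ^ 2) := by
  refine le_trans ?_ (Real.add_one_le_exp _)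
  rw [inv_le_iff_one_le_mul₀ (by linarith)]
  nlinarith [mul_nonneg (sq_nonneg x) (sub_nonneg.2 h1)]

theorem fund_linHyp : ∃ w : ℕ, ∀ Ps : Finset ℕ, (∀ p ∈ Ps, p.Prime ∧ w < p) →
    LinHyp Ps (fun p => (p : ℝ)⁻¹) (1 / 1000) := by
  obtain ⟨η, η0, hη⟩ : ∃ η : ℝ, 0 < η ∧ Real.exp (2 * η) = 1 + 1 / 1000 :=
    ⟨Real.log (1 + 1 / 1000) / 2, div_pos (Real.log_pos (by norm_num)) (by norm_num), by
      rw [mul_div_cancel₀ _ (by norm_num), Real.exp_log (by norm_num)]⟩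
  obtain ⟨w, h1, h2, h3⟩ := (((Real.tendsto_log_atTop.comp
    tendsto_natCast_atTop_atTop).eventually_ge_atTop (48 / η)).and
    ((tendsto_natCast_atTop_atTop.eventually_ge_atTop (5 / η)).and
      (eventually_ge_atTop (2 : ℕ)))).exists
  refine ⟨w, fun Ps hPs => ?_⟩
  have w2 : (2 : ℝ) ≤ w := by exact_mod_cast h3
  have g1 : ∀ p ∈ Ps, (p : ℝ)⁻¹ ≤ 1 / 2 := fun p hp => by
    rw [one_div]
    exact inv_anti₀ (by norm_num) (by exact_mod_cast (hPs p hp).1.two_le)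
  refine ⟨fun p hp => (hPs p hp).1.two_le, fun p _ => by positivity,
    fun p hp => by linarith [g1 p hp], fun u v hu huv => ?_⟩
  have lu := Real.log_pos hu
  have luv := Real.log_le_log (by linarith) huv
  set Q := Ps.filter fun p : ℕ => u ≤ p ∧ (p : ℝ) < v with hQ
  rcases Q.eq_empty_or_nonempty with h | h
  · rw [h, prod_empty, inv_one, le_div_iff₀ lu]
    nlinarith
  obtain ⟨a1, a2, -⟩ : Q.min' h ∈ Ps ∧ u ≤ Q.min' h ∧ (Q.min' h : ℝ) < v := by
    simpa [hQ] using Q.min'_mem h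
  obtain ⟨c1, -, c2⟩ : Q.max' h ∈ Ps ∧ u ≤ Q.max' h ∧ (Q.max' h : ℝ) < v := by
    simpa [hQ] using Q.max'_mem h
  have s1 : Q ⊆ insert (Q.min' h) ((Ioc (Q.min' h) (Q.max' h)).filter Nat.Prime) := fun p hp => by
    rcases (Q.min'_le p hp).eq_or_lt with k | k
    · exact k ▸ mem_insert_self _ _
    · exact mem_insert_of_mem (mem_filter.2 ⟨mem_Ioc.2 ⟨k, Q.le_max' p hp⟩,
        (hPs p (mem_filter.1 hp).1).1⟩)
  have ac := Q.min'_le_max' h
  generalize Q.min' h = a at *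
  generalize Q.max' h = c at *
  have wa : (w : ℝ) ≤ a := Nat.cast_le.2 (hPs a a1).2.le
  have t1 := (abs_le.1 (abs_sum_inv_prime_Ioc_sub_le a c (hPs a a1).1.two_le ac)).2
  have lw : 0 < Real.log w := Real.log_pos (by linarith)
  have lwa : Real.log w ≤ Real.log a := Real.log_le_log (by linarith) wa
  have t0 : 48 / Real.log a ≤ η := by
    rw [div_le_comm₀ (by linarith) η0]
    exact le_trans h1 lwa
  have k2 : (a : ℝ)⁻¹ ≤ η / 5 := by
    rw [div_le_comm₀ η0 (by linarith)] at h2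
    have := inv_anti₀ (by linarith) wa
    rw [div_eq_mul_inv] at h2
    linarith
  have t2 : ∑ p ∈ (Ioc a c).filter Nat.Prime, 2 * ((p : ℝ)⁻¹) ^ 2 ≤ 2 * (a : ℝ)⁻¹ := by
    have k1 := sum_Ioc_inv_sq_le_sub (α := ℝ) (hPs a a1).1.ne_zero ac
    have k3 : (0 : ℝ) ≤ (c : ℝ)⁻¹ := by positivity
    calc _ ≤ ∑ p ∈ Ioc a c, 2 * ((p : ℝ)⁻¹) ^ 2 :=
          sum_le_sum_of_subset_of_nonneg (filter_subset _ _) fun _ _ _ => by positivity
      _ ≤ _ := by
          simp only [inv_pow]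
          rw [← mul_sum]
          linarith
  have t3 : 2 * ((a : ℝ)⁻¹) ^ 2 ≤ (a : ℝ)⁻¹ := by
    have : (0 : ℝ) ≤ (a : ℝ)⁻¹ := by positivity
    nlinarith [g1 a a1]
  have t4 := sum_le_sum_of_subset_of_nonneg
    (f := fun p : ℕ => (p : ℝ)⁻¹ + 2 * ((p : ℝ)⁻¹) ^ 2) s1 fun p _ _ => by positivity
  rw [sum_insert (by simp), sum_add_distrib (s := (Ioc a c).filter Nat.Prime)] at t4
  have la : Real.log u ≤ Real.log a := Real.log_le_log (by linarith) a2
  have lc : Real.log c ≤ Real.log v :=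
    Real.log_le_log (by exact_mod_cast (hPs c c1).1.pos) c2.le
  have lac : Real.log a ≤ Real.log c := Real.log_le_log (by linarith) (Nat.cast_le.2 ac)
  have l1 := Real.log_le_log lu la
  have l2 := Real.log_le_log (by linarith) lc
  have k0 : (0 : ℝ) ≤ (a : ℝ)⁻¹ := by positivity
  calc _ = ∏ p ∈ Q, (1 - (p : ℝ)⁻¹)⁻¹ := (prod_inv_distrib _).symm
    _ ≤ ∏ p ∈ Q, Real.exp ((p : ℝ)⁻¹ + 2 * ((p : ℝ)⁻¹) ^ 2) :=
      prod_le_prod (fun p hp => inv_nonneg.2 (by linarith [g1 p (mem_filter.1 hp).1]))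
        fun p hp => fund_inv_le_exp (g1 p (mem_filter.1 hp).1)
    _ ≤ Real.exp (2 * η + (Real.log (Real.log v) - Real.log (Real.log u))) := by
      rw [← Real.exp_sum]
      exact Real.exp_le_exp.2 (by linarith)
    _ = _ := by
      rw [Real.exp_add, Real.exp_sub, hη, Real.exp_log lu, Real.exp_log (by linarith), mul_div_assoc]

open Classical in
/-- the sets of primes that carry the weights -/
noncomputable def fundF (e : ℕ) (D : ℝ) (w : ℕ) (P : Finset ℕ) : Finset (Finset ℕ) :=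
  P.powerset.filter fun d => rOK e D (d.filter fun p => w < p)

/-- the weights as a function of the product -/
noncomputable def fundLam (F : Finset (Finset ℕ)) (m : ℕ) : ℝ :=
  ∑ d ∈ F with ∏ p ∈ d, p = m, (-1 : ℝ) ^ d.card

theorem fund_abs_lam (F : Finset (Finset ℕ)) (hF : ∀ d ∈ F, ∀ p ∈ d, p.Prime) (m : ℕ) :
    |fundLam F m| ≤ 1 := by
  unfold fundLam
  refine (abs_sum_le_sum_abs _ _).trans ?_
  have h1 : (F.filter fun d => ∏ p ∈ d, p = m).card ≤ 1 := by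
    rw [card_le_one]
    intro d hd d' hd'
    rw [mem_filter] at hd hd'
    rw [← Nat.primeFactors_prod (hF d hd.1), ← Nat.primeFactors_prod (hF d' hd'.1), hd.2, hd'.2]
  have h2 : ∀ d ∈ F.filter fun d => ∏ p ∈ d, p = m, |(-1 : ℝ) ^ d.card| = 1 := fun d _ => by
    rw [abs_pow, abs_neg, abs_one, one_pow]
  rw [sum_congr rfl h2, sum_const, nsmul_eq_mul, mul_one]
  exact_mod_cast h1

theorem fund_sum_lam (F : Finset (Finset ℕ)) (E : Finset ℕ) (hE : ∀ d ∈ F, ∏ p ∈ d, p ∈ E)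
    (φ : ℕ → ℝ) :
    ∑ m ∈ E, fundLam F m * φ m = ∑ d ∈ F, (-1 : ℝ) ^ d.card * φ (∏ p ∈ d, p) := by
  rw [← sum_fiberwise_of_maps_to hE]
  refine sum_congr rfl fun m _ => ?_
  unfold fundLam
  rw [sum_mul]
  exact sum_congr rfl fun d hd => by rw [(mem_filter.1 hd).2]

theorem fund_factor (e : ℕ) (D : ℝ) (w : ℕ) (P1 : Finset ℕ) (h1 : ∀ p ∈ P1, w < p) (h : ℕ → ℝ)
    (P0 : Finset ℕ) (h0 : ∀ p ∈ P0, p ≤ w) :
    ∑ d ∈ fundF e D w (P0 ∪ P1), (-1 : ℝ) ^ d.card * ∏ p ∈ d, h p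
      = (∏ p ∈ P0, (1 - h p)) * rSum e D P1 h := by
  classical
  induction P0 using Finset.induction_on with
  | empty =>
    rw [empty_union, prod_empty, one_mul, rSum]
    refine sum_congr ?_ fun _ _ => rfl
    ext d
    rw [mem_rSet, fundF, mem_filter, mem_powerset]
    refine and_congr_right fun hd => ?_
    rw [filter_true_of_mem fun p hp => h1 p (hd hp)]
  | insert a s ha ih =>
    have aw := h0 a (mem_insert_self _ _)
    have hn : a ∉ s ∪ P1 := by
      rw [mem_union, not_or]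
      exact ⟨ha, fun hh => absurd (h1 a hh) (not_lt.2 aw)⟩
    have ih' := ih fun p hp => h0 p (mem_insert_of_mem hp)
    rw [prod_insert ha, mul_assoc, ← ih', insert_union]
    unfold fundF
    rw [sum_filter, sum_filter, sum_powerset_insert hn, ← sum_add_distrib, mul_sum]
    refine sum_congr rfl fun d hd => ?_
    have hn' : a ∉ d := fun hh => hn (mem_powerset.1 hd hh)
    rw [filter_insert, if_neg (not_lt.2 aw), card_insert_of_notMem hn', prod_insert hn']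
    split_ifs
    · ring
    · ring

theorem fund_upper (D : ℝ) (T : Finset ℕ) :
    (if T = ∅ then 1 else 0) ≤ ∑ d ∈ rSet 0 D T, (-1 : ℝ) ^ d.card := by
  induction T using Finset.induction_on_min with
  | empty => simp [rSet_empty]
  | insert a s ha _ =>
    rw [sum_rSet_insert_min 0 D ha, if_neg (insert_ne_empty a s)]
    simp

theorem fund_ind (n : ℕ) (d : Finset ℕ) (hd : ∀ p ∈ d, p.Prime) :
    (if (∏ p ∈ d, p) ∣ n then (1 : ℝ) else 0) = ∏ p ∈ d, if p ∣ n then (1 : ℝ) else 0 := by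
  rw [prod_boole]
  refine if_congr ⟨fun h p hp => (dvd_prod_of_mem _ hp).trans h, fun h => ?_⟩ rfl rfl
  exact Finset.prod_primes_dvd n (fun p hp => (hd p hp).prime) h

theorem fund_point (e : ℕ) (D : ℝ) (w : ℕ) (P0 P1 : Finset ℕ) (h0 : ∀ p ∈ P0, p ≤ w)
    (h1 : ∀ p ∈ P1, w < p) (hP : ∀ p ∈ P0 ∪ P1, p.Prime) (E : Finset ℕ)
    (hE : ∀ d ∈ fundF e D w (P0 ∪ P1), ∏ p ∈ d, p ∈ E) (n : ℕ) :
    ∑ m ∈ E with m ∣ n, fundLam (fundF e D w (P0 ∪ P1)) m
      = (if ∀ p ∈ P0, ¬ p ∣ n then 1 else 0) *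
        ∑ d ∈ rSet e D (P1.filter (fun p => p ∣ n)), (-1 : ℝ) ^ d.card := by
  classical
  have k := fund_sum_lam _ E hE (fun m => if m ∣ n then 1 else 0)
  have k1 : ∑ m ∈ E with m ∣ n, fundLam (fundF e D w (P0 ∪ P1)) m
      = ∑ m ∈ E, fundLam (fundF e D w (P0 ∪ P1)) m * (if m ∣ n then 1 else 0) := by
    rw [sum_filter]
    exact sum_congr rfl fun m _ => by split_ifs <;> simp
  have k2 : ∀ d ∈ fundF e D w (P0 ∪ P1),
      (-1 : ℝ) ^ d.card * (if (∏ p ∈ d, p) ∣ n then (1 : ℝ) else 0)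
        = (-1 : ℝ) ^ d.card * ∏ p ∈ d, if p ∣ n then (1 : ℝ) else 0 := fun d hd => by
    rw [fund_ind n d fun p hp => hP p (mem_powerset.1 (mem_filter.1 hd).1 hp)]
  rw [k1, k, sum_congr rfl k2, fund_factor e D w P1 h1 _ P0 h0, ← sum_rSet_ind, rSum]
  congr 1
  · have : ∀ p ∈ P0, (1 - if p ∣ n then (1 : ℝ) else 0) = if ¬ p ∣ n then 1 else 0 :=
      fun p _ => by split_ifs <;> simp_all
    rw [prod_congr rfl this, prod_boole]
  · refine sum_congr rfl fun d _ => ?_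
    rw [prod_boole]

theorem fund_main (e : ℕ) (D : ℝ) (w : ℕ) (P0 P1 : Finset ℕ) (h0 : ∀ p ∈ P0, p ≤ w)
    (h1 : ∀ p ∈ P1, w < p) (E : Finset ℕ)
    (hE : ∀ d ∈ fundF e D w (P0 ∪ P1), ∏ p ∈ d, p ∈ E) :
    ∑ m ∈ E, fundLam (fundF e D w (P0 ∪ P1)) m / m
      = (∏ p ∈ P0, (1 - (p : ℝ)⁻¹)) * rSum e D P1 (fun p => (p : ℝ)⁻¹) := by
  have k := fund_sum_lam _ E hE (fun m => (m : ℝ)⁻¹)
  simp only [div_eq_mul_inv]
  rw [k, ← fund_factor e D w P1 h1 _ P0 h0]
  refine sum_congr rfl fun d _ => ?_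
  rw [Nat.cast_prod, prod_inv_distrib]

theorem fund_diff {Ps : Finset ℕ} {g : ℕ → ℝ} (H : LinHyp Ps g (1 / 1000)) {z D : ℝ} (hz : 1 < z)
    (hD : z ^ 3 ≤ D) :
    rSum 0 D (below Ps z) g - rSum 1 D (below Ps z) g ≤
      Pool.Agent.Lib.ANT.VV Ps g z * (14000 / (Real.log D / Real.log z) ^ 3) := by
  obtain ⟨a, ha, ha1, ha2⟩ := exists_sieve_fn
  have lz := Real.log_pos hz
  obtain ⟨k0, k1⟩ := rosser_induct H (by norm_num) le_rfl ha ha1 ha2 ⌈z⌉₊ z D hz (Nat.le_ceil z)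
  have k0 := k0 ((le_self_pow₀ hz.le (by norm_num)).trans hD)
  have k1 := k1 ((pow_le_pow_right₀ hz.le (by norm_num)).trans hD)
  set s := Real.log D / Real.log z with hs
  have s2 : 3 ≤ s := by
    rw [hs, le_div_iff₀ lz]
    have := Real.log_le_log (by positivity) hD
    rw [Real.log_pow] at this
    exact_mod_cast this
  have s0 : 0 < s := by linarith
  have c1 := stepB_le ha (by norm_num) ha1 s
  have c2 := ha1 s
  have m2 : maj 2 s = 2 ^ 3 / s ^ 3 := maj_of_ge (by linarith)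
  have m3 : maj 3 s = 3 ^ 3 / s ^ 3 := maj_of_ge s2
  have i0 : 0 < 1 / s ^ 3 := by positivity
  have e2 : (2 : ℝ) ^ 3 / s ^ 3 = 8 * (1 / s ^ 3) := by ring
  have e3 : (3 : ℝ) ^ 3 / s ^ 3 = 27 * (1 / s ^ 3) := by ring
  have e4 : (14000 : ℝ) / s ^ 3 = 14000 * (1 / s ^ 3) := by ring
  have d1 : (a s + 1 / 1000 * 200000 * maj 3 s) / s ≤ 7020 * (1 / s ^ 3) := by
    refine (div_le_self (by nlinarith [ha.nonneg s]) (by linarith)).trans ?_
    rw [m3, e3] at c2 ⊢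
    linarith
  have d2 : (stepB a s + 1 / 1000 * 590000 * maj 2 s) / s ≤ 6112 * (1 / s ^ 3) := by
    refine (div_le_self (by nlinarith [(stepB_adm ha (by norm_num) ha1).nonneg s])
      (by linarith)).trans ?_
    rw [m2, e2] at c1 ⊢
    linarith
  have V0 := H.VV_pos z
  have f1 := mul_le_mul_of_nonneg_left d1 V0.le
  have f2 := mul_le_mul_of_nonneg_left d2 V0.le
  have f3 := mul_pos V0 i0
  rw [e4]
  nlinarith

end fundaux

open Pool.Agent.Lib.ANT in
theorem fund_lemma : ∃ C : ℝ, 0 < C ∧ ∀ s : ℝ, 10 ≤ s → ∀ᶠ z : ℝ in atTop,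
    ∃ (E : Finset ℕ) (lam err : ℕ → ℝ), (∀ e ∈ E, 1 ≤ e ∧ (e : ℝ) ≤ z ^ s) ∧
      (∀ e, |lam e| ≤ 2) ∧ (∀ e, |err e| ≤ 2) ∧
      (∀ n : ℕ, 1 ≤ n → |rf z n - ∑ e ∈ E with e ∣ n, lam e| ≤ ∑ e ∈ E with e ∣ n, err e) ∧
      ∑ e ∈ E, err e / e ≤ C / (s ^ 3 * Real.log z) := by
  classical
  obtain ⟨w, hw⟩ := fund_linHyp
  refine ⟨2 * 14000 * 27, by norm_num, fun s hs => ?_⟩
  set P0 := (Ioc 0 w).filter Nat.Prime with hP0
  filter_upwards [eventually_ge_atTop (2 : ℝ), eventually_ge_atTop (w : ℝ),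
    eventually_ge_atTop (∏ p ∈ P0, (p : ℝ))] with z z2 zw zW
  have z0 : 0 < z := by linarith
  have z1 : 1 < z := by linarith
  have lz := Real.log_pos z1
  set N := ⌊z⌋₊ with hN
  have wN : w ≤ N := Nat.le_floor zw
  have N2 : 2 ≤ N := Nat.le_floor (by exact_mod_cast z2)
  have Nz : (N : ℝ) ≤ z := Nat.floor_le z0.le
  have zN : z < N + 1 := Nat.lt_floor_add_one z
  set P1 := (Ioc w N).filter Nat.Prime with hP1
  have h0 : ∀ p ∈ P0, p ≤ w := fun p hp => (mem_Ioc.1 (mem_filter.1 hp).1).2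
  have h1 : ∀ p ∈ P1, w < p := fun p hp => (mem_Ioc.1 (mem_filter.1 hp).1).1
  have h1' : ∀ p ∈ P1, (p : ℝ) ≤ z := fun p hp =>
    (Nat.cast_le.2 (mem_Ioc.1 (mem_filter.1 hp).1).2).trans Nz
  have hU : P0 ∪ P1 = (Ioc 0 N).filter Nat.Prime := by
    rw [hP0, hP1, ← filter_union, Ioc_union_Ioc_eq_Ioc (Nat.zero_le w) wN]
  have hP : ∀ p ∈ P0 ∪ P1, p.Prime := fun p hp => by
    rw [hU] at hp
    exact (mem_filter.1 hp).2
  set D := z ^ (s - 1) with hD
  have D9 : z ^ 9 ≤ D := by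
    rw [hD, ← Real.rpow_natCast]
    exact Real.rpow_le_rpow_of_exponent_le z1.le (by push_cast; linarith)
  have zz : z + 1 ≤ z ^ 2 := by nlinarith
  have D3 : (z + 1) ^ 3 ≤ D := by
    refine le_trans ?_ D9
    calc (z + 1) ^ 3 ≤ (z ^ 2) ^ 3 := pow_le_pow_left₀ (by linarith) zz 3
      _ = z ^ 6 := by ring
      _ ≤ z ^ 9 := pow_le_pow_right₀ z1.le (by norm_num)
  have zD : z < D := by
    have : z + 1 ≤ (z + 1) ^ 3 := le_self_pow₀ (by linarith) (by norm_num)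
    linarith
  have zs : z * D = z ^ s := by
    rw [hD, Real.rpow_sub_one z0.ne']
    field_simp
  set E := Icc 1 ⌊z ^ s⌋₊ with hEdef
  have hE : ∀ e ≤ 1, ∀ d ∈ fundF e D w (P0 ∪ P1), ∏ p ∈ d, p ∈ E := by
    intro e he d hd
    obtain ⟨hd1, hd2⟩ := mem_filter.1 hd
    rw [mem_powerset] at hd1
    have hsub1 : ∀ p ∈ d.filter (fun p => w < p), p ∈ P1 := fun p hp => by
      obtain ⟨k1, k2⟩ := mem_filter.1 hp
      exact (mem_union.1 (hd1 k1)).resolve_left fun k => absurd (h0 p k) (not_le.2 k2)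
    have hsub0 : d.filter (fun p => ¬ w < p) ⊆ P0 := fun p hp => by
      obtain ⟨k1, k2⟩ := mem_filter.1 hp
      exact (mem_union.1 (hd1 k1)).resolve_right fun k => k2 (h1 p k)
    have a1 := prod_lt_of_rOK he hd2 (by linarith) fun p hp =>
      ⟨(hP p (mem_union_right _ (hsub1 p hp))).pos, (h1' p (hsub1 p hp)).trans_lt zD⟩
    have a0 : ∏ p ∈ d.filter (fun p => ¬ w < p), (p : ℝ) ≤ ∏ p ∈ P0, (p : ℝ) := by
      rw [← Nat.cast_prod, ← Nat.cast_prod]
      exact Nat.cast_le.2 (prod_le_prod_of_subset_of_one_le' hsub0 fun p hp _ =>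
        (hP p (mem_union_left _ hp)).pos)
    refine mem_Icc.2 ⟨prod_pos fun p hp => (hP p (hd1 hp)).pos, Nat.le_floor ?_⟩
    rw [Nat.cast_prod, ← prod_filter_mul_prod_filter_not d (fun p => w < p), ← zs, mul_comm]
    exact mul_le_mul (a0.trans zW) a1.le (prod_nonneg fun _ _ => Nat.cast_nonneg _) z0.le
  have hF : ∀ e, ∀ d ∈ fundF e D w (P0 ∪ P1), ∀ p ∈ d, p.Prime := fun e d hd p hp =>
    hP p (mem_powerset.1 (mem_filter.1 hd).1 hp)
  refine ⟨E, fundLam (fundF 0 D w (P0 ∪ P1)),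
    fun m => fundLam (fundF 0 D w (P0 ∪ P1)) m - fundLam (fundF 1 D w (P0 ∪ P1)) m,
    fun e he => ⟨(mem_Icc.1 he).1, (Nat.le_floor_iff (by positivity)).1 (mem_Icc.1 he).2⟩,
    fun e => (fund_abs_lam _ (hF 0) e).trans (by norm_num), fun e => ?_, fun n _ => ?_, ?_⟩
  · have a0 := abs_le.1 (fund_abs_lam _ (hF 0) e)
    have a1 := abs_le.1 (fund_abs_lam _ (hF 1) e)
    rw [abs_le]
    constructor <;> linarith [a0.1, a0.2, a1.1, a1.2]
  · rw [sum_sub_distrib, fund_point 0 D w P0 P1 h0 h1 hP E (hE 0 zero_le_one) n,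
      fund_point 1 D w P0 P1 h0 h1 hP E (hE 1 le_rfl) n]
    have u := fund_upper D (P1.filter fun p => p ∣ n)
    have l := sum_rSet_lower D (P1.filter fun p => p ∣ n)
    have hr : rf z n = (if ∀ p ∈ P0, ¬ p ∣ n then 1 else 0) *
        (if P1.filter (fun p => p ∣ n) = ∅ then 1 else 0) := by
      have : Rough z n ↔ (∀ p ∈ P0, ¬ p ∣ n) ∧ P1.filter (fun p => p ∣ n) = ∅ := by
        rw [filter_eq_empty_iff]
        constructor
        · intro h
          refine ⟨fun p hp hd => ?_, fun p hp hd => ?_⟩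
          · have k1 := h p (hP p (mem_union_left _ hp)) hd
            have k2 : (p : ℝ) ≤ w := Nat.cast_le.2 (h0 p hp)
            linarith
          · exact absurd (h p (hP p (mem_union_right _ hp)) hd) (not_lt.2 (h1' p hp))
        · intro h p hp hd
          by_contra hc
          have k : p ∈ P0 ∪ P1 := by
            rw [hU]
            exact mem_filter.2 ⟨mem_Ioc.2 ⟨hp.pos, Nat.le_floor (not_lt.1 hc)⟩, hp⟩
          exact (mem_union.1 k).elim (fun k => h.1 p k hd) fun k => h.2 k hd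
      unfold rf
      by_cases c0 : ∀ p ∈ P0, ¬ p ∣ n
      · by_cases c1 : P1.filter (fun p => p ∣ n) = ∅
        · rw [if_pos (this.2 ⟨c0, c1⟩), if_pos c0, if_pos c1, mul_one]
        · rw [if_neg (fun h => c1 (this.1 h).2), if_neg c1, mul_zero]
      · rw [if_neg (fun h => c0 (this.1 h).1), if_neg c0, zero_mul]
    rw [hr]
    by_cases c0 : ∀ p ∈ P0, ¬ p ∣ n
    · rw [if_pos c0, one_mul, one_mul, one_mul, abs_le]
      constructor <;> linarith
    · rw [if_neg c0]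
      simp
  · have hb : below P1 (z + 1) = P1 :=
      filter_true_of_mem fun p hp => by linarith [h1' p hp]
    have H := hw P1 fun p hp => ⟨hP p (mem_union_right _ hp), h1 p hp⟩
    have k := fund_diff H (z := z + 1) (by linarith) D3
    rw [Pool.Agent.Lib.ANT.VV, hb] at k
    simp only [sub_div]
    rw [sum_sub_distrib, fund_main 0 D w P0 P1 h0 h1 E (hE 0 zero_le_one),
      fund_main 1 D w P0 P1 h0 h1 E (hE 1 le_rfl), ← mul_sub]
    have g0 : ∀ p ∈ P0 ∪ P1, 0 < 1 - (p : ℝ)⁻¹ := fun p hp =>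
      sub_pos.2 (inv_lt_one_of_one_lt₀ (by exact_mod_cast (hP p hp).one_lt))
    have A0 : 0 ≤ ∏ p ∈ P0, (1 - (p : ℝ)⁻¹) :=
      prod_nonneg fun p hp => (g0 p (mem_union_left _ hp)).le
    refine (mul_le_mul_of_nonneg_left k A0).trans ?_
    have hdis : Disjoint P0 P1 := disjoint_left.2 fun p hp hq => absurd (h0 p hp) (not_le.2 (h1 p hq))
    rw [← mul_assoc, ← prod_union hdis]
    have lN : Real.log z ≤ 2 * Real.log N := by
      have N2' : (2 : ℝ) ≤ N := by exact_mod_cast N2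
      have : z ≤ (N : ℝ) ^ 2 := by nlinarith
      have := Real.log_le_log z0 this
      rw [Real.log_pow] at this
      exact_mod_cast this
    have B1 : ∏ p ∈ P0 ∪ P1, (1 - (p : ℝ)⁻¹) ≤ 2 / Real.log z := by
      have m := log_le_prod_one_sub_inv_prime_inv N
      rw [← hU, prod_inv_distrib] at m
      have q0 := prod_pos g0
      rw [le_div_iff₀ lz]
      rw [le_inv_comm₀ (by linarith) q0, le_inv_comm₀ q0 (by linarith),
        ← one_div, le_div_iff₀ q0] at m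
      nlinarith
    have l1 : 0 < Real.log (z + 1) := Real.log_pos (by linarith)
    have l2 : Real.log (z + 1) ≤ 2 * Real.log z := by
      have := Real.log_le_log (by linarith) zz
      rw [Real.log_pow] at this
      exact_mod_cast this
    have B2 : s / 3 ≤ Real.log D / Real.log (z + 1) := by
      rw [hD, Real.log_rpow z0, le_div_iff₀ l1]
      nlinarith
    have s0 : 0 < s / 3 := by linarith
    have B3 : 14000 / (Real.log D / Real.log (z + 1)) ^ 3 ≤ 14000 / (s / 3) ^ 3 :=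
      div_le_div_of_nonneg_left (by norm_num) (by positivity) (pow_le_pow_left₀ s0.le B2 3)
    refine (mul_le_mul B1 B3 (by have := s0.trans_le B2; positivity) (by positivity)).trans
      (le_of_eq ?_)
    have : s ≠ 0 := by linarith
    field_simp
    ring

end Pool.Agent.Work.MP_82fd4a_nt
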