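import Pool.Agent.Work.MP_82fd4a_nt.Defs
import Pool.Agent.Lib.MR.VdcA

/-! A bilinear exponential sum with reciprocal phase. -/

set_option autoImplicit false
open Filter Topology Finset

namespace Pool.Agent.Work.MP_82fd4a_nt

open Pool.Agent.Lib.MR

lemma es_fd2 (c t : ℝ) (ht : 0 < t) :
    fd 2 (fun s => c / s) t = 2 * c / (t * (t + 1) * (t + 2)) := by
  simp only [fd]
  have h1 : t + 1 ≠ 0 := by positivity
  have h2 : t + 1 + 1 ≠ 0 := by positivity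
  have h3 : t + 2 ≠ 0 := by positivity
  field_simp
  ring

lemma es_fd3 (c t : ℝ) (hc : 0 ≤ c) (ht : 0 < t) : fd 3 (fun s => c / s) t ≤ 0 := by
  have e : fd 3 (fun s => c / s) t = fd 2 (fun s => c / s) (t + 1) - fd 2 (fun s => c / s) t := rfl
  rw [e, es_fd2 c t ht, es_fd2 c (t + 1) (by positivity), sub_nonpos]
  apply div_le_div_of_nonneg_left (by positivity) (by positivity)
  have : 0 < (t + 1) * (t + 2) := by positivity
  nlinarith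

lemma es_recip_pos (c c0 c1 R0 R2 η : ℝ) (n0 N H H0 : ℕ) (hR0 : 0 < R0) (hn0 : R0 ≤ n0)
    (hR2 : (n0 : ℝ) + N + 2 ≤ R2) (hc0 : 0 < c0) (h0 : c0 ≤ c) (h1 : c ≤ c1) (hH0 : 1 ≤ H0)
    (hH : 1 ≤ H) (hHN : H ≤ N) (hη : 0 < η) (hη1 : η ≤ 1)
    (a1 : (H : ℝ) * (2 * c1 / R0 ^ 3) ≤ Real.pi) (a2 : (H0 : ℝ) ≤ η ^ 2 * H)
    (a3 : 1 ≤ η ^ 2 * N * H0 * (2 * c0 / R2 ^ 3)) :
    ‖∑ k ∈ range N, ce (c / ((n0 : ℝ) + k))‖ ≤ 8 * N * η := by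
  have hn : (0 : ℝ) < n0 := hR0.trans_le hn0
  have hR2' : 0 < R2 := by
    have : (0 : ℝ) ≤ N := Nat.cast_nonneg _
    linarith
  have hc : 0 < c := hc0.trans_le h0
  refine deriv_test 1 (fun s => c / s) n0 N N H H0 (2 * c0 / R2 ^ 3) (2 * c1 / R0 ^ 3) η le_rfl
    hH0 hH hHN (by positivity) hη hη1 (by simpa using a1) (by simpa using a2)
    (by simpa using a3) fun m hm => ?_
  have hm' : (m : ℝ) ≤ N := by exact_mod_cast hm
  have hm0 : (0 : ℝ) ≤ m := Nat.cast_nonneg _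
  have ht : (0 : ℝ) < n0 + m := by positivity
  refine ⟨?_, ?_, es_fd3 c _ hc.le ht⟩
  · rw [es_fd2 c _ ht]
    have : ((n0 : ℝ) + m) * (n0 + m + 1) * (n0 + m + 2) ≤ R2 ^ 3 := by
      calc ((n0 : ℝ) + m) * (n0 + m + 1) * (n0 + m + 2) ≤ R2 * R2 * R2 := by
            gcongr <;> linarith
        _ = R2 ^ 3 := by ring
    gcongr
  · rw [es_fd2 c _ ht]
    have : R0 ^ 3 ≤ ((n0 : ℝ) + m) * (n0 + m + 1) * (n0 + m + 2) := by
      calc R0 ^ 3 = R0 * R0 * R0 := by ring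
        _ ≤ _ := by gcongr <;> linarith
    have hc1 : 0 < c1 := hc.trans_le h1
    gcongr

lemma es_recip (c c0 c1 R0 R2 η : ℝ) (n0 N H H0 : ℕ) (hR0 : 0 < R0) (hn0 : R0 ≤ n0)
    (hR2 : (n0 : ℝ) + N + 2 ≤ R2) (hc0 : 0 < c0) (h0 : c0 ≤ |c|) (h1 : |c| ≤ c1) (hH0 : 1 ≤ H0)
    (hH : 1 ≤ H) (hHN : H ≤ N) (hη : 0 < η) (hη1 : η ≤ 1)
    (a1 : (H : ℝ) * (2 * c1 / R0 ^ 3) ≤ Real.pi) (a2 : (H0 : ℝ) ≤ η ^ 2 * H)
    (a3 : 1 ≤ η ^ 2 * N * H0 * (2 * c0 / R2 ^ 3)) :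
    ‖∑ k ∈ range N, ce (c / ((n0 : ℝ) + k))‖ ≤ 8 * N * η := by
  have key := es_recip_pos |c| c0 c1 R0 R2 η n0 N H H0 hR0 hn0 hR2 hc0 h0 h1 hH0 hH hHN hη hη1
    a1 a2 a3
  rcases le_total 0 c with h | h
  · rwa [abs_of_nonneg h] at key
  · rw [abs_of_nonpos h] at key
    have e : ∑ k ∈ range N, ce (c / ((n0 : ℝ) + k)) =
        (starRingEnd ℂ) (∑ k ∈ range N, ce (-c / ((n0 : ℝ) + k))) := by
      rw [map_sum]
      refine sum_congr rfl fun k _ => ?_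
      rw [conj_ce]; congr 1; ring
    rw [e, Complex.norm_conj]
    exact key

lemma es_cs (R I S : Finset ℕ) (hRI : R ⊆ I) (α β : ℕ → ℝ) (φ : ℕ → ℕ → ℝ) :
    ‖∑ r ∈ R, ∑ m ∈ S, ((α r * β m : ℝ) : ℂ) * ce (φ r m)‖ ^ 2 ≤
      (∑ r ∈ R, α r ^ 2) * ∑ m ∈ S, ∑ m' ∈ S, |β m| * |β m'| *
        ‖∑ r ∈ I, ce (φ r m - φ r m')‖ := by
  set V : ℕ → ℂ := fun r => ∑ m ∈ S, (β m : ℂ) * ce (φ r m) with hV
  have e1 : ∑ r ∈ R, ∑ m ∈ S, ((α r * β m : ℝ) : ℂ) * ce (φ r m) = ∑ r ∈ R, (α r : ℂ) * V r := by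
    refine sum_congr rfl fun r _ => ?_
    rw [hV, mul_sum]
    refine sum_congr rfl fun m _ => ?_
    push_cast; ring
  have h1 : ‖∑ r ∈ R, (α r : ℂ) * V r‖ ≤ ∑ r ∈ R, |α r| * ‖V r‖ := by
    refine (norm_sum_le _ _).trans (le_of_eq (sum_congr rfl fun r _ => ?_))
    rw [norm_mul, Complex.norm_real, Real.norm_eq_abs]
  have h2 : (∑ r ∈ R, |α r| * ‖V r‖) ^ 2 ≤ (∑ r ∈ R, |α r| ^ 2) * ∑ r ∈ R, ‖V r‖ ^ 2 :=
    sum_mul_sq_le_sq_mul_sq R _ _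
  have h3 : ∑ r ∈ R, ‖V r‖ ^ 2 ≤ ∑ r ∈ I, ‖V r‖ ^ 2 :=
    sum_le_sum_of_subset_of_nonneg hRI fun _ _ _ => by positivity
  have e2 : ((∑ r ∈ I, ‖V r‖ ^ 2 : ℝ) : ℂ) = ∑ m ∈ S, ∑ m' ∈ S, ((β m * β m' : ℝ) : ℂ) *
      ∑ r ∈ I, ce (φ r m - φ r m') := by
    have : ∀ r, ((‖V r‖ ^ 2 : ℝ) : ℂ) = ∑ m ∈ S, ∑ m' ∈ S, ((β m * β m' : ℝ) : ℂ) *
        ce (φ r m - φ r m') := by
      intro r
      rw [← Complex.normSq_eq_norm_sq, ← Complex.mul_conj, hV]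
      simp only [map_sum, map_mul, Complex.conj_ofReal, conj_ce]
      rw [sum_mul_sum]
      refine sum_congr rfl fun m _ => sum_congr rfl fun m' _ => ?_
      rw [sub_eq_add_neg, ce_add]; push_cast; ring
    rw [Complex.ofReal_sum, sum_congr rfl fun r _ => this r, sum_comm]
    refine sum_congr rfl fun m _ => ?_
    rw [sum_comm]
    refine sum_congr rfl fun m' _ => ?_
    rw [mul_sum]
  have h4 : ∑ r ∈ I, ‖V r‖ ^ 2 ≤ ∑ m ∈ S, ∑ m' ∈ S, |β m| * |β m'| *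
      ‖∑ r ∈ I, ce (φ r m - φ r m')‖ := by
    calc ∑ r ∈ I, ‖V r‖ ^ 2 ≤ ‖((∑ r ∈ I, ‖V r‖ ^ 2 : ℝ) : ℂ)‖ := by
          rw [Complex.norm_real, Real.norm_eq_abs]; exact le_abs_self _
      _ ≤ _ := by
          rw [e2]
          refine (norm_sum_le _ _).trans (sum_le_sum fun m _ => ?_)
          refine (norm_sum_le _ _).trans (le_of_eq (sum_congr rfl fun m' _ => ?_))
          rw [norm_mul, Complex.norm_real, Real.norm_eq_abs, abs_mul]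
  rw [e1]
  calc ‖∑ r ∈ R, (α r : ℂ) * V r‖ ^ 2 ≤ (∑ r ∈ R, |α r| * ‖V r‖) ^ 2 := by gcongr
    _ ≤ (∑ r ∈ R, |α r| ^ 2) * ∑ r ∈ R, ‖V r‖ ^ 2 := h2
    _ ≤ (∑ r ∈ R, |α r| ^ 2) * ∑ m ∈ S, ∑ m' ∈ S, |β m| * |β m'| *
        ‖∑ r ∈ I, ce (φ r m - φ r m')‖ := by
      gcongr
      exact h3.trans h4
    _ = _ := by simp only [sq_abs]

lemma es_card (S : Finset ℕ) (B : ℝ) (hB : 0 ≤ B) (h : ∀ m ∈ S, 1 ≤ m ∧ (m : ℝ) ≤ B) :
    (S.card : ℝ) ≤ B := by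
  have : S ⊆ Icc 1 ⌊B⌋₊ := fun m hm => mem_Icc.2 ⟨(h m hm).1, Nat.le_floor (h m hm).2⟩
  have h2 := card_le_card this
  rw [Nat.card_Icc] at h2
  calc (S.card : ℝ) ≤ (⌊B⌋₊ : ℕ) := by exact_mod_cast h2
    _ ≤ B := Nat.floor_le hB

/-- the off-diagonal sum -/
lemma es_off (D M y R0 : ℝ) (hD : 10 ≤ D) (hM1 : 1 ≤ M) (hM2 : M ≤ D ^ 800)
    (hR0 : R0 * M = D ^ 1995) (hy1 : D ^ 4000 / 2 ≤ y) (hy2 : y ≤ 2 * D ^ 4010) (m m' : ℕ)
    (hm : M ≤ m ∧ (m : ℝ) ≤ M * D) (hm' : M ≤ m' ∧ (m' : ℝ) ≤ M * D) (hne : m ≠ m') :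
    ‖∑ k ∈ range ⌊R0 * D ^ 7⌋₊, ce (2 * Real.pi * y * (1 / m - 1 / m') /
      (((⌊R0⌋₊ + 1 : ℕ) : ℝ) + k))‖ ≤ 8 * (⌊R0 * D ^ 7⌋₊ : ℕ) * (D ^ 50)⁻¹ := by
  have hD0 : 0 < D := by linarith
  have hD1 : 1 ≤ D := by linarith
  have hM0 : 0 < M := by linarith
  have hpi := Real.pi_gt_three
  have hR0pos : 0 < R0 := by
    have : 0 < R0 * M := by rw [hR0]; positivity
    exact (mul_pos_iff_of_pos_right hM0).1 this
  have hR0big : D ^ 1195 ≤ R0 := by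
    have h1 : D ^ 1195 * M ≤ R0 * M := by
      rw [hR0]
      calc D ^ 1195 * M ≤ D ^ 1195 * D ^ 800 := by gcongr
        _ = D ^ 1995 := by rw [← pow_add]
    exact le_of_mul_le_mul_right h1 hM0
  have hD7 : 10 ≤ D ^ 7 := hD.trans (le_self_pow₀ hD1 (by norm_num))
  have hR010 : 10 ≤ R0 := (hD.trans (le_self_pow₀ hD1 (by norm_num))).trans hR0big
  set R1 := R0 * D ^ 7 with hR1
  have hR1' : 10 * R0 ≤ R1 := by rw [hR1]; nlinarith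
  have hN1 : ((⌊R1⌋₊ : ℕ) : ℝ) ≤ R1 := Nat.floor_le (by positivity)
  have hN2 : R1 / 2 ≤ ((⌊R1⌋₊ : ℕ) : ℝ) := by
    have := Nat.lt_floor_add_one R1
    linarith
  have hf1 : ((⌊R0⌋₊ : ℕ) : ℝ) ≤ R0 := Nat.floor_le hR0pos.le
  have hf2 := Nat.lt_floor_add_one R0
  have hm0 : (0 : ℝ) < m := hM0.trans_le hm.1
  have hm0' : (0 : ℝ) < m' := hM0.trans_le hm'.1
  have hy0 : 0 < y := lt_of_lt_of_le (by positivity) hy1
  have hdiff : |(1 : ℝ) / m - 1 / m'| = |(m' : ℝ) - m| / (m * m') := by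
    rw [← abs_of_pos (mul_pos hm0 hm0'), ← abs_div]; congr 1; field_simp
  have hge : (1 : ℝ) ≤ |(m' : ℝ) - m| := by
    have : (1 : ℤ) ≤ |(m' : ℤ) - m| := Int.one_le_abs (sub_ne_zero.2 (by exact_mod_cast hne.symm))
    exact_mod_cast this
  have hlo : 1 / (M * D) ^ 2 ≤ |(1 : ℝ) / m - 1 / m'| := by
    rw [hdiff]
    have : (m : ℝ) * m' ≤ (M * D) ^ 2 := by
      rw [sq]; exact mul_le_mul hm.2 hm'.2 hm0'.le (by positivity)
    gcongr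
  have hup : |(1 : ℝ) / m - 1 / m'| ≤ 1 / M := by
    have h1 : (1 : ℝ) / m ≤ 1 / M := one_div_le_one_div_of_le hM0 hm.1
    have h2 : (1 : ℝ) / m' ≤ 1 / M := one_div_le_one_div_of_le hM0 hm'.1
    have h3 : (0 : ℝ) < 1 / m := by positivity
    have h4 : (0 : ℝ) < 1 / m' := by positivity
    rw [abs_le]; constructor <;> linarith
  have habs : |2 * Real.pi * y * (1 / m - 1 / m')| =
      2 * Real.pi * y * |(1 : ℝ) / m - 1 / m'| := by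
    rw [abs_mul, abs_of_pos (by positivity : 0 < 2 * Real.pi * y)]
  have hc1 : ∀ k : ℕ, D ^ k ≤ ((⌈D ^ k⌉₊ : ℕ) : ℝ) := fun k => Nat.le_ceil _
  have hc2 : ∀ k : ℕ, ((⌈D ^ k⌉₊ : ℕ) : ℝ) ≤ 2 * D ^ k := fun k => by
    have h1 := Nat.ceil_lt_add_one (pow_nonneg hD0.le k)
    have h2 : 1 ≤ D ^ k := one_le_pow₀ hD1
    linarith
  have hc3 : ∀ k : ℕ, 1 ≤ ⌈D ^ k⌉₊ := fun k => Nat.ceil_pos.2 (by positivity)
  refine es_recip _ (2 * Real.pi * (D ^ 4000 / 2) * (1 / (M * D) ^ 2))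
    (2 * Real.pi * (2 * D ^ 4010) * (1 / M)) R0 (3 * R1) (D ^ 50)⁻¹ _ _ ⌈D ^ 208⌉₊ ⌈D ^ 107⌉₊
    hR0pos (by push_cast; linarith) (by push_cast; linarith) (by positivity)
    (by rw [habs]; gcongr) (by rw [habs]; gcongr) (hc3 _) (hc3 _) ?_ (by positivity)
    (inv_le_one_of_one_le₀ (one_le_pow₀ hD1)) ?_ ?_ ?_
  · have h1 : D ^ 208 ≤ D ^ 1195 := pow_le_pow_right₀ hD1 (by norm_num)
    have : ((⌈D ^ 208⌉₊ : ℕ) : ℝ) ≤ ((⌊R1⌋₊ : ℕ) : ℝ) := by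
      have := hc2 208
      linarith
    exact_mod_cast this
  · have e : 2 * (2 * Real.pi * (2 * D ^ 4010) * (1 / M)) / R0 ^ 3 =
        Real.pi * (8 * D ^ 4010 / ((R0 * M) * R0 ^ 2)) := by
      field_simp; ring
    rw [e, hR0]
    have h1 : 8 * D ^ 4010 / (D ^ 1995 * R0 ^ 2) ≤ 8 * D ^ 4010 / (D ^ 1995 * (D ^ 1195) ^ 2) := by
      gcongr
    have h2 : 2 * D ^ 208 * (8 * D ^ 4010 / (D ^ 1995 * (D ^ 1195) ^ 2)) ≤ 1 := by
      rw [← pow_mul, ← pow_add, ← mul_div_assoc, div_le_one (by positivity)]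
      have h3 : (16 : ℝ) ≤ D ^ 167 := by
        calc (16 : ℝ) ≤ 10 ^ 2 := by norm_num
          _ ≤ D ^ 2 := by gcongr
          _ ≤ D ^ 167 := pow_le_pow_right₀ hD1 (by norm_num)
      calc 2 * D ^ 208 * (8 * D ^ 4010) = 16 * (D ^ 208 * D ^ 4010) := by ring
        _ ≤ D ^ 167 * (D ^ 208 * D ^ 4010) := by gcongr
        _ = D ^ (1995 + 1195 * 2) := by rw [← pow_add, ← pow_add]
    calc ((⌈D ^ 208⌉₊ : ℕ) : ℝ) * (Real.pi * (8 * D ^ 4010 / (D ^ 1995 * R0 ^ 2)))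
        ≤ 2 * D ^ 208 * (Real.pi * (8 * D ^ 4010 / (D ^ 1995 * (D ^ 1195) ^ 2))) := by
          gcongr
          exact hc2 208
      _ = Real.pi * (2 * D ^ 208 * (8 * D ^ 4010 / (D ^ 1995 * (D ^ 1195) ^ 2))) := by
          rw [mul_left_comm]
      _ ≤ Real.pi * 1 := by gcongr
      _ = Real.pi := mul_one _
  · calc ((⌈D ^ 107⌉₊ : ℕ) : ℝ) ≤ 2 * D ^ 107 := hc2 107
      _ ≤ D * D ^ 107 := by gcongr; linarith
      _ = (D ^ 50)⁻¹ ^ 2 * D ^ 208 := by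
        rw [inv_pow, ← pow_mul, eq_inv_mul_iff_mul_eq₀ (by positivity), ← pow_succ', ← pow_add]
      _ ≤ _ := by gcongr; exact hc1 208
  · have hR1pos : 0 < R1 := by linarith
    have e0 : R1 * M = D ^ 2002 := by
      rw [hR1, mul_right_comm, hR0, ← pow_add]
    have e : R1 / 2 * (2 * (2 * Real.pi * (D ^ 4000 / 2) * (1 / (M * D) ^ 2)) / (3 * R1) ^ 3) =
        Real.pi / 27 * (D ^ 4000 / ((R1 * M) ^ 2 * D ^ 2)) := by
      field_simp; ring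
    have e' : D ^ 4000 / ((R1 * M) ^ 2 * D ^ 2) = D * (D ^ 7)⁻¹ := by
      rw [e0, ← pow_mul, ← pow_add, ← div_eq_mul_inv, div_eq_div_iff (by positivity) (by positivity),
        ← pow_succ', ← pow_add]
    have e1 : (D ^ 50)⁻¹ ^ 2 * D ^ 107 * (D ^ 7)⁻¹ = 1 := by
      rw [inv_pow, ← pow_mul, mul_right_comm, ← mul_inv, ← pow_add]
      exact inv_mul_cancel₀ (by positivity)
    calc (1 : ℝ) = (D ^ 50)⁻¹ ^ 2 * D ^ 107 * (1 * (D ^ 7)⁻¹) := by rw [one_mul, e1]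
      _ ≤ (D ^ 50)⁻¹ ^ 2 * D ^ 107 * ((Real.pi / 27 * D) * (D ^ 7)⁻¹) := by
          gcongr; nlinarith
      _ = (D ^ 50)⁻¹ ^ 2 * D ^ 107 * (R1 / 2 * (2 * (2 * Real.pi * (D ^ 4000 / 2) *
          (1 / (M * D) ^ 2)) / (3 * R1) ^ 3)) := by rw [e, e', mul_assoc (Real.pi / 27)]
      _ = (D ^ 50)⁻¹ ^ 2 * (R1 / 2) * D ^ 107 * (2 * (2 * Real.pi * (D ^ 4000 / 2) *
          (1 / (M * D) ^ 2)) / (3 * R1) ^ 3) := by
          generalize (2 * (2 * Real.pi * (D ^ 4000 / 2) * (1 / (M * D) ^ 2)) / (3 * R1) ^ 3) = A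
          generalize (D ^ 50)⁻¹ ^ 2 = B
          generalize D ^ 107 = C
          ring
      _ ≤ _ := by gcongr; exact hc1 107

lemma es_core (D M y : ℝ) (hD : 10 ≤ D) (hM1 : D ^ 666 ≤ M) (hM2 : M ≤ D ^ 800)
    (R S : Finset ℕ) (a b : ℕ → ℝ) (hR : ∀ r ∈ R, D ^ 1995 < r * M ∧ r * M ≤ D ^ 2002)
    (hS : ∀ m ∈ S, M ≤ m ∧ (m : ℝ) ≤ M * D) (ha : ∀ r, |a r| ≤ D) (hb : ∀ m, |b m| ≤ D)
    (hy1 : D ^ 4000 / 2 ≤ y) (hy2 : y ≤ 2 * D ^ 4010) :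
    ‖∑ r ∈ R, ∑ m ∈ S, ((a r * b m / (r * m) : ℝ) : ℂ) *
        Complex.exp (2 * Real.pi * Complex.I * ((y / (r * m) : ℝ) : ℂ))‖ ≤ (D ^ 13)⁻¹ := by
  have hD0 : 0 < D := by linarith
  have hD1 : 1 ≤ D := by linarith
  have hM1' : 1 ≤ M := (one_le_pow₀ hD1).trans hM1
  have hM0 : 0 < M := by linarith
  obtain ⟨R0, hR0⟩ : ∃ R0 : ℝ, R0 * M = D ^ 1995 := ⟨D ^ 1995 / M, div_mul_cancel₀ _ hM0.ne'⟩
  have hR0pos : 0 < R0 := by
    have : 0 < R0 * M := by rw [hR0]; positivity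
    exact (mul_pos_iff_of_pos_right hM0).1 this
  have hoff := es_off D M y R0 hD hM1' hM2 hR0 hy1 hy2
  set R1 := R0 * D ^ 7 with hR1
  have hR1pos : 0 < R1 := by positivity
  have e0 : R1 * M = D ^ 2002 := by rw [hR1, mul_right_comm, hR0, ← pow_add]
  have hRlo : ∀ r ∈ R, R0 < r := fun r hr =>
    lt_of_mul_lt_mul_right (by rw [hR0]; exact (hR r hr).1) hM0.le
  have hRup : ∀ r ∈ R, (r : ℝ) ≤ R1 := fun r hr =>
    le_of_mul_le_mul_right (by rw [e0]; exact (hR r hr).2) hM0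
  set n0 := ⌊R0⌋₊ + 1 with hn0
  set N := ⌊R1⌋₊ with hN
  have hN1 : (N : ℝ) ≤ R1 := Nat.floor_le hR1pos.le
  have hRI : R ⊆ Ico n0 (n0 + N) := fun r hr => by
    have h1 : ⌊R0⌋₊ < r := (Nat.floor_lt hR0pos.le).2 (hRlo r hr)
    have h2 : r ≤ N := Nat.le_floor (hRup r hr)
    rw [mem_Ico]; omega
  have key := es_cs R (Ico n0 (n0 + N)) S hRI (fun r => a r / r) (fun m => b m / m)
    (fun r m => 2 * Real.pi * (y / (r * m)))
  have e1 : ∑ r ∈ R, ∑ m ∈ S, ((a r * b m / (r * m) : ℝ) : ℂ) *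
      Complex.exp (2 * Real.pi * Complex.I * ((y / (r * m) : ℝ) : ℂ)) =
      ∑ r ∈ R, ∑ m ∈ S, ((a r / r * (b m / m) : ℝ) : ℂ) * ce (2 * Real.pi * (y / (r * m))) := by
    refine sum_congr rfl fun r _ => sum_congr rfl fun m _ => ?_
    rw [div_mul_div_comm]
    congr 1
    unfold ce
    congr 1
    push_cast; ring
  rw [e1]
  have hA : ∑ r ∈ R, (a r / r) ^ 2 ≤ R1 * (D / R0) ^ 2 := by
    have h1 : (R.card : ℝ) ≤ R1 := es_card R R1 hR1pos.le fun r hr =>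
      ⟨by have : (0 : ℝ) < r := hR0pos.trans (hRlo r hr)
          exact_mod_cast this, hRup r hr⟩
    calc ∑ r ∈ R, (a r / r) ^ 2 ≤ ∑ r ∈ R, (D / R0) ^ 2 := by
          refine sum_le_sum fun r hr => ?_
          have hr0 : (0 : ℝ) < r := hR0pos.trans (hRlo r hr)
          rw [← sq_abs, abs_div, abs_of_pos hr0]
          have := (hRlo r hr).le
          have := ha r
          gcongr
      _ = R.card * (D / R0) ^ 2 := by rw [sum_const, nsmul_eq_mul]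
      _ ≤ _ := by gcongr
  have hSc : (S.card : ℝ) ≤ M * D := es_card S _ (by positivity) fun m hm =>
    ⟨by have : (0 : ℝ) < m := hM0.trans_le (hS m hm).1
        exact_mod_cast this, (hS m hm).2⟩
  have hβ : ∀ m ∈ S, |b m / m| ≤ D / M := fun m hm => by
    have hm0 : (0 : ℝ) < m := hM0.trans_le (hS m hm).1
    rw [abs_div, abs_of_pos hm0]
    have := (hS m hm).1
    have := hb m
    gcongr
  have hin : ∀ m ∈ S, ∀ m' ∈ S, ‖∑ r ∈ Ico n0 (n0 + N), ce (2 * Real.pi * (y / (r * m)) -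
      2 * Real.pi * (y / (r * m')))‖ ≤ (if m' = m then R1 else 0) + 8 * R1 * (D ^ 50)⁻¹ := by
    intro m hm m' hm'
    split_ifs with h
    · calc _ ≤ ∑ r ∈ Ico n0 (n0 + N), (1 : ℝ) :=
            (norm_sum_le _ _).trans (le_of_eq (sum_congr rfl fun r _ => norm_ce _))
        _ = N := by simp
        _ ≤ _ := by
          have : 0 ≤ 8 * R1 * (D ^ 50)⁻¹ := by positivity
          linarith
    · rw [sum_Ico_eq_sum_range, Nat.add_sub_cancel_left, zero_add]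
      have h2 := hoff m m' (hS m hm) (hS m' hm') (Ne.symm h)
      refine le_trans (le_of_eq ?_) (h2.trans (by gcongr))
      congr 1
      refine sum_congr rfl fun k _ => ?_
      congr 1
      rw [Nat.cast_add n0 k]
      generalize ((n0 : ℝ) + k) = t
      simp only [div_eq_mul_inv, mul_inv]
      ring
  have hB : ∑ m ∈ S, ∑ m' ∈ S, |b m / m| * |b m' / m'| *
      ‖∑ r ∈ Ico n0 (n0 + N), ce (2 * Real.pi * (y / (r * m)) - 2 * Real.pi * (y / (r * m')))‖ ≤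
      M * D * ((D / M) ^ 2 * (R1 + M * D * (8 * R1 * (D ^ 50)⁻¹))) := by
    calc _ ≤ ∑ m ∈ S, (D / M) ^ 2 * (R1 + M * D * (8 * R1 * (D ^ 50)⁻¹)) := by
          refine sum_le_sum fun m hm => ?_
          calc _ ≤ ∑ m' ∈ S, (D / M) ^ 2 * ((if m' = m then R1 else 0) +
                8 * R1 * (D ^ 50)⁻¹) := by
                refine sum_le_sum fun m' hm' => ?_
                rw [sq]
                have h1 := hβ m hm
                have h2 := hβ m' hm'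
                have h3 := hin m hm m' hm'
                gcongr
            _ = (D / M) ^ 2 * (R1 + S.card * (8 * R1 * (D ^ 50)⁻¹)) := by
                rw [← mul_sum, sum_add_distrib, sum_ite_eq' S m, if_pos hm, sum_const,
                  nsmul_eq_mul]
            _ ≤ _ := by gcongr
      _ = S.card * ((D / M) ^ 2 * (R1 + M * D * (8 * R1 * (D ^ 50)⁻¹))) := by
          rw [sum_const, nsmul_eq_mul]
      _ ≤ _ := by gcongr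
  have hfin : R1 * (D / R0) ^ 2 * (M * D * ((D / M) ^ 2 * (R1 + M * D * (8 * R1 * (D ^ 50)⁻¹))))
      ≤ (D ^ 13)⁻¹ ^ 2 := by
    have e : R1 * (D / R0) ^ 2 * (M * D * ((D / M) ^ 2 * (R1 + M * D * (8 * R1 * (D ^ 50)⁻¹))))
        = (D ^ 13)⁻¹ ^ 2 * (D ^ 45 / M + 8 / D ^ 4) := by
      rw [hR1]; field_simp
    rw [e]
    have h1 : D ^ 45 / M ≤ 1 / 2 := by
      rw [div_le_iff₀ hM0]
      have h2 : D ^ 46 ≤ M := (pow_le_pow_right₀ hD1 (by norm_num)).trans hM1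
      have h3 : D ^ 46 = D ^ 45 * D := pow_succ _ _
      have h4 : 0 < D ^ 45 := by positivity
      nlinarith
    have h2 : 8 / D ^ 4 ≤ 1 / 2 := by
      rw [div_le_iff₀ (by positivity)]
      have : (10 : ℝ) ^ 4 ≤ D ^ 4 := by gcongr
      linarith
    calc (D ^ 13)⁻¹ ^ 2 * (D ^ 45 / M + 8 / D ^ 4) ≤ (D ^ 13)⁻¹ ^ 2 * 1 := by
          gcongr; linarith
      _ = _ := mul_one _
  refine (pow_le_pow_iff_left₀ (norm_nonneg _) (by positivity) two_ne_zero).1 ?_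
  refine key.trans (le_trans ?_ hfin)
  exact mul_le_mul hA hB (by positivity) (by positivity)

theorem bil_exp : ∀ᶠ x : ℕ in atTop, ∀ M : ℝ, (x : ℝ) ^ (1 / 6 : ℝ) ≤ M →
    M ≤ (x : ℝ) ^ (1 / 5 : ℝ) → ∀ (R S : Finset ℕ) (a b : ℕ → ℝ),
    (∀ r ∈ R, (x : ℝ) ^ (1 / 2 - 5 * del) < r * M ∧ r * M ≤ (x : ℝ) ^ (1 / 2 + 2 * del)) →
    (∀ m ∈ S, M ≤ m ∧ (m : ℝ) ≤ M * (x : ℝ) ^ del) →
    (∀ r, |a r| ≤ (x : ℝ) ^ del) → (∀ m, |b m| ≤ (x : ℝ) ^ del) →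
    ∀ y : ℝ, (x : ℝ) / 2 ≤ y → y ≤ 2 * (x : ℝ) ^ (1 + 10 * del) →
    ‖∑ r ∈ R, ∑ m ∈ S, ((a r * b m / (r * m) : ℝ) : ℂ) *
        Complex.exp (2 * Real.pi * Complex.I * ((y / (r * m) : ℝ) : ℂ))‖
      ≤ (x : ℝ) ^ (-(13 * del)) := by
  have hdel : (0 : ℝ) < del := by unfold del; norm_num
  have ht : Tendsto (fun x : ℕ => (x : ℝ) ^ del) atTop atTop :=
    (tendsto_rpow_atTop hdel).comp tendsto_natCast_atTop_atTop
  filter_upwards [ht.eventually_ge_atTop 10, eventually_ge_atTop 1] with x hD hx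
  intro M hM1 hM2 R S a b hR hS ha hb y hy1 hy2
  have hx1 : (1 : ℝ) ≤ x := by exact_mod_cast hx
  have hx0 : (0 : ℝ) ≤ x := by linarith
  have hp : ∀ (k : ℕ) (e : ℝ), e = del * k → (x : ℝ) ^ e = ((x : ℝ) ^ del) ^ k := fun k e he => by
    rw [he, Real.rpow_mul hx0, Real.rpow_natCast]
  rw [hp 800 (1 / 5) (by unfold del; norm_num)] at hM2
  rw [hp 1995 (1 / 2 - 5 * del) (by unfold del; norm_num),
    hp 2002 (1 / 2 + 2 * del) (by unfold del; norm_num)] at hR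
  rw [hp 4010 (1 + 10 * del) (by unfold del; norm_num)] at hy2
  rw [Real.rpow_neg hx0, hp 13 (13 * del) (by unfold del; norm_num)]
  refine es_core _ M y hD (le_trans ?_ hM1) hM2 R S a b hR hS ha hb ?_ hy2
  · rw [← hp 666 _ rfl]
    exact Real.rpow_le_rpow_of_exponent_le hx1 (by unfold del; norm_num)
  · rw [← hp 4000 1 (by unfold del; norm_num), Real.rpow_one]
    exact hy1

end Pool.Agent.Work.MP_82fd4a_nt
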