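import Pool.Agent.Work.MP_82fd4a_nt.Kernel
import Pool.Agent.Work.MP_82fd4a_nt.ExpSum

/-! Level of distribution beyond the length of the interval. -/

set_option autoImplicit false
open Filter Topology Finset

namespace Pool.Agent.Work.MP_82fd4a_nt

lemma ti_re (t : ℝ) :
    (Complex.exp (2 * Real.pi * Complex.I * (t : ℂ))).re = Real.cos (2 * Real.pi * t) := by
  have h : (2 * Real.pi * Complex.I * (t : ℂ)) = ((2 * Real.pi * t : ℝ) : ℂ) * Complex.I := by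
    push_cast; ring
  rw [h, Complex.exp_ofReal_mul_I_re]

/-- orthogonality of additive characters -/
lemma ti_orth {q : ℕ} (hq : 0 < q) (n : ℕ) :
    ∑ a ∈ range q, Real.cos (2 * Real.pi * ((a : ℝ) / q * n)) = if q ∣ n then (q : ℝ) else 0 := by
  have hω := Complex.isPrimitiveRoot_exp q hq.ne'
  set ω := Complex.exp (2 * Real.pi * Complex.I / q) with hωd
  have h1 : ∀ a : ℕ, Real.cos (2 * Real.pi * ((a : ℝ) / q * n)) = ((ω ^ n) ^ a).re := by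
    intro a
    rw [← ti_re, ← pow_mul, hωd, ← Complex.exp_nat_mul]
    congr 2
    push_cast
    ring
  simp only [h1]
  rw [← Complex.re_sum]
  split_ifs with h
  · rw [(hω.pow_eq_one_iff_dvd n).2 h]
    simp
  · have h2 : ω ^ n ≠ 1 := fun h' => h ((hω.pow_eq_one_iff_dvd n).1 h')
    have h3 : (ω ^ n) ^ q = 1 := by rw [← pow_mul, mul_comm, pow_mul, hω.pow_eq_one, one_pow]
    rw [geom_sum_eq h2, h3]
    simp

lemma ti_mul (x : ℕ) (T : ℝ) {q : ℕ} (hq : 0 < q) :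
    ∑ n ∈ Icc 1 (2 * x), gk x T (q * n) =
      ∑ n ∈ Icc 1 (2 * x), if q ∣ n then gk x T n else 0 := by
  rw [← sum_filter]
  symm
  refine sum_bij_ne_zero (fun n _ _ => n / q) ?_ ?_ ?_ ?_
  · intro n hn _
    obtain ⟨h1, k, rfl⟩ := mem_filter.1 hn
    rw [mem_Icc] at h1 ⊢
    rw [Nat.mul_div_cancel_left _ hq]
    constructor
    · rcases Nat.eq_zero_or_pos k with rfl | hk
      · simp at h1
      · exact hk
    · exact (Nat.le_mul_of_pos_left k hq).trans h1.2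
  · intro a ha _ b hb _ h
    obtain ⟨_, k, rfl⟩ := mem_filter.1 ha
    obtain ⟨_, l, rfl⟩ := mem_filter.1 hb
    rw [Nat.mul_div_cancel_left _ hq, Nat.mul_div_cancel_left _ hq] at h
    rw [h]
  · intro k hk h0
    have h1 := gk_ne_zero h0
    refine ⟨q * k, mem_filter.2 ⟨mem_Icc.2 ⟨by omega, h1.2⟩, dvd_mul_right _ _⟩, h0, ?_⟩
    exact Nat.mul_div_cancel_left _ hq
  · intro n hn _
    rw [Nat.mul_div_cancel' (mem_filter.1 hn).2]

/-- the cosine transform of the weight -/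
noncomputable def tiC (x : ℕ) (T : ℝ) (t : ℝ) : ℝ :=
  ∑ n ∈ Icc 1 (2 * x), gk x T n * Real.cos (2 * Real.pi * (t * n))

lemma ti_expand (x : ℕ) (T : ℝ) {q : ℕ} (hq : 0 < q) :
    ∑ n ∈ Icc 1 (2 * x), gk x T (q * n) = (∑ a ∈ range q, tiC x T ((a : ℝ) / q)) / q := by
  have hq' : (q : ℝ) ≠ 0 := by exact_mod_cast hq.ne'
  rw [ti_mul x T hq]
  unfold tiC
  rw [sum_comm, sum_div]
  refine sum_congr rfl fun n _ => ?_
  rw [← mul_sum, ti_orth hq]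
  split_ifs
  · field_simp
  · simp

lemma tiC_zero (x : ℕ) (T : ℝ) : tiC x T 0 = Gam x T := by simp [tiC, Gam]

lemma tiC_refl (x : ℕ) (T : ℝ) {q a : ℕ} (hq : 0 < q) (ha : a ≤ q) :
    tiC x T (((q - a : ℕ) : ℝ) / q) = tiC x T ((a : ℝ) / q) := by
  have hq' : (q : ℝ) ≠ 0 := by exact_mod_cast hq.ne'
  unfold tiC
  refine sum_congr rfl fun n _ => ?_
  congr 1
  rw [← Real.cos_nat_mul_two_pi_sub (2 * Real.pi * ((a : ℝ) / q * n)) n, Nat.cast_sub ha]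
  congr 1
  field_simp

lemma tiC_le (x : ℕ) (T t : ℝ) : |tiC x T t| ≤
    ‖∑ n ∈ Icc 1 (2 * x), (gk x T n : ℂ) * Complex.exp (2 * Real.pi * Complex.I * (t * n))‖ := by
  refine le_trans (le_of_eq ?_) (Complex.abs_re_le_norm _)
  rw [Complex.re_sum]
  unfold tiC
  congr 1
  refine sum_congr rfl fun n _ => ?_
  rw [Complex.re_ofReal_mul, ← ti_re]
  push_cast
  rfl

lemma ti_sin {q a : ℕ} (ha : 0 < a) (haq : a < q) {z B : ℝ} (hz : 0 ≤ z)
    (h : z * Real.sin (Real.pi * ((a : ℝ) / q)) ^ 2 ≤ B) :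
    z ≤ B * q ^ 2 / 4 * (((a : ℝ) ^ 2)⁻¹ + (((q - a : ℕ) : ℝ) ^ 2)⁻¹) := by
  have hq : (0 : ℝ) < q := by exact_mod_cast ha.trans haq
  have hB : 0 ≤ B := (mul_nonneg hz (sq_nonneg _)).trans h
  have key : ∀ b : ℕ, 0 < b → 2 * b ≤ q → z * Real.sin (Real.pi * ((b : ℝ) / q)) ^ 2 ≤ B →
      z ≤ B * q ^ 2 / 4 * ((b : ℝ) ^ 2)⁻¹ := by
    intro b hb hbq h'
    have hb' : (0 : ℝ) < b := by exact_mod_cast hb
    have hbq' : 2 * (b : ℝ) ≤ q := by exact_mod_cast hbq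
    have h1 : (b : ℝ) / q ≤ 1 / 2 := by rw [div_le_iff₀ hq]; linarith
    have h2 := Real.mul_le_sin (x := Real.pi * ((b : ℝ) / q)) (by positivity)
      (by nlinarith [Real.pi_pos])
    have h3 : 2 / Real.pi * (Real.pi * ((b : ℝ) / q)) = 2 * b / q := by
      field_simp
    rw [h3] at h2
    have h4 : (2 * (b : ℝ) / q) ^ 2 ≤ Real.sin (Real.pi * ((b : ℝ) / q)) ^ 2 :=
      pow_le_pow_left₀ (by positivity) h2 2
    have h5 : z * (2 * (b : ℝ) / q) ^ 2 ≤ B := (mul_le_mul_of_nonneg_left h4 hz).trans h'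
    calc z = z * (2 * (b : ℝ) / q) ^ 2 * (q ^ 2 / 4 * ((b : ℝ) ^ 2)⁻¹) := by field_simp; norm_num
      _ ≤ B * (q ^ 2 / 4 * ((b : ℝ) ^ 2)⁻¹) := mul_le_mul_of_nonneg_right h5 (by positivity)
      _ = _ := by ring
  have hc : 0 ≤ B * q ^ 2 / 4 := by positivity
  rw [mul_add]
  rcases le_total (2 * a) q with h1 | h1
  · exact (key a ha h1 h).trans (le_add_of_nonneg_right (by positivity))
  · refine (key (q - a) (by omega) (by omega) ?_).trans (le_add_of_nonneg_left (by positivity))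
    rw [Nat.cast_sub haq.le, ← Real.sin_pi_sub]
    convert h using 4
    field_simp
    ring

lemma ti_split (x : ℕ) (T : ℝ) {q A : ℕ} (hq : 2 * A < q) {B : ℝ}
    (hB : ∀ α : ℝ, ‖∑ n ∈ Icc 1 (2 * x), (gk x T n : ℂ) *
      Complex.exp (2 * Real.pi * Complex.I * (α * n))‖ * Real.sin (Real.pi * α) ^ 2 ≤ B) :
    |∑ n ∈ Icc 1 (2 * x), gk x T (q * n) - Gam x T / q -
      2 / q * ∑ a ∈ Icc 1 A, tiC x T ((a : ℝ) / q)| ≤ B * q / (A + 1) := by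
  have hq0 : 0 < q := by omega
  have hq' : (0 : ℝ) < q := by exact_mod_cast hq0
  have hB0 : 0 ≤ B := (mul_nonneg (norm_nonneg _) (sq_nonneg _)).trans (hB 0)
  have h1 : range q = insert 0 ((Icc 1 A ∪ Ioo A (q - A)) ∪ Ico (q - A) q) := by
    ext a
    simp only [mem_range, mem_insert, mem_union, mem_Icc, mem_Ioo, mem_Ico]
    omega
  have h2 : ∑ a ∈ Ico (q - A) q, tiC x T ((a : ℝ) / q) = ∑ a ∈ Icc 1 A, tiC x T ((a : ℝ) / q) := by
    refine sum_bij' (fun a _ => q - a) (fun a _ => q - a) ?_ ?_ ?_ ?_ ?_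
    · intro a ha; simp only [mem_Icc, mem_Ico] at ha ⊢; omega
    · intro a ha; simp only [mem_Icc, mem_Ico] at ha ⊢; omega
    · intro a ha; simp only [mem_Ico] at ha ⊢; omega
    · intro a ha; simp only [mem_Icc] at ha ⊢; omega
    · intro a ha; rw [tiC_refl x T hq0 (mem_Ico.1 ha).2.le]
  have h3 : ∑ a ∈ range q, tiC x T ((a : ℝ) / q) = Gam x T +
      2 * ∑ a ∈ Icc 1 A, tiC x T ((a : ℝ) / q) + ∑ a ∈ Ioo A (q - A), tiC x T ((a : ℝ) / q) := by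
    rw [h1, sum_insert, sum_union, sum_union, h2, Nat.cast_zero, zero_div, tiC_zero]
    · ring
    · rw [disjoint_left]; intro a ha hb; simp only [mem_Icc, mem_Ioo] at ha hb; omega
    · rw [disjoint_left]; intro a ha hb
      simp only [mem_union, mem_Icc, mem_Ioo, mem_Ico] at ha hb; omega
    · simp only [mem_union, mem_Icc, mem_Ioo, mem_Ico]; omega
  have h4 : ∑ a ∈ Ioo A (q - A), (((q - a : ℕ) : ℝ) ^ 2)⁻¹ =
      ∑ a ∈ Ioo A (q - A), ((a : ℝ) ^ 2)⁻¹ := by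
    refine sum_bij' (fun a _ => q - a) (fun a _ => q - a) ?_ ?_ ?_ ?_ ?_
    · intro a ha; simp only [mem_Ioo] at ha ⊢; omega
    · intro a ha; simp only [mem_Ioo] at ha ⊢; omega
    · intro a ha; simp only [mem_Ioo] at ha ⊢; omega
    · intro a ha; simp only [mem_Ioo] at ha ⊢; omega
    · intro a _; rfl
  have h5 : |∑ a ∈ Ioo A (q - A), tiC x T ((a : ℝ) / q)| ≤ B * q ^ 2 / (A + 1) := by
    refine (abs_sum_le_sum_abs _ _).trans ?_
    have h6 : ∀ a ∈ Ioo A (q - A), |tiC x T ((a : ℝ) / q)| ≤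
        B * q ^ 2 / 4 * (((a : ℝ) ^ 2)⁻¹ + (((q - a : ℕ) : ℝ) ^ 2)⁻¹) := by
      intro a ha
      rw [mem_Ioo] at ha
      refine ti_sin (by omega) (by omega) (abs_nonneg _) (le_trans ?_ (hB ((a : ℝ) / q)))
      exact mul_le_mul_of_nonneg_right (tiC_le x T _) (sq_nonneg _)
    refine (sum_le_sum h6).trans ?_
    rw [← mul_sum, sum_add_distrib, h4]
    have h7 := sum_Ioo_inv_sq_le (α := ℝ) A (q - A)
    calc _ ≤ B * q ^ 2 / 4 * (2 / (A + 1) + 2 / (A + 1)) :=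
          mul_le_mul_of_nonneg_left (add_le_add h7 h7) (by positivity)
      _ = _ := by ring
  rw [ti_expand x T hq0, h3]
  have h8 : (Gam x T + 2 * ∑ a ∈ Icc 1 A, tiC x T ((a : ℝ) / q) +
      ∑ a ∈ Ioo A (q - A), tiC x T ((a : ℝ) / q)) / q - Gam x T / q -
      2 / q * ∑ a ∈ Icc 1 A, tiC x T ((a : ℝ) / q) =
      (∑ a ∈ Ioo A (q - A), tiC x T ((a : ℝ) / q)) / q := by ring
  rw [h8, abs_div, abs_of_pos hq', div_le_iff₀ hq']
  refine h5.trans (le_of_eq ?_)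
  ring

/-- small frequencies -/
lemma ti_small (x : ℕ) (T : ℝ) (R S : Finset ℕ) (a b : ℕ → ℝ) {Y ε : ℝ} {k : ℕ} (hk : 1 ≤ k)
    (hY : 2 * (x : ℝ) * k ≤ Y)
    (h : ∀ y : ℝ, (x : ℝ) / 2 ≤ y → y ≤ Y →
      ‖∑ r ∈ R, ∑ m ∈ S, ((a r * b m / (r * m) : ℝ) : ℂ) *
        Complex.exp (2 * Real.pi * Complex.I * ((y / (r * m) : ℝ) : ℂ))‖ ≤ ε) :
    |∑ r ∈ R, ∑ m ∈ S, a r * b m / (r * m) * tiC x T ((k : ℝ) / (r * m))| ≤ Gam x T * ε := by
  have h1 : ∑ r ∈ R, ∑ m ∈ S, a r * b m / (r * m) * tiC x T ((k : ℝ) / (r * m)) =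
      ∑ n ∈ Icc 1 (2 * x), gk x T n * (∑ r ∈ R, ∑ m ∈ S, ((a r * b m / (r * m) : ℝ) : ℂ) *
        Complex.exp (2 * Real.pi * Complex.I * (((n : ℝ) * k / (r * m) : ℝ) : ℂ))).re := by
    simp only [Complex.re_sum, Complex.re_ofReal_mul, ti_re, tiC, mul_sum]
    rw [sum_comm (s := Icc 1 (2 * x))]
    refine sum_congr rfl fun r _ => ?_
    rw [sum_comm (s := Icc 1 (2 * x))]
    refine sum_congr rfl fun m _ => sum_congr rfl fun n _ => ?_
    rw [show (k : ℝ) / (r * m) * n = n * k / (r * m) by ring]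
    ring
  rw [h1, Gam, sum_mul]
  refine (abs_sum_le_sum_abs _ _).trans (sum_le_sum fun n _ => ?_)
  rw [abs_mul, abs_of_nonneg (gk_nonneg x T n)]
  by_cases h0 : gk x T n = 0
  · rw [h0, zero_mul, zero_mul]
  obtain ⟨h2, h3⟩ := gk_ne_zero h0
  have h2' : (x : ℝ) < 2 * n := by exact_mod_cast h2
  have h3' : (n : ℝ) ≤ 2 * x := by exact_mod_cast h3
  have hk' : (1 : ℝ) ≤ k := by exact_mod_cast hk
  refine mul_le_mul_of_nonneg_left ((Complex.abs_re_le_norm _).trans (h _ ?_ ?_)) (gk_nonneg x T n)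
  · nlinarith [(Nat.cast_nonneg n : (0 : ℝ) ≤ n)]
  · nlinarith

lemma ti_card {R : Finset ℕ} {Y : ℝ} (hY : 0 ≤ Y) (h : ∀ r ∈ R, 1 ≤ r ∧ (r : ℝ) ≤ Y) :
    (R.card : ℝ) ≤ Y := by
  have h1 : R ⊆ Icc 1 ⌊Y⌋₊ := fun r hr => mem_Icc.2 ⟨(h r hr).1, Nat.le_floor (h r hr).2⟩
  have h2 := card_le_card h1
  rw [Nat.card_Icc, Nat.add_sub_cancel] at h2
  exact le_trans (by exact_mod_cast h2) (Nat.floor_le hY)

lemma ti_triv (R S : Finset ℕ) (a b : ℕ → ℝ) (D : ℕ → ℕ → ℝ) {u E Y Z : ℝ} (hu : 0 ≤ u)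
    (hE : 0 ≤ E) (hY : 0 ≤ Y) (hZ : 0 ≤ Z) (hR : ∀ r ∈ R, 1 ≤ r ∧ (r : ℝ) ≤ Y)
    (hS : ∀ m ∈ S, 1 ≤ m ∧ (m : ℝ) ≤ Z) (ha : ∀ r, |a r| ≤ u) (hb : ∀ m, |b m| ≤ u)
    (hD : ∀ r ∈ R, ∀ m ∈ S, |D r m| ≤ E) :
    |∑ r ∈ R, ∑ m ∈ S, a r * b m * D r m| ≤ Y * (Z * (u * u * E)) := by
  have h1 : ∀ r ∈ R, |∑ m ∈ S, a r * b m * D r m| ≤ Z * (u * u * E) := by
    intro r hr
    refine (abs_sum_le_sum_abs _ _).trans ?_
    have h2 : ∀ m ∈ S, |a r * b m * D r m| ≤ u * u * E := by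
      intro m hm
      rw [abs_mul, abs_mul]
      exact mul_le_mul (mul_le_mul (ha r) (hb m) (abs_nonneg _) hu) (hD r hr m hm) (abs_nonneg _)
        (mul_nonneg hu hu)
    refine (sum_le_card_nsmul _ _ _ h2).trans ?_
    rw [nsmul_eq_mul]
    exact mul_le_mul_of_nonneg_right (ti_card hZ hS) (by positivity)
  refine (abs_sum_le_sum_abs _ _).trans ((sum_le_card_nsmul _ _ _ h1).trans ?_)
  rw [nsmul_eq_mul]
  exact mul_le_mul_of_nonneg_right (ti_card hY hR) (by positivity)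

/-- the estimate with all powers of `x` written as powers of `u` -/
lemma ti_core (x : ℕ) {u M T : ℝ} (hu : 1000 ≤ u) (hx : (x : ℝ) = u ^ 4000) (hM : 1 ≤ M)
    (hT : 1 ≤ T) (hT' : T ≤ u ^ 2000) (R S : Finset ℕ) (a b : ℕ → ℝ)
    (hR : ∀ r ∈ R, 1 ≤ r ∧ r * M ≤ u ^ 2002) (hS : ∀ m ∈ S, M ≤ m ∧ (m : ℝ) ≤ M * u)
    (ha : ∀ r, |a r| ≤ u) (hb : ∀ m, |b m| ≤ u)
    (hF : ∀ α : ℝ, ‖∑ n ∈ Icc 1 (2 * x), (gk x T n : ℂ) *
      Complex.exp (2 * Real.pi * Complex.I * (α * n))‖ * Real.sin (Real.pi * α) ^ 2 ≤ 40 * T / x)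
    (hE : ∀ y : ℝ, (x : ℝ) / 2 ≤ y → y ≤ 2 * u ^ 4010 →
      ‖∑ r ∈ R.filter (fun r : ℕ => ¬ r * M ≤ u ^ 1995), ∑ m ∈ S,
        ((a r * b m / (r * m) : ℝ) : ℂ) *
        Complex.exp (2 * Real.pi * Complex.I * ((y / (r * m) : ℝ) : ℂ))‖ ≤ (u ^ 13)⁻¹) :
    |∑ r ∈ R, ∑ m ∈ S, a r * b m *
        (∑ n ∈ Icc 1 (2 * x), gk x T (r * m * n) - Gam x T / (r * m))| ≤ Gam x T * u⁻¹ := by
  have hu0 : 0 < u := by linarith
  have hu1 : 1 ≤ u := by linarith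
  have hM0 : 0 < M := by linarith
  have hT0 : 0 < T := by linarith
  obtain ⟨v, hv⟩ : ∃ v, v = u ^ 1995 := ⟨_, rfl⟩
  have hv0 : 0 < v := by rw [hv]; positivity
  have e2000 : u ^ 2000 = v * u ^ 5 := by rw [hv, ← pow_add]
  have e2002 : u ^ 2002 = v * u ^ 7 := by rw [hv, ← pow_add]
  have e4000 : (x : ℝ) = v * u ^ 5 * (v * u ^ 5) := by rw [hx, ← e2000, ← pow_add]
  have e4010 : u ^ 4010 = x * u ^ 10 := by rw [hx, ← pow_add]
  have hvu : 2 * u ^ 10 < v := by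
    have h1 : u ^ 11 ≤ u ^ 1995 := pow_le_pow_right₀ hu1 (by norm_num)
    have h2 : 0 < u ^ 10 := by positivity
    rw [← hv, pow_succ] at h1
    nlinarith
  rw [e2000] at hT'
  simp only [e2002] at hR
  rw [← hv, e4010] at hE
  clear e2000 e2002 e4010 hv hx
  have hw1 : 1 ≤ v * u ^ 5 := hT.trans hT'
  have hTx : T ≤ x := by rw [e4000]; nlinarith
  have hG : v * u ^ 5 / 8 ≤ Gam x T := by
    refine le_trans ?_ (Gam_ge hT hTx)
    rw [div_le_div_iff₀ (by norm_num) (by positivity), e4000]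
    nlinarith
  have hG0 : 0 ≤ Gam x T := le_trans (by positivity) hG
  have hS1 : ∀ m ∈ S, 1 ≤ m ∧ (m : ℝ) ≤ M * u := fun m hm =>
    ⟨by exact_mod_cast hM.trans (hS m hm).1, (hS m hm).2⟩
  set A := ⌊u ^ 10⌋₊ with hA
  have hA1 : (A : ℝ) ≤ u ^ 10 := Nat.floor_le (by positivity)
  have hA2 : u ^ 10 < (A : ℝ) + 1 := Nat.lt_floor_add_one _
  set R2 := R.filter (fun r : ℕ => ¬ r * M ≤ v) with hR2
  have p1 := ti_triv (R.filter (fun r : ℕ => r * M ≤ v)) S a b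
    (fun r m => ∑ n ∈ Icc 1 (2 * x), gk x T (r * m * n) - Gam x T / (r * m)) hu0.le
    (E := 2) (Y := v / M) (Z := M * u) (by norm_num) (by positivity) (by positivity)
    (fun r hr => ⟨(hR r (mem_filter.1 hr).1).1, (le_div_iff₀ hM0).2 (mem_filter.1 hr).2⟩)
    hS1 ha hb (fun r hr m hm => by
      have h1 := sum_gk_mul x hT0.le
        (Nat.mul_pos (hR r (mem_filter.1 hr).1).1 (hS1 m hm).1)
      rwa [Nat.cast_mul] at h1)
  have p2 := ti_triv R2 S a b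
    (fun r m => ∑ n ∈ Icc 1 (2 * x), gk x T (r * m * n) - Gam x T / (r * m) -
      2 / (r * m) * ∑ k ∈ Icc 1 A, tiC x T ((k : ℝ) / (r * m))) hu0.le
    (E := 40 * (u ^ 7)⁻¹) (Y := v * u ^ 7 / M) (Z := M * u) (by positivity) (by positivity)
    (by positivity)
    (fun r hr => ⟨(hR r (mem_filter.1 hr).1).1, (le_div_iff₀ hM0).2 (hR r (mem_filter.1 hr).1).2⟩)
    hS1 ha hb (fun r hr m hm => by
      obtain ⟨hr1, hr2⟩ := mem_filter.1 hr
      have hr0 : (0 : ℝ) ≤ r := Nat.cast_nonneg r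
      have h2 : v < r * m := (not_le.1 hr2).trans_le (mul_le_mul_of_nonneg_left (hS m hm).1 hr0)
      have h3 : (r : ℝ) * m ≤ v * u ^ 7 * u :=
        (mul_le_mul_of_nonneg_left (hS m hm).2 hr0).trans (by
          rw [← mul_assoc]; exact mul_le_mul_of_nonneg_right (hR r hr1).2 hu0.le)
      have h4 : 2 * A < r * m := by
        have : (2 : ℝ) * A < r * m := by linarith
        exact_mod_cast this
      have h1 := ti_split x T h4 hF
      rw [Nat.cast_mul] at h1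
      refine h1.trans ?_
      calc 40 * T / x * (r * m) / (A + 1)
          ≤ 40 * (v * u ^ 5) / x * (v * u ^ 7 * u) / u ^ 10 := by gcongr
        _ = 40 * (u ^ 7)⁻¹ := by rw [e4000]; field_simp)
  have p3 : |∑ r ∈ R2, ∑ m ∈ S, a r * b m *
      (2 / (r * m) * ∑ k ∈ Icc 1 A, tiC x T ((k : ℝ) / (r * m)))| ≤
      u ^ 10 * (2 * (Gam x T * (u ^ 13)⁻¹)) := by
    have h1 : ∑ r ∈ R2, ∑ m ∈ S, a r * b m *
        (2 / (r * m) * ∑ k ∈ Icc 1 A, tiC x T ((k : ℝ) / (r * m))) = ∑ k ∈ Icc 1 A,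
        2 * ∑ r ∈ R2, ∑ m ∈ S, a r * b m / (r * m) * tiC x T ((k : ℝ) / (r * m)) := by
      simp only [mul_sum]
      rw [sum_comm (s := Icc 1 A)]
      refine sum_congr rfl fun r _ => ?_
      rw [sum_comm (s := Icc 1 A)]
      refine sum_congr rfl fun m _ => sum_congr rfl fun k _ => ?_
      ring
    rw [h1]
    refine (abs_sum_le_sum_abs _ _).trans ?_
    have h2 : ∀ k ∈ Icc 1 A, |2 * ∑ r ∈ R2, ∑ m ∈ S, a r * b m / (r * m) *
        tiC x T ((k : ℝ) / (r * m))| ≤ 2 * (Gam x T * (u ^ 13)⁻¹) := by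
      intro k hk
      rw [mem_Icc] at hk
      rw [abs_mul, abs_two]
      refine mul_le_mul_of_nonneg_left (ti_small x T R2 S a b hk.1 ?_ hE) (by norm_num)
      have h3 : (k : ℝ) ≤ u ^ 10 := le_trans (by exact_mod_cast hk.2) hA1
      rw [mul_assoc]
      gcongr
    refine (sum_le_card_nsmul _ _ _ h2).trans ?_
    rw [nsmul_eq_mul, Nat.card_Icc, Nat.add_sub_cancel]
    exact mul_le_mul_of_nonneg_right hA1 (by positivity)
  have hsplit : ∑ r ∈ R2, ∑ m ∈ S, a r * b m *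
        (∑ n ∈ Icc 1 (2 * x), gk x T (r * m * n) - Gam x T / (r * m)) =
      ∑ r ∈ R2, ∑ m ∈ S, a r * b m *
        (∑ n ∈ Icc 1 (2 * x), gk x T (r * m * n) - Gam x T / (r * m) -
          2 / (r * m) * ∑ k ∈ Icc 1 A, tiC x T ((k : ℝ) / (r * m))) +
      ∑ r ∈ R2, ∑ m ∈ S, a r * b m *
        (2 / (r * m) * ∑ k ∈ Icc 1 A, tiC x T ((k : ℝ) / (r * m))) := by
    rw [← sum_add_distrib]
    refine sum_congr rfl fun r _ => ?_
    rw [← sum_add_distrib]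
    refine sum_congr rfl fun m _ => ?_
    ring
  rw [← sum_filter_add_sum_filter_not R (fun r : ℕ => r * M ≤ v), ← hR2, hsplit]
  refine (abs_add_le _ _).trans ((add_le_add p1 ((abs_add_le _ _).trans (add_le_add p2 p3))).trans ?_)
  have q1 : v / M * (M * u * (u * u * 2)) = 2 * (v * u ^ 3) := by field_simp
  have q2 : v * u ^ 7 / M * (M * u * (u * u * (40 * (u ^ 7)⁻¹))) = 40 * (v * u ^ 3) := by
    field_simp
  have q3 : u ^ 10 * (2 * (Gam x T * (u ^ 13)⁻¹)) = 2 / u ^ 2 * (Gam x T * u⁻¹) := by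
    field_simp
  have q4 : v * u ^ 3 * u / 8 ≤ Gam x T * u⁻¹ := by
    rw [← div_eq_mul_inv (Gam x T), le_div_iff₀ hu0]
    refine le_trans (le_of_eq ?_) hG
    ring
  have q5 : 2 / u ^ 2 ≤ 1 / 2 := by
    rw [div_le_div_iff₀ (by positivity) (by norm_num)]
    nlinarith
  have q6 : 0 ≤ Gam x T * u⁻¹ := by positivity
  have q7 : 0 ≤ v * u ^ 3 := by positivity
  rw [q1, q2, q3]
  nlinarith [mul_le_mul_of_nonneg_right q5 q6, mul_le_mul_of_nonneg_left hu q7]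

theorem typeI : ∀ᶠ x : ℕ in atTop, ∀ M : ℝ, (x : ℝ) ^ (1 / 6 : ℝ) ≤ M →
    M ≤ (x : ℝ) ^ (1 / 5 : ℝ) → ∀ (R S : Finset ℕ) (a b : ℕ → ℝ),
    (∀ r ∈ R, 1 ≤ r ∧ r * M ≤ (x : ℝ) ^ (1 / 2 + 2 * del)) →
    (∀ m ∈ S, M ≤ m ∧ (m : ℝ) ≤ M * (x : ℝ) ^ del) →
    (∀ r, |a r| ≤ (x : ℝ) ^ del) → (∀ m, |b m| ≤ (x : ℝ) ^ del) →
    ∀ T : ℝ, Real.log x ^ 2 ≤ T → T ≤ √(x : ℝ) →
    |∑ r ∈ R, ∑ m ∈ S, a r * b m *
        (∑ n ∈ Icc 1 (2 * x), gk x T (r * m * n) - Gam x T / (r * m))|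
      ≤ Gam x T * (x : ℝ) ^ (-del) := by
  have hdel : 0 < del := by norm_num [del]
  have t1 : Tendsto (fun x : ℕ => (x : ℝ) ^ del) atTop atTop :=
    (tendsto_rpow_atTop hdel).comp tendsto_natCast_atTop_atTop
  have t2 : Tendsto (fun x : ℕ => Real.log x) atTop atTop :=
    Real.tendsto_log_atTop.comp tendsto_natCast_atTop_atTop
  filter_upwards [bil_exp, fourier_gk, t1.eventually_ge_atTop 1000, t2.eventually_ge_atTop 1,
    eventually_ge_atTop 1] with x hE hF hu hL hx M hM hM' R S a b hR hS ha hb T hT hT'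
  have hx1 : (1 : ℝ) ≤ x := by exact_mod_cast hx
  have hx0 : (0 : ℝ) ≤ x := by linarith
  have hp : ∀ (k : ℕ) (c : ℝ), c = del * k → (x : ℝ) ^ c = ((x : ℝ) ^ del) ^ k := by
    intro k c h
    rw [h, Real.rpow_mul_natCast hx0]
  have e1 := hp 4000 1 (by norm_num [del])
  have e2 := hp 2000 (1 / 2) (by norm_num [del])
  have e3 := hp 2002 (1 / 2 + 2 * del) (by norm_num [del])
  have e4 := hp 1995 (1 / 2 - 5 * del) (by norm_num [del])
  have e5 := hp 4010 (1 + 10 * del) (by norm_num [del])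
  have e6 := hp 13 (13 * del) (by norm_num [del])
  rw [Real.rpow_one] at e1
  rw [← Real.sqrt_eq_rpow] at e2
  have hT1 : 1 ≤ T := le_trans (by nlinarith) hT
  have hTx : T ≤ x := hT'.trans (Real.sqrt_le_iff.2 ⟨hx0, by nlinarith⟩)
  rw [Real.rpow_neg hx0]
  refine ti_core x hu e1 ((Real.one_le_rpow hx1 (by norm_num)).trans hM) hT1 (e2 ▸ hT') R S a b
    (e3 ▸ hR) hS ha hb (hF T hT hTx) fun y hy hy' => ?_
  rw [← e6, ← Real.rpow_neg hx0]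
  refine hE M hM hM' _ S a b (fun r hr => ?_) hS ha hb y hy (e5 ▸ hy')
  obtain ⟨h1, h2⟩ := mem_filter.1 hr
  exact ⟨e4 ▸ not_le.1 h2, (hR r h1).2⟩

end Pool.Agent.Work.MP_82fd4a_nt
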