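import Pool.Agent.Work.MP_82fd4a_nt.Setup
import Pool.Agent.Work.MP_82fd4a_nt.TypeI

/-! The linear part of the decomposition: auxiliary lemmas. -/

set_option autoImplicit false
open Filter Topology Finset

namespace Pool.Agent.Work.MP_82fd4a_nt

/-- the weight summed over the multiples of `q` -/
noncomputable def siG (x : ℕ) (T : ℝ) (q : ℕ) : ℝ := ∑ n ∈ Icc 1 (2 * x), gk x T (q * n)

lemma si_dvd_sum (x : ℕ) (T : ℝ) {q d : ℕ} (hq : 0 < q) (hd : 0 < d) (f : ℕ → ℝ) :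
    ∑ n ∈ Icc 1 (2 * x), (if d ∣ n then f n * gk x T (q * n) else 0)
      = ∑ k ∈ Icc 1 (2 * x), f (d * k) * gk x T (q * (d * k)) := by
  rw [← sum_filter]
  have h : ∑ k ∈ Icc 1 (2 * x), f (d * k) * gk x T (q * (d * k))
      = ∑ k ∈ Icc 1 (2 * x) with d * k ≤ 2 * x, f (d * k) * gk x T (q * (d * k)) := by
    refine (sum_filter_of_ne fun k _ hk => ?_).symm
    have h1 := (gk_ne_zero (right_ne_zero_of_mul hk)).2
    exact (Nat.le_mul_of_pos_left _ hq).trans h1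
  rw [h]
  symm
  refine sum_nbij' (fun k => d * k) (fun n => n / d) ?_ ?_ ?_ ?_ ?_
  · intro k hk
    simp only [mem_filter, mem_Icc] at hk ⊢
    exact ⟨⟨Nat.mul_pos hd hk.1.1, hk.2⟩, dvd_mul_right _ _⟩
  · intro n hn
    simp only [mem_filter, mem_Icc] at hn ⊢
    obtain ⟨⟨h1, h2⟩, k, rfl⟩ := hn
    rw [Nat.mul_div_cancel_left _ hd]
    exact ⟨⟨Nat.pos_of_mul_pos_left h1, (Nat.le_mul_of_pos_left _ hd).trans h2⟩, h2⟩
  · intro k _
    exact Nat.mul_div_cancel_left _ hd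
  · intro n hn
    exact Nat.mul_div_cancel' (mem_filter.1 hn).2
  · intro k _
    rfl

lemma si_rf_mul (w : ℝ) (a b : ℕ) : rf w (a * b) = rf w a * rf w b := by
  unfold rf
  by_cases ha : Rough w a <;> by_cases hb : Rough w b <;> simp [rough_mul, ha, hb]

/-- the divisors that occur -/
noncomputable def siD (x : ℕ) (z b : ℝ) (y : ℕ) : Finset ℕ :=
  (Icc 1 (2 * x)).filter fun d => Rough z d ∧ (ty b d).sum < y

lemma si_expand (x : ℕ) (T z b : ℝ) (y : ℕ) {q : ℕ} (hq : 0 < q) :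
    ∑ n ∈ Icc 1 (2 * x), rf z n * Phi b y n * gk x T (q * n)
      = ∑ d ∈ siD x z b y, (ArithmeticFunction.moebius d : ℝ) *
          ∑ k ∈ Icc 1 (2 * x), rf z k * gk x T (q * d * k) := by
  have h1 : ∀ n ∈ Icc 1 (2 * x), rf z n * Phi b y n * gk x T (q * n)
      = ∑ d ∈ Icc 1 (2 * x), (if (ty b d).sum < y then (ArithmeticFunction.moebius d : ℝ) else 0)
          * (if d ∣ n then rf z n * gk x T (q * n) else 0) := by
    intro n hn
    rw [mem_Icc] at hn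
    have h2 : n.divisors = (Icc 1 (2 * x)).filter (· ∣ n) := by
      ext d
      simp only [Nat.mem_divisors, mem_filter, mem_Icc]
      constructor
      · rintro ⟨h, _⟩
        exact ⟨⟨Nat.pos_of_dvd_of_pos h hn.1, (Nat.le_of_dvd hn.1 h).trans hn.2⟩, h⟩
      · rintro ⟨_, h⟩
        exact ⟨h, by omega⟩
    unfold Phi
    rw [h2, sum_filter, mul_sum, sum_mul]
    refine sum_congr rfl fun d _ => ?_
    split_ifs <;> ring
  rw [sum_congr rfl h1, sum_comm, siD, sum_filter]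
  refine sum_congr rfl fun d hd => ?_
  have hd0 : 0 < d := (mem_Icc.1 hd).1
  rw [← mul_sum, si_dvd_sum x T hq hd0]
  simp only [si_rf_mul, mul_assoc]
  rw [← mul_sum]
  by_cases h1 : Rough z d <;> by_cases h2 : (ty b d).sum < y <;> simp [rf, h1, h2]

lemma si_swap (x : ℕ) (T : ℝ) {q : ℕ} (hq : 0 < q) (E : Finset ℕ) (hE : ∀ e ∈ E, 1 ≤ e)
    (f : ℕ → ℝ) : ∑ e ∈ E, f e * siG x T (q * e)
      = ∑ k ∈ Icc 1 (2 * x), (∑ e ∈ E with e ∣ k, f e) * gk x T (q * k) := by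
  simp only [sum_filter, sum_mul]
  rw [sum_comm]
  refine sum_congr rfl fun e he => ?_
  have := si_dvd_sum x T hq (hE e he) (fun _ => f e)
  simp only [ite_mul, zero_mul]
  rw [this, siG, mul_sum]
  simp only [mul_assoc]

lemma si_sieve (x : ℕ) (T z : ℝ) {q : ℕ} (hq : 0 < q) (E : Finset ℕ) (hE : ∀ e ∈ E, 1 ≤ e)
    (lam err : ℕ → ℝ)
    (h : ∀ n : ℕ, 1 ≤ n → |rf z n - ∑ e ∈ E with e ∣ n, lam e| ≤ ∑ e ∈ E with e ∣ n, err e) :
    |∑ k ∈ Icc 1 (2 * x), rf z k * gk x T (q * k) - ∑ e ∈ E, lam e * siG x T (q * e)|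
      ≤ ∑ e ∈ E, err e * siG x T (q * e) := by
  rw [si_swap x T hq E hE, si_swap x T hq E hE, ← sum_sub_distrib]
  refine (abs_sum_le_sum_abs _ _).trans (sum_le_sum fun k hk => ?_)
  rw [← sub_mul, abs_mul, abs_of_nonneg (gk_nonneg _ _ _)]
  exact mul_le_mul_of_nonneg_right (h k (mem_Icc.1 hk).1) (gk_nonneg _ _ _)

lemma si_regroup {ι : Type*} (P : Finset ι) (φ : ι → ℕ) (w : ι → ℝ) (F : ℕ → ℝ) :
    ∑ p ∈ P, w p * F (φ p) = ∑ r ∈ P.image φ, (∑ p ∈ P with φ p = r, w p) * F r := by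
  rw [← sum_fiberwise_of_maps_to (s := P) (t := P.image φ) (g := φ)
    (fun p hp => mem_image_of_mem φ hp)]
  refine sum_congr rfl fun r _ => ?_
  rw [sum_mul]
  refine sum_congr rfl fun p hp => ?_
  rw [(mem_filter.1 hp).2]

lemma si_tau_le (k : ℕ) : ∀ᶠ x : ℕ in atTop, ∀ n : ℕ, n ≤ x → 2 * tau n ^ k ≤ (x : ℝ) ^ del := by
  have hdel : 0 < del := by unfold del; norm_num
  have hε : 0 < del / (2 * (k + 1)) := by positivity
  obtain ⟨C, hC1, hC⟩ := Pool.Agent.Lib.ANT.exists_card_divisors_le _ hε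
  have ht : Tendsto (fun x : ℕ => (x : ℝ) ^ (del / 2)) atTop atTop :=
    (tendsto_rpow_atTop (by positivity)).comp tendsto_natCast_atTop_atTop
  filter_upwards [ht.eventually_ge_atTop (2 * C ^ k), eventually_ge_atTop 1] with x hx hx1 n hn
  have hx1' : (1 : ℝ) ≤ x := by exact_mod_cast hx1
  have h1 : tau n ≤ C * (x : ℝ) ^ (del / (2 * (k + 1))) := by
    refine (hC n).trans ?_
    gcongr
  have h2 : tau n ^ k ≤ C ^ k * (x : ℝ) ^ (del / 2) := by
    refine (pow_le_pow_left₀ (tau_nonneg n) h1 k).trans ?_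
    rw [mul_pow, ← Real.rpow_natCast ((x : ℝ) ^ _), ← Real.rpow_mul (by linarith)]
    gcongr
    rw [div_mul_eq_mul_div, div_le_div_iff₀ (by positivity) (by positivity)]
    nlinarith
  have h3 : (x : ℝ) ^ del = (x : ℝ) ^ (del / 2) * (x : ℝ) ^ (del / 2) := by
    rw [← Real.rpow_add (by linarith)]; ring_nf
  have h4 : 0 ≤ (x : ℝ) ^ (del / 2) := by positivity
  rw [h3]
  nlinarith

lemma si_card_pairs (D E : Finset ℕ) (hD : ∀ d ∈ D, 1 ≤ d) (hE : ∀ e ∈ E, 1 ≤ e) (r : ℕ) :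
    (#{u ∈ D ×ˢ E | u.1 * u.2 = r} : ℝ) ≤ tau r := by
  unfold tau
  refine Nat.cast_le.2 (card_le_card_of_injOn (fun u => u.1) ?_ ?_)
  · intro u hu
    simp only [coe_filter, mem_product, Set.mem_ofPred_eq] at hu
    obtain ⟨⟨h1, h2⟩, rfl⟩ := hu
    simp only [mem_coe, Nat.mem_divisors]
    exact ⟨dvd_mul_right _ _, (Nat.mul_pos (hD _ h1) (hE _ h2)).ne'⟩
  · intro u hu v hv huv
    simp only [coe_filter, mem_product, Set.mem_ofPred_eq] at hu hv
    have h : u.1 = v.1 := huv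
    refine Prod.ext h ?_
    have h2 : u.1 * u.2 = u.1 * v.2 := by rw [hu.2, h, hv.2]
    exact Nat.eq_of_mul_eq_mul_left (hD _ hu.1.1) h2

lemma si_card_tup (K J : ℕ) (Λ : ℝ) (S : Finset ℕ) {m : ℕ} (hm : m ≠ 0) :
    (#{p ∈ S ×ˢ tup K J Λ | p.1 * ∏ i, p.2 i = m} : ℝ) ≤ tau m ^ (K + J + 1) := by
  have h : {p ∈ S ×ˢ tup K J Λ | p.1 * ∏ i, p.2 i = m}
      ⊆ m.divisors ×ˢ Fintype.piFinset (fun _ : Ix K J => m.divisors) := by
    intro p hp
    obtain ⟨_, rfl⟩ := mem_filter.1 hp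
    rw [mem_product, Fintype.mem_piFinset]
    refine ⟨Nat.mem_divisors.2 ⟨dvd_mul_right _ _, hm⟩, fun i => Nat.mem_divisors.2 ⟨?_, hm⟩⟩
    exact (dvd_prod_of_mem _ (mem_univ i)).mul_left _
  have h2 := card_le_card h
  rw [card_product, Fintype.card_piFinset, prod_const, card_univ] at h2
  have h3 : Fintype.card (Ix K J) = K + J := by simp
  rw [h3] at h2
  unfold tau
  rw [pow_succ']
  exact_mod_cast h2

lemma si_typeI (K J : ℕ) : ∀ᶠ x : ℕ in atTop, ∀ (Λ M : ℝ) (S : Finset ℕ), Sized x K J Λ S M →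
    ∀ (D E : Finset ℕ) (c f : ℕ → ℝ), (∀ d ∈ D, 1 ≤ d ∧ d * M ≤ (x : ℝ) ^ (1 / 2 + del)) →
    (∀ e ∈ E, 1 ≤ e ∧ (e : ℝ) ≤ (x : ℝ) ^ del) → (∀ d, |c d| ≤ 1) → (∀ e, |f e| ≤ 2) →
    ∀ T : ℝ, Real.log x ^ 2 ≤ T → T ≤ √(x : ℝ) →
    |∑ p ∈ S ×ˢ tup K J Λ, tau p.1 * ∑ d ∈ D, c d * ∑ e ∈ E, f e *
        (siG x T ((p.1 * ∏ i, p.2 i) * d * e)
          - Gam x T / (((p.1 * ∏ i, p.2 i : ℕ) : ℝ) * d * e))|
      ≤ Gam x T * (x : ℝ) ^ (-del) := by
  filter_upwards [typeI, si_tau_le 1, si_tau_le (K + J + 2), eventually_ge_atTop 1]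
    with x hx h1 h2 hx1 Λ M S hS D E c f hD hE hc hf T hT hT'
  have hdel : del = 1 / 4000 := rfl
  have hx1' : (1 : ℝ) ≤ x := by exact_mod_cast hx1
  have hx0 : (0 : ℝ) < x := by linarith
  obtain ⟨hM1, hM2, hS⟩ := hS
  have hM0 : 1 ≤ M := (Real.one_le_rpow hx1' (by norm_num)).trans hM1
  set P := S ×ˢ tup K J Λ with hP
  set φ : ℕ × (Ix K J → ℕ) → ℕ := fun p => p.1 * ∏ i, p.2 i with hφ
  set ψ : ℕ × ℕ → ℕ := fun u => u.1 * u.2 with hψ
  have hR : ∀ r ∈ (D ×ˢ E).image ψ, 1 ≤ r ∧ r * M ≤ (x : ℝ) ^ (1 / 2 + 2 * del) := by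
    intro r hr
    obtain ⟨u, hu, rfl⟩ := mem_image.1 hr
    obtain ⟨hu1, hu2⟩ := mem_product.1 hu
    refine ⟨Nat.mul_pos (hD _ hu1).1 (hE _ hu2).1, ?_⟩
    have h3 : (x : ℝ) ^ (1 / 2 + 2 * del) = (x : ℝ) ^ (1 / 2 + del) * (x : ℝ) ^ del := by
      rw [← Real.rpow_add hx0]; ring_nf
    rw [h3]
    calc ((ψ u : ℕ) : ℝ) * M = (u.1 * M) * u.2 := by simp only [hψ]; push_cast; ring
      _ ≤ _ := mul_le_mul (hD _ hu1).2 (hE _ hu2).2 (by positivity) (by positivity)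
  have hSm : ∀ m ∈ P.image φ, M ≤ m ∧ (m : ℝ) ≤ M * (x : ℝ) ^ del := by
    intro m hm
    obtain ⟨p, hp, rfl⟩ := mem_image.1 hm
    obtain ⟨hp1, hp2⟩ := mem_product.1 hp
    exact hS _ hp1 _ hp2
  have hxd : 0 ≤ (x : ℝ) ^ del := by positivity
  have key := hx M hM1 hM2 ((D ×ˢ E).image ψ) (P.image φ)
    (fun r => ∑ u ∈ D ×ˢ E with ψ u = r, c u.1 * f u.2)
    (fun m => ∑ p ∈ P with φ p = m, tau p.1) hR hSm ?_ ?_ T hT hT'
  · convert key using 2
    rw [sum_comm]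
    simp only [mul_comm (∑ u ∈ D ×ˢ E with ψ u = _, c u.1 * f u.2), mul_assoc]
    simp only [← mul_sum]
    rw [← si_regroup P φ (fun p => tau p.1)]
    refine sum_congr rfl fun p _ => ?_
    congr 1
    simp only [mul_comm _ (∑ u ∈ D ×ˢ E with ψ u = _, c u.1 * f u.2)]
    rw [← si_regroup (D ×ˢ E) ψ (fun u => c u.1 * f u.2), sum_product]
    refine sum_congr rfl fun d _ => ?_
    rw [mul_sum]
    refine sum_congr rfl fun e _ => ?_
    simp only [hψ, hφ, siG]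
    rw [mul_assoc (c d)]
    congr 3
    · refine sum_congr rfl fun n _ => ?_
      congr 1
      ring
    · push_cast
      ring
  · intro r
    by_cases hr : r ∈ (D ×ˢ E).image ψ
    · have h3 : r ≤ x := by
        have h4 := (hR r hr).2
        have h5 : (x : ℝ) ^ (1 / 2 + 2 * del) ≤ x ^ (1 : ℝ) :=
          Real.rpow_le_rpow_of_exponent_le hx1' (by rw [hdel]; norm_num)
        rw [Real.rpow_one] at h5
        have h6 : (r : ℝ) ≤ r * M := le_mul_of_one_le_right (by positivity) hM0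
        exact_mod_cast h6.trans (h4.trans h5)
      refine (abs_sum_le_sum_abs _ _).trans ?_
      have h4 : ∑ u ∈ D ×ˢ E with ψ u = r, |c u.1 * f u.2| ≤ ∑ u ∈ D ×ˢ E with ψ u = r, (2 : ℝ) := by
        refine sum_le_sum fun u _ => ?_
        rw [abs_mul]
        nlinarith [hc u.1, hf u.2, abs_nonneg (c u.1), abs_nonneg (f u.2)]
      refine h4.trans ?_
      rw [sum_const, nsmul_eq_mul]
      have h5 := si_card_pairs D E (fun d hd => (hD d hd).1) (fun e he => (hE e he).1) r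
      have h6 := h1 r h3
      rw [pow_one] at h6
      simp only [hψ]
      linarith
    · rw [filter_false_of_mem fun u hu h => hr (mem_image.2 ⟨u, hu, h⟩)]
      simpa using hxd
  · intro m
    by_cases hm : m ∈ P.image φ
    · have h3 : m ≤ x := by
        have h4 := (hSm m hm).2
        have h5 : (x : ℝ) ^ (1 / 5 + del) ≤ x ^ (1 : ℝ) :=
          Real.rpow_le_rpow_of_exponent_le hx1' (by rw [hdel]; norm_num)
        rw [Real.rpow_one, Real.rpow_add hx0] at h5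
        have h6 := mul_le_mul_of_nonneg_right hM2 hxd
        exact_mod_cast h4.trans (h6.trans h5)
      have hm0 : m ≠ 0 := by
        have : (1 : ℝ) ≤ m := hM0.trans (hSm m hm).1
        have : 1 ≤ m := by exact_mod_cast this
        omega
      rw [abs_of_nonneg (sum_nonneg fun p _ => tau_nonneg _)]
      have h4 : ∑ p ∈ P with φ p = m, tau p.1 ≤ ∑ p ∈ P with φ p = m, tau m := by
        refine sum_le_sum fun p hp => ?_
        unfold tau
        refine Nat.cast_le.2 (card_le_card (Nat.divisors_subset_of_dvd hm0 ?_))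
        rw [← (mem_filter.1 hp).2]
        exact dvd_mul_right _ _
      refine h4.trans ?_
      rw [sum_const, nsmul_eq_mul]
      have h5 := si_card_tup K J Λ S hm0
      have h6 := h2 m h3
      have h7 := mul_le_mul_of_nonneg_right h5 (tau_nonneg m)
      rw [← pow_succ] at h7
      have h8 : 0 ≤ tau m ^ (K + J + 2) := pow_nonneg (tau_nonneg m) _
      simp only [hφ, hP]
      linarith
    · rw [filter_false_of_mem fun u hu h => hm (mem_image.2 ⟨u, hu, h⟩)]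
      simpa using hxd

open Classical in
lemma si_inv_rough {η : ℝ} (hη : 0 < η) (hη1 : η ≤ 1) : ∀ᶠ x : ℕ in atTop, ∀ D : Finset ℕ,
    (∀ d ∈ D, 1 ≤ d ∧ d ≤ 2 * x ∧ Rough ((x : ℝ) ^ η) d) → ∑ d ∈ D, (1 / (d : ℝ)) ≤ 19 / η := by
  have hl : Tendsto (fun x : ℕ => Real.log x) atTop atTop :=
    Real.tendsto_log_atTop.comp tendsto_natCast_atTop_atTop
  have ht : ∀ᶠ x : ℕ in atTop, 2 * Real.log x ≤ (x : ℝ) ^ (η / 5) := by
    have h := (isLittleO_log_rpow_atTop (by positivity : 0 < η / 5)).bound one_half_pos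
    filter_upwards [tendsto_natCast_atTop_atTop.eventually h] with x hx
    rw [Real.norm_eq_abs, Real.norm_eq_abs, abs_of_nonneg (by positivity : 0 ≤ (x : ℝ) ^ (η / 5))]
      at hx
    linarith [le_abs_self (Real.log x)]
  filter_upwards [eventually_ge_atTop 2, hl.eventually_ge_atTop 2, ht] with x h2 hL he D hD
  have hX : (1 : ℝ) < x := by exact_mod_cast h2
  have hX0 : (0 : ℝ) < x := by linarith
  set L := Real.log x with hLdef
  set A := ⌊(x : ℝ) ^ η⌋₊ with hA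
  have hA1 : 1 ≤ (x : ℝ) ^ η := Real.one_le_rpow hX.le hη.le
  have hA0 : 0 < A := Nat.floor_pos.2 hA1
  have hAr : (1 : ℝ) ≤ A := by exact_mod_cast hA0
  have hA2 : (x : ℝ) ^ η ≤ 2 * A := by
    have := Nat.lt_floor_add_one ((x : ℝ) ^ η)
    linarith
  set J := ⌈L / Real.log 2⌉₊ with hJ
  have l2 : 2 / 3 < Real.log 2 := by linarith [Real.log_two_gt_d9]
  have hw : 1 < (x : ℝ) ^ (η / 5) := Real.one_lt_rpow hX (by positivity)
  have hsub : D ⊆ insert 1 {n ∈ Ioc A (2 ^ (J + 1) * A) |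
      Pool.Agent.Work.MP_51e72e_nt.L2.Rough ((x : ℝ) ^ (η / 5)) n} := by
    intro d hd
    obtain ⟨h1, h3, h4⟩ := hD d hd
    rw [mem_insert, mem_filter, mem_Ioc]
    by_cases h5 : d = 1
    · exact Or.inl h5
    refine Or.inr ⟨⟨?_, ?_⟩, fun p hp hpd => lt_of_le_of_lt ?_ (h4 p hp hpd)⟩
    · obtain ⟨p, hp, hpd⟩ := Nat.exists_prime_and_dvd h5
      have h6 := h4 p hp hpd
      have h7 : (p : ℝ) ≤ d := by exact_mod_cast Nat.le_of_dvd h1 hpd
      have h8 : (A : ℝ) ≤ (x : ℝ) ^ η := Nat.floor_le (by positivity)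
      exact_mod_cast h8.trans_lt (h6.trans_le h7)
    · have a1 : (x : ℝ) ≤ 2 ^ J := by
        rw [← Real.rpow_natCast, Real.rpow_def_of_pos two_pos, ← Real.exp_log hX0]
        refine Real.exp_le_exp.2 ?_
        have := Nat.le_ceil (L / Real.log 2)
        rw [div_le_iff₀ (by linarith)] at this
        linarith
      have a2 : x ≤ 2 ^ J := by exact_mod_cast a1
      calc d ≤ 2 * x := h3
        _ ≤ 2 ^ (J + 1) := by rw [pow_succ]; omega
        _ ≤ _ := Nat.le_mul_of_pos_right _ hA0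
    · exact Real.rpow_le_rpow_of_exponent_le hX.le (by linarith)
  refine (sum_le_sum_of_subset_of_nonneg hsub fun _ _ _ => by positivity).trans ?_
  have hnot : (1 : ℕ) ∉ {n ∈ Ioc A (2 ^ (J + 1) * A) |
      Pool.Agent.Work.MP_51e72e_nt.L2.Rough ((x : ℝ) ^ (η / 5)) n} := by
    intro h
    have := (mem_Ioc.1 (mem_filter.1 h).1).1
    omega
  rw [sum_insert hnot]
  have hmain := Pool.Agent.Work.MP_51e72e_nt.L2.sum_inv_rough hw A hA0 (J + 1)
  have b1 : ((J + 1 : ℕ) : ℝ) ≤ 3 * L := by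
    have c1 : (J : ℝ) < L / Real.log 2 + 1 := Nat.ceil_lt_add_one (by positivity)
    have c2 : L / Real.log 2 ≤ 3 / 2 * L := by
      rw [div_le_iff₀ (by linarith)]
      nlinarith
    push_cast
    linarith
  have b2 : ((x : ℝ) ^ (η / 5)) ^ 4 / A ≤ 1 / (η * L) := by
    rw [div_le_div_iff₀ (by linarith) (by positivity), one_mul]
    have c1 : ((x : ℝ) ^ (η / 5)) ^ 4 * (x : ℝ) ^ (η / 5) = (x : ℝ) ^ η := by
      rw [← pow_succ, ← Real.rpow_natCast, ← Real.rpow_mul hX0.le]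
      congr 1
      push_cast
      ring
    have c2 : 2 * (η * L) ≤ (x : ℝ) ^ (η / 5) := by nlinarith
    have c3 : 0 ≤ ((x : ℝ) ^ (η / 5)) ^ 4 := by positivity
    have c4 := mul_le_mul_of_nonneg_left c2 c3
    rw [c1] at c4
    linarith
  rw [Real.log_rpow hX0, ← hLdef] at hmain
  have b3 : ((J + 1 : ℕ) : ℝ) * (1 / (η / 5 * L) + ((x : ℝ) ^ (η / 5)) ^ 4 / A)
      ≤ (3 * L) * (1 / (η / 5 * L) + 1 / (η * L)) := by gcongr
  have b4 : (3 * L) * (1 / (η / 5 * L) + 1 / (η * L)) = 18 / η := by field_simp; ring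
  have b5 : (1 : ℝ) ≤ 1 / η := by rw [le_div_iff₀ hη]; linarith
  have b6 : 19 / η = 1 / η + 18 / η := by ring
  rw [b6, Nat.cast_one, div_one]
  exact add_le_add b5 (hmain.trans (b3.trans b4.le))

end Pool.Agent.Work.MP_82fd4a_nt
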