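import Pool.Agent.Work.MP_82fd4a_nt.KernelF
import Pool.Agent.Work.MP_51e72e_nt.L2Char
import Pool.Agent.Lib.ANT.DivisorBound
import Pool.Agent.Lib.MR.Kernel

/-! Elementary properties of the localising weight. -/

set_option autoImplicit false
open Filter Topology Finset

namespace Pool.Agent.Work.MP_82fd4a_nt

lemma ker_abel (u g : ℕ → ℝ) {E : ℝ} (hE : 0 ≤ E) (h1 : ∀ i, g i ≤ 1) (k : ℕ)
    (hS : ∀ c ≤ k, ∑ i ∈ range c, u i ≤ E) (hg : ∀ i j, i ≤ j → j < k → g j ≤ g i) (t : ℝ)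
    (ht1 : t ≤ 1) (ht : ∀ i < k, t ≤ g i) :
    ∑ i ∈ range k, u i * g i ≤ E * (1 - t) + (∑ i ∈ range k, u i) * t := by
  induction k generalizing t with
  | zero => simpa using mul_nonneg hE (sub_nonneg.2 ht1)
  | succ k ih =>
    have a1 := ih (fun c hc => hS c (by omega)) (fun i j hij hj => hg i j hij (by omega)) (g k)
      (h1 k) (fun i hi => hg i k hi.le (by omega))
    have a2 := hS (k + 1) le_rfl
    have a3 := ht k (by omega)
    rw [sum_range_succ] at a2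
    rw [sum_range_succ, sum_range_succ]
    nlinarith [mul_nonneg (sub_nonneg.2 a2) (sub_nonneg.2 a3)]

lemma ker_up (f : ℕ → ℝ) (a c : ℕ) : ∑ i ∈ range c, f (a + 1 + i) = ∑ n ∈ Ioc a (a + c), f n := by
  induction c with
  | zero => simp
  | succ c ih =>
    rw [sum_range_succ, ih, ← add_assoc a c 1, sum_Ioc_succ_top (by omega), add_right_comm]

lemma ker_down (f : ℕ → ℝ) {b c : ℕ} (h : c ≤ b) :
    ∑ i ∈ range c, f (b - i) = ∑ n ∈ Ioc (b - c) b, f n := by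
  have e := ker_up f (b - c) c
  rw [Nat.sub_add_cancel h] at e
  rw [← e, ← sum_range_reflect]
  refine sum_congr rfl fun i hi => ?_
  rw [mem_range] at hi
  congr 1
  omega

lemma ker_mono {x : ℕ} {T : ℝ} (hT : 0 ≤ T) {m n : ℕ} (hmn : m ≤ n) (hn : n ≤ x) :
    gk x T m ≤ gk x T n := by
  by_cases h : x < 2 * m ∧ m ≤ 2 * x
  · have hm : (0 : ℝ) < m := by exact_mod_cast (by omega : 0 < m)
    have a1 : Real.log m ≤ Real.log n := Real.log_le_log hm (by exact_mod_cast hmn)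
    have a2 : Real.log n ≤ Real.log x :=
      Real.log_le_log (hm.trans_le (by exact_mod_cast hmn)) (by exact_mod_cast hn)
    unfold gk
    rw [if_pos h, if_pos ⟨by omega, by omega⟩, Real.exp_le_exp, neg_le_neg_iff,
      abs_of_nonpos (by linarith), abs_of_nonpos (by linarith)]
    exact mul_le_mul_of_nonneg_left (by linarith) hT
  · rw [show gk x T m = 0 from if_neg h]
    exact gk_nonneg _ _ _

lemma ker_anti {x : ℕ} {T : ℝ} (hT : 0 ≤ T) {m n : ℕ} (hmn : m ≤ n) (hm : x ≤ m) :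
    gk x T n ≤ gk x T m := by
  by_cases h : x < 2 * n ∧ n ≤ 2 * x
  · have hx : (0 : ℝ) < x := by exact_mod_cast (by omega : 0 < x)
    have a1 : Real.log x ≤ Real.log m := Real.log_le_log hx (by exact_mod_cast hm)
    have a2 : Real.log m ≤ Real.log n :=
      Real.log_le_log (hx.trans_le (by exact_mod_cast hm)) (by exact_mod_cast hmn)
    unfold gk
    rw [if_pos h, if_pos ⟨by omega, by omega⟩, Real.exp_le_exp, neg_le_neg_iff,
      abs_of_nonneg (by linarith), abs_of_nonneg (by linarith)]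
    exact mul_le_mul_of_nonneg_left (by linarith) hT
  · rw [show gk x T n = 0 from if_neg h]
    exact gk_nonneg _ _ _

lemma ker_cut (x : ℕ) (T : ℝ) {q : ℕ} (hq : 0 < q) (e : ℕ → ℝ) :
    ∑ n ∈ Icc 1 (2 * x), e n * gk x T (q * n) = ∑ n ∈ Ioc 0 (2 * x / q), e n * gk x T (q * n) := by
  refine (sum_subset (fun n hn => ?_) fun n hn hn' => ?_).symm
  · rw [mem_Ioc] at hn
    exact mem_Icc.2 ⟨hn.1, hn.2.trans (Nat.div_le_self _ _)⟩
  · rw [mem_Icc] at hn
    rw [mem_Ioc, Nat.le_div_iff_mul_le hq, mul_comm n q] at hn'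
    rw [show gk x T (q * n) = 0 from if_neg fun h => hn' ⟨hn.1, h.2⟩, mul_zero]

/-- Summation by parts against the unimodal sequence `n ↦ gk x T (q * n)`. -/
theorem abel_gk (x : ℕ) {T : ℝ} (hT : 0 ≤ T) {q : ℕ} (hq : 0 < q) (e : ℕ → ℝ) {E : ℝ} (hE : 0 ≤ E)
    (h : ∀ a b : ℕ, a ≤ b → q * b ≤ 2 * x → ∑ n ∈ Ioc a b, e n ≤ E) :
    ∑ n ∈ Icc 1 (2 * x), e n * gk x T (q * n) ≤ 2 * E := by
  have h01 : x / q ≤ 2 * x / q := Nat.div_le_div_right (by omega)
  have h0 : q * (x / q) ≤ x := Nat.mul_div_le x q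
  have h0' : x < q * (x / q + 1) := Nat.lt_mul_div_succ x hq
  have h1 : q * (2 * x / q) ≤ 2 * x := Nat.mul_div_le _ q
  rw [ker_cut x T hq, ← sum_Ioc_consecutive _ (Nat.zero_le _) h01]
  generalize x / q = a at *
  generalize 2 * x / q = b at *
  have l := ker_abel (fun i => e (a - i)) (fun i => gk x T (q * (a - i))) hE
    (fun _ => gk_le_one x hT _) a
    (fun c hc => by rw [ker_down e hc]; exact h _ _ (Nat.sub_le _ _) (by omega))
    (fun i j hij _ => ker_mono hT (Nat.mul_le_mul_left _ (by omega))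
      ((Nat.mul_le_mul_left _ (Nat.sub_le _ _)).trans h0)) 0 zero_le_one
    (fun _ _ => gk_nonneg _ _ _)
  have r := ker_abel (fun i => e (a + 1 + i)) (fun i => gk x T (q * (a + 1 + i))) hE
    (fun _ => gk_le_one x hT _) (b - a)
    (fun c hc => by
      rw [ker_up e]
      exact h _ _ (by omega) ((Nat.mul_le_mul_left _ (by omega)).trans h1))
    (fun i j hij _ => ker_anti hT (Nat.mul_le_mul_left _ (by omega))
      (h0'.le.trans (Nat.mul_le_mul_left _ (by omega)))) 0 zero_le_one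
    (fun _ _ => gk_nonneg _ _ _)
  rw [ker_down (fun n => e n * gk x T (q * n)) le_rfl, Nat.sub_self] at l
  rw [ker_up (fun n => e n * gk x T (q * n)), Nat.add_sub_cancel' h01] at r
  linarith

lemma ker_dvd (x : ℕ) (T : ℝ) {q : ℕ} (hq : 0 < q) :
    ∑ n ∈ Icc 1 (2 * x), gk x T (q * n) =
      ∑ n ∈ Icc 1 (2 * x), (if q ∣ n then 1 else 0) * gk x T n := by
  have e := ker_cut x T hq fun _ => 1
  simp only [one_mul] at e
  rw [e]
  refine sum_of_injOn (fun n => q * n) (fun a _ b _ hab => Nat.eq_of_mul_eq_mul_left hq hab)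
    (fun n hn => ?_) (fun n hn hn' => ?_) fun n _ => by simp
  · rw [mem_coe, mem_Ioc, Nat.le_div_iff_mul_le hq, mul_comm n q] at hn
    exact mem_coe.2 (mem_Icc.2 ⟨Nat.mul_pos hq hn.1, hn.2⟩)
  · rw [if_neg, zero_mul]
    rintro ⟨m, rfl⟩
    rw [mem_Icc] at hn
    refine hn' ⟨m, ?_, rfl⟩
    rw [mem_coe, mem_Ioc, Nat.le_div_iff_mul_le hq, mul_comm m q]
    exact ⟨Nat.pos_of_mul_pos_left hn.1, hn.2⟩

theorem sum_gk_mul (x : ℕ) {T : ℝ} (hT : 0 ≤ T) {q : ℕ} (hq : 0 < q) :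
    |∑ n ∈ Icc 1 (2 * x), gk x T (q * n) - Gam x T / q| ≤ 2 := by
  have key : ∀ a b : ℕ, a ≤ b →
      |∑ n ∈ Ioc a b, ((if q ∣ n then (1 : ℝ) else 0) - 1 / q)| ≤ 1 := fun a b hab => by
    obtain ⟨c, rfl⟩ := Nat.exists_eq_add_of_le hab
    have := Lib.ANT.abs_card_modEq_sub_le a c q 0 hq
    simp only [Nat.modEq_zero_iff_dvd] at this
    rw [sum_sub_distrib, sum_boole, sum_const, Nat.card_Ioc, Nat.add_sub_cancel_left,
      nsmul_eq_mul, mul_one_div]
    exact this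
  have a1 := abel_gk x hT one_pos (fun n => (if q ∣ n then (1 : ℝ) else 0) - 1 / q) zero_le_one
    fun a b hab _ => (abs_le.1 (key a b hab)).2
  have a2 := abel_gk x hT one_pos (fun n => -((if q ∣ n then (1 : ℝ) else 0) - 1 / q)) zero_le_one
    fun a b hab _ => by rw [sum_neg_distrib]; linarith [(abs_le.1 (key a b hab)).1]
  simp only [one_mul, neg_mul, sum_neg_distrib, sub_mul, sum_sub_distrib, ← mul_sum] at a1 a2
  rw [ker_dvd x T hq, Gam, abs_le, div_eq_inv_mul, ← one_div]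
  constructor <;> linarith

theorem Gam_ge {x : ℕ} {T : ℝ} (hT : 1 ≤ T) (hTx : T ≤ x) : (x : ℝ) / (8 * T) ≤ Gam x T := by
  have hT0 : 0 < T := by linarith
  have hx : (0 : ℝ) < x := by linarith
  have hx' : 0 < x := by exact_mod_cast hx
  have h1 : 1 ≤ (x : ℝ) / T := (one_le_div hT0).2 hTx
  have h2 : (⌊(x : ℝ) / T⌋₊ : ℝ) ≤ x / T := Nat.floor_le (by positivity)
  have h3 : (x : ℝ) / T < ⌊(x : ℝ) / T⌋₊ + 1 := Nat.lt_floor_add_one _
  have h4 : (1 : ℝ) ≤ ⌊(x : ℝ) / T⌋₊ := by exact_mod_cast Nat.le_floor (by simpa using h1)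
  have h5 : ⌊(x : ℝ) / T⌋₊ ≤ x := by exact_mod_cast h2.trans (div_le_self hx.le hT)
  generalize ⌊(x : ℝ) / T⌋₊ = m at *
  have h6 : ∀ n ∈ Ioc x (x + m), (1 / 4 : ℝ) ≤ gk x T n := fun n hn => by
    rw [mem_Ioc] at hn
    have n1 : (x : ℝ) ≤ n := by exact_mod_cast hn.1.le
    have n2 : (n : ℝ) ≤ x + m := by exact_mod_cast hn.2
    have l1 := Real.log_le_log hx n1
    have l2 := Real.log_le_sub_one_of_pos (div_pos (hx.trans_le n1) hx)
    rw [Real.log_div (hx.trans_le n1).ne' hx.ne'] at l2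
    have l3 : T * ((n : ℝ) / x - 1) ≤ 1 := by
      rw [le_div_iff₀ hT0] at h2
      rw [div_sub_one hx.ne', ← mul_div_assoc, div_le_one hx]
      nlinarith
    unfold gk
    rw [if_pos ⟨by omega, by omega⟩, abs_of_nonneg (by linarith)]
    refine le_trans ?_ (Real.exp_le_exp.2 (show -1 ≤ _ by nlinarith))
    linarith [Real.exp_neg_one_gt_d9]
  have h7 := card_nsmul_le_sum _ _ _ h6
  rw [Nat.card_Ioc, Nat.add_sub_cancel_left, nsmul_eq_mul] at h7
  have h8 : ∑ n ∈ Ioc x (x + m), gk x T n ≤ Gam x T :=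
    sum_le_sum_of_subset_of_nonneg (fun n hn => by rw [mem_Ioc] at hn; rw [mem_Icc]; omega)
      fun _ _ _ => gk_nonneg _ _ _
  rw [mul_comm, ← div_div]
  linarith

theorem Gam_le {x : ℕ} {T : ℝ} (hT : 0 < T) (hTx : T ≤ x) : Gam x T ≤ 5 * x / T := by
  have hx : 0 < x := by exact_mod_cast hT.trans_le hTx
  have h := Lib.MR.sum_kernel_le (N := 2 * x) (m := x) (mem_Icc.2 ⟨hx, by omega⟩) hT
  have h1 : 1 ≤ (x : ℝ) / T := (one_le_div hT).2 hTx
  have h2 : Gam x T ≤ ∑ n ∈ Icc 1 (2 * x), Real.exp (-(T * |Real.log x - Real.log n|)) := by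
    refine sum_le_sum fun n _ => ?_
    unfold gk
    split_ifs
    · rw [abs_sub_comm]
    · exact (Real.exp_pos _).le
  push_cast at h
  rw [← mul_assoc, mul_div_assoc] at h
  rw [mul_div_assoc]
  linarith

/-- upper bound sieve -/
theorem sum_rf_gk (x : ℕ) {T : ℝ} (hT : 0 ≤ T) {q : ℕ} (hq : 0 < q) {w : ℝ} (hw : 1 < w) :
    ∑ n ∈ Icc 1 (2 * x), rf w n * gk x T (q * n) ≤ (Gam x T / q + 2) / Real.log w + 2 * w ^ 4 := by
  have hl := Real.log_pos hw
  have a1 := abel_gk x hT hq (fun n => rf w n - 1 / Real.log w) (E := w ^ 4) (by positivity)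
    fun a b hab _ => by
      obtain ⟨c, rfl⟩ := Nat.exists_eq_add_of_le hab
      have := MP_51e72e_nt.L2.card_rough_Ioc hw a c
      simp only [rf]
      rw [sum_sub_distrib, sum_boole, sum_const, Nat.card_Ioc, Nat.add_sub_cancel_left,
        nsmul_eq_mul, mul_one_div, sub_le_iff_le_add']
      refine le_trans (Nat.cast_le.2 (card_le_card fun n hn => ?_)) this
      simp only [mem_filter] at hn ⊢
      exact hn
  have a2 := (abs_le.1 (sum_gk_mul x hT hq)).2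
  simp only [sub_mul, sum_sub_distrib, ← mul_sum] at a1
  have a3 := div_le_div_of_nonneg_right (sub_le_iff_le_add'.1 a2) hl.le
  rw [one_div_mul_eq_div] at a1
  linarith

/-- far from `x` the weight is much smaller than the weight with half the parameter -/
theorem gk_tail {x : ℕ} (hx : 0 < x) {T D : ℝ} (hT : 0 ≤ T) {n : ℕ} (h : D ≤ |(n : ℝ) - x|) :
    gk x T n ≤ Real.exp (-(T * D / (4 * x))) * gk x (T / 2) n := by
  unfold gk
  split_ifs with hn
  · have hx' : (0 : ℝ) < x := by exact_mod_cast hx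
    have hn0 : (0 : ℝ) < n := by exact_mod_cast (by omega : 0 < n)
    have hn2 : (n : ℝ) ≤ 2 * x := by exact_mod_cast hn.2
    have key : ∀ a b : ℝ, 0 < a → a ≤ b → b ≤ 2 * x →
        b - a ≤ 2 * x * (Real.log b - Real.log a) := fun a b ha hab hb => by
      have hb0 := ha.trans_le hab
      have l := Real.log_le_sub_one_of_pos (div_pos ha hb0)
      rw [Real.log_div ha.ne' hb0.ne', div_sub_one hb0.ne', le_div_iff₀ hb0] at l
      nlinarith [Real.log_le_log ha hab]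
    have k2 : |(n : ℝ) - x| ≤ 2 * x * |Real.log n - Real.log x| := by
      rcases le_total (n : ℝ) x with h1 | h1
      · rw [abs_sub_comm, abs_sub_comm (Real.log n), abs_of_nonneg (sub_nonneg.2 h1),
          abs_of_nonneg (sub_nonneg.2 (Real.log_le_log hn0 h1))]
        exact key _ _ hn0 h1 (by linarith)
      · rw [abs_of_nonneg (sub_nonneg.2 h1), abs_of_nonneg (sub_nonneg.2 (Real.log_le_log hx' h1))]
        exact key _ _ hx' h1 hn2
    have k3 : T * D / (4 * x) ≤ T / 2 * |Real.log n - Real.log x| := by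
      rw [div_le_iff₀ (by positivity)]
      nlinarith [mul_le_mul_of_nonneg_left (h.trans k2) hT]
    rw [← Real.exp_add, Real.exp_le_exp]
    linarith
  · rw [mul_zero]

/-- integers with a large square factor are rare -/
theorem sum_sqful {η : ℝ} (hη : 0 < η) (hη1 : η ≤ 1 / 100) (k : ℕ) (C : ℝ) :
    ∀ᶠ x : ℕ in atTop, ∀ T : ℝ, 1 ≤ T → T ≤ √(x : ℝ) → ∀ c : ℕ → ℝ, (∀ n, c n ≤ C * tau n ^ k) →
      (∀ n, 0 < c n → ∃ p : ℕ, p.Prime ∧ (x : ℝ) ^ η < p ∧ (p : ℝ) ≤ (x : ℝ) ^ (9 / 20 : ℝ) ∧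
        p ^ 2 ∣ n) →
      ∑ n ∈ Icc 1 (2 * x), c n * gk x T n ≤ Gam x T * (x : ℝ) ^ (-(η / 2)) := by
  obtain ⟨C0, hC0, hτ⟩ := Lib.ANT.exists_card_divisors_le (η / 8 / (k + 1)) (by positivity)
  have hB : 0 ≤ |C| * C0 ^ k * 2 := by positivity
  filter_upwards [((tendsto_rpow_atTop (show 0 < η / 8 by positivity)).comp
    tendsto_natCast_atTop_atTop).eventually_ge_atTop (18 * (|C| * C0 ^ k * 2)),
    eventually_ge_atTop 1] with x hu hx T hT hTx c hc hp
  simp only [Function.comp] at hu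
  have hx1 : (1 : ℝ) ≤ x := by exact_mod_cast hx
  have hx0 : (0 : ℝ) < x := by linarith
  have hs : 0 < √(x : ℝ) := Real.sqrt_pos.2 hx0
  have hss : √(x : ℝ) * √(x : ℝ) = x := Real.mul_self_sqrt hx0.le
  have hG : √(x : ℝ) / 8 ≤ Gam x T := by
    refine le_trans ?_ (Gam_ge hT (hTx.trans (Real.sqrt_le_self_iff.2 (Or.inr hx1))))
    rw [div_le_div_iff₀ (by norm_num) (by positivity)]
    nlinarith
  have hu1 : 1 ≤ (x : ℝ) ^ (η / 8) := Real.one_le_rpow hx1 (by positivity)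
  have hy1 : 1 ≤ (x : ℝ) ^ η := Real.one_le_rpow hx1 hη.le
  have hcB : ∀ n ∈ Icc 1 (2 * x), c n ≤ |C| * C0 ^ k * 2 * (x : ℝ) ^ (η / 8) := fun n hn => by
    rw [mem_Icc] at hn
    have n1 : (1 : ℝ) ≤ n := by exact_mod_cast hn.1
    have n2 : (n : ℝ) ≤ 2 * x := by exact_mod_cast hn.2
    have b1 : tau n ^ k ≤ (C0 * (n : ℝ) ^ (η / 8 / (k + 1))) ^ k :=
      pow_le_pow_left₀ (tau_nonneg n) (hτ n) k
    have b2 : ((n : ℝ) ^ (η / 8 / (k + 1))) ^ k ≤ 2 * (x : ℝ) ^ (η / 8) := by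
      rw [← Real.rpow_mul_natCast (by linarith)]
      have e1 : η / 8 / (k + 1) * k ≤ η / 8 := by
        rw [div_mul_eq_mul_div, div_le_iff₀ (by positivity)]
        nlinarith
      refine (Real.rpow_le_rpow_of_exponent_le n1 e1).trans
        ((Real.rpow_le_rpow (by linarith) n2 (by positivity)).trans ?_)
      rw [Real.mul_rpow zero_le_two hx0.le]
      refine mul_le_mul_of_nonneg_right ?_ (by positivity)
      simpa using Real.rpow_le_rpow_of_exponent_le one_le_two (show η / 8 ≤ 1 by linarith)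
    rw [mul_pow] at b1
    calc c n ≤ |C| * tau n ^ k :=
          (hc n).trans (mul_le_mul_of_nonneg_right (le_abs_self C) (pow_nonneg (tau_nonneg n) k))
      _ ≤ |C| * (C0 ^ k * (2 * (x : ℝ) ^ (η / 8))) :=
          mul_le_mul_of_nonneg_left (b1.trans (mul_le_mul_of_nonneg_left b2 (by positivity)))
            (abs_nonneg C)
      _ = _ := by ring
  generalize |C| * C0 ^ k * 2 = B at *
  set P := Ioc ⌊(x : ℝ) ^ η⌋₊ ⌊(x : ℝ) ^ (9 / 20 : ℝ)⌋₊ with hP
  have s1 : ∑ n ∈ Icc 1 (2 * x), c n * gk x T n ≤ B * (x : ℝ) ^ (η / 8) *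
      ∑ p ∈ P, ∑ n ∈ Icc 1 (2 * x), (if p ^ 2 ∣ n then 1 else 0) * gk x T n := by
    rw [sum_comm, mul_sum]
    refine sum_le_sum fun n hn => ?_
    rw [← sum_mul, ← mul_assoc]
    refine mul_le_mul_of_nonneg_right ?_ (gk_nonneg _ _ _)
    have h0 : ∀ p ∈ P, (0 : ℝ) ≤ if p ^ 2 ∣ n then 1 else 0 := fun p _ => by
      split_ifs <;> norm_num
    rcases le_or_gt (c n) 0 with h | h
    · exact h.trans (mul_nonneg (by positivity) (sum_nonneg h0))
    · obtain ⟨p, -, p1, p2, p3⟩ := hp n h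
      have := single_le_sum h0 (a := p)
        (mem_Ioc.2 ⟨(Nat.floor_lt (by positivity)).2 p1, Nat.le_floor p2⟩)
      simp only [if_pos p3] at this
      exact (hcB n hn).trans (le_mul_of_one_le_right (by positivity) this)
  have f1 : (1 : ℝ) ≤ ⌊(x : ℝ) ^ η⌋₊ := by exact_mod_cast Nat.le_floor (by simpa using hy1)
  have f2 : (x : ℝ) ^ η < ⌊(x : ℝ) ^ η⌋₊ + 1 := Nat.lt_floor_add_one _
  have f0 : ⌊(x : ℝ) ^ η⌋₊ ≠ 0 := by
    intro h
    rw [h] at f1
    norm_num at f1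
  have s2 : ∑ p ∈ P, ∑ n ∈ Icc 1 (2 * x), (if p ^ 2 ∣ n then 1 else 0) * gk x T n ≤
      ∑ p ∈ P, (Gam x T * ((p : ℝ) ^ 2)⁻¹ + 2) := by
    refine sum_le_sum fun p hp => ?_
    have hp0 : 0 < p ^ 2 := pow_pos (by rw [mem_Ioc] at hp; omega) 2
    have := (abs_le.1 (sum_gk_mul x (by linarith : 0 ≤ T) hp0)).2
    rw [ker_dvd x T hp0, div_eq_mul_inv] at this
    push_cast at this
    linarith
  have s3 : ∑ p ∈ P, ((p : ℝ) ^ 2)⁻¹ ≤ 2 / (x : ℝ) ^ η := by
    have t1 : ((⌊(x : ℝ) ^ η⌋₊ : ℕ) : ℝ)⁻¹ ≤ 2 / (x : ℝ) ^ η := by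
      rw [inv_eq_one_div, div_le_div_iff₀ (by linarith) (by linarith)]
      linarith
    rcases le_total ⌊(x : ℝ) ^ η⌋₊ ⌊(x : ℝ) ^ (9 / 20 : ℝ)⌋₊ with h | h
    · refine (sum_Ioc_inv_sq_le_sub f0 h).trans (le_trans ?_ t1)
      exact sub_le_self _ (by positivity)
    · rw [hP, Ioc_eq_empty (not_lt.2 h), sum_empty]
      positivity
  have s4 : (#P : ℝ) ≤ 8 * Gam x T / (x : ℝ) ^ η := by
    have t1 : (#P : ℝ) ≤ (x : ℝ) ^ (9 / 20 : ℝ) := by
      refine le_trans ?_ (Nat.floor_le (by positivity))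
      rw [hP, Nat.card_Ioc]
      exact_mod_cast Nat.sub_le _ _
    have t2 : (x : ℝ) ^ (9 / 20 : ℝ) * (x : ℝ) ^ η ≤ √(x : ℝ) := by
      rw [← Real.rpow_add hx0, Real.sqrt_eq_rpow]
      exact Real.rpow_le_rpow_of_exponent_le hx1 (by linarith)
    rw [le_div_iff₀ (by linarith)]
    nlinarith
  rw [sum_add_distrib, ← mul_sum, sum_const, nsmul_eq_mul] at s2
  have hG0 : 0 ≤ Gam x T := le_trans (by positivity) hG
  have s5 : Gam x T * ∑ p ∈ P, ((p : ℝ) ^ 2)⁻¹ + #P * 2 ≤ 18 * Gam x T / (x : ℝ) ^ η := by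
    have := mul_le_mul_of_nonneg_left s3 hG0
    simp only [div_eq_mul_inv] at this s4 ⊢
    linarith
  have e1 : (x : ℝ) ^ η = ((x : ℝ) ^ (η / 8)) ^ 8 := by
    rw [← Real.rpow_mul_natCast hx0.le]
    congr 1
    push_cast
    ring
  have e2 : (x : ℝ) ^ (-(η / 2)) = (((x : ℝ) ^ (η / 8)) ^ 4)⁻¹ := by
    rw [Real.rpow_neg hx0.le, ← Real.rpow_mul_natCast hx0.le]
    congr 2
    push_cast
    ring
  refine s1.trans ((mul_le_mul_of_nonneg_left (s2.trans s5) (by positivity)).trans ?_)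
  rw [e1, e2]
  generalize (x : ℝ) ^ (η / 8) = u at *
  have hu3 : 18 * B ≤ u ^ 3 := hu.trans (le_self_pow₀ hu1 (by norm_num))
  have e3 : B * u * (18 * Gam x T / u ^ 8) = Gam x T * (u ^ 4)⁻¹ * (18 * B / u ^ 3) := by
    field_simp
  rw [e3]
  exact mul_le_of_le_one_right (by positivity) ((div_le_one (by positivity)).2 hu3)

/-- second order decay of the Fourier transform -/
theorem fourier_gk : ∀ᶠ x : ℕ in atTop, ∀ T : ℝ, Real.log x ^ 2 ≤ T → T ≤ x → ∀ α : ℝ,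
    ‖∑ n ∈ Icc 1 (2 * x), (gk x T n : ℂ) * Complex.exp (2 * Real.pi * Complex.I * (α * n))‖ *
      Real.sin (Real.pi * α) ^ 2 ≤ 40 * T / x :=
  fourier_gk'

end Pool.Agent.Work.MP_82fd4a_nt
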