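import Pool.Agent.Work.MP_82fd4a_nt.Defs

/-! Second order decay of the Fourier transform of the localising weight. -/

set_option autoImplicit false
open Filter Topology Finset

namespace Pool.Agent.Work.MP_82fd4a_nt

lemma kf_ident {R : Type*} [CommRing R] (g : ℕ → R) (ω : R) (M : ℕ) :
    (1 - ω) ^ 2 * ∑ n ∈ range M, g n * ω ^ n =
      ∑ n ∈ range M, (g (n + 2) - 2 * g (n + 1) + g n) * ω ^ (n + 2) + g 0 + (g 1 - 2 * g 0) * ω
        - g M * ω ^ M - (g (M + 1) - 2 * g M) * ω ^ (M + 1) := by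
  induction M with
  | zero => simp
  | succ M ih =>
    rw [sum_range_succ, sum_range_succ, mul_add, ih]
    ring

lemma kf_norm_one_sub (α : ℝ) :
    ‖1 - Complex.exp (2 * Real.pi * Complex.I * α)‖ ^ 2 = 4 * Real.sin (Real.pi * α) ^ 2 := by
  have h : 2 * Real.pi * Complex.I * α = Complex.I * ((2 * Real.pi * α : ℝ) : ℂ) := by
    push_cast; ring
  rw [h, norm_sub_rev, Complex.norm_exp_I_mul_ofReal_sub_one, Real.norm_eq_abs, sq_abs]
  rw [show 2 * Real.pi * α / 2 = Real.pi * α by ring]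
  ring

lemma kf_left {x n : ℕ} {T : ℝ} (h1 : x < 2 * n) (h2 : n ≤ x) :
    gk x T n = ((n : ℝ) / x) ^ T := by
  have hn : (0 : ℝ) < n := by exact_mod_cast (by omega : 0 < n)
  have hx : (0 : ℝ) < x := by exact_mod_cast (by omega : 0 < x)
  have hl : Real.log n ≤ Real.log x := Real.log_le_log hn (by exact_mod_cast h2)
  unfold gk
  rw [if_pos ⟨h1, by omega⟩, abs_of_nonpos (by linarith), Real.rpow_def_of_pos (div_pos hn hx),
    Real.log_div hn.ne' hx.ne']
  congr 1
  ring

lemma kf_right {x n : ℕ} {T : ℝ} (hx : 0 < x) (h1 : x ≤ n) (h2 : n ≤ 2 * x) :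
    gk x T n = Real.exp (-(T * (Real.log n - Real.log x))) := by
  have hx' : (0 : ℝ) < x := by exact_mod_cast hx
  have hl : Real.log x ≤ Real.log n := Real.log_le_log hx' (by exact_mod_cast h1)
  unfold gk
  rw [if_pos ⟨by omega, h2⟩, abs_of_nonneg (by linarith)]

lemma kf_conv_left {x n : ℕ} {T : ℝ} (hT : 1 ≤ T) (h1 : x < 2 * n) (h2 : n + 2 ≤ x) :
    2 * gk x T (n + 1) ≤ gk x T (n + 2) + gk x T n := by
  rw [kf_left (n := n + 1) (by omega) (by omega), kf_left (n := n + 2) (by omega) h2,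
    kf_left h1 (by omega)]
  have hx : (0 : ℝ) < x := by exact_mod_cast (by omega : 0 < x)
  have h := (convexOn_rpow hT).2
    (Set.mem_Ici.2 (by positivity : (0 : ℝ) ≤ ((n + 2 : ℕ) : ℝ) / x))
    (Set.mem_Ici.2 (by positivity : (0 : ℝ) ≤ (n : ℝ) / x))
    (by norm_num : (0 : ℝ) ≤ 1 / 2) (by norm_num : (0 : ℝ) ≤ 1 / 2) (by norm_num)
  simp only [smul_eq_mul] at h
  have e : 1 / 2 * (((n + 2 : ℕ) : ℝ) / x) + 1 / 2 * ((n : ℝ) / x) = ((n + 1 : ℕ) : ℝ) / x := by
    push_cast; ring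
  rw [e] at h
  linarith

lemma kf_conv_right {x n : ℕ} {T : ℝ} (hT : 0 ≤ T) (hx : 0 < x) (h1 : x ≤ n)
    (h2 : n + 2 ≤ 2 * x) : 2 * gk x T (n + 1) ≤ gk x T (n + 2) + gk x T n := by
  rw [kf_right (n := n + 1) hx (by omega) (by omega), kf_right (n := n + 2) hx (by omega) h2,
    kf_right hx h1 (by omega)]
  have hn : (0 : ℝ) < n := by exact_mod_cast (by omega : 0 < n)
  have h := convexOn_exp.2 (Set.mem_univ (-(T * (Real.log ((n + 2 : ℕ) : ℝ) - Real.log x))))
    (Set.mem_univ (-(T * (Real.log n - Real.log x))))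
    (by norm_num : (0 : ℝ) ≤ 1 / 2) (by norm_num : (0 : ℝ) ≤ 1 / 2) (by norm_num)
  simp only [smul_eq_mul] at h
  have hl : Real.log ((n + 2 : ℕ) : ℝ) + Real.log n ≤ 2 * Real.log ((n + 1 : ℕ) : ℝ) := by
    rw [← Real.log_mul (by positivity) hn.ne']
    have : 2 * Real.log ((n + 1 : ℕ) : ℝ) = Real.log (((n + 1 : ℕ) : ℝ) ^ 2) := by
      rw [Real.log_pow]; norm_num
    rw [this]
    apply Real.log_le_log (by positivity)
    push_cast
    nlinarith
  have h3 : Real.exp (-(T * (Real.log ((n + 1 : ℕ) : ℝ) - Real.log x))) ≤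
      Real.exp (1 / 2 * -(T * (Real.log ((n + 2 : ℕ) : ℝ) - Real.log x)) +
        1 / 2 * -(T * (Real.log n - Real.log x))) := by
    apply Real.exp_le_exp.2
    nlinarith [mul_le_mul_of_nonneg_left hl hT]
  linarith

lemma kf_small {x n : ℕ} {T : ℝ} (hx : 0 < x) (hL : 3 ≤ Real.log x) (hT : Real.log x ^ 2 ≤ T)
    (h : 1 / 3 ≤ |Real.log n - Real.log x|) : gk x T n ≤ T / x := by
  have hx' : (0 : ℝ) < x := by exact_mod_cast hx
  have hT1 : 1 ≤ T := by nlinarith
  unfold gk
  split_ifs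
  · have h1 : Real.log x ≤ T * |Real.log n - Real.log x| := by
      have : T * (1 / 3) ≤ T * |Real.log n - Real.log x| :=
        mul_le_mul_of_nonneg_left h (by linarith)
      nlinarith
    calc Real.exp (-(T * |Real.log n - Real.log x|)) ≤ Real.exp (-Real.log x) :=
          Real.exp_le_exp.2 (by linarith)
      _ = 1 / x := by rw [Real.exp_neg, Real.exp_log hx', one_div]
      _ ≤ T / x := by gcongr
  · positivity

lemma kf_log_ge {a b : ℝ} (ha : 0 < a) (h : 3 * a ≤ 2 * b) : 1 / 3 ≤ Real.log b - Real.log a := by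
  have hb : 0 < b := by linarith
  have h1 := Real.log_le_sub_one_of_pos (div_pos ha hb)
  rw [Real.log_div ha.ne' hb.ne'] at h1
  have h2 : a / b ≤ 2 / 3 := by rw [div_le_div_iff₀ hb (by norm_num)]; linarith
  linarith

lemma kf_centre {n : ℕ} {T : ℝ} (hn : 2 ≤ n) (hT : 0 ≤ T) :
    2 * gk (n + 1) T (n + 1) - 3 * (T / ((n + 1 : ℕ) : ℝ)) ≤ gk (n + 1) T (n + 2) + gk (n + 1) T n := by
  have hn' : (2 : ℝ) ≤ n := by exact_mod_cast hn
  have h0 : gk (n + 1) T (n + 1) ≤ 1 := gk_le_one _ hT _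
  have key : ∀ m : ℕ, n + 1 < 2 * m → m ≤ 2 * (n + 1) →
      1 - T * |Real.log m - Real.log ((n + 1 : ℕ) : ℝ)| ≤ gk (n + 1) T m := by
    intro m h1 h2
    unfold gk
    rw [if_pos ⟨h1, h2⟩]
    linarith [Real.add_one_le_exp (-(T * |Real.log m - Real.log ((n + 1 : ℕ) : ℝ)|))]
  have h1 := key (n + 2) (by omega) (by omega)
  have h2 := key n (by omega) (by omega)
  have e1 : |Real.log ((n + 2 : ℕ) : ℝ) - Real.log ((n + 1 : ℕ) : ℝ)| ≤ 1 / ((n + 1 : ℕ) : ℝ) := by
    rw [abs_of_nonneg (sub_nonneg.2 (Real.log_le_log (by positivity) (by push_cast; linarith))),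
      ← Real.log_div (by positivity) (by positivity)]
    refine (Real.log_le_sub_one_of_pos (by positivity)).trans (le_of_eq ?_)
    push_cast
    field_simp
    ring
  have e2 : |Real.log (n : ℝ) - Real.log ((n + 1 : ℕ) : ℝ)| ≤ 2 * (1 / ((n + 1 : ℕ) : ℝ)) := by
    rw [abs_sub_comm,
      abs_of_nonneg (sub_nonneg.2 (Real.log_le_log (by positivity) (by push_cast; linarith))),
      ← Real.log_div (by positivity) (by positivity)]
    refine (Real.log_le_sub_one_of_pos (by positivity)).trans ?_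
    push_cast
    rw [div_sub_one (by positivity), mul_one_div, div_le_div_iff₀ (by positivity) (by positivity)]
    linarith
  have f1 := mul_le_mul_of_nonneg_left e1 hT
  have f2 := mul_le_mul_of_nonneg_left e2 hT
  have e3 : T / ((n + 1 : ℕ) : ℝ) = T * (1 / ((n + 1 : ℕ) : ℝ)) := by ring
  rw [e3]
  linarith

lemma kf_lower {x : ℕ} {T : ℝ} (hx : 6 ≤ x) (hL : 3 ≤ Real.log x) (hT : Real.log x ^ 2 ≤ T)
    (n : ℕ) :
    -((if n = x - 1 then 3 * (T / x) else 0) + (if n = x / 2 then 2 * (T / x) else 0) +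
      (if n = 2 * x - 1 then 2 * (T / x) else 0)) ≤
        gk x T (n + 2) - 2 * gk x T (n + 1) + gk x T n := by
  have hx' : (0 : ℝ) < x := by exact_mod_cast (by omega : 0 < x)
  have hT1 : 1 ≤ T := by nlinarith
  have hq : 0 ≤ T / x := by positivity
  have a1 : 0 ≤ (if n = x - 1 then 3 * (T / x) else 0) := by split_ifs <;> positivity
  have a2 : 0 ≤ (if n = x / 2 then 2 * (T / x) else 0) := by split_ifs <;> positivity
  have a3 : 0 ≤ (if n = 2 * x - 1 then 2 * (T / x) else 0) := by split_ifs <;> positivity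
  have g2 := gk_nonneg x T (n + 2)
  have g0 := gk_nonneg x T n
  by_cases h0 : gk x T (n + 1) = 0
  · rw [h0]; linarith
  obtain ⟨s1, s2⟩ := gk_ne_zero h0
  by_cases c1 : n = x / 2
  · have : gk x T (n + 1) ≤ T / x := by
      refine kf_small (by omega) hL hT ?_
      rw [abs_sub_comm]
      refine le_trans (kf_log_ge (by positivity) ?_) (le_abs_self _)
      exact_mod_cast (by omega : 3 * (n + 1) ≤ 2 * x)
    rw [if_pos c1]
    linarith
  by_cases c2 : n = 2 * x - 1
  · have : gk x T (n + 1) ≤ T / x := by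
      refine kf_small (by omega) hL hT ?_
      refine le_trans (kf_log_ge hx' ?_) (le_abs_self _)
      exact_mod_cast (by omega : 3 * x ≤ 2 * (n + 1))
    rw [if_pos c2]
    linarith
  by_cases c3 : n = x - 1
  · obtain rfl : x = n + 1 := by omega
    have := kf_centre (n := n) (T := T) (by omega) (by linarith)
    rw [if_pos c3]
    linarith
  rcases lt_or_ge n x with c4 | c4
  · have := kf_conv_left (x := x) (n := n) hT1 (by omega) (by omega)
    linarith
  · have := kf_conv_right (x := x) (n := n) (T := T) (by linarith) (by omega) c4 (by omega)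
    linarith

lemma kf_ite_sum (M m : ℕ) {c : ℝ} (hc : 0 ≤ c) :
    ∑ n ∈ range M, (if n = m then c else 0) ≤ c := by
  rw [sum_ite_eq']
  split_ifs
  · exact le_rfl
  · exact hc

lemma kf_tv {x : ℕ} {T : ℝ} (hx : 6 ≤ x) (hL : 3 ≤ Real.log x) (hT : Real.log x ^ 2 ≤ T) :
    ∑ n ∈ range (2 * x + 1), |gk x T (n + 2) - 2 * gk x T (n + 1) + gk x T n| ≤ 14 * (T / x) := by
  have hx' : (0 : ℝ) < x := by exact_mod_cast (by omega : 0 < x)
  have hT1 : 1 ≤ T := by nlinarith
  have hq : 0 ≤ T / x := by positivity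
  have z : ∀ n, 2 * n ≤ x ∨ 2 * x < n → gk x T n = 0 := by
    intro n hn
    by_contra h
    have := gk_ne_zero h
    omega
  have h0 := kf_ident (gk x T) 1 (2 * x + 1)
  rw [z 0 (by omega), z 1 (by omega), z (2 * x + 1) (by omega), z (2 * x + 1 + 1) (by omega)] at h0
  simp only [one_pow, mul_one] at h0
  have h1 : ∑ n ∈ range (2 * x + 1), (gk x T (n + 2) - 2 * gk x T (n + 1) + gk x T n) = 0 := by
    linarith
  calc ∑ n ∈ range (2 * x + 1), |gk x T (n + 2) - 2 * gk x T (n + 1) + gk x T n|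
      ≤ ∑ n ∈ range (2 * x + 1), ((gk x T (n + 2) - 2 * gk x T (n + 1) + gk x T n) +
        2 * ((if n = x - 1 then 3 * (T / x) else 0) + (if n = x / 2 then 2 * (T / x) else 0) +
          (if n = 2 * x - 1 then 2 * (T / x) else 0))) := by
        refine sum_le_sum fun n _ => ?_
        have := kf_lower hx hL hT n
        have a1 : 0 ≤ (if n = x - 1 then 3 * (T / x) else 0) := by split_ifs <;> positivity
        have a2 : 0 ≤ (if n = x / 2 then 2 * (T / x) else 0) := by split_ifs <;> positivity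
        have a3 : 0 ≤ (if n = 2 * x - 1 then 2 * (T / x) else 0) := by split_ifs <;> positivity
        rw [abs_le]
        constructor <;> linarith
    _ ≤ 14 * (T / x) := by
        rw [sum_add_distrib, h1, ← mul_sum, sum_add_distrib, sum_add_distrib]
        have b1 := kf_ite_sum (2 * x + 1) (x - 1) (c := 3 * (T / x)) (by positivity)
        have b2 := kf_ite_sum (2 * x + 1) (x / 2) (c := 2 * (T / x)) (by positivity)
        have b3 := kf_ite_sum (2 * x + 1) (2 * x - 1) (c := 2 * (T / x)) (by positivity)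
        linarith

/-- second order decay of the Fourier transform -/
theorem fourier_gk' : ∀ᶠ x : ℕ in atTop, ∀ T : ℝ, Real.log x ^ 2 ≤ T → T ≤ x → ∀ α : ℝ,
    ‖∑ n ∈ Icc 1 (2 * x), (gk x T n : ℂ) * Complex.exp (2 * Real.pi * Complex.I * (α * n))‖ *
      Real.sin (Real.pi * α) ^ 2 ≤ 40 * T / x := by
  have hlog : ∀ᶠ x : ℕ in atTop, 3 ≤ Real.log x :=
    (Real.tendsto_log_atTop.comp tendsto_natCast_atTop_atTop).eventually_ge_atTop 3
  filter_upwards [hlog, eventually_ge_atTop 6] with x hL hx T hT _ α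
  have hx' : (0 : ℝ) < x := by exact_mod_cast (by omega : 0 < x)
  have hT1 : 1 ≤ T := by nlinarith
  have hq : 0 ≤ T / x := by positivity
  have z : ∀ n, 2 * n ≤ x ∨ 2 * x < n → gk x T n = 0 := by
    intro n hn
    by_contra h
    have := gk_ne_zero h
    omega
  set ω : ℂ := Complex.exp (2 * Real.pi * Complex.I * α) with hω
  have hω1 : ‖ω‖ = 1 := by
    have h : 2 * Real.pi * Complex.I * α = ((2 * Real.pi * α : ℝ) : ℂ) * Complex.I := by
      push_cast; ring
    rw [hω, h, Complex.norm_exp_ofReal_mul_I]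
  have hS : ∑ n ∈ Icc 1 (2 * x), (gk x T n : ℂ) * Complex.exp (2 * Real.pi * Complex.I * (α * n)) =
      ∑ n ∈ range (2 * x + 1), (gk x T n : ℂ) * ω ^ n := by
    rw [range_eq_Ico, sum_eq_sum_Ico_succ_bot (by omega), z 0 (by omega)]
    simp only [Complex.ofReal_zero, zero_mul, zero_add]
    refine sum_congr rfl fun n _ => ?_
    rw [hω, ← Complex.exp_nat_mul]
    congr 2
    ring
  have h0 := kf_ident (fun n => (gk x T n : ℂ)) ω (2 * x + 1)
  simp only [z 0 (by omega), z 1 (by omega), z (2 * x + 1) (by omega), z (2 * x + 1 + 1) (by omega),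
    Complex.ofReal_zero, mul_zero, sub_zero, zero_mul, add_zero] at h0
  have h1 : ‖(1 - ω) ^ 2 * ∑ n ∈ range (2 * x + 1), (gk x T n : ℂ) * ω ^ n‖ ≤ 14 * (T / x) := by
    rw [h0]
    refine (norm_sum_le _ _).trans (le_trans (le_of_eq ?_) (kf_tv hx hL hT))
    refine sum_congr rfl fun n _ => ?_
    rw [norm_mul, norm_pow, hω1, one_pow, mul_one, ← Real.norm_eq_abs, ← Complex.norm_real]
    push_cast
    rfl
  rw [norm_mul, norm_pow, hω, kf_norm_one_sub] at h1
  rw [hS, mul_div_assoc]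
  linarith

end Pool.Agent.Work.MP_82fd4a_nt
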