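import Pool.Agent.Work.MP_82fd4a_nt.Conv
import Pool.Agent.Work.MP_82fd4a_nt.Mert

/-! The law of the rounded logarithm of a random prime. -/

set_option autoImplicit false
open Filter Topology Finset

namespace Pool.Agent.Work.MP_82fd4a_nt

lemma law_mem_Pr {lo hi : ℝ} {p : ℕ} :
    p ∈ Pr lo hi ↔ p.Prime ∧ lo < Real.log p ∧ Real.log p ≤ hi := by
  simp only [Pr, mem_filter, mem_Icc]
  constructor
  · rintro ⟨⟨-, h2⟩, hp, h3⟩
    refine ⟨hp, h3, ?_⟩
    have hp0 : (0 : ℝ) < p := by exact_mod_cast hp.pos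
    rw [Real.log_le_iff_le_exp hp0]
    exact (Nat.le_floor_iff (Real.exp_pos _).le).1 h2
  · rintro ⟨hp, h3, h2⟩
    have hp0 : (0 : ℝ) < p := by exact_mod_cast hp.pos
    rw [Real.log_le_iff_le_exp hp0] at h2
    exact ⟨⟨hp.pos, Nat.le_floor h2⟩, hp, h3⟩

/-- the logarithm of the clamped variable -/
noncomputable def lawL (lo hi t : ℝ) : ℝ := Real.log (min (max t lo) hi)

/-- the cumulative mass -/
noncomputable def lawG (lo hi t : ℝ) : ℝ :=
  ∑ p ∈ (Pr lo hi).filter fun p : ℕ => Real.log p < t, (p : ℝ)⁻¹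

/-- the mass of a cell -/
noncomputable def lawM (lo hi δ : ℝ) (j : ℕ) : ℝ :=
  ∑ p ∈ (Pr lo hi).filter fun p : ℕ => ⌊Real.log p / δ⌋₊ = j, (p : ℝ)⁻¹

lemma law_log_incr {lo hi u v : ℝ} (h0 : 0 < lo) (hh : lo ≤ hi) (hu : lo ≤ u) (huv : u ≤ v) :
    0 ≤ Real.log (min v hi) - Real.log (min u hi) ∧
    Real.log (min v hi) - Real.log (min u hi) ≤ (v - u) / lo := by
  have hx : lo ≤ min u hi := le_min hu hh
  have hxy : min u hi ≤ min v hi := min_le_min_right _ huv
  have hx0 : 0 < min u hi := h0.trans_le hx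
  have hy0 : 0 < min v hi := hx0.trans_le hxy
  refine ⟨sub_nonneg.2 (Real.log_le_log hx0 hxy), ?_⟩
  rw [← Real.log_div hy0.ne' hx0.ne']
  refine (Real.log_le_sub_one_of_pos (div_pos hy0 hx0)).trans ?_
  rw [div_sub_one hx0.ne']
  have hd : min v hi - min u hi ≤ v - u := by
    rcases le_total u hi with h | h
    · rw [min_eq_left h]
      linarith [min_le_left v hi]
    · rw [min_eq_right h, min_eq_right (h.trans huv)]
      linarith
  exact div_le_div₀ (sub_nonneg.2 huv) hd h0 hx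

lemma lawL_incr {lo hi s t : ℝ} (h0 : 0 < lo) (hh : lo ≤ hi) (hst : s ≤ t) :
    0 ≤ lawL lo hi t - lawL lo hi s ∧
    lawL lo hi t - lawL lo hi s ≤ (max t lo - max s lo) / lo :=
  law_log_incr h0 hh (le_max_right _ _) (max_le_max_right _ hst)

lemma law_max_mid (lo x δ : ℝ) : 2 * max (x + δ) lo ≤ max x lo + max (x + δ + δ) lo := by
  rcases le_total (x + δ) lo with h | h
  · rw [max_eq_right h]
    linarith [le_max_right x lo, le_max_right (x + δ + δ) lo]
  · rw [max_eq_left h]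
    linarith [le_max_left x lo, le_max_left (x + δ + δ) lo]

lemma lawL_mid {lo hi : ℝ} (h0 : 0 < lo) (hh : lo ≤ hi) (x δ : ℝ) :
    2 * (max (x + δ) lo / lo - lawL lo hi (x + δ)) ≤
      (max x lo / lo - lawL lo hi x) + (max (x + δ + δ) lo / lo - lawL lo hi (x + δ + δ)) := by
  have hm := law_max_mid lo x δ
  unfold lawL
  set u0 := max x lo
  set u1 := max (x + δ) lo
  set u2 := max (x + δ + δ) lo
  have a0 : lo ≤ u0 := le_max_right _ _
  have a1 : lo ≤ u1 := le_max_right _ _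
  have a2 : lo ≤ u2 := le_max_right _ _
  have h1 := (law_log_incr (v := (u0 + u2) / 2) h0 hh a1 (by linarith)).2
  have p0 : 0 < min u0 hi := h0.trans_le (le_min a0 hh)
  have p2 : 0 < min u2 hi := h0.trans_le (le_min a2 hh)
  have hz : (min u0 hi + min u2 hi) / 2 ≤ min ((u0 + u2) / 2) hi :=
    le_min (by linarith [min_le_left u0 hi, min_le_left u2 hi])
      (by linarith [min_le_right u0 hi, min_le_right u2 hi])
  have h2 : Real.log (min u0 hi) + Real.log (min u2 hi) ≤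
      2 * Real.log (min ((u0 + u2) / 2) hi) := by
    rw [← Real.log_mul p0.ne' p2.ne', two_mul, ← Real.log_mul (by linarith) (by linarith)]
    refine Real.log_le_log (mul_pos p0 p2) ?_
    nlinarith [sq_nonneg (min u0 hi - min u2 hi)]
  have e : ((u0 + u2) / 2 - u1) / lo = (u0 / lo + u2 / lo) / 2 - u1 / lo := by ring
  rw [e] at h1
  linarith

lemma law_model_var {lo hi δ : ℝ} (h0 : 0 < lo) (hh : lo ≤ hi) (hδ : 0 ≤ δ) (N : ℕ) :
    ∑ j ∈ range N, |(lawL lo hi ((j + 1 : ℕ) * δ + δ) - lawL lo hi ((j + 1 : ℕ) * δ)) -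
      (lawL lo hi (j * δ + δ) - lawL lo hi (j * δ))| ≤ 2 * (δ / lo) := by
  set a : ℕ → ℝ := fun j => (max (j * δ + δ) lo - max (j * δ) lo) / lo with ha
  set b : ℕ → ℝ := fun j => a j - (lawL lo hi (j * δ + δ) - lawL lo hi (j * δ)) with hb
  have hmax : ∀ x : ℝ, 0 ≤ max (x + δ) lo - max x lo ∧ max (x + δ) lo - max x lo ≤ δ := by
    intro x
    refine ⟨sub_nonneg.2 (max_le_max_right _ (by linarith)), ?_⟩
    rw [sub_le_iff_le_add, max_le_iff]
    exact ⟨by linarith [le_max_left x lo], by linarith [le_max_right x lo]⟩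
  have a0 : ∀ j, 0 ≤ a j := fun j => div_nonneg (hmax _).1 h0.le
  have a1 : ∀ j, a j ≤ δ / lo := fun j => div_le_div_of_nonneg_right (hmax _).2 h0.le
  have b0 : ∀ j, 0 ≤ b j := fun j => sub_nonneg.2 (lawL_incr h0 hh (by linarith)).2
  have b1 : ∀ j, b j ≤ δ / lo := fun j =>
    (sub_le_self _ (lawL_incr h0 hh (by linarith)).1).trans (a1 j)
  have e : ∀ j : ℕ, ((j + 1 : ℕ) : ℝ) * δ = j * δ + δ := fun j => by push_cast; ring
  have a2 : ∀ j, a j ≤ a (j + 1) := fun j => by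
    simp only [ha, e]
    exact div_le_div_of_nonneg_right (by linarith [law_max_mid lo (j * δ) δ]) h0.le
  have b2 : ∀ j, b j ≤ b (j + 1) := fun j => by
    simp only [hb, ha, e, sub_div]
    linarith [lawL_mid h0 hh (j * δ) δ]
  calc _ ≤ ∑ j ∈ range N, ((a (j + 1) - a j) + (b (j + 1) - b j)) := by
        refine sum_le_sum fun j _ => ?_
        have h1 := a2 j
        have h2 := b2 j
        have h3 : (lawL lo hi ((j + 1 : ℕ) * δ + δ) - lawL lo hi ((j + 1 : ℕ) * δ)) -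
            (lawL lo hi (j * δ + δ) - lawL lo hi (j * δ)) =
            (a (j + 1) - a j) - (b (j + 1) - b j) := by
          simp only [hb]
          ring
        rw [h3, abs_le]
        constructor <;> linarith
    _ = (a N - a 0) + (b N - b 0) := by rw [sum_add_distrib, sum_range_sub, sum_range_sub]
    _ ≤ _ := by linarith [a0 0, a1 N, b0 0, b1 N]

lemma lawG_approx {lo hi E : ℝ} (h0 : 0 < lo) (hh : lo ≤ hi)
    (hM : ∀ u, lo ≤ u → |∑ p ∈ Pr lo u, (p : ℝ)⁻¹ - Real.log (u / lo)| ≤ E)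
    (hE : Real.exp (-lo) ≤ E) (t : ℝ) :
    |lawG lo hi t - (lawL lo hi t - Real.log lo)| ≤ 2 * E := by
  have hE0 : 0 ≤ E := (Real.exp_pos _).le.trans hE
  have hu : lo ≤ min (max t lo) hi := le_min (le_max_right _ _) hh
  have h1 := hM _ hu
  rw [Real.log_div (h0.trans_le hu).ne' h0.ne'] at h1
  have h2 : (Pr lo hi).filter (fun p : ℕ => Real.log p < t) =
      (Pr lo (min (max t lo) hi)).filter fun p : ℕ => ¬ Real.log p = t := by
    ext p
    simp only [mem_filter, law_mem_Pr, le_min_iff, le_max_iff]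
    constructor
    · rintro ⟨⟨hp, a, b⟩, c⟩
      exact ⟨⟨hp, a, Or.inl c.le, b⟩, c.ne⟩
    · rintro ⟨⟨hp, a, b, c⟩, d⟩
      exact ⟨⟨hp, a, c⟩, lt_of_le_of_ne (b.resolve_right (not_le.2 a)) d⟩
  have h3 := sum_filter_add_sum_filter_not (Pr lo (min (max t lo) hi))
    (fun p : ℕ => Real.log p = t) fun p => (p : ℝ)⁻¹
  have h4 : ∑ p ∈ (Pr lo (min (max t lo) hi)).filter fun p : ℕ => Real.log p = t,
      (p : ℝ)⁻¹ ≤ E := by
    have hc : ((Pr lo (min (max t lo) hi)).filter fun p : ℕ => Real.log p = t).card ≤ 1 := by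
      refine card_le_one.2 fun p hp q hq => ?_
      rw [mem_filter, law_mem_Pr] at hp hq
      have hp0 : (0 : ℝ) < p := by exact_mod_cast hp.1.1.pos
      have hq0 : (0 : ℝ) < q := by exact_mod_cast hq.1.1.pos
      exact_mod_cast Real.log_injOn_pos hp0 hq0 (hp.2.trans hq.2.symm)
    refine (sum_le_card_nsmul _ _ E fun p hp => ?_).trans ?_
    · rw [mem_filter, law_mem_Pr] at hp
      have hp0 : (0 : ℝ) < p := by exact_mod_cast hp.1.1.pos
      refine le_trans ?_ hE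
      rw [Real.exp_neg]
      exact inv_anti₀ (Real.exp_pos _) ((Real.lt_log_iff_exp_lt hp0).1 hp.1.2.1).le
    · rw [nsmul_eq_mul]
      exact mul_le_of_le_one_left hE0 (by exact_mod_cast hc)
  have h5 : 0 ≤ ∑ p ∈ (Pr lo (min (max t lo) hi)).filter fun p : ℕ => Real.log p = t,
      (p : ℝ)⁻¹ :=
    sum_nonneg fun _ _ => by positivity
  rw [lawG, h2, lawL]
  rw [abs_le] at h1 ⊢
  constructor <;> linarith [h1.1, h1.2]

lemma lawM_eq {lo hi δ : ℝ} (hδ : 0 < δ) (j : ℕ) :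
    lawM lo hi δ j = lawG lo hi (j * δ + δ) - lawG lo hi (j * δ) := by
  rw [lawM, lawG, lawG, sum_filter, sum_filter, sum_filter, ← sum_sub_distrib]
  refine sum_congr rfl fun p _ => ?_
  have hl : 0 ≤ Real.log p := Real.log_natCast_nonneg p
  have key : ⌊Real.log p / δ⌋₊ = j ↔ j * δ ≤ Real.log p ∧ Real.log p < j * δ + δ := by
    rw [Nat.floor_eq_iff (div_nonneg hl hδ.le), le_div_iff₀ hδ, div_lt_iff₀ hδ, add_mul, one_mul]
  simp only [key]
  by_cases h1 : Real.log p < j * δ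
  · have h2 : Real.log p < j * δ + δ := by linarith
    simp [h1, h2]
  · by_cases h2 : Real.log p < j * δ + δ
    · simp [h1, h2, not_lt.1 h1]
    · simp [h1, h2]

lemma lawM_zero {lo hi δ : ℝ} (hδ : 0 < δ) {j : ℕ} (hj : hi / δ < j ∨ j * δ + δ ≤ lo) :
    lawM lo hi δ j = 0 := by
  refine sum_eq_zero fun p hp => ?_
  rw [mem_filter, law_mem_Pr] at hp
  obtain ⟨⟨-, a, b⟩, c⟩ := hp
  have hl : 0 ≤ Real.log p := Real.log_natCast_nonneg p
  rw [Nat.floor_eq_iff (div_nonneg hl hδ.le), le_div_iff₀ hδ, div_lt_iff₀ hδ, add_mul,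
    one_mul] at c
  exfalso
  rcases hj with h | h
  · rw [div_lt_iff₀ hδ] at h
    linarith [c.1]
  · linarith [c.2]

lemma law_push_eq {lo hi δ : ℝ} (hδ : 0 < δ) {Q : ℕ} [NeZero Q] (hQ : hi / δ < Q) (g : ZMod Q) :
    (law (Pr lo hi)).push (grid Q δ) g = lawM lo hi δ g.val / ∑ p ∈ Pr lo hi, (p : ℝ)⁻¹ := by
  rw [Law.push, lawM, sum_div]
  refine sum_congr (filter_congr fun p hp => ?_) fun _ _ => rfl
  have hp' := law_mem_Pr.1 hp
  have hl : 0 ≤ Real.log p := Real.log_natCast_nonneg p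
  have hlt : ⌊Real.log p / δ⌋₊ < Q := by
    rw [Nat.floor_lt (div_nonneg hl hδ.le)]
    exact (div_le_div_of_nonneg_right hp'.2.2 hδ.le).trans_lt hQ
  constructor
  · rintro rfl
    rw [grid, ZMod.val_cast_of_lt hlt]
  · intro h
    rw [grid, h, ZMod.natCast_zmod_val]

lemma law_sum_zmod {Q : ℕ} [NeZero Q] (φ : ℕ → ℝ) (h : φ 0 = φ Q) :
    ∑ g : ZMod Q, |φ g.val - φ (g - 1).val| = ∑ j ∈ range Q, |φ (j + 1) - φ j| := by
  rw [← Equiv.sum_comp (Equiv.addRight (1 : ZMod Q))]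
  simp only [Equiv.coe_addRight, add_sub_cancel_right]
  have e : ∀ g : ZMod Q, φ (g + 1).val = φ (g.val + 1) := by
    intro g
    have h1 : g + 1 = ((g.val + 1 : ℕ) : ZMod Q) := by simp
    rw [h1, ZMod.val_natCast]
    rcases (Nat.succ_le_of_lt (ZMod.val_lt g)).eq_or_lt with h2 | h2
    · rw [Nat.succ_eq_add_one] at h2
      rw [h2, Nat.mod_self, h]
    · rw [Nat.mod_eq_of_lt h2]
  simp only [e]
  refine sum_bij (fun g _ => g.val) (fun g _ => mem_range.2 (ZMod.val_lt g))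
    (fun a _ b _ hab => ZMod.val_injective Q hab) (fun j hj => ?_) fun _ _ => rfl
  exact ⟨(j : ZMod Q), mem_univ _, ZMod.val_cast_of_lt (mem_range.1 hj)⟩

theorem law_grid {γ : ℝ} (hγ : 0 < γ) : ∀ᶠ Z : ℝ in atTop, ∀ lo hi δ : ℝ, Z ^ γ ≤ lo →
    3 * lo ≤ hi → hi ≤ Z → 1 / Z ≤ δ → δ ≤ 1 → ∀ (Q : ℕ) [NeZero Q], Z / δ + 2 ≤ Q →
    |∑ p ∈ Pr lo hi, (p : ℝ)⁻¹ - Real.log (hi / lo)| ≤ 1 / 20 ∧
    (∀ g, (law (Pr lo hi)).push (grid Q δ) g ≤ 10 * δ / lo) ∧
    ∑ g, |(law (Pr lo hi)).push (grid Q δ) g - (law (Pr lo hi)).push (grid Q δ) (g - 1)|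
      ≤ 10 * δ / lo := by
  obtain ⟨A, hA⟩ := exists_nat_ge (6 / γ)
  rw [div_le_iff₀ hγ] at hA
  have hexp : ∀ᶠ lo : ℝ in atTop, Real.exp (-lo) ≤ 1 / lo ^ A := by
    filter_upwards [(Real.tendsto_pow_mul_exp_neg_atTop_nhds_zero A).eventually
      (gt_mem_nhds one_pos), eventually_gt_atTop 0] with lo h1 h2
    rw [le_div_iff₀ (by positivity), mul_comm]
    exact h1.le
  obtain ⟨l0, hl0⟩ := eventually_atTop.1 (((mertens_pnt A).and hexp).and (eventually_ge_atTop 1))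
  filter_upwards [(tendsto_rpow_atTop hγ).eventually (eventually_ge_atTop l0),
    eventually_ge_atTop 4] with Z hZ0 hZ lo hi δ h1 h2 h3 h4 h5 Q _ hQ
  obtain ⟨⟨hM, hE⟩, hlo⟩ := hl0 lo (hZ0.trans h1)
  have h0 : 0 < lo := by linarith
  have hh : lo ≤ hi := by linarith
  have hZp : 0 < Z := by linarith
  have hδ : 0 < δ := lt_of_lt_of_le (by positivity) h4
  set E : ℝ := 1 / lo ^ A with hEdef
  have hE0 : 0 ≤ E := by positivity
  have hEZ : E ≤ 1 / Z ^ 6 := by
    refine one_div_le_one_div_of_le (by positivity) ?_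
    calc Z ^ 6 = Z ^ ((6 : ℕ) : ℝ) := (Real.rpow_natCast _ _).symm
      _ ≤ Z ^ (γ * A) := Real.rpow_le_rpow_of_exponent_le (by linarith) (by push_cast; linarith)
      _ = (Z ^ γ) ^ A := by rw [Real.rpow_mul hZp.le, Real.rpow_natCast]
      _ ≤ lo ^ A := pow_le_pow_left₀ (by positivity) h1 A
  have hZ2 : 16 ≤ Z ^ 2 := by nlinarith
  have hρ : 1 / Z ^ 2 ≤ δ / lo := by
    calc 1 / Z ^ 2 = 1 / Z / Z := by field_simp
      _ ≤ δ / lo := div_le_div₀ hδ.le h4 h0 (by linarith)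
  have hEρ : 16 * Z ^ 2 * E ≤ δ / lo := by
    refine le_trans ?_ hρ
    calc 16 * Z ^ 2 * E ≤ Z ^ 2 * Z ^ 2 * (1 / Z ^ 6) := by gcongr
      _ = 1 / Z ^ 2 := by field_simp
  have hρ1 : δ / lo ≤ 1 := (div_le_one h0).2 (h5.trans hlo)
  have hEsm : 256 * E ≤ δ / lo := by nlinarith
  have htot := hM hi hh
  have hS : 1 / 2 ≤ ∑ p ∈ Pr lo hi, (p : ℝ)⁻¹ := by
    have h6 : 1 ≤ Real.log (hi / lo) := by
      rw [Real.le_log_iff_exp_le (div_pos (by linarith) h0), le_div_iff₀ h0]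
      nlinarith [Real.exp_one_lt_d9]
    linarith [(abs_le.1 htot).1]
  have hZδ : Z / δ ≤ Z ^ 2 := by
    rw [div_le_iff₀ hδ]
    rw [div_le_iff₀ hZp] at h4
    nlinarith
  have hhi : hi / δ ≤ Z / δ := div_le_div_of_nonneg_right h3 hδ.le
  have hQ' : hi / δ < Q := by linarith
  have hcell : ∀ j : ℕ, |lawM lo hi δ j - (lawL lo hi (j * δ + δ) - lawL lo hi (j * δ))| ≤
      4 * E := by
    intro j
    have a1 := abs_le.1 (lawG_approx h0 hh hM hE (j * δ + δ))
    have a2 := abs_le.1 (lawG_approx h0 hh hM hE (j * δ))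
    rw [lawM_eq hδ, abs_le]
    constructor <;> linarith [a1.1, a1.2, a2.1, a2.2]
  have h10 : 10 * δ / lo = 5 * (δ / lo) / (1 / 2) := by ring
  refine ⟨htot.trans (by linarith), fun g => ?_, ?_⟩
  · rw [law_push_eq hδ hQ', h10]
    refine div_le_div₀ (by positivity) ?_ (by norm_num) hS
    have a1 := (abs_le.1 (hcell g.val)).2
    have a2 := (lawL_incr (s := g.val * δ) (t := g.val * δ + δ) h0 hh (by linarith)).2
    have a3 : (max (g.val * δ + δ) lo - max (g.val * δ) lo) / lo ≤ δ / lo := by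
      refine div_le_div_of_nonneg_right ?_ h0.le
      rw [sub_le_iff_le_add, max_le_iff]
      exact ⟨by linarith [le_max_left (g.val * δ) lo], by linarith [le_max_right (g.val * δ) lo]⟩
    linarith
  · simp only [law_push_eq hδ hQ', ← sub_div, abs_div]
    rw [← sum_div, abs_of_nonneg (by linarith : 0 ≤ ∑ p ∈ Pr lo hi, (p : ℝ)⁻¹), h10]
    refine div_le_div₀ (by positivity) ?_ (by norm_num) hS
    rw [law_sum_zmod _ ((lawM_zero hδ (Or.inr (by simp; linarith))).trans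
      (lawM_zero hδ (Or.inl hQ')).symm)]
    set N : ℕ := ⌊Z / δ⌋₊ + 1 with hN
    have hN1 : Z / δ < N := by
      rw [hN]
      push_cast
      exact Nat.lt_floor_add_one _
    have hN2 : (N : ℝ) ≤ 2 * Z ^ 2 := by
      rw [hN]
      push_cast
      linarith [Nat.floor_le (by positivity : 0 ≤ Z / δ)]
    have hNQ : N ≤ Q := by
      have : (N : ℝ) ≤ Q := by
        rw [hN]
        push_cast
        linarith [Nat.floor_le (by positivity : 0 ≤ Z / δ)]
      exact_mod_cast this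
    rw [← sum_subset (range_subset_range.2 hNQ) fun j _ hj => ?_]
    · calc _ ≤ ∑ j ∈ range N, (|(lawL lo hi ((j + 1 : ℕ) * δ + δ) -
              lawL lo hi ((j + 1 : ℕ) * δ)) - (lawL lo hi (j * δ + δ) - lawL lo hi (j * δ))| +
              8 * E) := by
            refine sum_le_sum fun j _ => ?_
            have a1 := abs_le.1 (hcell j)
            have a2 := abs_le.1 (hcell (j + 1))
            have a3 := le_abs_self ((lawL lo hi ((j + 1 : ℕ) * δ + δ) -
              lawL lo hi ((j + 1 : ℕ) * δ)) - (lawL lo hi (j * δ + δ) - lawL lo hi (j * δ)))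
            have a4 := neg_abs_le ((lawL lo hi ((j + 1 : ℕ) * δ + δ) -
              lawL lo hi ((j + 1 : ℕ) * δ)) - (lawL lo hi (j * δ + δ) - lawL lo hi (j * δ)))
            rw [abs_le]
            constructor <;> linarith [a1.1, a1.2, a2.1, a2.2]
        _ ≤ 2 * (δ / lo) + N * (8 * E) := by
            rw [sum_add_distrib, sum_const, card_range, nsmul_eq_mul]
            gcongr
            exact law_model_var h0 hh hδ.le N
        _ ≤ _ := by nlinarith [div_pos hδ h0]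
    · have hj' : (N : ℝ) ≤ j := by exact_mod_cast not_lt.1 (mt mem_range.2 hj)
      rw [lawM_zero hδ (Or.inl (by push_cast; linarith)), lawM_zero hδ (Or.inl (by linarith)),
        sub_self, abs_zero]

end Pool.Agent.Work.MP_82fd4a_nt
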