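import Pool.Agent.Work.MP_82fd4a_nt.Rule

/-! The unfolding lemmas of `mf`, `cN` and `RD.chiU`, generated once. -/

theorem Pool.Agent.Eqs.mf82 : type_of% @Pool.Agent.Work.MP_82fd4a_nt.mf.eq_def :=
  @Pool.Agent.Work.MP_82fd4a_nt.mf.eq_def

theorem Pool.Agent.Eqs.cN82 : type_of% @Pool.Agent.Work.MP_82fd4a_nt.cN.eq_def :=
  @Pool.Agent.Work.MP_82fd4a_nt.cN.eq_def

theorem Pool.Agent.Eqs.chiU82 : type_of% @Pool.Agent.Work.MP_82fd4a_nt.RD.chiU.eq_4 :=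
  @Pool.Agent.Work.MP_82fd4a_nt.RD.chiU.eq_4
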