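import Pool.Agent.Work.MP_82fd4a_nt.RuleA
import Pool.Agent.Work.MP_82fd4a_nt.RuleEqs

/-! Support and size of the weights. -/

set_option autoImplicit false
open Filter Topology Finset

namespace Pool.Agent.Work.MP_82fd4a_nt

lemma rbd_ne_zero {l : List ℕ} {f : List ℕ → List ℕ → ℤ} (h : ssum l f ≠ 0) :
    ∃ p ∈ splits l, f p.1 p.2 ≠ 0 := by
  by_contra h'
  push Not at h'
  exact h ((ssum_congr h').trans (ssum_zero l))

lemma rbd_of_ind {P : Prop} (h : ind P ≠ 0) : P := by_contra fun h' => h (ind_neg h')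

lemma rbd_const (l : List ℕ) (c : ℤ) : ssum l (fun _ _ => c) = 2 ^ l.length * c := by
  induction l with
  | nil => simp [ssum_nil]
  | cons a t ih => rw [ssum_cons, ih, List.length_cons]; ring

lemma rbd_len (l : List ℕ) (j : ℕ) :
    ssum l (fun p _ => if p.length = j then 1 else 0) = l.length.choose j := by
  rw [ssum_length l fun n => if n = j then 1 else 0]
  simp only [mul_ite, mul_one, mul_zero, Finset.sum_ite_eq', Finset.mem_range]
  split_ifs with h
  · rfl
  · rw [Nat.choose_eq_zero_of_lt (by omega), Nat.cast_zero]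

lemma rbd_adm {F y : ℕ} {s t D : List ℕ} (h : (s ++ t).Perm D) (hs : (RF F y).Q s)
    (ht : (RF F y).L t) : (RF F y).adm D := by
  obtain ⟨p, hp, h1, h2⟩ := exists_split h
  refine ⟨p, hp, ?_, ?_⟩
  · change (p.1.map (· / F)).sum + p.1.length ≤ 26
    rw [(h1.map _).sum_eq, h1.length_eq]
    exact hs
  · change p.2.sum < y
    rw [h2.sum_eq]
    exact ht

lemma rbd_adm_perm {F y : ℕ} {D D' : List ℕ} (h : (RF F y).adm D) (e : D.Perm D') :
    (RF F y).adm D' := by
  obtain ⟨p, hp, h1, h2⟩ := h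
  exact rbd_adm ((splits_perm hp).trans e) h1 h2

lemma rbd_Q_nil (F y : ℕ) : (RF F y).Q [] := by simp [RF]

lemma rbd_adm_L {F y : ℕ} {D : List ℕ} (h : (RF F y).L D) : (RF F y).adm D :=
  ⟨_, nil_mem_splits D, rbd_Q_nil F y, h⟩

lemma rbd_chi_adm {F y : ℕ} (hy : 0 < y) {D : List ℕ} (h : (RF F y).chi D) : (RF F y).adm D := by
  rcases D with _ | ⟨a, _ | ⟨b, _ | ⟨c, _ | ⟨d, _ | ⟨e, _ | ⟨f, t⟩⟩⟩⟩⟩⟩
  · exact rbd_adm_L hy
  · exact rbd_adm_L h.2
  · exact rbd_adm (s := [a]) (t := [b]) (List.Perm.refl _) h.2 h.1.2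
  · exact h.2
  · exact h.2.1
  · exact h.2
  · obtain ⟨h1, h2⟩ := h
    rw [RD.step] at h2
    split_ifs at h2 with h3
    · exact rbd_adm_L h2
    · rcases t with _ | ⟨g, t⟩
      · exact (h3 Even.zero).elim
      · have h4 := h1.2
        rw [RD.step, if_pos (by simpa [Nat.even_add_one] using h3)] at h4
        exact rbd_adm (s := [a]) (List.Perm.refl _) h2 h4

lemma rbd_w_adm {F y : ℕ} {E : List ℕ} (hE : E.Pairwise (· ≤ ·)) (h : (RF F y).w E ≠ 0) :
    (RF F y).adm E := by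
  rcases E with _ | ⟨e, E⟩
  · exact (h rfl).elim
  rw [RD.w_cons] at h
  obtain ⟨⟨t, ρ⟩, hp, h1⟩ := rbd_ne_zero (right_ne_zero_of_mul h)
  have h2 := rbd_of_ind h1
  have h3 := splits_perm hp
  rcases t with _ | ⟨c, _ | ⟨b, _ | ⟨a, _ | ⟨d, t⟩⟩⟩⟩
  · exact h2.elim
  · refine rbd_adm (s := [e]) (t := c :: ρ) (h3.cons e) ?_ h2.2.2
    have h4 : e / F ≤ c / F :=
      Nat.div_le_div_right (List.rel_of_pairwise_cons hE (h3.subset List.mem_cons_self))
    have h5 := h2.1
    simp only [RF, List.map_cons, List.map_nil, List.sum_cons, List.sum_nil, List.length_cons,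
      List.length_nil] at h5 ⊢
    omega
  · exact h2.elim
  · obtain ⟨p, hp', h4, h5⟩ := h2.2.2.2.1
    refine rbd_adm ?_ h4 h5
    rw [← List.append_assoc]
    exact List.perm_middle.trans ((((splits_perm hp').append_right ρ).trans h3).cons e)
  · exact h2.elim

lemma rbd_chiU_adm {R : RD} {E s : List ℕ} (h : R.chiU E s ≠ 0) : s = [] ∨ R.adm (s ++ E) := by
  rcases s with _ | ⟨a, _ | ⟨b, _ | ⟨c, t⟩⟩⟩
  · exact Or.inl rfl
  · obtain ⟨p, hp, h1, h2, -⟩ := (rbd_of_ind (neg_ne_zero.1 h)).2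
    exact Or.inr ⟨p, hp, h1, h2⟩
  · exact Or.inr (rbd_of_ind h).2
  · exact (h rfl).elim

lemma rbd_chi_small {F y : ℕ} (hy : y ≤ 48 * F) {D : List ℕ} (hD : D.Pairwise (· ≤ ·))
    (h : D.sum < y) : (RF F y).chi D := by
  induction D with
  | nil => trivial
  | cons a t ih =>
    refine ⟨ih hD.of_cons (by rw [List.sum_cons] at h; omega), ?_⟩
    rcases t with _ | ⟨b, t⟩
    · exact h
    have hQ : (RF F y).Q [a] := by
      have h1 : a ≤ b := List.rel_of_pairwise_cons hD List.mem_cons_self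
      have h2 : a / F < 24 := by
        simp only [List.sum_cons] at h
        exact Nat.div_lt_of_lt_mul (by omega)
      simp only [RF, List.map_cons, List.map_nil, List.sum_cons, List.sum_nil, List.length_cons,
        List.length_nil]
      omega
    rcases t with _ | ⟨c, _ | ⟨d, _ | ⟨e, _ | ⟨f, t⟩⟩⟩⟩
    · exact hQ
    · exact rbd_adm_L h
    · exact ⟨rbd_adm_L h, Or.inr ⟨_, nil_mem_splits _, rbd_Q_nil F y, h, Or.inr hQ⟩⟩
    · exact rbd_adm_L h
    · rw [RD.step]
      split_ifs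
      exacts [h, hQ]

theorem PhiL_zero {F y δ : ℕ} {l : List ℕ} (H : Hyp F y δ l) (h : 2 ≤ l.length)
    (hx : ∃ a ∈ l, y ≤ a) : (RF F y).PhiL l = 0 := by
  obtain ⟨x, hxl, hx⟩ := hx
  have hδ := H.δF
  have hy := H.yδ
  have hhi := H.hi
  have hx' : 52 * F < x := by
    have := H.bad [x] (List.singleton_subperm_iff.2 hxl)
    simp only [List.sum_cons, List.sum_nil] at this
    omega
  have hA : ∀ D, x ∈ D → ¬ (RF F y).adm D := by
    rintro D hD ⟨p, hp, h1, h2⟩
    rcases List.mem_append.1 ((splits_perm hp).symm.subset hD) with h3 | h3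
    · have h4 : x / F ≤ (p.1.map (· / F)).sum :=
        List.single_le_sum (fun _ _ => Nat.zero_le _) _ (List.mem_map_of_mem h3)
      have h5 : 52 ≤ x / F := (Nat.le_div_iff_mul_le (by omega)).2 hx'.le
      change (p.1.map (· / F)).sum + p.1.length ≤ 26 at h1
      omega
    · have h4 : x ≤ p.2.sum := List.single_le_sum (fun _ _ => Nat.zero_le _) _ h3
      change p.2.sum < y at h2
      omega
  have hB : ∀ D : List ℕ, D.Sublist l → x ∉ D → D.sum < y := fun D hD hxD => by
    have h1 : D.sum ≤ (l.erase x).sum := by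
      have := (hD.erase x).sum_le_sum fun _ _ => Nat.zero_le _
      rwa [List.erase_of_not_mem hxD] at this
    have h2 := List.sum_erase hxl
    have h3 := H.bad D hD.subperm
    omega
  have hw : ∀ E : List ℕ, E.Sublist l → (RF F y).w E = 0 := fun E hE => by
    by_cases h1 : x ∈ E
    · exact by_contra fun h2 => hA E h1 (rbd_w_adm (H.sorted.sublist hE) h2)
    · rcases E with _ | ⟨e, E⟩
      · rfl
      · rw [RD.w_cons, ind_pos (P := (RF F y).L (e :: E)) (hB _ hE h1), sub_self, zero_mul]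
  have hc : ∀ D : List ℕ, D.Sublist l → ((RF F y).chi D ↔ x ∉ D) := fun D hD =>
    ⟨fun h1 h2 => hA D h2 (rbd_chi_adm H.y0 h1),
      fun h1 => rbd_chi_small (by omega) (H.sorted.sublist hD) (hB D hD h1)⟩
  rw [RD.PhiL_eq, ssum_congr (g := fun D _ => (-1) ^ D.length * ind (x ∉ D)) fun p hp => by
      rw [ind_congr (hc _ (splits_sublist hp).1)],
    ssum_congr (f := fun E G => (RF F y).w E * (RF F y).UB E G) (g := fun _ _ => 0) fun p hp => by
      rw [hw _ (splits_sublist hp).1, zero_mul], ssum_zero, sub_zero]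
  rcases l with _ | ⟨e, _ | ⟨b, t⟩⟩
  · simp at h
  · simp at h
  have hex : x ≠ e := by
    rintro rfl
    have h1 : x ≤ b := List.rel_of_pairwise_cons H.sorted List.mem_cons_self
    simp only [List.sum_cons] at hhi
    omega
  rw [ssum_cons, ← ssum_add, ← ssum_zero (b :: t)]
  refine ssum_congr fun p _ => ?_
  rw [ind_congr (P := x ∉ e :: p.1) (P' := x ∉ p.1) (by simp [hex]), List.length_cons]
  ring

theorem adm_of_cL {F y : ℕ} (hy : 0 < y) {D : List ℕ} (hD : D.Pairwise (· ≤ ·))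
    (h : (RF F y).cL D ≠ 0) : (RF F y).adm D := by
  by_cases h1 : (RF F y).chi D
  · exact rbd_chi_adm hy h1
  rw [RD.cL, ind_neg h1, mul_zero, zero_sub, neg_ne_zero] at h
  obtain ⟨p, hp, h2⟩ := rbd_ne_zero (f := fun E s => (RF F y).w E * (RF F y).chiU E s) h
  have h3 := splits_perm hp
  rcases rbd_chiU_adm (right_ne_zero_of_mul h2) with h4 | h4
  · rw [h4, List.append_nil] at h3
    exact rbd_adm_perm (rbd_w_adm (hD.sublist (splits_sublist hp).1) (left_ne_zero_of_mul h2)) h3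
  · exact rbd_adm_perm h4 (List.perm_append_comm.trans h3)

lemma rbd_w_le (R : RD) (E : List ℕ) : R.w E ≤ 2 ^ E.length := by
  rcases E with _ | ⟨e, E⟩
  · exact zero_le_one
  have h1 : ssum E (fun t ρ => ind (R.wt e t ρ)) ≤ 2 ^ E.length * 1 := by
    rw [← rbd_const]
    exact ssum_le fun _ _ => ind_le_one _
  have h2 : 0 ≤ ssum E fun t ρ => ind (R.wt e t ρ) := ssum_nonneg fun _ _ => ind_nonneg _
  have h3 := mul_nonneg (ind_nonneg (R.L (e :: E))) h2
  have h4 : (0 : ℤ) ≤ 2 ^ E.length := by positivity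
  rw [RD.w_cons, List.length_cons, pow_succ]
  linarith

lemma rbd_abs_ind (P : Prop) : |ind P| ≤ 1 := by
  rw [abs_of_nonneg (ind_nonneg P)]
  exact ind_le_one P

lemma rbd_abs_chiU (R : RD) (E s : List ℕ) : |R.chiU E s| ≤ 1 := by
  rcases s with _ | ⟨a, _ | ⟨b, _ | ⟨c, t⟩⟩⟩
  · exact abs_one.le
  · exact (abs_neg _).trans_le (rbd_abs_ind _)
  · exact rbd_abs_ind _
  · exact abs_zero.trans_le zero_le_one

theorem abs_cL_le {F y : ℕ} (hF : 0 < F) (hy : 0 < y) (hy1 : y ≤ 48 * F) {D : List ℕ}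
    (hD : D.Pairwise (· ≤ ·)) (h4 : ∀ a ∈ D, 4 * F ≤ a) : |(RF F y).cL D| ≤ 2 ^ 40 := by
  by_cases h0 : (RF F y).cL D = 0
  · rw [h0]
    norm_num
  obtain ⟨p, hp, h1, h2⟩ := adm_of_cL hy hD h0
  have hl : D.length ≤ 16 := by
    have k1 : (p.1.map (· / F)).length • 4 ≤ (p.1.map (· / F)).sum :=
      List.card_nsmul_le_sum _ _ fun a ha => by
        obtain ⟨b, hb, rfl⟩ := List.mem_map.1 ha
        exact (Nat.le_div_iff_mul_le hF).2 (h4 b ((splits_sublist hp).1.subset hb))
    have k2 : p.2.length • (4 * F) ≤ p.2.sum :=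
      List.card_nsmul_le_sum _ _ fun a ha => h4 a ((splits_sublist hp).2.subset ha)
    change (p.1.map (· / F)).sum + p.1.length ≤ 26 at h1
    change p.2.sum < y at h2
    rw [List.length_map, smul_eq_mul] at k1
    rw [smul_eq_mul] at k2
    have k3 : p.2.length < 12 := lt_of_mul_lt_mul_right (a := 4 * F) (by omega) (Nat.zero_le _)
    have k4 := splits_length hp
    omega
  have hb : ∀ q ∈ splits D, |(RF F y).w q.1 * (RF F y).chiU q.1 q.2| ≤ 2 ^ 16 := fun q hq => by
    rw [abs_mul, abs_of_nonneg (RD.w_nonneg _ _)]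
    exact (mul_le_of_le_one_right (RD.w_nonneg _ _) (rbd_abs_chiU _ _ _)).trans
      ((rbd_w_le _ _).trans (pow_le_pow_right₀ one_le_two
        ((splits_sublist hq).1.length_le.trans hl)))
  have k1 := ssum_le (f := fun E s => (RF F y).w E * (RF F y).chiU E s) (g := fun _ _ => 2 ^ 16)
    fun q hq => (abs_le.1 (hb q hq)).2
  have k2 := ssum_le (g := fun E s => (RF F y).w E * (RF F y).chiU E s) (f := fun _ _ => -2 ^ 16)
    fun q hq => (abs_le.1 (hb q hq)).1
  have k3 : (2 : ℤ) ^ D.length ≤ 2 ^ 16 := pow_le_pow_right₀ one_le_two hl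
  have k4 : |(-1) ^ D.length * ind ((RF F y).chi D)| ≤ 1 := by
    rw [abs_mul, abs_neg_one_pow, one_mul]
    exact rbd_abs_ind _
  rw [rbd_const] at k1 k2
  have e : (RF F y).cL D = (-1) ^ D.length * ind ((RF F y).chi D) -
    ssum D fun E s => (RF F y).w E * (RF F y).chiU E s := rfl
  rw [abs_le] at k4
  rw [e, abs_le]
  constructor <;> linarith [k4.1, k4.2]

lemma rbd_odd (l : List ℕ) :
    ssum l (fun D _ => if Even D.length then 0 else 1) ≤ 2 ^ (l.length - 1) := by
  rcases l with _ | ⟨a, t⟩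
  · simp [ssum_nil]
  rw [ssum_cons, ← ssum_add, List.length_cons, Nat.add_sub_cancel, ← mul_one (2 ^ t.length),
    ← rbd_const]
  refine ssum_le fun p _ => ?_
  by_cases h : Even p.1.length <;> simp [Nat.even_add_one, h]

lemma rbd_w_le' (R : RD) (e : ℕ) (E : List ℕ) :
    R.w (e :: E) ≤ E.length + E.length.choose 3 := by
  have h1 : ssum E (fun t ρ => ind (R.wt e t ρ)) ≤ E.length.choose 1 + E.length.choose 3 := by
    rw [← rbd_len, ← rbd_len, ← ssum_add]
    refine ssum_le fun p _ => ?_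
    rcases p with ⟨_ | ⟨c, _ | ⟨b, _ | ⟨a, _ | ⟨d, t⟩⟩⟩⟩, ρ⟩
    · exact (ind_neg not_false).le
    · exact ind_le_one _
    · exact (ind_neg not_false).le
    · exact ind_le_one _
    · exact (ind_neg not_false).le.trans (by positivity)
  have h2 : 0 ≤ ssum E fun t ρ => ind (R.wt e t ρ) := ssum_nonneg fun _ _ => ind_nonneg _
  have h3 := mul_nonneg (ind_nonneg (R.L (e :: E))) h2
  rw [Nat.choose_one_right] at h1
  rw [RD.w_cons]
  linarith

lemma rbd_UB_le (R : RD) (E G : List ℕ) :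
    R.UB E G ≤ 1 + if E.length ≤ 4 then (G.length.choose 2 : ℤ) else 0 := by
  have h1 : R.UB E G ≤ G.length.choose 0 + ind (E.length ≤ 4) * G.length.choose 2 := by
    rw [RD.UB_eq, ← rbd_len, ← rbd_len, ← ssum_mul, ← ssum_add]
    refine ssum_le fun p _ => ?_
    have h2 := ind_nonneg (E.length ≤ 4)
    rcases p with ⟨_ | ⟨a, _ | ⟨b, _ | ⟨c, t⟩⟩⟩, ρ⟩
    · simp [RD.chiU]
    · simpa [RD.chiU] using ind_nonneg _
    · by_cases h : E.length ≤ 4
      · simpa [RD.chiU, ind_pos h] using ind_le_one _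
      · simpa [RD.chiU, ind_neg h] using (ind_neg fun h' : R.cond E b ∧ _ => h h'.1.1).le
    · simp [RD.chiU]
  rw [Nat.choose_zero_right, Nat.cast_one] at h1
  split_ifs with h
  · rwa [ind_pos h, one_mul] at h1
  · rwa [ind_neg h, zero_mul] at h1

theorem neg_PhiL_le (R : RD) (l : List ℕ) : -R.PhiL l ≤ Wk l.length := by
  have h1 : -ssum l (fun D _ => (-1) ^ D.length * ind (R.chi D)) ≤ 2 ^ (l.length - 1) := by
    refine le_trans ?_ (rbd_odd l)
    rw [← neg_one_mul, ← ssum_mul]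
    refine ssum_le fun p _ => ?_
    have k1 := ind_nonneg (R.chi p.1)
    have k2 := ind_le_one (R.chi p.1)
    split_ifs with h
    · rw [h.neg_one_pow]
      linarith
    · rw [(Nat.not_even_iff_odd.1 h).neg_one_pow]
      linarith
  let φ : ℕ → ℤ := fun m => if m = 0 then 0 else ((m - 1 : ℕ) + (m - 1).choose 3) *
    (1 + if m - 1 ≤ 3 then ((l.length - (m - 1) - 1).choose 2 : ℤ) else 0)
  have h2 : ssum l (fun E G => R.w E * R.UB E G) ≤ ssum l fun E _ => φ E.length := by
    refine ssum_le fun p hp => ?_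
    have k1 := splits_length hp
    rcases p with ⟨_ | ⟨e, E⟩, G⟩
    · exact (zero_mul _).le
    simp only [List.length_cons] at k1
    have k2 := rbd_UB_le R (e :: E) G
    simp only [φ, List.length_cons, Nat.succ_ne_zero, if_false, Nat.add_sub_cancel,
      show l.length - E.length - 1 = G.length by omega] at k2 ⊢
    rw [if_congr (show E.length + 1 ≤ 4 ↔ E.length ≤ 3 by omega) rfl rfl] at k2
    exact (mul_le_mul_of_nonneg_left k2 (R.w_nonneg _)).trans
      (mul_le_mul_of_nonneg_right (rbd_w_le' R e E) (by positivity))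
  rw [ssum_length, Finset.sum_range_succ'] at h2
  simp only [φ, Nat.succ_ne_zero, if_false, if_true, Nat.add_sub_cancel, mul_zero, add_zero,
    ← mul_assoc] at h2
  rw [RD.PhiL_eq, Wk]
  push_cast
  linarith

end Pool.Agent.Work.MP_82fd4a_nt
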