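import Pool.Agent.Work.MP_82fd4a_nt.RuleA
import Pool.Agent.Work.MP_82fd4a_nt.RuleEqs

/-! The sign of the sieve. -/

set_option autoImplicit false
open Filter Topology Finset

namespace Pool.Agent.Work.MP_82fd4a_nt

lemma RuleSign_sum_le {F : ℕ} (hF : 0 < F) (s : List ℕ) :
    s.sum ≤ F * ((s.map (· / F)).sum + s.length) := by
  induction s with
  | nil => simp
  | cons a s ih =>
    have h1 := Nat.lt_mul_div_succ a hF
    simp only [List.sum_cons, List.map_cons, List.length_cons]
    nlinarith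

lemma RuleSign_Q_perm {F y : ℕ} {s t : List ℕ} (h : s.Perm t) : (RF F y).Q s ↔ (RF F y).Q t := by
  simp only [RF, (h.map _).sum_eq, h.length_eq]

lemma RuleSign_L_perm {F y : ℕ} {s t : List ℕ} (h : s.Perm t) : (RF F y).L s ↔ (RF F y).L t := by
  simp only [RF, h.sum_eq]

section

variable {F y δ : ℕ} {l : List ℕ} (H : Hyp F y δ l)

include H

lemma RuleSign_L_of_le {s : List ℕ} (hs : s.Subperm l) (h : s.sum ≤ 52 * F) : (RF F y).L s :=
  (H.bad s hs).resolve_right (not_lt.2 h)

lemma RuleSign_L_of_H {s : List ℕ} (hs : s.Subperm l) (h : (RF F y).H s) : (RF F y).L s := by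
  refine RuleSign_L_of_le H hs ((RuleSign_sum_le (Nat.zero_lt_of_lt H.δF) s).trans ?_)
  rw [mul_comm]
  exact Nat.mul_le_mul_right F h

lemma RuleSign_compl {s t : List ℕ} (h : (s ++ t).Perm l) : (RF F y).L s ↔ ¬ (RF F y).L t := by
  have h1 := H.bad s ((List.sublist_append_left s t).subperm.trans h.subperm)
  have h2 := H.bad t ((List.sublist_append_right s t).subperm.trans h.subperm)
  have h3 := h.sum_eq
  rw [List.sum_append] at h3
  have := H.δF
  have := H.yδ
  have := H.lo
  have := H.hi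
  simp only [RF]
  omega

lemma RuleSign_safe {D : List ℕ} {c e : ℕ} (h : (RF F y).safe D c) (hec : e ≤ c)
    (hs : (e :: D).Subperm l) : (RF F y).adm (e :: D) := by
  obtain ⟨p, hp, h1, h2, h3⟩ := h
  have h4 : e / F ≤ c / F := Nat.div_le_div_right hec
  rcases h3 with h3 | h3
  · refine ⟨(p.1, e :: p.2), mem_splits_cons.2 (Or.inr ⟨p, hp, rfl⟩), h1, RuleSign_L_of_H H
      (((splits_sublist hp).2.cons_cons e).subperm.trans hs) ?_⟩
    simp only [RF, List.map_cons, List.sum_cons, List.length_cons] at h3 ⊢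
    omega
  · refine ⟨(e :: p.1, p.2), mem_splits_cons.2 (Or.inl ⟨p, hp, rfl⟩), ?_, h2⟩
    simp only [RF, List.map_cons, List.sum_cons, List.length_cons] at h3 ⊢
    omega

lemma RuleSign_admL {s base : List ℕ} {x : ℕ} (hp : (s ++ x :: base).Perm l) (hx : 26 ≤ x / F)
    (h : (RF F y).adm (s ++ [x])) : (RF F y).admL s base := by
  obtain ⟨p, hp', h1, h2⟩ := h
  have h3 := splits_perm hp'
  have h4 : x ∉ p.1 := fun hx' => by
    have h5 : x / F ≤ (p.1.map (· / F)).sum :=
      List.single_le_sum (fun _ _ => Nat.zero_le _) _ (List.mem_map.2 ⟨x, hx', rfl⟩)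
    have h6 := List.length_pos_of_mem hx'
    simp only [RF] at h1
    omega
  have h5 : x ∈ p.2 := (List.mem_append.1 (h3.symm.subset (by simp))).resolve_left h4
  have h6 := List.perm_cons_erase h5
  have h7 : (p.1 ++ p.2.erase x).Perm s := List.perm_iff_count.2 fun z => by
    have a1 := h3.count_eq z
    have a2 := h6.count_eq z
    simp only [List.count_append, List.count_cons, List.count_nil] at a1 a2 ⊢
    omega
  obtain ⟨q, hq, h8, -⟩ := exists_split h7
  refine ⟨q, hq, (RuleSign_Q_perm h8).2 h1, (RuleSign_compl H (s := p.2) ?_).1 h2⟩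
  refine List.perm_iff_count.2 fun z => ?_
  have a1 := h3.count_eq z
  have a2 := h8.count_eq z
  have a3 := hp.count_eq z
  simp only [List.count_append, List.count_cons, List.count_nil] at a1 a2 a3 ⊢
  omega

lemma RuleSign_adm {s base : List ℕ} {x : ℕ} (hp : (s ++ x :: base).Perm l)
    (h : (RF F y).admL s base) : (RF F y).adm (s ++ [x]) := by
  obtain ⟨p, hp', h1, h2⟩ := h
  have h3 := splits_perm hp'
  have h4 : (p.1 ++ (p.2 ++ [x])).Perm (s ++ [x]) := by
    rw [← List.append_assoc]
    exact h3.append_right _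
  obtain ⟨q, hq, h5, h6⟩ := exists_split h4
  refine ⟨q, hq, (RuleSign_Q_perm h5).2 h1, (RuleSign_L_perm h6).2
    ((RuleSign_compl H (t := p.1 ++ base) ?_).2 h2)⟩
  refine List.perm_iff_count.2 fun z => ?_
  have a1 := h3.count_eq z
  have a3 := hp.count_eq z
  simp only [List.count_append, List.count_cons, List.count_nil] at a1 a3 ⊢
  omega

end

theorem PhiL_single {R : RD} {a : ℕ} (h : ¬ R.L [a]) : R.PhiL [a] = 1 := by
  have h1 : ¬ R.chi [a] := fun h' => h h'.2
  have h2 : R.w [a] = 0 := by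
    rw [RD.w_cons, ssum_nil, ind_neg (P := R.wt a [] []) id, mul_zero]
  have h3 : R.w [] = 0 := rfl
  rw [RD.PhiL_eq]
  simp only [ssum_cons, ssum_nil, ind_neg h1, h2, h3, ind_pos (P := R.chi []) trivial]
  simp

theorem UB_nonneg {F y δ : ℕ} {l : List ℕ} (H : Hyp F y δ l) {p : List ℕ × List ℕ}
    (hp : p ∈ splits l) : 0 ≤ (RF F y).UB p.1 p.2 := by
  obtain ⟨E, G⟩ := p
  have h1 := splits_perm hp
  have h2 := H.sorted.sublist (splits_sublist hp).2
  rw [RD.UB_eq]
  cases G with
  | nil =>
    rw [ssum_nil]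
    exact zero_le_one
  | cons e G =>
    rw [ssum_cons, ← ssum_add]
    refine ssum_nonneg fun q hq => ?_
    obtain ⟨s, t⟩ := q
    have h3 : s.Sublist G := (splits_sublist hq).1
    match s, h3 with
    | [], _ =>
      have := ind_le_one ((RF F y).cond E e)
      simp only [RD.chiU]
      omega
    | [q], h3 =>
      simp only [RD.chiU]
      by_cases hc : (RF F y).cond E q
      · have h4 : e ≤ q := (List.pairwise_cons.1 h2).1 q (h3.subset (by simp))
        have h5 : (e :: q :: E).Subperm l := by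
          refine List.Subperm.trans ?_ h1.subperm
          have h6 : (e :: q :: E).Perm (E ++ [e, q]) := (List.perm_append_comm (l₁ := [e, q]))
          exact h6.subperm.trans ((h3.cons_cons e).append_left E).subperm
        rw [ind_pos ⟨hc, RuleSign_safe H hc.2 h4 h5⟩, ind_pos hc]
        simp
      · rw [ind_neg hc, neg_zero, add_zero]
        exact ind_nonneg _
    | [q', q], _ =>
      simp only [RD.chiU, zero_add]
      exact ind_nonneg _
    | _ :: _ :: _ :: _, _ => simp only [RD.chiU, zero_add, le_refl]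

/-- the terms that are recovered by reversing the roles -/
noncomputable def RuleSign_g (R : RD) (e : ℕ) (t ρ G : List ℕ) : ℤ :=
  if G.length = 1 then (1 - ind (R.L (e :: (t ++ ρ)))) * ind (R.wt e t ρ) else 0

lemma RuleSign_g_nonneg (R : RD) (e : ℕ) (t ρ G : List ℕ) : 0 ≤ RuleSign_g R e t ρ G := by
  unfold RuleSign_g
  split_ifs
  · exact mul_nonneg (sub_nonneg.2 (ind_le_one _)) (ind_nonneg _)
  · exact le_rfl

lemma RuleSign_one_le {R : RD} {e x : ℕ} {D t ρ : List ℕ} (hp : (t, [x]) ∈ splits D)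
    (h1 : ¬ R.L (e :: (t ++ ρ))) (h2 : R.wt e t ρ) :
    1 ≤ ssum D fun t G => RuleSign_g R e t ρ G := by
  have h3 : RuleSign_g R e t ρ [x] = 1 := by
    rw [RuleSign_g, if_pos List.length_singleton, ind_neg h1, ind_pos h2]
    rfl
  rw [← h3]
  refine List.single_le_sum (fun a ha => ?_) _ (List.mem_map.2 ⟨(t, [x]), hp, rfl⟩)
  obtain ⟨p, -, rfl⟩ := List.mem_map.1 ha
  exact RuleSign_g_nonneg _ _ _ _ _

lemma RuleSign_A (R : RD) (e : ℕ) (l : List ℕ) :
    ssum (e :: l) (fun D _ => (-1) ^ D.length * ind (R.chi D)) ≤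
      ssum l fun t _ => ind (Even t.length ∧ R.chi t ∧ ¬ R.step e t) := by
  rw [ssum_cons, ← ssum_add]
  refine ssum_le fun p _ => ?_
  have e1 : R.chi (e :: p.1) ↔ R.chi p.1 ∧ R.step e p.1 := Iff.rfl
  rw [ind_congr e1, List.length_cons, pow_succ]
  by_cases h1 : R.chi p.1
  · by_cases h2 : R.step e p.1
    · rw [ind_pos ⟨h1, h2⟩, ind_pos h1, ind_neg fun h => h.2.2 h2]
      omega
    · rw [ind_neg fun h => h2 h.2, ind_pos h1]
      rcases Nat.even_or_odd p.1.length with h3 | h3
      · rw [ind_pos ⟨h3, h1, h2⟩, h3.neg_one_pow]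
        omega
      · have := ind_nonneg (Even p.1.length ∧ R.chi p.1 ∧ ¬ R.step e p.1)
        rw [h3.neg_one_pow]
        omega
  · rw [ind_neg fun h => h1 h.1, ind_neg h1, ind_neg fun h => h1 h.2.1]
    omega

lemma RuleSign_B {F y δ e : ℕ} {l : List ℕ} (H : Hyp F y δ (e :: l)) :
    (ssum l fun D ρ => ssum D fun t G => RuleSign_g (RF F y) e t ρ G) ≤
      ssum (e :: l) fun E G => (RF F y).w E * (RF F y).UB E G := by
  have h1 : (ssum l fun D ρ => ssum D fun t G => RuleSign_g (RF F y) e t ρ G) =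
      ssum l fun E G => ssum E fun t ρ => RuleSign_g (RF F y) e t ρ G := by
    rw [ssum_assoc l fun t G ρ => RuleSign_g (RF F y) e t ρ G,
      ssum_assoc l fun t ρ G => RuleSign_g (RF F y) e t ρ G]
    exact ssum_congr fun p _ => ssum_swap _ _
  rw [h1, ssum_cons]
  refine le_add_of_le_of_nonneg (ssum_le fun p hp => ?_) (ssum_nonneg fun p hp =>
    mul_nonneg (RD.w_nonneg _ _)
      (UB_nonneg H (p := (p.1, e :: p.2)) (mem_splits_cons.2 (Or.inr ⟨p, hp, rfl⟩))))
  by_cases hG : p.2.length = 1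
  · obtain ⟨x, hx⟩ := List.length_eq_one_iff.1 hG
    have h2 : ¬ (RF F y).cond (e :: p.1) x := by
      rintro ⟨-, q, hq, h3, h4, -⟩
      have a1 := splits_sum hq
      have a2 := splits_sum hp
      have a3 := RuleSign_sum_le (Nat.zero_lt_of_lt H.δF) q.1
      have a4 : F * ((q.1.map (· / F)).sum + q.1.length) ≤ F * 26 := Nat.mul_le_mul_left F h3
      have a5 := H.δF
      have a6 := H.yδ
      have a7 := H.lo
      have a8 : q.2.sum < y := h4
      rw [hx] at a2
      simp only [List.sum_cons, List.sum_nil] at a1 a2 a7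
      omega
    have h3 : (RF F y).UB (e :: p.1) p.2 = 1 := by
      rw [hx, RD.UB_eq, ssum_cons, ssum_nil, ssum_nil]
      simp only [RD.chiU, ind_neg h2]
      rfl
    rw [h3, mul_one, RD.w_cons, ← ssum_mul]
    refine (ssum_congr fun q hq => ?_).le
    rw [RuleSign_g, if_pos hG, ind_congr (RuleSign_L_perm ((splits_perm hq).cons e))]
  · simp only [RuleSign_g, if_neg hG, ssum_zero]
    exact mul_nonneg (RD.w_nonneg _ _)
      (UB_nonneg H (p := (e :: p.1, p.2)) (mem_splits_cons.2 (Or.inl ⟨p, hp, rfl⟩)))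

lemma RuleSign_min {F y δ e : ℕ} {l : List ℕ} (H : Hyp F y δ (e :: l)) :
    (l.length + 1) * e < 101 * F := by
  have h1 := List.card_nsmul_le_sum l e (List.pairwise_cons.1 H.sorted).1
  have h2 := H.hi
  have h3 := H.δF
  rw [List.sum_cons] at h2
  rw [smul_eq_mul] at h1
  rw [add_mul]
  omega

lemma RuleSign_C {F y δ e : ℕ} {l D ρ : List ℕ} (H : Hyp F y δ (e :: l)) (hl : 1 ≤ l.length)
    (hp : (D, ρ) ∈ splits l) (h1 : Even D.length) (h2 : (RF F y).chi D)
    (h3 : ¬ (RF F y).step e D) : 1 ≤ ssum D fun t G => RuleSign_g (RF F y) e t ρ G := by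
  have hP : (D ++ ρ).Perm l := splits_perm hp
  have hm := RuleSign_min H
  have hc : ∀ s t : List ℕ, (s ++ t).Perm (e :: (D ++ ρ)) → ((RF F y).L s ↔ ¬ (RF F y).L t) :=
    fun _ _ h => RuleSign_compl H (h.trans (hP.cons e))
  match D, hp, h1, h2, h3, hP, hc with
  | [], _, _, _, h3, _, _ =>
    refine absurd (RuleSign_L_of_le H (List.sublist_append_left [e] l).subperm ?_) h3
    have := Nat.mul_le_mul_right e (Nat.add_le_add_right hl 1)
    simp only [List.sum_cons, List.sum_nil]
    omega
  | [_], _, h1, _, _, _, _ => exact absurd h1 (by simp)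
  | [q, x], _, _, h2, h3, _, hc =>
    have a1 : (RF F y).L [x] := h2.1.2
    have a2 : (RF F y).Q [q] := h2.2
    refine RuleSign_one_le (t := [q]) (x := x) (by simp [splits]) ((hc [x] _ ?_).1 a1)
      ⟨a2, fun a3 => h3 ⟨([e, q], [x]), by simp [splits], a3, a1⟩, (hc _ [e, x] ?_).2
        fun a3 => h3 ⟨([q], [e, x]), by simp [splits], a2, a3⟩⟩
    all_goals
      refine List.perm_iff_count.2 fun z => ?_
      simp only [List.count_append, List.count_cons, List.count_nil]
      omega
  | [_, _, _], _, h1, _, _, _, _ => exact absurd h1 (by simp; decide)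
  | [c, b, a, x], hp, _, h2, h3, hP, hc =>
    have a1 : (RF F y).L [x] := h2.1.1.1.2
    have a2 : (RF F y).Q [a] := h2.1.1.2
    have a3 : (RF F y).adm ([b, a] ++ [x]) := h2.1.2
    have a4 : (RF F y).adm ([c, b, a] ++ [x]) := h2.2.1
    have a5 : ¬ (RF F y).adm ([e, c, b, a] ++ [x]) := h3
    have hs : [c, b, a, x].Sublist l := (splits_sublist hp).1
    have hec : e ≤ c := (List.pairwise_cons.1 H.sorted).1 c (hs.subset (by simp))
    obtain ⟨p, hq, b1, b2⟩ := h2.2.2.resolve_right fun h =>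
      a5 (RuleSign_safe H h hec (hs.cons_cons e).subperm)
    have b3 := splits_perm hq
    have hx : 26 ≤ x / F := by
      by_contra hn
      refine b2 (RuleSign_L_of_H H ?_ ?_)
      · have b4 : (x :: p.1).Perm (p.1 ++ [x]) := List.perm_append_comm (l₁ := [x])
        exact b4.subperm.trans
          ((((splits_sublist hq).1.append_right [x]).trans hs).cons e).subperm
      · simp only [RF, List.map_cons, List.sum_cons, List.length_cons] at b1 ⊢
        omega
    refine RuleSign_one_le (t := [c, b, a]) (x := x) (by simp [splits]) ((hc [x] _ ?_).1 a1)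
      ⟨a2, RuleSign_admL H (List.Perm.trans ?_ (hP.cons e)) hx a3,
        RuleSign_admL H (List.Perm.trans ?_ (hP.cons e)) hx a4,
        ⟨p, hq, b1, (hc _ (x :: p.1) ?_).2 b2⟩,
        fun h => a5 (RuleSign_adm H (List.Perm.trans ?_ (hP.cons e)) h)⟩
    all_goals
      refine List.perm_iff_count.2 fun z => ?_
      have b4 := b3.count_eq z
      simp only [List.count_append, List.count_cons, List.count_nil] at b4 ⊢
      omega
  | b :: c :: d :: e' :: f :: t, hp, h1, _, h3, _, _ =>
    have a1 : ¬ Even t.length := by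
      simp only [List.length_cons, Nat.even_iff] at h1 ⊢
      omega
    have a2 := splits_length hp
    simp only [List.length_cons] at a2
    have a3 : 4 * e ≤ (l.length + 1) * e := Nat.mul_le_mul_right e (by omega)
    have a4 : e / F < 26 := (Nat.div_lt_iff_lt_mul (Nat.zero_lt_of_lt H.δF)).2 (by omega)
    refine absurd ?_ h3
    rw [RD.step, if_neg a1]
    simp only [RF, List.map_cons, List.map_nil, List.sum_cons, List.sum_nil, List.length_cons,
      List.length_nil]
    omega

theorem PhiL_nonpos {F y δ : ℕ} {l : List ℕ} (H : Hyp F y δ l) (h : 2 ≤ l.length) :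
    (RF F y).PhiL l ≤ 0 := by
  cases l with
  | nil => simp at h
  | cons e l =>
    rw [RD.PhiL_eq, sub_nonpos]
    refine (RuleSign_A _ e l).trans (le_trans (ssum_le fun p hp => ?_) (RuleSign_B H))
    by_cases h1 : Even p.1.length ∧ (RF F y).chi p.1 ∧ ¬ (RF F y).step e p.1
    · rw [ind_pos h1]
      exact RuleSign_C H (by simpa using h) hp h1.1 h1.2.1 h1.2.2
    · rw [ind_neg h1]
      exact ssum_nonneg fun _ _ => RuleSign_g_nonneg _ _ _ _ _

end Pool.Agent.Work.MP_82fd4a_nt
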