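import Pool.Agent.Work.MP_82fd4a_nt.NDefs
import Pool.Agent.Work.MP_82fd4a_nt.RuleSign
import Pool.Agent.Work.MP_82fd4a_nt.RuleBound

/-! The weights on the types, and the pointwise inequalities. -/

set_option autoImplicit false
open Filter Topology Finset

namespace Pool.Agent.Work.MP_82fd4a_nt

lemma rm_sort_sum (τ : Multiset ℕ) : (τ.sort (· ≤ ·)).sum = τ.sum := by
  rw [← Multiset.sum_coe, Multiset.sort_eq]

lemma rm_powerset (l : List ℕ) : (l : Multiset ℕ).powerset =
    (((splits l).map fun p => (p.1 : Multiset ℕ) : List (Multiset ℕ)) : Multiset (Multiset ℕ)) := by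
  induction l with
  | nil => simp [splits]
  | cons a t ih =>
    rw [← Multiset.cons_coe, Multiset.powerset_cons, ih, splits, List.map_append,
      ← Multiset.coe_add, add_comm, Multiset.map_coe, List.map_map, List.map_map, List.map_map]
    rfl

lemma rm_split {l : List ℕ} {p : List ℕ × List ℕ} (h : p ∈ splits l) :
    (p.1 : Multiset ℕ) + p.2 = l := by
  rw [Multiset.coe_add, Multiset.coe_eq_coe]; exact splits_perm h

lemma rm_sel1 {F y : ℕ} {t : Multiset ℕ} (h : (RF F y).adm (bigL F t)) :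
    ∃ p ∈ splits (bigL F t), (RF F y).Q p.1 ∧ (RF F y).L p.2 ∧ sel1 F y t = p.1 :=
  ⟨h.choose, h.choose_spec.1, h.choose_spec.2.1, h.choose_spec.2.2, dif_pos h⟩

lemma rm_sel1_le (F y : ℕ) (t : Multiset ℕ) : sel1 F y t ≤ t := by
  by_cases h : (RF F y).adm (bigL F t)
  · obtain ⟨p, hp, -, -, e⟩ := rm_sel1 h
    have h1 := rm_split hp
    rw [bigL, Multiset.sort_eq] at h1
    rw [e]
    exact (Multiset.le_add_right _ _).trans (h1.le.trans (Multiset.filter_le _ _))
  · rw [sel1, dif_neg h]; exact Multiset.zero_le _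

lemma rm_count (F y : ℕ) (t : Multiset ℕ) : (t.powerset.count (sel1 F y t) : ℝ) ≠ 0 := by
  have := Multiset.count_pos.2 (Multiset.mem_powerset.2 (rm_sel1_le F y t))
  exact_mod_cast this.ne'

lemma rm_sum_ite (M : Multiset (Multiset ℕ)) (t : Multiset ℕ) (c : ℝ) :
    (M.map fun s => if s = t then c else 0).sum = M.count t * c := by
  induction M using Multiset.induction_on with
  | empty => simp
  | cons a M ih =>
    rw [Multiset.map_cons, Multiset.sum_cons, ih, Multiset.count_cons]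
    by_cases h : a = t
    · rw [if_pos h, if_pos h.symm]; push_cast; ring
    · rw [if_neg h, if_neg (Ne.symm h)]; simp

lemma rm_sum_divisors (b : ℝ) (n : ℕ) {G : Multiset ℕ → ℝ} (hG : ∀ t, 0 ≤ G t) :
    ∑ d ∈ n.divisors, G (ty b d) ≤ ((ty b n).powerset.map G).sum := by
  induction n using induction_on_primes generalizing G with
  | zero => simpa [typ_zero] using hG 0
  | one => simp [typ_one]
  | prime_mul p a hp ih =>
    rcases eq_or_ne a 0 with rfl | ha
    · simpa [typ_zero] using hG 0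
    rw [typ_prime_mul b hp ha, Multiset.powerset_cons, Multiset.map_add, Multiset.sum_add,
      Multiset.map_map, Nat.divisors_mul, Finset.mul_def]
    refine (sum_image_le_of_nonneg fun _ _ => hG _).trans ?_
    rw [sum_product, hp.divisors, sum_pair hp.one_lt.ne]
    refine add_le_add (by simpa using ih hG) (le_trans (le_of_eq ?_) (ih fun t => hG _))
    refine sum_congr rfl fun d hd => ?_
    rw [typ_prime_mul b hp (Nat.pos_of_mem_divisors hd).ne']
    rfl

lemma rm_lam2 (F y : ℕ) (b : ℝ) {d d₁ : ℕ} (h : d₁ ∈ d.divisors) :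
    lam2 F y (ty b d₁) (ty b (d / d₁)) = if ty b d₁ = sel1 F y (ty b d) then
      lam1 F y (ty b d) / ((ty b d).powerset.count (sel1 F y (ty b d)) : ℝ) else 0 := by
  obtain ⟨⟨k, rfl⟩, h0⟩ := Nat.mem_divisors.1 h
  have h1 := left_ne_zero_of_mul h0
  rw [Nat.mul_div_cancel_left _ (Nat.pos_of_ne_zero h1), lam2,
    ← ty_mul b h1 (right_ne_zero_of_mul h0)]
  split_ifs with e
  · rw [← e]
  · rfl

lemma rm_abs_lam1 {F y : ℕ} (hF : 0 < F) (hy : 0 < y) (hy1 : y ≤ 48 * F) (t : Multiset ℕ) :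
    |lam1 F y t| ≤ 2 ^ 40 := by
  unfold lam1
  split_ifs
  · rw [abs_mul, abs_pow, abs_neg, abs_one, one_pow, mul_one]
    have := abs_cL_le hF hy hy1 (D := bigL F t) (Multiset.pairwise_sort _ _) fun a ha =>
      (Multiset.mem_filter.1 ((Multiset.mem_sort _).1 ha)).2
    exact_mod_cast this
  · simp

lemma rm_cells {F : ℕ} (hF : 0 < F) (s : List ℕ) :
    s.sum + s.length ≤ ((s.map (· / F)).sum + s.length) * F := by
  induction s with
  | nil => simp
  | cons a s ih =>
    have h1 := Nat.lt_div_mul_add (a := a) hF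
    simp only [List.sum_cons, List.length_cons, List.map_cons, add_mul, one_mul] at ih ⊢
    omega

lemma rm_Phi2 (F y : ℕ) (b : ℝ) {n : ℕ} (hn : Squarefree n) :
    Phi2 b (lam2 F y) n = PhiN F y (ty b n) := by
  rw [Phi2, PhiN, ← typ_sum_divisors b hn]
  refine sum_congr rfl fun d hd => ?_
  rw [sum_congr rfl fun d₁ h => rm_lam2 F y b h,
    typ_sum_divisors b (hn.squarefree_of_dvd (Nat.dvd_of_mem_divisors hd)) fun t =>
      if t = sel1 F y (ty b d) then
        lam1 F y (ty b d) / ((ty b d).powerset.count (sel1 F y (ty b d)) : ℝ) else 0,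
    rm_sum_ite, mul_div_cancel₀ _ (rm_count F y _)]

lemma rm_Gd2 (b : ℝ) {y y' n : ℕ} (Fn : Multiset ℕ → ℝ) (hn : Squarefree n)
    (h : Good y y' (ty b n)) : Gd2 b y y' Fn n = Fn (ty b n) := by
  unfold Gd2 aco2
  rw [if_pos h, typ_card_eq b hn, div_mul_cancel₀]
  have := Multiset.count_pos.2 (Multiset.mem_powerset.2 (sel_spec h).1)
  exact_mod_cast this.ne'

/-- pairing by a small element -/
lemma rm_small {F y e : ℕ} {σ : Multiset ℕ} (h : ¬ Good y (52 * F) (e ::ₘ σ)) (he : e < 4 * F)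
    (hy : y ≤ 48 * F) : PhiN F y (e ::ₘ σ) = 0 := by
  unfold PhiN
  rw [Multiset.powerset_cons, Multiset.map_add, Multiset.sum_add, Multiset.map_map,
    ← Multiset.sum_map_add]
  refine Multiset.sum_eq_zero fun x hx => ?_
  rw [Multiset.mem_map] at hx
  obtain ⟨t, ht, rfl⟩ := hx
  have hb : bigL F (e ::ₘ t) = bigL F t := by
    rw [bigL, bigL, Multiset.filter_cons_of_neg _ (by omega)]
  have hs : sel1 F y (e ::ₘ t) = sel1 F y t := by
    unfold sel1
    generalize bigL F (e ::ₘ t) = l at hb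
    subst hb
    rfl
  have hd := Multiset.cons_sub_of_le e (rm_sel1_le F y t)
  have h1 := typ_not_good h (e ::ₘ (t - sel1 F y t)) (Multiset.mem_powerset.2
    (Multiset.cons_le_cons e (tsub_le_self.trans (Multiset.mem_powerset.1 ht))))
  simp only [Function.comp, lam1, hb, hs, hd, Multiset.sum_cons,
    Multiset.filter_cons_of_pos (p := (· < 4 * F)) t he, Multiset.card_cons] at h1 ⊢
  by_cases h2 : (t - sel1 F y t).sum < y
  · rw [if_pos h2, if_pos (by omega)]; ring
  · rw [if_neg h2, if_neg (by omega)]; ring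

lemma rm_lam1_big {F y : ℕ} (hy : 0 < y) {t : Multiset ℕ} (h4 : ∀ a ∈ t, 4 * F ≤ a) :
    lam1 F y t = ((RF F y).cL (t.sort (· ≤ ·)) : ℝ) := by
  have hb : bigL F t = t.sort (· ≤ ·) := by rw [bigL, Multiset.filter_eq_self.2 h4]
  have h0 : t.filter (· < 4 * F) = 0 :=
    Multiset.filter_eq_nil.2 fun a ha => not_lt.2 (h4 a ha)
  rw [lam1, h0, Multiset.card_zero, pow_zero, mul_one, ← hb]
  by_cases h : (RF F y).cL (bigL F t) = 0
  · rw [h]; simp
  obtain ⟨p, hp, -, h2, e⟩ := rm_sel1 (adm_of_cL hy (Multiset.pairwise_sort _ _) h)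
  have h1 := rm_split hp
  rw [hb, Multiset.sort_eq] at h1
  have h3 : t - sel1 F y t = p.2 := by rw [e, ← h1, add_tsub_cancel_left]
  rw [if_pos (by rw [h3, Multiset.sum_coe]; exact h2)]

lemma rm_big {F y : ℕ} (hy : 0 < y) {τ : Multiset ℕ} (h4 : ∀ a ∈ τ, 4 * F ≤ a) :
    PhiN F y τ = ((RF F y).PhiL (τ.sort (· ≤ ·)) : ℝ) := by
  have h1 : PhiN F y τ = (τ.powerset.map fun t => ((RF F y).cL (t.sort (· ≤ ·)) : ℝ)).sum :=
    congrArg _ (Multiset.map_congr rfl fun t ht => rm_lam1_big hy fun a ha =>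
      h4 a (Multiset.mem_of_le (Multiset.mem_powerset.1 ht) ha))
  have hl := Multiset.pairwise_sort τ (· ≤ ·)
  rw [h1]
  conv_lhs => rw [← Multiset.sort_eq τ (· ≤ ·), rm_powerset]
  rw [Multiset.map_coe, Multiset.sum_coe, List.map_map, RD.PhiL, Int.cast_list_sum, List.map_map]
  refine congrArg _ (List.map_congr_left fun p hp => ?_)
  simp only [Function.comp, Multiset.coe_sort]
  rw [List.mergeSort_eq_self _ (hl.sublist (splits_sublist hp).1)]

lemma rm_loss_nonneg (b : ℝ) (F y δ n : ℕ) : 0 ≤ LossF b F y δ n := by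
  unfold LossF
  split_ifs
  · exact le_max_left _ _
  · exact le_rfl

theorem hyp_of_not_good {F y δ : ℕ} {τ : Multiset ℕ} (hδ : δ < F) (hy : 0 < y)
    (hyδ : y + 2 * δ ≤ 48 * F) (h : ¬ Good y (52 * F) τ) (h4 : ∀ a ∈ τ, 4 * F ≤ a)
    (h1 : 100 * F ≤ τ.sum + δ) (h2 : τ.sum ≤ 100 * F + δ) : Hyp F y δ (τ.sort (· ≤ ·)) := by
  refine ⟨hδ, hy, hyδ, Multiset.pairwise_sort _ _, fun a ha => h4 a ((Multiset.mem_sort _).1 ha),
    fun s hs => ?_, by rwa [rm_sort_sum], by rwa [rm_sort_sum]⟩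
  have h3 := Multiset.coe_le.2 hs
  rw [Multiset.sort_eq] at h3
  exact typ_not_good h s (Multiset.mem_powerset.2 h3)

theorem abs_lam2_le {F y : ℕ} (hF : 0 < F) (hy : 0 < y) (hy1 : y ≤ 48 * F) (t t' : Multiset ℕ) :
    |lam2 F y t t'| ≤ 2 ^ 40 := by
  unfold lam2
  split_ifs
  · rw [abs_div, Nat.abs_cast]
    rcases Nat.eq_zero_or_pos ((t + t').powerset.count t) with h | h
    · rw [h]; simp
    · exact (div_le_self (abs_nonneg _) (by exact_mod_cast h)).trans (rm_abs_lam1 hF hy hy1 _)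
  · simp

theorem sum_lam2_le {F y : ℕ} (hF : 0 < F) (hy : 0 < y) (hy1 : y ≤ 48 * F) (b : ℝ) (d : ℕ) :
    ∑ d₁ ∈ d.divisors, |lam2 F y (ty b d₁) (ty b (d / d₁))| ≤ 2 ^ 40 := by
  have h := rm_sum_divisors b d (G := fun t => if t = sel1 F y (ty b d) then
    |lam1 F y (ty b d)| / ((ty b d).powerset.count (sel1 F y (ty b d)) : ℝ) else 0) fun t => by
      split_ifs
      · positivity
      · exact le_rfl
  rw [rm_sum_ite, mul_div_cancel₀ _ (rm_count F y _)] at h
  refine le_trans (le_of_eq (sum_congr rfl fun d₁ h => ?_)) (h.trans (rm_abs_lam1 hF hy hy1 _))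
  rw [rm_lam2 F y b h]
  split_ifs
  · rw [abs_div, Nat.abs_cast]
  · exact abs_zero

theorem lam2_supp {F y : ℕ} (hF : 0 < F) (hy : 0 < y) {t t' : Multiset ℕ}
    (h : lam2 F y t t' ≠ 0) : t.sum + t.card ≤ 26 * F ∧ t'.sum < y := by
  unfold lam2 at h
  split_ifs at h with e
  swap
  · exact absurd rfl h
  have h1 : lam1 F y (t + t') ≠ 0 := fun e' => h (by rw [e', zero_div])
  unfold lam1 at h1
  split_ifs at h1 with h2
  swap
  · exact absurd rfl h1
  rw [← e, add_tsub_cancel_left] at h2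
  obtain ⟨p, -, h3, -, e'⟩ := rm_sel1 (adm_of_cL hy (D := bigL F (t + t'))
    (Multiset.pairwise_sort _ _) fun e' => h1 (by rw [e']; simp))
  refine ⟨?_, h2⟩
  rw [e, e', Multiset.sum_coe, Multiset.coe_card]
  exact (rm_cells hF _).trans (Nat.mul_le_mul_right _ h3)

theorem abs_PhiN_le {F y : ℕ} (hF : 0 < F) (hy : 0 < y) (hy1 : y ≤ 48 * F) (τ : Multiset ℕ) :
    |PhiN F y τ / 2 ^ 40| ≤ 2 ^ τ.card := by
  rw [abs_div, abs_of_pos (by positivity : (0 : ℝ) < 2 ^ 40), div_le_iff₀ (by positivity)]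
  unfold PhiN
  refine (Multiset.abs_sum_le_sum_abs).trans ?_
  have h := Multiset.sum_le_card_nsmul ((τ.powerset.map (lam1 F y)).map abs) (2 ^ 40) (by
    intro x hx
    simp only [Multiset.map_map, Multiset.mem_map, Function.comp] at hx
    obtain ⟨t, -, rfl⟩ := hx
    exact rm_abs_lam1 hF hy hy1 t)
  rwa [Multiset.card_map, Multiset.card_map, Multiset.card_powerset, nsmul_eq_mul, Nat.cast_pow,
    Nat.cast_ofNat] at h

/-- the two pointwise inequalities -/
theorem point2 (b : ℝ) {F y δ n : ℕ} (hn : Squarefree n) (hδ : δ < F) (hy : 0 < y)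
    (hyδ : y + 2 * δ ≤ 48 * F) (h1 : 100 * F ≤ (ty b n).sum + δ)
    (h2 : (ty b n).sum ≤ 100 * F + δ) :
    Phi2 b (lam2 F y) n - 2 ^ 40 * Gd2 b y (52 * F) (fun τ => PhiN F y τ / 2 ^ 40) n
      ≤ (if n.Prime then 1 else 0) ∧
    (if n.Prime then 1 else 0) - LossF b F y δ n ≤
      Phi2 b (lam2 F y) n - 2 ^ 40 * Gd2 b y (52 * F) (fun τ => PhiN F y τ / 2 ^ 40) n := by
  have hL := rm_loss_nonneg b F y δ n
  rw [rm_Phi2 F y b hn]
  by_cases hp : n.Prime
  · rw [if_pos hp]
    have ht := typ_prime b hp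
    generalize ⌊Real.log n / b⌋₊ = a at ht
    rw [ht, Multiset.sum_singleton] at h1
    have hG : ¬ Good y (52 * F) (ty b n) := by
      rintro ⟨t, h3, h5, h6⟩
      rw [ht, Multiset.le_singleton] at h3
      rcases h3 with rfl | rfl
      · simp at h5; omega
      · simp at h6; omega
    rw [Gd2, if_neg hG, ht, rm_big hy (by simp; omega), Multiset.sort_singleton,
      PhiL_single (by simp [RF]; omega)]
    constructor <;> simp [hL]
  rw [if_neg hp]
  by_cases hG : Good y (52 * F) (ty b n)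
  · rw [rm_Gd2 b _ hn hG, mul_div_cancel₀ _ (by positivity), sub_self]
    exact ⟨le_rfl, by linarith⟩
  rw [Gd2, if_neg hG, mul_zero, sub_zero]
  by_cases hs : ∃ e ∈ ty b n, e < 4 * F
  · obtain ⟨e, he, he'⟩ := hs
    obtain ⟨σ, hσ⟩ := Multiset.exists_cons_of_mem he
    rw [hσ] at hG ⊢
    rw [rm_small hG he' (by omega)]
    exact ⟨le_rfl, by linarith⟩
  push Not at hs
  have H := hyp_of_not_good hδ hy hyδ hG hs h1 h2
  have hk : 2 ≤ ((ty b n).sort (· ≤ ·)).length := by
    rw [Multiset.length_sort]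
    by_contra hk
    rcases (by omega : (ty b n).card = 0 ∨ (ty b n).card = 1) with h0 | h0
    · rw [Multiset.card_eq_zero.1 h0, Multiset.sum_zero] at h1
      omega
    · rw [typ_card, ← ArithmeticFunction.cardFactors_apply,
        ArithmeticFunction.cardFactors_eq_one_iff_prime] at h0
      exact hp h0
  rw [rm_big hy hs]
  refine ⟨by exact_mod_cast PhiL_nonpos H hk, ?_⟩
  by_cases hx : ∃ a ∈ ty b n, y ≤ a
  · obtain ⟨a, ha, hx⟩ := hx
    rw [PhiL_zero H hk ⟨a, (Multiset.mem_sort _).2 ha, hx⟩, Int.cast_zero]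
    linarith
  · push Not at hx
    rw [LossF, if_pos ⟨hn, hG, fun a ha => ⟨hs a ha, hx a ha⟩, h1, h2⟩]
    linarith [le_max_right 0 (-((RF F y).PhiL ((ty b n).sort (· ≤ ·)) : ℝ))]

end Pool.Agent.Work.MP_82fd4a_nt
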