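import Pool.Agent.Work.MP_82fd4a_nt.RuleA

/-! Transfer of the rule from one scale to another. -/

set_option autoImplicit false
open Filter Topology Finset

namespace Pool.Agent.Work.MP_82fd4a_nt

/-- the three conditions are preserved on the sublists of `l` -/
structure RMap (R R' : RD) (f : ℕ → ℕ) (l : List ℕ) : Prop where
  hL : ∀ s : List ℕ, s.Subperm l → (R.L s ↔ R'.L (s.map f))
  hQ2 : ∀ s : List ℕ, s.Subperm (l ++ l) → (R.Q s ↔ R'.Q (s.map f))
  hH2 : ∀ s : List ℕ, s.Subperm (l ++ l) → (R.H s ↔ R'.H (s.map f))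

lemma rmap_ex (f : ℕ → ℕ) (D : List ℕ) (P : List ℕ × List ℕ → Prop) :
    (∃ p ∈ splits (D.map f), P p) ↔ ∃ p ∈ splits D, P (p.1.map f, p.2.map f) := by
  rw [splits_map]
  constructor
  · rintro ⟨p, hp, h⟩
    obtain ⟨q, hq, rfl⟩ := List.mem_map.1 hp
    exact ⟨q, hq, h⟩
  · rintro ⟨q, hq, h⟩
    exact ⟨_, List.mem_map.2 ⟨q, hq, rfl⟩, h⟩

lemma rmap_ssum (f : ℕ → ℕ) (D : List ℕ) (g : List ℕ → List ℕ → ℤ) :
    ssum (D.map f) g = ssum D fun p q => g (p.map f) (q.map f) := by
  simp [ssum, splits_map, List.map_map, Function.comp_def]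

lemma rmap_sub {s t l : List ℕ} (h : t.Subperm l) (hc : ∀ x, s.count x ≤ t.count x) :
    s.Subperm l :=
  (List.subperm_ext_iff.2 fun x _ => hc x).trans h

lemma rmap_two {e : ℕ} {s l : List ℕ} (he : e ∈ l) (hs : s.Subperm l) :
    (e :: s).Subperm (l ++ l) :=
  List.Subperm.append (List.singleton_subperm_iff.2 he) hs

namespace RMap

variable {R R' : RD} {f : ℕ → ℕ} {l : List ℕ} (M : RMap R R' f l)
include M

lemma hQ {s : List ℕ} (h : s.Subperm l) : R.Q s ↔ R'.Q (s.map f) :=
  M.hQ2 s (h.trans (List.sublist_append_left l l).subperm)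

lemma adm {D : List ℕ} (h : D.Subperm l) : R.adm D ↔ R'.adm (D.map f) := by
  rw [RD.adm, RD.adm, rmap_ex]
  refine exists_congr fun p => and_congr_right fun hp => ?_
  exact and_congr (M.hQ ((splits_sublist hp).1.subperm.trans h))
    (M.hL _ ((splits_sublist hp).2.subperm.trans h))

lemma safe {D : List ℕ} (h : D.Subperm l) {e : ℕ} (he : e ∈ l) :
    R.safe D e ↔ R'.safe (D.map f) (f e) := by
  rw [RD.safe, RD.safe, rmap_ex]
  refine exists_congr fun p => and_congr_right fun hp => ?_
  have h1 := (splits_sublist hp).1.subperm.trans h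
  have h2 := (splits_sublist hp).2.subperm.trans h
  exact and_congr (M.hQ h1) (and_congr (M.hL _ h2)
    (or_congr (M.hH2 _ (rmap_two he h2)) (M.hQ2 _ (rmap_two he h1))))

lemma fix {t : List ℕ} {x : ℕ} (h : (x :: t).Subperm l) :
    R.fix t x ↔ R'.fix (t.map f) (f x) := by
  rw [RD.fix, RD.fix, rmap_ex]
  refine exists_congr fun p => and_congr_right fun hp => ?_
  have h1 := ((splits_sublist hp).1.cons_cons x).subperm.trans h
  exact and_congr (M.hQ ((List.sublist_cons_self x _).subperm.trans h1)) (not_congr (M.hL _ h1))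

lemma step {a : ℕ} {t : List ℕ} (h : (a :: t).Subperm l) :
    R.step a t ↔ R'.step (f a) (t.map f) := by
  have ha : [a].Subperm l := (List.singleton_sublist.2 List.mem_cons_self).subperm.trans h
  match t, h with
  | [], h => exact M.hL _ h
  | [_], _ => exact M.hQ ha
  | [_, _], h => exact M.adm h
  | [b, c, d], h =>
    refine and_congr (M.adm h) (or_congr (M.fix (rmap_sub h fun x => ?_))
      (M.safe h (h.subset List.mem_cons_self)))
    simp only [List.count_cons, List.count_nil]
    omega
  | [_, _, _, _], h => exact M.adm h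
  | b :: c :: d :: e :: g :: t, h =>
    simp only [RD.step, List.map_cons, List.length_map]
    split_ifs
    · exact M.hL _ h
    · exact M.hQ ha

lemma chi {D : List ℕ} (h : D.Subperm l) : R.chi D ↔ R'.chi (D.map f) := by
  induction D with
  | nil => exact Iff.rfl
  | cons a t ih =>
    exact and_congr (ih ((List.sublist_cons_self a t).subperm.trans h)) (M.step h)

lemma admL {s b : List ℕ} (h : (s ++ b).Subperm l) :
    R.admL s b ↔ R'.admL (s.map f) (b.map f) := by
  rw [RD.admL, RD.admL, rmap_ex]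
  refine exists_congr fun p => and_congr_right fun hp => ?_
  have h1 := ((splits_sublist hp).1.append_right b).subperm.trans h
  refine and_congr (M.hQ ((List.sublist_append_left _ b).subperm.trans h1)) (not_congr ?_)
  rw [← List.map_append]
  exact M.hL _ h1

lemma fixL {s b : List ℕ} (h : (s ++ b).Subperm l) :
    R.fixL s b ↔ R'.fixL (s.map f) (b.map f) := by
  rw [RD.fixL, RD.fixL, rmap_ex]
  refine exists_congr fun p => and_congr_right fun hp => ?_
  have h1 := (splits_sublist hp).1.subperm.trans ((List.sublist_append_left s b).subperm.trans h)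
  have h2 := ((splits_sublist hp).2.append_right b).subperm.trans h
  refine and_congr (M.hQ h1) ?_
  rw [← List.map_append]
  exact M.hL _ h2

lemma wt {e : ℕ} {t ρ : List ℕ} (h : (e :: (t ++ ρ)).Subperm l) :
    R.wt e t ρ ↔ R'.wt (f e) (t.map f) (ρ.map f) := by
  match t, h with
  | [], _ => exact Iff.rfl
  | [q], h =>
    refine and_congr (M.hQ (rmap_sub h fun x => ?_)) (and_congr
      (not_congr (M.hQ (s := [e, q]) (rmap_sub h fun x => ?_)))
      (M.hL (q :: ρ) (rmap_sub h fun x => ?_))) <;>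
    simp only [List.count_cons, List.count_nil, List.count_append] <;> omega
  | [_, _], _ => exact Iff.rfl
  | [c, b, a], h =>
    refine and_congr (M.hQ (rmap_sub h fun x => ?_)) (and_congr
      (M.admL (s := [b, a]) (b := e :: c :: ρ) (rmap_sub h fun x => ?_)) (and_congr
      (M.admL (s := [c, b, a]) (b := e :: ρ) (rmap_sub h fun x => ?_)) (and_congr
      (M.fixL (s := [c, b, a]) (b := e :: ρ) (rmap_sub h fun x => ?_))
      (not_congr (M.admL (s := [e, c, b, a]) (b := ρ) (rmap_sub h fun x => ?_)))))) <;>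
    simp only [List.count_cons, List.count_nil, List.count_append] <;> omega
  | _ :: _ :: _ :: _ :: _, _ => exact Iff.rfl

lemma w {E : List ℕ} (h : E.Subperm l) : R.w E = R'.w (E.map f) := by
  cases E with
  | nil => rfl
  | cons e E =>
    rw [List.map_cons, RD.w_cons, RD.w_cons, rmap_ssum, ind_congr (M.hL _ h), List.map_cons]
    congr 1
    exact ssum_congr fun p hp =>
      ind_congr (M.wt (((splits_perm hp).cons e).subperm.trans h))

lemma cond {E : List ℕ} {q : ℕ} (h : (q :: E).Subperm l) :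
    R.cond E q ↔ R'.cond (E.map f) (f q) := by
  rw [RD.cond, RD.cond, List.length_map]
  exact and_congr Iff.rfl (M.safe h (h.subset List.mem_cons_self))

lemma chiU {E s : List ℕ} (h : (s ++ E).Subperm l) :
    R.chiU E s = R'.chiU (E.map f) (s.map f) := by
  match s, h with
  | [], _ => rfl
  | [q], h => exact congrArg Neg.neg (ind_congr (M.cond h))
  | [q', q], h =>
    exact ind_congr (and_congr (M.cond ((List.sublist_cons_self q' _).subperm.trans h)) (M.adm h))
  | _ :: _ :: _ :: _, _ => rfl

lemma cL {D : List ℕ} (h : D.Subperm l) : R.cL D = R'.cL (D.map f) := by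
  have e : ∀ (S : RD) (D : List ℕ), S.cL D =
      (-1) ^ D.length * ind (S.chi D) - ssum D fun E s => S.w E * S.chiU E s := fun _ _ => rfl
  rw [e, e, List.length_map, ind_congr (M.chi h), rmap_ssum]
  congr 1
  refine ssum_congr fun p hp => ?_
  rw [M.w ((splits_sublist hp).1.subperm.trans h),
    M.chiU ((List.perm_append_comm.trans (splits_perm hp)).subperm.trans h)]

end RMap

theorem PhiL_map (R R' : RD) (f : ℕ → ℕ) (l : List ℕ)
    (hL : ∀ s : List ℕ, s.Subperm l → (R.L s ↔ R'.L (s.map f)))
    (hQ : ∀ s : List ℕ, s.Subperm (l ++ l) → (R.Q s ↔ R'.Q (s.map f)))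
    (hH : ∀ s : List ℕ, s.Subperm (l ++ l) → (R.H s ↔ R'.H (s.map f))) :
    R.PhiL l = R'.PhiL (l.map f) := by
  have M : RMap R R' f l := ⟨hL, hQ, hH⟩
  have e : ∀ (S : RD) (D : List ℕ), S.PhiL D = ssum D fun E _ => S.cL E := fun _ _ => rfl
  rw [e, e, rmap_ssum]
  exact ssum_congr fun p hp => M.cL (splits_sublist hp).1.subperm

lemma rmap_lo (F : ℕ) (s : List ℕ) : (s.map (· / F)).sum * F ≤ s.sum := by
  induction s with
  | nil => simp
  | cons a t ih =>
    simp only [List.map_cons, List.sum_cons, add_mul]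
    exact add_le_add (Nat.div_mul_le_self a F) ih

lemma rmap_hi {F : ℕ} (hF : 0 < F) (s : List ℕ) :
    s.sum ≤ ((s.map (· / F)).sum + s.length) * F := by
  induction s with
  | nil => simp
  | cons a t ih =>
    have h := Nat.lt_div_mul_add (a := a) hF
    simp only [List.map_cons, List.sum_cons, List.length_cons, add_mul, one_mul] at ih ⊢
    omega

lemma rmap_compl {s l : List ℕ} (hs : s.Subperm l) (F : ℕ) : ∃ t : List ℕ, t.Subperm l ∧
    l.sum = s.sum + t.sum ∧ l.length = s.length + t.length ∧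
    (l.map (· / F)).sum = (s.map (· / F)).sum + (t.map (· / F)).sum := by
  obtain ⟨s', h1, h2⟩ := hs
  obtain ⟨t, ht⟩ := h2.exists_perm_append
  have h := ht.trans (h1.append_right t)
  refine ⟨t, (List.sublist_append_right s t).subperm.trans h.symm.subperm, ?_, ?_, ?_⟩
  · rw [h.sum_eq, List.sum_append]
  · rw [h.length_eq, List.length_append]
  · rw [(h.map _).sum_eq, List.map_append, List.sum_append]

lemma rmap_cells {F y δ : ℕ} {l : List ℕ} (H : Hyp F y δ l) : (l.map (· / F)).sum ≤ 100 := by
  by_contra h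
  have h1 := Nat.mul_le_mul_right F (show 101 ≤ (l.map (· / F)).sum by omega)
  have h2 := rmap_lo F l
  have h3 := H.hi
  have h4 := H.δF
  omega

lemma rmap_47 {F y δ : ℕ} {l : List ℕ} (H : Hyp F y δ l) {s : List ℕ} (h : s.sum < y) :
    (s.map (· / F)).sum ≤ 47 := by
  by_contra h0
  have h1 := Nat.mul_le_mul_right F (show 48 ≤ (s.map (· / F)).sum by omega)
  have h2 := rmap_lo F s
  have h3 := H.yδ
  omega

theorem box_L {F y δ : ℕ} {l : List ℕ} (H : Hyp F y δ l) {s : List ℕ} (hs : s.Subperm l)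
    (h : (RB (100 - (l.map (· / F)).sum)).L (s.map (· / F))) : s.sum < y := by
  have hF : 0 < F := lt_of_le_of_lt (Nat.zero_le _) H.δF
  change (s.map (· / F)).sum + min (s.map (· / F)).length (100 - (l.map (· / F)).sum) ≤ 52 at h
  rw [List.length_map] at h
  obtain ⟨t, ht, e1, -, e3⟩ := rmap_compl hs F
  have c1 := rmap_cells H
  have h3 := H.hi
  have h4 := H.δF
  have h5 := H.yδ
  rcases H.bad s hs with h1 | h1
  · exact h1
  · exfalso
    rcases le_total s.length (100 - (l.map (· / F)).sum) with h2 | h2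
    · rw [min_eq_left h2] at h
      have h6 := (rmap_hi hF s).trans (Nat.mul_le_mul_right F h)
      omega
    · rw [min_eq_right h2] at h
      have h6 := Nat.mul_le_mul_right F (show 48 ≤ (t.map (· / F)).sum by omega)
      have h7 := rmap_lo F t
      rcases H.bad t ht with h8 | h8 <;> omega

theorem box_L' {F y δ : ℕ} {l : List ℕ} (H : Hyp F y δ l) (hl : l.length ≤ 11) {s : List ℕ}
    (hs : s.Subperm l) (h : s.sum < y) :
    (RB (100 - (l.map (· / F)).sum)).L (s.map (· / F)) := by
  have hF : 0 < F := lt_of_le_of_lt (Nat.zero_le _) H.δF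
  change (s.map (· / F)).sum + min (s.map (· / F)).length (100 - (l.map (· / F)).sum) ≤ 52
  rw [List.length_map]
  obtain ⟨t, ht, e1, e2, e3⟩ := rmap_compl hs F
  have c1 := rmap_cells H
  have c2 := rmap_47 H h
  have h3 := H.lo
  have h4 := H.δF
  have h5 := H.yδ
  by_contra h0
  have h6 := (rmap_hi hF t).trans (Nat.mul_le_mul_right F
    (show (t.map (· / F)).sum + t.length ≤ 52 by omega))
  rcases H.bad t ht with h8 | h8 <;> omega

theorem alive_of_hyp {F y δ : ℕ} {l : List ℕ} (H : Hyp F y δ l) (h : ∀ a ∈ l, a < y) :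
    Alive (100 - (l.map (· / F)).sum) (l.map (· / F)) := by
  have hF : 0 < F := lt_of_le_of_lt (Nat.zero_le _) H.δF
  have c1 := rmap_cells H
  have h3 := H.lo
  have h4 := H.δF
  have h5 := H.yδ
  refine ⟨H.sorted.map _ fun a b hab => Nat.div_le_div_right hab, ?_, by omega, ?_, ?_⟩
  · intro c hc
    obtain ⟨a, ha, rfl⟩ := List.mem_map.1 hc
    refine ⟨(Nat.le_div_iff_mul_le hF).2 (H.big a ha), Nat.lt_succ_iff.1 ?_⟩
    have := h a ha
    exact (Nat.div_lt_iff_lt_mul hF).2 (by omega)
  · rw [List.length_map]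
    by_contra h0
    have h6 := (rmap_hi hF l).trans (Nat.mul_le_mul_right F
      (show (l.map (· / F)).sum + l.length ≤ 99 by omega))
    omega
  · intro p hp h1
    rw [splits_map] at hp
    obtain ⟨q, hq, rfl⟩ := List.mem_map.1 hp
    have h6 := box_L H (splits_sublist hq).1.subperm h1
    refine ⟨rmap_47 H h6, fun h2 => ?_⟩
    have h7 := box_L H (splits_sublist hq).2.subperm h2
    have h8 := splits_sum hq
    omega

theorem PhiL_box {F y δ : ℕ} {l : List ℕ} (H : Hyp F y δ l) (hl : l.length ≤ 11) :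
    (RF F y).PhiL l = (RB (100 - (l.map (· / F)).sum)).PhiL (l.map (· / F)) := by
  refine PhiL_map _ _ _ l (fun s hs => ⟨box_L' H hl hs, box_L H hs⟩) (fun s _ => ?_) fun s _ => ?_
  · simp only [RF, RB, List.length_map]
  · simp only [RF, RB, List.length_map]

end Pool.Agent.Work.MP_82fd4a_nt
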