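import Pool.Agent.Work.MP_82fd4a_nt.LossB
import Pool.Agent.Work.MP_82fd4a_nt.RuleM
import Pool.Agent.Work.MP_82fd4a_nt.RuleMap

/-! Types with eleven to eighteen parts. -/

set_option autoImplicit false
open Filter Topology Finset

namespace Pool.Agent.Work.MP_82fd4a_nt

lemma lossM_ty (b : ℝ) {l : List ℕ} (h : ∀ q ∈ l, q.Prime) :
    l.prod ≠ 0 ∧ ty b l.prod = (l.map (fs b) : List ℕ) := by
  induction l with
  | nil => simp [ty]
  | cons q l ih =>
    have hq := h q List.mem_cons_self
    obtain ⟨h1, h2⟩ := ih fun r hr => h r (List.mem_cons_of_mem _ hr)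
    rw [List.prod_cons, typ_prime_mul b hq h1, h2, ← fs_prime b hq]
    exact ⟨mul_ne_zero hq.ne_zero h1, rfl⟩

lemma lossM_prc {x F : ℕ} {b : ℝ} {l u : List ℕ}
    (h : List.Forall₂ (· ∈ ·) l (u.map (Prc x b F))) :
    (∀ q ∈ l, q.Prime) ∧ (l.map (fs b)).map (· / F) = u := by
  induction u generalizing l with
  | nil => simp_all
  | cons v u ih =>
    obtain ⟨q, l, h1, h2, rfl⟩ := List.forall₂_cons_right_iff.1 h
    obtain ⟨-, h3, h4⟩ := mem_filter.1 h1
    obtain ⟨h5, h6⟩ := ih h2
    exact ⟨List.forall_mem_cons.2 ⟨h3, h5⟩, by simp only [List.map_cons, h4, h6]⟩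

lemma lossM_psum_sum (V : List (Finset ℕ)) (A : Finset ℕ) (F : ℕ → ℕ → ℝ) :
    ∑ a ∈ A, psum V (F a) = psum V fun n => ∑ a ∈ A, F a n := by
  induction V generalizing F with
  | nil => rfl
  | cons W V ih =>
    simp only [psum]
    rw [sum_comm]
    exact sum_congr rfl fun w _ => ih fun a n => F a (w * n)

lemma lossM_hyp {F y δ : ℕ} {τ : Multiset ℕ} (hδ : δ < F) (hy : 0 < y)
    (hyδ : y + 2 * δ ≤ 48 * F) (h : BadT F y δ τ) : Hyp F y δ (τ.sort (· ≤ ·)) :=
  hyp_of_not_good hδ hy hyδ h.1 (fun a ha => (h.2.1 a ha).1) h.2.2.1 h.2.2.2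

lemma lossM_small {F y δ : ℕ} (hδ : δ < F) (hy : 0 < y) (hyδ : y + 2 * δ ≤ 48 * F)
    {s t c p : List ℕ} (h : BadT F y δ (s ++ t : List ℕ)) (hc : ((s ++ t).map (· / F)).Perm c)
    (hp : (s.map (· / F)).Perm p) (hL : (RB (100 - c.sum)).L p) : s.sum < y := by
  have h1 : (((s ++ t : List ℕ) : Multiset ℕ).sort (· ≤ ·)).Perm (s ++ t) :=
    Multiset.coe_eq_coe.1 (Multiset.sort_eq _ _)
  refine box_L (lossM_hyp hδ hy hyδ h) ((List.sublist_append_left s t).subperm.trans
    h1.symm.subperm) ?_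
  rw [((h1.map _).trans hc).sum_eq]
  simpa only [RB, hp.sum_eq, hp.length_eq] using hL

lemma lossM_fs_mono {b : ℝ} (hb : 0 < b) {p q : ℕ} (hp : p.Prime) (hq : q.Prime) (h : p ≤ q) :
    fs b p ≤ fs b q := by
  rw [fs_prime b hp, fs_prime b hq]
  exact Nat.floor_mono (div_le_div_of_nonneg_right
    (Real.log_le_log (by exact_mod_cast hp.pos) (by exact_mod_cast h)) hb.le)

lemma lossM_head {c : List ℕ} {w : ℕ} (hc : c ≠ []) (h : ∀ u ∈ c, w ≤ u) : w ≤ c.headI := by
  cases c with
  | nil => exact absurd rfl hc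
  | cons a c => exact h a List.mem_cons_self

/-- the smallest prime factors are grouped into one block -/
lemma lossM_split {x F y δ j n k : ℕ} {b : ℝ} (hk : k = 10) (hb : 0 < b) (hδ : δ < F) (hy : 0 < y)
    (hyδ : y + 2 * δ ≤ 48 * F) (hj : 2 ≤ j) (hj' : j ≤ 9) (hn : n ∈ Icc 1 (2 * x))
    (hs : Squarefree n) (hB : BadT F y δ (ty b n)) (hc : (ty b n).card = 9 + j) :
    ∃ c ∈ Boxes k, ∃ v ∈ c, (4 * j ≤ v ∧ v < j * (c.headI + 1)) ∧
      ∃ a ∈ Blk x b F j (c.headI + 1) v, ∃ n' ∈ Icc 1 (2 * x), Squarefree n' ∧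
        (n'.primeFactorsList.map fun p => fs b p / F).Perm (c.erase v) ∧
          BadT F y δ (fs b a ::ₘ ty b n') ∧ a * n' = n := by
  have hF : 0 < F := by omega
  obtain ⟨n1, n2⟩ := mem_Icc.1 hn
  set P := n.primeFactorsList with hP
  have hPl : P.length = 9 + j := by simpa [ty] using hc
  have hPp : ∀ q ∈ P, q.Prime := fun q => Nat.prime_of_mem_primeFactorsList
  have p1 : ∀ q ∈ P.take j, q.Prime := fun q hq => hPp q (List.mem_of_mem_take hq)
  have p2 : ∀ q ∈ P.drop j, q.Prime := fun q hq => hPp q (List.mem_of_mem_drop hq)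
  obtain ⟨a0, ta⟩ := lossM_ty b p1
  obtain ⟨b0, tb⟩ := lossM_ty b p2
  set a := (P.take j).prod with ha
  set n' := (P.drop j).prod with hn'
  have hprod : a * n' = n := by
    rw [ha, hn', List.prod_take_mul_prod_drop, hP, Nat.prod_primeFactorsList (by omega)]
  have hty : ty b n = ty b a + ty b n' := by rw [← hprod, ty_mul b a0 b0]
  have la : ((P.take j).map (fs b)).length = j := by simp [hPl]
  have lb : ((P.drop j).map (fs b)).length = 9 := by simp [hPl]
  have hle : ∀ u ∈ ty b a, ∀ w ∈ ty b n', u ≤ w := by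
    intro u hu w hw
    rw [ta, Multiset.mem_coe, List.mem_map] at hu
    rw [tb, Multiset.mem_coe, List.mem_map] at hw
    obtain ⟨p, hp, rfl⟩ := hu
    obtain ⟨q, hq, rfl⟩ := hw
    have h1 : (P.take j ++ P.drop j).Pairwise (· ≤ ·) := by
      rw [List.take_append_drop]
      exact (Nat.primeFactorsList_sorted n).pairwise
    exact lossM_fs_mono hb (p1 p hp) (p2 q hq) ((List.pairwise_append.1 h1).2.2 p hp q hq)
  have ca : (ty b a).card = j := by rw [ta, Multiset.coe_card, la]
  have cb : (ty b n').card = 9 := by rw [tb, Multiset.coe_card, lb]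
  have big : ∀ u ∈ ty b a, 4 * F ≤ u := fun u hu =>
    (hB.2.1 u (hty ▸ Multiset.mem_add.2 (Or.inl hu))).1
  have h4 : j * (4 * F) ≤ fs b a := by
    have := Multiset.card_nsmul_le_sum big
    rwa [ca, smul_eq_mul] at this
  have hhalf : fs b a ≤ fs b n' := by
    have h1 : ∀ w ∈ ty b n', fs b a ≤ 9 * w := fun w hw => by
      have := Multiset.sum_le_card_nsmul (ty b a) w fun u hu => hle u hu w hw
      rw [ca, smul_eq_mul] at this
      exact this.trans (Nat.mul_le_mul_right _ hj')
    have h2 := Multiset.card_nsmul_le_sum (s := (ty b n').map (9 * ·)) (a := fs b a) (by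
      simpa using h1)
    rw [Multiset.card_map, cb, Multiset.sum_map_mul_left, Multiset.map_id', smul_eq_mul] at h2
    unfold fs at h2 ⊢
    omega
  have hsum : (fs b a ::ₘ ty b n').sum = (ty b n).sum := by
    rw [hty, Multiset.sum_cons, Multiset.sum_add]
    rfl
  have hB' : BadT F y δ (fs b a ::ₘ ty b n') := by
    refine ⟨?_, fun u hu => ?_, hsum ▸ hB.2.2.1, hsum ▸ hB.2.2.2⟩
    · rintro ⟨t, t1, t2, t3⟩
      by_cases ht : fs b a ∈ t
      · obtain ⟨t, rfl⟩ := Multiset.exists_cons_of_mem ht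
        rw [Multiset.sum_cons] at t2 t3
        exact hB.1 ⟨ty b a + t, hty ▸ Multiset.add_le_add_left ((Multiset.cons_le_cons_iff _).1 t1),
          by rwa [Multiset.sum_add], by rwa [Multiset.sum_add]⟩
      · exact hB.1 ⟨t, hty ▸ ((Multiset.le_cons_of_notMem ht).1 t1).trans
          (Multiset.le_add_left _ _), t2, t3⟩
    · rcases Multiset.mem_cons.1 hu with rfl | hu
      · refine ⟨by nlinarith, not_le.1 fun h => hB.1 ⟨ty b a, hty ▸ Multiset.le_add_right _ _, h, ?_⟩⟩
        have := hB.2.2.2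
        rw [hty, Multiset.sum_add] at this
        unfold fs at hhalf
        omega
      · exact hB.2.1 u (hty ▸ Multiset.mem_add.2 (Or.inr hu))
  set c := ((fs b a ::ₘ ty b n').sort (· ≤ ·)).map (· / F) with hc'
  have hperm : c.Perm (fs b a / F :: ((P.drop j).map (fs b)).map (· / F)) := by
    refine List.Perm.map (· / F) (l₂ := fs b a :: (P.drop j).map (fs b)) ?_
    rw [← Multiset.coe_eq_coe, Multiset.sort_eq, tb, Multiset.cons_coe]
  have hlt : ∀ u ∈ ty b a, u < (c.headI + 1) * F := fun u hu => by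
    refine (Nat.div_lt_iff_lt_mul hF).1 (Nat.lt_succ_of_le (lossM_head ?_ fun w hw => ?_))
    · exact fun h => by simpa [h] using hperm.length_eq
    · obtain ⟨w', hw', rfl⟩ := List.mem_map.1 hw
      refine Nat.div_le_div_right ?_
      rcases Multiset.mem_cons.1 ((Multiset.mem_sort _).1 hw') with rfl | hw''
      · exact Multiset.single_le_sum (fun _ _ => Nat.zero_le _) u hu
      · exact hle u hu w' hw''
  have da : a ∣ n := Dvd.intro _ hprod
  have db : n' ∣ n := Dvd.intro_left _ hprod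
  refine ⟨c, mem_Boxes.2 ⟨by simp [hperm.length_eq, hPl, hk], alive_of_hyp (lossM_hyp hδ hy hyδ hB')
    fun u hu => (hB'.2.1 u ((Multiset.mem_sort _).1 hu)).2⟩, fs b a / F,
    hperm.symm.subset List.mem_cons_self, ⟨(Nat.le_div_iff_mul_le hF).2 (by nlinarith), ?_⟩, a,
    mem_filter.2 ⟨mem_Icc.2 ⟨Nat.pos_of_ne_zero a0, (Nat.le_of_dvd n1 da).trans n2⟩,
      hs.squarefree_of_dvd da, ca, fun u hu => ⟨big u hu, hlt u hu⟩, rfl⟩, n',
    mem_Icc.2 ⟨Nat.pos_of_ne_zero b0, (Nat.le_of_dvd n1 db).trans n2⟩, hs.squarefree_of_dvd db,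
    ?_, hB', hprod⟩
  · refine (Nat.div_lt_iff_lt_mul hF).2 ?_
    have h1 := Multiset.sum_le_card_nsmul (ty b a) ((c.headI + 1) * F - 1)
      fun u hu => Nat.le_sub_one_of_lt (hlt u hu)
    rw [ca, smul_eq_mul] at h1
    have h2 : 0 < (c.headI + 1) * F := by positivity
    rw [mul_assoc]
    exact h1.trans_lt (Nat.mul_lt_mul_of_pos_left (by omega) (by omega))
  · have h1 := hperm.erase (fs b a / F)
    rw [List.erase_cons_head, List.map_map] at h1
    exact ((Nat.primeFactorsList_unique rfl p2).symm.map _).trans h1.symm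

open Classical in
/-- the condition of `box_sum` -/
lemma lossM_term {x B y δ m : ℕ} {b : ℝ} (hδ : δ ≤ B) {τ : Multiset ℕ}
    {a₁ n n' : ℕ} (hn : n = n') (hτ : τ.sum = fs b n')
    (h : BadT (256 * B) y δ τ → fs b a₁ < 48 * (256 * B)) :
    (if BadT (256 * B) y δ τ then gk x (Real.log x ^ 2) (m * n) else 0) ≤
      if fs b a₁ < 48 * (256 * B) ∧ 100 * (256 * B) ≤ fs b n' + B ∧ fs b n' ≤ 100 * (256 * B) + B
        then gk x (Real.log x ^ 2) (m * n') else 0 := by
  split_ifs with h1 h2 h2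
  · rw [hn]
  · exact absurd ⟨h h1, by linarith [h1.2.2.1], by linarith [h1.2.2.2]⟩ h2
  · exact gk_nonneg _ _ _
  · exact le_rfl

open Classical in
lemma lossM_box : ∀ᶠ x : ℕ in atTop, ∀ (b : ℝ) (B y δ m j h v k : ℕ) (c : List ℕ), 0 < b →
    1 ≤ B → Real.log x / 110 ≤ 256 * B * b → 1 ≤ m → δ ≤ B → 0 < y →
    y + 2 * δ ≤ 48 * (256 * B) → 2 ≤ j → 4 * j ≤ v → k = 10 → c ∈ Boxes k → v ∈ c →
    ∑ a ∈ Blk x b (256 * B) j h v, ∑ n ∈ Icc 1 (2 * x) with Squarefree n ∧
      (n.primeFactorsList.map fun p => fs b p / (256 * B)).Perm (c.erase v),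
        (if BadT (256 * B) y δ (fs b a ::ₘ ty b n) then gk x (Real.log x ^ 2) (m * (a * n)) else 0)
      ≤ 1015 / 1000 * Gam x (Real.log x ^ 2) / (m * (256 * B * b)) *
        (c.count v * kap j h v * vol (100 - c.sum) c) := by
  filter_upwards [box_sum, prime_var, block_var] with x h1 h2 h3 b B y δ m j h v k c hb hB hx hm hδ
    hy hyδ hj hv hk hc hvc
  obtain ⟨hl, hs, h4, hr, hr', hA⟩ := mem_Boxes.1 hc
  rw [hk] at hl
  obtain ⟨p, hp, hL, hV⟩ := Vm_spec (100 - c.sum) c
  have hpc := splits_perm hp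
  have hδ' : δ < 256 * B := by omega
  set F := 256 * B with hF
  set pv : ℕ → Finset ℕ × ℕ × ℝ := fun u => (Prc x b F u, u, 1) with hpv
  have hvar : ∀ u : List ℕ, (∀ w ∈ u, w ∈ c) → ∀ w ∈ u.map pv, Var b B w := fun u hu w hw => by
    obtain ⟨w', hw', rfl⟩ := List.mem_map.1 hw
    exact h2 b B w' hb hB hx (h4 w' (hu w' hw')).1 (h4 w' (hu w' hw')).2
  have hblk := h3 b B j h v hb hB hx hj hv
  have m1 : ∀ u : List ℕ, (u.map pv).map (·.1) = u.map (Prc x b F) := fun u => by
    simp [hpv]
  have m2 : ∀ u : List ℕ, (u.map pv).map (·.2.1) = u := fun u => by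
    simp [hpv, Function.comp_def]
  have m3 : ∀ u : List ℕ, ((u.map pv).map (·.2.2)).prod = 1 := fun u => by
    simp [hpv, Function.comp_def]
  set H : ℕ → ℕ → ℝ := fun a n =>
    if BadT F y δ (fs b a ::ₘ ty b n) then gk x (Real.log x ^ 2) (m * (a * n)) else 0 with hH
  have hH0 : ∀ a n, 0 ≤ H a n := fun a n => by
    simp only [hH]
    split_ifs
    exacts [gk_nonneg _ _ _, le_rfl]
  have tup : ∀ u₁ u₂ : List ℕ, ∀ e, (u₁ ++ (u₂ ++ [e])).Perm (c.erase v) →
      (mf (c.erase v) : ℝ) * ∑ a ∈ Blk x b F j h v, ∑ n ∈ Icc 1 (2 * x) with Squarefree n ∧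
        (n.primeFactorsList.map fun p => fs b p / F).Perm (c.erase v), H a n ≤
      ∑ a ∈ Blk x b F j h v, psum (u₁.map (Prc x b F)) fun a₁ => psum (u₂.map (Prc x b F))
        fun a₂ => ∑ q ∈ Prc x b F e, H a (a₁ * (a₂ * q)) := by
    intro u₁ u₂ e hu
    rw [mul_sum]
    refine sum_le_sum fun a _ => ?_
    have := tuple_le (fun p => fs b p / F) (2 * x) (u₁ ++ (u₂ ++ [e])) (H a) (hH0 a)
    rw [mf_perm hu, List.map_append, List.map_append, psum_append] at this
    simp only [psum_append, List.map_cons, List.map_nil, psum, mul_one] at this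
    refine le_trans (le_of_eq ?_) this
    congr 1
    exact sum_congr (filter_congr fun n _ => and_congr_right fun _ =>
      ⟨fun h => h.trans hu.symm, fun h => h.trans hu⟩) fun _ _ => rfl
  have tyq : ∀ l₁ l₂ : List ℕ, ∀ q, (∀ r ∈ l₁, r.Prime) → (∀ r ∈ l₂, r.Prime) → q.Prime →
      ty b (l₁.prod * (l₂.prod * q)) =
        (l₁.map (fs b) ++ (l₂.map (fs b) ++ [fs b q]) : List ℕ) := fun l₁ l₂ q a1 a2 a3 => by
    simpa using (lossM_ty b (l := l₁ ++ (l₂ ++ [q])) (by
      simp only [List.mem_append, List.mem_singleton]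
      rintro r (hr | hr | rfl)
      exacts [a1 r hr, a2 r hr, a3])).2
  have key : (mf (c.erase v) : ℝ) * ∑ a ∈ Blk x b F j h v, ∑ n ∈ Icc 1 (2 * x) with Squarefree n ∧
        (n.primeFactorsList.map fun p => fs b p / F).Perm (c.erase v), H a n ≤
      1015 / 1000 * Gam x (Real.log x ^ 2) / (m * (256 * B * b)) * (kap j h v *
        (Vm (100 - c.sum) c / (256 ^ (c.length - 1) * pend (100 - c.sum) c))) := by
    have hlen := splits_length hp
    by_cases hv1 : v ∈ p.1
    · obtain ⟨e, u₂, he⟩ : ∃ e u₂, p.2 = e :: u₂ :=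
        List.exists_cons_of_ne_nil fun h => (hA p hp hL).2 (by simp [h, RB])
      have q1 := List.perm_cons_erase hv1
      have q2 : (v :: (p.1.erase v ++ (u₂ ++ [e]))).Perm c := by
        refine List.Perm.trans ?_ hpc
        rw [he]
        exact q1.symm.append (List.perm_append_singleton e u₂)
      have q3 : (p.1.erase v ++ (u₂ ++ [e])).Perm (c.erase v) := by
        simpa using q2.erase v
      have := h1 b B m e _ ((Blk x b F j h v, v, kap j h v) :: (p.1.erase v).map pv) (u₂.map pv) c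
        hb hB hx hm (by
          rw [List.cons_append, ← List.map_append]
          exact List.forall_mem_cons.2 ⟨hblk, hvar _ fun w hw => q2.subset (by
            rw [← List.append_assoc]
            exact List.mem_cons_of_mem _ (List.mem_append_left _ hw))⟩)
        (h4 e (q2.subset (by simp))).1 hs
        (by simpa only [List.map_cons, m2, List.cons_append] using q2) hr hr' hl.le
      simp only [List.map_cons, List.map_append, List.cons_append, List.prod_cons,
        List.prod_append, m1, m2, m3, mul_one, psum, List.length_cons, List.length_map] at this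
      rw [← List.length_cons (a := v), ← q1.length_eq, ← q1.sum_eq,
        show u₂.length = c.length - 1 - p.1.length by rw [he, List.length_cons] at hlen; omega,
        ← hV] at this
      refine (tup _ _ _ q3).trans (le_trans (sum_le_sum fun a ha => psum_mono fun l₁ f₁ =>
        psum_mono fun l₂ f₂ => sum_le_sum fun q hq => ?_) this)
      obtain ⟨r1, r2⟩ := lossM_prc f₁
      obtain ⟨r3, r4⟩ := lossM_prc f₂
      obtain ⟨-, r5, r6⟩ := mem_filter.1 hq
      have a0 := (hblk.pos a ha).ne'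
      have n1 := (lossM_ty b r1).1
      have n2 := (lossM_ty b r3).1
      refine lossM_term hδ (by ring) ?_ fun hb' => ?_
      · rw [Multiset.sum_cons, mul_assoc, mul_assoc,
          fs_mul b a0 (mul_ne_zero n1 (mul_ne_zero n2 r5.ne_zero))]
        rfl
      · rw [tyq _ _ _ r1 r3 r5, Multiset.cons_coe, ← List.cons_append] at hb'
        have := lossM_small hδ' hy hyδ hb' (c := c) (p := p.1) (by
          simpa only [List.map_append, List.map_cons, List.map_nil, r2, r4, r6, List.cons_append,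
            show fs b a / F = v from hblk.cell a ha] using q2) (by
          simpa only [List.map_cons, r2, show fs b a / F = v from hblk.cell a ha] using q1.symm) hL
        rw [List.sum_cons, ← Multiset.sum_coe, ← (lossM_ty b r1).2] at this
        rw [fs_mul b a0 n1]
        unfold fs at this ⊢
        omega
    · have hv2 : v ∈ p.2 := (List.mem_append.1 (hpc.symm.subset hvc)).resolve_left hv1
      have q1 := List.perm_cons_erase hv2
      obtain ⟨e, u₂, he⟩ : ∃ e u₂, p.2.erase v = e :: u₂ :=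
        List.exists_cons_of_ne_nil fun h => (hA p hp hL).2 (by
          rw [h] at q1
          have := (h4 v hvc).2
          simp only [RB, q1.sum_eq, q1.length_eq, List.sum_cons, List.sum_nil, List.length_cons,
            List.length_nil]
          omega)
      rw [he] at q1
      have q2 : (p.1 ++ (v :: (u₂ ++ [e]))).Perm c :=
        (((List.perm_append_singleton e u₂).cons v).trans q1.symm).append_left _ |>.trans hpc
      have q2' := List.perm_middle.symm.trans q2
      have q3 : (p.1 ++ (u₂ ++ [e])).Perm (c.erase v) := by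
        simpa using q2'.erase v
      have := h1 b B m e _ (p.1.map pv) ((Blk x b F j h v, v, kap j h v) :: u₂.map pv) c
        hb hB hx hm (by
          intro w hw
          rcases List.mem_append.1 hw with hw | hw
          · exact hvar _ (fun w hw => q2.subset (List.mem_append_left _ hw)) w hw
          · exact List.forall_mem_cons.2 ⟨hblk, hvar _ fun w hw => q2.subset (by simp [hw])⟩ w hw)
        (h4 e (q2.subset (by simp))).1 hs
        (by simpa only [List.map_cons, m2, List.cons_append] using q2) hr hr' hl.le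
      simp only [List.map_cons, List.map_append, List.prod_cons,
        List.prod_append, m1, m2, m3, mul_one, one_mul, psum, List.length_cons,
        List.length_map] at this
      rw [show u₂.length + 1 = c.length - 1 - p.1.length by
        rw [q1.length_eq, List.length_cons, List.length_cons] at hlen; omega, ← hV] at this
      refine (tup _ _ _ q3).trans (le_trans ?_ this)
      rw [lossM_psum_sum]
      refine psum_mono fun l₁ f₁ => sum_le_sum fun a ha => psum_mono fun l₂ f₂ =>
        sum_le_sum fun q hq => ?_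
      obtain ⟨r1, r2⟩ := lossM_prc f₁
      obtain ⟨r3, r4⟩ := lossM_prc f₂
      obtain ⟨-, r5, r6⟩ := mem_filter.1 hq
      have a0 := (hblk.pos a ha).ne'
      have n1 := (lossM_ty b r1).1
      have n2 := (lossM_ty b r3).1
      refine lossM_term hδ (by ring) ?_ fun hb' => ?_
      · rw [Multiset.sum_cons, show l₁.prod * (a * l₂.prod) * q = a * (l₁.prod * (l₂.prod * q)) by
          ring, fs_mul b a0 (mul_ne_zero n1 (mul_ne_zero n2 r5.ne_zero))]
        rfl
      · rw [tyq _ _ _ r1 r3 r5, Multiset.cons_coe,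
          ← Multiset.coe_eq_coe.2 List.perm_middle] at hb'
        have := lossM_small hδ' hy hyδ hb' (c := c) (p := p.1) (by
          simpa only [List.map_append, List.map_cons, List.map_nil, r2, r4, r6,
            show fs b a / F = v from hblk.cell a ha] using q2) (by rw [r2]) hL
        rw [← Multiset.sum_coe, ← (lossM_ty b r1).2] at this
        unfold fs
        omega
  have hmf : (mf c : ℝ) = c.count v * mf (c.erase v) := by
    have q1 := List.perm_cons_erase hvc
    rw [mf_perm q1, mf, q1.count_eq, List.count_cons_self]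
    push_cast
    rfl
  have p1 : (0 : ℝ) < mf (c.erase v) := by exact_mod_cast mf_pos _
  have p2 : (0 : ℝ) < c.count v := by exact_mod_cast List.count_pos_iff.2 hvc
  refine le_of_mul_le_mul_left (key.trans (le_of_eq ?_)) p1
  rw [vol, hmf]
  field_simp

theorem badSum_mid : ∀ᶠ x : ℕ in atTop, ∀ (b : ℝ) (B y δ m j : ℕ), 0 < b →
    1 ≤ B → Real.log x / 110 ≤ 256 * B * b → 1 ≤ m → δ ≤ B → 0 < y →
    y + 2 * δ ≤ 48 * (256 * B) → 2 ≤ j → j ≤ 9 →
    badSum x b (256 * B) y δ m (9 + j) (fun _ => 1) ≤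
      1015 / 1000 * Gam x (Real.log x ^ 2) / (m * (256 * B * b)) * ∑ c ∈ Boxes 10,
        (c.map fun v => if 4 * j ≤ v ∧ v < j * (c.headI + 1) then
          (kap j (c.headI + 1) v : ℝ) else 0).sum * vol (100 - c.sum) c := by
  classical
  filter_upwards [lossM_box] with x h1 b B y δ m j hb hB hx hm hδ hy hyδ hj hj'
  obtain ⟨k, hk⟩ : ∃ k : ℕ, k = 10 := ⟨_, rfl⟩
  rw [← hk]
  set F := 256 * B with hF
  set H : ℕ → ℕ → ℝ := fun a n =>
    if BadT F y δ (fs b a ::ₘ ty b n) then gk x (Real.log x ^ 2) (m * (a * n)) else 0 with hH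
  have hH0 : ∀ a n, 0 ≤ H a n := fun a n => by
    simp only [hH]
    split_ifs
    exacts [gk_nonneg _ _ _, le_rfl]
  set Q := (Boxes k).sigma fun c => (c.toFinset.filter fun v => 4 * j ≤ v ∧
    v < j * (c.headI + 1)).sigma fun v => Blk x b F j (c.headI + 1) v ×ˢ
      (Icc 1 (2 * x)).filter fun n => Squarefree n ∧
        (n.primeFactorsList.map fun p => fs b p / F).Perm (c.erase v) with hQ
  have s1 : badSum x b F y δ m (9 + j) (fun _ => 1) ≤ ∑ q ∈ Q, H q.2.2.1 q.2.2.2 := by
    calc _ ≤ ∑ n ∈ Icc 1 (2 * x), ∑ q ∈ Q with q.2.2.1 * q.2.2.2 = n, H q.2.2.1 q.2.2.2 := by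
          refine sum_le_sum fun n hn => ?_
          split_ifs with h
          · obtain ⟨c, c1, v, c2, c3, a, c4, n', c5, c6, c7, c8, c9⟩ :=
              lossM_split hk hb (by omega) hy hyδ hj hj' hn h.1 h.2.1 h.2.2
            refine le_trans (le_of_eq ?_) (single_le_sum (fun q _ => hH0 q.2.2.1 q.2.2.2)
              (a := ⟨c, v, a, n'⟩) (mem_filter.2 ⟨mem_sigma.2 ⟨c1, mem_sigma.2
                ⟨mem_filter.2 ⟨List.mem_toFinset.2 c2, c3⟩, mem_product.2
                  ⟨c4, mem_filter.2 ⟨c5, c6, c7⟩⟩⟩⟩, c9⟩))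
            simp only [hH, if_pos c8, c9, one_mul]
          · exact sum_nonneg fun q _ => hH0 _ _
      _ ≤ _ := sum_fiberwise_le_sum_of_sum_fiber_nonneg fun n _ => sum_nonneg fun q _ => hH0 _ _
  refine s1.trans ?_
  rw [hQ, sum_sigma, mul_sum]
  refine sum_le_sum fun c hc => ?_
  rw [sum_sigma, Finset.sum_list_map_count, sum_mul, mul_sum, sum_filter]
  refine sum_le_sum fun v hv => ?_
  split_ifs with h
  · rw [sum_product, nsmul_eq_mul]
    exact h1 b B y δ m j _ v k c hb hB hx hm hδ hy hyδ hj h.1 hk hc (List.mem_toFinset.1 hv)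
  · simp

end Pool.Agent.Work.MP_82fd4a_nt
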