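import Pool.Agent.Work.MP_82fd4a_nt.NumE

/-! Bit sliced arithmetic: computations. -/

set_option autoImplicit false

namespace Pool.Agent.Work.MP_82fd4a_nt.BS

theorem comp1 :
    Chk 3 0 15 0 1 XE 17 ∧
    Chk 3 1 15 0 1 XE 121120 ∧
    Chk 3 2 15 0 1 XE 109307 ∧
    Chk 3 3 15 0 1 XE 7 ∧
    Chk 4 0 15 0 2 XE 1 ∧
    Chk 4 1 15 0 2 XE 1 ∧
    Chk 4 2 15 0 2 XE 1 ∧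
    Chk 4 3 15 0 2 XE 1 ∧
    Chk 4 4 15 0 2 XE 1 ∧
    Chk 5 0 16 0 3 XE 1 ∧
    Chk 5 1 16 8 3 XE 21714 ∧
    Chk 5 2 16 8 3 XE 246645 ∧
    Chk 5 3 16 8 3 XE 235623 ∧
    Chk 5 4 16 8 3 XE 21170 ∧
    Chk 5 5 16 0 3 XE 1 ∧
    Chk 6 0 16 4 0 (XC 480) 1 ∧
    Chk 6 1 16 14 4 XE 1078 ∧
    Chk 6 2 16 14 4 XE 30674 ∧
    Chk 6 3 16 14 4 XE 75883 ∧
    Chk 6 4 16 14 4 XE 28202 ∧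
    Chk 6 5 16 14 4 XE 928 ∧
    Chk 6 6 16 4 0 (XC 480) 1 ∧
    Chk 7 0 16 10 0 (XC 1644) 1 ∧
    Chk 7 1 16 20 5 XE 20 ∧
    Chk 7 2 16 20 5 XE 1542 ∧
    Chk 7 3 16 20 5 XE 9875 ∧
    Chk 7 4 16 20 5 XE 9798 ∧
    Chk 7 5 16 20 5 XE 1555 ∧
    Chk 7 6 16 20 5 XE 20 ∧
    Chk 7 7 16 10 0 (XC 1644) 1 ∧
    Chk 8 2 16 28 6 XE 36 ∧
    Chk 8 3 16 28 6 XE 586 ∧
    Chk 8 4 16 28 6 XE 1513 := by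
  refine ⟨?_, ?_, ?_, ?_, ?_, ?_, ?_, ?_, ?_, ?_, ?_, ?_, ?_, ?_, ?_, ?_, ?_, ?_, ?_, ?_, ?_, ?_, ?_, ?_, ?_, ?_, ?_, ?_, ?_, ?_, ?_, ?_, ?_⟩ <;> decide +kernel

end Pool.Agent.Work.MP_82fd4a_nt.BS
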