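import Pool.Agent.Work.MP_82fd4a_nt.NumE

/-! Bit sliced arithmetic: computations. -/

set_option autoImplicit false

namespace Pool.Agent.Work.MP_82fd4a_nt.BS

theorem comp2 :
    Chk 9 4 17 36 7 XE 116 ∧
    Chk 9 5 17 36 7 XE 123 ∧
    Chk 8 0 16 16 0 (XC 4886) 1 ∧
    Chk 8 1 16 28 0 (XC 4886) 68 ∧
    Chk 8 5 16 28 6 XE 613 ∧
    Chk 8 6 16 28 6 XE 42 ∧
    Chk 8 7 16 28 0 (XC 4886) 100 ∧
    Chk 8 8 16 16 0 (XC 4886) 1 ∧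
    Chk 9 0 17 24 0 (XC 12926) 1 ∧
    Chk 9 1 17 36 0 (XC 12926) 1 ∧
    Chk 9 8 17 36 0 (XC 12926) 1 ∧
    Chk 9 9 17 24 0 (XC 12926) 1 := by
  refine ⟨?_, ?_, ?_, ?_, ?_, ?_, ?_, ?_, ?_, ?_, ?_, ?_⟩ <;> decide +kernel

end Pool.Agent.Work.MP_82fd4a_nt.BS
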