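import Pool.Agent.Work.MP_82fd4a_nt.NumE

/-! Bit sliced arithmetic: computations. -/

set_option autoImplicit false

namespace Pool.Agent.Work.MP_82fd4a_nt.BS

theorem comp3 :
    Chk 10 0 17 30 0 (XM 31446 tab) 1 ∧
    Chk 10 1 17 44 0 (XM 31446 tab) 1 ∧
    Chk 10 2 17 44 0 (XM 31446 tab) 54 ∧
    Chk 10 3 17 44 8 (XM 31446 tab) 166 ∧
    Chk 10 4 17 44 8 (XM 31446 tab) 1522 ∧
    Chk 10 5 17 44 8 (XM 31446 tab) 3013 ∧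
    Chk 10 6 17 44 8 (XM 31446 tab) 1545 ∧
    Chk 10 7 17 44 8 (XM 31446 tab) 138 ∧
    Chk 10 8 17 44 0 (XM 31446 tab) 6 ∧
    Chk 10 9 17 44 0 (XM 31446 tab) 1 ∧
    Chk 10 10 17 30 0 (XM 31446 tab) 1 ∧
    Chk 9 2 17 36 7 (XC 12926) 141 ∧
    Chk 9 3 17 36 7 (XC 12926) 5642 ∧
    Chk 9 6 17 36 7 (XC 12926) 8146 ∧
    Chk 9 7 17 36 7 (XC 12926) 290 := by
  refine ⟨?_, ?_, ?_, ?_, ?_, ?_, ?_, ?_, ?_, ?_, ?_, ?_, ?_, ?_, ?_⟩ <;> decide +kernel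

end Pool.Agent.Work.MP_82fd4a_nt.BS
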