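import Pool.Agent.Work.MP_82fd4a_nt.NumS7
import Pool.Agent.Work.MP_82fd4a_nt.NumC1
import Pool.Agent.Work.MP_82fd4a_nt.NumC2
import Pool.Agent.Work.MP_82fd4a_nt.NumC3

/-! The numerical bound. -/

set_option autoImplicit false
open Filter Topology Finset

namespace Pool.Agent.Work.MP_82fd4a_nt

open BS

lemma num_chk {k r sh shv nv v : ℕ} {X : ℕ → (ℕ → ℕ) → List (List ℕ) → List ℕ → List ℕ}
    (h : Chk k r sh shv nv X v) (hX : XOK k r X) (hk1 : 1 ≤ k) (hk : k ≤ 10) :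
    ∑ c ∈ Boxes k with 100 - c.sum = r, LB r c * vol r c ≤ v / 10 ^ 8 :=
  run_sound hk1 hk hX h

lemma num_E {k r sh shv nv v : ℕ} (h : Chk k r sh shv nv XE v) (hk1 : 1 ≤ k) (hk : k ≤ 9) :
    ∑ c ∈ Boxes k with 100 - c.sum = r, LB r c * vol r c ≤ v / 10 ^ 8 :=
  num_chk h (XE_ok hk r) hk1 (by omega)

lemma num_C {k r sh shv nv v W : ℕ} (h : Chk k r sh shv nv (XC W) v) (hk1 : 1 ≤ k) (hk : k ≤ 9)
    (hW : Wk k ≤ W ∧ W < 2 ^ 100) :
    ∑ c ∈ Boxes k with 100 - c.sum = r, LB r c * vol r c ≤ v / 10 ^ 8 :=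
  num_chk h (XC_ok hk hW.1 hW.2 r) hk1 (by omega)

lemma num_M {r sh shv nv v : ℕ} (h : Chk 10 r sh shv nv (XM 31446 tab) v) :
    ∑ c ∈ Boxes 10 with 100 - c.sum = r, LB r c * vol r c ≤ v / 10 ^ 8 :=
  num_chk h (XM_ok r) (by omega) le_rfl

lemma num_split (k : ℕ) : ∑ c ∈ Boxes k, LB (100 - c.sum) c * vol (100 - c.sum) c =
    ∑ r ∈ range (k + 1), ∑ c ∈ Boxes k with 100 - c.sum = r, LB r c * vol r c := by
  rw [← sum_fiberwise_of_maps_to (g := fun c : List ℕ => 100 - c.sum) (t := range (k + 1))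
    fun c hc => by
      obtain ⟨h1, h2⟩ := mem_Boxes.1 hc
      have := h2.2.2.2.1
      rw [mem_range]; omega]
  exact sum_congr rfl fun r _ => sum_congr rfl fun c hc => by rw [(mem_filter.1 hc).2]

lemma num_W6 : Wk 6 ≤ 480 ∧ 480 < 2 ^ 100 := by decide +kernel

lemma num_W7 : Wk 7 ≤ 1644 ∧ 1644 < 2 ^ 100 := by decide +kernel

lemma num_W8 : Wk 8 ≤ 4886 ∧ 4886 < 2 ^ 100 := by decide +kernel

lemma num_W9 : Wk 9 ≤ 12926 ∧ 12926 < 2 ^ 100 := by decide +kernel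

lemma num_box3 : ∑ c ∈ Boxes 3, LB (100 - c.sum) c * vol (100 - c.sum) c ≤ 230451 / 10 ^ 8 := by
  rw [num_split]
  simp only [sum_range_succ, range_zero, sum_empty]
  have h0 := num_E comp1.1 (by omega) (by omega)
  have h1 := num_E comp1.2.1 (by omega) (by omega)
  have h2 := num_E comp1.2.2.1 (by omega) (by omega)
  have h3 := num_E comp1.2.2.2.1 (by omega) (by omega)
  push_cast at h0 h1 h2 h3
  linarith

lemma num_box4 : ∑ c ∈ Boxes 4, LB (100 - c.sum) c * vol (100 - c.sum) c ≤ 5 / 10 ^ 8 := by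
  rw [num_split]
  simp only [sum_range_succ, range_zero, sum_empty]
  have h0 := num_E comp1.2.2.2.2.1 (by omega) (by omega)
  have h1 := num_E comp1.2.2.2.2.2.1 (by omega) (by omega)
  have h2 := num_E comp1.2.2.2.2.2.2.1 (by omega) (by omega)
  have h3 := num_E comp1.2.2.2.2.2.2.2.1 (by omega) (by omega)
  have h4 := num_E comp1.2.2.2.2.2.2.2.2.1 (by omega) (by omega)
  push_cast at h0 h1 h2 h3 h4
  linarith

lemma num_box5 : ∑ c ∈ Boxes 5, LB (100 - c.sum) c * vol (100 - c.sum) c ≤ 525154 / 10 ^ 8 := by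
  rw [num_split]
  simp only [sum_range_succ, range_zero, sum_empty]
  have h0 := num_E comp1.2.2.2.2.2.2.2.2.2.1 (by omega) (by omega)
  have h1 := num_E comp1.2.2.2.2.2.2.2.2.2.2.1 (by omega) (by omega)
  have h2 := num_E comp1.2.2.2.2.2.2.2.2.2.2.2.1 (by omega) (by omega)
  have h3 := num_E comp1.2.2.2.2.2.2.2.2.2.2.2.2.1 (by omega) (by omega)
  have h4 := num_E comp1.2.2.2.2.2.2.2.2.2.2.2.2.2.1 (by omega) (by omega)
  have h5 := num_E comp1.2.2.2.2.2.2.2.2.2.2.2.2.2.2.1 (by omega) (by omega)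
  push_cast at h0 h1 h2 h3 h4 h5
  linarith

lemma num_box6 : ∑ c ∈ Boxes 6, LB (100 - c.sum) c * vol (100 - c.sum) c ≤ 136767 / 10 ^ 8 := by
  rw [num_split]
  simp only [sum_range_succ, range_zero, sum_empty]
  have h0 := num_C comp1.2.2.2.2.2.2.2.2.2.2.2.2.2.2.2.1 (by omega) (by omega) num_W6
  have h1 := num_E comp1.2.2.2.2.2.2.2.2.2.2.2.2.2.2.2.2.1 (by omega) (by omega)
  have h2 := num_E comp1.2.2.2.2.2.2.2.2.2.2.2.2.2.2.2.2.2.1 (by omega) (by omega)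
  have h3 := num_E comp1.2.2.2.2.2.2.2.2.2.2.2.2.2.2.2.2.2.2.1 (by omega) (by omega)
  have h4 := num_E comp1.2.2.2.2.2.2.2.2.2.2.2.2.2.2.2.2.2.2.2.1 (by omega) (by omega)
  have h5 := num_E comp1.2.2.2.2.2.2.2.2.2.2.2.2.2.2.2.2.2.2.2.2.1 (by omega) (by omega)
  have h6 := num_C comp1.2.2.2.2.2.2.2.2.2.2.2.2.2.2.2.2.2.2.2.2.2.1 (by omega) (by omega) num_W6
  push_cast at h0 h1 h2 h3 h4 h5 h6
  linarith

lemma num_box7 : ∑ c ∈ Boxes 7, LB (100 - c.sum) c * vol (100 - c.sum) c ≤ 22812 / 10 ^ 8 := by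
  rw [num_split]
  simp only [sum_range_succ, range_zero, sum_empty]
  have h0 := num_C comp1.2.2.2.2.2.2.2.2.2.2.2.2.2.2.2.2.2.2.2.2.2.2.1 (by omega) (by omega) num_W7
  have h1 := num_E comp1.2.2.2.2.2.2.2.2.2.2.2.2.2.2.2.2.2.2.2.2.2.2.2.1 (by omega) (by omega)
  have h2 := num_E comp1.2.2.2.2.2.2.2.2.2.2.2.2.2.2.2.2.2.2.2.2.2.2.2.2.1 (by omega) (by omega)
  have h3 := num_E comp1.2.2.2.2.2.2.2.2.2.2.2.2.2.2.2.2.2.2.2.2.2.2.2.2.2.1 (by omega) (by omega)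
  have h4 := num_E comp1.2.2.2.2.2.2.2.2.2.2.2.2.2.2.2.2.2.2.2.2.2.2.2.2.2.2.1 (by omega) (by omega)
  have h5 := num_E comp1.2.2.2.2.2.2.2.2.2.2.2.2.2.2.2.2.2.2.2.2.2.2.2.2.2.2.2.1 (by omega) (by omega)
  have h6 := num_E comp1.2.2.2.2.2.2.2.2.2.2.2.2.2.2.2.2.2.2.2.2.2.2.2.2.2.2.2.2.1 (by omega) (by omega)
  have h7 := num_C comp1.2.2.2.2.2.2.2.2.2.2.2.2.2.2.2.2.2.2.2.2.2.2.2.2.2.2.2.2.2.1 (by omega) (by omega) num_W7
  push_cast at h0 h1 h2 h3 h4 h5 h6 h7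
  linarith

lemma num_box8 : ∑ c ∈ Boxes 8, LB (100 - c.sum) c * vol (100 - c.sum) c ≤ 2960 / 10 ^ 8 := by
  rw [num_split]
  simp only [sum_range_succ, range_zero, sum_empty]
  have h0 := num_C comp2.2.2.1 (by omega) (by omega) num_W8
  have h1 := num_C comp2.2.2.2.1 (by omega) (by omega) num_W8
  have h2 := num_E comp1.2.2.2.2.2.2.2.2.2.2.2.2.2.2.2.2.2.2.2.2.2.2.2.2.2.2.2.2.2.2.1 (by omega) (by omega)
  have h3 := num_E comp1.2.2.2.2.2.2.2.2.2.2.2.2.2.2.2.2.2.2.2.2.2.2.2.2.2.2.2.2.2.2.2.1 (by omega) (by omega)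
  have h4 := num_E comp1.2.2.2.2.2.2.2.2.2.2.2.2.2.2.2.2.2.2.2.2.2.2.2.2.2.2.2.2.2.2.2.2 (by omega) (by omega)
  have h5 := num_E comp2.2.2.2.2.1 (by omega) (by omega)
  have h6 := num_E comp2.2.2.2.2.2.1 (by omega) (by omega)
  have h7 := num_C comp2.2.2.2.2.2.2.1 (by omega) (by omega) num_W8
  have h8 := num_C comp2.2.2.2.2.2.2.2.1 (by omega) (by omega) num_W8
  push_cast at h0 h1 h2 h3 h4 h5 h6 h7 h8
  linarith

lemma num_box9 : ∑ c ∈ Boxes 9, LB (100 - c.sum) c * vol (100 - c.sum) c ≤ 14462 / 10 ^ 8 := by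
  rw [num_split]
  simp only [sum_range_succ, range_zero, sum_empty]
  have h0 := num_C comp2.2.2.2.2.2.2.2.2.1 (by omega) (by omega) num_W9
  have h1 := num_C comp2.2.2.2.2.2.2.2.2.2.1 (by omega) (by omega) num_W9
  have h2 := num_C comp3.2.2.2.2.2.2.2.2.2.2.2.1 (by omega) (by omega) num_W9
  have h3 := num_C comp3.2.2.2.2.2.2.2.2.2.2.2.2.1 (by omega) (by omega) num_W9
  have h4 := num_E comp2.1 (by omega) (by omega)
  have h5 := num_E comp2.2.1 (by omega) (by omega)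
  have h6 := num_C comp3.2.2.2.2.2.2.2.2.2.2.2.2.2.1 (by omega) (by omega) num_W9
  have h7 := num_C comp3.2.2.2.2.2.2.2.2.2.2.2.2.2.2 (by omega) (by omega) num_W9
  have h8 := num_C comp2.2.2.2.2.2.2.2.2.2.2.1 (by omega) (by omega) num_W9
  have h9 := num_C comp2.2.2.2.2.2.2.2.2.2.2.2 (by omega) (by omega) num_W9
  push_cast at h0 h1 h2 h3 h4 h5 h6 h7 h8 h9
  linarith

lemma num_box10 : ∑ c ∈ Boxes 10, LB (100 - c.sum) c * vol (100 - c.sum) c ≤ 6448 / 10 ^ 8 := by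
  rw [num_split]
  simp only [sum_range_succ, range_zero, sum_empty]
  have h0 := num_M comp3.1
  have h1 := num_M comp3.2.1
  have h2 := num_M comp3.2.2.1
  have h3 := num_M comp3.2.2.2.1
  have h4 := num_M comp3.2.2.2.2.1
  have h5 := num_M comp3.2.2.2.2.2.1
  have h6 := num_M comp3.2.2.2.2.2.2.1
  have h7 := num_M comp3.2.2.2.2.2.2.2.1
  have h8 := num_M comp3.2.2.2.2.2.2.2.2.1
  have h9 := num_M comp3.2.2.2.2.2.2.2.2.2.1
  have h10 := num_M comp3.2.2.2.2.2.2.2.2.2.2.1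
  push_cast at h0 h1 h2 h3 h4 h5 h6 h7 h8 h9 h10
  linarith

theorem num_boxes : ∑ k ∈ Icc 3 10, ∑ c ∈ Boxes k, LB (100 - c.sum) c * vol (100 - c.sum) c
    ≤ 94 / 10000 := by
  rw [show Icc 3 10 = ({3, 4, 5, 6, 7, 8, 9, 10} : Finset ℕ) by decide]
  simp only [mem_insert, mem_singleton, Nat.reduceEqDiff, or_self, not_false_eq_true, sum_insert,
    sum_singleton]
  linarith [num_box3, num_box4, num_box5, num_box6, num_box7, num_box8, num_box9, num_box10]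

theorem num_triv : triv ≤ 3 / 100000 := by decide +kernel

end Pool.Agent.Work.MP_82fd4a_nt
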