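import Pool.Agent.Work.MP_82fd4a_nt.LossU
import Pool.Agent.Work.MP_82fd4a_nt.LossM
import Pool.Agent.Work.MP_82fd4a_nt.Num

/-! The total loss, and the lower bound in long intervals. -/

set_option autoImplicit false
open Filter Topology Finset

namespace Pool.Agent.Work.MP_82fd4a_nt

lemma loss_kap_nonneg (j a b : ℕ) : 0 ≤ kap j a b := by
  have := lg_nonneg (min a (b + 1 - 4 * (j - 1)))
  unfold kap
  positivity

lemma loss_LB_nonneg (r : ℕ) (c : List ℕ) : 0 ≤ LB r c := by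
  unfold LB
  split_ifs
  · exact le_max_left _ _
  · refine add_nonneg (Nat.cast_nonneg _) (List.sum_nonneg fun a ha => ?_)
    obtain ⟨v, -, rfl⟩ := List.mem_map.1 ha
    refine Rat.cast_nonneg.2 (sum_nonneg fun j _ => ?_)
    split_ifs
    · exact mul_nonneg (Nat.cast_nonneg _) (loss_kap_nonneg _ _ _)
    · exact le_rfl

/-- the bound for the loss on the types with `k` parts -/
noncomputable def lossPsi (k : ℕ) (c : List ℕ) : ℝ :=
  if k ≤ 9 then LB (100 - c.sum) c else Wk k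

lemma loss_psi_nonneg (k : ℕ) (c : List ℕ) : 0 ≤ lossPsi k c := by
  unfold lossPsi
  split_ifs
  · exact loss_LB_nonneg _ _
  · exact Nat.cast_nonneg _

lemma loss_point {F y δ : ℕ} {τ : Multiset ℕ} (hδ : δ < F) (hy : 0 < y)
    (hyδ : y + 2 * δ ≤ 48 * F) (h : BadT F y δ τ) : τ.card ∈ Icc 3 25 ∧
    max 0 (-((RF F y).PhiL (τ.sort (· ≤ ·)) : ℝ))
      ≤ lossPsi τ.card ((τ.sort (· ≤ ·)).map (· / F)) := by
  have h1 := Multiset.card_nsmul_le_sum fun a ha => (h.2.1 a ha).1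
  have h2 := Multiset.sum_le_card_nsmul τ y fun a ha => (h.2.1 a ha).2.le
  have h3 := h.2.2.1
  have h4 := h.2.2.2
  rw [smul_eq_mul] at h1 h2
  refine ⟨mem_Icc.2 ⟨?_, ?_⟩, ?_⟩
  · by_contra hc
    have := Nat.mul_le_mul_right y (by omega : τ.card ≤ 2)
    omega
  · by_contra hc
    have := Nat.mul_le_mul_right (4 * F) (by omega : 26 ≤ τ.card)
    omega
  · unfold lossPsi
    split_ifs with hk
    · rw [PhiL_box (lossM_hyp hδ hy hyδ h) (by rw [Multiset.length_sort]; omega), LB,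
        if_pos (by rw [List.length_map, Multiset.length_sort]; exact hk)]
    · refine max_le (Nat.cast_nonneg _) ?_
      have h5 := neg_PhiL_le (RF F y) (τ.sort (· ≤ ·))
      rw [Multiset.length_sort] at h5
      exact_mod_cast h5

lemma loss_split (x : ℕ) (b : ℝ) {F y δ : ℕ} (m : ℕ) (hδ : δ < F) (hy : 0 < y)
    (hyδ : y + 2 * δ ≤ 48 * F) :
    ∑ n ∈ Icc 1 (2 * x), LossF b F y δ n * gk x (Real.log x ^ 2) (m * n)
      ≤ ∑ k ∈ Icc 3 25, badSum x b F y δ m k (lossPsi k) := by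
  classical
  unfold badSum
  rw [sum_comm]
  refine sum_le_sum fun n _ => ?_
  have h0 : ∀ k ∈ Icc 3 25, 0 ≤ if Squarefree n ∧ BadT F y δ (ty b n) ∧ (ty b n).card = k then
      lossPsi k (((ty b n).sort (· ≤ ·)).map (· / F)) * gk x (Real.log x ^ 2) (m * n) else 0 :=
    fun k _ => by
      split_ifs
      · exact mul_nonneg (loss_psi_nonneg _ _) (gk_nonneg _ _ _)
      · exact le_rfl
  unfold LossF
  split_ifs with h
  · obtain ⟨h1, h2⟩ := loss_point hδ hy hyδ h.2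
    refine le_trans ?_ (single_le_sum h0 h1)
    rw [if_pos ⟨h.1, h.2, rfl⟩]
    exact mul_le_mul_of_nonneg_right h2 (gk_nonneg _ _ _)
  · rw [zero_mul]
    exact sum_nonneg h0

lemma loss_const (x : ℕ) (b : ℝ) (F y δ m : ℕ) {k : ℕ} (hk : 10 ≤ k) :
    badSum x b F y δ m k (lossPsi k) = Wk k * badSum x b F y δ m k fun _ => 1 := by
  unfold badSum
  rw [mul_sum]
  refine sum_congr rfl fun n _ => ?_
  split_ifs
  · rw [lossPsi, if_neg (by omega), one_mul]
  · rw [mul_zero]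

lemma loss_Tm (a : ℕ) (c : List ℕ) : ∑ j ∈ Icc 2 9, (Wk (9 + j) : ℝ) *
    (c.map fun v => if 4 * j ≤ v ∧ v < j * a then (kap j a v : ℝ) else 0).sum
      = (c.map fun v => (Tm v a : ℝ)).sum := by
  induction c with
  | nil => simp
  | cons v c ih =>
    simp only [List.map_cons, List.sum_cons, mul_add, sum_add_distrib, ih]
    congr 1
    unfold Tm
    rw [Rat.cast_sum]
    refine sum_congr rfl fun j _ => ?_
    split_ifs
    · push_cast; rfl
    · simp

lemma loss_boxes {k : ℕ} (hk : 10 ≤ k) : ∑ c ∈ Boxes k, (lossPsi 10 c * vol (100 - c.sum) c +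
    ∑ j ∈ Icc 2 9, Wk (9 + j) * (c.map fun v => if 4 * j ≤ v ∧ v < j * (c.headI + 1) then
      (kap j (c.headI + 1) v : ℝ) else 0).sum * vol (100 - c.sum) c)
    = ∑ c ∈ Boxes k, LB (100 - c.sum) c * vol (100 - c.sum) c := by
  refine sum_congr rfl fun c hc => ?_
  have hc' := (mem_Boxes.1 hc).1
  rw [← sum_mul, loss_Tm, ← add_mul, LB, if_neg (by omega), lossPsi, if_neg (by omega)]

lemma loss_ranges (f : ℕ → ℝ) : ∑ k ∈ Icc 3 25, f k =
    ∑ k ∈ Icc 3 9, f k + (f 10 + ∑ j ∈ Icc 2 9, f (9 + j)) + ∑ k ∈ Icc 19 25, f k := by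
  simp only [sum_Icc_succ_top, Nat.reduceLeDiff, Nat.reduceAdd, Icc_self, sum_singleton]
  ring

theorem loss_sum : ∀ᶠ x : ℕ in atTop, ∀ (b : ℝ) (B y δ m : ℕ), 0 < b → 1 ≤ B →
    Real.log x / 110 ≤ 256 * B * b → 1 ≤ m → δ ≤ B → 0 < y → y + 2 * δ ≤ 48 * (256 * B) →
    ∑ n ∈ Icc 1 (2 * x), LossF b (256 * B) y δ n * gk x (Real.log x ^ 2) (m * n)
      ≤ 96 / 100 * Gam x (Real.log x ^ 2) / (m * (100 * (256 * B * b))) := by
  filter_upwards [badSum_few, badSum_mid, badSum_many] with x H1 H2 H3 b B y δ m hb hB hL hm hδ hy hyδ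
  refine (loss_split x b m (by omega) hy hyδ).trans ?_
  have hG : 0 ≤ Gam x (Real.log x ^ 2) := sum_nonneg fun n _ => gk_nonneg _ _ _
  obtain ⟨U, hU⟩ : ∃ U, U = Gam x (Real.log x ^ 2) / (m * (256 * B * b)) := ⟨_, rfl⟩
  have hU0 : 0 ≤ U := by rw [hU]; positivity
  simp only [mul_div_assoc] at H1 H2 H3
  have a1 : ∑ k ∈ Icc 3 9, badSum x b (256 * B) y δ m k (lossPsi k) ≤ 1015 / 1000 * U *
      ∑ k ∈ Icc 3 9, ∑ c ∈ Boxes k, LB (100 - c.sum) c * vol (100 - c.sum) c := by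
    rw [mul_sum]
    refine sum_le_sum fun k hk => ?_
    have hk' := (mem_Icc.1 hk).2
    have := H1 b B y δ m k (lossPsi k) hb hB hL hm hδ hy hyδ (by omega) (loss_psi_nonneg k)
    simp only [lossPsi, if_pos hk'] at this ⊢
    rwa [← hU] at this
  have a2 : badSum x b (256 * B) y δ m 10 (lossPsi 10) +
      ∑ j ∈ Icc 2 9, badSum x b (256 * B) y δ m (9 + j) (lossPsi (9 + j)) ≤ 1015 / 1000 * U *
      ∑ c ∈ Boxes 10, LB (100 - c.sum) c * vol (100 - c.sum) c := by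
    have b1 := H1 b B y δ m 10 (lossPsi 10) hb hB hL hm hδ hy hyδ le_rfl (loss_psi_nonneg 10)
    rw [← hU] at b1
    refine (add_le_add b1 (sum_le_sum fun j hj => ?_ : _ ≤ ∑ j ∈ Icc 2 9, 1015 / 1000 * U *
      ∑ c ∈ Boxes 10, Wk (9 + j) * (c.map fun v => if 4 * j ≤ v ∧ v < j * (c.headI + 1) then
        (kap j (c.headI + 1) v : ℝ) else 0).sum * vol (100 - c.sum) c)).trans (le_of_eq ?_)
    · have b2 := H2 b B y δ m j hb hB hL hm hδ hy hyδ (mem_Icc.1 hj).1 (mem_Icc.1 hj).2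
      rw [← hU] at b2
      rw [loss_const _ _ _ _ _ _ (by have := (mem_Icc.1 hj).1; omega)]
      refine (mul_le_mul_of_nonneg_left b2 (Nat.cast_nonneg _)).trans (le_of_eq ?_)
      simp only [mul_assoc, ← mul_sum]
      ring
    · rw [← mul_sum, ← mul_add, sum_comm, ← sum_add_distrib]
      rw [loss_boxes le_rfl]
  have a3 : ∑ k ∈ Icc 19 25, badSum x b (256 * B) y δ m k (lossPsi k) ≤ 101 / 100 * U * triv := by
    unfold triv
    rw [Rat.cast_sum, mul_sum]
    refine sum_le_sum fun k hk => ?_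
    have b2 := H3 b B y δ m k hb hB hL hm hδ (mem_Icc.1 hk).1 (mem_Icc.1 hk).2
    rw [← hU] at b2
    rw [loss_const _ _ _ _ _ _ (by have := (mem_Icc.1 hk).1; omega)]
    refine (mul_le_mul_of_nonneg_left b2 (Nat.cast_nonneg _)).trans (le_of_eq ?_)
    push_cast
    ring
  have n1 := num_boxes
  rw [sum_Icc_succ_top (by norm_num)] at n1
  simp only [Nat.reduceAdd] at n1
  have n2 : (triv : ℝ) ≤ 3 / 100000 := by
    have := (Rat.cast_le (K := ℝ)).2 num_triv
    push_cast at this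
    exact this
  have e : 96 / 100 * Gam x (Real.log x ^ 2) / (m * (100 * (256 * B * b))) = 96 / 10000 * U := by
    rw [hU]
    ring
  rw [loss_ranges, e]
  have c1 := mul_le_mul_of_nonneg_left n1 hU0
  have c2 := mul_le_mul_of_nonneg_left n2 hU0
  rw [mul_add] at c1
  linarith

theorem sum_long2 : ∀ᶠ x : ℕ in atTop, ∀ (K J : ℕ) (Λ b : ℝ) (B y δ : ℕ) (S : Finset ℕ),
    Sized2 x K J Λ S → 0 < b → 1 ≤ B → Real.log x / 110 ≤ 256 * B * b →
    256 * B * b ≤ Real.log x / 100 → δ ≤ B → 0 < y → y + 2 * δ ≤ 48 * (256 * B) →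
    (∀ s ∈ S, ∀ π ∈ tup K J Λ,
      Real.log x ≤ Real.log ((s * ∏ i, π i : ℕ) : ℝ) + 100 * (256 * B * b)) →
    Gam x (Real.log x ^ 2) * WW K J Λ S tau / (30 * Real.log x) ≤
      SS x (Real.log x ^ 2) K J Λ S tau
        (fun n => (if n.Prime then 1 else 0) - LossF b (256 * B) y δ n) := by
  filter_upwards [loss_sum, prime_gk2 (ε := 1 / 1000) (by norm_num),
    Lib.ANT.PNTError.tendsto_log.eventually_ge_atTop 1100, eventually_ge_atTop 1]
    with x H1 H2 hx hx1 K J Λ b B y δ S hS hb hB hL hL' hδ hy hyδ hlog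
  have hG : 0 ≤ Gam x (Real.log x ^ 2) := sum_nonneg fun n _ => gk_nonneg _ _ _
  have hx0 : (1 : ℝ) ≤ x := by exact_mod_cast hx1
  rw [su_SS_eq, su_WW_eq, mul_sum, sum_div]
  refine sum_le_sum fun s hs => ?_
  rw [mul_sum, sum_div]
  refine sum_le_sum fun π hπ => ?_
  obtain ⟨h1, h2⟩ := su2_size hx1 hS hs hπ
  have h3 := hlog s hs π hπ
  have hm := su2_pos hx1 h1
  generalize s * ∏ i, π i = m at h1 h2 h3 hm
  have hm0 : (0 : ℝ) < m := by exact_mod_cast hm
  have a1 := H1 b B y δ m hb hB hL hm hδ hy hyδ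
  have a2 := (abs_le.1 (H2 m hm (h2.trans
    (Real.rpow_le_rpow_of_exponent_le hx0 (by norm_num))))).1
  obtain ⟨v, hv⟩ : ∃ v, v = 100 * (256 * B * b) := ⟨_, rfl⟩
  rw [← hv] at a1 h3
  have v1 : 1000 ≤ v := by linarith
  have v2 : v ≤ Real.log x := by linarith
  have a3 : ∑ n ∈ Icc 1 (2 * x), (if n.Prime then Real.log n else 0) * gk x (Real.log x ^ 2) (m * n)
      ≤ 1001 / 1000 * v *
        ∑ n ∈ Icc 1 (2 * x), (if n.Prime then 1 else 0) * gk x (Real.log x ^ 2) (m * n) := by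
    rw [mul_sum]
    refine sum_le_sum fun n _ => ?_
    split_ifs with hp
    · by_cases h0 : gk x (Real.log x ^ 2) (m * n) = 0
      · simp [h0]
      rw [one_mul]
      refine mul_le_mul_of_nonneg_right ?_ (gk_nonneg _ _ _)
      have hn0 : (0 : ℝ) < n := by exact_mod_cast hp.pos
      have b1 : (m : ℝ) * n ≤ 2 * x := by exact_mod_cast (gk_ne_zero h0).2
      have b2 := Real.log_le_log (by positivity) b1
      rw [Real.log_mul hm0.ne' hn0.ne', Real.log_mul two_ne_zero (by linarith)] at b2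
      have b3 := Real.log_two_lt_d9
      linarith
    · simp
  simp only [sub_mul, sum_sub_distrib]
  obtain ⟨W, hW⟩ : ∃ W, W = Gam x (Real.log x ^ 2) / m := ⟨_, rfl⟩
  have hW0 : 0 ≤ W := by rw [hW]; positivity
  have e1 : 96 / 100 * Gam x (Real.log x ^ 2) / (m * v) = 96 / 100 * (W / v) := by
    rw [hW]; ring
  have e2 : Gam x (Real.log x ^ 2) * (tau s * (m : ℝ)⁻¹) / (30 * Real.log x) =
      tau s * (1 / 30 * (W / Real.log x)) := by
    rw [hW]; ring
  rw [e1] at a1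
  rw [← hW] at a2
  rw [e2]
  refine mul_le_mul_of_nonneg_left ?_ (tau_nonneg s)
  have a4 : W / Real.log x ≤ W / v := div_le_div_of_nonneg_left hW0 (by linarith) v2
  have a5 : 998 / 1000 * (W / v) ≤
      ∑ n ∈ Icc 1 (2 * x), (if n.Prime then 1 else 0) * gk x (Real.log x ^ 2) (m * n) := by
    rw [← mul_div_assoc, div_le_iff₀ (by linarith)]
    linarith
  have a6 : 0 ≤ W / v := by positivity
  linarith

end Pool.Agent.Work.MP_82fd4a_nt
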