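import Pool.Agent.Work.MP_82fd4a_nt.LossV
import Pool.Agent.Work.MP_82fd4a_nt.RuleEqs

/-! The sum over one box. -/

set_option autoImplicit false
open Filter Topology Finset

namespace Pool.Agent.Work.MP_82fd4a_nt

theorem lb_shift (n o N : ℕ) (h : ℕ → ℝ) (hN : ∀ u, N ≤ u → h u = 0) :
    ∑ u ∈ range N, (cN n u : ℝ) * h (o + u)
      = ∑ w ∈ range N, (if o ≤ w then (cN n (w - o) : ℝ) else 0) * h w := by
  have e1 : ∑ w ∈ range N, (if o ≤ w then (cN n (w - o) : ℝ) else 0) * h w
      = ∑ w ∈ range (o + N), (if o ≤ w then (cN n (w - o) : ℝ) else 0) * h w := by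
    refine sum_subset (range_subset_range.2 (by omega)) fun w _ hw => ?_
    rw [hN w (by simpa using hw), mul_zero]
  rw [e1, sum_range_add, sum_eq_zero (s := range o) fun w hw => by
    rw [if_neg (by have := mem_range.1 hw; omega), zero_mul], zero_add]
  refine sum_congr rfl fun u _ => ?_
  rw [if_pos (by omega), Nat.add_sub_cancel_left]

/-- sum over tuples by the medium cells -/
theorem lb_psum {b : ℝ} {B : ℕ} (N : ℕ) (V : List (Finset ℕ × ℕ × ℝ)) (hV : ∀ v ∈ V, Var b B v)
    (F : ℕ → ℝ) (h : ℕ → ℝ) (h0 : ∀ u, 0 ≤ h u) (hN : ∀ u, N ≤ u → h u = 0)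
    (hF : ∀ l : List ℕ, List.Forall₂ (· ∈ ·) l (V.map (·.1)) → F l.prod ≤
      h (l.map fun a => fs b a / B % 256).sum * ((l.map fun a => fs b a / B).prod : ℕ) /
        (l.prod : ℕ)) :
    psum (V.map (·.1)) F ≤ (V.map (·.2.2)).prod * ∑ u ∈ range N, (cN V.length u : ℝ) * h u := by
  induction V generalizing F h with
  | nil =>
    have := hF [] List.Forall₂.nil
    simp only [List.map_nil, List.prod_nil, List.sum_nil, Nat.cast_one, mul_one, div_one] at this
    simp only [List.map_nil, psum, List.prod_nil, one_mul, List.length_nil, cN]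
    refine this.trans ?_
    rcases Nat.eq_zero_or_pos N with rfl | hp
    · simp [hN 0 le_rfl]
    · refine le_trans ?_ (single_le_sum (f := fun u => ((if u = 0 then 1 else 0 : ℕ) : ℝ) * h u)
        (fun u _ => mul_nonneg (Nat.cast_nonneg _) (h0 u)) (mem_range.2 hp))
      simp
  | cons v V ih =>
    have hv := hV v List.mem_cons_self
    have hV' : ∀ w ∈ V, Var b B w := fun w hw => hV w (List.mem_cons_of_mem _ hw)
    have hk : 0 ≤ (V.map (·.2.2)).prod := List.prod_nonneg fun t ht => by
      obtain ⟨w, hw, rfl⟩ := List.mem_map.1 ht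
      exact (hV' w hw).nonneg
    set S : ℕ → ℝ := fun o => ∑ u ∈ range N, (cN V.length u : ℝ) * h (o + u) with hS
    have S0 : ∀ o, 0 ≤ S o := fun o =>
      sum_nonneg fun u _ => mul_nonneg (Nat.cast_nonneg _) (h0 _)
    have step : ∀ a ∈ v.1, psum (V.map (·.1)) (fun n => F (a * n)) ≤
        (V.map (·.2.2)).prod * (S (fs b a / B % 256) * ((fs b a / B : ℕ) * (a : ℝ)⁻¹)) := by
      intro a ha
      have := ih hV' (fun n => F (a * n))
        (fun u => h (fs b a / B % 256 + u) * ((fs b a / B : ℕ) * (a : ℝ)⁻¹))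
        (fun u => mul_nonneg (h0 _) (by positivity))
        (fun u hu => by rw [hN _ (by omega), zero_mul]) fun l hl => by
          have := hF (a :: l) (List.Forall₂.cons ha hl)
          simp only [List.prod_cons, List.map_cons, List.sum_cons, Nat.cast_mul] at this
          refine this.trans (le_of_eq ?_)
          rw [div_eq_mul_inv, div_eq_mul_inv, mul_inv]; ring
      refine this.trans (le_of_eq ?_)
      rw [hS, sum_mul]
      exact congrArg _ (sum_congr rfl fun u _ => by ring)
    have fib : ∑ a ∈ v.1, S (fs b a / B % 256) * ((fs b a / B : ℕ) * (a : ℝ)⁻¹)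
        ≤ ∑ o ∈ range 256, S o * v.2.2 := by
      rw [← sum_fiberwise_of_maps_to (s := v.1) (t := range 256) (g := fun a => fs b a / B % 256)
        fun a _ => mem_range.2 (Nat.mod_lt _ (by norm_num))]
      refine sum_le_sum fun o ho => ?_
      have ho' := mem_range.1 ho
      have h4 := hv.four
      have key : ∀ a ∈ v.1, fs b a / B % 256 = o ↔ fs b a / B = 256 * v.2.1 + o := by
        intro a ha
        have := hv.cell a ha
        rw [mul_comm, ← Nat.div_div_eq_div_mul] at this
        omega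
      rw [filter_congr key]
      have hm := hv.mass (256 * v.2.1 + o)
      have tp : (0 : ℝ) < ((256 * v.2.1 + o : ℕ) : ℝ) := by exact_mod_cast (by omega)
      calc _ = ∑ a ∈ v.1 with fs b a / B = 256 * v.2.1 + o,
            S o * (((256 * v.2.1 + o : ℕ) : ℝ) * (a : ℝ)⁻¹) := by
            refine sum_congr rfl fun a ha => ?_
            obtain ⟨h1, h2⟩ := mem_filter.1 ha
            rw [(key a h1).2 h2, h2]
        _ = S o * (((256 * v.2.1 + o : ℕ) : ℝ) *
            ∑ a ∈ v.1 with fs b a / B = 256 * v.2.1 + o, (a : ℝ)⁻¹) := by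
            rw [mul_sum, mul_sum]
        _ ≤ S o * v.2.2 := by
            refine mul_le_mul_of_nonneg_left ?_ (S0 o)
            rwa [le_div_iff₀' tp] at hm
    simp only [List.map_cons, psum, List.prod_cons, List.length_cons]
    refine (sum_le_sum step).trans ?_
    rw [← mul_sum]
    refine (mul_le_mul_of_nonneg_left fib hk).trans (le_of_eq ?_)
    have : ∑ o ∈ range 256, S o = ∑ u ∈ range N, (cN (V.length + 1) u : ℝ) * h u := by
      simp only [hS, lb_shift _ _ _ _ hN]
      rw [sum_comm]
      refine sum_congr rfl fun u _ => ?_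
      rw [← sum_mul, cN]
      push_cast
      rfl
    rw [← sum_mul, this]; ring

/-- the data of a tuple -/
theorem lb_tuple {b : ℝ} {B : ℕ} (hB : 1 ≤ B) {V : List (Finset ℕ × ℕ × ℝ)}
    (hV : ∀ v ∈ V, Var b B v) {l : List ℕ} (hl : List.Forall₂ (· ∈ ·) l (V.map (·.1))) :
    0 < l.prod ∧ (l.map fun a => fs b a / (256 * B)) = V.map (·.2.1) ∧
      B * (l.map fun a => fs b a / B).sum ≤ fs b l.prod ∧
      fs b l.prod ≤ B * ((l.map fun a => fs b a / B).sum + V.length) ∧
      (l.map fun a => fs b a / B).sum =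
        256 * (V.map (·.2.1)).sum + (l.map fun a => fs b a / B % 256).sum := by
  induction V generalizing l with
  | nil =>
    cases hl
    simp [fs, ty]
  | cons v V ih =>
    cases hl with
    | cons ha hl =>
      rename_i a l
      obtain ⟨h1, h2, h3, h4, h5⟩ := ih (fun w hw => hV w (List.mem_cons_of_mem _ hw)) hl
      have hv := hV v List.mem_cons_self
      have hp := hv.pos a ha
      have hc := hv.cell a ha
      have hc' := hc
      rw [mul_comm, ← Nat.div_div_eq_div_mul] at hc'
      have d1 := Nat.mul_div_le (fs b a) B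
      have d2 := Nat.lt_mul_div_succ (fs b a) hB
      simp only [List.prod_cons, List.map_cons, List.sum_cons, List.length_cons]
      rw [fs_mul b hp.ne' h1.ne']
      refine ⟨Nat.mul_pos hp h1, by rw [h2, hc], ?_, ?_, by omega⟩
      · rw [mul_add]; omega
      · rw [show fs b a / B + (l.map fun a => fs b a / B).sum + (V.length + 1) =
          (fs b a / B + 1) + ((l.map fun a => fs b a / B).sum + V.length) by ring, mul_add]
        omega

theorem box_sum : ∀ᶠ x : ℕ in atTop, ∀ (b : ℝ) (B m e r : ℕ) (V₁ V₂ : List (Finset ℕ × ℕ × ℝ))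
    (c : List ℕ), 0 < b → 1 ≤ B → Real.log x / 110 ≤ 256 * B * b → 1 ≤ m →
    (∀ v ∈ V₁ ++ V₂, Var b B v) → 4 ≤ e → c.Pairwise (· ≤ ·) →
    (V₁.map (·.2.1) ++ (V₂.map (·.2.1) ++ [e])).Perm c → c.sum + r = 100 → r ≤ c.length →
    c.length ≤ 10 →
    psum (V₁.map (·.1)) (fun a₁ => psum (V₂.map (·.1)) fun a₂ => ∑ p ∈ Prc x b (256 * B) e,
      if fs b a₁ < 48 * (256 * B) ∧ 100 * (256 * B) ≤ fs b (a₁ * a₂ * p) + B ∧
        fs b (a₁ * a₂ * p) ≤ 100 * (256 * B) + B then
        gk x (Real.log x ^ 2) (m * (a₁ * a₂ * p)) else 0)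
      ≤ 1015 / 1000 * Gam x (Real.log x ^ 2) / (m * (256 * B * b)) *
        (((V₁ ++ V₂).map (·.2.2)).prod *
          (cT V₁.length V₂.length r (48 - (V₁.map (·.2.1)).sum) /
            (256 ^ (c.length - 1) * pend r c))) := by
  filter_upwards [solve_prime (ε := 1 / 250) (by norm_num)] with x hx
  intro b B m e r V₁ V₂ c hb hB hL hm hV he hc hp hr hrc hk
  have hV1 : ∀ v ∈ V₁, Var b B v := fun v hv => hV v (List.mem_append_left _ hv)
  have hV2 : ∀ v ∈ V₂, Var b B v := fun v hv => hV v (List.mem_append_right _ hv)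
  have h4 : ∀ a ∈ c, 4 ≤ a := by
    intro a ha
    have := hp.symm.subset ha
    simp only [List.mem_append, List.mem_map, List.mem_singleton] at this
    rcases this with ⟨v, hv, rfl⟩ | ⟨v, hv, rfl⟩ | rfl
    exacts [(hV1 v hv).four, (hV2 v hv).four, he]
  have hsum := hp.sum_eq
  have hlen := hp.length_eq
  simp only [List.sum_append, List.sum_cons, List.sum_nil, List.length_append, List.length_map,
    List.length_cons, List.length_nil] at hsum hlen
  have hG : 0 ≤ Gam x (Real.log x ^ 2) := sum_nonneg fun _ _ => gk_nonneg _ _ _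
  have hpe : (0 : ℝ) < pend r c := by exact_mod_cast pend_pos r h4
  have hB' : (0 : ℝ) < B := by exact_mod_cast hB
  have hm' : (0 : ℝ) < m := by exact_mod_cast hm
  set K : ℝ := 1015 / 1000 * Gam x (Real.log x ^ 2) / (m * (256 * B * b)) /
    (256 ^ (c.length - 1) * pend r c) with hK
  have K0 : 0 ≤ K := by positivity
  set s := 48 - (V₁.map (·.2.1)).sum with hs
  set W : ℕ → ℕ → ℝ := fun u v => if u < 256 * s ∧
    256 * r ≤ u + v + 256 + V₁.length + V₂.length ∧ u + v ≤ 256 * r + 1 then 1 else 0 with hW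
  have W0 : ∀ u v, 0 ≤ W u v := fun u v => by rw [hW]; dsimp only; split_ifs <;> norm_num
  have k2 : 0 ≤ (V₂.map (·.2.2)).prod := List.prod_nonneg fun t ht => by
    obtain ⟨w, hw, rfl⟩ := List.mem_map.1 ht
    exact (hV2 w hw).nonneg
  refine (lb_psum (256 * s) V₁ hV1 _ (fun u => (V₂.map (·.2.2)).prod *
    ∑ v ∈ range (256 * r + 2), (cN V₂.length v : ℝ) * (K * W u v))
    (fun u => mul_nonneg k2 (sum_nonneg fun v _ =>
      mul_nonneg (Nat.cast_nonneg _) (mul_nonneg K0 (W0 _ _))))
    (fun u hu => ?_) fun l₁ hl₁ => ?_).trans (le_of_eq ?_)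
  · rw [sum_eq_zero fun v _ => ?_, mul_zero]
    rw [hW]; dsimp only; rw [if_neg (by omega)]; simp
  · obtain ⟨a1, a2, a3, a4, a5⟩ := lb_tuple hB hV1 hl₁
    refine (lb_psum (256 * r + 2) V₂ hV2 _ (fun v =>
      K * W (l₁.map fun a => fs b a / B % 256).sum v *
        (((l₁.map fun a => fs b a / B).prod : ℕ) / (l₁.prod : ℕ)))
      (fun v => mul_nonneg (mul_nonneg K0 (W0 _ _)) (by positivity))
      (fun v hv => ?_) fun l₂ hl₂ => ?_).trans (le_of_eq ?_)
    · rw [hW]; dsimp only; rw [if_neg (by omega)]; simp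
    · obtain ⟨b1, b2, b3, b4, b5⟩ := lb_tuple hB hV2 hl₂
      by_cases hex : ∃ p ∈ Prc x b (256 * B) e, fs b l₁.prod < 48 * (256 * B) ∧
          100 * (256 * B) ≤ fs b (l₁.prod * l₂.prod * p) + B ∧
          fs b (l₁.prod * l₂.prod * p) ≤ 100 * (256 * B) + B
      swap
      · rw [sum_eq_zero fun p hp' => if_neg fun h => hex ⟨p, hp', h⟩]
        have := W0 (l₁.map fun a => fs b a / B % 256).sum (l₂.map fun a => fs b a / B % 256).sum
        positivity
      set T₁ := (l₁.map fun a => fs b a / B).sum with hT₁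
      set T₂ := (l₂.map fun a => fs b a / B).sum with hT₂
      have cellp : ∀ p ∈ Prc x b (256 * B) e, p.Prime ∧ B * (256 * e) ≤ fs b p ∧
          fs b p < B * (256 * (e + 1)) ∧
          fs b (l₁.prod * l₂.prod * p) = fs b l₁.prod + fs b l₂.prod + fs b p := by
        intro p hp'
        obtain ⟨-, pp, pc⟩ := mem_filter.1 hp'
        have d1 := Nat.mul_div_le (fs b p) (256 * B)
        have d2 := Nat.lt_mul_div_succ (fs b p) (show 0 < 256 * B by omega)
        rw [pc] at d1 d2
        refine ⟨pp, by linarith, by linarith, ?_⟩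
        rw [fs_mul b (Nat.mul_pos a1 b1).ne' pp.ne_zero, fs_mul b a1.ne' b1.ne']
      obtain ⟨p, hp', c1, c2, c3⟩ := hex
      obtain ⟨-, p1, p2, p3⟩ := cellp p hp'
      have i1 : T₁ < 48 * 256 := lt_of_mul_lt_mul_left (a := B) (by linarith) (Nat.zero_le _)
      have i2 : T₁ + T₂ + 256 * e ≤ 25601 :=
        le_of_mul_le_mul_left (a := B) (by rw [mul_add, mul_add]; linarith) hB
      have i3 : 25600 < T₁ + V₁.length + (T₂ + V₂.length) + 256 * (e + 1) + 1 :=
        lt_of_mul_lt_mul_left (a := B) (by rw [mul_add, mul_add, mul_add B (T₁ + _)]; linarith)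
          (Nat.zero_le _)
      obtain ⟨t, t1, t2, t3, t4⟩ : ∃ t : ℕ, 256 * e ≤ t ∧ t ≤ 256 * (e + 1) ∧
          25600 ≤ t + c.length + (T₁ + T₂) ∧ (t = 256 * e ∨ 25600 = t + c.length + (T₁ + T₂)) := by
        by_cases h : 25600 ≤ 256 * e + c.length + (T₁ + T₂)
        · exact ⟨256 * e, le_rfl, by omega, h, Or.inl rfl⟩
        · obtain ⟨d, hd⟩ := Nat.exists_eq_add_of_le (not_le.1 h).le
          exact ⟨256 * e + d, by omega, by omega, by omega, Or.inr (by omega)⟩
      have t0 : (1024 : ℝ) ≤ t := by exact_mod_cast (show 1024 ≤ t by omega)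
      have hw : W (l₁.map fun a => fs b a / B % 256).sum (l₂.map fun a => fs b a / B % 256).sum
          = 1 := by
        rw [hW]; dsimp only; rw [if_pos (by omega)]
      have hBb : 0 < (B : ℝ) * b := by positivity
      have sp := hx b (m * (l₁.prod * l₂.prod)) (t * B) hb
        (Nat.mul_pos hm (Nat.mul_pos a1 b1)) (by
          have := mul_le_mul_of_nonneg_right t0 hBb.le
          rw [Nat.cast_mul, mul_assoc]; rw [mul_assoc] at hL; linarith)
      have pl := pend_le_prod hc h4 hrc
        ((l₁.map fun a => (fs b a / (256 * B), fs b a / B)) ++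
          ((l₂.map fun a => (fs b a / (256 * B), fs b a / B)) ++ [(e, t)]))
        (by
          simp only [List.map_append, List.map_map, List.map_cons, List.map_nil]
          rw [← a2, ← b2] at hp
          exact hp)
        (by
          have : ∀ a : ℕ, 256 * (fs b a / (256 * B)) ≤ fs b a / B ∧
              fs b a / B ≤ 256 * (fs b a / (256 * B) + 1) := fun a => by
            rw [mul_comm 256 B, ← Nat.div_div_eq_div_mul]; omega
          intro q hq
          simp only [List.mem_append, List.mem_map, List.mem_singleton] at hq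
          rcases hq with ⟨a, -, rfl⟩ | ⟨a, -, rfl⟩ | rfl
          exacts [this a, this a, ⟨t1, t2⟩])
        (by
          simp only [List.map_append, List.map_map, List.map_cons, List.map_nil, List.sum_append,
            List.sum_cons, List.sum_nil, Function.comp_def, ← hT₁, ← hT₂]
          omega)
      simp only [List.map_append, List.map_map, List.map_cons, List.map_nil, List.prod_append,
        List.prod_cons, List.prod_nil, Function.comp_def, mul_one, Nat.cast_mul] at pl
      have le1 : (∑ p ∈ Prc x b (256 * B) e, if fs b l₁.prod < 48 * (256 * B) ∧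
          100 * (256 * B) ≤ fs b (l₁.prod * l₂.prod * p) + B ∧
          fs b (l₁.prod * l₂.prod * p) ≤ 100 * (256 * B) + B then
          gk x (Real.log x ^ 2) (m * (l₁.prod * l₂.prod * p)) else 0) ≤
          ∑ p ∈ Icc 1 (2 * x) with p.Prime ∧ t * B ≤ fs b p,
            gk x (Real.log x ^ 2) (m * (l₁.prod * l₂.prod) * p) := by
        rw [← sum_filter]
        simp only [mul_assoc m]
        refine sum_le_sum_of_subset_of_nonneg (fun q hq => ?_) fun _ _ _ => gk_nonneg _ _ _
        obtain ⟨q1, -, q2, -⟩ := mem_filter.1 hq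
        obtain ⟨q3, q4, -, q5⟩ := cellp q q1
        refine mem_filter.2 ⟨(mem_filter.1 q1).1, q3, ?_⟩
        rw [mul_comm]
        rcases t4 with h | h
        · rwa [h]
        · have e2 : B * 25600 = B * t + B * (T₁ + V₁.length) + B * (T₂ + V₂.length) + B := by
            rw [h, ← hlen]; ring
          linarith
      refine le1.trans (sp.trans ?_)
      rw [hw, hK]
      have a1' : (0 : ℝ) < (l₁.prod : ℕ) := by exact_mod_cast a1
      have b1' : (0 : ℝ) < (l₂.prod : ℕ) := by exact_mod_cast b1
      have e256 : (256 : ℝ) ^ c.length = 256 * 256 ^ (c.length - 1) := by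
        rw [← pow_succ', show c.length - 1 + 1 = c.length by omega]
      rw [e256] at pl
      set P₁ : ℝ := (((l₁.map fun a => fs b a / B).prod : ℕ) : ℝ)
      set P₂ : ℝ := (((l₂.map fun a => fs b a / B).prod : ℕ) : ℝ)
      set D : ℝ := 256 ^ (c.length - 1) * pend r c with hD
      have D0 : 0 < D := by positivity
      have pl' : 256 * D ≤ 101 / 100 * (P₁ * (P₂ * t)) := by rw [hD]; linarith
      have PP : 0 ≤ P₁ * (P₂ * t) := by positivity
      simp only [Nat.cast_mul]
      have tp : (0 : ℝ) < t := by linarith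
      rw [show 1015 / 1000 * Gam x (Real.log x ^ 2) / (m * (256 * B * b)) / D * 1 *
          (P₁ / (l₁.prod : ℕ)) * P₂ / (l₂.prod : ℕ) = (1015 / 1000 * (P₁ * (P₂ * t)) / (256 * D)) *
          Gam x (Real.log x ^ 2) / (m * ((l₁.prod : ℕ) * (l₂.prod : ℕ)) * (t * B * b)) by
        field_simp]
      gcongr
      rw [le_div_iff₀ (by positivity)]
      linarith
    · rw [mul_div_assoc, mul_assoc, sum_mul]
      exact congrArg _ (sum_congr rfl fun v _ => by ring)
  · have : (cT V₁.length V₂.length r s : ℝ) = ∑ u ∈ range (256 * s), (cN V₁.length u : ℝ) *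
        ∑ v ∈ range (256 * r + 2), (cN V₂.length v : ℝ) * W u v := by
      unfold cT
      push_cast
      refine sum_congr rfl fun u hu => ?_
      rw [mul_sum]
      refine sum_congr rfl fun v _ => ?_
      rw [hW]; dsimp only
      have := mem_range.1 hu
      split_ifs <;> first | omega | simp
    rw [List.map_append, List.prod_append, this]
    have e : ∀ u, ∑ v ∈ range (256 * r + 2), (cN V₂.length v : ℝ) * (K * W u v) =
        K * ∑ v ∈ range (256 * r + 2), (cN V₂.length v : ℝ) * W u v := fun u => by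
      rw [mul_sum]; exact sum_congr rfl fun v _ => by ring
    simp only [e]
    have e' : ∑ u ∈ range (256 * s), (cN V₁.length u : ℝ) * ((V₂.map (·.2.2)).prod *
        (K * ∑ v ∈ range (256 * r + 2), (cN V₂.length v : ℝ) * W u v)) =
        (V₂.map (·.2.2)).prod * K * ∑ u ∈ range (256 * s), (cN V₁.length u : ℝ) *
        ∑ v ∈ range (256 * r + 2), (cN V₂.length v : ℝ) * W u v := by
      rw [mul_sum]; exact sum_congr rfl fun v _ => by ring
    rw [e', hK]; ring

end Pool.Agent.Work.MP_82fd4a_nt
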