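import Pool.Agent.Work.MP_82fd4a_nt.NDefs
import Pool.Agent.Work.MP_82fd4a_nt.RuleEqs

/-! Sums over tuples of primes, and the product of the coordinates in a box. -/

set_option autoImplicit false
open Filter Topology Finset

namespace Pool.Agent.Work.MP_82fd4a_nt

theorem mf_perm {c c' : List ℕ} (h : c.Perm c') : mf c = mf c' := by
  induction h with
  | nil => rfl
  | cons a h ih => simp only [mf, ih, h.count_eq]
  | swap a b l =>
    by_cases e : a = b
    · rw [e]
    · simp only [mf, List.count_cons_of_ne e, List.count_cons_of_ne (Ne.symm e)]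
      ring
  | trans _ _ ih ih' => exact ih.trans ih'

theorem mf_pos (c : List ℕ) : 0 < mf c := by
  induction c with
  | nil => exact one_pos
  | cons a c ih => exact Nat.mul_pos (Nat.succ_pos _) ih

theorem mf_replicate (j v : ℕ) : mf (List.replicate j v) = j.factorial := by
  induction j with
  | zero => rfl
  | succ j ih => rw [List.replicate_succ, mf, ih, List.count_replicate_self, Nat.factorial_succ]

/-- a squarefree number with a given type comes from `mf c` ordered tuples -/
theorem tuple_le (cl : ℕ → ℕ) (N : ℕ) (c : List ℕ) (H : ℕ → ℝ) (hH : ∀ n, 0 ≤ H n) :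
    (mf c : ℝ) * ∑ n ∈ Icc 1 N with Squarefree n ∧ (n.primeFactorsList.map cl).Perm c, H n
      ≤ psum (c.map fun v => (Icc 1 N).filter fun p => p.Prime ∧ cl p = v) H := by
  induction c generalizing H with
  | nil =>
    simp only [mf, Nat.cast_one, one_mul, List.map_nil, psum]
    rw [← sum_singleton H 1]
    refine sum_le_sum_of_subset_of_nonneg (fun n hn => ?_) fun n _ _ => hH n
    obtain ⟨h1, -, h2⟩ := mem_filter.1 hn
    have h3 := (Nat.primeFactorsList_eq_nil n).1 (List.map_eq_nil_iff.1 h2.eq_nil)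
    have := (mem_Icc.1 h1).1
    rw [mem_singleton]
    omega
  | cons a c ih =>
    simp only [mf, List.map_cons, psum]
    refine le_trans ?_ (sum_le_sum fun p _ => ih (fun n => H (p * n)) fun n => hH _)
    rw [← mul_sum, Nat.cast_mul, mul_comm (_ : ℝ) (mf c : ℝ), mul_assoc]
    refine mul_le_mul_of_nonneg_left ?_ (Nat.cast_nonneg _)
    set S := (Icc 1 N).filter fun n => Squarefree n ∧ (n.primeFactorsList.map cl).Perm (a :: c)
    set P := (Icc 1 N).filter fun p => p.Prime ∧ cl p = a
    have h1 : ∀ n ∈ S, c.count a + 1 ≤ #{p ∈ P | p ∣ n} := fun n hn => by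
      obtain ⟨h1, h2, h3⟩ := mem_filter.1 hn
      have h4 := mem_Icc.1 h1
      have h5 := (Nat.squarefree_iff_nodup_primeFactorsList (by omega)).1 h2
      rw [← List.count_cons_self, ← h3.count_eq, List.count_eq_countP, List.countP_map,
        List.countP_eq_length_filter, ← List.toFinset_card_of_nodup (h5.filter _)]
      refine card_le_card fun p hp => ?_
      obtain ⟨h6, h7⟩ := List.mem_filter.1 (List.mem_toFinset.1 hp)
      have h8 := Nat.prime_of_mem_primeFactorsList h6
      have h9 := Nat.dvd_of_mem_primeFactorsList h6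
      exact mem_filter.2 ⟨mem_filter.2 ⟨mem_Icc.2 ⟨h8.one_le, (Nat.le_of_dvd h4.1 h9).trans h4.2⟩,
        h8, by simpa using h7⟩, h9⟩
    calc ((c.count a + 1 : ℕ) : ℝ) * ∑ n ∈ S, H n
        ≤ ∑ n ∈ S, ∑ p ∈ P, if p ∣ n then H n else 0 := by
          rw [mul_sum]
          refine sum_le_sum fun n hn => ?_
          rw [← sum_filter, sum_const, nsmul_eq_mul]
          exact mul_le_mul_of_nonneg_right (Nat.cast_le.2 (h1 n hn)) (hH n)
      _ ≤ _ := by
          rw [sum_comm]
          refine sum_le_sum fun p hp => ?_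
          obtain ⟨-, h2, h3⟩ := mem_filter.1 hp
          rw [← sum_filter, ← sum_image (f := H) (g := (p * ·))
            fun x _ y _ e => Nat.eq_of_mul_eq_mul_left h2.pos e]
          refine sum_le_sum_of_subset_of_nonneg (fun n hn => ?_) fun n _ _ => hH n
          obtain ⟨h4, m, rfl⟩ := mem_filter.1 hn
          obtain ⟨h5, h6, h7⟩ := mem_filter.1 h4
          have h8 := mem_Icc.1 h5
          have h9 : m ≠ 0 := by
            rintro rfl
            omega
          refine mem_image.2 ⟨m, mem_filter.2 ⟨mem_Icc.2 ⟨by omega,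
            (Nat.le_mul_of_pos_left m h2.pos).trans h8.2⟩, h6.of_mul_right, ?_⟩, rfl⟩
          have h10 := ((Nat.perm_primeFactorsList_mul h2.ne_zero h9).map cl).symm.trans h7
          rw [Nat.primeFactorsList_prime h2, List.singleton_append, List.map_cons, h3] at h10
          exact h10.cons_inv

theorem pend_pos (r : ℕ) {c : List ℕ} (h4 : ∀ a ∈ c, 4 ≤ a) : 0 < pend r c := by
  refine Nat.mul_pos (List.prod_pos fun a ha => ?_) (List.prod_pos fun a ha => ?_)
  · have := h4 a (List.mem_of_mem_take ha)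
    omega
  · obtain ⟨b, -, rfl⟩ := List.mem_map.1 ha
    omega

theorem LossT_conv (g : ℝ) {f : ℝ} (h0 : 0 ≤ f) (h1 : f ≤ 1) :
    Real.exp (g * f) ≤ f * Real.exp g + (1 - f) := by
  have := convexOn_exp.2 (Set.mem_univ g) (Set.mem_univ 0) h0 (sub_nonneg.2 h1) (by ring)
  simpa [mul_comm] using this

theorem LossT_prod (g : ℝ) (m : ℕ → ℝ) (m0 : ∀ a, 0 ≤ m a) (l : List (ℕ × ℕ))
    (h : ∀ p ∈ l, 256 * m p.1 * Real.exp (g * ((p.2 : ℝ) / 256 - p.1)) ≤ p.2) :
    256 ^ l.length * ((l.map Prod.fst).map m).prod *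
      Real.exp (g * (((l.map Prod.snd).sum : ℕ) / 256 - ((l.map Prod.fst).sum : ℕ))) ≤
        ((l.map Prod.snd).prod : ℕ) := by
  induction l with
  | nil => simp
  | cons p l ih =>
    have h1 := mul_le_mul (h p List.mem_cons_self) (ih fun q hq => h q (List.mem_cons_of_mem _ hq))
      (mul_nonneg (mul_nonneg (by positivity) (List.prod_nonneg fun x hx => by
        obtain ⟨a, -, rfl⟩ := List.mem_map.1 hx
        exact m0 a)) (Real.exp_pos _).le) (Nat.cast_nonneg _)
    simp only [List.map_cons, List.prod_cons, List.sum_cons, List.length_cons, Nat.cast_add,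
      Nat.cast_mul]
    refine le_trans (le_of_eq ?_) h1
    rw [show ∀ a b c d : ℝ, g * ((a + b) / 256 - (c + d)) = g * (a / 256 - c) + g * (b / 256 - d) by
      intros; ring, Real.exp_add]
    ring

theorem pend_le_prod {r : ℕ} {c : List ℕ} (hc : c.Pairwise (· ≤ ·)) (h4 : ∀ a ∈ c, 4 ≤ a)
    (hr : r ≤ c.length) (l : List (ℕ × ℕ)) (hp : (l.map Prod.fst).Perm c)
    (h : ∀ p ∈ l, 256 * p.1 ≤ p.2 ∧ p.2 ≤ 256 * (p.1 + 1))
    (hs : 256 * (c.sum + r) ≤ (l.map Prod.snd).sum + 10) :
    (256 : ℝ) ^ c.length * pend r c ≤ 101 / 100 * ((l.map Prod.snd).prod : ℕ) := by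
  obtain ⟨s, s4, s1, s2⟩ : ∃ s : ℕ, 4 ≤ s ∧ (∀ a ∈ c.take (c.length - r), a ≤ s) ∧
      ∀ a ∈ c.drop (c.length - r), s ≤ a := by
    rw [← List.take_append_drop (c.length - r) c, List.pairwise_append] at hc
    exact ⟨max 4 ((c.take (c.length - r)).toFinset.sup id), le_max_left _ _,
      fun a ha => le_max_of_le_right (le_sup (f := id) (List.mem_toFinset.2 ha)),
      fun a ha => max_le (h4 a (List.mem_of_mem_drop ha))
        (Finset.sup_le fun b hb => hc.2.2 b (List.mem_toFinset.1 hb) a ha)⟩
  have s4' : (4 : ℝ) ≤ s := by exact_mod_cast s4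
  have hq : (1 : ℝ) ≤ (s + 1) / s := by rw [le_div_iff₀ (by linarith)]; linarith
  set g := Real.log ((s + 1) / s) with hg
  have e1 : Real.exp g = (s + 1) / s := Real.exp_log (by linarith)
  have e2 : Real.exp (-g) = s / (s + 1) := by rw [Real.exp_neg, e1, inv_div]
  have g0 : 0 ≤ g := Real.log_nonneg hq
  have g1 : g ≤ 1 / 4 := by
    refine (Real.log_le_sub_one_of_pos (by linarith)).trans ?_
    rw [sub_le_iff_le_add, div_le_iff₀ (by linarith)]
    linarith
  let m : ℕ → ℝ := fun a => if a ≤ s then a else (a + 1) * Real.exp (-g)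
  have m0 : ∀ a, 0 ≤ m a := fun a => by
    simp only [m]
    split_ifs <;> positivity
  have h1 := LossT_prod g m m0 l fun p hp => by
    obtain ⟨a1, a2⟩ := h p hp
    have a1' : 256 * (p.1 : ℝ) ≤ p.2 := by exact_mod_cast a1
    have a2' : (p.2 : ℝ) ≤ 256 * (p.1 + 1) := by exact_mod_cast a2
    have a0 : (0 : ℝ) ≤ p.1 := Nat.cast_nonneg _
    have f0 : 0 ≤ (p.2 : ℝ) / 256 - p.1 := by linarith
    have f1 : (p.2 : ℝ) / 256 - p.1 ≤ 1 := by linarith
    have e3 : (p.2 : ℝ) = 256 * (p.1 + ((p.2 : ℝ) / 256 - p.1)) := by ring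
    generalize (p.2 : ℝ) / 256 - p.1 = f at *
    rw [e3, mul_assoc]
    refine mul_le_mul_of_nonneg_left ?_ (by norm_num)
    simp only [m]
    split_ifs with h5
    · have h6 : (p.1 : ℝ) ≤ s := by exact_mod_cast h5
      have h7 : p.1 * Real.exp g ≤ p.1 + 1 := by
        rw [e1, ← mul_div_assoc, div_le_iff₀ (by linarith)]
        linarith
      have := mul_le_mul_of_nonneg_left (LossT_conv g f0 f1) a0
      nlinarith
    · have h6 : (s : ℝ) ≤ p.1 := by exact_mod_cast (not_le.1 h5).le
      have h7 : (p.1 + 1) * Real.exp (-g) ≤ p.1 := by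
        rw [e2, ← mul_div_assoc, div_le_iff₀ (by linarith)]
        linarith
      have := mul_le_mul_of_nonneg_left
        (LossT_conv (-g) (f := 1 - f) (by linarith) (by linarith)) (by linarith : 0 ≤ (p.1 : ℝ) + 1)
      rw [mul_assoc, ← Real.exp_add, show -g + g * f = -g * (1 - f) by ring]
      nlinarith
  rw [(hp.map m).prod_eq, hp.sum_eq, ← List.length_map (f := Prod.fst), hp.length_eq] at h1
  have h2 : (pend r c : ℝ) * Real.exp (-g) ^ r ≤ (c.map m).prod := by
    have e3 : ((c.take (c.length - r)).map m).prod = ((c.take (c.length - r)).prod : ℕ) := by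
      rw [Nat.cast_list_prod]
      exact congrArg List.prod (List.map_congr_left fun a ha => if_pos (s1 a ha))
    have e4 : ((c.drop (c.length - r)).map m).prod =
        (((c.drop (c.length - r)).map (· + 1)).prod : ℕ) * Real.exp (-g) ^ r := by
      have e5 : (c.drop (c.length - r)).map m =
          (c.drop (c.length - r)).map fun a : ℕ => ((a + 1 : ℕ) : ℝ) * Real.exp (-g) :=
        List.map_congr_left fun a ha => by
          simp only [m]
          push_cast
          split_ifs with h5
          · rw [le_antisymm h5 (s2 a ha), e2]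
            field_simp
          · rfl
      rw [e5, List.prod_map_mul, Nat.cast_list_prod, List.map_map, List.map_const',
        List.prod_replicate, List.length_drop, Nat.sub_sub_self hr]
      rfl
    conv_rhs => rw [← List.take_append_drop (c.length - r) c, List.map_append, List.prod_append,
      e3, e4]
    rw [pend, Nat.cast_mul, mul_assoc]
  have hs' : 256 * ((c.sum : ℝ) + r) ≤ ((l.map Prod.snd).sum : ℕ) + 10 := by exact_mod_cast hs
  have h3 : 1 ≤ 101 / 100 * (Real.exp (-g) ^ r *
      Real.exp (g * (((l.map Prod.snd).sum : ℕ) / 256 - (c.sum : ℕ)))) := by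
    rw [← Real.exp_nat_mul, ← Real.exp_add]
    have h5 := Real.add_one_le_exp
      (r * -g + g * (((l.map Prod.snd).sum : ℕ) / 256 - (c.sum : ℕ)))
    have h6 := mul_le_mul_of_nonneg_left hs' g0
    nlinarith
  calc (256 : ℝ) ^ c.length * pend r c
      ≤ 256 ^ c.length * pend r c * (101 / 100 * (Real.exp (-g) ^ r *
        Real.exp (g * (((l.map Prod.snd).sum : ℕ) / 256 - (c.sum : ℕ))))) :=
        le_mul_of_one_le_right (by positivity) h3
    _ = 101 / 100 * (256 ^ c.length * (pend r c * Real.exp (-g) ^ r) *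
        Real.exp (g * (((l.map Prod.snd).sum : ℕ) / 256 - (c.sum : ℕ)))) := by ring
    _ ≤ _ := by
        refine mul_le_mul_of_nonneg_left (le_trans ?_ h1) (by norm_num)
        gcongr

theorem log_le_lg {v : ℕ} (hv : 5 ≤ v) : Real.log (v / 4) + 1 / 1000 ≤ lg v := by
  induction v, hv using Nat.le_induction with
  | base =>
    have h1 : Real.log (5 / 4) ≤ 224 / 1000 := by
      rw [Real.log_le_iff_le_exp (by norm_num)]
      refine le_trans ?_ (Real.sum_le_exp_of_nonneg (by norm_num) 4)
      norm_num [sum_range_succ, Nat.factorial]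
    have h2 : lg 5 = 9 / 40 := by norm_num [lg]
    rw [h2]
    push_cast
    linarith
  | succ v hv ih =>
    have v5 : (5 : ℝ) ≤ v := by exact_mod_cast hv
    have h1 : Real.log ((v + 1) / v) ≤ (1 / v + 1 / (v + 1)) / 2 := by
      refine (Real.self_le_sinh_iff.2 (Real.log_nonneg ?_)).trans_eq ?_
      · rw [le_div_iff₀ (by linarith)]
        linarith
      · rw [Real.sinh_log (by positivity)]
        field_simp
        ring
    have h2 : ((v : ℝ) + 1) / 4 = v / 4 * ((v + 1) / v) := by field_simp
    rw [lg, sum_Ico_succ_top (by omega), ← lg]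
    push_cast
    rw [h2, Real.log_mul (by positivity) (by positivity)]
    linarith

theorem lg_nonneg (v : ℕ) : 0 ≤ lg v :=
  sum_nonneg fun i _ => by positivity

end Pool.Agent.Work.MP_82fd4a_nt
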