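import Pool.Agent.Work.MP_82fd4a_nt.LossM

/-! Types with at most ten parts. -/

set_option autoImplicit false
open Filter Topology Finset

namespace Pool.Agent.Work.MP_82fd4a_nt

open Classical in
lemma lossU_box : ∀ᶠ x : ℕ in atTop, ∀ (b : ℝ) (B y δ m k : ℕ) (c : List ℕ), 0 < b →
    1 ≤ B → Real.log x / 110 ≤ 256 * B * b → 1 ≤ m → δ ≤ B → 0 < y →
    y + 2 * δ ≤ 48 * (256 * B) → k ≤ 10 → c ∈ Boxes k →
    ∑ n ∈ Icc 1 (2 * x) with Squarefree n ∧
      (n.primeFactorsList.map fun p => fs b p / (256 * B)).Perm c,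
        (if BadT (256 * B) y δ (ty b n) then gk x (Real.log x ^ 2) (m * n) else 0)
      ≤ 1015 / 1000 * Gam x (Real.log x ^ 2) / (m * (256 * B * b)) * vol (100 - c.sum) c := by
  filter_upwards [box_sum, prime_var] with x h1 h2 b B y δ m k c hb hB hx hm hδ hy hyδ hk hc
  obtain ⟨hl, hs, h4, hr, hr', hA⟩ := mem_Boxes.1 hc
  obtain ⟨p, hp, hL, hV⟩ := Vm_spec (100 - c.sum) c
  have hpc := splits_perm hp
  have hδ' : δ < 256 * B := by omega
  set F := 256 * B with hF
  set pv : ℕ → Finset ℕ × ℕ × ℝ := fun u => (Prc x b F u, u, 1) with hpv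
  have hvar : ∀ u : List ℕ, (∀ w ∈ u, w ∈ c) → ∀ w ∈ u.map pv, Var b B w := fun u hu w hw => by
    obtain ⟨w', hw', rfl⟩ := List.mem_map.1 hw
    exact h2 b B w' hb hB hx (h4 w' (hu w' hw')).1 (h4 w' (hu w' hw')).2
  have m1 : ∀ u : List ℕ, (u.map pv).map (·.1) = u.map (Prc x b F) := fun u => by
    simp [hpv]
  have m2 : ∀ u : List ℕ, (u.map pv).map (·.2.1) = u := fun u => by
    simp [hpv, Function.comp_def]
  have m3 : ∀ u : List ℕ, ((u.map pv).map (·.2.2)).prod = 1 := fun u => by
    simp [hpv, Function.comp_def]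
  set H : ℕ → ℝ := fun n =>
    if BadT F y δ (ty b n) then gk x (Real.log x ^ 2) (m * n) else 0 with hH
  have hH0 : ∀ n, 0 ≤ H n := fun n => by
    simp only [hH]
    split_ifs
    exacts [gk_nonneg _ _ _, le_rfl]
  have hlen := splits_length hp
  obtain ⟨e, u₂, he⟩ : ∃ e u₂, p.2 = e :: u₂ :=
    List.exists_cons_of_ne_nil fun h => (hA p hp hL).2 (by simp [h, RB])
  have q2 : (p.1 ++ (u₂ ++ [e])).Perm c := by
    refine List.Perm.trans ?_ hpc
    rw [he]
    exact (List.perm_append_singleton e u₂).append_left _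
  have tup : (mf c : ℝ) * ∑ n ∈ Icc 1 (2 * x) with Squarefree n ∧
        (n.primeFactorsList.map fun p => fs b p / F).Perm c, H n ≤
      psum (p.1.map (Prc x b F)) fun a₁ => psum (u₂.map (Prc x b F))
        fun a₂ => ∑ q ∈ Prc x b F e, H (a₁ * (a₂ * q)) := by
    have := tuple_le (fun p => fs b p / F) (2 * x) (p.1 ++ (u₂ ++ [e])) H hH0
    rw [mf_perm q2, List.map_append, List.map_append, psum_append] at this
    simp only [psum_append, List.map_cons, List.map_nil, psum, mul_one] at this
    refine le_trans (le_of_eq ?_) this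
    congr 1
    exact sum_congr (filter_congr fun n _ => and_congr_right fun _ =>
      ⟨fun h => h.trans q2.symm, fun h => h.trans q2⟩) fun _ _ => rfl
  have key := h1 b B m e _ (p.1.map pv) (u₂.map pv) c hb hB hx hm (by
      rw [← List.map_append]
      exact hvar _ fun w hw => q2.subset (by
        rw [← List.append_assoc]
        exact List.mem_append_left _ hw))
    (h4 e (q2.subset (by simp))).1 hs (by simpa only [m2] using q2) hr hr' (hl ▸ hk)
  simp only [List.map_append, List.prod_append, m1, m2, m3, mul_one, one_mul,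
    List.length_map] at key
  rw [show u₂.length = c.length - 1 - p.1.length by rw [he, List.length_cons] at hlen; omega,
    ← hV] at key
  have p1 : (0 : ℝ) < mf c := by exact_mod_cast mf_pos _
  refine le_of_mul_le_mul_left (tup.trans (le_trans (psum_mono fun l₁ f₁ =>
    psum_mono fun l₂ f₂ => sum_le_sum fun q hq => ?_) (key.trans (le_of_eq ?_)))) p1
  · obtain ⟨r1, r2⟩ := lossM_prc f₁
    obtain ⟨r3, r4⟩ := lossM_prc f₂
    obtain ⟨-, r5, r6⟩ := mem_filter.1 hq
    refine lossM_term hδ (by ring) (by rw [mul_assoc]; rfl) fun hb' => ?_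
    have tyq : ty b (l₁.prod * (l₂.prod * q)) =
        (l₁.map (fs b) ++ (l₂.map (fs b) ++ [fs b q]) : List ℕ) := by
      simpa using (lossM_ty b (l := l₁ ++ (l₂ ++ [q])) (by
        simp only [List.mem_append, List.mem_singleton]
        rintro r (hr | hr | rfl)
        exacts [r1 r hr, r3 r hr, r5])).2
    rw [tyq] at hb'
    have := lossM_small hδ' hy hyδ hb' (c := c) (p := p.1) (by
      simpa only [List.map_append, List.map_cons, List.map_nil, r2, r4, r6] using q2)
      (by rw [r2]) hL
    rw [← Multiset.sum_coe, ← (lossM_ty b r1).2] at this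
    unfold fs
    omega
  · rw [vol]
    field_simp

theorem badSum_few : ∀ᶠ x : ℕ in atTop, ∀ (b : ℝ) (B y δ m k : ℕ) (φ : List ℕ → ℝ), 0 < b →
    1 ≤ B → Real.log x / 110 ≤ 256 * B * b → 1 ≤ m → δ ≤ B → 0 < y →
    y + 2 * δ ≤ 48 * (256 * B) → k ≤ 10 → (∀ c, 0 ≤ φ c) →
    badSum x b (256 * B) y δ m k φ ≤ 1015 / 1000 * Gam x (Real.log x ^ 2) / (m * (256 * B * b)) *
      ∑ c ∈ Boxes k, φ c * vol (100 - c.sum) c := by
  classical
  filter_upwards [lossU_box] with x h1 b B y δ m k φ hb hB hx hm hδ hy hyδ hk hφ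
  set F := 256 * B with hF
  set H : ℕ → ℝ := fun n =>
    if BadT F y δ (ty b n) then gk x (Real.log x ^ 2) (m * n) else 0 with hH
  have hH0 : ∀ n, 0 ≤ H n := fun n => by
    simp only [hH]
    split_ifs
    exacts [gk_nonneg _ _ _, le_rfl]
  calc _ ≤ ∑ n ∈ Icc 1 (2 * x), ∑ c ∈ Boxes k, if Squarefree n ∧
        (n.primeFactorsList.map fun p => fs b p / F).Perm c then φ c * H n else 0 := by
        refine sum_le_sum fun n hn => ?_
        have h0 : ∀ c ∈ Boxes k, 0 ≤ (if Squarefree n ∧
            (n.primeFactorsList.map fun p => fs b p / F).Perm c then φ c * H n else 0) :=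
          fun c _ => by
            split_ifs
            exacts [mul_nonneg (hφ c) (hH0 n), le_rfl]
        split_ifs with h
        · refine le_trans (le_of_eq ?_) (single_le_sum h0
            (a := ((ty b n).sort (· ≤ ·)).map (· / F)) (mem_Boxes.2 ⟨by simp [h.2.2],
              alive_of_hyp (lossM_hyp (by omega) hy hyδ h.2.1)
                fun u hu => (h.2.1.2.1 u ((Multiset.mem_sort _).1 hu)).2⟩))
          have h2 := (lossM_ty b (l := n.primeFactorsList)
            fun q => Nat.prime_of_mem_primeFactorsList).2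
          rw [Nat.prod_primeFactorsList (by have := (mem_Icc.1 hn).1; omega)] at h2
          have h3 : (n.primeFactorsList.map fun p => fs b p / F).Perm
              (((ty b n).sort (· ≤ ·)).map (· / F)) := by
            have : (n.primeFactorsList.map (fs b)).Perm ((ty b n).sort (· ≤ ·)) := by
              rw [← Multiset.coe_eq_coe, Multiset.sort_eq, h2]
            simpa only [List.map_map, Function.comp_def] using this.map (· / F)
          rw [if_pos ⟨h.1, h3⟩]
          simp only [hH, if_pos h.2.1]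
        · exact sum_nonneg h0
    _ ≤ _ := by
        rw [sum_comm, mul_sum]
        refine sum_le_sum fun c hc => ?_
        rw [← sum_filter, ← mul_sum, mul_left_comm]
        exact mul_le_mul_of_nonneg_left (h1 b B y δ m k c hb hB hx hm hδ hy hyδ hk hc) (hφ c)

end Pool.Agent.Work.MP_82fd4a_nt
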