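import Mathlib

/-! The combinatorial sieve: the rule that defines the weights. -/

set_option autoImplicit false

namespace Pool.Agent.Work.MP_82fd4a_nt

/-- all the ways of splitting a list into two complementary sublists -/
def splits : List ℕ → List (List ℕ × List ℕ)
  | [] => [([], [])]
  | a :: t => ((splits t).map fun p => (a :: p.1, p.2)) ++ (splits t).map fun p => (p.1, a :: p.2)

open Classical in
/-- indicator of a proposition -/
noncomputable def ind (P : Prop) : ℤ := if P then 1 else 0

/-- the three size conditions -/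
structure RD where
  L : List ℕ → Prop
  Q : List ℕ → Prop
  H : List ℕ → Prop

namespace RD

variable (R : RD)

/-- admissible for the type I estimate -/
def adm (D : List ℕ) : Prop := ∃ p ∈ splits D, R.Q p.1 ∧ R.L p.2

/-- admissible, and still admissible after one more element at most `e` is added -/
def safe (D : List ℕ) (e : ℕ) : Prop :=
  ∃ p ∈ splits D, R.Q p.1 ∧ R.L p.2 ∧ (R.H (e :: p.2) ∨ R.Q (e :: p.1))

/-- the roles can be reversed -/
def fix (t : List ℕ) (x : ℕ) : Prop := ∃ p ∈ splits t, R.Q p.1 ∧ ¬ R.L (x :: p.1)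

/-- the condition for one more step of the Buchstab iteration -/
def step (a : ℕ) : List ℕ → Prop
  | [] => R.L [a]
  | [_] => R.Q [a]
  | [b, c] => R.adm [a, b, c]
  | [b, c, d] => R.adm [a, b, c, d] ∧ (R.fix [a, b, c] d ∨ R.safe [a, b, c, d] a)
  | [b, c, d, e] => R.adm [a, b, c, d, e]
  | b :: c :: d :: e :: f :: t =>
    if Even t.length then R.L (a :: b :: c :: d :: e :: f :: t) else R.Q [a]

/-- support of the truncated Moebius function -/
def chi : List ℕ → Prop
  | [] => True
  | a :: t => chi t ∧ R.step a t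

/-- admissible with the missing element in the long part -/
def admL (s base : List ℕ) : Prop := ∃ p ∈ splits s, R.Q p.1 ∧ ¬ R.L (p.1 ++ base)

/-- the complement is admissible -/
def fixL (s base : List ℕ) : Prop := ∃ p ∈ splits s, R.Q p.1 ∧ R.L (p.2 ++ base)

/-- the terms that are treated by reversing the roles -/
def wt (e : ℕ) : List ℕ → List ℕ → Prop
  | [q], ρ => R.Q [q] ∧ ¬ R.Q [e, q] ∧ R.L (q :: ρ)
  | [c, b, a], ρ => R.Q [a] ∧ R.admL [b, a] (e :: c :: ρ) ∧ R.admL [c, b, a] (e :: ρ) ∧
      R.fixL [c, b, a] (e :: ρ) ∧ ¬ R.admL [e, c, b, a] ρ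
  | _, _ => False

open Classical in
/-- the number of such terms -/
noncomputable def w : List ℕ → ℤ
  | [] => 0
  | e :: E => if R.L (e :: E) then 0 else ((splits E).map fun p => ind (R.wt e p.1 p.2)).sum

/-- first step of the upper bound sieve -/
def cond (E : List ℕ) (q : ℕ) : Prop := E.length ≤ 4 ∧ R.safe (q :: E) q

/-- weights of the upper bound sieve -/
noncomputable def chiU (E : List ℕ) : List ℕ → ℤ
  | [] => 1
  | [q] => -ind (R.cond E q)
  | [q', q] => ind (R.cond E q ∧ R.adm (q' :: q :: E))
  | _ => 0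

/-- value of the upper bound sieve -/
noncomputable def UB (E F : List ℕ) : ℤ := ((splits F).map fun p => R.chiU E p.1).sum

/-- the weights -/
noncomputable def cL (D : List ℕ) : ℤ :=
  (-1) ^ D.length * ind (R.chi D) - ((splits D).map fun p => R.w p.1 * R.chiU p.1 p.2).sum

/-- the value of the sieve -/
noncomputable def PhiL (l : List ℕ) : ℤ := ((splits l).map fun p => R.cL p.1).sum

end RD

/-- the conditions on the fine scale -/
def RF (F y : ℕ) : RD where
  L s := s.sum < y
  Q s := (s.map (· / F)).sum + s.length ≤ 26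
  H s := (s.map (· / F)).sum + s.length ≤ 52

/-- the conditions on the boxes -/
def RB (r : ℕ) : RD where
  L s := s.sum + min s.length r ≤ 52
  Q s := s.sum + s.length ≤ 26
  H s := s.sum + s.length ≤ 52

/-- crude bound for the loss -/
def Wk (k : ℕ) : ℕ := 2 ^ (k - 1) + ∑ n ∈ Finset.range k,
  k.choose (n + 1) * (n + n.choose 3) * (1 + if n ≤ 3 then (k - n - 1).choose 2 else 0)

/-- the boxes that can contain a type without a subsum in the bilinear range -/
def Alive (r : ℕ) (c : List ℕ) : Prop :=
  c.Pairwise (· ≤ ·) ∧ (∀ a ∈ c, 4 ≤ a ∧ a ≤ 47) ∧ c.sum + r = 100 ∧ r ≤ c.length ∧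
    ∀ p ∈ splits c, (RB r).L p.1 → p.1.sum ≤ 47 ∧ ¬ (RB r).L p.2

/-- number of lists of length `n` with entries below `256` and sum `u` -/
def cN : ℕ → ℕ → ℕ
  | 0, u => if u = 0 then 1 else 0
  | n + 1, u => ∑ x ∈ Finset.range 256, if x ≤ u then cN n (u - x) else 0

/-- number of pairs of such lists with small first sum and total in the window -/
def cT (n n' r s : ℕ) : ℕ := ∑ u ∈ Finset.range (256 * s), ∑ v ∈ Finset.range (256 * r + 2),
  if 256 * r ≤ u + v + 256 + n + n' ∧ u + v ≤ 256 * r + 1 then cN n u * cN n' v else 0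

/-- the best of the bounds for the volume -/
noncomputable def Vm (r : ℕ) (c : List ℕ) : ℕ := sInf {v | ∃ p ∈ splits c, (RB r).L p.1 ∧
  v = cT p.1.length (c.length - 1 - p.1.length) r (48 - p.1.sum)}

/-- the smallest product of the coordinates in a box -/
def pend (r : ℕ) (c : List ℕ) : ℕ :=
  (c.take (c.length - r)).prod * ((c.drop (c.length - r)).map (· + 1)).prod

/-- product of the factorials of the multiplicities -/
def mf : List ℕ → ℕ
  | [] => 1
  | a :: c => (c.count a + 1) * mf c

/-- rational upper bound for `log (v / 4)` -/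
def lg (v : ℕ) : ℚ := ∑ i ∈ Finset.Ico 4 v, (1 / (i : ℚ) + 1 / (i + 1)) / 2

/-- mass of a block of `j` primes below the cell `a` in the cell `b` -/
def kap (j a b : ℕ) : ℚ := lg (min a (b + 1 - 4 * (j - 1))) ^ (j - 1) * (b + 1) / (4 * j.factorial)

/-- loss of the types with `11` to `18` parts -/
def Tm (b a : ℕ) : ℚ := ∑ j ∈ Finset.Icc 2 9,
  if 4 * j ≤ b ∧ b < j * a then Wk (9 + j) * kap j a b else 0

/-- bound for the loss on a box -/
noncomputable def LB (r : ℕ) (c : List ℕ) : ℝ :=
  if c.length ≤ 9 then max 0 (-((RB r).PhiL c : ℝ))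
  else Wk 10 + (c.map fun b => (Tm b (c.headI + 1) : ℝ)).sum

/-- normalised volume of a box -/
noncomputable def vol (r : ℕ) (c : List ℕ) : ℝ :=
  Vm r c / (256 ^ (c.length - 1) * pend r c * mf c)

/-- loss of the types with `19` to `25` parts -/
def triv : ℚ := ∑ k ∈ Finset.Icc 19 25, Wk k * lg (105 - 4 * k) ^ (k - 1) / (4 * k.factorial)

lemma ind_pos {P : Prop} (h : P) : ind P = 1 := by unfold ind; exact if_pos h

lemma ind_neg {P : Prop} (h : ¬ P) : ind P = 0 := by unfold ind; exact if_neg h

lemma ind_nonneg (P : Prop) : 0 ≤ ind P := by unfold ind; split_ifs <;> norm_num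

lemma ind_le_one (P : Prop) : ind P ≤ 1 := by unfold ind; split_ifs <;> norm_num

lemma ind_congr {P P' : Prop} (h : P ↔ P') : ind P = ind P' := by rw [propext h]

lemma splits_perm {l : List ℕ} {p : List ℕ × List ℕ} (h : p ∈ splits l) : (p.1 ++ p.2).Perm l := by
  induction l generalizing p with
  | nil => simp [splits] at h; simp [h]
  | cons a t ih =>
    simp only [splits, List.mem_append, List.mem_map] at h
    rcases h with ⟨q, hq, rfl⟩ | ⟨q, hq, rfl⟩
    · exact (ih hq).cons a
    · exact List.perm_middle.trans ((ih hq).cons a)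

lemma splits_sublist {l : List ℕ} {p : List ℕ × List ℕ} (h : p ∈ splits l) :
    p.1.Sublist l ∧ p.2.Sublist l := by
  induction l generalizing p with
  | nil => simp [splits] at h; simp [h]
  | cons a t ih =>
    simp only [splits, List.mem_append, List.mem_map] at h
    rcases h with ⟨q, hq, rfl⟩ | ⟨q, hq, rfl⟩
    · exact ⟨(ih hq).1.cons_cons a, (ih hq).2.cons a⟩
    · exact ⟨(ih hq).1.cons a, (ih hq).2.cons_cons a⟩

lemma splits_map (f : ℕ → ℕ) (l : List ℕ) :
    splits (l.map f) = (splits l).map fun p => (p.1.map f, p.2.map f) := by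
  induction l with
  | nil => simp [splits]
  | cons a t ih => simp [splits, ih, List.map_map, Function.comp_def]

lemma nil_mem_splits (l : List ℕ) : ([], l) ∈ splits l := by
  induction l with
  | nil => simp [splits]
  | cons a t ih =>
    simp only [splits, List.mem_append, List.mem_map]
    exact Or.inr ⟨_, ih, rfl⟩

lemma Vm_spec (r : ℕ) (c : List ℕ) : ∃ p ∈ splits c, (RB r).L p.1 ∧
    Vm r c = cT p.1.length (c.length - 1 - p.1.length) r (48 - p.1.sum) :=
  Nat.sInf_mem (s := {v | ∃ p ∈ splits c, (RB r).L p.1 ∧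
    v = cT p.1.length (c.length - 1 - p.1.length) r (48 - p.1.sum)})
    ⟨_, ([], c), nil_mem_splits c, by simp [RB], rfl⟩

lemma Vm_le {r : ℕ} {c : List ℕ} {p : List ℕ × List ℕ} (hp : p ∈ splits c) (h : (RB r).L p.1) :
    Vm r c ≤ cT p.1.length (c.length - 1 - p.1.length) r (48 - p.1.sum) :=
  Nat.sInf_le ⟨p, hp, h, rfl⟩

end Pool.Agent.Work.MP_82fd4a_nt
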