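import Pool.Agent.Work.MP_82fd4a_nt.Setup
import Pool.Agent.Work.MP_82fd4a_nt.Rule

/-! Definitions for the second version of the decomposition. -/

set_option autoImplicit false
open Finset

namespace Pool.Agent.Work.MP_82fd4a_nt

/-- all the products lie between `x ^ (1 / 30)` and `x ^ (1 / 20)` -/
def Sized2 (x K J : ℕ) (Λ : ℝ) (S : Finset ℕ) : Prop := ∀ s ∈ S, ∀ π ∈ tup K J Λ,
  (x : ℝ) ^ (1 / 30 : ℝ) ≤ ((s * ∏ i, π i : ℕ) : ℝ) ∧ ((s * ∏ i, π i : ℕ) : ℝ) ≤ (x : ℝ) ^ (1 / 20 : ℝ)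

/-- the weight summed over the multiples of `q` -/
noncomputable def sG (x : ℕ) (T : ℝ) (q : ℕ) : ℝ := ∑ n ∈ Icc 1 (2 * x), gk x T (q * n)

/-- centred indicator of the multiples of `a` -/
noncomputable def fa (a k : ℕ) : ℝ := (if a ∣ k then 1 else 0) - 1 / (a : ℝ)

open Classical in
/-- indicator of the numbers without prime factor between `z` and `w` -/
noncomputable def fr (z w : ℝ) (n : ℕ) : ℝ :=
  if ∀ p : ℕ, p.Prime → p ∣ n → (p : ℝ) ≤ z ∨ w < p then 1 else 0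

/-- sum over the divisors split into two parts -/
noncomputable def Phi2 (b : ℝ) (lam : Multiset ℕ → Multiset ℕ → ℝ) (n : ℕ) : ℝ :=
  ∑ d ∈ n.divisors, ∑ d₁ ∈ d.divisors, lam (ty b d₁) (ty b (d / d₁))

/-- the coefficient of the bilinear form of a type -/
noncomputable def aco2 (y y' : ℕ) (Fn : Multiset ℕ → ℝ) (τ : Multiset ℕ) : ℝ :=
  Fn τ / (τ.powerset.count (sel y y' τ) : ℝ)

/-- the bilinear part -/
noncomputable def Gd2 (b : ℝ) (y y' : ℕ) (Fn : Multiset ℕ → ℝ) (n : ℕ) : ℝ :=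
  if Good y y' (ty b n) then
    aco2 y y' Fn (ty b n) * (#{d ∈ n.divisors | ty b d = sel y y' (ty b n)} : ℝ)
  else 0

/-- the large parts, sorted -/
noncomputable def bigL (F : ℕ) (t : Multiset ℕ) : List ℕ := (t.filter (4 * F ≤ ·)).sort (· ≤ ·)

open Classical in
/-- the short part of an admissible set -/
noncomputable def sel1 (F y : ℕ) (t : Multiset ℕ) : Multiset ℕ :=
  if h : (RF F y).adm (bigL F t) then (h.choose.1 : List ℕ) else 0

/-- the weights on the types -/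
noncomputable def lam1 (F y : ℕ) (t : Multiset ℕ) : ℝ :=
  if (t - sel1 F y t).sum < y then
    ((RF F y).cL (bigL F t) : ℝ) * (-1) ^ (t.filter (· < 4 * F)).card else 0

/-- the weights on the pairs of types -/
noncomputable def lam2 (F y : ℕ) (t t' : Multiset ℕ) : ℝ :=
  if t = sel1 F y (t + t') then lam1 F y (t + t') / ((t + t').powerset.count t : ℝ) else 0

/-- the value of the sieve on squarefree numbers of a given type -/
noncomputable def PhiN (F y : ℕ) (τ : Multiset ℕ) : ℝ := (τ.powerset.map (lam1 F y)).sum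

/-- the types on which there is a loss -/
def BadT (F y δ : ℕ) (τ : Multiset ℕ) : Prop := ¬ Good y (52 * F) τ ∧
  (∀ a ∈ τ, 4 * F ≤ a ∧ a < y) ∧ 100 * F ≤ τ.sum + δ ∧ τ.sum ≤ 100 * F + δ

open Classical in
/-- the loss -/
noncomputable def LossF (b : ℝ) (F y δ : ℕ) (n : ℕ) : ℝ :=
  if Squarefree n ∧ BadT F y δ (ty b n) then
    max 0 (-((RF F y).PhiL ((ty b n).sort (· ≤ ·)) : ℝ)) else 0

/-- sum of the rounded logarithms -/
noncomputable def fs (b : ℝ) (n : ℕ) : ℕ := (ty b n).sum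

/-- sum of a function of the product over all the tuples -/
noncomputable def psum : List (Finset ℕ) → (ℕ → ℝ) → ℝ
  | [], F => F 1
  | A :: V, F => ∑ a ∈ A, psum V fun n => F (a * n)

/-- a variable that lies in the cell `v.2.1` and has density at most `v.2.2` -/
structure Var (b : ℝ) (B : ℕ) (v : Finset ℕ × ℕ × ℝ) : Prop where
  pos : ∀ a ∈ v.1, 0 < a
  cell : ∀ a ∈ v.1, fs b a / (256 * B) = v.2.1
  four : 4 ≤ v.2.1
  nonneg : 0 ≤ v.2.2
  mass : ∀ t : ℕ, ∑ a ∈ v.1 with fs b a / B = t, (a : ℝ)⁻¹ ≤ v.2.2 / t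

/-- the primes of a cell -/
noncomputable def Prc (x : ℕ) (b : ℝ) (F c : ℕ) : Finset ℕ :=
  (Icc 1 (2 * x)).filter fun p => p.Prime ∧ fs b p / F = c

/-- products of `j` primes of the cells from `4` to `a - 1` that lie in the cell `c` -/
noncomputable def Blk (x : ℕ) (b : ℝ) (F j a c : ℕ) : Finset ℕ :=
  (Icc 1 (2 * x)).filter fun n => Squarefree n ∧ (ty b n).card = j ∧
    (∀ v ∈ ty b n, 4 * F ≤ v ∧ v < a * F) ∧ fs b n / F = c

open Classical in
/-- the weight restricted to the bad types with `k` parts -/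
noncomputable def badSum (x : ℕ) (b : ℝ) (F y δ m k : ℕ) (φ : List ℕ → ℝ) : ℝ :=
  ∑ n ∈ Icc 1 (2 * x), if Squarefree n ∧ BadT F y δ (ty b n) ∧ (ty b n).card = k then
    φ (((ty b n).sort (· ≤ ·)).map (· / F)) * gk x (Real.log x ^ 2) (m * n) else 0

open Classical in
/-- the boxes with `k` coordinates -/
noncomputable def Boxes (k : ℕ) : Finset (List ℕ) :=
  ((Fintype.piFinset fun _ : Fin k => Icc 4 47).image List.ofFn).filter
    fun c => Alive (100 - c.sum) c

lemma mem_Boxes {k : ℕ} {c : List ℕ} : c ∈ Boxes k ↔ c.length = k ∧ Alive (100 - c.sum) c := by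
  classical
  unfold Boxes
  rw [mem_filter, mem_image]
  constructor
  · rintro ⟨⟨f, -, rfl⟩, h⟩
    exact ⟨List.length_ofFn, h⟩
  · rintro ⟨rfl, h⟩
    refine ⟨⟨c.get, Fintype.mem_piFinset.2 fun i => mem_Icc.2 (h.2.1 _ (List.get_mem c i)),
      List.ofFn_get c⟩, h⟩

lemma fs_mul (b : ℝ) {m n : ℕ} (hm : m ≠ 0) (hn : n ≠ 0) : fs b (m * n) = fs b m + fs b n := by
  unfold fs; rw [ty_mul b hm hn, Multiset.sum_add]

lemma fs_prime (b : ℝ) {p : ℕ} (hp : p.Prime) : fs b p = ⌊Real.log p / b⌋₊ := by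
  unfold fs; rw [typ_prime b hp, Multiset.sum_singleton]

lemma psum_append (V W : List (Finset ℕ)) (F : ℕ → ℝ) :
    psum (V ++ W) F = psum V fun a => psum W fun c => F (a * c) := by
  induction V generalizing F with
  | nil => simp [psum]
  | cons A V ih => simp [psum, ih, mul_assoc]

lemma psum_mono {V : List (Finset ℕ)} {F G : ℕ → ℝ}
    (h : ∀ l : List ℕ, List.Forall₂ (· ∈ ·) l V → F l.prod ≤ G l.prod) : psum V F ≤ psum V G := by
  induction V generalizing F G with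
  | nil => simpa [psum] using h [] List.Forall₂.nil
  | cons A V ih =>
    refine sum_le_sum fun a ha => ih fun l hl => ?_
    simpa using h (a :: l) (List.Forall₂.cons ha hl)

theorem abs_aco2_le (y y' : ℕ) {Fn : Multiset ℕ → ℝ} (hF : ∀ τ, |Fn τ| ≤ 2 ^ τ.card)
    (τ : Multiset ℕ) : |aco2 y y' Fn τ| ≤ 2 ^ τ.card := by
  unfold aco2
  rw [abs_div, Nat.abs_cast]
  rcases Nat.eq_zero_or_pos (τ.powerset.count (sel y y' τ)) with h | h
  · rw [h]; simp
  · exact (div_le_self (abs_nonneg _) (by exact_mod_cast h)).trans (hF τ)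

theorem abs_Gd2_le (b : ℝ) (y y' : ℕ) {Fn : Multiset ℕ → ℝ} (hF : ∀ τ, |Fn τ| ≤ 2 ^ τ.card)
    (n : ℕ) : |Gd2 b y y' Fn n| ≤ 4 ^ (ty b n).card := by
  unfold Gd2
  split_ifs
  · rw [abs_mul, Nat.abs_cast, show (4 : ℝ) = 2 * 2 by norm_num, mul_pow]
    refine mul_le_mul (abs_aco2_le _ _ hF _) (le_trans ?_ (tau_le_card b n)) (Nat.cast_nonneg _)
      (by positivity)
    unfold tau
    exact_mod_cast card_filter_le _ _
  · simp

theorem abs_Phi2_le {b C : ℝ} {lam : Multiset ℕ → Multiset ℕ → ℝ}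
    (h : ∀ d : ℕ, ∑ d₁ ∈ d.divisors, |lam (ty b d₁) (ty b (d / d₁))| ≤ C) (n : ℕ) :
    |Phi2 b lam n| ≤ C * 2 ^ (ty b n).card := by
  have hC : 0 ≤ C := by simpa using h 0
  unfold Phi2
  refine (abs_sum_le_sum_abs _ _).trans
    (le_trans ?_ (mul_le_mul_of_nonneg_left (tau_le_card b n) hC))
  unfold tau
  rw [mul_comm, ← nsmul_eq_mul]
  exact sum_le_card_nsmul _ _ _ fun d _ => (abs_sum_le_sum_abs _ _).trans (h d)

end Pool.Agent.Work.MP_82fd4a_nt
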