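import Pool.Agent.Work.MP_82fd4a_nt.SumU
import Pool.Agent.Work.MP_82fd4a_nt.NDefs

/-! Upper bounds for the basic sums when the steering part is short. -/

set_option autoImplicit false
open Filter Topology Finset

namespace Pool.Agent.Work.MP_82fd4a_nt

/-- integers with a large square factor are rare -/
theorem sum_sqful2 {η : ℝ} (hη : 0 < η) (hη1 : η ≤ 1 / 100) (k : ℕ) (C : ℝ) :
    ∀ᶠ x : ℕ in atTop, ∀ T : ℝ, 1 ≤ T → T ≤ √(x : ℝ) → ∀ c : ℕ → ℝ, (∀ n, c n ≤ C * tau n ^ k) →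
      (∀ n, 0 < c n → ∃ p : ℕ, p.Prime ∧ (x : ℝ) ^ η < p ∧ (p : ℝ) ≤ (x : ℝ) ^ (49 / 100 : ℝ) ∧
        p ^ 2 ∣ n) →
      ∑ n ∈ Icc 1 (2 * x), c n * gk x T n ≤ Gam x T * (x : ℝ) ^ (-(η / 2)) := by
  obtain ⟨C0, hC0, hτ⟩ := Lib.ANT.exists_card_divisors_le (η / 8 / (k + 1)) (by positivity)
  have hB : 0 ≤ |C| * C0 ^ k * 2 := by positivity
  filter_upwards [((tendsto_rpow_atTop (show 0 < η / 8 by positivity)).comp
    tendsto_natCast_atTop_atTop).eventually_ge_atTop (18 * (|C| * C0 ^ k * 2)),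
    eventually_ge_atTop 1] with x hu hx T hT hTx c hc hp
  simp only [Function.comp] at hu
  have hx1 : (1 : ℝ) ≤ x := by exact_mod_cast hx
  have hx0 : (0 : ℝ) < x := by linarith
  have hs : 0 < √(x : ℝ) := Real.sqrt_pos.2 hx0
  have hss : √(x : ℝ) * √(x : ℝ) = x := Real.mul_self_sqrt hx0.le
  have hG : √(x : ℝ) / 8 ≤ Gam x T := by
    refine le_trans ?_ (Gam_ge hT (hTx.trans (Real.sqrt_le_self_iff.2 (Or.inr hx1))))
    rw [div_le_div_iff₀ (by norm_num) (by positivity)]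
    nlinarith
  have hu1 : 1 ≤ (x : ℝ) ^ (η / 8) := Real.one_le_rpow hx1 (by positivity)
  have hy1 : 1 ≤ (x : ℝ) ^ η := Real.one_le_rpow hx1 hη.le
  have hcB : ∀ n ∈ Icc 1 (2 * x), c n ≤ |C| * C0 ^ k * 2 * (x : ℝ) ^ (η / 8) := fun n hn => by
    rw [mem_Icc] at hn
    have n1 : (1 : ℝ) ≤ n := by exact_mod_cast hn.1
    have n2 : (n : ℝ) ≤ 2 * x := by exact_mod_cast hn.2
    have b1 : tau n ^ k ≤ (C0 * (n : ℝ) ^ (η / 8 / (k + 1))) ^ k :=
      pow_le_pow_left₀ (tau_nonneg n) (hτ n) k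
    have b2 : ((n : ℝ) ^ (η / 8 / (k + 1))) ^ k ≤ 2 * (x : ℝ) ^ (η / 8) := by
      rw [← Real.rpow_mul_natCast (by linarith)]
      have e1 : η / 8 / (k + 1) * k ≤ η / 8 := by
        rw [div_mul_eq_mul_div, div_le_iff₀ (by positivity)]
        nlinarith
      refine (Real.rpow_le_rpow_of_exponent_le n1 e1).trans
        ((Real.rpow_le_rpow (by linarith) n2 (by positivity)).trans ?_)
      rw [Real.mul_rpow zero_le_two hx0.le]
      refine mul_le_mul_of_nonneg_right ?_ (by positivity)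
      simpa using Real.rpow_le_rpow_of_exponent_le one_le_two (show η / 8 ≤ 1 by linarith)
    rw [mul_pow] at b1
    calc c n ≤ |C| * tau n ^ k :=
          (hc n).trans (mul_le_mul_of_nonneg_right (le_abs_self C) (pow_nonneg (tau_nonneg n) k))
      _ ≤ |C| * (C0 ^ k * (2 * (x : ℝ) ^ (η / 8))) :=
          mul_le_mul_of_nonneg_left (b1.trans (mul_le_mul_of_nonneg_left b2 (by positivity)))
            (abs_nonneg C)
      _ = _ := by ring
  generalize |C| * C0 ^ k * 2 = B at *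
  set P := Ioc ⌊(x : ℝ) ^ η⌋₊ ⌊(x : ℝ) ^ (49 / 100 : ℝ)⌋₊ with hP
  have s1 : ∑ n ∈ Icc 1 (2 * x), c n * gk x T n ≤ B * (x : ℝ) ^ (η / 8) *
      ∑ p ∈ P, ∑ n ∈ Icc 1 (2 * x), (if p ^ 2 ∣ n then 1 else 0) * gk x T n := by
    rw [sum_comm, mul_sum]
    refine sum_le_sum fun n hn => ?_
    rw [← sum_mul, ← mul_assoc]
    refine mul_le_mul_of_nonneg_right ?_ (gk_nonneg _ _ _)
    have h0 : ∀ p ∈ P, (0 : ℝ) ≤ if p ^ 2 ∣ n then 1 else 0 := fun p _ => by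
      split_ifs <;> norm_num
    rcases le_or_gt (c n) 0 with h | h
    · exact h.trans (mul_nonneg (by positivity) (sum_nonneg h0))
    · obtain ⟨p, -, p1, p2, p3⟩ := hp n h
      have := single_le_sum h0 (a := p)
        (mem_Ioc.2 ⟨(Nat.floor_lt (by positivity)).2 p1, Nat.le_floor p2⟩)
      simp only [if_pos p3] at this
      exact (hcB n hn).trans (le_mul_of_one_le_right (by positivity) this)
  have f1 : (1 : ℝ) ≤ ⌊(x : ℝ) ^ η⌋₊ := by exact_mod_cast Nat.le_floor (by simpa using hy1)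
  have f2 : (x : ℝ) ^ η < ⌊(x : ℝ) ^ η⌋₊ + 1 := Nat.lt_floor_add_one _
  have f0 : ⌊(x : ℝ) ^ η⌋₊ ≠ 0 := by
    intro h
    rw [h] at f1
    norm_num at f1
  have s2 : ∑ p ∈ P, ∑ n ∈ Icc 1 (2 * x), (if p ^ 2 ∣ n then 1 else 0) * gk x T n ≤
      ∑ p ∈ P, (Gam x T * ((p : ℝ) ^ 2)⁻¹ + 2) := by
    refine sum_le_sum fun p hp => ?_
    have hp0 : 0 < p ^ 2 := pow_pos (by rw [mem_Ioc] at hp; omega) 2
    have := (abs_le.1 (sum_gk_mul x (by linarith : 0 ≤ T) hp0)).2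
    rw [ker_dvd x T hp0, div_eq_mul_inv] at this
    push_cast at this
    linarith
  have s3 : ∑ p ∈ P, ((p : ℝ) ^ 2)⁻¹ ≤ 2 / (x : ℝ) ^ η := by
    have t1 : ((⌊(x : ℝ) ^ η⌋₊ : ℕ) : ℝ)⁻¹ ≤ 2 / (x : ℝ) ^ η := by
      rw [inv_eq_one_div, div_le_div_iff₀ (by linarith) (by linarith)]
      linarith
    rcases le_total ⌊(x : ℝ) ^ η⌋₊ ⌊(x : ℝ) ^ (49 / 100 : ℝ)⌋₊ with h | h
    · refine (sum_Ioc_inv_sq_le_sub f0 h).trans (le_trans ?_ t1)
      exact sub_le_self _ (by positivity)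
    · rw [hP, Ioc_eq_empty (not_lt.2 h), sum_empty]
      positivity
  have s4 : (#P : ℝ) ≤ 8 * Gam x T / (x : ℝ) ^ η := by
    have t1 : (#P : ℝ) ≤ (x : ℝ) ^ (49 / 100 : ℝ) := by
      refine le_trans ?_ (Nat.floor_le (by positivity))
      rw [hP, Nat.card_Ioc]
      exact_mod_cast Nat.sub_le _ _
    have t2 : (x : ℝ) ^ (49 / 100 : ℝ) * (x : ℝ) ^ η ≤ √(x : ℝ) := by
      rw [← Real.rpow_add hx0, Real.sqrt_eq_rpow]
      exact Real.rpow_le_rpow_of_exponent_le hx1 (by linarith)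
    rw [le_div_iff₀ (by linarith)]
    nlinarith
  rw [sum_add_distrib, ← mul_sum, sum_const, nsmul_eq_mul] at s2
  have hG0 : 0 ≤ Gam x T := le_trans (by positivity) hG
  have s5 : Gam x T * ∑ p ∈ P, ((p : ℝ) ^ 2)⁻¹ + #P * 2 ≤ 18 * Gam x T / (x : ℝ) ^ η := by
    have := mul_le_mul_of_nonneg_left s3 hG0
    simp only [div_eq_mul_inv] at this s4 ⊢
    linarith
  have e1 : (x : ℝ) ^ η = ((x : ℝ) ^ (η / 8)) ^ 8 := by
    rw [← Real.rpow_mul_natCast hx0.le]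
    congr 1
    push_cast
    ring
  have e2 : (x : ℝ) ^ (-(η / 2)) = (((x : ℝ) ^ (η / 8)) ^ 4)⁻¹ := by
    rw [Real.rpow_neg hx0.le, ← Real.rpow_mul_natCast hx0.le]
    congr 2
    push_cast
    ring
  refine s1.trans ((mul_le_mul_of_nonneg_left (s2.trans s5) (by positivity)).trans ?_)
  rw [e1, e2]
  generalize (x : ℝ) ^ (η / 8) = u at *
  have hu3 : 18 * B ≤ u ^ 3 := hu.trans (le_self_pow₀ hu1 (by norm_num))
  have e3 : B * u * (18 * Gam x T / u ^ 8) = Gam x T * (u ^ 4)⁻¹ * (18 * B / u ^ 3) := by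
    field_simp
  rw [e3]
  exact mul_le_of_le_one_right (by positivity) ((div_le_one (by positivity)).2 hu3)

theorem prime_gk2 {ε : ℝ} (hε : 0 < ε) : ∀ᶠ x : ℕ in atTop, ∀ q : ℕ, 1 ≤ q →
    (q : ℝ) ≤ (x : ℝ) ^ (99 / 100 : ℝ) →
    |∑ n ∈ Icc 1 (2 * x), (if n.Prime then Real.log n else 0) * gk x (Real.log x ^ 2) (q * n)
      - Gam x (Real.log x ^ 2) / q| ≤ ε * (Gam x (Real.log x ^ 2) / q) := by
  obtain ⟨Y₀, hY₀⟩ := eventually_atTop.1 ((mert_theta 3).and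
    (Lib.ANT.PNTError.eventually_pow_log_le 1 one_pos 3))
  have ht : Tendsto (fun x : ℕ => (x : ℝ) ^ (1 / 100 : ℝ)) atTop atTop :=
    (tendsto_rpow_atTop (by norm_num)).comp tendsto_natCast_atTop_atTop
  filter_upwards [ht.eventually_ge_atTop (Y₀ : ℝ), ht.eventually_ge_atTop 1,
    Lib.ANT.PNTError.tendsto_log.eventually_ge_atTop 1,
    Lib.ANT.PNTError.tendsto_log.eventually_ge_atTop (96000000 / ε),
    Lib.ANT.PNTError.eventually_pow_log_le 1 one_pos 2, eventually_ge_atTop 1]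
    with x h1 h2 hL hLε hT hx1 q hq hqx
  set L := Real.log x with hLdef
  set Y := 2 * x / q with hY
  have hx0 : (0 : ℝ) < x := by exact_mod_cast hx1
  have hq0 : (0 : ℝ) < q := by exact_mod_cast hq
  have hYle : (Y : ℝ) ≤ 2 * x / q := by
    have := Nat.cast_div_le (α := ℝ) (m := 2 * x) (n := q)
    push_cast at this; exact this
  have hxq : (x : ℝ) ^ (1 / 100 : ℝ) ≤ x / q := by
    rw [le_div_iff₀ hq0]
    calc _ ≤ (x : ℝ) ^ (1 / 100 : ℝ) * (x : ℝ) ^ (99 / 100 : ℝ) := by gcongr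
      _ = x := by rw [← Real.rpow_add hx0]; norm_num
  have hYge : (x : ℝ) ^ (1 / 100 : ℝ) ≤ Y := by
    have h := Nat.lt_floor_add_one (((2 * x : ℕ) : ℝ) / (q : ℕ))
    rw [Nat.floor_div_eq_div] at h
    push_cast at h
    have e : 2 * (x : ℝ) / q = 2 * (x / q) := by ring
    rw [← hY] at h
    linarith
  have hY0 : Y₀ ≤ Y := by exact_mod_cast h1.trans hYge
  obtain ⟨hD, hP⟩ := hY₀ Y hY0
  have hlogY : L / 100 ≤ Real.log Y := by
    have := Real.log_le_log (by positivity) hYge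
    rw [Real.log_rpow hx0] at this
    linarith
  have hL0 : 0 < L := by linarith
  have hlY : 0 < Real.log Y := by linarith
  have hT0 : 0 ≤ L ^ 2 := by positivity
  have hYn : (0 : ℝ) ≤ Y := Nat.cast_nonneg _
  have hE : 0 ≤ 2 * (Y / Real.log Y ^ 3) := by positivity
  have key : ∀ a b : ℕ, a ≤ b → q * b ≤ 2 * x →
      |∑ n ∈ Ioc a b, (mertL n - 1)| ≤ 2 * (Y / Real.log Y ^ 3) := by
    intro a b hab hb
    have hbY : b ≤ Y := by
      rw [hY, Nat.le_div_iff_mul_le hq, mul_comm]; exact hb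
    have d1 := hD b hbY
    have d2 := hD a (hab.trans hbY)
    rw [mertD_sub hab]
    rw [abs_le] at d1 d2 ⊢
    constructor <;> linarith [d1.1, d1.2, d2.1, d2.2]
  have up := abel_gk x hT0 hq (fun n => mertL n - 1) hE
    (fun a b hab hb => (le_abs_self _).trans (key a b hab hb))
  have dn := abel_gk x hT0 hq (fun n => -(mertL n - 1)) hE
    (fun a b hab hb => by rw [sum_neg_distrib]; exact (neg_le_abs _).trans (key a b hab hb))
  have hm := sum_gk_mul x hT0 hq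
  have e1 : ∑ n ∈ Icc 1 (2 * x), (if n.Prime then Real.log n else 0) * gk x (L ^ 2) (q * n) =
      ∑ n ∈ Icc 1 (2 * x), (mertL n - 1) * gk x (L ^ 2) (q * n) +
        ∑ n ∈ Icc 1 (2 * x), gk x (L ^ 2) (q * n) := by
    rw [← sum_add_distrib]
    refine sum_congr rfl fun n _ => ?_
    unfold mertL; ring
  have e2 : ∑ n ∈ Icc 1 (2 * x), -(mertL n - 1) * gk x (L ^ 2) (q * n) =
      -∑ n ∈ Icc 1 (2 * x), (mertL n - 1) * gk x (L ^ 2) (q * n) := by
    rw [← sum_neg_distrib]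
    refine sum_congr rfl fun n _ => ?_
    ring
  rw [e2] at dn
  have hG := Gam_ge (x := x) (T := L ^ 2) (by nlinarith) (by linarith)
  have f1 : 1 ≤ Y / Real.log Y ^ 3 := by rw [le_div_iff₀ (by positivity)]; exact hP
  have f2 : 6 * (Y / Real.log Y ^ 3) ≤ ε * (Gam x (L ^ 2) / q) := by
    have g1 : (L / 100) ^ 3 ≤ Real.log Y ^ 3 := by gcongr
    have g2 : 96000000 ≤ ε * L := by rw [div_le_iff₀ hε] at hLε; linarith
    calc _ ≤ 6 * ((2 * x / q) / (L / 100) ^ 3) := by gcongr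
      _ = 96000000 / L * ((x / (8 * L ^ 2)) / q) := by field_simp; ring
      _ ≤ ε * (Gam x (L ^ 2) / q) := by
        gcongr
        rw [div_le_iff₀ hL0]; exact g2
  rw [e1]
  rw [abs_le] at hm ⊢
  constructor <;> linarith [hm.1, hm.2]

lemma su2_size {x K J : ℕ} {Λ : ℝ} {S : Finset ℕ} (hx : 1 ≤ x) (h : Sized2 x K J Λ S)
    {s : ℕ} (hs : s ∈ S) {π : Ix K J → ℕ} (hπ : π ∈ tup K J Λ) :
    (x : ℝ) ^ (1 / 30 : ℝ) ≤ ((s * ∏ i, π i : ℕ) : ℝ) ∧
      ((s * ∏ i, π i : ℕ) : ℝ) ≤ (x : ℝ) ^ (9 / 40 : ℝ) :=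
  ⟨(h s hs π hπ).1, (h s hs π hπ).2.trans
    (Real.rpow_le_rpow_of_exponent_le (by exact_mod_cast hx) (by norm_num))⟩

lemma su2_pos {x m : ℕ} (hx : 1 ≤ x) (h : (x : ℝ) ^ (1 / 30 : ℝ) ≤ m) : 0 < m := by
  have hx0 : (0 : ℝ) < x := by exact_mod_cast hx
  have : (0 : ℝ) < m := (Real.rpow_pos_of_pos hx0 _).trans_le h
  exact_mod_cast this

lemma su2_SS_le {x K J : ℕ} {Λ T B : ℝ} {S : Finset ℕ} {wt c : ℕ → ℝ} (hx : 1 ≤ x)
    (h : Sized2 x K J Λ S) (hwt : ∀ s, 0 ≤ wt s)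
    (hB : ∀ m : ℕ, (x : ℝ) ^ (1 / 30 : ℝ) ≤ m → (m : ℝ) ≤ (x : ℝ) ^ (9 / 40 : ℝ) →
      ∑ n ∈ Icc 1 (2 * x), c n * gk x T (m * n) ≤ B / m) :
    SS x T K J Λ S wt c ≤ B * WW K J Λ S wt := by
  rw [su_SS_eq, su_WW_eq, mul_sum]
  refine sum_le_sum fun s hs => ?_
  rw [mul_sum]
  refine sum_le_sum fun π hπ => ?_
  obtain ⟨h1, h2⟩ := su2_size hx h hs hπ
  calc _ ≤ wt s * (B / ((s * ∏ i, π i : ℕ) : ℝ)) :=
        mul_le_mul_of_nonneg_left (hB _ h1 h2) (hwt s)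
    _ = _ := by ring

lemma su2_le_SS {x K J : ℕ} {Λ T B : ℝ} {S : Finset ℕ} {wt c : ℕ → ℝ} (hx : 1 ≤ x)
    (h : Sized2 x K J Λ S) (hwt : ∀ s, 0 ≤ wt s)
    (hB : ∀ m : ℕ, (x : ℝ) ^ (1 / 30 : ℝ) ≤ m → (m : ℝ) ≤ (x : ℝ) ^ (9 / 40 : ℝ) →
      B / m ≤ ∑ n ∈ Icc 1 (2 * x), c n * gk x T (m * n)) :
    B * WW K J Λ S wt ≤ SS x T K J Λ S wt c := by
  rw [su_SS_eq, su_WW_eq, mul_sum]
  refine sum_le_sum fun s hs => ?_
  rw [mul_sum]
  refine sum_le_sum fun π hπ => ?_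
  obtain ⟨h1, h2⟩ := su2_size hx h hs hπ
  calc _ = wt s * (B / ((s * ∏ i, π i : ℕ) : ℝ)) := by ring
    _ ≤ _ := mul_le_mul_of_nonneg_left (hB _ h1 h2) (hwt s)

theorem sum_rough2 {η : ℝ} (hη : 0 < η) (hη1 : η ≤ 1 / 100) : ∀ᶠ x : ℕ in atTop,
    ∀ (K J : ℕ) (Λ : ℝ) (S : Finset ℕ) (wt : ℕ → ℝ), Sized2 x K J Λ S → (∀ s, 0 ≤ wt s) →
    ∀ T : ℝ, 1 ≤ T → T ≤ √(x : ℝ) →
    SS x T K J Λ S wt (rf ((x : ℝ) ^ η)) ≤ 2 * Gam x T * WW K J Λ S wt / (η * Real.log x) := by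
  filter_upwards [su_ev 176 (by norm_num : (0 : ℝ) < 27 / 200), eventually_ge_atTop 2]
    with x hx hx2 K J Λ S wt hS hwt T hT hTx
  have hx1 : (1 : ℝ) < x := by exact_mod_cast hx2
  have hx0 : (0 : ℝ) < x := by linarith
  have hL : 0 < Real.log x := Real.log_pos hx1
  have hw : (1 : ℝ) < (x : ℝ) ^ η := Real.one_lt_rpow hx1 hη
  have hG := su_Gam_ge (by omega) hT hTx
  have key := su2_SS_le (T := T) (B := 2 * Gam x T / (η * Real.log x))
    (c := rf ((x : ℝ) ^ η)) (by omega) hS hwt fun m hm1 hm2 => by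
      have hm := su2_pos (by omega) hm1
      have hm0 : (0 : ℝ) < m := by exact_mod_cast hm
      refine (sum_rf_gk x (by linarith) hm hw).trans ?_
      rw [Real.log_rpow hx0]
      have e1 : ((x : ℝ) ^ η) ^ 4 ≤ (x : ℝ) ^ (1 / 25 : ℝ) := by
        rw [← Real.rpow_natCast, ← Real.rpow_mul hx0.le]
        exact Real.rpow_le_rpow_of_exponent_le hx1.le (by push_cast; linarith)
      have e2 : Real.log x ≤ (x : ℝ) ^ (1 / 10 : ℝ) / (1 / 10) :=
        Real.log_le_rpow_div hx0.le (by norm_num)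
      have e3 : (x : ℝ) ^ (1 / 25 : ℝ) * (x : ℝ) ^ (1 / 10 : ℝ) = (x : ℝ) ^ (7 / 50 : ℝ) := by
        rw [← Real.rpow_add hx0]; norm_num
      have e4 : (1 : ℝ) ≤ (x : ℝ) ^ (7 / 50 : ℝ) := Real.one_le_rpow hx1.le (by norm_num)
      have e5 : (x : ℝ) ^ (1 / 2 : ℝ) =
          (x : ℝ) ^ (27 / 200 : ℝ) * (x : ℝ) ^ (7 / 50 : ℝ) * (x : ℝ) ^ (9 / 40 : ℝ) := by
        rw [← Real.rpow_add hx0, ← Real.rpow_add hx0]; norm_num
      have e6 : 22 * (x : ℝ) ^ (7 / 50 : ℝ) ≤ Gam x T / m := by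
        rw [le_div_iff₀ hm0]
        refine le_trans ?_ hG
        rw [e5, le_div_iff₀ (by norm_num)]
        calc 22 * (x : ℝ) ^ (7 / 50 : ℝ) * m * 8 = 176 * (x : ℝ) ^ (7 / 50 : ℝ) * m := by ring
          _ ≤ _ := by gcongr
      have e7 : ((x : ℝ) ^ η) ^ 4 * (η * Real.log x) ≤ 10 * (x : ℝ) ^ (7 / 50 : ℝ) := by
        have h1 : η * Real.log x ≤ 10 * (x : ℝ) ^ (1 / 10 : ℝ) := by
          have : η * Real.log x ≤ 1 * Real.log x := by gcongr; linarith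
          linarith
        calc _ ≤ (x : ℝ) ^ (1 / 25 : ℝ) * (10 * (x : ℝ) ^ (1 / 10 : ℝ)) := by gcongr
          _ = _ := by rw [← e3]; ring
      have hηL : 0 < η * Real.log x := mul_pos hη hL
      have e8 : 2 * Gam x T / (η * Real.log x) / m = 2 * (Gam x T / m) / (η * Real.log x) := by
        ring
      rw [e8, div_add' _ _ _ hηL.ne', div_le_div_iff_of_pos_right hηL]
      nlinarith
  calc _ ≤ _ := key
    _ = _ := by ring

theorem sum_not_sqfree2 {η : ℝ} (hη : 0 < η) (hη1 : η ≤ 1 / 100) (K J : ℕ) : ∀ᶠ x : ℕ in atTop,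
    ∀ (Λ : ℝ) (S : Finset ℕ), Sized2 x K J Λ S → ∀ T : ℝ, 1 ≤ T → T ≤ √(x : ℝ) →
    SS x T K J Λ S tau (fun n => if Squarefree n then 0 else rf ((x : ℝ) ^ η) n)
      ≤ Gam x T * (x : ℝ) ^ (-(η / 2)) := by
  filter_upwards [sum_sqful2 hη hη1 (K + J + 2) 1, su_ev 2 (by norm_num : (0 : ℝ) < 1 / 75),
    eventually_ge_atTop 1] with x hx hx2 hx1 Λ S hS T hT hTx
  have hx0 : (0 : ℝ) < x := by exact_mod_cast hx1
  set c : ℕ → ℝ := fun n => if Squarefree n then 0 else rf ((x : ℝ) ^ η) n with hc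
  have hc1 : ∀ n, c n ≤ 1 := fun n => by
    simp only [hc]
    split_ifs
    · exact zero_le_one
    · exact rf_le_one _ _
  refine le_trans (le_of_eq ?_) (hx T hT hTx (fun N => if N ∈ Icc 1 (2 * x) then
    ∑ s ∈ S, ∑ π ∈ tup K J Λ, ∑ n ∈ Icc 1 (2 * x),
      (if s * (∏ i, π i) * n = N then tau s * c n else 0) else 0) (fun N => ?_) (fun N hN => ?_))
  · refine Eq.trans ?_ (sum_congr rfl fun N hN => by rw [if_pos hN]).symm
    unfold SS
    simp only [sum_mul]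
    symm
    rw [sum_comm]
    refine sum_congr rfl fun s hs => ?_
    rw [sum_comm]
    refine sum_congr rfl fun π hπ => ?_
    rw [sum_comm]
    refine sum_congr rfl fun n hn => ?_
    simp only [ite_mul, zero_mul]
    rw [sum_ite_eq]
    split_ifs with h
    · rfl
    · have hm := su2_pos hx1 (su2_size hx1 hS hs hπ).1
      have : gk x T (s * (∏ i, π i) * n) = 0 := by
        by_contra h0
        exact h (mem_Icc.2 ⟨Nat.mul_pos hm (mem_Icc.1 hn).1, (gk_ne_zero h0).2⟩)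
      rw [this, mul_zero]
  · rw [one_mul]
    split_ifs with h
    · exact su_count _ (by have := (mem_Icc.1 h).1; omega) hc1
    · exact pow_nonneg (tau_nonneg N) _
  · split_ifs at hN with h
    swap
    · exact absurd hN (lt_irrefl _)
    obtain ⟨s, hs, hN⟩ := exists_ne_zero_of_sum_ne_zero hN.ne'
    obtain ⟨π, hπ, hN⟩ := exists_ne_zero_of_sum_ne_zero hN
    obtain ⟨n, hn, hN⟩ := exists_ne_zero_of_sum_ne_zero hN
    have he : s * (∏ i, π i) * n = N := by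
      by_contra h0
      exact hN (if_neg h0)
    rw [if_pos he] at hN
    have hcn : c n ≠ 0 := right_ne_zero_of_mul hN
    have hsq : ¬ Squarefree n := fun h0 => hcn (by simp only [hc]; exact if_pos h0)
    have hr : Rough ((x : ℝ) ^ η) n := by
      by_contra h0
      exact hcn (by simp only [hc]; rw [if_neg hsq]; exact if_neg h0)
    rw [Nat.squarefree_iff_prime_squarefree] at hsq
    push Not at hsq
    obtain ⟨p, hp, hpn⟩ := hsq
    refine ⟨p, hp, hr p hp ((dvd_mul_right p p).trans hpn), ?_, ?_⟩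
    · have h1 : p * p ≤ n := Nat.le_of_dvd (mem_Icc.1 hn).1 hpn
      have h2 : s * (∏ i, π i) * (p * p) ≤ 2 * x :=
        (Nat.mul_le_mul_left _ h1).trans (he ▸ (mem_Icc.1 h).2)
      have h3 : ((s * ∏ i, π i : ℕ) : ℝ) * ((p : ℝ) * p) ≤ 2 * x := by exact_mod_cast h2
      have h4 := (su2_size hx1 hS hs hπ).1
      have e1 : (x : ℝ) ^ (1 / 75 : ℝ) * x =
          (x : ℝ) ^ (1 / 30 : ℝ) * ((x : ℝ) ^ (49 / 100 : ℝ) * (x : ℝ) ^ (49 / 100 : ℝ)) := by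
        rw [← Real.rpow_add hx0, ← Real.rpow_add hx0, ← Real.rpow_add_one hx0.ne']; norm_num
      have h5 : (x : ℝ) ^ (1 / 30 : ℝ) * ((p : ℝ) * p) ≤
          (x : ℝ) ^ (1 / 30 : ℝ) * ((x : ℝ) ^ (49 / 100 : ℝ) * (x : ℝ) ^ (49 / 100 : ℝ)) := by
        rw [← e1]
        calc _ ≤ ((s * ∏ i, π i : ℕ) : ℝ) * ((p : ℝ) * p) := by gcongr
          _ ≤ 2 * x := h3
          _ ≤ _ := by gcongr
      have h6 := le_of_mul_le_mul_left h5 (Real.rpow_pos_of_pos hx0 _)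
      exact (mul_self_le_mul_self_iff (Nat.cast_nonneg p) (by positivity)).2 h6
    · rw [← he, pow_two]
      exact hpn.mul_left _

/-- if no product with a prime lies near `x` then the sum over primes is small -/
theorem sum_tail2 : ∀ᶠ x : ℕ in atTop, ∀ (K J : ℕ) (Λ : ℝ) (S : Finset ℕ), Sized2 x K J Λ S →
    ∀ T D : ℝ, 2 ≤ T → T ≤ √(x : ℝ) →
    (∀ s ∈ S, ∀ π ∈ tup K J Λ, ∀ p : ℕ, p.Prime → x < 2 * (s * (∏ i, π i) * p) →
      D ≤ |((s * (∏ i, π i) * p : ℕ) : ℝ) - x|) →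
    SS x T K J Λ S tau (fun n => if n.Prime then 1 else 0)
      ≤ 16000 * Real.exp (-(T * D / (4 * x))) * Gam x T * WW K J Λ S tau / Real.log x := by
  filter_upwards [sum_rough2 (η := 1 / 100) (by norm_num) le_rfl,
    su_ev 2 (by norm_num : (0 : ℝ) < 153 / 200), eventually_ge_atTop 2]
    with x hx hx3 hx2 K J Λ S hS T D hT hTx hD
  have hx1 : (1 : ℝ) < x := by exact_mod_cast hx2
  have hx0 : (0 : ℝ) < x := by linarith
  have hL : 0 < Real.log x := Real.log_pos hx1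
  have hTx' : T ≤ x := hTx.trans (su_sqrt_le (by omega))
  have h1 := hx K J Λ S tau hS tau_nonneg (T / 2) (by linarith) (by linarith)
  have h2 : Gam x (T / 2) ≤ 80 * Gam x T := by
    have a1 := Gam_le (x := x) (T := T / 2) (by linarith) (by linarith)
    have a2 := Gam_ge (x := x) (T := T) (by linarith) hTx'
    have a3 : 5 * (x : ℝ) / (T / 2) = 80 * (x / (8 * T)) := by field_simp; norm_num
    linarith
  have h3 : SS x T K J Λ S tau (fun n => if n.Prime then 1 else 0) ≤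
      Real.exp (-(T * D / (4 * x))) * SS x (T / 2) K J Λ S tau (rf ((x : ℝ) ^ (1 / 100 : ℝ))) := by
    unfold SS
    simp only [mul_sum]
    refine sum_le_sum fun s hs => sum_le_sum fun π hπ => sum_le_sum fun n _ => ?_
    have hR : 0 ≤ Real.exp (-(T * D / (4 * x))) * (tau s * rf ((x : ℝ) ^ (1 / 100 : ℝ)) n *
        gk x (T / 2) (s * (∏ i, π i) * n)) :=
      mul_nonneg (Real.exp_pos _).le
        (mul_nonneg (mul_nonneg (tau_nonneg _) (rf_nonneg _ _)) (gk_nonneg _ _ _))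
    by_cases hp : n.Prime
    swap
    · rw [if_neg hp, mul_zero, zero_mul]; exact hR
    by_cases h0 : gk x T (s * (∏ i, π i) * n) = 0
    · rw [h0, mul_zero]; exact hR
    have h4 := (gk_ne_zero h0).1
    have h5 := gk_tail (x := x) (by omega) (T := T) (by linarith) (hD s hs π hπ n hp h4)
    have h6 : Rough ((x : ℝ) ^ (1 / 100 : ℝ)) n := by
      intro p hp' hpn
      obtain rfl := (Nat.prime_dvd_prime_iff_eq hp' hp).1 hpn
      have b1 : (x : ℝ) < 2 * (((s * ∏ i, π i : ℕ) : ℝ) * p) := by exact_mod_cast h4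
      have b2 := (su2_size (by omega) hS hs hπ).2
      have e1 : (x : ℝ) ^ (153 / 200 : ℝ) * ((x : ℝ) ^ (9 / 40 : ℝ) * (x : ℝ) ^ (1 / 100 : ℝ))
          = x := by
        rw [← Real.rpow_add hx0, ← Real.rpow_add hx0]; norm_num
      by_contra hcon
      push Not at hcon
      have b3 : 2 * (((s * ∏ i, π i : ℕ) : ℝ) * p) ≤
          (x : ℝ) ^ (153 / 200 : ℝ) * ((x : ℝ) ^ (9 / 40 : ℝ) * (x : ℝ) ^ (1 / 100 : ℝ)) := by
        gcongr
      linarith
    have h7 : rf ((x : ℝ) ^ (1 / 100 : ℝ)) n = 1 := if_pos h6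
    rw [if_pos hp, h7]
    calc _ ≤ tau s * 1 * (Real.exp (-(T * D / (4 * x))) * gk x (T / 2) (s * (∏ i, π i) * n)) :=
          mul_le_mul_of_nonneg_left h5 (mul_nonneg (tau_nonneg _) zero_le_one)
      _ = _ := by ring
  have hW := su_WW_nonneg K J Λ S tau_nonneg
  calc _ ≤ _ := h3
    _ ≤ Real.exp (-(T * D / (4 * x))) *
          (2 * (80 * Gam x T) * WW K J Λ S tau / (1 / 100 * Real.log x)) := by
        refine mul_le_mul_of_nonneg_left (h1.trans ?_) (Real.exp_pos _).le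
        gcongr
    _ = _ := by field_simp; ring

end Pool.Agent.Work.MP_82fd4a_nt
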