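import Pool.Agent.Work.MP_82fd4a_nt.LossT
import Pool.Agent.Work.MP_82fd4a_nt.NSumU

/-! The mass of the cells. -/

set_option autoImplicit false
open Filter Topology Finset

namespace Pool.Agent.Work.MP_82fd4a_nt

lemma lossV_le_fs {b : ℝ} (hb : 0 < b) {p α : ℕ} (hp : p.Prime) (h : α ≤ fs b p) :
    (α : ℝ) * b ≤ Real.log p := by
  rw [fs_prime b hp] at h
  have h0 : 0 ≤ Real.log p / b := div_nonneg (Real.log_natCast_nonneg p) hb.le
  exact (le_div_iff₀ hb).1 ((Nat.le_floor_iff h0).1 h)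

lemma lossV_fs_lt {b : ℝ} (hb : 0 < b) {p β : ℕ} (hp : p.Prime) (h : fs b p < β) :
    Real.log p < (β : ℝ) * b := by
  rw [fs_prime b hp] at h
  have h0 : 0 ≤ Real.log p / b := div_nonneg (Real.log_natCast_nonneg p) hb.le
  exact (div_lt_iff₀ hb).1 ((Nat.floor_lt h0).1 h)

lemma lossV_log {v : ℝ} (hv : 0 < v) : Real.log ((v + 1) / v) ≤ (1 / v + 1 / (v + 1)) / 2 := by
  refine (Real.self_le_sinh_iff.2 (Real.log_nonneg ?_)).trans_eq ?_
  · rw [le_div_iff₀ hv]
    linarith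
  · rw [Real.sinh_log (by positivity)]
    field_simp
    ring

lemma lossV_part {τ : Multiset ℕ} {L v : ℕ} (hv : v ∈ τ) (h : ∀ a ∈ τ, L ≤ a) :
    v + (τ.card - 1) * L ≤ τ.sum := by
  obtain ⟨σ, rfl⟩ := Multiset.exists_cons_of_mem hv
  have h1 := Multiset.card_nsmul_le_sum (s := σ) (a := L) fun a ha =>
    h a (Multiset.mem_cons_of_mem ha)
  rw [Multiset.card_cons, Multiset.sum_cons, Nat.add_sub_cancel]
  rw [smul_eq_mul] at h1
  omega

lemma lossV_psum (P : Finset ℕ) (hP : ∀ p ∈ P, 1 ≤ p) (H : ℕ → ℝ) {M η : ℝ}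
    (hM : ∑ p ∈ P, (p : ℝ)⁻¹ ≤ M) (h0 : 0 ≤ η)
    (hη : ∀ m : ℕ, 1 ≤ m → ∑ p ∈ P, H (m * p) ≤ η / m) (i : ℕ) : ∀ m : ℕ, 1 ≤ m →
    psum (List.replicate (i + 1) P) (fun n => H (m * n)) ≤ M ^ i * η / m := by
  have M0 : 0 ≤ M := le_trans (sum_nonneg fun p _ => by positivity) hM
  induction i with
  | zero =>
    intro m hm
    simpa [psum] using hη m hm
  | succ i ih =>
    intro m hm
    rw [List.replicate_succ, psum]
    calc ∑ a ∈ P, psum (List.replicate (i + 1) P) (fun n => H (m * (a * n)))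
        ≤ ∑ a ∈ P, M ^ i * η / m * (a : ℝ)⁻¹ := by
          refine sum_le_sum fun a ha => ?_
          have h1 := ih (m * a) (Nat.mul_pos hm (hP a ha))
          simp only [mul_assoc] at h1
          refine h1.trans_eq ?_
          push_cast
          rw [← div_div, div_eq_mul_inv _ (a : ℝ)]
      _ ≤ M ^ i * η / m * M := by
          rw [← mul_sum]
          exact mul_le_mul_of_nonneg_left hM (by positivity)
      _ = _ := by ring

/-- squarefree numbers with `j` prime factors of the cells from `α` to `β` -/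
lemma lossV_tuple (b : ℝ) (N α β j : ℕ) (H : ℕ → ℝ) (hH : ∀ n, 0 ≤ H n) (S : Finset ℕ)
    (hS : ∀ n ∈ S, n ∈ Icc 1 N ∧ Squarefree n ∧ (ty b n).card = j ∧
      ∀ v ∈ ty b n, α ≤ v ∧ v < β) :
    (j.factorial : ℝ) * ∑ n ∈ S, H n ≤ psum (List.replicate j
      ((Icc 1 N).filter fun p => p.Prime ∧ α ≤ fs b p ∧ fs b p < β)) H := by
  have h1 := tuple_le (fun p => if α ≤ fs b p ∧ fs b p < β then 0 else 1) N
    (List.replicate j 0) H hH
  rw [mf_replicate, List.map_replicate] at h1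
  have e : ((Icc 1 N).filter fun p => p.Prime ∧ (if α ≤ fs b p ∧ fs b p < β then 0 else 1) = 0)
      = (Icc 1 N).filter fun p => p.Prime ∧ α ≤ fs b p ∧ fs b p < β := by
    refine filter_congr fun p _ => ?_
    by_cases h : α ≤ fs b p ∧ fs b p < β <;> simp [h]
  rw [e] at h1
  refine le_trans (mul_le_mul_of_nonneg_left ?_ (Nat.cast_nonneg _)) h1
  refine sum_le_sum_of_subset_of_nonneg (fun n hn => ?_) fun n _ _ => hH n
  obtain ⟨h2, h3, h4, h5⟩ := hS n hn
  refine mem_filter.2 ⟨h2, h3, List.Perm.of_eq ?_⟩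
  rw [List.eq_replicate_iff]
  refine ⟨by rw [List.length_map, ← typ_card b n, h4], fun v hv => ?_⟩
  obtain ⟨p, hp, rfl⟩ := List.mem_map.1 hv
  have h6 := Nat.prime_of_mem_primeFactorsList hp
  rw [if_pos]
  rw [fs_prime b h6]
  refine h5 _ ?_
  unfold ty
  exact Multiset.mem_coe.2 (List.mem_map.2 ⟨p, hp, rfl⟩)

lemma lossV_four {x B α : ℕ} {b : ℝ} (hb : 0 < b) (h : Real.log x / 110 ≤ 256 * B * b)
    (hα : 1024 * B ≤ α) : Real.log x / 30 ≤ α * b := by
  have h1 : (1024 * B : ℝ) ≤ α := by exact_mod_cast hα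
  have h2 := mul_le_mul_of_nonneg_right h1 hb.le
  have h3 := Real.log_natCast_nonneg x
  linarith

theorem mass_fine {ε : ℝ} (hε : 0 < ε) : ∀ᶠ x : ℕ in atTop, ∀ (b : ℝ) (α β : ℕ), 0 < b →
    Real.log x / 30 ≤ α * b → α ≤ β →
    ∑ p ∈ Icc 1 (2 * x) with p.Prime ∧ α ≤ fs b p ∧ fs b p < β, (p : ℝ)⁻¹
      ≤ Real.log (β / α) + ε := by
  obtain ⟨L, hL⟩ := eventually_atTop.1 ((mertens_pnt 1).and
    ((eventually_ge_atTop (2 / ε)).and (eventually_gt_atTop 0)))
  filter_upwards [Lib.ANT.PNTError.tendsto_log.eventually_ge_atTop (30 * L)]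
    with x hx b α β hb hlo hαβ
  obtain ⟨hm, h2, h0⟩ := hL (α * b) (by linarith)
  have hα : (0 : ℝ) < α := (mul_pos_iff_of_pos_right hb).1 h0
  have hle : (α : ℝ) * b ≤ β * b := mul_le_mul_of_nonneg_right (by exact_mod_cast hαβ) hb.le
  have h3 := (abs_le.1 (hm (β * b) hle)).2
  rw [mul_div_mul_right _ _ hb.ne', pow_one] at h3
  have h4 : ((⌈Real.exp (α * b)⌉₊ : ℕ) : ℝ)⁻¹ ≤ 1 / (α * b) := by
    rw [one_div]
    refine inv_anti₀ h0 (le_trans ?_ (Nat.le_ceil _))
    linarith [Real.add_one_le_exp ((α : ℝ) * b)]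
  have h5 : 2 * (1 / (α * b)) ≤ ε := by
    rw [div_le_iff₀ hε] at h2
    rw [mul_one_div, div_le_iff₀ h0]
    linarith
  have h6 : ((Icc 1 (2 * x)).filter fun p => p.Prime ∧ α ≤ fs b p ∧ fs b p < β) ⊆
      insert ⌈Real.exp (α * b)⌉₊ (Pr (α * b) (β * b)) := by
    intro p hp
    obtain ⟨-, h7, h8, h9⟩ := mem_filter.1 hp
    rcases (lossV_le_fs hb h7 h8).eq_or_lt with e | e
    · refine mem_insert.2 (Or.inl ?_)
      rw [e, Real.exp_log (by exact_mod_cast h7.pos), Nat.ceil_natCast]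
    · exact mem_insert_of_mem (mem_Pr.2 ⟨h7, e, (lossV_fs_lt hb h7 h9).le⟩)
  refine (sum_le_sum_of_subset_of_nonneg h6 fun p _ _ => by positivity).trans ?_
  by_cases h7 : ⌈Real.exp (α * b)⌉₊ ∈ Pr (α * b) (β * b)
  · rw [insert_eq_of_mem h7]
    have : 0 ≤ 1 / ((α : ℝ) * b) := by positivity
    linarith
  · rw [sum_insert h7]
    linarith

theorem prime_var : ∀ᶠ x : ℕ in atTop, ∀ (b : ℝ) (B c : ℕ), 0 < b → 1 ≤ B →
    Real.log x / 110 ≤ 256 * B * b → 4 ≤ c → c ≤ 47 → Var b B (Prc x b (256 * B) c, c, 1) := by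
  filter_upwards [mass_fine (ε := 1 / 10 ^ 9) (by norm_num)] with x hx b B c hb hB hlo h4 h47
  refine ⟨fun a ha => (mem_filter.1 ha).2.1.pos, fun a ha => (mem_filter.1 ha).2.2, h4,
    zero_le_one, fun t => ?_⟩
  show ∑ a ∈ Prc x b (256 * B) c with fs b a / B = t, (a : ℝ)⁻¹ ≤ 1 / t
  rcases ((Prc x b (256 * B) c).filter fun a => fs b a / B = t).eq_empty_or_nonempty with
    e | ⟨a, ha⟩
  · rw [e, sum_empty]
    positivity
  obtain ⟨h1, h2⟩ := mem_filter.1 ha
  have h3 : fs b a / (256 * B) = c := (mem_filter.1 h1).2.2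
  rw [mul_comm, ← Nat.div_div_eq_div_mul, h2] at h3
  have t1 : 1024 ≤ t := by omega
  have t2 : t ≤ 12287 := by omega
  have t1' : (1024 : ℝ) ≤ t := by exact_mod_cast t1
  have t2' : (t : ℝ) ≤ 12287 := by exact_mod_cast t2
  have B0 : (0 : ℝ) < B := by exact_mod_cast hB
  have h5 := hx b (t * B) ((t + 1) * B) hb (lossV_four hb hlo (Nat.mul_le_mul_right _ t1))
    (Nat.mul_le_mul_right _ (Nat.le_succ t))
  have h6 : ((Prc x b (256 * B) c).filter fun a => fs b a / B = t) ⊆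
      (Icc 1 (2 * x)).filter fun p => p.Prime ∧ t * B ≤ fs b p ∧ fs b p < (t + 1) * B := by
    intro p hp
    obtain ⟨h7, h8⟩ := mem_filter.1 hp
    obtain ⟨h9, h10, -⟩ := mem_filter.1 h7
    exact mem_filter.2 ⟨h9, h10, (Nat.le_div_iff_mul_le hB).1 h8.ge,
      (Nat.div_lt_iff_lt_mul hB).1 (by omega)⟩
  refine (sum_le_sum_of_subset_of_nonneg h6 fun p _ _ => by positivity).trans (h5.trans ?_)
  push_cast
  rw [mul_div_mul_right _ _ B0.ne']
  have h7 := lossV_log (v := t) (by linarith)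
  have h8 : (1 / (t : ℝ) + 1 / (t + 1)) / 2 = 1 / t - 1 / (2 * t * (t + 1)) := by
    field_simp
    ring
  have h9 : (1 : ℝ) / 10 ^ 9 ≤ 1 / (2 * t * (t + 1)) :=
    one_div_le_one_div_of_le (by positivity) (by nlinarith)
  linarith

theorem block_var : ∀ᶠ x : ℕ in atTop, ∀ (b : ℝ) (B j a c : ℕ), 0 < b → 1 ≤ B →
    Real.log x / 110 ≤ 256 * B * b → 2 ≤ j → 4 * j ≤ c →
    Var b B (Blk x b (256 * B) j a c, c, kap j a c) := by
  filter_upwards [mass_fine (ε := 1 / 10 ^ 9) (by norm_num)] with x hx b B j a c hb hB hlo h2 h4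
  have k0 : (0 : ℝ) ≤ kap j a c := by
    have := lg_nonneg (min a (c + 1 - 4 * (j - 1)))
    unfold kap
    positivity
  refine ⟨fun n hn => (mem_Icc.1 (mem_filter.1 hn).1).1, fun n hn => (mem_filter.1 hn).2.2.2.2,
    by show 4 ≤ c; omega, k0, fun t => ?_⟩
  show ∑ n ∈ Blk x b (256 * B) j a c with fs b n / B = t, (n : ℝ)⁻¹ ≤ (kap j a c : ℝ) / t
  rcases ((Blk x b (256 * B) j a c).filter fun n => fs b n / B = t).eq_empty_or_nonempty with
    e | ⟨n, hn⟩
  · rw [e, sum_empty]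
    positivity
  obtain ⟨h1, h5⟩ := mem_filter.1 hn
  have h3 : fs b n / (256 * B) = c := (mem_filter.1 h1).2.2.2.2
  rw [mul_comm, ← Nat.div_div_eq_div_mul, h5] at h3
  have t1 : 1 ≤ t := by omega
  have t2 : t ≤ 256 * (c + 1) := by omega
  have t1' : (1 : ℝ) ≤ t := by exact_mod_cast t1
  have t2' : (t : ℝ) ≤ 256 * (c + 1) := by exact_mod_cast t2
  have B0 : (0 : ℝ) < B := by exact_mod_cast hB
  clear h1 h5 hn n
  obtain ⟨i, rfl⟩ : ∃ i, j = i + 1 := ⟨j - 1, by omega⟩
  obtain ⟨v, hv⟩ : ∃ v, v = min a (c + 1 - 4 * i) := ⟨_, rfl⟩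
  have hk : (kap (i + 1) a c : ℝ) = (lg v : ℝ) ^ i * (c + 1) / (4 * (i + 1).factorial) := by
    unfold kap
    rw [Nat.add_sub_cancel, ← hv]
    push_cast
    rfl
  have l0 : (0 : ℝ) ≤ lg v := by exact_mod_cast lg_nonneg v
  have h6 := lossV_tuple b (2 * x) (4 * (256 * B)) (v * (256 * B)) (i + 1)
    (fun n => if fs b n / B = t then (n : ℝ)⁻¹ else 0)
    (fun n => by split_ifs <;> positivity) (Blk x b (256 * B) (i + 1) a c) fun n hn => by
      obtain ⟨h7, h8, h9, h10, h11⟩ := mem_filter.1 hn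
      refine ⟨h7, h8, h9, fun w hw => ⟨(h10 w hw).1, ?_⟩⟩
      have h12 := lossV_part hw fun w hw => (h10 w hw).1
      rw [h9, Nat.add_sub_cancel] at h12
      have h13 : fs b n < (c + 1) * (256 * B) :=
        (Nat.div_lt_iff_lt_mul (by omega)).1 (by omega)
      have h14 : w < (c + 1 - 4 * i) * (256 * B) := by
        rw [Nat.sub_mul]
        unfold fs at h13
        have : 4 * i * (256 * B) = i * (4 * (256 * B)) := by ring
        omega
      rcases min_choice a (c + 1 - 4 * i) with e | e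
      · rw [hv, e]
        exact (h10 w hw).2
      · rw [hv, e]
        exact h14
  rw [← sum_filter] at h6
  have h7 := lossV_psum ((Icc 1 (2 * x)).filter fun p => p.Prime ∧ 4 * (256 * B) ≤ fs b p ∧
      fs b p < v * (256 * B)) (fun p hp => (mem_filter.1 hp).2.1.pos)
    (fun n => if fs b n / B = t then (n : ℝ)⁻¹ else 0) (M := lg v) (η := 1 / 1024) ?_
    (by norm_num) ?_ i 1 le_rfl
  · simp only [one_mul, Nat.cast_one, div_one] at h7
    have h8 := h6.trans h7
    have f0 : (0 : ℝ) < (i + 1).factorial := by exact_mod_cast (i + 1).factorial_pos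
    rw [← le_div_iff₀' f0] at h8
    refine h8.trans ?_
    rw [hk, le_div_iff₀ (by linarith)]
    calc (lg v : ℝ) ^ i * (1 / 1024) / (i + 1).factorial * t
        ≤ (lg v : ℝ) ^ i * (1 / 1024) / (i + 1).factorial * (256 * (c + 1)) :=
          mul_le_mul_of_nonneg_left t2' (by positivity)
      _ = _ := by
          field_simp
          ring
  · rcases Nat.lt_or_ge v 5 with h8 | h8
    · rw [filter_eq_empty_iff.2, sum_empty]
      · exact l0
      · rintro p - ⟨-, h9, h10⟩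
        have := Nat.mul_le_mul_right (256 * B) (show v ≤ 4 by omega)
        omega
    · refine (hx b (4 * (256 * B)) (v * (256 * B)) hb (lossV_four hb hlo (by omega))
        (Nat.mul_le_mul_right _ (by omega))).trans ?_
      have h9 := log_le_lg h8
      push_cast
      rw [mul_div_mul_right _ _ (by positivity)]
      linarith
  · intro m hm
    obtain ⟨α, hα⟩ : ∃ α, α = max (4 * (256 * B)) (t * B - fs b m) := ⟨_, rfl⟩
    have a1 : 1024 * B ≤ α := by omega
    have a1' : (1024 * B : ℝ) ≤ α := by exact_mod_cast a1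
    have h8 := hx b α (α + B) hb (lossV_four hb hlo a1) (Nat.le_add_right _ _)
    have h9 : Real.log (((α + B : ℕ) : ℝ) / α) + 1 / 10 ^ 9 ≤ 1 / 1024 := by
      have h10 := lossV_log (v := 1024) (by norm_num)
      have h11 : Real.log (((α + B : ℕ) : ℝ) / α) ≤ Real.log ((1024 + 1) / 1024) := by
        push_cast
        refine Real.log_le_log (div_pos (by linarith) (by linarith)) ?_
        rw [div_le_div_iff₀ (by linarith) (by norm_num)]
        linarith
      norm_num at h10 h11 ⊢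
      linarith
    rw [← sum_filter, div_eq_mul_inv _ (m : ℝ), mul_comm (1 / 1024 : ℝ)]
    refine le_trans ?_ (mul_le_mul_of_nonneg_left (h8.trans h9) (by positivity))
    rw [mul_sum]
    refine le_trans (le_of_eq (sum_congr rfl fun p _ => ?_))
      (sum_le_sum_of_subset_of_nonneg (fun p hp => ?_) fun p _ _ => by positivity)
    · push_cast
      rw [mul_inv]
    · obtain ⟨h10, h11⟩ := mem_filter.1 hp
      obtain ⟨h12, h13, h14, -⟩ := mem_filter.1 h10
      rw [fs_mul b (by omega) h13.ne_zero] at h11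
      have h15 := (Nat.le_div_iff_mul_le hB).1 h11.ge
      have h16 : fs b m + fs b p < (t + 1) * B := (Nat.div_lt_iff_lt_mul hB).1 (by omega)
      rw [add_mul, one_mul] at h16
      exact mem_filter.2 ⟨h12, h13, by omega, by omega⟩

/-- the prime variable -/
theorem solve_prime {ε : ℝ} (hε : 0 < ε) : ∀ᶠ x : ℕ in atTop, ∀ (b : ℝ) (q α : ℕ), 0 < b → 1 ≤ q →
    Real.log x / 30 ≤ α * b →
    ∑ p ∈ Icc 1 (2 * x) with p.Prime ∧ α ≤ fs b p, gk x (Real.log x ^ 2) (q * p)
      ≤ (1 + ε) * Gam x (Real.log x ^ 2) / (q * (α * b)) := by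
  filter_upwards [prime_gk2 hε, Lib.ANT.PNTError.tendsto_log.eventually_ge_atTop 100,
    eventually_ge_atTop 1] with x hx hL hx1 b q α hb hq hlo
  have h0 : (0 : ℝ) < α * b := by linarith
  have q0 : (0 : ℝ) < q := by exact_mod_cast hq
  have x0 : (0 : ℝ) < x := by exact_mod_cast hx1
  have G0 : 0 ≤ Gam x (Real.log x ^ 2) := sum_nonneg fun n _ => gk_nonneg _ _ _
  rcases le_or_gt (q : ℝ) ((x : ℝ) ^ (99 / 100 : ℝ)) with h1 | h1
  · have h2 := (abs_le.1 (hx q hq h1)).2
    rw [← div_div, le_div_iff₀ h0, sum_mul, mul_div_assoc, add_mul, one_mul, sum_filter]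
    refine le_trans (sum_le_sum fun p _ => ?_) (sub_le_iff_le_add'.1 h2)
    have h3 := gk_nonneg x (Real.log x ^ 2) (q * p)
    by_cases h4 : p.Prime ∧ α ≤ fs b p
    · rw [if_pos h4, if_pos h4.1, mul_comm]
      exact mul_le_mul_of_nonneg_right (lossV_le_fs hb h4.1 h4.2) h3
    · rw [if_neg h4]
      refine mul_nonneg ?_ h3
      split_ifs
      · exact Real.log_natCast_nonneg p
      · exact le_rfl
  · rw [sum_eq_zero]
    · positivity
    · intro p hp
      obtain ⟨-, h2, h3⟩ := mem_filter.1 hp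
      by_contra h4
      have h5 : ((q * p : ℕ) : ℝ) ≤ (2 * x : ℕ) := by exact_mod_cast (gk_ne_zero h4).2
      have p0 : (0 : ℝ) < p := by exact_mod_cast h2.pos
      push_cast at h5
      have h6 := Real.log_le_log (by positivity) h5
      rw [Real.log_mul q0.ne' p0.ne', Real.log_mul two_ne_zero x0.ne'] at h6
      have h7 := Real.log_lt_log (by positivity) h1
      rw [Real.log_rpow x0] at h7
      have h8 := lossV_le_fs hb h2 h3
      have h9 := Real.log_two_lt_d9
      linarith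

/-- many prime factors -/
theorem badSum_many : ∀ᶠ x : ℕ in atTop, ∀ (b : ℝ) (B y δ m k : ℕ), 0 < b → 1 ≤ B →
    Real.log x / 110 ≤ 256 * B * b → 1 ≤ m → δ ≤ B → 19 ≤ k → k ≤ 25 →
    badSum x b (256 * B) y δ m k (fun _ => 1) ≤ 101 / 100 * Gam x (Real.log x ^ 2) /
      (m * (256 * B * b)) * (lg (105 - 4 * k) ^ (k - 1) / (4 * k.factorial) : ℚ) := by
  classical
  filter_upwards [mass_fine (ε := 1 / 1000) (by norm_num),
    solve_prime (ε := 1 / 100) (by norm_num)] with x hx hs b B y δ m k hb hB hlo hm hδ h19 h25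
  obtain ⟨i, rfl⟩ : ∃ i, k = i + 1 := ⟨k - 1, by omega⟩
  obtain ⟨v, hv⟩ : ∃ v, v = 105 - 4 * (i + 1) := ⟨_, rfl⟩
  rw [← hv, Nat.add_sub_cancel]
  have B0 : (0 : ℝ) < B := by exact_mod_cast hB
  have m0 : (0 : ℝ) < m := by exact_mod_cast hm
  have G0 : 0 ≤ Gam x (Real.log x ^ 2) := sum_nonneg fun n _ => gk_nonneg _ _ _
  have h6 := lossV_tuple b (2 * x) (4 * (256 * B)) (v * (256 * B)) (i + 1)
    (fun n => gk x (Real.log x ^ 2) (m * n)) (fun n => gk_nonneg _ _ _)
    ((Icc 1 (2 * x)).filter fun n => Squarefree n ∧ BadT (256 * B) y δ (ty b n) ∧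
      (ty b n).card = i + 1) fun n hn => by
      obtain ⟨h7, h8, ⟨-, h10, -, h11⟩, h9⟩ := mem_filter.1 hn
      refine ⟨h7, h8, h9, fun w hw => ⟨(h10 w hw).1, ?_⟩⟩
      have h12 := lossV_part hw fun w hw => (h10 w hw).1
      rw [h9, Nat.add_sub_cancel] at h12
      rw [hv, Nat.sub_mul]
      have : 4 * (i + 1) * (256 * B) = i * (4 * (256 * B)) + 1024 * B := by ring
      omega
  have h7 := lossV_psum ((Icc 1 (2 * x)).filter fun p => p.Prime ∧ 4 * (256 * B) ≤ fs b p ∧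
      fs b p < v * (256 * B)) (fun p hp => (mem_filter.1 hp).2.1.pos)
    (fun n => gk x (Real.log x ^ 2) (m * n)) (M := lg v)
    (η := 101 / 100 * Gam x (Real.log x ^ 2) / (m * (4 * (256 * B) * b))) ?_
    (by positivity) ?_ i 1 le_rfl
  · simp only [one_mul, Nat.cast_one, div_one] at h7
    have h8 := h6.trans h7
    have f0 : (0 : ℝ) < (i + 1).factorial := by exact_mod_cast (i + 1).factorial_pos
    rw [← le_div_iff₀' f0, sum_filter] at h8
    unfold badSum
    simp only [one_mul]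
    refine le_trans (le_of_eq ?_) (h8.trans_eq ?_)
    · refine sum_congr rfl fun n _ => ?_
      congr
    · push_cast
      field_simp
  · have h8 : 5 ≤ v := by omega
    refine (hx b (4 * (256 * B)) (v * (256 * B)) hb (lossV_four hb hlo (by omega))
      (Nat.mul_le_mul_right _ (by omega))).trans ?_
    have h9 := log_le_lg h8
    push_cast
    rw [mul_div_mul_right _ _ (by positivity)]
    linarith
  · intro r hr
    have h8 := hs b (m * r) (4 * (256 * B)) hb (Nat.mul_pos hm hr) (lossV_four hb hlo (by omega))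
    have r0 : (0 : ℝ) < r := by exact_mod_cast hr
    refine le_trans ?_ (h8.trans_eq ?_)
    · simp only [mul_assoc]
      refine sum_le_sum_of_subset_of_nonneg (fun p hp => ?_) fun p _ _ => gk_nonneg _ _ _
      obtain ⟨h10, h11, h12, -⟩ := mem_filter.1 hp
      exact mem_filter.2 ⟨h10, h11, h12⟩
    · push_cast
      field_simp
      ring

end Pool.Agent.Work.MP_82fd4a_nt
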