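import Pool.Agent.Work.MP_82fd4a_nt.TypeIIA

/-! Bilinear forms in short intervals. -/

set_option autoImplicit false
open Filter Topology Finset MeasureTheory

namespace Pool.Agent.Work.MP_82fd4a_nt

open Pool.Agent.Lib.MR Pool.Agent.Work.MP_51e72e_nt

/-- mean value bound -/
theorem bil_mean (C : ℝ) : ∀ᶠ x : ℕ in atTop, ∀ A B : ℕ → ℝ,
    (∀ n ≤ 4 * x.sqrt, |A n| ≤ C) → (∀ n ≤ 4 * x.sqrt, |B n| ≤ C) → ∀ a b t : ℝ, 0 < t →
    ∑ n ∈ Icc 1 (4 * x.sqrt), A n ^ 2 ≤ a * x.sqrt →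
    ∑ n ∈ Icc 1 (4 * x.sqrt), B n ^ 2 ≤ b * x.sqrt →
    ∀ T : ℝ, Real.log x ^ 2 ≤ T → T ≤ x.sqrt →
    |Bil x T A B| ≤ (50 * (t * a + b / t) + 1 / x) * Gam x T := by
  filter_upwards [tii_bil C, eventually_ge_atTop 2] with x h hx A B hA hB a b t ht ha hb T hT hTX
  have hx1 : (1 : ℝ) < x := by exact_mod_cast hx
  have hT0 : 0 < T := lt_of_lt_of_le (pow_pos (Real.log_pos hx1) 2) hT
  have hX : (0 : ℝ) < x.sqrt := hT0.trans_le hTX
  have ha0 : 0 ≤ a := nonneg_of_mul_nonneg_left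
    ((sum_nonneg fun _ _ => sq_nonneg _).trans ha) hX
  have hb0 : 0 ≤ b := nonneg_of_mul_nonneg_left
    ((sum_nonneg fun _ _ => sq_nonneg _).trans hb) hX
  refine (h A B hA hB _ _ t ht T hT hTX (tii_mean (tii_sub _) A hT0 hTX ha)
    (tii_mean Subset.rfl B hT0 hTX hb)).trans ?_
  refine mul_le_mul_of_nonneg_right ?_ (sum_nonneg fun n _ => gk_nonneg _ _ _)
  have h1 : 0 ≤ t * a + b / t := by positivity
  have h2 : t * (9 * a) + 9 * b / t = 9 * (t * a + b / t) := by ring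
  rw [h2]
  linarith

/-- functions of the rough part are divisor sums -/
lemma tii_rep {y : ℝ} (hy : 0 < y) {K M : ℕ} (hM : (M : ℝ) ≤ y ^ K) {C : ℝ} (A : ℕ → ℝ)
    (hA : ∀ n ≤ M, |A n| ≤ C) (hinv : ∀ p : ℕ, p.Prime → (p : ℝ) ≤ y → ∀ n, A (p * n) = A n) :
    ∃ φ : ℕ → ℝ, (∀ j, |φ j| ≤ C * 2 ^ K) ∧ (∀ j, φ j ≠ 0 → LT.Rough y j) ∧
      ∀ n ∈ Icc 1 M, LT.Fd φ n = A n := by
  have hC : 0 ≤ C := (abs_nonneg _).trans (hA 0 (Nat.zero_le _))
  let A' : ArithmeticFunction ℝ := ⟨fun n => if n = 0 then 0 else A n, by simp⟩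
  let ψ : ArithmeticFunction ℝ := (ArithmeticFunction.moebius : ArithmeticFunction ℝ) * A'
  have h1 : ∀ n, n ≠ 0 → ∑ j ∈ n.divisors, ψ j = A n := by
    intro n hn
    rw [← ArithmeticFunction.coe_zeta_mul_apply, ← mul_assoc,
      ArithmeticFunction.coe_zeta_mul_coe_moebius, one_mul]
    exact if_neg hn
  have h2 : ∀ p : ℕ, p.Prime → (p : ℝ) ≤ y → ∀ j, p ∣ j → ψ j = 0 := by
    intro p hp hpy j
    induction j using Nat.strong_induction_on with
    | _ j ih =>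
      rintro ⟨m, rfl⟩
      rcases Nat.eq_zero_or_pos m with rfl | hm
      · simp
      have hpm : p * m ≠ 0 := mul_ne_zero hp.ne_zero hm.ne'
      have hsub : m.divisors ⊆ (p * m).divisors :=
        Nat.divisors_subset_of_dvd hpm (Dvd.intro_left p rfl)
      have h3 := sum_sdiff hsub (f := fun j => ψ j)
      rw [h1 _ hpm, h1 _ hm.ne', hinv p hp hpy m, add_eq_right, sum_eq_single (p * m)] at h3
      · exact h3
      · intro i hi hne
        obtain ⟨i1, i2⟩ := mem_sdiff.1 hi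
        have i3 := Nat.dvd_of_mem_divisors i1
        refine ih i (lt_of_le_of_ne (Nat.le_of_dvd (Nat.pos_of_ne_zero hpm) i3) hne) ?_
        by_contra i4
        exact i2 (Nat.mem_divisors.2
          ⟨((hp.coprime_iff_not_dvd.2 i4).symm).dvd_of_dvd_mul_left i3, hm.ne'⟩)
      · intro hi
        refine absurd (mem_sdiff.2 ⟨Nat.mem_divisors_self _ hpm, fun h => ?_⟩) hi
        have := Nat.le_of_dvd hm (Nat.dvd_of_mem_divisors h)
        have := hp.two_le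
        nlinarith
  have h3 : ∀ j, ψ j ≠ 0 → LT.Rough y j := fun j hj p hp hd => by
    by_contra h
    exact hj (h2 p hp (not_lt.1 h) j hd)
  refine ⟨fun j => if j ≤ M then ψ j else 0, fun j => ?_, fun j hj => h3 j fun h => hj ?_,
    fun n hn => ?_⟩
  · beta_reduce
    split_ifs with hj
    swap
    · rw [abs_zero]; positivity
    by_cases h0 : ψ j = 0
    · rw [h0, abs_zero]; positivity
    have h4 := LT.card_rough_divisors hy K j (le_trans (by exact_mod_cast hj) hM)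
    rw [filter_true_of_mem fun i hi => (h3 j h0).of_dvd (Nat.dvd_of_mem_divisors hi)] at h4
    rw [ArithmeticFunction.mul_apply, Nat.sum_divisorsAntidiagonal
      (fun a b => (ArithmeticFunction.moebius : ArithmeticFunction ℝ) a * A' b)]
    refine (abs_sum_le_sum_abs _ _).trans ((sum_le_card_nsmul _ _ C fun i _ => ?_).trans ?_)
    · have h5 : |(ArithmeticFunction.moebius : ArithmeticFunction ℝ) i| ≤ 1 := by
        rw [ArithmeticFunction.intCoe_apply]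
        exact_mod_cast ArithmeticFunction.abs_moebius_le_one
      have h6 : |A' (j / i)| ≤ C := by
        change |if j / i = 0 then 0 else A (j / i)| ≤ C
        split_ifs
        · rwa [abs_zero]
        · exact hA _ ((Nat.div_le_self _ _).trans hj)
      rw [abs_mul]
      exact (mul_le_of_le_one_left (abs_nonneg _) h5).trans h6
    · rw [nsmul_eq_mul, mul_comm]
      exact mul_le_mul_of_nonneg_left (by exact_mod_cast h4) hC
  · simp only [h, ite_self]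
  · obtain ⟨n1, n2⟩ := mem_Icc.1 hn
    rw [← h1 n (by omega), LT.Fd]
    exact sum_congr rfl fun j hj => if_pos ((Nat.divisor_le hj).trans n2)

/-- centred divisor sums have small mean square, uniformly -/
lemma tii_core {η : ℝ} (hη : 0 < η) {e : ℝ} (he : 0 < e) : ∃ h : ℝ, 1 ≤ h ∧
    ∀ᶠ N : ℕ in atTop, ∀ φ : ℕ → ℝ, (∀ j, |φ j| ≤ 1) →
      (∀ j, φ j ≠ 0 → LT.Rough ((N : ℝ) ^ η) j) → ∀ X : ℕ, N ≤ X → X ≤ 4 * N →
      MS (X / h) Set.univ (DP (Icc 1 X) fun n => ((LT.Fd φ n - LT.dl φ N : ℝ) : ℂ)) ≤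
        e * (X : ℝ) ^ 2 := by
  have hB := LT.one_le_BB η
  have hη' : 0 < min (η / 2) (1 / 10) := by positivity
  obtain ⟨β, hβ, hE⟩ := L2.exc_det hη' (min_le_right _ _) 1 1 (half_pos he)
  obtain ⟨h, hh, hC⟩ := core2 (ε := e / 2 / LT.BB η ^ 2) (by positivity) hβ
  refine ⟨h, hh, ?_⟩
  filter_upwards [eventually_scale (((hE 4).and (hC _ hη')).and (eventually_ge_atTop 1)) 1,
    eventually_ge_atTop 4] with N a1 a4 φ h1 hφ X s1 s2
  obtain ⟨⟨a1, a2⟩, X1⟩ := a1 X (by omega)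
  have hXN : X ≤ N * N := s2.trans (Nat.mul_le_mul_right N a4)
  have X0 : (1 : ℝ) ≤ X := by exact_mod_cast X1
  have h2 : (X : ℝ) ^ min (η / 2) (1 / 10) ≤ (N : ℝ) ^ η := by
    have h3 : (X : ℝ) ≤ (N : ℝ) ^ (2 : ℝ) := by
      rw [Real.rpow_two, sq]; exact_mod_cast hXN
    calc (X : ℝ) ^ min (η / 2) (1 / 10) ≤ (X : ℝ) ^ (η / 2) :=
          Real.rpow_le_rpow_of_exponent_le X0 (min_le_left _ _)
      _ ≤ ((N : ℝ) ^ (2 : ℝ)) ^ (η / 2) := Real.rpow_le_rpow (by linarith) h3 (by positivity)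
      _ = _ := by rw [← Real.rpow_mul (by positivity)]; congr 1; ring
  obtain ⟨U, u1, u2, u3⟩ := a2 (fun _ => 1) (fun n => ((LT.Gc η φ (LT.dl φ N) n : ℝ) : ℂ))
    (fun _ => by simp) (fun n => by rw [Complex.norm_real]; exact LT.abs_clamp_le _) (by
      intro p hp hpX m _
      rw [LT.Gc, LT.Gc, LT.Fd_mul hφ hp.pos (hpX.trans h2), one_mul])
  have a5 := a1 N (by omega) s2 φ h1 (fun j hj p hp hd => h2.trans_lt (hφ j hj p hp hd))
    (X / h) (by positivity) (div_le_self (by linarith) hh) U u1 u2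
  have hχ : ∀ m : ℕ, (1 : DirichletCharacter ℂ 1) m = 1 := fun m =>
    MulChar.one_apply (isUnit_of_subsingleton _)
  simp only [hχ, mul_one] at a5
  have tD := Trig.DP (Icc 1 X) fun n => ((LT.Fd φ n - LT.dl φ N : ℝ) : ℂ)
  have a6 := MS_le_of_le tD (Trig.DP (Icc 1 X)
      (fun n => ((LT.Gc η φ (LT.dl φ N) n : ℝ) : ℂ))) (X / h) u1.compl (c := LT.BB η)
    (fun u _ => by
      have e : DP (Icc 1 X) (fun n => ((LT.Fd φ n - LT.dl φ N : ℝ) : ℂ)) u =
          ((LT.BB η : ℝ) : ℂ) * DP (Icc 1 X) (fun n => ((LT.Gc η φ (LT.dl φ N) n : ℝ) : ℂ)) u := by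
        unfold DP
        rw [mul_sum]
        refine sum_congr rfl fun n hn => ?_
        beta_reduce
        rw [LT.Gc_eq hη h1 (by omega) hφ (LT.abs_dl_le' hη h1 (by omega) hφ)
          ((mem_Icc.1 hn).2.trans hXN), ← mul_assoc, ← Complex.ofReal_mul,
          mul_div_cancel₀ _ (by linarith)]
      rw [e, norm_mul, Complex.norm_real, Real.norm_of_nonneg (by linarith)])
  have a7 := MS_union_le tD (X / h) U Uᶜ
  rw [Set.union_compl_self] at a7
  have a8 : LT.BB η ^ 2 * (e / 2 / LT.BB η ^ 2 * (X : ℝ) ^ 2) = e / 2 * (X : ℝ) ^ 2 := by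
    field_simp
  have a9 := mul_le_mul_of_nonneg_left u3 (sq_nonneg (LT.BB η))
  change MS (X / h) U (DP (Icc 1 X) fun n => ((LT.Fd φ n - LT.dl φ N : ℝ) : ℂ)) ≤ _ at a5
  linarith

lemma tii_MS {η : ℝ} (hη : 0 < η) (C : ℝ) : ∃ D : ℝ, 0 ≤ D ∧ ∀ e : ℝ, 0 < e → ∃ h : ℝ, 1 ≤ h ∧
    ∀ᶠ X : ℕ in atTop, ∀ A : ℕ → ℝ, (∀ n ≤ 4 * X, |A n| ≤ C) →
      (∀ p : ℕ, p.Prime → (p : ℝ) ≤ (X : ℝ) ^ η → ∀ n, A (p * n) = A n) →
      ∃ d : ℝ, |d| ≤ D ∧ ∀ T : ℝ, 0 < T → T ≤ X / h →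
        MS T Set.univ (DP (Ioc X (2 * X)) fun n => ((A n - d : ℝ) : ℂ)) ≤ e * (X : ℝ) ^ 2 ∧
        MS T Set.univ (DP (Icc 1 (4 * X)) fun n => ((A n - d : ℝ) : ℂ)) ≤ e * (X : ℝ) ^ 2 := by
  have hB := LT.one_le_BB η
  set B₀ : ℝ := (|C| + 1) * 2 ^ ⌈2 / η⌉₊ with hB₀
  have hB0 : 0 < B₀ := by positivity
  refine ⟨B₀ * (2 * (LT.BB η / 3)), by positivity, fun e he => ?_⟩
  obtain ⟨h, hh, hc⟩ := tii_core hη (e := e / 16 / B₀ ^ 2) (by positivity)
  refine ⟨h, hh, ?_⟩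
  filter_upwards [hc, eventually_ge_atTop 4] with X hc hX A hA hinv
  have X0 : (4 : ℝ) ≤ X := by exact_mod_cast hX
  obtain ⟨φ, p1, p2, p3⟩ := tii_rep (y := (X : ℝ) ^ η) (by positivity) (K := ⌈2 / η⌉₊)
    (M := 4 * X) (C := |C| + 1)
    (le_trans (by push_cast; nlinarith) (LT.sq_le_pow hη (by omega))) A
    (fun n hn => (hA n hn).trans (by linarith [le_abs_self C])) hinv
  have q1 : ∀ j, |φ j / B₀| ≤ 1 := fun j => by
    rw [abs_div, abs_of_pos hB0, div_le_one hB0]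
    exact p1 j
  have q2 : ∀ j, φ j / B₀ ≠ 0 → LT.Rough ((X : ℝ) ^ η) j := fun j hj =>
    p2 j fun h => hj (by rw [h, zero_div])
  set δ := LT.dl (fun j => φ j / B₀) X with hδ
  refine ⟨B₀ * δ, ?_, fun T hT hTX => ?_⟩
  · rw [abs_mul, abs_of_pos hB0]
    exact mul_le_mul_of_nonneg_left (LT.abs_dl_le' hη q1 (by omega) q2) hB0.le
  have key : ∀ Y : ℕ, X ≤ Y → Y ≤ 4 * X →
      MS T Set.univ (DP (Icc 1 Y) fun n => ((A n - B₀ * δ : ℝ) : ℂ)) ≤ e / 16 * (Y : ℝ) ^ 2 := by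
    intro Y y1 y2
    have y3 : (X : ℝ) ≤ Y := by exact_mod_cast y1
    refine (tii_MS_mono (T' := Y / h) (Trig.DP _ _) hT (hTX.trans (by gcongr))).trans ?_
    refine (MS_le_of_le (Trig.DP _ _) (Trig.DP (Icc 1 Y)
      fun n => ((LT.Fd (fun j => φ j / B₀) n - δ : ℝ) : ℂ)) (Y / h) MeasurableSet.univ (c := B₀)
      fun u _ => ?_).trans ?_
    · have e : DP (Icc 1 Y) (fun n => ((A n - B₀ * δ : ℝ) : ℂ)) u = ((B₀ : ℝ) : ℂ) *
          DP (Icc 1 Y) (fun n => ((LT.Fd (fun j => φ j / B₀) n - δ : ℝ) : ℂ)) u := by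
        unfold DP
        rw [mul_sum]
        refine sum_congr rfl fun n hn => ?_
        beta_reduce
        rw [← mul_assoc, ← Complex.ofReal_mul, ← p3 n (Icc_subset_Icc_right y2 hn), LT.Fd, LT.Fd,
          ← sum_div, mul_sub, mul_div_cancel₀ _ hB0.ne']
      rw [e, norm_mul, Complex.norm_real, Real.norm_of_nonneg hB0.le]
    · refine (mul_le_mul_of_nonneg_left (hc _ q1 q2 Y y1 y2) (sq_nonneg _)).trans (le_of_eq ?_)
      field_simp
  have k1 := key X le_rfl (by omega)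
  have k2 := key (2 * X) (by omega) (by omega)
  have k4 := key (4 * X) (by omega) le_rfl
  refine ⟨?_, k4.trans (le_of_eq (by push_cast; ring))⟩
  have e1 : DP (Ioc X (2 * X)) (fun n => ((A n - B₀ * δ : ℝ) : ℂ)) = fun u =>
      DP (Icc 1 (2 * X)) (fun n => ((A n - B₀ * δ : ℝ) : ℂ)) u +
        -1 * DP (Icc 1 X) (fun n => ((A n - B₀ * δ : ℝ) : ℂ)) u := by
    funext u
    unfold DP
    rw [show Icc 1 (2 * X) = Ioc 0 (2 * X) from rfl, show Icc 1 X = Ioc 0 X from rfl,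
      ← sum_Ioc_consecutive _ (Nat.zero_le X) (by omega : X ≤ 2 * X)]
    ring
  have k5 := MS_le_of_le ((Trig.const (-1)).mul (Trig.DP (Icc 1 X)
    fun n => ((A n - B₀ * δ : ℝ) : ℂ))) (Trig.DP (Icc 1 X) fun n => ((A n - B₀ * δ : ℝ) : ℂ)) T
    MeasurableSet.univ (c := 1) fun u _ => by simp
  rw [e1]
  refine (MS_add_le (Trig.DP _ _) ((Trig.const (-1)).mul (Trig.DP _ _)) T _).trans ?_
  have : 0 ≤ e * (X : ℝ) ^ 2 := by positivity
  have k3 : e / 16 * ((2 * X : ℕ) : ℝ) ^ 2 = e * (X : ℝ) ^ 2 / 4 := by push_cast; ring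
  linarith

lemma tii_one {x : ℕ} (hX : 2 ≤ x.sqrt) {T : ℝ} (hT : 0 ≤ T) :
    |Bil x T (fun _ => 1) (fun _ => 1) - Gam x T * ∑ a ∈ Ioc x.sqrt (2 * x.sqrt), 1 / (a : ℝ)| ≤
      2 * x.sqrt := by
  set X := x.sqrt with hXdef
  have h1 : X * X ≤ x := Nat.sqrt_le x
  have h2 : x < (X + 1) * (X + 1) := Nat.lt_succ_sqrt x
  rw [Bil, mul_sum, ← sum_sub_distrib]
  refine (abs_sum_le_sum_abs _ _).trans ((sum_le_card_nsmul _ _ 2 fun a ha => ?_).trans ?_)
  · obtain ⟨a1, a2⟩ := mem_Ioc.1 ha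
    have h3 := sum_gk_mul x hT (q := a) (by omega)
    rw [← sum_subset (s₁ := Icc 1 (4 * X)) (Icc_subset_Icc_right (by nlinarith))] at h3
    · simpa only [one_mul, mul_one_div] using h3
    · intro b hb hb'
      by_contra h4
      have h5 := (gk_ne_zero h4).2
      have h6 : 4 * X < b := by
        by_contra h7
        exact hb' (mem_Icc.2 ⟨(mem_Icc.1 hb).1, not_lt.1 h7⟩)
      have h8 : (X + 1) * (4 * X + 1) ≤ a * b := Nat.mul_le_mul a1 h6
      nlinarith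
  · rw [Nat.card_Ioc, show 2 * X - X = X by omega, nsmul_eq_mul, mul_comm]

lemma tii_split (x : ℕ) (T : ℝ) (A B : ℕ → ℝ) (d d' : ℝ) :
    Bil x T A B = Bil x T (fun n => A n - d) B + d * Bil x T (fun _ => 1) (fun n => B n - d') +
      d * d' * Bil x T (fun _ => 1) (fun _ => 1) := by
  simp only [Bil, mul_sum, ← sum_add_distrib]
  exact sum_congr rfl fun a _ => sum_congr rfl fun b _ => by ring

/-- functions of the rough part: the normalised form does not depend on the length -/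
theorem typeII {η : ℝ} (hη : 0 < η) (C : ℝ) {ε : ℝ} (hε : 0 < ε) : ∃ h : ℝ, 1 ≤ h ∧
    ∀ᶠ x : ℕ in atTop, ∀ A B : ℕ → ℝ,
    (∀ n ≤ 4 * x.sqrt, |A n| ≤ C) → (∀ n ≤ 4 * x.sqrt, |B n| ≤ C) →
    (∀ p : ℕ, p.Prime → (p : ℝ) ≤ (x : ℝ) ^ η → ∀ n, A (p * n) = A n ∧ B (p * n) = B n) →
    ∀ T T' : ℝ, Real.log x ^ 2 ≤ T → T ≤ x.sqrt / h → Real.log x ^ 2 ≤ T' → T' ≤ x.sqrt / h →
    |Bil x T A B / Gam x T - Bil x T' A B / Gam x T'| ≤ ε := by
  obtain ⟨D, hD, hMS⟩ := tii_MS hη C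
  set E : ℝ := |C| + D + 1 with hE
  have hE1 : 1 ≤ E := by have := abs_nonneg C; linarith
  set δ : ℝ := ε / (2 * (1 + D + D ^ 2)) with hδ
  have hδ0 : 0 < δ := by positivity
  set t : ℝ := 432 * E ^ 2 / δ with ht
  have ht0 : 0 < t := by positivity
  obtain ⟨h₀, hh₀, hMS⟩ := hMS (δ / (12 * t)) (by positivity)
  have hl : Tendsto (fun x : ℕ => Real.log x) atTop atTop :=
    Real.tendsto_log_atTop.comp tendsto_natCast_atTop_atTop
  refine ⟨max h₀ (16 / δ), le_max_of_le_left hh₀, ?_⟩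
  filter_upwards [tii_sqrt.eventually hMS, tii_bil E, tii_sqrt.eventually_ge_atTop 2,
    hl.eventually_ge_atTop 1, (tendsto_natCast_atTop_atTop (R := ℝ)).eventually_ge_atTop (3 / δ)]
    with x hMS hbil hX hL hx A B hA hB hinv
  set X := x.sqrt with hXdef
  have hπ := Real.pi_gt_three
  have hX2 : (2 : ℝ) ≤ X := by exact_mod_cast hX
  have hXx : (X : ℝ) ^ 2 ≤ x := by exact_mod_cast Nat.sqrt_le' x
  have hx0 : (0 : ℝ) < x := by nlinarith
  have hp : (X : ℝ) ^ η ≤ (x : ℝ) ^ η := Real.rpow_le_rpow (by linarith) (by nlinarith) hη.le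
  obtain ⟨d, hd, mA⟩ := hMS A hA fun p h1 h2 n => (hinv p h1 (h2.trans hp) n).1
  obtain ⟨d', hd', mB⟩ := hMS B hB fun p h1 h2 n => (hinv p h1 (h2.trans hp) n).2
  have key : ∀ T : ℝ, Real.log x ^ 2 ≤ T → T ≤ X / max h₀ (16 / δ) →
      |Bil x T A B / Gam x T - d * d' * ∑ a ∈ Ioc X (2 * X), 1 / (a : ℝ)| ≤ ε / 2 := by
    intro T hT hTX
    have hT1 : 1 ≤ T := by nlinarith
    have hT0 : 0 < T := by linarith
    have hTX0 : T ≤ X / h₀ := hTX.trans (by gcongr; exact le_max_left _ _)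
    have hTX1 : T ≤ X := hTX0.trans (div_le_self (by linarith) hh₀)
    have hTX2 : 16 * T ≤ δ * X := by
      have h1 : T ≤ X / (16 / δ) := hTX.trans (by gcongr; exact le_max_right _ _)
      rw [div_div_eq_mul_div, le_div_iff₀ (by norm_num)] at h1
      linarith
    have hG := Gam_ge (x := x) hT1 (by nlinarith)
    have hG0 : 0 < Gam x T := lt_of_lt_of_le (by positivity) hG
    rw [div_le_iff₀ (by positivity)] at hG
    have hsq : ∀ F : ℕ → ℝ, (∀ n ≤ 4 * X, |F n| ≤ E) →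
        ∑ n ∈ Icc 1 (4 * X), F n ^ 2 ≤ 4 * E ^ 2 * X := by
      intro F hF
      refine (sum_le_card_nsmul _ _ (E ^ 2) fun n hn => ?_).trans (le_of_eq (by simp; ring))
      rw [← sq_abs]
      exact pow_le_pow_left₀ (abs_nonneg _) (hF n (mem_Icc.1 hn).2) 2
    have hpi : δ / (12 * t) * (X : ℝ) ^ 2 ≤ Real.pi * (δ / (12 * t)) * (X : ℝ) ^ 2 := by
      gcongr
      exact le_mul_of_one_le_left (by positivity) (by linarith)
    have b1 : ∀ n ≤ 4 * X, |A n - d| ≤ E := fun n hn => by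
      have := abs_sub (A n) d
      have := hA n hn
      linarith [le_abs_self C]
    have b2 : ∀ n ≤ 4 * X, |B n - d'| ≤ E := fun n hn => by
      have := abs_sub (B n) d'
      have := hB n hn
      linarith [le_abs_self C]
    have b3 : ∀ n ≤ 4 * X, |B n| ≤ E := fun n hn => by
      have := hB n hn
      linarith [le_abs_self C]
    have b4 : ∀ n ≤ 4 * X, |(1 : ℝ)| ≤ E := fun n hn => by rwa [abs_one]
    have c1 := hbil (fun n => A n - d) B b1 b3 _ _ t ht0 T hT hTX1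
      ((mA T hT0 hTX0).1.trans hpi) (tii_mean Subset.rfl B hT0 hTX1 (hsq B b3))
    have c2 := hbil (fun _ => 1) (fun n => B n - d') b4 b2 _ _ t⁻¹ (inv_pos.2 ht0) T hT hTX1
      (tii_mean (tii_sub _) (fun _ => 1) hT0 hTX1 (hsq _ b4)) ((mB T hT0 hTX0).2.trans hpi)
    have c3 := tii_one hX hT0.le
    have e1 : 4 * (t * (δ / (12 * t)) + 9 * (4 * E ^ 2) / t) = 2 * δ / 3 := by
      rw [ht]; field_simp; ring
    have e2 : 4 * (t⁻¹ * (9 * (4 * E ^ 2)) + δ / (12 * t) / t⁻¹) = 2 * δ / 3 := by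
      rw [← e1]; field_simp; ring
    have e3 : 1 / (x : ℝ) ≤ δ / 3 := by
      rw [div_le_iff₀ hδ0] at hx
      rw [div_le_iff₀ hx0]
      linarith
    rw [e1] at c1
    rw [e2] at c2
    replace c1 : |Bil x T (fun n => A n - d) B| ≤ δ * Gam x T :=
      c1.trans (mul_le_mul_of_nonneg_right (by linarith) hG0.le)
    replace c2 : |Bil x T (fun _ => 1) fun n => B n - d'| ≤ δ * Gam x T :=
      c2.trans (mul_le_mul_of_nonneg_right (by linarith) hG0.le)
    replace c3 := c3.trans (show 2 * (X : ℝ) ≤ δ * Gam x T by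
      refine le_of_mul_le_mul_right ?_ (show 0 < 8 * T by positivity)
      have h1 : δ * (X : ℝ) ^ 2 ≤ δ * (Gam x T * (8 * T)) := by gcongr; exact hXx.trans hG
      nlinarith)
    set S := ∑ a ∈ Ioc X (2 * X), 1 / (a : ℝ) with hS
    have e4 : Bil x T A B / Gam x T - d * d' * S = (Bil x T (fun n => A n - d) B +
        d * Bil x T (fun _ => 1) (fun n => B n - d') +
        d * d' * (Bil x T (fun _ => 1) (fun _ => 1) - Gam x T * S)) / Gam x T := by
      rw [tii_split x T A B d d']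
      field_simp
      ring
    rw [e4, abs_div, abs_of_pos hG0, div_le_iff₀ hG0]
    refine (abs_add_three _ _ _).trans ?_
    rw [abs_mul, abs_mul, abs_mul]
    calc _ ≤ δ * Gam x T + D * (δ * Gam x T) + D * D * (δ * Gam x T) := by gcongr
      _ = _ := by rw [hδ]; field_simp
  intro T T' h1 h2 h3 h4
  have k1 := key T h1 h2
  have k2 := key T' h3 h4
  rw [abs_le] at k1 k2 ⊢
  constructor <;> linarith [k1.1, k1.2, k2.1, k2.2]

end Pool.Agent.Work.MP_82fd4a_nt
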