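import Pool.Agent.Work.MP_82fd4a_nt.Setup
import Pool.Agent.Work.MP_82fd4a_nt.TypeII

/-! The sums over balanced factorisations are bilinear forms. -/

set_option autoImplicit false
open Filter Topology Finset

namespace Pool.Agent.Work.MP_82fd4a_nt

open Classical in
/-- number of indices `t` such that `n` is `r t` times a number with the property `U` -/
noncomputable def qbRep {ρ : Type} (U : ℕ → Prop) (R : Finset ρ) (r : ρ → ℕ) (n : ℕ) : ℝ :=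
  (#{t ∈ R | ∃ a, U a ∧ a * r t = n} : ℝ)

lemma qbRep_nonneg {ρ : Type} (U : ℕ → Prop) (R : Finset ρ) (r : ρ → ℕ) (n : ℕ) :
    0 ≤ qbRep U R r n := Nat.cast_nonneg _

lemma qbRep_congr {ρ : Type} {U U' : ℕ → Prop} {R : Finset ρ} {r : ρ → ℕ} {n n' : ℕ}
    (h : ∀ t ∈ R, (∃ a, U a ∧ a * r t = n) ↔ ∃ a, U' a ∧ a * r t = n') :
    qbRep U R r n = qbRep U' R r n' := by
  classical
  unfold qbRep
  rw [filter_congr h]

lemma qbRep_eq_zero {ρ : Type} {U : ℕ → Prop} {R : Finset ρ} {r : ρ → ℕ} {n : ℕ}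
    (h : ∀ t ∈ R, ¬ ∃ a, U a ∧ a * r t = n) : qbRep U R r n = 0 := by
  classical
  unfold qbRep
  rw [filter_eq_empty_iff.2 h, card_empty, Nat.cast_zero]

lemma qbRep_eq_sum {ρ : Type} (A : Finset ℕ) (R : Finset ρ) (r : ρ → ℕ) (hr : ∀ t ∈ R, 0 < r t)
    (n : ℕ) : qbRep (· ∈ A) R r n = ∑ a ∈ A, ∑ t ∈ R, if a * r t = n then (1 : ℝ) else 0 := by
  classical
  unfold qbRep
  rw [card_filter, sum_comm]
  push_cast
  refine sum_congr rfl fun t ht => ?_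
  split_ifs with h
  · obtain ⟨a, ha, hn⟩ := h
    rw [sum_eq_single_of_mem a ha, if_pos hn]
    intro b _ hb
    refine if_neg fun hb' => hb ?_
    exact Nat.eq_of_mul_eq_mul_right (hr t ht) (hb'.trans hn.symm)
  · exact (sum_eq_zero fun a ha => if_neg fun hn => h ⟨a, ha, hn⟩).symm

lemma qb_sum_rep {ρ : Type} (A : Finset ℕ) (R : Finset ρ) (r : ρ → ℕ) (hr : ∀ t ∈ R, 0 < r t)
    (S : Finset ℕ) (F : ℕ → ℝ) :
    ∑ n ∈ S, qbRep (· ∈ A) R r n * F n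
      = ∑ a ∈ A, ∑ t ∈ R, if a * r t ∈ S then F (a * r t) else 0 := by
  simp only [qbRep_eq_sum A R r hr, sum_mul]
  rw [sum_comm]
  refine sum_congr rfl fun a _ => ?_
  rw [sum_comm]
  refine sum_congr rfl fun t _ => ?_
  simp only [ite_mul, one_mul, zero_mul]
  rw [sum_ite_eq]

lemma qb_support {x : ℕ} (hx : 1 ≤ x) {T : ℝ} {m n : ℕ} (hm : x.sqrt < m)
    (hn : n ∉ Icc 1 (4 * x.sqrt)) : gk x T (m * n) = 0 := by
  by_contra h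
  obtain ⟨h1, h2⟩ := gk_ne_zero h
  refine hn (mem_Icc.2 ⟨?_, ?_⟩)
  · rcases Nat.eq_zero_or_pos n with rfl | h0
    · simp at h1
    · exact h0
  · have h3 : x < (x.sqrt + 1) * (x.sqrt + 1) := Nat.lt_succ_sqrt x
    have h4 : 1 ≤ x.sqrt := Nat.sqrt_pos.2 hx
    have h5 : (x.sqrt + 1) * n ≤ m * n := Nat.mul_le_mul_right n hm
    have h6 : (x.sqrt + 1) * n < (x.sqrt + 1) * (2 * (x.sqrt + 1)) := by nlinarith
    have h7 := Nat.lt_of_mul_lt_mul_left h6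
    omega

lemma qb_Bil {ρ σ : Type} {x : ℕ} (hx : 1 ≤ x) (T : ℝ) (A₁ A₂ : Finset ℕ) (R₁ : Finset ρ)
    (R₂ : Finset σ) (r₁ : ρ → ℕ) (r₂ : σ → ℕ) (h₁ : ∀ t ∈ R₁, 0 < r₁ t) (h₂ : ∀ t ∈ R₂, 0 < r₂ t) :
    Bil x T (qbRep (· ∈ A₁) R₁ r₁) (qbRep (· ∈ A₂) R₂ r₂)
      = ∑ a ∈ A₁, ∑ b ∈ A₂, ∑ t ∈ R₁, ∑ u ∈ R₂,
        if x.sqrt < a * r₁ t ∧ a * r₁ t ≤ 2 * x.sqrt then gk x T (a * r₁ t * (b * r₂ u)) else 0 := by
  unfold Bil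
  have e1 : ∀ m ∈ Ioc x.sqrt (2 * x.sqrt), ∑ n ∈ Icc 1 (4 * x.sqrt),
      qbRep (· ∈ A₁) R₁ r₁ m * qbRep (· ∈ A₂) R₂ r₂ n * gk x T (m * n)
      = qbRep (· ∈ A₁) R₁ r₁ m * ∑ b ∈ A₂, ∑ u ∈ R₂, gk x T (m * (b * r₂ u)) := by
    intro m hm
    simp only [mul_assoc]
    rw [← mul_sum, qb_sum_rep A₂ R₂ r₂ h₂]
    congr 1
    refine sum_congr rfl fun b _ => sum_congr rfl fun u _ => ?_
    split_ifs with h
    · rfl
    · exact (qb_support hx (mem_Ioc.1 hm).1 h).symm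
  rw [sum_congr rfl e1, qb_sum_rep A₁ R₁ r₁ h₁]
  refine sum_congr rfl fun a _ => ?_
  rw [sum_comm (s := A₂)]
  refine sum_congr rfl fun t _ => ?_
  simp only [mem_Ioc]
  split_ifs with h
  · rfl
  · simp

/-- tuples of steering primes on `I`, extended by one -/
noncomputable def qbTup (K J : ℕ) (Λ : ℝ) (I : Finset (Ix K J)) : Finset (Ix K J → ℕ) :=
  Fintype.piFinset fun i => if i ∈ I then stP K J Λ i else {1}

lemma qb_mem_tup {K J : ℕ} {Λ : ℝ} {I : Finset (Ix K J)} {π : Ix K J → ℕ} :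
    π ∈ qbTup K J Λ I ↔ ∀ i, (i ∈ I → π i ∈ stP K J Λ i) ∧ (i ∉ I → π i = 1) := by
  unfold qbTup
  rw [Fintype.mem_piFinset]
  refine forall_congr' fun i => ?_
  by_cases h : i ∈ I <;> simp [h]

lemma qb_sum_tup (K J : ℕ) (Λ : ℝ) (I : Finset (Ix K J)) (F : ℕ → ℕ → ℝ) :
    ∑ π ∈ tup K J Λ, F (∏ i ∈ I, π i) (∏ i ∈ Iᶜ, π i)
      = ∑ π ∈ qbTup K J Λ I, ∑ π' ∈ qbTup K J Λ Iᶜ, F (∏ i, π i) (∏ i, π' i) := by
  rw [← sum_product']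
  refine sum_nbij' (fun π => (fun i => if i ∈ I then π i else 1, fun i => if i ∈ Iᶜ then π i else 1))
    (fun q i => if i ∈ I then q.1 i else q.2 i) ?_ ?_ ?_ ?_ ?_
  · intro π hπ
    have h := mem_tup.1 hπ
    refine mem_product.2 ⟨qb_mem_tup.2 fun i => ⟨fun hi => ?_, fun hi => ?_⟩,
      qb_mem_tup.2 fun i => ⟨fun hi => ?_, fun hi => ?_⟩⟩
    · simpa [hi] using h i
    · simp [hi]
    · simpa only [if_pos hi] using h i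
    · simp only [if_neg hi]
  · intro q hq
    obtain ⟨h1, h2⟩ := mem_product.1 hq
    refine mem_tup.2 fun i => ?_
    by_cases hi : i ∈ I
    · simpa only [if_pos hi] using (qb_mem_tup.1 h1 i).1 hi
    · simpa only [if_neg hi] using (qb_mem_tup.1 h2 i).1 (mem_compl.2 hi)
  · intro π _
    funext i
    by_cases hi : i ∈ I <;> simp [hi]
  · intro q hq
    obtain ⟨h1, h2⟩ := mem_product.1 hq
    refine Prod.ext ?_ ?_
    · funext i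
      by_cases hi : i ∈ I
      · simp [hi]
      · simp [hi, (qb_mem_tup.1 h1 i).2 hi]
    · funext i
      by_cases hi : i ∈ I
      · simp [hi, (qb_mem_tup.1 h2 i).2 (by simpa using hi)]
      · simp [hi]
  · intro π _
    simp only [prod_ite_mem, univ_inter]

/-- the rough cofactor -/
def qbR {K J : ℕ} (t : (Ix K J → ℕ) × ℕ) : ℕ := (∏ i, t.1 i) * t.2

lemma qb_coord_rough {K J : ℕ} {Λ z : ℝ} (hz : 1 ≤ z) (hΛ : Real.log z ≤ Λ / 2)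
    {I : Finset (Ix K J)} {π : Ix K J → ℕ} (h : π ∈ qbTup K J Λ I) (i : Ix K J) :
    0 < π i ∧ Rough z (π i) := by
  by_cases hi : i ∈ I
  · have h1 := (qb_mem_tup.1 h i).1 hi
    have hp := prime_of_mem_stP h1
    have h0 : 0 ≤ Λ := by have := Real.log_nonneg hz; linarith
    have h2 := lt_log_of_mem_stP h0 h1
    refine ⟨hp.pos, fun p hp' hd => ?_⟩
    rw [(Nat.prime_dvd_prime_iff_eq hp' hp).1 hd]
    have h3 : (0 : ℝ) < π i := by exact_mod_cast hp.pos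
    exact (Real.log_lt_log_iff (by linarith) h3).1 (hΛ.trans_lt h2)
  · rw [(qb_mem_tup.1 h i).2 hi]
    exact ⟨one_pos, fun p hp hd => absurd (Nat.dvd_one.1 hd) hp.ne_one⟩

lemma qb_R_spec {K J : ℕ} {Λ z : ℝ} (hz : 1 ≤ z) (hΛ : Real.log z ≤ Λ / 2)
    {I : Finset (Ix K J)} {D : Finset ℕ} (hD : ∀ d ∈ D, 1 ≤ d ∧ Rough z d)
    {t : (Ix K J → ℕ) × ℕ} (ht : t ∈ qbTup K J Λ I ×ˢ D) : 0 < qbR t ∧ Rough z (qbR t) := by
  obtain ⟨h1, h2⟩ := mem_product.1 ht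
  refine ⟨Nat.mul_pos (prod_pos fun i _ => (qb_coord_rough hz hΛ h1 i).1) (hD _ h2).1,
    rough_mul.2 ⟨fun p hp hd => ?_, (hD _ h2).2⟩⟩
  obtain ⟨i, _, hi⟩ := (Prime.dvd_finsetProd_iff hp.prime _).1 hd
  exact (qb_coord_rough hz hΛ h1 i).2 p hp hi

lemma qb_QQ {x : ℕ} (hx : 1 ≤ x) (T : ℝ) {K J : ℕ} {Λ z : ℝ} (hz : 1 ≤ z)
    (hΛ : Real.log z ≤ Λ / 2) (A₁ A₂ : Finset ℕ) (I : Finset (Ix K J)) {D₁ D₂ : Finset ℕ}
    (h₁ : ∀ d ∈ D₁, 1 ≤ d ∧ Rough z d) (h₂ : ∀ d ∈ D₂, 1 ≤ d ∧ Rough z d) :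
    QQ x T K J Λ A₁ A₂ I D₁ D₂ = Bil x T (qbRep (· ∈ A₁) (qbTup K J Λ I ×ˢ D₁) qbR)
      (qbRep (· ∈ A₂) (qbTup K J Λ Iᶜ ×ˢ D₂) qbR) := by
  rw [qb_Bil hx T A₁ A₂ _ _ _ _ (fun t ht => (qb_R_spec hz hΛ h₁ ht).1)
    (fun t ht => (qb_R_spec hz hΛ h₂ ht).1)]
  unfold QQ
  refine sum_congr rfl fun a _ => sum_congr rfl fun b _ => ?_
  have e := qb_sum_tup K J Λ I fun P P' => ∑ d ∈ D₁, ∑ e ∈ D₂,
    if x.sqrt < a * P * d ∧ a * P * d ≤ 2 * x.sqrt then gk x T (a * b * (P * P') * (d * e)) else 0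
  simp only [prod_mul_prod_compl] at e
  rw [e, sum_product]
  refine sum_congr rfl fun π _ => ?_
  rw [sum_comm]
  refine sum_congr rfl fun d _ => ?_
  rw [sum_product]
  refine sum_congr rfl fun π' _ => sum_congr rfl fun e _ => ?_
  simp only [qbR, ← mul_assoc]
  congr 2
  ring

lemma qb_rep_le {K J : ℕ} {Λ z y : ℝ} (hy : 1 ≤ y) (hyz : y ≤ z) (hΛ : Real.log z ≤ Λ / 2)
    {U : ℕ → Prop} (hU : ∀ a, U a → a ≠ 0) (I : Finset (Ix K J)) {D : Finset ℕ}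
    (hD : ∀ d ∈ D, 1 ≤ d ∧ Rough z d) {k n : ℕ} (hn : (n : ℝ) ≤ y ^ k) :
    qbRep U (qbTup K J Λ I ×ˢ D) qbR n ≤ (2 ^ k) ^ (K + J + 1) := by
  classical
  have hz : 1 ≤ z := hy.trans hyz
  set R := n.divisors.filter (MP_51e72e_nt.LT.Rough y) with hR
  have hc : #R ≤ 2 ^ k := MP_51e72e_nt.LT.card_rough_divisors (by linarith) k n hn
  have hsub : {t ∈ qbTup K J Λ I ×ˢ D | ∃ a, U a ∧ a * qbR t = n}
      ⊆ (Fintype.piFinset fun _ : Ix K J => R) ×ˢ R := by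
    intro t ht
    obtain ⟨h1, a, ha, h2⟩ := mem_filter.1 ht
    have h3 := qb_R_spec hz hΛ hD h1
    have hn0 : n ≠ 0 := h2 ▸ mul_ne_zero (hU a ha) h3.1.ne'
    have key : ∀ m, m ∣ qbR t → m ∈ R := fun m hm =>
      mem_filter.2 ⟨Nat.mem_divisors.2 ⟨hm.trans (Dvd.intro_left a h2), hn0⟩,
        fun p hp hd => hyz.trans_lt (h3.2 p hp (hd.trans hm))⟩
    exact mem_product.2 ⟨Fintype.mem_piFinset.2 fun i =>
      key _ ((dvd_prod_of_mem _ (mem_univ i)).mul_right _), key _ (Dvd.intro_left _ rfl)⟩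
  have h := card_le_card hsub
  rw [card_product, Fintype.card_piFinset, prod_const, card_univ, Fintype.card_sum,
    Fintype.card_fin, Fintype.card_fin, ← pow_succ] at h
  unfold qbRep
  have h' := h.trans (Nat.pow_le_pow_left hc _)
  exact_mod_cast h'

lemma qb_rep_mul {ρ : Type} {z : ℝ} {U : ℕ → Prop} {R : Finset ρ} {r : ρ → ℕ}
    (hr : ∀ t ∈ R, Rough z (r t)) {p : ℕ} (hp : p.Prime) (hpz : (p : ℝ) ≤ z)
    (hU : ∀ s, U (p * s) ↔ U s) (n : ℕ) :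
    qbRep (fun a => Smooth z a ∧ U a) R r (p * n) = qbRep (fun a => Smooth z a ∧ U a) R r n := by
  refine qbRep_congr fun t ht => ?_
  have hs : Smooth z p := ⟨hp.ne_zero, fun q hq hd => by
    rw [(Nat.prime_dvd_prime_iff_eq hq hp).1 hd]; exact hpz⟩
  constructor
  · rintro ⟨a, ⟨h1, h2⟩, h3⟩
    have h4 : p ∣ a * r t := h3 ▸ Dvd.intro n rfl
    rcases (Nat.Prime.dvd_mul hp).1 h4 with h5 | h5
    · obtain ⟨c, rfl⟩ := h5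
      refine ⟨c, ⟨(smooth_mul.1 h1).2, (hU c).1 h2⟩, ?_⟩
      rw [mul_assoc] at h3
      exact Nat.eq_of_mul_eq_mul_left hp.pos h3
    · exact absurd (hr t ht p hp h5) (not_lt.2 hpz)
  · rintro ⟨a, ⟨h1, h2⟩, h3⟩
    exact ⟨p * a, ⟨smooth_mul.2 ⟨hs, h1⟩, (hU a).2 h2⟩, by rw [mul_assoc, h3]⟩

lemma qb_rep_Sm {ρ : Type} {x : ℕ} {z : ℝ} (U : ℕ → Prop) {R : Finset ρ} {r : ρ → ℕ}
    (hr : ∀ t ∈ R, 0 < r t) {n : ℕ} (hn : n ≤ 2 * x) :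
    qbRep (· ∈ Sm x z U) R r n = qbRep (fun a => Smooth z a ∧ U a) R r n := by
  refine qbRep_congr fun t ht => ?_
  classical
  unfold Sm
  constructor
  · rintro ⟨a, h1, h2⟩
    exact ⟨a, (mem_filter.1 h1).2, h2⟩
  · rintro ⟨a, h1, h2⟩
    refine ⟨a, mem_filter.2 ⟨mem_Icc.2 ⟨Nat.pos_of_ne_zero h1.1.1, ?_⟩, h1⟩, h2⟩
    exact (Nat.le_mul_of_pos_right a (hr t ht)).trans (h2.le.trans hn)

lemma qb_Bil_congr {x : ℕ} (T : ℝ) {A A' B B' : ℕ → ℝ} (hA : ∀ n ≤ 4 * x.sqrt, A n = A' n)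
    (hB : ∀ n ≤ 4 * x.sqrt, B n = B' n) : Bil x T A B = Bil x T A' B' := by
  unfold Bil
  refine sum_congr rfl fun a ha => sum_congr rfl fun b hb => ?_
  rw [hA a (by have := (mem_Ioc.1 ha).2; omega), hB b (mem_Icc.1 hb).2]

lemma qb_four_sqrt {x : ℕ} (hx : 16 ≤ x) : 4 * x.sqrt ≤ x := by
  have h1 : 4 ≤ x.sqrt := Nat.le_sqrt.2 hx
  exact (Nat.mul_le_mul_right _ h1).trans (Nat.sqrt_le x)

lemma qb_le_pow {η : ℝ} (hη : 0 < η) {x n : ℕ} (hx : 16 ≤ x) (hn : n ≤ 4 * x.sqrt) :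
    (n : ℝ) ≤ ((x : ℝ) ^ η) ^ ⌈1 / η⌉₊ := by
  have h1 : (1 : ℝ) ≤ x := by exact_mod_cast (by omega : 1 ≤ x)
  have h2 : (n : ℝ) ≤ x := by exact_mod_cast hn.trans (qb_four_sqrt hx)
  rw [← Real.rpow_natCast, ← Real.rpow_mul (by linarith)]
  refine h2.trans ?_
  have h3 : 1 ≤ η * (⌈1 / η⌉₊ : ℝ) := by
    have := Nat.le_ceil (1 / η)
    rw [div_le_iff₀ hη] at this
    linarith
  simpa using Real.rpow_le_rpow_of_exponent_le h1 h3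

theorem QQ_compare {η : ℝ} (hη : 0 < η) (K J : ℕ) {ε : ℝ} (hε : 0 < ε) : ∃ h : ℝ, 1 ≤ h ∧
    ∀ᶠ x : ℕ in atTop, ∀ (Λ z : ℝ) (U₁ U₂ : ℕ → Prop) (I : Finset (Ix K J)) (D₁ D₂ : Finset ℕ),
    (x : ℝ) ^ η ≤ z → Real.log z ≤ Λ / 2 → (∀ d ∈ D₁, 1 ≤ d ∧ Rough z d) →
    (∀ d ∈ D₂, 1 ≤ d ∧ Rough z d) →
    (∀ p : ℕ, p.Prime → (p : ℝ) ≤ (x : ℝ) ^ η → ∀ s, (U₁ (p * s) ↔ U₁ s) ∧ (U₂ (p * s) ↔ U₂ s)) →
    ∀ T T' : ℝ, Real.log x ^ 2 ≤ T → T ≤ x.sqrt / h → Real.log x ^ 2 ≤ T' → T' ≤ x.sqrt / h →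
    |QQ x T K J Λ (Sm x z U₁) (Sm x z U₂) I D₁ D₂ / Gam x T
      - QQ x T' K J Λ (Sm x z U₁) (Sm x z U₂) I D₁ D₂ / Gam x T'| ≤ ε := by
  obtain ⟨h, h1, H⟩ := typeII hη ((2 ^ ⌈1 / η⌉₊) ^ (K + J + 1)) hε
  refine ⟨h, h1, ?_⟩
  filter_upwards [H, eventually_ge_atTop 16] with x H hx
  intro Λ z U₁ U₂ I D₁ D₂ hz hΛ hD₁ hD₂ hU T T' t1 t2 t3 t4
  have hx1 : (1 : ℝ) ≤ x := by exact_mod_cast (by omega : 1 ≤ x)
  have hy : 1 ≤ (x : ℝ) ^ η := Real.one_le_rpow hx1 hη.le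
  have hz1 : 1 ≤ z := hy.trans hz
  have h4 := qb_four_sqrt hx
  have e : ∀ T : ℝ, QQ x T K J Λ (Sm x z U₁) (Sm x z U₂) I D₁ D₂ =
      Bil x T (qbRep (fun a => Smooth z a ∧ U₁ a) (qbTup K J Λ I ×ˢ D₁) qbR)
        (qbRep (fun a => Smooth z a ∧ U₂ a) (qbTup K J Λ Iᶜ ×ˢ D₂) qbR) := fun T => by
    rw [qb_QQ (by omega) T hz1 hΛ _ _ I hD₁ hD₂]
    exact qb_Bil_congr T
      (fun n hn => qb_rep_Sm U₁ (fun t ht => (qb_R_spec hz1 hΛ hD₁ ht).1) (by omega))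
      (fun n hn => qb_rep_Sm U₂ (fun t ht => (qb_R_spec hz1 hΛ hD₂ ht).1) (by omega))
  rw [e, e]
  refine H _ _ (fun n hn => ?_) (fun n hn => ?_) (fun p hp hpx n => ⟨?_, ?_⟩) T T' t1 t2 t3 t4
  · rw [abs_of_nonneg (qbRep_nonneg _ _ _ _)]
    exact qb_rep_le hy hz hΛ (fun a ha => ha.1.1) I hD₁ (qb_le_pow hη hx hn)
  · rw [abs_of_nonneg (qbRep_nonneg _ _ _ _)]
    exact qb_rep_le hy hz hΛ (fun a ha => ha.1.1) Iᶜ hD₂ (qb_le_pow hη hx hn)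
  · exact qb_rep_mul (fun t ht => (qb_R_spec hz1 hΛ hD₁ ht).2) hp (hpx.trans hz)
      (fun s => (hU p hp hpx s).1) n
  · exact qb_rep_mul (fun t ht => (qb_R_spec hz1 hΛ hD₂ ht).2) hp (hpx.trans hz)
      (fun s => (hU p hp hpx s).2) n

/-- large rough numbers up to `L` -/
lemma qb_card_rough {w V : ℝ} (hw : 1 < w) (hV : w ^ 5 ≤ V) (L : ℕ) :
    (#{r ∈ Ioc 0 L | Rough w r ∧ V ≤ (r : ℝ)} : ℝ) ≤ 2 * L / Real.log w := by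
  classical
  have hl : 0 < Real.log w := Real.log_pos hw
  rcases ({r ∈ Ioc 0 L | Rough w r ∧ V ≤ (r : ℝ)} : Finset ℕ).eq_empty_or_nonempty with h | ⟨r, hr⟩
  · rw [h, card_empty, Nat.cast_zero]; positivity
  · obtain ⟨h1, -, h2⟩ := mem_filter.1 hr
    have h3 : (r : ℝ) ≤ L := by exact_mod_cast (mem_Ioc.1 h1).2
    have h4 := MP_51e72e_nt.L2.card_rough_Ioc hw 0 L
    rw [zero_add] at h4
    have h5 : w ^ 4 ≤ L / Real.log w := by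
      rw [le_div_iff₀ hl]
      have h6 : Real.log w ≤ w := (Real.log_le_sub_one_of_pos (by linarith)).trans (by linarith)
      calc w ^ 4 * Real.log w ≤ w ^ 4 * w := by gcongr
        _ = w ^ 5 := by ring
        _ ≤ _ := by linarith
    refine le_trans (le_trans ?_ h4) ?_
    · exact Nat.cast_le.2 (card_le_card fun n hn =>
        mem_filter.2 ⟨(mem_filter.1 hn).1, (mem_filter.1 hn).2.1⟩)
    · rw [mul_div_assoc]; linarith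

lemma qb_sq_sparse {ρ : Type} {w V C : ℝ} (hw : 1 < w) (hV : w ^ 5 ≤ V) {A : Finset ℕ}
    (hA : ∀ a ∈ A, a ≠ 0) {R : Finset ρ} {r : ρ → ℕ} (hr : ∀ t ∈ R, Rough w (r t) ∧ V ≤ (r t : ℝ))
    (N : ℕ) (hC : ∀ n ≤ N, qbRep (· ∈ A) R r n ≤ C) :
    ∑ n ∈ Icc 1 N, qbRep (· ∈ A) R r n ^ 2
      ≤ C ^ 2 * (2 * N / Real.log w * ∑ a ∈ A, (a : ℝ)⁻¹) := by
  classical
  have hl : 0 < Real.log w := Real.log_pos hw
  have h1 : ∀ n ∈ Icc 1 N, qbRep (· ∈ A) R r n ^ 2 ≤ C ^ 2 * ∑ a ∈ A,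
      if ∃ m, (Rough w m ∧ V ≤ (m : ℝ)) ∧ a * m = n then (1 : ℝ) else 0 := by
    intro n hn
    by_cases h : ∃ t ∈ R, ∃ a ∈ A, a * r t = n
    · obtain ⟨t, ht, a, ha, e⟩ := h
      have h2 : (1 : ℝ) ≤ ∑ a ∈ A,
          if ∃ m, (Rough w m ∧ V ≤ (m : ℝ)) ∧ a * m = n then (1 : ℝ) else 0 := by
        refine le_trans ?_ (single_le_sum (f := fun a =>
          if ∃ m, (Rough w m ∧ V ≤ (m : ℝ)) ∧ a * m = n then (1 : ℝ) else 0)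
          (fun a _ => by positivity) ha)
        rw [if_pos ⟨r t, hr t ht, e⟩]
      calc _ ≤ C ^ 2 * 1 := by
            rw [mul_one]
            exact pow_le_pow_left₀ (qbRep_nonneg _ _ _ _) (hC n (mem_Icc.1 hn).2) 2
        _ ≤ _ := by gcongr
    · have h2 : qbRep (· ∈ A) R r n = 0 :=
        qbRep_eq_zero fun t ht ⟨a, ha, e⟩ => h ⟨t, ht, a, ha, e⟩
      rw [h2, zero_pow two_ne_zero]
      exact mul_nonneg (sq_nonneg C) (sum_nonneg fun a _ => by positivity)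
  refine (sum_le_sum h1).trans ?_
  rw [← mul_sum, sum_comm, mul_sum (s := A) (a := 2 * (N : ℝ) / Real.log w)]
  refine mul_le_mul_of_nonneg_left (sum_le_sum fun a ha => ?_) (sq_nonneg C)
  have ha0 : 0 < a := Nat.pos_of_ne_zero (hA a ha)
  have h3 : (#{n ∈ Icc 1 N | ∃ m, (Rough w m ∧ V ≤ (m : ℝ)) ∧ a * m = n} : ℝ)
      ≤ #{m ∈ Ioc 0 (N / a) | Rough w m ∧ V ≤ (m : ℝ)} := by
    refine Nat.cast_le.2 (le_trans (card_le_card ?_) (card_image_le (f := fun m => a * m)))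
    intro n hn
    obtain ⟨h4, m, h5, rfl⟩ := mem_filter.1 hn
    obtain ⟨h6, h7⟩ := mem_Icc.1 h4
    refine mem_image_of_mem _ (mem_filter.2 ⟨mem_Ioc.2 ⟨?_, ?_⟩, h5⟩)
    · exact Nat.pos_of_mul_pos_left h6
    · exact (Nat.le_div_iff_mul_le ha0).2 (by rwa [mul_comm])
  rw [sum_boole]
  refine h3.trans ((qb_card_rough hw hV _).trans ?_)
  have h8 : ((N / a : ℕ) : ℝ) ≤ N / a := Nat.cast_div_le
  calc 2 * ((N / a : ℕ) : ℝ) / Real.log w ≤ 2 * ((N : ℝ) / a) / Real.log w := by gcongr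
    _ = _ := by ring

lemma qb_sq_trivial {f : ℕ → ℝ} {C : ℝ} (N : ℕ) (h : ∀ n ≤ N, |f n| ≤ C) :
    ∑ n ∈ Icc 1 N, f n ^ 2 ≤ C ^ 2 * N := by
  have := sum_le_card_nsmul (Icc 1 N) (fun n => f n ^ 2) (C ^ 2) fun n hn => by
    rw [← sq_abs]
    exact pow_le_pow_left₀ (abs_nonneg _) (h n (mem_Icc.1 hn).2) 2
  simpa [mul_comm] using this

theorem QQ_sparse {η : ℝ} (hη : 0 < η) (K J : ℕ) {ε : ℝ} (hε : 0 < ε) : ∃ ε' : ℝ, 0 < ε' ∧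
    ∀ᶠ x : ℕ in atTop, ∀ (Λ z : ℝ) (A₁ A₂ : Finset ℕ) (I : Finset (Ix K J)) (D₁ D₂ : Finset ℕ),
    (x : ℝ) ^ η ≤ z → Real.log z ≤ Λ / 2 → D₁ ⊆ D0 x z → D₂ ⊆ D0 x z →
    (∀ s ∈ A₁, Smooth z s) → (∀ s ∈ A₂, Smooth z s) →
    (∑ s ∈ A₁, (s : ℝ)⁻¹ ≤ ε' * Real.log x ∨ ∑ s ∈ A₂, (s : ℝ)⁻¹ ≤ ε' * Real.log x) →
    ∀ T : ℝ, Real.log x ^ 2 ≤ T → T ≤ x.sqrt → QQ x T K J Λ A₁ A₂ I D₁ D₂ ≤ ε * Gam x T := by
  obtain ⟨C, hC⟩ : ∃ C : ℝ, C = (2 ^ ⌈1 / η⌉₊) ^ (K + J + 1) := ⟨_, rfl⟩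
  have hC0 : 0 < C := by rw [hC]; positivity
  obtain ⟨θ, hθ⟩ : ∃ θ : ℝ, θ = min η (1 / 100) := ⟨_, rfl⟩
  have hθ0 : 0 < θ := by rw [hθ]; positivity
  have hθ1 : θ ≤ η := hθ ▸ min_le_left _ _
  have hθ2 : θ ≤ 1 / 100 := hθ ▸ min_le_right _ _
  obtain ⟨t, ht⟩ : ∃ t : ℝ, t = 800 * C ^ 2 / ε := ⟨_, rfl⟩
  have ht0 : 0 < t := by rw [ht]; positivity
  refine ⟨ε / (200 * t) * θ / (8 * C ^ 2), by positivity, ?_⟩
  have hev : ∀ᶠ x : ℕ in atTop, 2 / ε ≤ (x : ℝ) :=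
    tendsto_natCast_atTop_atTop.eventually_ge_atTop _
  filter_upwards [bil_mean C, eventually_ge_atTop 16, hev] with x H hx hxε
  intro Λ z A₁ A₂ I D₁ D₂ hz hΛ hD₁ hD₂ hA₁ hA₂ hs T t1 t2
  have hx1 : (1 : ℝ) < x := by exact_mod_cast (by omega : 1 < x)
  have hy : 1 ≤ (x : ℝ) ^ η := Real.one_le_rpow hx1.le hη.le
  have hz1 : 1 ≤ z := hy.trans hz
  have hL : 0 < Real.log x := Real.log_pos hx1
  have hD : ∀ {D : Finset ℕ}, D ⊆ D0 x z → ∀ d ∈ D, 1 ≤ d ∧ Rough z d := fun hD d hd =>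
    ⟨(mem_Icc.1 (mem_filter.1 (hD hd)).1).1, (mem_filter.1 (hD hd)).2.1⟩
  have hb : ∀ {A : Finset ℕ} (I : Finset (Ix K J)) {D : Finset ℕ}, (∀ s ∈ A, Smooth z s) →
      D ⊆ D0 x z → ∀ n ≤ 4 * x.sqrt, |qbRep (· ∈ A) (qbTup K J Λ I ×ˢ D) qbR n| ≤ C := by
    intro A I D hA hD' n hn
    rw [abs_of_nonneg (qbRep_nonneg _ _ _ _), hC]
    exact qb_rep_le hy hz hΛ (fun a ha => (hA a ha).1) I (hD hD') (qb_le_pow hη hx hn)
  have htriv : ∀ {A : Finset ℕ} (I : Finset (Ix K J)) {D : Finset ℕ}, (∀ s ∈ A, Smooth z s) →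
      D ⊆ D0 x z → ∑ n ∈ Icc 1 (4 * x.sqrt), qbRep (· ∈ A) (qbTup K J Λ I ×ˢ D) qbR n ^ 2
        ≤ 4 * C ^ 2 * x.sqrt := by
    intro A I D hA hD'
    refine (qb_sq_trivial _ (hb I hA hD')).trans_eq ?_
    push_cast; ring
  have hsp : ∀ {A : Finset ℕ} (I : Finset (Ix K J)) {D : Finset ℕ}, (∀ s ∈ A, Smooth z s) →
      D ⊆ D0 x z → ∑ s ∈ A, (s : ℝ)⁻¹ ≤ ε / (200 * t) * θ / (8 * C ^ 2) * Real.log x →
      ∑ n ∈ Icc 1 (4 * x.sqrt), qbRep (· ∈ A) (qbTup K J Λ I ×ˢ D) qbR n ^ 2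
        ≤ ε / (200 * t) * x.sqrt := by
    intro A I D hA hD' hsum
    have hw : 1 < (x : ℝ) ^ θ := Real.one_lt_rpow hx1 hθ0
    have hwz : (x : ℝ) ^ θ ≤ z := (Real.rpow_le_rpow_of_exponent_le hx1.le hθ1).trans hz
    have hV : ((x : ℝ) ^ θ) ^ 5 ≤ (x : ℝ) ^ (3 / 10 : ℝ) := by
      rw [← Real.rpow_natCast, ← Real.rpow_mul (by linarith)]
      refine Real.rpow_le_rpow_of_exponent_le hx1.le ?_
      push_cast; linarith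
    refine (qb_sq_sparse (C := C) hw hV (fun a ha => (hA a ha).1) (fun u hu => ⟨?_, ?_⟩) _
      fun n hn => (le_abs_self _).trans (hb I hA hD' n hn)).trans ?_
    · exact fun p hp hd => hwz.trans_lt ((qb_R_spec hz1 hΛ (hD hD') hu).2 p hp hd)
    · obtain ⟨h1, h2⟩ := mem_product.1 hu
      refine (mem_filter.1 (hD' h2)).2.2.trans (Nat.cast_le.2 ?_)
      exact Nat.le_mul_of_pos_left _ (prod_pos fun i _ => (qb_coord_rough hz1 hΛ h1 i).1)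
    · rw [Real.log_rpow (by linarith)]
      calc _ ≤ C ^ 2 * (2 * ((4 * x.sqrt : ℕ) : ℝ) / (θ * Real.log x) *
            (ε / (200 * t) * θ / (8 * C ^ 2) * Real.log x)) := by gcongr
        _ = _ := by push_cast; field_simp; ring
  have hG : 0 ≤ Gam x T := sum_nonneg fun _ _ => gk_nonneg _ _ _
  have hx2 : 1 / (x : ℝ) ≤ ε / 2 := by
    rw [div_le_iff₀ hε] at hxε
    rw [div_le_div_iff₀ (by linarith) two_pos]
    linarith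
  have e1 : t * (ε / (200 * t)) = ε / 200 := by field_simp
  have e2 : 4 * C ^ 2 / t = ε / 200 := by rw [ht]; field_simp; ring
  rw [qb_QQ (by omega) T hz1 hΛ _ _ I (hD hD₁) (hD hD₂)]
  refine (le_abs_self _).trans ?_
  rcases hs with hs | hs
  · refine (H _ _ (hb I hA₁ hD₁) (hb Iᶜ hA₂ hD₂) _ _ t ht0 (hsp I hA₁ hD₁ hs) (htriv Iᶜ hA₂ hD₂)
      T t1 t2).trans (mul_le_mul_of_nonneg_right ?_ hG)
    rw [e1, e2]; linarith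
  · refine (H _ _ (hb I hA₁ hD₁) (hb Iᶜ hA₂ hD₂) _ _ t⁻¹ (inv_pos.2 ht0) (htriv I hA₁ hD₁)
      (hsp Iᶜ hA₂ hD₂ hs) T t1 t2).trans (mul_le_mul_of_nonneg_right ?_ hG)
    rw [div_inv_eq_mul, mul_comm _ t, e1, ← div_eq_inv_mul, e2]; linarith

end Pool.Agent.Work.MP_82fd4a_nt
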