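import Pool.Agent.Work.MP_82fd4a_nt.QRepA

/-! Replacing the divisor function by the number of divisors in a window. -/

set_option autoImplicit false
open Finset

namespace Pool.Agent.Work.MP_82fd4a_nt

lemma qr_prod_part {K J : ℕ} (i : Fin K) (j : ℕ) (π : Ix K J → ℕ) :
    ∏ t ∈ part J i j, π t = π (Sum.inl i) * ∏ t ∈ coarse K J j, π t := by
  unfold part
  rw [prod_insert]
  unfold coarse
  simp

/-- the window count -/
lemma qr_win (X s q c d : ℕ) (hc : 0 < c) (hd : 0 < d) (G : ℝ) :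
    ∑ a ∈ s.divisors, (if X < a * (q * c) * d ∧ a * (q * c) * d ≤ 2 * X then G else 0)
      = win s q ((X : ℝ) / ((d * c : ℕ) : ℝ)) * G := by
  unfold win
  rw [← sum_filter, sum_const, nsmul_eq_mul]
  congr 3
  refine filter_congr fun a _ => ?_
  have h0 : (0 : ℝ) < ((d * c : ℕ) : ℝ) := by exact_mod_cast Nat.mul_pos hd hc
  have h1 : (a : ℝ) * q * ((d * c : ℕ) : ℝ) = ((a * (q * c) * d : ℕ) : ℝ) := by
    push_cast
    ring
  rw [div_lt_iff₀ h0, ← mul_div_assoc, le_div_iff₀ h0, h1]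
  constructor
  · rintro ⟨h2, h3⟩
    exact ⟨by exact_mod_cast h2, by exact_mod_cast h3⟩
  · rintro ⟨h2, h3⟩
    exact ⟨by exact_mod_cast h2, by exact_mod_cast h3⟩

/-- the summand of the form `QQ` -/
noncomputable def qrF (x : ℕ) (T : ℝ) (K J : ℕ) (Λ : ℝ) (I : Finset (Ix K J))
    (D₁ D₂ : Finset ℕ) (a c : ℕ) : ℝ :=
  ∑ π ∈ tup K J Λ, ∑ d ∈ D₁, ∑ e ∈ D₂,
    if x.sqrt < a * (∏ i ∈ I, π i) * d ∧ a * (∏ i ∈ I, π i) * d ≤ 2 * x.sqrt then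
      gk x T (a * c * (∏ i, π i) * (d * e)) else 0

lemma qr_main {x K J : ℕ} {T Λ w b : ℝ} (i : Fin K) (j : ℕ) (σ σ' : Multiset ℕ) (s : ℕ) :
    ∑ a ∈ s.divisors, qrF x T K J Λ (part J i j) (Dt x w b σ) (Dt x w b σ') a (s / a)
      = ∑ π ∈ tup K J Λ, ∑ d ∈ Dt x w b σ, ∑ e ∈ Dt x w b σ',
        win s (π (Sum.inl i)) ((x.sqrt : ℝ) / ((d * ∏ t ∈ coarse K J j, π t : ℕ) : ℝ)) *
          gk x T (s * (∏ i, π i) * (d * e)) := by
  unfold qrF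
  rw [sum_comm]
  refine sum_congr rfl fun π hπ => ?_
  rw [sum_comm]
  refine sum_congr rfl fun d hd => ?_
  rw [sum_comm]
  refine sum_congr rfl fun e _ => ?_
  rw [← qr_win _ _ _ _ _ (prod_pos_of_mem_tup hπ _) (qr_mem_Dt.1 hd).1.1, qr_prod_part]
  refine sum_congr rfl fun a ha => ?_
  rw [Nat.mul_div_cancel' (Nat.dvd_of_mem_divisors ha)]

lemma qr_QQ_split {x K J : ℕ} {T Λ z w b : ℝ} (Typ Hi Lo : ℕ → Prop)
    (hmul : ∀ a c, Smooth z a → Smooth z c → ¬ Hi a → ¬ Lo a → ¬ Hi c → ¬ Lo c → Typ (a * c))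
    (i : Fin K) (j : ℕ) (σ σ' : Multiset ℕ) :
    |QQ x T K J Λ (Sm x z fun _ => True) (Sm x z fun _ => True) (part J i j)
        (Dt x w b σ) (Dt x w b σ')
      - ∑ s ∈ Sm x z Typ, ∑ π ∈ tup K J Λ, ∑ d ∈ Dt x w b σ, ∑ e ∈ Dt x w b σ',
        win s (π (Sum.inl i)) ((x.sqrt : ℝ) / ((d * ∏ t ∈ coarse K J j, π t : ℕ) : ℝ)) *
          gk x T (s * (∏ i, π i) * (d * e))|
      ≤ QQ x T K J Λ (Sm x z Hi) (Sm x z fun _ => True) (part J i j) (Dt x w b σ) (Dt x w b σ')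
        + QQ x T K J Λ (Sm x z fun _ => True) (Sm x z Hi) (part J i j) (Dt x w b σ) (Dt x w b σ')
        + QQ x T K J Λ (Sm x z Lo) (Sm x z fun _ => True) (part J i j) (Dt x w b σ) (Dt x w b σ')
        + QQ x T K J Λ (Sm x z fun _ => True) (Sm x z Lo) (part J i j) (Dt x w b σ)
            (Dt x w b σ') := by
  rw [← sum_congr rfl fun s _ => qr_main i j σ σ' s]
  refine qr_split Typ Hi Lo hmul (qrF x T K J Λ (part J i j) (Dt x w b σ) (Dt x w b σ')) ?_ ?_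
  · intro a c
    refine sum_nonneg fun _ _ => sum_nonneg fun _ _ => sum_nonneg fun _ _ => ?_
    split_ifs
    · exact gk_nonneg _ _ _
    · exact le_rfl
  · intro a c hac
    refine sum_eq_zero fun π hπ => sum_eq_zero fun d hd => sum_eq_zero fun e he => ?_
    split_ifs
    · have h1 : a * c * (∏ i, π i) * (d * e) = ((∏ i, π i) * (d * e)) * (a * c) := by ring
      rw [h1]
      exact qr_gk_zero T (Nat.mul_pos (prod_pos_of_mem_tup hπ _)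
        (Nat.mul_pos (qr_mem_Dt.1 hd).1.1 (qr_mem_Dt.1 he).1.1)) hac
    · rfl

/-- summing the error forms over the types -/
lemma qr_QQ_sum {x K J y y' : ℕ} {T Λ w b : ℝ} (𝒯 : Finset (Multiset ℕ)) (jj : Multiset ℕ → ℕ)
    (h𝒯 : ∀ τ ∈ 𝒯, Good y y' τ ∧ jj τ ≤ J ∧ Dt x w b (sel y y' τ) ⊆ D0 x w ∧
      Dt x w b (τ - sel y y' τ) ⊆ D0 x w) (i : Fin K) (A₁ A₂ : Finset ℕ) :
    ∑ τ ∈ 𝒯, QQ x T K J Λ A₁ A₂ (part J i (jj τ)) (Dt x w b (sel y y' τ))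
        (Dt x w b (τ - sel y y' τ))
      ≤ ∑ j ∈ range (J + 1), QQ x T K J Λ A₁ A₂ (part J i j) (D0 x w) (D0 x w) := by
  rw [← sum_fiberwise_of_maps_to (s := 𝒯) (t := range (J + 1)) (g := jj)
    (fun τ hτ => mem_range.2 (Nat.lt_succ_of_le (h𝒯 τ hτ).2.1))]
  refine sum_le_sum fun j _ => ?_
  have h1 : ∀ τ ∈ 𝒯.filter (fun τ => jj τ = j), QQ x T K J Λ A₁ A₂ (part J i (jj τ))
      (Dt x w b (sel y y' τ)) (Dt x w b (τ - sel y y' τ)) = QQ x T K J Λ A₁ A₂ (part J i j)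
      (Dt x w b (sel y y' τ)) (Dt x w b (τ - sel y y' τ)) := fun τ hτ => by
    rw [(mem_filter.1 hτ).2]
  rw [sum_congr rfl h1]
  unfold QQ
  rw [sum_comm]
  refine sum_le_sum fun a _ => ?_
  rw [sum_comm]
  refine sum_le_sum fun c _ => ?_
  rw [sum_comm]
  refine sum_le_sum fun π _ => ?_
  refine qr_disj _ (fun τ hτ => ?_) _ fun d e => ?_
  · have h := h𝒯 τ (mem_filter.1 hτ).1
    exact ⟨h.1, h.2.2⟩
  · split_ifs
    · exact gk_nonneg _ _ _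
    · exact le_rfl

/-- replacing the divisor function, for a fixed smooth part and fixed steering primes -/
lemma qr_point {x K k y y' : ℕ} {T w b E t : ℝ} (hE : 0 ≤ E) (𝒯 : Finset (Multiset ℕ))
    (h𝒯 : ∀ τ ∈ 𝒯, Good y y' τ ∧ τ.card ≤ k) {q : ℕ} (hq : 1 ≤ q)
    (hcov : ∀ n ∈ Icc 1 (2 * x), Rough w n → x < 2 * (q * n) → q * n ≤ 2 * x →
      Good y y' (ty b n) → ty b n ∈ 𝒯) (W : Fin K → Multiset ℕ → ℕ → ℝ)
    (hW : ∀ τ ∈ 𝒯, ∀ d ∈ Dt x w b (sel y y' τ), |∑ i, W i τ d - t| ≤ E) :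
    |t * ∑ n ∈ Icc 1 (2 * x), rf w n * Gd b y y' n * gk x T (q * n)
      - ∑ τ ∈ 𝒯, aco y y' τ * ∑ i, ∑ d ∈ Dt x w b (sel y y' τ),
          ∑ e ∈ Dt x w b (τ - sel y y' τ), W i τ d * gk x T (q * (d * e))|
      ≤ 4 ^ k * E * ∑ n ∈ Icc 1 (2 * x), rf w n * gk x T (q * n) := by
  rw [qr_Gd 𝒯 (fun τ hτ => (h𝒯 τ hτ).1) hq hcov, mul_sum, ← sum_sub_distrib]
  refine (abs_sum_le_sum_abs _ _).trans ?_
  have h1 : ∀ τ ∈ 𝒯, |t * (aco y y' τ * ∑ d ∈ Dt x w b (sel y y' τ),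
        ∑ e ∈ Dt x w b (τ - sel y y' τ), gk x T (q * (d * e)))
      - aco y y' τ * ∑ i, ∑ d ∈ Dt x w b (sel y y' τ),
          ∑ e ∈ Dt x w b (τ - sel y y' τ), W i τ d * gk x T (q * (d * e))|
      ≤ 2 ^ k * E * ∑ d ∈ Dt x w b (sel y y' τ),
        ∑ e ∈ Dt x w b (τ - sel y y' τ), gk x T (q * (d * e)) := by
    intro τ hτ
    have h2 : t * (aco y y' τ * ∑ d ∈ Dt x w b (sel y y' τ),
        ∑ e ∈ Dt x w b (τ - sel y y' τ), gk x T (q * (d * e)))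
      - aco y y' τ * ∑ i, ∑ d ∈ Dt x w b (sel y y' τ),
          ∑ e ∈ Dt x w b (τ - sel y y' τ), W i τ d * gk x T (q * (d * e))
        = -(aco y y' τ * ∑ d ∈ Dt x w b (sel y y' τ), (∑ i, W i τ d - t) *
          ∑ e ∈ Dt x w b (τ - sel y y' τ), gk x T (q * (d * e))) := by
      rw [sum_comm (s := univ)]
      simp only [← mul_sum, ← sum_mul, sub_mul, sum_sub_distrib]
      ring
    have h3 : |aco y y' τ| ≤ 2 ^ k :=
      (abs_aco_le y y' τ).trans (pow_le_pow_right₀ (by norm_num) (h𝒯 τ hτ).2)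
    have h4 : |∑ d ∈ Dt x w b (sel y y' τ), (∑ i, W i τ d - t) *
          ∑ e ∈ Dt x w b (τ - sel y y' τ), gk x T (q * (d * e))|
        ≤ E * ∑ d ∈ Dt x w b (sel y y' τ),
          ∑ e ∈ Dt x w b (τ - sel y y' τ), gk x T (q * (d * e)) := by
      rw [mul_sum]
      refine (abs_sum_le_sum_abs _ _).trans (sum_le_sum fun d hd => ?_)
      have h5 : 0 ≤ ∑ e ∈ Dt x w b (τ - sel y y' τ), gk x T (q * (d * e)) :=
        sum_nonneg fun _ _ => gk_nonneg _ _ _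
      rw [abs_mul, abs_of_nonneg h5]
      exact mul_le_mul_of_nonneg_right (hW τ hτ d hd) h5
    rw [h2, abs_neg, abs_mul, mul_assoc]
    exact mul_le_mul h3 h4 (abs_nonneg _) (by positivity)
  refine (sum_le_sum h1).trans ?_
  rw [← mul_sum]
  have h6 := qr_mass (x := x) (T := T) (w := w) (b := b) 𝒯 h𝒯 hq
  calc _ ≤ 2 ^ k * E * (2 ^ k * ∑ n ∈ Icc 1 (2 * x), rf w n * gk x T (q * n)) :=
        mul_le_mul_of_nonneg_left h6 (by positivity)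
    _ = _ := by
        rw [show (4 : ℝ) = 2 * 2 by norm_num, mul_pow]
        ring

theorem QQ_replace {x K J k y y' : ℕ} (hx : 1 ≤ x) {T Λ z w b κ : ℝ} (hκ : 0 ≤ κ)
    (Typ Hi Lo : ℕ → Prop) (err : ℕ → ℝ) (herr : ∀ s, 0 ≤ err s)
    (hmul : ∀ a c, Smooth z a → Smooth z c → ¬ Hi a → ¬ Lo a → ¬ Hi c → ¬ Lo c → Typ (a * c))
    (𝒯 : Finset (Multiset ℕ)) (jj : Multiset ℕ → ℕ)
    (h𝒯 : ∀ τ ∈ 𝒯, Good y y' τ ∧ τ.card ≤ k ∧ jj τ ≤ J ∧ Dt x w b (sel y y' τ) ⊆ D0 x w ∧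
      Dt x w b (τ - sel y y' τ) ⊆ D0 x w)
    (hcov : ∀ s ∈ Sm x z Typ, ∀ π ∈ tup K J Λ, ∀ n ∈ Icc 1 (2 * x), Rough w n →
      x < 2 * (s * (∏ i, π i) * n) → s * (∏ i, π i) * n ≤ 2 * x → Good y y' (ty b n) →
      ty b n ∈ 𝒯)
    (hequi : ∀ s ∈ Sm x z Typ, ∀ π ∈ tup K J Λ, ∀ τ ∈ 𝒯, ∀ d ∈ Dt x w b (sel y y' τ),
      |∑ i : Fin K, win s (π (Sum.inl i))
          ((x.sqrt : ℝ) / ((d * ∏ t ∈ coarse K J (jj τ), π t : ℕ) : ℝ)) - κ * tau s|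
        ≤ κ * tau s * err s) :
    |κ * SS x T K J Λ (Sm x z Typ) tau (fun n => rf w n * Gd b y y' n)
      - ∑ τ ∈ 𝒯, aco y y' τ * ∑ i : Fin K,
          QQ x T K J Λ (Sm x z fun _ => True) (Sm x z fun _ => True) (part J i (jj τ))
            (Dt x w b (sel y y' τ)) (Dt x w b (τ - sel y y' τ))|
      ≤ 4 ^ k * κ * SS x T K J Λ (Sm x z Typ) (fun s => tau s * err s) (rf w)
        + 2 ^ k * ∑ i : Fin K, ∑ j ∈ range (J + 1),
          (QQ x T K J Λ (Sm x z Hi) (Sm x z fun _ => True) (part J i j) (D0 x w) (D0 x w)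
          + QQ x T K J Λ (Sm x z fun _ => True) (Sm x z Hi) (part J i j) (D0 x w) (D0 x w)
          + QQ x T K J Λ (Sm x z Lo) (Sm x z fun _ => True) (part J i j) (D0 x w) (D0 x w)
          + QQ x T K J Λ (Sm x z fun _ => True) (Sm x z Lo) (part J i j) (D0 x w) (D0 x w)) := by
  have _ := hx
  let W : ℕ → (Ix K J → ℕ) → Fin K → Multiset ℕ → ℕ → ℝ := fun s π i τ d =>
    win s (π (Sum.inl i)) ((x.sqrt : ℝ) / ((d * ∏ t ∈ coarse K J (jj τ), π t : ℕ) : ℝ))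
  let M : ℕ → (Ix K J → ℕ) → Fin K → Multiset ℕ → ℝ := fun s π i τ =>
    ∑ d ∈ Dt x w b (sel y y' τ), ∑ e ∈ Dt x w b (τ - sel y y' τ),
      W s π i τ d * gk x T (s * (∏ i, π i) * (d * e))
  -- first part
  have hA : |κ * SS x T K J Λ (Sm x z Typ) tau (fun n => rf w n * Gd b y y' n)
      - ∑ τ ∈ 𝒯, aco y y' τ * ∑ i, ∑ s ∈ Sm x z Typ, ∑ π ∈ tup K J Λ, M s π i τ|
      ≤ 4 ^ k * κ * SS x T K J Λ (Sm x z Typ) (fun s => tau s * err s) (rf w) := by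
    have e1 : ∑ τ ∈ 𝒯, aco y y' τ * ∑ i, ∑ s ∈ Sm x z Typ, ∑ π ∈ tup K J Λ, M s π i τ
        = ∑ s ∈ Sm x z Typ, ∑ π ∈ tup K J Λ, ∑ τ ∈ 𝒯, aco y y' τ * ∑ i, M s π i τ := by
      have e2 : ∀ τ ∈ 𝒯, aco y y' τ * ∑ i, ∑ s ∈ Sm x z Typ, ∑ π ∈ tup K J Λ, M s π i τ
          = ∑ s ∈ Sm x z Typ, ∑ π ∈ tup K J Λ, aco y y' τ * ∑ i, M s π i τ := by
        intro τ _
        rw [sum_comm, mul_sum]
        refine sum_congr rfl fun s _ => ?_
        rw [sum_comm, mul_sum]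
      rw [sum_congr rfl e2, sum_comm]
      exact sum_congr rfl fun s _ => sum_comm
    rw [e1]
    unfold SS
    rw [mul_sum, mul_sum, ← sum_sub_distrib]
    refine (abs_sum_le_sum_abs _ _).trans (sum_le_sum fun s hs => ?_)
    rw [mul_sum, mul_sum, ← sum_sub_distrib]
    refine (abs_sum_le_sum_abs _ _).trans (sum_le_sum fun π hπ => ?_)
    have hq : 1 ≤ s * ∏ i, π i := Nat.mul_pos (qr_mem_Sm.1 hs).1.1 (prod_pos_of_mem_tup hπ _)
    have hE : 0 ≤ κ * tau s * err s := mul_nonneg (mul_nonneg hκ (tau_nonneg s)) (herr s)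
    have h := qr_point (T := T) (t := κ * tau s) hE 𝒯 (fun τ hτ => ⟨(h𝒯 τ hτ).1, (h𝒯 τ hτ).2.1⟩)
      hq (hcov s hs π hπ) (W s π) (hequi s hs π hπ)
    have e3 : κ * ∑ n ∈ Icc 1 (2 * x), tau s * (rf w n * Gd b y y' n) * gk x T (s * (∏ i, π i) * n)
        = κ * tau s * ∑ n ∈ Icc 1 (2 * x), rf w n * Gd b y y' n * gk x T (s * (∏ i, π i) * n) := by
      rw [mul_assoc, mul_sum (a := tau s)]
      congr 1
      exact sum_congr rfl fun n _ => by ring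
    have e4 : 4 ^ k * κ * ∑ n ∈ Icc 1 (2 * x), tau s * err s * rf w n * gk x T (s * (∏ i, π i) * n)
        = 4 ^ k * (κ * tau s * err s) *
          ∑ n ∈ Icc 1 (2 * x), rf w n * gk x T (s * (∏ i, π i) * n) := by
      rw [mul_sum, mul_sum]
      exact sum_congr rfl fun n _ => by ring
    beta_reduce
    rw [e3, e4]
    exact h
  -- second part
  have hB : |∑ τ ∈ 𝒯, aco y y' τ * ∑ i, ∑ s ∈ Sm x z Typ, ∑ π ∈ tup K J Λ, M s π i τ
      - ∑ τ ∈ 𝒯, aco y y' τ * ∑ i : Fin K,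
          QQ x T K J Λ (Sm x z fun _ => True) (Sm x z fun _ => True) (part J i (jj τ))
            (Dt x w b (sel y y' τ)) (Dt x w b (τ - sel y y' τ))|
      ≤ 2 ^ k * ∑ τ ∈ 𝒯, ∑ i : Fin K,
          (QQ x T K J Λ (Sm x z Hi) (Sm x z fun _ => True) (part J i (jj τ))
            (Dt x w b (sel y y' τ)) (Dt x w b (τ - sel y y' τ))
          + QQ x T K J Λ (Sm x z fun _ => True) (Sm x z Hi) (part J i (jj τ))
            (Dt x w b (sel y y' τ)) (Dt x w b (τ - sel y y' τ))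
          + QQ x T K J Λ (Sm x z Lo) (Sm x z fun _ => True) (part J i (jj τ))
            (Dt x w b (sel y y' τ)) (Dt x w b (τ - sel y y' τ))
          + QQ x T K J Λ (Sm x z fun _ => True) (Sm x z Lo) (part J i (jj τ))
            (Dt x w b (sel y y' τ)) (Dt x w b (τ - sel y y' τ))) := by
    rw [← sum_sub_distrib, mul_sum]
    refine (abs_sum_le_sum_abs _ _).trans (sum_le_sum fun τ hτ => ?_)
    rw [← mul_sub, abs_mul, ← sum_sub_distrib]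
    refine mul_le_mul ((abs_aco_le y y' τ).trans
      (pow_le_pow_right₀ (by norm_num) (h𝒯 τ hτ).2.1)) ?_ (abs_nonneg _) (by positivity)
    refine (abs_sum_le_sum_abs _ _).trans (sum_le_sum fun i _ => ?_)
    rw [abs_sub_comm]
    exact qr_QQ_split Typ Hi Lo hmul i (jj τ) _ _
  refine (abs_sub_le _ _ _).trans (add_le_add hA (hB.trans ?_))
  refine mul_le_mul_of_nonneg_left ?_ (by positivity)
  rw [sum_comm]
  refine sum_le_sum fun i _ => ?_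
  simp only [sum_add_distrib]
  have h𝒯' : ∀ τ ∈ 𝒯, Good y y' τ ∧ jj τ ≤ J ∧ Dt x w b (sel y y' τ) ⊆ D0 x w ∧
      Dt x w b (τ - sel y y' τ) ⊆ D0 x w := fun τ hτ => ⟨(h𝒯 τ hτ).1, (h𝒯 τ hτ).2.2⟩
  exact add_le_add (add_le_add (add_le_add (qr_QQ_sum 𝒯 jj h𝒯' i _ _) (qr_QQ_sum 𝒯 jj h𝒯' i _ _))
    (qr_QQ_sum 𝒯 jj h𝒯' i _ _)) (qr_QQ_sum 𝒯 jj h𝒯' i _ _)

end Pool.Agent.Work.MP_82fd4a_nt
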