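import Pool.Agent.Work.MP_82fd4a_nt.Setup
import Pool.Agent.Work.MP_82fd4a_nt.Kernel

/-! Upper bound for the sums over balanced factorisations in long intervals. -/

set_option autoImplicit false
open Filter Topology Finset

namespace Pool.Agent.Work.MP_82fd4a_nt

lemma qup_log : ∀ᶠ x : ℕ in atTop, 1 ≤ Real.log x ∧
    64 * Real.log x ^ 3 * (x : ℝ) ^ (1 / 25 : ℝ) ≤ (x : ℝ) ^ (3 / 10 : ℝ) := by
  have h1 : ∀ᶠ x : ℝ in atTop, 1 ≤ Real.log x := Real.tendsto_log_atTop.eventually_ge_atTop 1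
  have h2 := (isLittleO_log_rpow_rpow_atTop (s := 13 / 50) 3 (by norm_num)).bound
    (show (0 : ℝ) < 1 / 64 by norm_num)
  have h3 : ∀ᶠ x : ℝ in atTop, 1 ≤ Real.log x ∧
      64 * Real.log x ^ 3 * x ^ (1 / 25 : ℝ) ≤ x ^ (3 / 10 : ℝ) := by
    filter_upwards [h1, h2, eventually_gt_atTop 0] with x a b c
    refine ⟨a, ?_⟩
    have e : Real.log x ^ (3 : ℝ) = Real.log x ^ 3 := by
      rw [← Real.rpow_natCast]; norm_num
    rw [e, Real.norm_of_nonneg (by positivity), Real.norm_of_nonneg (by positivity)] at b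
    have e2 : x ^ (3 / 10 : ℝ) = x ^ (13 / 50 : ℝ) * x ^ (1 / 25 : ℝ) := by
      rw [← Real.rpow_add c]; norm_num
    rw [e2]
    exact mul_le_mul_of_nonneg_right (by linarith) (by positivity)
  exact tendsto_natCast_atTop_atTop.eventually h3

lemma qup_card {w : ℝ} (hw : 1 < w) (M L : ℕ) :
    (#{n ∈ Ioc M (M + L) | Rough w n} : ℝ) ≤ L / Real.log w + w ^ 4 := by
  convert MP_51e72e_nt.L2.card_rough_Ioc hw M L using 3
  ext n
  simp only [mem_filter]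
  rfl

lemma qup_mem {x : ℕ} {w : ℝ} {d : ℕ} :
    d ∈ D0 x w ↔ (1 ≤ d ∧ d ≤ 2 * x) ∧ Rough w d ∧ (x : ℝ) ^ (3 / 10 : ℝ) ≤ d := by
  rw [D0, mem_filter, mem_Icc]

/-- the sum of the reciprocals over a dyadic window -/
lemma qup_window {x : ℕ} {w : ℝ} (hw : 1 < w)
    (h : 2 * w ^ 4 * Real.log w ≤ (x : ℝ) ^ (3 / 10 : ℝ)) (X : ℕ) {u : ℕ} (hu : 0 < u) :
    ∑ d ∈ D0 x w, (if X < u * d ∧ u * d ≤ 2 * X then (d : ℝ)⁻¹ else 0) ≤ 2 / Real.log w := by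
  have hl := Real.log_pos hw
  rw [← sum_filter]
  rcases ((D0 x w).filter fun d => X < u * d ∧ u * d ≤ 2 * X).eq_empty_or_nonempty with h0 | h0
  · rw [h0, sum_empty]; positivity
  have hb : ∀ d ∈ (D0 x w).filter fun d => X < u * d ∧ u * d ≤ 2 * X,
      X / u < d ∧ d ≤ X / u + (X / u + 1) := by
    intro d hd
    obtain ⟨-, h1, h2⟩ := mem_filter.1 hd
    refine ⟨(Nat.div_lt_iff_lt_mul hu).2 (by rwa [mul_comm d]), ?_⟩
    have h3 : X < u * (X / u + 1) := Nat.lt_mul_div_succ X hu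
    have h4 : u * d < u * (2 * (X / u + 1)) := by nlinarith
    have := Nat.lt_of_mul_lt_mul_left h4
    omega
  obtain ⟨d0, hd0⟩ := h0
  have hA : (x : ℝ) ^ (3 / 10 : ℝ) ≤ 2 * ((X / u + 1 : ℕ) : ℝ) := by
    refine (qup_mem.1 (mem_filter.1 hd0).1).2.2.trans ?_
    have := (hb d0 hd0).2
    exact_mod_cast (by omega : d0 ≤ 2 * (X / u + 1))
  have hA0 : (0 : ℝ) < ((X / u + 1 : ℕ) : ℝ) := by positivity
  have hc := qup_card hw (X / u) (X / u + 1)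
  have hsub : ((D0 x w).filter fun d => X < u * d ∧ u * d ≤ 2 * X) ⊆
      {n ∈ Ioc (X / u) (X / u + (X / u + 1)) | Rough w n} := fun d hd =>
    mem_filter.2 ⟨mem_Ioc.2 (hb d hd), (qup_mem.1 (mem_filter.1 hd).1).2.1⟩
  have hb' : ∀ d ∈ (D0 x w).filter fun d => X < u * d ∧ u * d ≤ 2 * X, X / u + 1 ≤ d :=
    fun d hd => (hb d hd).1
  generalize (X / u + 1) = B at *
  calc ∑ d ∈ (D0 x w).filter fun d => X < u * d ∧ u * d ≤ 2 * X, (d : ℝ)⁻¹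
      ≤ ∑ d ∈ (D0 x w).filter fun d => X < u * d ∧ u * d ≤ 2 * X, (B : ℝ)⁻¹ :=
        sum_le_sum fun d hd => inv_anti₀ hA0 (by exact_mod_cast hb' d hd)
    _ = (#((D0 x w).filter fun d => X < u * d ∧ u * d ≤ 2 * X) : ℝ) * (B : ℝ)⁻¹ := by
        rw [sum_const, nsmul_eq_mul]
    _ ≤ (B / Real.log w + w ^ 4) * (B : ℝ)⁻¹ := by
        gcongr
        exact le_trans (by exact_mod_cast card_le_card hsub) hc
    _ = 1 / Real.log w + w ^ 4 / B := by field_simp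
    _ ≤ 1 / Real.log w + 1 / Real.log w := by
        have : w ^ 4 / B ≤ 1 / Real.log w := by
          rw [div_le_div_iff₀ hA0 hl]
          linarith
        linarith
    _ = 2 / Real.log w := by ring

/-- the inner sum -/
lemma qup_inner {x : ℕ} {T w : ℝ} (hT : 0 ≤ T) (hw : 1 < w) {q : ℕ} (hq : 0 < q)
    (h : (2 + 2 * w ^ 4 * Real.log w) * (2 * x) ≤ Gam x T * (x : ℝ) ^ (3 / 10 : ℝ))
    (hx : 0 < x) :
    ∑ e ∈ D0 x w, gk x T (q * e) ≤ 2 * Gam x T / (q * Real.log w) := by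
  have hl := Real.log_pos hw
  have hG : 0 ≤ Gam x T := sum_nonneg fun n _ => gk_nonneg _ _ _
  have hq0 : (0 : ℝ) < q := by exact_mod_cast hq
  have hx0 : (0 : ℝ) < x := by exact_mod_cast hx
  by_cases hc : (q : ℝ) * (x : ℝ) ^ (3 / 10 : ℝ) ≤ 2 * x
  · have h1 : ∑ e ∈ D0 x w, gk x T (q * e) ≤ ∑ n ∈ Icc 1 (2 * x), rf w n * gk x T (q * n) := by
      rw [D0, sum_filter]
      refine sum_le_sum fun n _ => ?_
      split_ifs with h2
      · rw [rf, if_pos h2.1, one_mul]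
      · exact mul_nonneg (rf_nonneg _ _) (gk_nonneg _ _ _)
    have h2 : 2 + 2 * w ^ 4 * Real.log w ≤ Gam x T / q := by
      rw [le_div_iff₀ hq0]
      have hp : (0 : ℝ) < (x : ℝ) ^ (3 / 10 : ℝ) := by positivity
      refine le_of_mul_le_mul_right ?_ hp
      calc (2 + 2 * w ^ 4 * Real.log w) * q * (x : ℝ) ^ (3 / 10 : ℝ)
          = (2 + 2 * w ^ 4 * Real.log w) * (q * (x : ℝ) ^ (3 / 10 : ℝ)) := by ring
        _ ≤ (2 + 2 * w ^ 4 * Real.log w) * (2 * x) := by gcongr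
        _ ≤ _ := h
    calc _ ≤ _ := h1
      _ ≤ (Gam x T / q + 2) / Real.log w + 2 * w ^ 4 := sum_rf_gk x hT hq hw
      _ = (Gam x T / q + (2 + 2 * w ^ 4 * Real.log w)) / Real.log w := by field_simp; ring
      _ ≤ (Gam x T / q + Gam x T / q) / Real.log w := by gcongr
      _ = _ := by field_simp; ring
  · rw [sum_eq_zero]
    · positivity
    intro e he
    by_contra h0
    have h1 : ((q * e : ℕ) : ℝ) ≤ ((2 * x : ℕ) : ℝ) := by exact_mod_cast (gk_ne_zero h0).2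
    push_cast at h1
    exact hc ((mul_le_mul_of_nonneg_left (qup_mem.1 he).2.2 hq0.le).trans h1)

theorem QQ_long {η : ℝ} (hη : 0 < η) (hη1 : η ≤ 1 / 100) : ∀ᶠ x : ℕ in atTop,
    ∀ (K J : ℕ) (Λ : ℝ) (A₁ A₂ : Finset ℕ) (I : Finset (Ix K J)), (∀ s ∈ A₁, 1 ≤ s) →
    (∀ s ∈ A₂, 1 ≤ s) →
    QQ x (Real.log x ^ 2) K J Λ A₁ A₂ I (D0 x ((x : ℝ) ^ η)) (D0 x ((x : ℝ) ^ η))
      ≤ 4 * (∑ s ∈ A₁, (s : ℝ)⁻¹) * (∑ s ∈ A₂, (s : ℝ)⁻¹) * Psi K J Λ *
        Gam x (Real.log x ^ 2) / (η * Real.log x) ^ 2 := by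
  filter_upwards [qup_log, eventually_gt_atTop 1] with x ⟨hL, hx⟩ hx1 K J Λ A₁ A₂ I h1 h2
  have hx1' : (1 : ℝ) < x := by exact_mod_cast hx1
  have hx0 : (0 : ℝ) < x := by linarith
  have hw : 1 < (x : ℝ) ^ η := Real.one_lt_rpow hx1' hη
  have hlw : Real.log ((x : ℝ) ^ η) = η * Real.log x := Real.log_rpow hx0 η
  have hw4 : ((x : ℝ) ^ η) ^ 4 ≤ (x : ℝ) ^ (1 / 25 : ℝ) := by
    rw [← Real.rpow_natCast, ← Real.rpow_mul hx0.le]
    exact Real.rpow_le_rpow_of_exponent_le hx1'.le (by push_cast; linarith)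
  have hp1 : 1 ≤ (x : ℝ) ^ (1 / 25 : ℝ) := Real.one_le_rpow hx1'.le (by norm_num)
  have hp2 : (x : ℝ) ^ (3 / 10 : ℝ) ≤ x := by
    conv_rhs => rw [← Real.rpow_one x]
    exact Real.rpow_le_rpow_of_exponent_le hx1'.le (by norm_num)
  obtain ⟨L, hLe⟩ : ∃ L, L = Real.log x := ⟨_, rfl⟩
  rw [← hLe] at hL hx hlw ⊢
  obtain ⟨P, hP⟩ : ∃ P, P = (x : ℝ) ^ (1 / 25 : ℝ) := ⟨_, rfl⟩
  rw [← hP] at hx hw4 hp1
  obtain ⟨w, hwe⟩ : ∃ w, w = (x : ℝ) ^ η := ⟨_, rfl⟩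
  rw [← hwe] at hw hlw hw4 ⊢
  have hL0 : 0 < L := by linarith
  have hL2 : 1 ≤ L ^ 2 := one_le_pow₀ hL
  have hL3 : L ^ 2 ≤ L ^ 3 := pow_le_pow_right₀ hL (by norm_num)
  have hlL : Real.log w ≤ L := by rw [hlw]; nlinarith
  have hl := Real.log_pos hw
  have hwL : w ^ 4 * Real.log w ≤ P * L := by gcongr
  have hLP : L ^ 3 ≤ L ^ 3 * P := le_mul_of_one_le_right (by positivity) hp1
  have hTx : L ^ 2 ≤ x := by linarith
  have hG := Gam_ge hL2 hTx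
  have hG0 : 0 ≤ Gam x (L ^ 2) := sum_nonneg fun n _ => gk_nonneg _ _ _
  have hPL : 1 ≤ P * L := one_le_mul_of_one_le_of_one_le hp1 hL
  have hPL3 : P * L ≤ L ^ 3 * P := by nlinarith
  have hA : 2 * w ^ 4 * Real.log w ≤ (x : ℝ) ^ (3 / 10 : ℝ) := by nlinarith
  have hB : (2 + 2 * w ^ 4 * Real.log w) * (2 * x) ≤ Gam x (L ^ 2) * (x : ℝ) ^ (3 / 10 : ℝ) := by
    calc (2 + 2 * w ^ 4 * Real.log w) * (2 * x) ≤ (4 * (P * L)) * (2 * x) := by
          gcongr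
          linarith
      _ = x / (8 * L ^ 2) * (64 * L ^ 3 * P) := by field_simp; ring
      _ ≤ _ := by gcongr
  have key : ∀ a ∈ A₁, ∀ b ∈ A₂, ∀ π ∈ tup K J Λ,
      (∑ d ∈ D0 x w, ∑ e ∈ D0 x w,
        if x.sqrt < a * (∏ i ∈ I, π i) * d ∧ a * (∏ i ∈ I, π i) * d ≤ 2 * x.sqrt then
          gk x (L ^ 2) (a * b * (∏ i, π i) * (d * e)) else 0) ≤
        (a : ℝ)⁻¹ * (b : ℝ)⁻¹ * ((∏ i, π i : ℕ) : ℝ)⁻¹ *
          (4 * Gam x (L ^ 2) / Real.log w ^ 2) := by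
    intro a ha b hb π hπ
    have ha0 : 0 < a := h1 a ha
    have hb0 : 0 < b := h2 b hb
    have hI := prod_pos_of_mem_tup hπ I
    have hU := prod_pos_of_mem_tup hπ univ
    have hW := qup_window hw hA x.sqrt (Nat.mul_pos ha0 hI)
    generalize ∏ i ∈ I, π i = u at *
    generalize ∏ i, π i = U at *
    have ha' : (0 : ℝ) < a := by exact_mod_cast ha0
    have hb' : (0 : ℝ) < b := by exact_mod_cast hb0
    have hU' : (0 : ℝ) < U := by exact_mod_cast hU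
    calc _ ≤ ∑ d ∈ D0 x w, (2 * Gam x (L ^ 2) / (a * b * U * Real.log w)) *
          (if x.sqrt < a * u * d ∧ a * u * d ≤ 2 * x.sqrt then (d : ℝ)⁻¹ else 0) := by
          refine sum_le_sum fun d hd => ?_
          have hd0 : 0 < d := (qup_mem.1 hd).1.1
          have hd' : (0 : ℝ) < d := by exact_mod_cast hd0
          split_ifs
          · have := qup_inner (by positivity : 0 ≤ L ^ 2) hw
              (show 0 < a * b * U * d by positivity) hB (by omega)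
            simp only [← mul_assoc]
            refine this.trans (le_of_eq ?_)
            push_cast
            field_simp
          · simp
      _ = (2 * Gam x (L ^ 2) / (a * b * U * Real.log w)) * ∑ d ∈ D0 x w,
          (if x.sqrt < a * u * d ∧ a * u * d ≤ 2 * x.sqrt then (d : ℝ)⁻¹ else 0) := by
          rw [mul_sum]
      _ ≤ (2 * Gam x (L ^ 2) / (a * b * U * Real.log w)) * (2 / Real.log w) := by gcongr
      _ = _ := by field_simp; ring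
  calc QQ x (L ^ 2) K J Λ A₁ A₂ I (D0 x w) (D0 x w)
      ≤ ∑ a ∈ A₁, ∑ b ∈ A₂, ∑ π ∈ tup K J Λ, (a : ℝ)⁻¹ * (b : ℝ)⁻¹ * ((∏ i, π i : ℕ) : ℝ)⁻¹ *
          (4 * Gam x (L ^ 2) / Real.log w ^ 2) :=
        sum_le_sum fun a ha => sum_le_sum fun b hb => sum_le_sum fun π hπ => key a ha b hb π hπ
    _ = (∑ s ∈ A₁, (s : ℝ)⁻¹) * (∑ s ∈ A₂, (s : ℝ)⁻¹) * Psi K J Λ *
          (4 * Gam x (L ^ 2) / Real.log w ^ 2) := by
        simp only [Psi, ← sum_mul, ← mul_sum]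
    _ = _ := by rw [hlw]; ring

end Pool.Agent.Work.MP_82fd4a_nt
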