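import Pool.Agent.Work.MP_82fd4a_nt.Kernel
import Pool.Agent.Work.MP_82fd4a_nt.Mert

/-! The prime number theorem against the localising weight. -/

set_option autoImplicit false
open Filter Topology Finset

namespace Pool.Agent.Work.MP_82fd4a_nt

theorem prime_gk' {ε : ℝ} (hε : 0 < ε) : ∀ᶠ x : ℕ in atTop, ∀ q : ℕ, 1 ≤ q →
    (q : ℝ) ≤ (x : ℝ) ^ (9 / 10 : ℝ) →
    |∑ n ∈ Icc 1 (2 * x), (if n.Prime then Real.log n else 0) * gk x (Real.log x ^ 2) (q * n)
      - Gam x (Real.log x ^ 2) / q| ≤ ε * (Gam x (Real.log x ^ 2) / q) := by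
  obtain ⟨Y₀, hY₀⟩ := eventually_atTop.1 ((mert_theta 3).and
    (Lib.ANT.PNTError.eventually_pow_log_le 1 one_pos 3))
  have ht : Tendsto (fun x : ℕ => (x : ℝ) ^ (1 / 10 : ℝ)) atTop atTop :=
    (tendsto_rpow_atTop (by norm_num)).comp tendsto_natCast_atTop_atTop
  filter_upwards [ht.eventually_ge_atTop (Y₀ : ℝ), ht.eventually_ge_atTop 1,
    Lib.ANT.PNTError.tendsto_log.eventually_ge_atTop 1,
    Lib.ANT.PNTError.tendsto_log.eventually_ge_atTop (96000 / ε),
    Lib.ANT.PNTError.eventually_pow_log_le 1 one_pos 2, eventually_ge_atTop 1]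
    with x h1 h2 hL hLε hT hx1 q hq hqx
  set L := Real.log x with hLdef
  set Y := 2 * x / q with hY
  have hx0 : (0 : ℝ) < x := by exact_mod_cast hx1
  have hq0 : (0 : ℝ) < q := by exact_mod_cast hq
  have hYle : (Y : ℝ) ≤ 2 * x / q := by
    have := Nat.cast_div_le (α := ℝ) (m := 2 * x) (n := q)
    push_cast at this; exact this
  have hxq : (x : ℝ) ^ (1 / 10 : ℝ) ≤ x / q := by
    rw [le_div_iff₀ hq0]
    calc _ ≤ (x : ℝ) ^ (1 / 10 : ℝ) * (x : ℝ) ^ (9 / 10 : ℝ) := by gcongr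
      _ = x := by rw [← Real.rpow_add hx0]; norm_num
  have hYge : (x : ℝ) ^ (1 / 10 : ℝ) ≤ Y := by
    have h := Nat.lt_floor_add_one (((2 * x : ℕ) : ℝ) / (q : ℕ))
    rw [Nat.floor_div_eq_div] at h
    push_cast at h
    have e : 2 * (x : ℝ) / q = 2 * (x / q) := by ring
    rw [← hY] at h
    linarith
  have hY0 : Y₀ ≤ Y := by exact_mod_cast h1.trans hYge
  obtain ⟨hD, hP⟩ := hY₀ Y hY0
  have hlogY : L / 10 ≤ Real.log Y := by
    have := Real.log_le_log (by positivity) hYge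
    rw [Real.log_rpow hx0] at this
    linarith
  have hL0 : 0 < L := by linarith
  have hlY : 0 < Real.log Y := by linarith
  have hT0 : 0 ≤ L ^ 2 := by positivity
  have hYn : (0 : ℝ) ≤ Y := Nat.cast_nonneg _
  have hE : 0 ≤ 2 * (Y / Real.log Y ^ 3) := by positivity
  have key : ∀ a b : ℕ, a ≤ b → q * b ≤ 2 * x →
      |∑ n ∈ Ioc a b, (mertL n - 1)| ≤ 2 * (Y / Real.log Y ^ 3) := by
    intro a b hab hb
    have hbY : b ≤ Y := by
      rw [hY, Nat.le_div_iff_mul_le hq, mul_comm]; exact hb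
    have d1 := hD b hbY
    have d2 := hD a (hab.trans hbY)
    rw [mertD_sub hab]
    rw [abs_le] at d1 d2 ⊢
    constructor <;> linarith [d1.1, d1.2, d2.1, d2.2]
  have up := abel_gk x hT0 hq (fun n => mertL n - 1) hE
    (fun a b hab hb => (le_abs_self _).trans (key a b hab hb))
  have dn := abel_gk x hT0 hq (fun n => -(mertL n - 1)) hE
    (fun a b hab hb => by rw [sum_neg_distrib]; exact (neg_le_abs _).trans (key a b hab hb))
  have hm := sum_gk_mul x hT0 hq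
  have e1 : ∑ n ∈ Icc 1 (2 * x), (if n.Prime then Real.log n else 0) * gk x (L ^ 2) (q * n) =
      ∑ n ∈ Icc 1 (2 * x), (mertL n - 1) * gk x (L ^ 2) (q * n) +
        ∑ n ∈ Icc 1 (2 * x), gk x (L ^ 2) (q * n) := by
    rw [← sum_add_distrib]
    refine sum_congr rfl fun n _ => ?_
    unfold mertL; ring
  have e2 : ∑ n ∈ Icc 1 (2 * x), -(mertL n - 1) * gk x (L ^ 2) (q * n) =
      -∑ n ∈ Icc 1 (2 * x), (mertL n - 1) * gk x (L ^ 2) (q * n) := by
    rw [← sum_neg_distrib]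
    refine sum_congr rfl fun n _ => ?_
    ring
  rw [e2] at dn
  have hG := Gam_ge (x := x) (T := L ^ 2) (by nlinarith) (by linarith)
  have f1 : 1 ≤ Y / Real.log Y ^ 3 := by rw [le_div_iff₀ (by positivity)]; exact hP
  have f2 : 6 * (Y / Real.log Y ^ 3) ≤ ε * (Gam x (L ^ 2) / q) := by
    have g1 : (L / 10) ^ 3 ≤ Real.log Y ^ 3 := by gcongr
    have g2 : 96000 ≤ ε * L := by rw [div_le_iff₀ hε] at hLε; linarith
    calc _ ≤ 6 * ((2 * x / q) / (L / 10) ^ 3) := by gcongr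
      _ = 96000 / L * ((x / (8 * L ^ 2)) / q) := by field_simp; ring
      _ ≤ ε * (Gam x (L ^ 2) / q) := by
        gcongr
        rw [div_le_iff₀ hL0]; exact g2
  rw [e1]
  rw [abs_le] at hm ⊢
  constructor <;> linarith [hm.1, hm.2]

end Pool.Agent.Work.MP_82fd4a_nt
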