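import Pool.Agent.Work.MP_82fd4a_nt.Kernel
import Pool.Agent.Work.MP_82fd4a_nt.PrimeGk

/-! Primes outweigh products of three primes in long intervals. -/

set_option autoImplicit false
open Filter Topology Finset

namespace Pool.Agent.Work.MP_82fd4a_nt

theorem prime_gk {ε : ℝ} (hε : 0 < ε) : ∀ᶠ x : ℕ in atTop, ∀ q : ℕ, 1 ≤ q →
    (q : ℝ) ≤ (x : ℝ) ^ (9 / 10 : ℝ) →
    |∑ n ∈ Icc 1 (2 * x), (if n.Prime then Real.log n else 0) * gk x (Real.log x ^ 2) (q * n)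
      - Gam x (Real.log x ^ 2) / q| ≤ ε * (Gam x (Real.log x ^ 2) / q) :=
  prime_gk' hε

lemma plow_six (x n : ℕ) :
    6 * (if Tri x n then (1 : ℝ) else 0) ≤
      (((Pr (Real.log x / 6) (Real.log x / 3) ×ˢ Pr (Real.log x / 6) (Real.log x / 3) ×ˢ
        Pr (Real.log x / 6) (Real.log x / 3)).filter
          fun t : ℕ × ℕ × ℕ => t.1 * t.2.1 * t.2.2 = n).card : ℝ) := by
  split_ifs with h
  · obtain ⟨p, q, r, hpq, hpr, hqr, rfl, hp, hq, hr⟩ := h
    have hsub : ({(p, q, r), (p, r, q), (q, p, r), (q, r, p), (r, p, q), (r, q, p)} :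
        Finset (ℕ × ℕ × ℕ)) ⊆
        (Pr (Real.log x / 6) (Real.log x / 3) ×ˢ Pr (Real.log x / 6) (Real.log x / 3) ×ˢ
          Pr (Real.log x / 6) (Real.log x / 3)).filter
            fun t : ℕ × ℕ × ℕ => t.1 * t.2.1 * t.2.2 = p * q * r := by
      intro t ht
      simp only [mem_insert, mem_singleton] at ht
      rw [mem_filter, mem_product, mem_product]
      rcases ht with rfl | rfl | rfl | rfl | rfl | rfl
      · exact ⟨⟨hp, hq, hr⟩, rfl⟩
      · exact ⟨⟨hp, hr, hq⟩, by ring⟩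
      · exact ⟨⟨hq, hp, hr⟩, by ring⟩
      · exact ⟨⟨hq, hr, hp⟩, by ring⟩
      · exact ⟨⟨hr, hp, hq⟩, by ring⟩
      · exact ⟨⟨hr, hq, hp⟩, by ring⟩
    have hc : ({(p, q, r), (p, r, q), (q, p, r), (q, r, p), (r, p, q), (r, q, p)} :
        Finset (ℕ × ℕ × ℕ)).card = 6 := by
      have h1 := hpq.symm
      have h2 := hpr.symm
      have h3 := hqr.symm
      rw [card_insert_of_notMem (by simp [*]), card_insert_of_notMem (by simp [*]),
        card_insert_of_notMem (by simp [*]), card_insert_of_notMem (by simp [*]),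
        card_insert_of_notMem (by simp [*]), card_singleton]
    have := card_le_card hsub
    rw [hc] at this
    rw [mul_one]
    exact_mod_cast this
  · rw [mul_zero]
    exact Nat.cast_nonneg _

lemma plow_triple (x m : ℕ) (T : ℝ) :
    6 * ∑ n ∈ Icc 1 (2 * x), (if Tri x n then (1 : ℝ) else 0) * gk x T (m * n) ≤
      ∑ p ∈ Pr (Real.log x / 6) (Real.log x / 3), ∑ q ∈ Pr (Real.log x / 6) (Real.log x / 3),
        ∑ r ∈ Pr (Real.log x / 6) (Real.log x / 3), gk x T (m * p * q * r) := by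
  set P := Pr (Real.log x / 6) (Real.log x / 3) with hP
  have h1 : ∑ p ∈ P, ∑ q ∈ P, ∑ r ∈ P, gk x T (m * p * q * r) =
      ∑ t ∈ P ×ˢ P ×ˢ P, gk x T (m * (t.1 * t.2.1 * t.2.2)) := by
    rw [sum_product]
    refine sum_congr rfl fun p _ => ?_
    rw [sum_product]
    refine sum_congr rfl fun q _ => sum_congr rfl fun r _ => ?_
    congr 1
    ring
  rw [h1, mul_sum]
  refine le_trans (sum_le_sum fun n _ => ?_)
    (sum_fiberwise_le_sum_of_sum_fiber_nonneg (t := Icc 1 (2 * x))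
      (g := fun t : ℕ × ℕ × ℕ => t.1 * t.2.1 * t.2.2)
      fun y _ => sum_nonneg fun t _ => gk_nonneg _ _ _)
  rw [sum_congr rfl (g := fun _ => gk x T (m * n)) fun t ht => by rw [(mem_filter.1 ht).2],
    sum_const, nsmul_eq_mul, ← mul_assoc]
  exact mul_le_mul_of_nonneg_right (plow_six x n) (gk_nonneg _ _ _)

lemma plow_le_rpow {x p : ℕ} (hx : 1 ≤ x) (hp : p ∈ Pr (Real.log x / 6) (Real.log x / 3)) :
    (p : ℝ) ≤ (x : ℝ) ^ (1 / 3 : ℝ) := by
  obtain ⟨h1, -, h3⟩ := mem_Pr.1 hp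
  have h0 : (0 : ℝ) < p := by exact_mod_cast h1.pos
  have hx0 : (0 : ℝ) < x := by exact_mod_cast hx
  rw [Real.log_le_iff_le_exp h0] at h3
  rw [Real.rpow_def_of_pos hx0]
  convert h3 using 2
  ring

lemma plow_inner {x q : ℕ} (hx : 1 ≤ x) (T : ℝ) :
    Real.log x / 6 * ∑ r ∈ Pr (Real.log x / 6) (Real.log x / 3), gk x T (q * r) ≤
      ∑ n ∈ Icc 1 (2 * x), (if n.Prime then Real.log n else 0) * gk x T (q * n) := by
  have hx1 : (1 : ℝ) ≤ x := by exact_mod_cast hx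
  have hsub : Pr (Real.log x / 6) (Real.log x / 3) ⊆ Icc 1 (2 * x) := by
    intro p hp
    have h1 := plow_le_rpow hx hp
    have h2 : (x : ℝ) ^ (1 / 3 : ℝ) ≤ (x : ℝ) ^ (1 : ℝ) :=
      Real.rpow_le_rpow_of_exponent_le hx1 (by norm_num)
    rw [Real.rpow_one] at h2
    have h3 : p ≤ x := by exact_mod_cast h1.trans h2
    exact mem_Icc.2 ⟨(mem_Pr.1 hp).1.pos, by omega⟩
  refine le_trans ?_ (sum_le_sum_of_subset_of_nonneg hsub fun n _ _ => ?_)
  · rw [mul_sum]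
    refine sum_le_sum fun r hr => ?_
    obtain ⟨h1, h2, -⟩ := mem_Pr.1 hr
    rw [if_pos h1]
    exact mul_le_mul_of_nonneg_right h2.le (gk_nonneg _ _ _)
  · refine mul_nonneg ?_ (gk_nonneg _ _ _)
    split_ifs
    · exact Real.log_natCast_nonneg n
    · exact le_rfl

lemma plow_primes {x m : ℕ} (hx : 1 ≤ x) (hm : (x : ℝ) ^ (1 / 6 : ℝ) ≤ m) (T : ℝ) :
    ∑ n ∈ Icc 1 (2 * x), (if n.Prime then Real.log n else 0) * gk x T (m * n) ≤
      (5 / 6 * Real.log x + 1) *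
        ∑ n ∈ Icc 1 (2 * x), (if n.Prime then (1 : ℝ) else 0) * gk x T (m * n) := by
  have hx0 : (0 : ℝ) < x := by exact_mod_cast hx
  rw [mul_sum]
  refine sum_le_sum fun n _ => ?_
  split_ifs with hn
  · by_cases hg : gk x T (m * n) = 0
    · rw [hg]; simp
    · rw [one_mul]
      refine mul_le_mul_of_nonneg_right ?_ (gk_nonneg _ _ _)
      have h1 : ((m * n : ℕ) : ℝ) ≤ ((2 * x : ℕ) : ℝ) := by exact_mod_cast (gk_ne_zero hg).2
      have hn0 : (0 : ℝ) < n := by exact_mod_cast hn.pos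
      have hr : 0 < (x : ℝ) ^ (1 / 6 : ℝ) := Real.rpow_pos_of_pos hx0 _
      have h2 : (x : ℝ) ^ (1 / 6 : ℝ) * n ≤ 2 * x := by
        push_cast at h1
        exact (mul_le_mul_of_nonneg_right hm hn0.le).trans h1
      have h3 := Real.log_le_log (mul_pos hr hn0) h2
      rw [Real.log_mul hr.ne' hn0.ne', Real.log_mul two_ne_zero hx0.ne', Real.log_rpow hx0] at h3
      have h4 := Real.log_two_lt_d9
      linarith
  · simp

theorem prime_lower : ∀ᶠ x : ℕ in atTop, ∀ m : ℕ, (x : ℝ) ^ (1 / 6 : ℝ) ≤ m →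
    (m : ℝ) ≤ (x : ℝ) ^ (9 / 40 : ℝ) →
    Gam x (Real.log x ^ 2) / (10 * m * Real.log x) ≤ ∑ n ∈ Icc 1 (2 * x),
      ((if n.Prime then 1 else 0) - 2 * if Tri x n then 1 else 0) *
        gk x (Real.log x ^ 2) (m * n) := by
  have hlog : Tendsto (fun x : ℕ => Real.log x) atTop atTop :=
    Real.tendsto_log_atTop.comp tendsto_natCast_atTop_atTop
  have hlo : Tendsto (fun x : ℕ => Real.log x / 6) atTop atTop :=
    hlog.atTop_div_const (by norm_num)
  filter_upwards [prime_gk (ε := 1 / 100) (by norm_num), hlo.eventually (mertens_pnt 1),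
    hlog.eventually_ge_atTop 600, eventually_ge_atTop 1] with x hpg hme hL hx m hm1 hm2
  have hx1 : (1 : ℝ) ≤ x := by exact_mod_cast hx
  have hx0 : (0 : ℝ) < x := by linarith
  have hm0 : (1 : ℝ) ≤ m := (Real.one_le_rpow hx1 (by norm_num)).trans hm1
  have hmn : 1 ≤ m := by exact_mod_cast hm0
  have hG : 0 ≤ Gam x (Real.log x ^ 2) := sum_nonneg fun n _ => gk_nonneg _ _ _
  have hA := plow_primes hx hm1 (Real.log x ^ 2)
  have hB := plow_triple x m (Real.log x ^ 2)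
  have hA2 := (abs_le.1 (hpg m hmn
    (hm2.trans (Real.rpow_le_rpow_of_exponent_le hx1 (by norm_num))))).1
  have hσ := (abs_le.1 (hme (Real.log x / 3) (by linarith))).2
  have hin : ∀ p ∈ Pr (Real.log x / 6) (Real.log x / 3),
      ∀ q ∈ Pr (Real.log x / 6) (Real.log x / 3),
      Real.log x / 6 * ∑ r ∈ Pr (Real.log x / 6) (Real.log x / 3),
        gk x (Real.log x ^ 2) (m * p * q * r) ≤
      101 / 100 * (Gam x (Real.log x ^ 2) / m) * ((p : ℝ)⁻¹ * (q : ℝ)⁻¹) := by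
    intro p hp q hq
    have hp0 := (mem_Pr.1 hp).1.pos
    have hq0 := (mem_Pr.1 hq).1.pos
    have h1 : ((m * p * q : ℕ) : ℝ) ≤ (x : ℝ) ^ (9 / 10 : ℝ) := by
      have h2 : ((m * p * q : ℕ) : ℝ) ≤
          (x : ℝ) ^ (9 / 40 : ℝ) * (x : ℝ) ^ (1 / 3 : ℝ) * (x : ℝ) ^ (1 / 3 : ℝ) := by
        push_cast
        have a1 := plow_le_rpow hx hp
        have a2 := plow_le_rpow hx hq
        gcongr
      rw [← Real.rpow_add hx0, ← Real.rpow_add hx0] at h2
      exact h2.trans (Real.rpow_le_rpow_of_exponent_le hx1 (by norm_num))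
    have h3 := (abs_le.1 (hpg (m * p * q) (Nat.mul_pos (Nat.mul_pos hmn hp0) hq0) h1)).2
    have h4 := plow_inner (q := m * p * q) hx (Real.log x ^ 2)
    have h5 : Gam x (Real.log x ^ 2) / ((m * p * q : ℕ) : ℝ) =
        Gam x (Real.log x ^ 2) / m * ((p : ℝ)⁻¹ * (q : ℝ)⁻¹) := by
      push_cast
      ring
    rw [h5] at h3
    linarith
  have hsplit : ∑ n ∈ Icc 1 (2 * x),
      ((if n.Prime then 1 else 0) - 2 * if Tri x n then 1 else 0) *
        gk x (Real.log x ^ 2) (m * n) =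
      ∑ n ∈ Icc 1 (2 * x), (if n.Prime then (1 : ℝ) else 0) * gk x (Real.log x ^ 2) (m * n) -
      2 * ∑ n ∈ Icc 1 (2 * x), (if Tri x n then (1 : ℝ) else 0) *
        gk x (Real.log x ^ 2) (m * n) := by
    rw [mul_sum, ← sum_sub_distrib]
    exact sum_congr rfl fun n _ => by ring
  have hsum : Real.log x / 6 * ∑ p ∈ Pr (Real.log x / 6) (Real.log x / 3),
      ∑ q ∈ Pr (Real.log x / 6) (Real.log x / 3), ∑ r ∈ Pr (Real.log x / 6) (Real.log x / 3),
        gk x (Real.log x ^ 2) (m * p * q * r) ≤ 101 / 100 * (Gam x (Real.log x ^ 2) / m) *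
        (∑ p ∈ Pr (Real.log x / 6) (Real.log x / 3), (p : ℝ)⁻¹) ^ 2 := by
    rw [sq (∑ p ∈ Pr (Real.log x / 6) (Real.log x / 3), (p : ℝ)⁻¹), sum_mul_sum, mul_sum, mul_sum]
    refine sum_le_sum fun p hp => ?_
    rw [mul_sum, mul_sum]
    exact sum_le_sum fun q hq => hin p hp q hq
  have hσ0 : 0 ≤ ∑ p ∈ Pr (Real.log x / 6) (Real.log x / 3), (p : ℝ)⁻¹ :=
    sum_nonneg fun p _ => inv_nonneg.2 (Nat.cast_nonneg _)
  have hS1 : 0 ≤ ∑ n ∈ Icc 1 (2 * x), (if n.Prime then (1 : ℝ) else 0) *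
      gk x (Real.log x ^ 2) (m * n) := sum_nonneg fun n _ =>
    mul_nonneg (by split_ifs <;> norm_num) (gk_nonneg _ _ _)
  have he : Gam x (Real.log x ^ 2) / (10 * m * Real.log x) =
      Gam x (Real.log x ^ 2) / m / (10 * Real.log x) := by
    rw [div_div]; congr 1; ring
  have hGm : 0 ≤ Gam x (Real.log x ^ 2) / m := div_nonneg hG (by linarith)
  have h2 : Real.log x / 3 / (Real.log x / 6) = 2 := by
    field_simp
    norm_num
  have h6 : 1 / (Real.log x / 6) ^ 1 ≤ 1 / 100 := by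
    rw [pow_one]
    exact one_div_le_one_div_of_le (by norm_num) (by linarith)
  rw [h2] at hσ
  have hl2 := Real.log_two_lt_d9
  rw [hsplit, he, div_le_iff₀ (by linarith)]
  generalize Gam x (Real.log x ^ 2) / m = G at *
  generalize ∑ n ∈ Icc 1 (2 * x), (if n.Prime then (1 : ℝ) else 0) *
    gk x (Real.log x ^ 2) (m * n) = S1 at *
  generalize ∑ n ∈ Icc 1 (2 * x), (if Tri x n then (1 : ℝ) else 0) *
    gk x (Real.log x ^ 2) (m * n) = S3 at *
  generalize ∑ p ∈ Pr (Real.log x / 6) (Real.log x / 3), (p : ℝ)⁻¹ = σ at *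
  have hs2 : σ ^ 2 ≤ 1 / 2 := by nlinarith
  have b1 : Real.log x / 6 * (6 * S3) ≤ 101 / 100 * G * σ ^ 2 :=
    (mul_le_mul_of_nonneg_left hB (by linarith)).trans hsum
  have b2 : 101 / 100 * G * σ ^ 2 ≤ 101 / 100 * G * (1 / 2) :=
    mul_le_mul_of_nonneg_left hs2 (by linarith)
  have b3 : (5 / 6 * Real.log x + 1) * S1 ≤ (501 / 600 * Real.log x) * S1 :=
    mul_le_mul_of_nonneg_right (by linarith) hS1
  nlinarith

end Pool.Agent.Work.MP_82fd4a_nt
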