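import Pool.Agent.Work.MP_82fd4a_nt.Setup
import Pool.Agent.Work.MP_82fd4a_nt.PrimeLow

/-! Upper bounds for the basic sums, and the lower bound in long intervals. -/

set_option autoImplicit false
open Filter Topology Finset

namespace Pool.Agent.Work.MP_82fd4a_nt

lemma su_WW_eq (K J : ℕ) (Λ : ℝ) (S : Finset ℕ) (wt : ℕ → ℝ) :
    WW K J Λ S wt = ∑ s ∈ S, ∑ π ∈ tup K J Λ, wt s * ((s * ∏ i, π i : ℕ) : ℝ)⁻¹ := by
  unfold WW Psi
  rw [sum_mul]
  refine sum_congr rfl fun s _ => ?_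
  rw [mul_sum]
  refine sum_congr rfl fun π _ => ?_
  rw [Nat.cast_mul, mul_inv, div_eq_mul_inv, mul_assoc]

lemma su_SS_eq (x : ℕ) (T : ℝ) (K J : ℕ) (Λ : ℝ) (S : Finset ℕ) (wt c : ℕ → ℝ) :
    SS x T K J Λ S wt c = ∑ s ∈ S, ∑ π ∈ tup K J Λ,
      wt s * ∑ n ∈ Icc 1 (2 * x), c n * gk x T (s * (∏ i, π i) * n) := by
  unfold SS
  refine sum_congr rfl fun s _ => sum_congr rfl fun π _ => ?_
  rw [mul_sum]
  exact sum_congr rfl fun n _ => mul_assoc _ _ _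

lemma su_size {x K J : ℕ} {Λ M : ℝ} {S : Finset ℕ} (hx : 1 ≤ x) (h : Sized x K J Λ S M)
    {s : ℕ} (hs : s ∈ S) {π : Ix K J → ℕ} (hπ : π ∈ tup K J Λ) :
    (x : ℝ) ^ (1 / 6 : ℝ) ≤ ((s * ∏ i, π i : ℕ) : ℝ) ∧
      ((s * ∏ i, π i : ℕ) : ℝ) ≤ (x : ℝ) ^ (9 / 40 : ℝ) := by
  obtain ⟨h1, h2, h3⟩ := h
  obtain ⟨h4, h5⟩ := h3 s hs π hπ
  have hx1 : (1 : ℝ) ≤ x := by exact_mod_cast hx
  have hx0 : (0 : ℝ) < x := by linarith
  refine ⟨h1.trans h4, h5.trans ?_⟩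
  calc M * (x : ℝ) ^ del ≤ (x : ℝ) ^ (1 / 5 : ℝ) * (x : ℝ) ^ del := by
        gcongr
    _ = (x : ℝ) ^ (1 / 5 + del : ℝ) := (Real.rpow_add hx0 _ _).symm
    _ ≤ (x : ℝ) ^ (9 / 40 : ℝ) :=
        Real.rpow_le_rpow_of_exponent_le hx1 (by unfold del; norm_num)

lemma su_pos {x m : ℕ} (hx : 1 ≤ x) (h : (x : ℝ) ^ (1 / 6 : ℝ) ≤ m) : 0 < m := by
  have hx0 : (0 : ℝ) < x := by exact_mod_cast hx
  have : (0 : ℝ) < m := (Real.rpow_pos_of_pos hx0 _).trans_le h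
  exact_mod_cast this

lemma su_SS_le {x K J : ℕ} {Λ M T B : ℝ} {S : Finset ℕ} {wt c : ℕ → ℝ} (hx : 1 ≤ x)
    (h : Sized x K J Λ S M) (hwt : ∀ s, 0 ≤ wt s)
    (hB : ∀ m : ℕ, (x : ℝ) ^ (1 / 6 : ℝ) ≤ m → (m : ℝ) ≤ (x : ℝ) ^ (9 / 40 : ℝ) →
      ∑ n ∈ Icc 1 (2 * x), c n * gk x T (m * n) ≤ B / m) :
    SS x T K J Λ S wt c ≤ B * WW K J Λ S wt := by
  rw [su_SS_eq, su_WW_eq, mul_sum]
  refine sum_le_sum fun s hs => ?_
  rw [mul_sum]
  refine sum_le_sum fun π hπ => ?_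
  obtain ⟨h1, h2⟩ := su_size hx h hs hπ
  calc _ ≤ wt s * (B / ((s * ∏ i, π i : ℕ) : ℝ)) :=
        mul_le_mul_of_nonneg_left (hB _ h1 h2) (hwt s)
    _ = _ := by ring

lemma su_le_SS {x K J : ℕ} {Λ M T B : ℝ} {S : Finset ℕ} {wt c : ℕ → ℝ} (hx : 1 ≤ x)
    (h : Sized x K J Λ S M) (hwt : ∀ s, 0 ≤ wt s)
    (hB : ∀ m : ℕ, (x : ℝ) ^ (1 / 6 : ℝ) ≤ m → (m : ℝ) ≤ (x : ℝ) ^ (9 / 40 : ℝ) →
      B / m ≤ ∑ n ∈ Icc 1 (2 * x), c n * gk x T (m * n)) :
    B * WW K J Λ S wt ≤ SS x T K J Λ S wt c := by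
  rw [su_SS_eq, su_WW_eq, mul_sum]
  refine sum_le_sum fun s hs => ?_
  rw [mul_sum]
  refine sum_le_sum fun π hπ => ?_
  obtain ⟨h1, h2⟩ := su_size hx h hs hπ
  calc _ = wt s * (B / ((s * ∏ i, π i : ℕ) : ℝ)) := by ring
    _ ≤ _ := mul_le_mul_of_nonneg_left (hB _ h1 h2) (hwt s)

lemma su_ev (C : ℝ) {a : ℝ} (ha : 0 < a) : ∀ᶠ x : ℕ in atTop, C ≤ (x : ℝ) ^ a :=
  ((tendsto_rpow_atTop ha).comp tendsto_natCast_atTop_atTop).eventually_ge_atTop C

lemma su_sqrt_le {x : ℕ} (hx : 1 ≤ x) : √(x : ℝ) ≤ x := by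
  have hx1 : (1 : ℝ) ≤ x := by exact_mod_cast hx
  exact Real.sqrt_le_iff.2 ⟨by linarith, by nlinarith⟩

lemma su_Gam_ge {x : ℕ} (hx : 1 ≤ x) {T : ℝ} (hT : 1 ≤ T) (hTx : T ≤ √(x : ℝ)) :
    (x : ℝ) ^ (1 / 2 : ℝ) / 8 ≤ Gam x T := by
  have hx0 : (0 : ℝ) < x := by exact_mod_cast hx
  refine le_trans ?_ (Gam_ge hT (hTx.trans (su_sqrt_le hx)))
  rw [← Real.sqrt_eq_rpow, div_le_div_iff₀ (by norm_num) (by linarith)]
  have h1 : √(x : ℝ) * √(x : ℝ) = x := Real.mul_self_sqrt hx0.le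
  have h2 : 0 ≤ √(x : ℝ) := Real.sqrt_nonneg _
  nlinarith

lemma su_WW_nonneg (K J : ℕ) (Λ : ℝ) (S : Finset ℕ) {wt : ℕ → ℝ} (hwt : ∀ s, 0 ≤ wt s) :
    0 ≤ WW K J Λ S wt :=
  mul_nonneg (sum_nonneg fun s _ => div_nonneg (hwt s) (Nat.cast_nonneg _)) (Psi_nonneg _ _ _)

lemma su_tau_le {a n : ℕ} (hn : n ≠ 0) (h : a ∣ n) : tau a ≤ tau n := by
  unfold tau
  exact_mod_cast card_le_card (Nat.divisors_subset_of_dvd hn h)

/-- at most one cofactor -/
lemma su_fiber (I : Finset ℕ) {m N : ℕ} (hm : 0 < m) {a : ℕ → ℝ} {B : ℝ} (hB : 0 ≤ B)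
    (ha : ∀ n, m * n = N → a n ≤ B) : ∑ n ∈ I, (if m * n = N then a n else 0) ≤ B := by
  rw [← sum_filter]
  calc ∑ n ∈ I.filter (fun n => m * n = N), a n ≤ (I.filter (fun n => m * n = N)).card • B :=
        sum_le_card_nsmul _ _ _ fun n hn => ha n (mem_filter.1 hn).2
    _ ≤ 1 • B := by
        refine nsmul_le_nsmul_left hB (card_le_one.2 fun a ha b hb => ?_)
        exact Nat.eq_of_mul_eq_mul_left hm ((mem_filter.1 ha).2.trans (mem_filter.1 hb).2.symm)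
    _ = B := one_nsmul _

/-- the number of representations, with the divisor weight -/
lemma su_count {K J : ℕ} {Λ : ℝ} {S : Finset ℕ} (I : Finset ℕ) {N : ℕ} (hN : N ≠ 0) {c : ℕ → ℝ}
    (hc : ∀ n, c n ≤ 1) :
    ∑ s ∈ S, ∑ π ∈ tup K J Λ, ∑ n ∈ I, (if s * (∏ i, π i) * n = N then tau s * c n else 0)
      ≤ tau N ^ (K + J + 2) := by
  classical
  have h1 : ∀ s ∈ S, ∀ π ∈ tup K J Λ,
      ∑ n ∈ I, (if s * (∏ i, π i) * n = N then tau s * c n else 0) ≤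
        if s ∈ N.divisors then
          (if π ∈ Fintype.piFinset (fun _ : Ix K J => N.divisors) then tau N else 0) else 0 := by
    intro s _ π _
    by_cases hex : ∃ n, s * (∏ i, π i) * n = N
    · obtain ⟨n, hn⟩ := hex
      have hs : s ∣ N := hn ▸ (dvd_mul_right s _).mul_right n
      have hπ : ∀ i, π i ∣ N := fun i =>
        hn ▸ ((dvd_prod_of_mem π (mem_univ i)).mul_left s).mul_right n
      rw [if_pos (Nat.mem_divisors.2 ⟨hs, hN⟩),
        if_pos (Fintype.mem_piFinset.2 fun i => Nat.mem_divisors.2 ⟨hπ i, hN⟩)]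
      have hm : 0 < s * ∏ i, π i := Nat.pos_of_ne_zero fun h0 => hN (by rw [← hn, h0, zero_mul])
      refine su_fiber I hm (tau_nonneg N) fun n' _ => ?_
      calc tau s * c n' ≤ tau s * 1 := mul_le_mul_of_nonneg_left (hc n') (tau_nonneg s)
        _ ≤ tau N := by rw [mul_one]; exact su_tau_le hN hs
    · rw [sum_eq_zero fun n _ => if_neg fun h => hex ⟨n, h⟩]
      have := tau_nonneg N
      split_ifs <;> simp [this]
  have h2 : ∑ π ∈ tup K J Λ,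
      (if π ∈ Fintype.piFinset (fun _ : Ix K J => N.divisors) then tau N else 0)
        ≤ tau N ^ (K + J + 1) := by
    rw [← sum_filter, sum_const, nsmul_eq_mul, pow_succ]
    refine mul_le_mul_of_nonneg_right ?_ (tau_nonneg N)
    have : ((tup K J Λ).filter
        (fun π => π ∈ Fintype.piFinset (fun _ : Ix K J => N.divisors))).card
          ≤ N.divisors.card ^ (K + J) := by
      refine (card_le_card fun π hπ => (mem_filter.1 hπ).2).trans ?_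
      rw [Fintype.card_piFinset]
      simp
    unfold tau
    exact_mod_cast this
  calc _ ≤ ∑ s ∈ S, if s ∈ N.divisors then tau N ^ (K + J + 1) else 0 := by
        refine sum_le_sum fun s hs => (sum_le_sum fun π hπ => h1 s hs π hπ).trans ?_
        split_ifs
        · exact h2
        · simp
    _ ≤ tau N ^ (K + J + 2) := by
        rw [← sum_filter, sum_const, nsmul_eq_mul, pow_succ' _ (K + J + 1)]
        refine mul_le_mul_of_nonneg_right ?_ (pow_nonneg (tau_nonneg N) _)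
        unfold tau
        exact_mod_cast card_le_card fun s hs => (mem_filter.1 hs).2

theorem sum_rough {η : ℝ} (hη : 0 < η) (hη1 : η ≤ 1 / 100) : ∀ᶠ x : ℕ in atTop,
    ∀ (K J : ℕ) (Λ M : ℝ) (S : Finset ℕ) (wt : ℕ → ℝ), Sized x K J Λ S M → (∀ s, 0 ≤ wt s) →
    ∀ T : ℝ, 1 ≤ T → T ≤ √(x : ℝ) →
    SS x T K J Λ S wt (rf ((x : ℝ) ^ η)) ≤ 2 * Gam x T * WW K J Λ S wt / (η * Real.log x) := by
  filter_upwards [su_ev 176 (by norm_num : (0 : ℝ) < 27 / 200), eventually_ge_atTop 2]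
    with x hx hx2 K J Λ M S wt hS hwt T hT hTx
  have hx1 : (1 : ℝ) < x := by exact_mod_cast hx2
  have hx0 : (0 : ℝ) < x := by linarith
  have hL : 0 < Real.log x := Real.log_pos hx1
  have hw : (1 : ℝ) < (x : ℝ) ^ η := Real.one_lt_rpow hx1 hη
  have hG := su_Gam_ge (by omega) hT hTx
  have key := su_SS_le (T := T) (B := 2 * Gam x T / (η * Real.log x))
    (c := rf ((x : ℝ) ^ η)) (by omega) hS hwt fun m hm1 hm2 => by
      have hm := su_pos (by omega) hm1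
      have hm0 : (0 : ℝ) < m := by exact_mod_cast hm
      refine (sum_rf_gk x (by linarith) hm hw).trans ?_
      rw [Real.log_rpow hx0]
      have e1 : ((x : ℝ) ^ η) ^ 4 ≤ (x : ℝ) ^ (1 / 25 : ℝ) := by
        rw [← Real.rpow_natCast, ← Real.rpow_mul hx0.le]
        exact Real.rpow_le_rpow_of_exponent_le hx1.le (by push_cast; linarith)
      have e2 : Real.log x ≤ (x : ℝ) ^ (1 / 10 : ℝ) / (1 / 10) :=
        Real.log_le_rpow_div hx0.le (by norm_num)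
      have e3 : (x : ℝ) ^ (1 / 25 : ℝ) * (x : ℝ) ^ (1 / 10 : ℝ) = (x : ℝ) ^ (7 / 50 : ℝ) := by
        rw [← Real.rpow_add hx0]; norm_num
      have e4 : (1 : ℝ) ≤ (x : ℝ) ^ (7 / 50 : ℝ) := Real.one_le_rpow hx1.le (by norm_num)
      have e5 : (x : ℝ) ^ (1 / 2 : ℝ) =
          (x : ℝ) ^ (27 / 200 : ℝ) * (x : ℝ) ^ (7 / 50 : ℝ) * (x : ℝ) ^ (9 / 40 : ℝ) := by
        rw [← Real.rpow_add hx0, ← Real.rpow_add hx0]; norm_num
      have e6 : 22 * (x : ℝ) ^ (7 / 50 : ℝ) ≤ Gam x T / m := by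
        rw [le_div_iff₀ hm0]
        refine le_trans ?_ hG
        rw [e5, le_div_iff₀ (by norm_num)]
        calc 22 * (x : ℝ) ^ (7 / 50 : ℝ) * m * 8 = 176 * (x : ℝ) ^ (7 / 50 : ℝ) * m := by ring
          _ ≤ _ := by gcongr
      have e7 : ((x : ℝ) ^ η) ^ 4 * (η * Real.log x) ≤ 10 * (x : ℝ) ^ (7 / 50 : ℝ) := by
        have h1 : η * Real.log x ≤ 10 * (x : ℝ) ^ (1 / 10 : ℝ) := by
          have : η * Real.log x ≤ 1 * Real.log x := by gcongr; linarith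
          linarith
        calc _ ≤ (x : ℝ) ^ (1 / 25 : ℝ) * (10 * (x : ℝ) ^ (1 / 10 : ℝ)) := by gcongr
          _ = _ := by rw [← e3]; ring
      have hηL : 0 < η * Real.log x := mul_pos hη hL
      have e8 : 2 * Gam x T / (η * Real.log x) / m = 2 * (Gam x T / m) / (η * Real.log x) := by
        ring
      rw [e8, div_add' _ _ _ hηL.ne', div_le_div_iff_of_pos_right hηL]
      nlinarith
  calc _ ≤ _ := key
    _ = _ := by ring

theorem sum_not_sqfree {η : ℝ} (hη : 0 < η) (hη1 : η ≤ 1 / 100) (K J : ℕ) : ∀ᶠ x : ℕ in atTop,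
    ∀ (Λ M : ℝ) (S : Finset ℕ), Sized x K J Λ S M → ∀ T : ℝ, 1 ≤ T → T ≤ √(x : ℝ) →
    SS x T K J Λ S tau (fun n => if Squarefree n then 0 else rf ((x : ℝ) ^ η) n)
      ≤ Gam x T * (x : ℝ) ^ (-(η / 2)) := by
  filter_upwards [sum_sqful hη hη1 (K + J + 2) 1, su_ev 2 (by norm_num : (0 : ℝ) < 1 / 15),
    eventually_ge_atTop 1] with x hx hx2 hx1 Λ M S hS T hT hTx
  have hx0 : (0 : ℝ) < x := by exact_mod_cast hx1
  set c : ℕ → ℝ := fun n => if Squarefree n then 0 else rf ((x : ℝ) ^ η) n with hc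
  have hc1 : ∀ n, c n ≤ 1 := fun n => by
    simp only [hc]
    split_ifs
    · exact zero_le_one
    · exact rf_le_one _ _
  refine le_trans (le_of_eq ?_) (hx T hT hTx (fun N => if N ∈ Icc 1 (2 * x) then
    ∑ s ∈ S, ∑ π ∈ tup K J Λ, ∑ n ∈ Icc 1 (2 * x),
      (if s * (∏ i, π i) * n = N then tau s * c n else 0) else 0) (fun N => ?_) (fun N hN => ?_))
  · refine Eq.trans ?_ (sum_congr rfl fun N hN => by rw [if_pos hN]).symm
    unfold SS
    simp only [sum_mul]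
    symm
    rw [sum_comm]
    refine sum_congr rfl fun s hs => ?_
    rw [sum_comm]
    refine sum_congr rfl fun π hπ => ?_
    rw [sum_comm]
    refine sum_congr rfl fun n hn => ?_
    simp only [ite_mul, zero_mul]
    rw [sum_ite_eq]
    split_ifs with h
    · rfl
    · have hm := su_pos hx1 (su_size hx1 hS hs hπ).1
      have : gk x T (s * (∏ i, π i) * n) = 0 := by
        by_contra h0
        exact h (mem_Icc.2 ⟨Nat.mul_pos hm (mem_Icc.1 hn).1, (gk_ne_zero h0).2⟩)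
      rw [this, mul_zero]
  · rw [one_mul]
    split_ifs with h
    · exact su_count _ (by have := (mem_Icc.1 h).1; omega) hc1
    · exact pow_nonneg (tau_nonneg N) _
  · split_ifs at hN with h
    swap
    · exact absurd hN (lt_irrefl _)
    obtain ⟨s, hs, hN⟩ := exists_ne_zero_of_sum_ne_zero hN.ne'
    obtain ⟨π, hπ, hN⟩ := exists_ne_zero_of_sum_ne_zero hN
    obtain ⟨n, hn, hN⟩ := exists_ne_zero_of_sum_ne_zero hN
    have he : s * (∏ i, π i) * n = N := by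
      by_contra h0
      exact hN (if_neg h0)
    rw [if_pos he] at hN
    have hcn : c n ≠ 0 := right_ne_zero_of_mul hN
    have hsq : ¬ Squarefree n := fun h0 => hcn (by simp only [hc]; exact if_pos h0)
    have hr : Rough ((x : ℝ) ^ η) n := by
      by_contra h0
      exact hcn (by simp only [hc]; rw [if_neg hsq]; exact if_neg h0)
    rw [Nat.squarefree_iff_prime_squarefree] at hsq
    push Not at hsq
    obtain ⟨p, hp, hpn⟩ := hsq
    refine ⟨p, hp, hr p hp ((dvd_mul_right p p).trans hpn), ?_, ?_⟩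
    · have h1 : p * p ≤ n := Nat.le_of_dvd (mem_Icc.1 hn).1 hpn
      have h2 : s * (∏ i, π i) * (p * p) ≤ 2 * x :=
        (Nat.mul_le_mul_left _ h1).trans (he ▸ (mem_Icc.1 h).2)
      have h3 : ((s * ∏ i, π i : ℕ) : ℝ) * ((p : ℝ) * p) ≤ 2 * x := by exact_mod_cast h2
      have h4 := (su_size hx1 hS hs hπ).1
      have e1 : (x : ℝ) ^ (1 / 15 : ℝ) * x =
          (x : ℝ) ^ (1 / 6 : ℝ) * ((x : ℝ) ^ (9 / 20 : ℝ) * (x : ℝ) ^ (9 / 20 : ℝ)) := by
        rw [← Real.rpow_add hx0, ← Real.rpow_add hx0, ← Real.rpow_add_one hx0.ne']; norm_num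
      have h5 : (x : ℝ) ^ (1 / 6 : ℝ) * ((p : ℝ) * p) ≤
          (x : ℝ) ^ (1 / 6 : ℝ) * ((x : ℝ) ^ (9 / 20 : ℝ) * (x : ℝ) ^ (9 / 20 : ℝ)) := by
        rw [← e1]
        calc _ ≤ ((s * ∏ i, π i : ℕ) : ℝ) * ((p : ℝ) * p) := by gcongr
          _ ≤ 2 * x := h3
          _ ≤ _ := by gcongr
      have h6 := le_of_mul_le_mul_left h5 (Real.rpow_pos_of_pos hx0 _)
      exact (mul_self_le_mul_self_iff (Nat.cast_nonneg p) (by positivity)).2 h6
    · rw [← he, pow_two]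
      exact hpn.mul_left _

theorem sum_long : ∀ᶠ x : ℕ in atTop, ∀ (K J : ℕ) (Λ M : ℝ) (S : Finset ℕ), Sized x K J Λ S M →
    Gam x (Real.log x ^ 2) * WW K J Λ S tau / (10 * Real.log x) ≤
      SS x (Real.log x ^ 2) K J Λ S tau
        (fun n => (if n.Prime then 1 else 0) - 2 * if Tri x n then 1 else 0) := by
  filter_upwards [prime_lower, eventually_ge_atTop 1] with x hx hx1 K J Λ M S hS
  have key := su_le_SS (T := Real.log x ^ 2) (B := Gam x (Real.log x ^ 2) / (10 * Real.log x))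
    (c := fun n => (if n.Prime then 1 else 0) - 2 * if Tri x n then 1 else 0) hx1 hS tau_nonneg
    fun m hm1 hm2 => le_trans (le_of_eq (by ring)) (hx m hm1 hm2)
  calc _ = _ := by ring
    _ ≤ _ := key

/-- if no product with a prime lies near `x` then the sum over primes is small -/
theorem sum_tail : ∀ᶠ x : ℕ in atTop, ∀ (K J : ℕ) (Λ M : ℝ) (S : Finset ℕ), Sized x K J Λ S M →
    ∀ T D : ℝ, 2 ≤ T → T ≤ √(x : ℝ) →
    (∀ s ∈ S, ∀ π ∈ tup K J Λ, ∀ p : ℕ, p.Prime → x < 2 * (s * (∏ i, π i) * p) →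
      D ≤ |((s * (∏ i, π i) * p : ℕ) : ℝ) - x|) →
    SS x T K J Λ S tau (fun n => if n.Prime then 1 else 0)
      ≤ 16000 * Real.exp (-(T * D / (4 * x))) * Gam x T * WW K J Λ S tau / Real.log x := by
  filter_upwards [sum_rough (η := 1 / 100) (by norm_num) le_rfl,
    su_ev 2 (by norm_num : (0 : ℝ) < 153 / 200), eventually_ge_atTop 2]
    with x hx hx3 hx2 K J Λ M S hS T D hT hTx hD
  have hx1 : (1 : ℝ) < x := by exact_mod_cast hx2
  have hx0 : (0 : ℝ) < x := by linarith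
  have hL : 0 < Real.log x := Real.log_pos hx1
  have hTx' : T ≤ x := hTx.trans (su_sqrt_le (by omega))
  have h1 := hx K J Λ M S tau hS tau_nonneg (T / 2) (by linarith) (by linarith)
  have h2 : Gam x (T / 2) ≤ 80 * Gam x T := by
    have a1 := Gam_le (x := x) (T := T / 2) (by linarith) (by linarith)
    have a2 := Gam_ge (x := x) (T := T) (by linarith) hTx'
    have a3 : 5 * (x : ℝ) / (T / 2) = 80 * (x / (8 * T)) := by field_simp; norm_num
    linarith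
  have h3 : SS x T K J Λ S tau (fun n => if n.Prime then 1 else 0) ≤
      Real.exp (-(T * D / (4 * x))) * SS x (T / 2) K J Λ S tau (rf ((x : ℝ) ^ (1 / 100 : ℝ))) := by
    unfold SS
    simp only [mul_sum]
    refine sum_le_sum fun s hs => sum_le_sum fun π hπ => sum_le_sum fun n _ => ?_
    have hR : 0 ≤ Real.exp (-(T * D / (4 * x))) * (tau s * rf ((x : ℝ) ^ (1 / 100 : ℝ)) n *
        gk x (T / 2) (s * (∏ i, π i) * n)) :=
      mul_nonneg (Real.exp_pos _).le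
        (mul_nonneg (mul_nonneg (tau_nonneg _) (rf_nonneg _ _)) (gk_nonneg _ _ _))
    by_cases hp : n.Prime
    swap
    · rw [if_neg hp, mul_zero, zero_mul]; exact hR
    by_cases h0 : gk x T (s * (∏ i, π i) * n) = 0
    · rw [h0, mul_zero]; exact hR
    have h4 := (gk_ne_zero h0).1
    have h5 := gk_tail (x := x) (by omega) (T := T) (by linarith) (hD s hs π hπ n hp h4)
    have h6 : Rough ((x : ℝ) ^ (1 / 100 : ℝ)) n := by
      intro p hp' hpn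
      obtain rfl := (Nat.prime_dvd_prime_iff_eq hp' hp).1 hpn
      have b1 : (x : ℝ) < 2 * (((s * ∏ i, π i : ℕ) : ℝ) * p) := by exact_mod_cast h4
      have b2 := (su_size (by omega) hS hs hπ).2
      have e1 : (x : ℝ) ^ (153 / 200 : ℝ) * ((x : ℝ) ^ (9 / 40 : ℝ) * (x : ℝ) ^ (1 / 100 : ℝ))
          = x := by
        rw [← Real.rpow_add hx0, ← Real.rpow_add hx0]; norm_num
      by_contra hcon
      push Not at hcon
      have b3 : 2 * (((s * ∏ i, π i : ℕ) : ℝ) * p) ≤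
          (x : ℝ) ^ (153 / 200 : ℝ) * ((x : ℝ) ^ (9 / 40 : ℝ) * (x : ℝ) ^ (1 / 100 : ℝ)) := by
        gcongr
      linarith
    have h7 : rf ((x : ℝ) ^ (1 / 100 : ℝ)) n = 1 := if_pos h6
    rw [if_pos hp, h7]
    calc _ ≤ tau s * 1 * (Real.exp (-(T * D / (4 * x))) * gk x (T / 2) (s * (∏ i, π i) * n)) :=
          mul_le_mul_of_nonneg_left h5 (mul_nonneg (tau_nonneg _) zero_le_one)
      _ = _ := by ring
  have hW := su_WW_nonneg K J Λ S tau_nonneg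
  calc _ ≤ _ := h3
    _ ≤ Real.exp (-(T * D / (4 * x))) *
          (2 * (80 * Gam x T) * WW K J Λ S tau / (1 / 100 * Real.log x)) := by
        refine mul_le_mul_of_nonneg_left (h1.trans ?_) (Real.exp_pos _).le
        gcongr
    _ = _ := by field_simp; ring

/-- lower bound for the mass of the steering primes -/
theorem Psi_ge {K : ℕ} (hK : 1 ≤ K) (J : ℕ) : ∃ c : ℝ, 0 < c ∧ ∀ᶠ Λ : ℝ in atTop, c ≤ Psi K J Λ := by
  have hK0 : (0 : ℝ) < K := by exact_mod_cast hK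
  have hJ0 : (0 : ℝ) < (J : ℝ) + 1 := by positivity
  set r : ℝ := min (1 / (2 * K)) (1 / (50 * ((J : ℝ) + 1))) with hr
  have hr0 : 0 < r := lt_min (by positivity) (by positivity)
  have hc : 0 < Real.log (1 + r) := Real.log_pos (by linarith)
  refine ⟨(Real.log (1 + r) / 2) ^ (K + J), by positivity, ?_⟩
  obtain ⟨lo, hlo⟩ := eventually_atTop.1 (mertens_pnt 1)
  filter_upwards [eventually_ge_atTop (2 * lo), eventually_ge_atTop (4 / Real.log (1 + r))]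
    with Λ h1 h2
  have hΛ : 0 < Λ := lt_of_lt_of_le (by positivity) h2
  have key : ∀ a b : ℝ, Λ / 2 ≤ a → a * (1 + r) ≤ b →
      Real.log (1 + r) / 2 ≤ ∑ p ∈ Pr a b, (p : ℝ)⁻¹ := by
    intro a b ha hb
    have ha0 : 0 < a := by linarith
    have h3 := (abs_le.1 (hlo a (by linarith) b (by nlinarith))).1
    have h4 : Real.log (1 + r) ≤ Real.log (b / a) :=
      Real.log_le_log (by linarith) (by rw [le_div_iff₀ ha0]; linarith)
    have h5 : 1 / a ^ 1 ≤ Real.log (1 + r) / 2 := by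
      rw [pow_one, div_le_div_iff₀ ha0 (by norm_num)]
      rw [div_le_iff₀ hc] at h2
      nlinarith
    linarith
  have e : Psi K J Λ = ∏ i : Ix K J, ∑ p ∈ stP K J Λ i, (p : ℝ)⁻¹ := by
    unfold Psi tup
    rw [prod_univ_sum]
    refine sum_congr rfl fun π _ => ?_
    rw [Nat.cast_prod, prod_inv_distrib]
  rw [e]
  calc (Real.log (1 + r) / 2) ^ (K + J) = ∏ _i : Ix K J, Real.log (1 + r) / 2 := by
        simp [div_pow]
    _ ≤ _ := by
      refine prod_le_prod (fun _ _ => by positivity) fun i _ => ?_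
      cases i with
      | inl i =>
        have hi : ((i : ℕ) : ℝ) ≤ K := by exact_mod_cast i.2.le
        have hi0 : (0 : ℝ) ≤ ((i : ℕ) : ℝ) * Λ / K := by positivity
        refine key _ _ (by linarith) ?_
        have b1 : ((i : ℕ) : ℝ) * Λ / K ≤ Λ := by
          rw [div_le_iff₀ hK0]; nlinarith
        have b2 : r ≤ 1 / (2 * K) := min_le_left _ _
        have b3 : (Λ + ((i : ℕ) : ℝ) * Λ / K) * r ≤ (2 * Λ) * (1 / (2 * K)) := by
          gcongr; linarith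
        have b4 : (2 * Λ) * (1 / (2 * K)) = Λ / K := by field_simp
        have b5 : (((i : ℕ) : ℝ) + 1) * Λ / K = ((i : ℕ) : ℝ) * Λ / K + Λ / K := by ring
        linarith
      | inr i =>
        refine key _ _ le_rfl ?_
        have b2 : r ≤ 1 / (50 * ((J : ℝ) + 1)) := min_le_right _ _
        have b3 : Λ / 2 * r ≤ Λ / 2 * (1 / (50 * ((J : ℝ) + 1))) := by gcongr
        have b4 : Λ / 2 * (1 / (50 * ((J : ℝ) + 1))) = Λ / (100 * ((J : ℝ) + 1)) := by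
          field_simp; norm_num
        linarith

lemma su_log_prod {K J : ℕ} {Λ : ℝ} {π : Ix K J → ℕ} (h : π ∈ tup K J Λ) (I : Finset (Ix K J)) :
    Real.log ((∏ i ∈ I, π i : ℕ) : ℝ) = ∑ i ∈ I, Real.log (π i) := by
  rw [Nat.cast_prod, Real.log_prod]
  intro i _
  exact_mod_cast (prime_of_mem_stP (mem_tup.1 h i)).ne_zero

lemma su_frac {j J : ℕ} (hj : j ≤ J) {Λ : ℝ} (hΛ : 0 ≤ Λ) :
    (j : ℝ) * (Λ / 2 + Λ / (100 * ((J : ℝ) + 1))) ≤ j * (Λ / 2) + Λ / 100 := by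
  have hj' : (j : ℝ) ≤ J := by exact_mod_cast hj
  have h1 : (j : ℝ) * (Λ / (100 * ((J : ℝ) + 1))) ≤ ((J : ℝ) + 1) * (Λ / (100 * ((J : ℝ) + 1))) := by
    gcongr; linarith
  have h2 : ((J : ℝ) + 1) * (Λ / (100 * ((J : ℝ) + 1))) = Λ / 100 := by field_simp
  linarith

/-- size of a product of steering primes -/
theorem log_prod_tup {K J : ℕ} (hK : 1 ≤ K) {Λ : ℝ} (hΛ : 0 ≤ Λ) {π : Ix K J → ℕ}
    (h : π ∈ tup K J Λ) :
    K * Λ + J * (Λ / 2) ≤ Real.log ((∏ i, π i : ℕ) : ℝ) ∧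
      Real.log ((∏ i, π i : ℕ) : ℝ) ≤ 2 * K * Λ + J * (Λ / 2) + Λ / 100 := by
  have hK0 : (0 : ℝ) < K := by exact_mod_cast hK
  rw [su_log_prod h, Fintype.sum_sum_type]
  have a1 : ∀ i : Fin K, Λ ≤ Real.log (π (Sum.inl i)) ∧ Real.log (π (Sum.inl i)) ≤ 2 * Λ := by
    intro i
    obtain ⟨-, h1, h2⟩ := mem_Pr.1 (mem_tup.1 h (Sum.inl i))
    have hi : ((i : ℕ) : ℝ) + 1 ≤ K := by exact_mod_cast i.2
    have b0 : (0 : ℝ) ≤ ((i : ℕ) : ℝ) * Λ / K := by positivity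
    have b1 : (((i : ℕ) : ℝ) + 1) * Λ / K ≤ Λ := by
      rw [div_le_iff₀ hK0]; nlinarith
    constructor <;> linarith
  have a2 : ∀ i : Fin J, Λ / 2 ≤ Real.log (π (Sum.inr i)) ∧
      Real.log (π (Sum.inr i)) ≤ Λ / 2 + Λ / (100 * ((J : ℝ) + 1)) := fun i =>
    ⟨(mem_Pr.1 (mem_tup.1 h (Sum.inr i))).2.1.le, (mem_Pr.1 (mem_tup.1 h (Sum.inr i))).2.2⟩
  have c1 := card_nsmul_le_sum univ _ _ fun i _ => (a1 i).1
  have c2 := sum_le_card_nsmul univ _ _ fun i _ => (a1 i).2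
  have c3 := card_nsmul_le_sum univ _ _ fun i _ => (a2 i).1
  have c4 := sum_le_card_nsmul univ _ _ fun i _ => (a2 i).2
  simp only [card_univ, Fintype.card_fin, nsmul_eq_mul] at c1 c2 c3 c4
  have c5 := su_frac (le_refl J) hΛ
  constructor <;> linarith

theorem log_prod_coarse {K J j : ℕ} (hj : j ≤ J) {Λ : ℝ} (hΛ : 0 ≤ Λ) {π : Ix K J → ℕ}
    (h : π ∈ tup K J Λ) :
    j * (Λ / 2) ≤ Real.log ((∏ i ∈ coarse K J j, π i : ℕ) : ℝ) ∧
      Real.log ((∏ i ∈ coarse K J j, π i : ℕ) : ℝ) ≤ j * (Λ / 2) + Λ / 100 := by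
  rw [su_log_prod h, coarse, sum_map]
  have a2 : ∀ i : Fin J, Λ / 2 ≤ Real.log (π (Sum.inr i)) ∧
      Real.log (π (Sum.inr i)) ≤ Λ / 2 + Λ / (100 * ((J : ℝ) + 1)) := fun i =>
    ⟨(mem_Pr.1 (mem_tup.1 h (Sum.inr i))).2.1.le, (mem_Pr.1 (mem_tup.1 h (Sum.inr i))).2.2⟩
  have c3 := card_nsmul_le_sum (univ.filter fun t : Fin J => (t : ℕ) < j) _ _ fun i _ => (a2 i).1
  have c4 := sum_le_card_nsmul (univ.filter fun t : Fin J => (t : ℕ) < j) _ _ fun i _ => (a2 i).2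
  rw [Fin.card_filter_val_lt, min_eq_right hj, nsmul_eq_mul] at c3 c4
  exact ⟨c3, c4.trans (su_frac hj hΛ)⟩

end Pool.Agent.Work.MP_82fd4a_nt
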