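import Pool.Agent.Work.MP_82fd4a_nt.DivEq
import Pool.Agent.Work.MP_82fd4a_nt.SumU
import Pool.Agent.Work.MP_82fd4a_nt.QBil
import Pool.Agent.Work.MP_82fd4a_nt.QUp
import Pool.Agent.Work.MP_82fd4a_nt.QRep

/-! The bilinear part of the decomposition. -/

set_option autoImplicit false
open Filter Topology Finset

namespace Pool.Agent.Work.MP_82fd4a_nt

lemma mem_Sm {x : ℕ} {z : ℝ} {U : ℕ → Prop} {s : ℕ} :
    s ∈ Sm x z U ↔ (1 ≤ s ∧ s ≤ 2 * x) ∧ Smooth z s ∧ U s := by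
  unfold Sm
  simp only [mem_filter, mem_Icc]

lemma sq_sum_le_tau (G S : Finset ℕ) (h0 : ∀ a ∈ G, a ≠ 0) (h : ∀ a ∈ G, ∀ b ∈ G, a * b ∈ S) :
    (∑ a ∈ G, (a : ℝ)⁻¹) ^ 2 ≤ ∑ s ∈ S, tau s / s := by
  have e1 : (∑ a ∈ G, (a : ℝ)⁻¹) ^ 2 = ∑ p ∈ G ×ˢ G, ((p.1 * p.2 : ℕ) : ℝ)⁻¹ := by
    rw [sq, sum_mul_sum, sum_product]
    refine sum_congr rfl fun a _ => sum_congr rfl fun b _ => ?_
    push_cast
    rw [mul_inv]
  have e2 : ∑ s ∈ S, tau s / s = ∑ p ∈ S.sigma fun s => s.divisors, ((p.1 : ℕ) : ℝ)⁻¹ := by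
    rw [sum_sigma]
    refine sum_congr rfl fun s _ => ?_
    simp [tau, div_eq_mul_inv]
  rw [e1, e2]
  have hinj : Set.InjOn (fun p : ℕ × ℕ => (⟨p.1 * p.2, p.1⟩ : Σ _ : ℕ, ℕ)) (G ×ˢ G : Finset _) := by
    intro p hp q hq hpq
    simp only [Sigma.mk.injEq, heq_eq_eq] at hpq
    have hp0 := h0 _ (mem_product.1 (mem_coe.1 hp)).1
    refine Prod.ext hpq.2 ?_
    have := hpq.1
    rw [← hpq.2] at this
    exact Nat.eq_of_mul_eq_mul_left (Nat.pos_of_ne_zero hp0) this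
  calc _ = ∑ p ∈ (G ×ˢ G).image (fun p : ℕ × ℕ => (⟨p.1 * p.2, p.1⟩ : Σ _ : ℕ, ℕ)),
        ((p.1 : ℕ) : ℝ)⁻¹ := by rw [sum_image hinj]
    _ ≤ _ := by
      refine sum_le_sum_of_subset_of_nonneg (fun p hp => ?_) fun _ _ _ => by positivity
      obtain ⟨q, hq, rfl⟩ := mem_image.1 hp
      obtain ⟨h1, h2⟩ := mem_product.1 hq
      exact mem_sigma.2 ⟨h _ h1 _ h2, Nat.mem_divisors.2
        ⟨dvd_mul_right _ _, mul_ne_zero (h0 _ h1) (h0 _ h2)⟩⟩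

lemma typ_mass {ε ε' A R Z : ℝ} {K : ℕ} {Typ Hi Lo : ℕ → Prop} {err : ℕ → ℝ}
    (H : DivData ε ε' A R Z K Typ Hi Lo err) (hε : ε ≤ 1 / 4) (hε' : ε' ≤ 1 / 4) (hZ : 0 ≤ Z)
    {x : ℕ} (hx : Real.exp Z ^ 2 ≤ 2 * x) :
    Z ^ 2 / 4 ≤ ∑ s ∈ Sm x (Real.exp Z) Typ, tau s / s := by
  classical
  set I := Icc 1 ⌊Real.exp Z⌋₊ with hI
  have hsm : ∀ a ∈ I, Smooth (Real.exp Z) a := by
    intro a ha
    obtain ⟨h1, h2⟩ := mem_Icc.1 ha
    refine ⟨by omega, fun p _ hp => ?_⟩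
    have h3 : (p : ℝ) ≤ a := by exact_mod_cast Nat.le_of_dvd h1 hp
    exact h3.trans ((Nat.le_floor_iff (Real.exp_pos _).le).1 h2)
  have h1 : Z ≤ ∑ a ∈ I, (a : ℝ)⁻¹ := by
    have h2 := log_add_one_le_harmonic ⌊Real.exp Z⌋₊
    rw [harmonic_eq_sum_Icc] at h2
    push_cast at h2
    refine le_trans ?_ h2
    rw [Real.le_log_iff_exp_le (by positivity)]
    exact (Nat.lt_floor_add_one _).le
  have h2 := H.hi (I.filter Hi) fun s hs => ⟨hsm s (mem_filter.1 hs).1, (mem_filter.1 hs).2⟩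
  have h3 := H.lo (I.filter Lo) fun s hs => ⟨hsm s (mem_filter.1 hs).1, (mem_filter.1 hs).2⟩
  set G := I.filter fun a => ¬ Hi a ∧ ¬ Lo a with hG
  have h4 : ∑ a ∈ I, (a : ℝ)⁻¹ ≤ ∑ a ∈ G, (a : ℝ)⁻¹ + ∑ a ∈ I.filter Hi, (a : ℝ)⁻¹
      + ∑ a ∈ I.filter Lo, (a : ℝ)⁻¹ := by
    simp only [hG, sum_filter, ← sum_add_distrib]
    refine sum_le_sum fun a _ => ?_
    have : (0 : ℝ) ≤ (a : ℝ)⁻¹ := by positivity
    by_cases a1 : Hi a <;> by_cases a2 : Lo a <;> simp [a1, a2]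
  have h5 : Z / 2 ≤ ∑ a ∈ G, (a : ℝ)⁻¹ := by
    have := mul_le_mul_of_nonneg_right hε hZ
    have := mul_le_mul_of_nonneg_right hε' hZ
    linarith
  have h6 := sq_sum_le_tau G (Sm x (Real.exp Z) Typ)
    (fun a ha => (hsm a (mem_filter.1 ha).1).1) (fun a ha b hb => by
      obtain ⟨a1, a2, a3⟩ := mem_filter.1 ha
      obtain ⟨b1, b2, b3⟩ := mem_filter.1 hb
      refine mem_Sm.2 ⟨⟨Nat.mul_pos (mem_Icc.1 a1).1 (mem_Icc.1 b1).1, ?_⟩,
        smooth_mul.2 ⟨hsm a a1, hsm b b1⟩, H.mul a b (hsm a a1) (hsm b b1) a2 a3 b2 b3⟩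
      have c1 := (Nat.le_floor_iff (Real.exp_pos _).le).1 (mem_Icc.1 a1).2
      have c2 := (Nat.le_floor_iff (Real.exp_pos _).le).1 (mem_Icc.1 b1).2
      have c3 : (a : ℝ) * b ≤ Real.exp Z * Real.exp Z := by gcongr
      have c4 : ((a * b : ℕ) : ℝ) ≤ ((2 * x : ℕ) : ℝ) := by push_cast; nlinarith
      exact_mod_cast c4)
  calc Z ^ 2 / 4 = (Z / 2) ^ 2 := by ring
    _ ≤ _ := (pow_le_pow_left₀ (by linarith) h5 2).trans h6

lemma ev_sq_le (h : ℝ) (hh : 0 < h) : ∀ᶠ x : ℕ in atTop, Real.log x ^ 2 ≤ x.sqrt / h := by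
  have h1 : ∀ᶠ x : ℕ in atTop, 2 * h * Real.log x ^ 2 ≤ (x : ℝ) ^ (1 / 2 : ℝ) :=
    MP_51e72e_nt.L2.ev_log (2 * h) (by norm_num)
  filter_upwards [h1, eventually_ge_atTop 1] with x h1 h2
  rw [le_div_iff₀ hh]
  have h3 : (x : ℝ) < ((x.sqrt : ℝ) + 1) ^ 2 := by
    have := Nat.lt_succ_sqrt' x
    exact_mod_cast this
  have h4 : (1 : ℝ) ≤ x.sqrt := by exact_mod_cast Nat.sqrt_pos.2 h2
  have h5 : (x : ℝ) ^ (1 / 2 : ℝ) ≤ 2 * x.sqrt := by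
    rw [← Real.sqrt_eq_rpow, Real.sqrt_le_left (by positivity)]
    nlinarith
  linarith

lemma sqrt_cast_le (x : ℕ) : (x.sqrt : ℝ) ≤ √(x : ℝ) := Real.nat_sqrt_le_real_sqrt

lemma Gam_pos {x : ℕ} {T : ℝ} (hT : 1 ≤ T) (hTx : T ≤ x) : 0 < Gam x T :=
  lt_of_lt_of_le (div_pos (by linarith) (by linarith)) (Gam_ge hT hTx)

theorem sum_Gd {η ζ : ℝ} (hη : 0 < η) (hη1 : η ≤ 1 / 100) (hζ : 0 < ζ) (k : ℕ) :
    ∃ K : ℕ, 1 ≤ K ∧ ∀ a : ℝ, 0 < a → a ≤ η → ∀ J : ℕ, (J + 1) * a ≤ 1 → ∀ N : ℕ,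
    ∃ h : ℝ, 1 ≤ h ∧ ∀ᶠ x : ℕ in atTop, ∃ S : Finset ℕ,
      (∀ s ∈ S, 1 ≤ s ∧ Real.log s ≤ a * Real.log x / 8) ∧
      0 < WW K J (a * Real.log x) S tau ∧ 1 ≤ WW K J (a * Real.log x) S tau / Real.log x ∧
      ∀ (M b : ℝ) (y y' : ℕ) (𝒯 : Finset (Multiset ℕ)) (jj : Multiset ℕ → ℕ), 𝒯.card ≤ N →
      Sized x K J (a * Real.log x) S M →
      (∀ τ ∈ 𝒯, Good y y' τ ∧ τ.card ≤ k ∧ jj τ ≤ J ∧
        Dt x ((x : ℝ) ^ η) b (sel y y' τ) ⊆ D0 x ((x : ℝ) ^ η) ∧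
        Dt x ((x : ℝ) ^ η) b (τ - sel y y' τ) ⊆ D0 x ((x : ℝ) ^ η)) →
      (∀ s ∈ S, ∀ π ∈ tup K J (a * Real.log x), ∀ n ∈ Icc 1 (2 * x), Rough ((x : ℝ) ^ η) n →
        x < 2 * (s * (∏ i, π i) * n) → s * (∏ i, π i) * n ≤ 2 * x → Good y y' (ty b n) →
        ty b n ∈ 𝒯) →
      (∀ π ∈ tup K J (a * Real.log x), ∀ τ ∈ 𝒯, ∀ d ∈ Dt x ((x : ℝ) ^ η) b (sel y y' τ),
        5 * (a * Real.log x) / 4 ≤
          Real.log ((x.sqrt : ℝ) / ((d * ∏ t ∈ coarse K J (jj τ), π t : ℕ) : ℝ)) ∧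
        Real.log ((x.sqrt : ℝ) / ((d * ∏ t ∈ coarse K J (jj τ), π t : ℕ) : ℝ))
          ≤ 15 * (a * Real.log x) / 8) →
      ∀ T : ℝ, Real.log x ^ 2 ≤ T → T ≤ x.sqrt / h →
      |SS x T K J (a * Real.log x) S tau (fun n => rf ((x : ℝ) ^ η) n * Gd b y y' n) / Gam x T
        - SS x (Real.log x ^ 2) K J (a * Real.log x) S tau
            (fun n => rf ((x : ℝ) ^ η) n * Gd b y y' n) / Gam x (Real.log x ^ 2)|
        ≤ ζ * WW K J (a * Real.log x) S tau / Real.log x := by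
  set ε : ℝ := min (1 / 4) (ζ * η ^ 2 / (288 * 4 ^ k * Real.exp 73)) with hεdef
  have hε : 0 < ε := lt_min (by norm_num) (by positivity)
  have hε1 : ε ≤ 1 / 4 := min_le_left _ _
  have hε2 : ε * (288 * 4 ^ k * Real.exp 73) ≤ ζ * η ^ 2 :=
    (le_div_iff₀ (by positivity)).1 (min_le_right _ _)
  obtain ⟨A, hA, K, hK, hD⟩ := divEq hε
  refine ⟨K, hK, fun a ha haη J hJ N => ?_⟩
  obtain ⟨c, hc, hΨ⟩ := Psi_ge hK J
  have hA0 : 0 < A := by linarith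
  set ρ : ℝ := a / A with hρdef
  have hρ : 0 < ρ := by positivity
  have hρa : ρ * A = a := by rw [hρdef]; field_simp
  have hρ2 : ρ ≤ a / 2 := by nlinarith
  set e : ℝ := ζ * ρ ^ 2 * c / (8 * (16 + 2 * N) * 2 ^ k) with hedef
  have he : 0 < e := by positivity
  obtain ⟨ε', hε', hSp⟩ := QQ_sparse hρ K J he
  obtain ⟨R, hR, hD'⟩ := hD (min ε' (1 / 4)) (lt_min hε' (by norm_num))
  obtain ⟨h, hh, hCmp⟩ := QQ_compare (η := ρ / R) (by positivity) K J he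
  refine ⟨h, hh, ?_⟩
  have hL : Tendsto (fun x : ℕ => Real.log x) atTop atTop :=
    Real.tendsto_log_atTop.comp tendsto_natCast_atTop_atTop
  filter_upwards [(hL.const_mul_atTop hρ).eventually hD', (hL.const_mul_atTop ha).eventually hΨ,
    hSp, hCmp, QQ_long hη hη1, sum_rough hη hη1, ev_sq_le h (by linarith),
    hL.eventually_ge_atTop 1, (hL.const_mul_atTop hρ).eventually_ge_atTop 1,
    hL.eventually_ge_atTop (4 / (ρ ^ 2 * c)), eventually_ge_atTop 1]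
    with x hDx hΨx hSpx hCx hLg hRg hT0 hL1 hZ1 hLc hx1
  obtain ⟨Typ, Hi, Lo, err, H⟩ := hDx
  set L := Real.log x with hLdef
  set Z := ρ * L with hZdef
  have hx0 : (0 : ℝ) < x := by exact_mod_cast hx1
  have hx1' : (1 : ℝ) ≤ x := by exact_mod_cast hx1
  have hL0 : 0 < L := by linarith
  have hAZ : A * Z = a * L := by rw [hZdef, ← hρa]; ring
  have hz : (x : ℝ) ^ ρ = Real.exp Z := by
    rw [Real.rpow_def_of_pos hx0, hZdef, mul_comm]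
  have hzw : Real.exp Z ≤ (x : ℝ) ^ η := by
    rw [← hz]; exact Real.rpow_le_rpow_of_exponent_le hx1' (by linarith)
  have hzR : (x : ℝ) ^ (ρ / R) ≤ Real.exp Z := by
    rw [← hz]; exact Real.rpow_le_rpow_of_exponent_le hx1' (div_le_self hρ.le hR)
  have hlz : Real.log (Real.exp Z) ≤ a * L / 2 := by
    rw [Real.log_exp, hZdef]; nlinarith
  have hZL : Z ≤ L := by rw [hZdef]; nlinarith
  set z := Real.exp Z with hzdef
  set w := (x : ℝ) ^ η with hwdef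
  set Ψ := Psi K J (a * L) with hΨdef
  have hΨ0 : 0 < Ψ := by linarith
  have hW : Z ^ 2 / 4 ≤ ∑ s ∈ Sm x z Typ, tau s / s := by
    refine typ_mass H hε1 (min_le_right _ _) (by linarith) ?_
    have : z ^ 2 ≤ x := by
      rw [hzdef, ← Real.exp_nat_mul, ← Real.exp_log hx0]
      refine Real.exp_le_exp.2 ?_
      push_cast
      rw [hZdef]; nlinarith
    linarith
  set P : ℝ := Z ^ 2 * Ψ / (4 * L) with hPdef
  have hPW : P ≤ WW K J (a * L) (Sm x z Typ) tau / L := by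
    rw [hPdef, WW, show Z ^ 2 * Ψ / (4 * L) = Z ^ 2 / 4 * Ψ / L by ring]
    gcongr
  have hP1 : ρ ^ 2 * c * L / 4 ≤ P := by
    rw [hPdef, hZdef, show (ρ * L) ^ 2 * Ψ / (4 * L) = ρ ^ 2 * Ψ * L / 4 by field_simp]
    gcongr
  have hP2 : 1 ≤ P := by
    refine le_trans ?_ hP1
    rw [div_le_iff₀ (by positivity)] at hLc
    linarith
  refine ⟨Sm x z Typ, fun s hs => ⟨(mem_Sm.1 hs).1.1, hAZ ▸ H.size s (mem_Sm.1 hs).2.2⟩,
    ?_, hP2.trans hPW, ?_⟩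
  · by_contra hc
    have : WW K J (a * L) (Sm x z Typ) tau / L ≤ 0 :=
      div_nonpos_of_nonpos_of_nonneg (not_lt.1 hc) hL0.le
    linarith
  intro M b y y' 𝒯 jj hN hSz h𝒯 hcov hwin
  set κ : ℝ := K * Real.log 2 / (a * L) with hκdef
  have hK0 : (0 : ℝ) < K := by exact_mod_cast hK
  have hl2 : (1 / 2 : ℝ) ≤ Real.log 2 := by linarith [Real.log_two_gt_d9]
  have hκ : 0 < κ := by positivity
  have hκ1 : (K : ℝ) ≤ κ * (2 * (a * L)) := by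
    rw [hκdef, show K * Real.log 2 / (a * L) * (2 * (a * L)) = K * (2 * Real.log 2) by field_simp]
    nlinarith
  have hκ2 : (K : ℝ) * (J + 1) ≤ κ * (2 * L) := by
    calc (K : ℝ) * (J + 1) ≤ κ * (2 * (a * L)) * (J + 1) := by gcongr
      _ = κ * (2 * L) * ((J + 1) * a) := by ring
      _ ≤ κ * (2 * L) * 1 := by gcongr
      _ = _ := mul_one _
  have hκ3 : (K : ℝ) ≤ κ * (2 * L) := by
    refine le_trans ?_ hκ2
    have : (0 : ℝ) ≤ J := by positivity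
    nlinarith
  have hequi : ∀ s ∈ Sm x z Typ, ∀ π ∈ tup K J (a * L), ∀ τ ∈ 𝒯,
      ∀ d ∈ Dt x w b (sel y y' τ), |∑ i : Fin K, win s (π (Sum.inl i))
        ((x.sqrt : ℝ) / ((d * ∏ t ∈ coarse K J (jj τ), π t : ℕ) : ℝ)) - κ * tau s|
        ≤ κ * tau s * err s := by
    intro s hs π hπ τ hτ d hd
    have h1 := hwin π hπ τ hτ d hd
    have h2 := H.equi s (mem_Sm.1 hs).2.1 (mem_Sm.1 hs).2.2 (fun i => π (Sum.inl i))
      (fun i => by
        rw [hAZ]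
        have := mem_Pr.1 (mem_tup.1 hπ (Sum.inl i))
        exact ⟨this.2.1.le, this.2.2⟩)
      ((x.sqrt : ℝ) / ((d * ∏ t ∈ coarse K J (jj τ), π t : ℕ) : ℝ))
      (div_pos (by exact_mod_cast Nat.sqrt_pos.2 hx1) (by
        exact_mod_cast Nat.mul_pos (mem_Icc.1 (mem_filter.1 hd).1).1 (prod_pos_of_mem_tup hπ _)))
      (by rw [hAZ]; exact h1.1) (by rw [hAZ]; exact h1.2)
    rwa [hAZ] at h2
  have hD0z : ∀ d ∈ D0 x w, 1 ≤ d ∧ Rough z d := fun d hd =>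
    ⟨(mem_Icc.1 (mem_filter.1 hd).1).1,
      fun p hp hpd => hzw.trans_lt ((mem_filter.1 hd).2.1 p hp hpd)⟩
  have hD0s : D0 x w ⊆ D0 x z := fun d hd =>
    mem_filter.2 ⟨(mem_filter.1 hd).1, (hD0z d hd).2, (mem_filter.1 hd).2.2⟩
  have hinv : ∀ p : ℕ, p.Prime → (p : ℝ) ≤ (x : ℝ) ^ (ρ / R) → ∀ s, Hi (p * s) ↔ Hi s := by
    intro p hp h1
    refine H.inv p hp ?_
    have h2 : (0 : ℝ) < p := by exact_mod_cast hp.pos
    have h3 := Real.log_le_log h2 h1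
    rw [Real.log_rpow hx0] at h3
    rw [hZdef]
    calc _ ≤ _ := h3
      _ = _ := by ring
  have hall : ∑ s ∈ Sm x z fun _ => True, (s : ℝ)⁻¹ ≤ Real.exp 73 * Z := by
    refine (sum_inv_smooth z _ fun s hs => (mem_Sm.1 hs).2.1).trans ?_
    have h1 : 2 ≤ z := by linarith [Real.add_one_le_exp Z]
    have := VV_le h1
    rwa [hzdef, Real.log_exp] at this
  have hhi := H.hi (Sm x z Hi) fun s hs => (mem_Sm.1 hs).2
  have hlo : ∑ s ∈ Sm x z Lo, (s : ℝ)⁻¹ ≤ ε' * L :=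
    (H.lo (Sm x z Lo) fun s hs => (mem_Sm.1 hs).2).trans
      (mul_le_mul (min_le_left _ _) hZL (by linarith) hε'.le)
  have hsx : (x.sqrt : ℝ) / h ≤ x.sqrt := div_le_self (by positivity) hh
  have hsx2 : √(x : ℝ) ≤ x := Real.sqrt_le_self_iff.2 (Or.inr hx1')
  have hL2 : 1 ≤ L ^ 2 := one_le_pow₀ hL1
  have hΓ : ∀ T, L ^ 2 ≤ T → T ≤ x.sqrt / h → 0 < Gam x T := fun T h1 h2 =>
    Gam_pos (hL2.trans h1) (h2.trans (hsx.trans ((sqrt_cast_le x).trans hsx2)))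
  set Mn : ℝ → ℝ := fun T => ∑ τ ∈ 𝒯, aco y y' τ * ∑ i : Fin K,
    QQ x T K J (a * L) (Sm x z fun _ => True) (Sm x z fun _ => True) (part J i (jj τ))
      (Dt x w b (sel y y' τ)) (Dt x w b (τ - sel y y' τ)) with hMn
  set β : ℝ := 4 * (ε * Z) * (Real.exp 73 * Z) * Ψ / (η * L) ^ 2 with hβ
  have hlong : ∀ (A₁ A₂ : Finset ℕ) (I : Finset (Ix K J)), (∀ s ∈ A₁, 1 ≤ s) → (∀ s ∈ A₂, 1 ≤ s) →
      (∑ s ∈ A₁, (s : ℝ)⁻¹) * (∑ s ∈ A₂, (s : ℝ)⁻¹) ≤ (ε * Z) * (Real.exp 73 * Z) →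
      QQ x (L ^ 2) K J (a * L) A₁ A₂ I (D0 x w) (D0 x w) / Gam x (L ^ 2) ≤ β := by
    intro A₁ A₂ I h1 h2 h3
    have h4 := hΓ _ le_rfl hT0
    rw [div_le_iff₀ h4]
    refine (hLg K J (a * L) A₁ A₂ I h1 h2).trans ?_
    calc _ = 4 * ((∑ s ∈ A₁, (s : ℝ)⁻¹) * (∑ s ∈ A₂, (s : ℝ)⁻¹)) * Ψ / (η * L) ^ 2 *
          Gam x (L ^ 2) := by ring
      _ ≤ 4 * ((ε * Z) * (Real.exp 73 * Z)) * Ψ / (η * L) ^ 2 * Gam x (L ^ 2) := by gcongr
      _ = _ := by rw [hβ]; ring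
  have hn : ∀ U : ℕ → Prop, 0 ≤ ∑ s ∈ Sm x z U, (s : ℝ)⁻¹ :=
    fun U => sum_nonneg fun _ _ => by positivity
  have h1s : ∀ U : ℕ → Prop, ∀ s ∈ Sm x z U, 1 ≤ s := fun U s hs => (mem_Sm.1 hs).1.1
  have hsm : ∀ U : ℕ → Prop, ∀ s ∈ Sm x z U, Smooth z s := fun U s hs => (mem_Sm.1 hs).2.1
  have key : ∀ T, L ^ 2 ≤ T → T ≤ x.sqrt / h →
      |SS x T K J (a * L) (Sm x z Typ) tau (fun n => rf w n * Gd b y y' n) / Gam x T
        - Mn T / Gam x T / κ| ≤ ζ * P / 4 + 8 * 2 ^ k * L * e := by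
    intro T h1 h2
    have hG := hΓ T h1 h2
    have r1 := QQ_replace (T := T) hx1 hκ.le Typ Hi Lo err H.err_nonneg H.mul 𝒯 jj h𝒯 hcov hequi
    have r2 := hRg K J (a * L) M (Sm x z Typ) (fun s => tau s * err s) hSz
      (fun s => mul_nonneg (tau_nonneg s) (H.err_nonneg s)) T (hL2.trans h1)
      (h2.trans (hsx.trans (sqrt_cast_le x)))
    have r3 : WW K J (a * L) (Sm x z Typ) (fun s => tau s * err s) ≤ ε * Z ^ 2 * Ψ :=
      mul_le_mul_of_nonneg_right (H.mean _ fun s hs => (mem_Sm.1 hs).2) hΨ0.le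
    have r4 : ∀ (i : Fin K) (j : ℕ),
        QQ x T K J (a * L) (Sm x z Hi) (Sm x z fun _ => True) (part J i j) (D0 x w) (D0 x w)
        + QQ x T K J (a * L) (Sm x z fun _ => True) (Sm x z Hi) (part J i j) (D0 x w) (D0 x w)
        + QQ x T K J (a * L) (Sm x z Lo) (Sm x z fun _ => True) (part J i j) (D0 x w) (D0 x w)
        + QQ x T K J (a * L) (Sm x z fun _ => True) (Sm x z Lo) (part J i j) (D0 x w) (D0 x w)
        ≤ (4 * e + 2 * β) * Gam x T := by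
      intro i j
      have a1 := (abs_le.1 (hCx (a * L) z Hi (fun _ => True) (part J i j) _ _ hzR hlz hD0z hD0z
        (fun p hp hp' s => ⟨hinv p hp hp' s, Iff.rfl⟩) T (L ^ 2) h1 h2 le_rfl hT0)).2
      have a2 := (abs_le.1 (hCx (a * L) z (fun _ => True) Hi (part J i j) _ _ hzR hlz hD0z hD0z
        (fun p hp hp' s => ⟨Iff.rfl, hinv p hp hp' s⟩) T (L ^ 2) h1 h2 le_rfl hT0)).2
      have a3 := hlong _ _ (part J i j) (h1s Hi) (h1s fun _ => True)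
        (mul_le_mul hhi hall (hn _) (by positivity))
      have a4 := hlong _ _ (part J i j) (h1s fun _ => True) (h1s Hi)
        (by rw [mul_comm]; exact mul_le_mul hhi hall (hn _) (by positivity))
      have a5 := hSpx (a * L) z _ _ (part J i j) _ _ hz.le hlz hD0s hD0s (hsm Lo)
        (hsm fun _ => True) (Or.inl hlo) T h1 (h2.trans hsx)
      have a6 := hSpx (a * L) z _ _ (part J i j) _ _ hz.le hlz hD0s hD0s (hsm fun _ => True)
        (hsm Lo) (Or.inr hlo) T h1 (h2.trans hsx)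
      have a7 := (div_le_iff₀ hG).1 ((sub_le_iff_le_add.1 a1).trans (add_le_add le_rfl a3))
      have a8 := (div_le_iff₀ hG).1 ((sub_le_iff_le_add.1 a2).trans (add_le_add le_rfl a4))
      linarith only [a5, a6, a7, a8]
    have r5 := sum_le_card_nsmul (univ : Finset (Fin K)) _ _ fun i _ =>
      sum_le_card_nsmul (range (J + 1)) _ _ fun j _ => r4 i j
    rw [card_univ, Fintype.card_fin, card_range, nsmul_eq_mul, nsmul_eq_mul] at r5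
    push_cast at r5
    have hβ0 : 0 ≤ β := by positivity
    have r6 : (K : ℝ) * ((J + 1) * ((4 * e + 2 * β) * Gam x T))
        ≤ κ * (2 * L) * ((4 * e + 2 * β) * Gam x T) := by
      rw [← mul_assoc]; gcongr
    have r7 : 2 * Gam x T * WW K J (a * L) (Sm x z Typ) (fun s => tau s * err s) / (η * L)
        ≤ 2 * Gam x T * (ε * Z ^ 2 * Ψ) / (η * L) := by gcongr
    have r8 : |κ * SS x T K J (a * L) (Sm x z Typ) tau (fun n => rf w n * Gd b y y' n) - Mn T|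
        ≤ 4 ^ k * κ * (2 * Gam x T * (ε * Z ^ 2 * Ψ) / (η * L))
          + 2 ^ k * (κ * (2 * L) * ((4 * e + 2 * β) * Gam x T)) :=
      r1.trans (add_le_add (mul_le_mul_of_nonneg_left (r2.trans r7) (by positivity))
        (mul_le_mul_of_nonneg_left (r5.trans r6) (by positivity)))
    have e1 : SS x T K J (a * L) (Sm x z Typ) tau (fun n => rf w n * Gd b y y' n) / Gam x T
        - Mn T / Gam x T / κ = (κ * SS x T K J (a * L) (Sm x z Typ) tau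
          (fun n => rf w n * Gd b y y' n) - Mn T) / (κ * Gam x T) := by field_simp
    rw [e1, abs_div, abs_of_pos (mul_pos hκ hG), div_le_iff₀ (mul_pos hκ hG)]
    refine r8.trans ?_
    have e2 : 4 ^ k * κ * (2 * Gam x T * (ε * Z ^ 2 * Ψ) / (η * L))
          + 2 ^ k * (κ * (2 * L) * ((4 * e + 2 * β) * Gam x T))
        = ((8 * 4 ^ k * η + 64 * 2 ^ k * Real.exp 73) * ε / η ^ 2 * P + 8 * 2 ^ k * L * e) *
          (κ * Gam x T) := by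
      rw [hβ, hPdef]; field_simp; ring
    rw [e2]
    refine mul_le_mul_of_nonneg_right (add_le_add ?_ le_rfl) (mul_pos hκ hG).le
    have b1 : (2 : ℝ) ^ k ≤ 4 ^ k := pow_le_pow_left₀ (by norm_num) (by norm_num) k
    have b2 : η ≤ Real.exp 73 := by linarith [Real.add_one_le_exp 73]
    have b3 : 8 * 4 ^ k * η + 64 * 2 ^ k * Real.exp 73 ≤ 72 * 4 ^ k * Real.exp 73 := by
      have c1 : (4 : ℝ) ^ k * η ≤ 4 ^ k * Real.exp 73 := by gcongr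
      have c2 : (2 : ℝ) ^ k * Real.exp 73 ≤ 4 ^ k * Real.exp 73 := by gcongr
      linarith only [c1, c2]
    have b4 : (8 * 4 ^ k * η + 64 * 2 ^ k * Real.exp 73) * ε / η ^ 2 ≤ ζ / 4 := by
      rw [div_le_iff₀ (by positivity)]
      have := mul_le_mul_of_nonneg_right b3 hε.le
      linarith only [this, hε2]
    calc _ ≤ ζ / 4 * P := mul_le_mul_of_nonneg_right b4 (by linarith)
      _ = _ := by ring
  intro T h1 h2
  have hG := hΓ T h1 h2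
  have hG0 := hΓ _ le_rfl hT0
  have m1 : |Mn T / Gam x T - Mn (L ^ 2) / Gam x (L ^ 2)| ≤ N * (2 ^ k * (K * e)) := by
    simp only [hMn]
    rw [sum_div, sum_div, ← sum_sub_distrib]
    refine (abs_sum_le_sum_abs _ _).trans ?_
    refine (sum_le_card_nsmul _ _ (2 ^ k * (K * e)) fun τ hτ => ?_).trans ?_
    · rw [mul_div_assoc, mul_div_assoc, ← mul_sub, abs_mul, sum_div, sum_div, ← sum_sub_distrib]
      obtain ⟨_, t2, _, t4, t5⟩ := h𝒯 τ hτ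
      refine mul_le_mul ((abs_aco_le _ _ _).trans (pow_le_pow_right₀ (by norm_num) t2))
        ((abs_sum_le_sum_abs _ _).trans ?_) (abs_nonneg _) (by positivity)
      have := sum_le_card_nsmul (univ : Finset (Fin K)) _ _ fun i _ =>
        hCx (a * L) z (fun _ => True) (fun _ => True) (part J i (jj τ)) _ _ hzR hlz
          (fun d hd => hD0z d (t4 hd)) (fun d hd => hD0z d (t5 hd))
          (fun _ _ _ _ => ⟨Iff.rfl, Iff.rfl⟩) T (L ^ 2) h1 h2 le_rfl hT0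
      rwa [card_univ, Fintype.card_fin, nsmul_eq_mul] at this
    · rw [nsmul_eq_mul]
      gcongr
  have m2 : |Mn T / Gam x T / κ - Mn (L ^ 2) / Gam x (L ^ 2) / κ| ≤ 2 * N * 2 ^ k * L * e := by
    rw [← sub_div, abs_div, abs_of_pos hκ, div_le_iff₀ hκ]
    refine m1.trans ?_
    calc (N : ℝ) * (2 ^ k * (K * e)) ≤ N * (2 ^ k * (κ * (2 * L) * e)) := by gcongr
      _ = _ := by ring
  have m3 : (16 + 2 * N) * 2 ^ k * L * e ≤ ζ * P / 2 := by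
    have : (16 + 2 * N) * 2 ^ k * L * e = ζ * (ρ ^ 2 * c * L / 4) / 2 := by
      rw [hedef]; field_simp; ring
    rw [this]; gcongr
  have m4 : ζ * P ≤ ζ * WW K J (a * L) (Sm x z Typ) tau / L := by
    rw [mul_div_assoc]; gcongr
  have k1 := abs_le.1 (key T h1 h2)
  have k2 := abs_le.1 (key _ le_rfl hT0)
  have k3 := abs_le.1 m2
  rw [abs_le]
  constructor <;> linarith only [k1.1, k1.2, k2.1, k2.2, k3.1, k3.2, m3, m4]

end Pool.Agent.Work.MP_82fd4a_nt
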