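import Pool.Agent.Work.MP_82fd4a_nt.SumI
import Pool.Agent.Work.MP_82fd4a_nt.SumII
import Pool.Agent.Work.MP_82fd4a_nt.Geom

/-! Integers with a large prime factor near every large integer. -/

set_option autoImplicit false
open Filter Topology Finset

namespace Pool.Agent.Work.MP_82fd4a_nt

lemma ev_rpow_le {c e : ℝ} (hc : 0 < c) (he : 0 < e) : ∀ᶠ x : ℕ in atTop, (x : ℝ) ^ (-c) ≤ e :=
  ((tendsto_rpow_neg_atTop hc).comp tendsto_natCast_atTop_atTop).eventually (ge_mem_nhds he)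

theorem near {μ : ℝ} (hμ : 0 < μ) (hμ1 : μ ≤ 1 / 100) : ∃ C : ℝ, 0 < C ∧ ∀ᶠ x : ℕ in atTop,
    ∃ n p : ℕ, p.Prime ∧ p ∣ n ∧ |(n : ℝ) - x| < C * √(x : ℝ) ∧ (x : ℝ) ^ (5 / 6 - μ) < p := by
  classical
  obtain ⟨η₀, hη₀, hI⟩ := sum_Phi (ζ := 1 / 100) (by norm_num)
  set η : ℝ := min η₀ (1 / 100) with hηdef
  have hη : 0 < η := lt_min hη₀ (by norm_num)
  have hη1 : η ≤ 1 / 100 := min_le_right _ _
  set k : ℕ := ⌈2 / η⌉₊ with hk
  have hkη : 2 ≤ k * η := (div_le_iff₀ hη).1 (Nat.le_ceil _)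
  obtain ⟨K, hK, hII⟩ := sum_Gd hη hη1 (ζ := 1 / 100) (by norm_num) k
  have hdel : 0 < del := by norm_num [del]
  set a : ℝ := min η (min (μ / 10) del / (2 * K + 3)) with hadef
  have ha : 0 < a := lt_min hη (div_pos (lt_min (by positivity) hdel) (by positivity))
  have ha1 : a ≤ η := min_le_left _ _
  have ha2 : a * (2 * K + 3) ≤ min (μ / 10) del := (le_div_iff₀ (by positivity)).1 (min_le_right _ _)
  have ha3 := ha2.trans (min_le_left _ _)
  have ha4 := ha2.trans (min_le_right _ _)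
  set J : ℕ := ⌊(1 / 3 + μ) / a⌋₊ with hJ
  have hJ1 : J * a ≤ 1 / 3 + μ := (le_div_iff₀ ha).1 (Nat.floor_le (by positivity))
  have hJ2 : 1 / 3 + μ < (J + 1) * a := (div_lt_iff₀ ha).1 (Nat.lt_floor_add_one _)
  set β : ℝ := a / (100 * (k + 1)) with hβdef
  have hβ : 0 < β := by positivity
  have hβ1 : (k + 1) * β = a / 100 := by rw [hβdef]; field_simp
  set B : ℕ := ⌈2 / β⌉₊ with hB
  have hB1 : 2 ≤ B * β := (div_le_iff₀ hβ).1 (Nat.le_ceil _)
  set 𝒯₀ : Finset (Multiset ℕ) := (k • (range B).val).powerset.toFinset with h𝒯₀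
  obtain ⟨h, hh, hII⟩ := hII a ha ha1 J (by linarith) 𝒯₀.card
  refine ⟨8 * h * 1600000, by positivity, ?_⟩
  have hL : Tendsto (fun x : ℕ => Real.log x) atTop atTop :=
    Real.tendsto_log_atTop.comp tendsto_natCast_atTop_atTop
  filter_upwards [hI η hη (min_le_left _ _) K J, hII, sum_not_sqfree hη hη1 K J, sum_long, sum_tail,
    ev_sq_le h (by linarith), (hL.const_mul_atTop hμ).eventually_ge_atTop 100,
    ev_rpow_le hdel (show (0 : ℝ) < 1 / 800 by norm_num),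
    ev_rpow_le (half_pos hη) (show (0 : ℝ) < 1 / (800 * 4 ^ k) by positivity),
    eventually_ge_atTop 1] with x hIx hIIx hNx hLx hTx hT0 hbig he1 he2 hx1
  obtain ⟨S, hS, hW0, hW1, hIIx⟩ := hIIx
  by_contra hcon
  set L := Real.log x with hLdef
  have hL0 : 0 ≤ L := Real.log_natCast_nonneg x
  have hμL : μ * L ≤ L / 100 := by linarith [mul_le_mul_of_nonneg_right hμ1 hL0]
  have hL1 : 10000 ≤ L := by linarith
  obtain ⟨l1, l2⟩ := log_sqrt_bounds hx1
  have hb : 0 < β * L := by positivity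
  have hΛ : 0 < a * L := by positivity
  have g1 := mul_le_mul_of_nonneg_right ha3 hL0
  have g2 := mul_le_mul_of_nonneg_right ha4 hL0
  have g3 := mul_le_mul_of_nonneg_right hJ1 hL0
  have g4 := mul_le_mul_of_nonneg_right hJ2.le hL0
  have g5 : 0 ≤ (K : ℝ) * (a * L) := by positivity
  have f1 : 0 ≤ (Real.log x.sqrt - J * (a * L / 2)) / (β * L) :=
    div_nonneg (by linarith) hb.le
  have f2 : 0 ≤ (Real.log x.sqrt - 11 * (a * L) / 8) / (β * L) :=
    div_nonneg (by linarith) hb.le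
  set y : ℕ := ⌈(Real.log x.sqrt - J * (a * L / 2)) / (β * L)⌉₊ with hy
  set y' : ℕ := ⌊(Real.log x.sqrt - 11 * (a * L) / 8) / (β * L)⌋₊ with hy'
  have H : Num x K J k y y' η μ (a * L) (β * L) :=
    { x1 := hx1, K1 := hK, η0 := hη, η1 := hη1, μ1 := hμ1, kη := hkη, big := hbig, b0 := hb
      kb := by rw [← mul_assoc, hβ1]; linarith
      K2 := by linarith
      K3 := by linarith
      J1 := by linarith
      J2 := by linarith
      y1 := (div_le_iff₀ hb).1 (Nat.le_ceil _)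
      y2 := by
        have := (Nat.ceil_lt_add_one f1).le
        rw [div_add_one hb.ne', le_div_iff₀ hb] at this
        exact this
      y3 := (le_div_iff₀ hb).1 (Nat.floor_le f2)
      y4 := by
        have := (div_lt_iff₀ hb).1 (Nat.lt_floor_add_one
          ((Real.log x.sqrt - 11 * (a * L) / 8) / (β * L)))
        linarith }
  have hSz := H.sized hS
  set T : ℝ := x.sqrt / h with hT
  have hx1' : (1 : ℝ) ≤ x := by exact_mod_cast hx1
  have hsx : T ≤ √(x : ℝ) := (div_le_self (by positivity) hh).trans (sqrt_cast_le x)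
  have hsx2 : √(x : ℝ) ≤ x := Real.sqrt_le_self_iff.2 (Or.inr hx1')
  have hL2 : 2 ≤ L ^ 2 := by nlinarith
  have hG : 0 < Gam x T := Gam_pos (by linarith) (hsx.trans hsx2)
  have hG0 : 0 < Gam x (L ^ 2) := Gam_pos (by linarith) (hT0.trans (hsx.trans hsx2))
  have r1 := abs_le.1 (hIx (a * L) _ (β * L) y S hSz H.level T (L ^ 2) hT0 hsx le_rfl
    (hT0.trans hsx))
  have r2 := abs_le.1 (hIIx _ (β * L) y y'
    (𝒯₀.filter fun τ => Good y y' τ ∧ τ.card ≤ k ∧ 4 * L / 5 ≤ τ.sum * (β * L))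
    (jj x y y' (a * L) (β * L)) (card_filter_le _ _) hSz
    (fun τ hτ => by
      obtain ⟨t1, t2, t3⟩ := (mem_filter.1 hτ).2
      exact ⟨t1, t2, H.types t1 t3⟩)
    (fun s hs π hπ n hn hr h1 _ h3 => by
      have c1 := H.card_le hn hr
      have c2 := H.log_n (hS s hs) hπ h1
      have c3 := H.log_le c1
      refine mem_filter.2 ⟨?_, h3, c1, by linarith [H.kb1]⟩
      rw [h𝒯₀, Multiset.mem_toFinset, Multiset.mem_powerset]
      refine ty_le hb c1 ?_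
      have c4 : Real.log n ≤ Real.log (2 * x) :=
        Real.log_le_log (by exact_mod_cast (mem_Icc.1 hn).1) (by exact_mod_cast (mem_Icc.1 hn).2)
      rw [Real.log_mul (by norm_num) H.x0.ne'] at c4
      linarith [log_two_le, mul_le_mul_of_nonneg_right hB1 hL0])
    (fun π hπ τ hτ d hd => by
      obtain ⟨t1, _, t3⟩ := (mem_filter.1 hτ).2
      exact H.window hπ t1 (H.types t1 t3).1 hd)
    T hT0 le_rfl)
  have r3 := hNx (a * L) _ S hSz T (by linarith) hsx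
  have r4 := hNx (a * L) _ S hSz (L ^ 2) (by linarith) (hT0.trans hsx)
  have r5 := hLx K J (a * L) _ S hSz
  have r6 := hTx K J (a * L) _ S hSz T (8 * h * 1600000 * √(x : ℝ)) (by linarith) hsx
    (fun s hs π hπ p hp h1 => by
      by_contra h2
      refine hcon ⟨_, p, hp, dvd_mul_left _ _, not_le.1 h2,
        rpow_lt_of_log H.x0 (by exact_mod_cast hp.pos) ?_⟩
      linarith [H.log_n (hS s hs) hπ h1])
  have r7 := SS_mono (T := T) fun s hs π hπ n hn h1 h2 =>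
    (H.point hn (H.log_n (hS s hs) hπ h1) (H.log_n' (hS s hs) hπ (mem_Icc.1 hn).1 h2)).1
  have r8 := SS_mono (T := L ^ 2) fun s hs π hπ n hn h1 h2 =>
    (H.point hn (H.log_n (hS s hs) hπ h1) (H.log_n' (hS s hs) hπ (mem_Icc.1 hn).1 h2)).2
  rw [SS_lin, SS_lin] at r7 r8
  set W := WW K J (a * L) S tau / L with hW
  have e1 : Real.exp (-(T * (8 * h * 1600000 * √(x : ℝ)) / (4 * x))) ≤ 1 / 1600000 := by
    have c1 : √(x : ℝ) ≤ 2 * x.sqrt := by
      have h3 : (x : ℝ) < ((x.sqrt : ℝ) + 1) ^ 2 := by exact_mod_cast Nat.lt_succ_sqrt' x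
      have h4 : (1 : ℝ) ≤ x.sqrt := by exact_mod_cast Nat.sqrt_pos.2 hx1
      rw [Real.sqrt_le_left (by positivity)]
      nlinarith
    have c2 : 1600000 ≤ T * (8 * h * 1600000 * √(x : ℝ)) / (4 * x) := by
      rw [le_div_iff₀ (by positivity), hT]
      have c3 : (x.sqrt : ℝ) / h * (8 * h * 1600000 * √(x : ℝ))
          = 1600000 * (4 * (2 * x.sqrt * √(x : ℝ))) := by field_simp; ring
      have c4 : (x : ℝ) ≤ 2 * x.sqrt * √(x : ℝ) := by
        calc (x : ℝ) = √(x : ℝ) * √(x : ℝ) := (Real.mul_self_sqrt H.x0.le).symm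
          _ ≤ _ := by gcongr
      rw [c3]
      linarith
    rw [Real.exp_neg, one_div]
    have c5 := Real.add_one_le_exp (T * (8 * h * 1600000 * √(x : ℝ)) / (4 * x))
    exact inv_anti₀ (by norm_num) (by linarith only [c2, c5])
  have s6 : SS x T K J (a * L) S tau (fun n => if n.Prime then 1 else 0) ≤ W / 100 * Gam x T := by
    refine r6.trans ?_
    calc _ ≤ 16000 * (1 / 1600000) * Gam x T * WW K J (a * L) S tau / L := by gcongr
      _ = _ := by rw [hW]; ring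
  have e2 : 2 * 4 ^ k * (x : ℝ) ^ (-(η / 2)) ≤ 1 / 400 := by
    calc _ ≤ 2 * 4 ^ k * (1 / (800 * 4 ^ k) : ℝ) := by gcongr
      _ = _ := by field_simp; norm_num
  have s3 := (mul_le_mul_of_nonneg_left r3 (show (0 : ℝ) ≤ 2 * 4 ^ k by positivity)).trans
    (show _ ≤ 1 / 400 * Gam x T by
      rw [mul_comm (Gam x T), ← mul_assoc]; exact mul_le_mul_of_nonneg_right e2 hG.le)
  have s4 := (mul_le_mul_of_nonneg_left r4 (show (0 : ℝ) ≤ 2 * 4 ^ k by positivity)).trans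
    (show _ ≤ 1 / 400 * Gam x (L ^ 2) by
      rw [mul_comm (Gam x (L ^ 2)), ← mul_assoc]; exact mul_le_mul_of_nonneg_right e2 hG0.le)
  have s5 : W / 10 * Gam x (L ^ 2) ≤ _ := le_trans (le_of_eq (by rw [hW]; ring)) r5
  have u1 := (div_le_iff₀ hG).2 (show _ ≤ (W / 100 + 1 / 400) * Gam x T from
    r7.trans ((add_le_add s6 s3).trans (le_of_eq (by ring))))
  have u2 := (le_div_iff₀ hG0).2 (show (W / 10 - 1 / 400) * Gam x (L ^ 2) ≤ _ from
    (le_of_eq (by ring)).trans (sub_le_iff_le_add.2 (s5.trans (r8.trans (add_le_add le_rfl s4)))))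
  rw [add_div, mul_div_assoc] at u1 u2
  rw [mul_div_assoc, ← hW] at r1 r2
  linarith only [r1.1, r2.2, u1, u2, he1, hW1]

theorem large_prime_factor {θ : ℝ} (hθ : θ < 5 / 6) : ∃ C : ℝ, ∀ t : ℝ, 1 ≤ t → ∃ n p : ℕ,
    t < n ∧ √(n : ℝ) - √t < C ∧ p.Prime ∧ p ∣ n ∧ (n : ℝ) ^ θ < p := by
  set μ : ℝ := min (1 / 100) ((5 / 6 - θ) / 2) with hμdef
  have hμ : 0 < μ := lt_min (by norm_num) (by linarith)
  have hμ1 : μ ≤ 1 / 100 := min_le_left _ _
  have hμ2 : μ ≤ (5 / 6 - θ) / 2 := min_le_right _ _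
  obtain ⟨C, hC, h⟩ := near hμ hμ1
  have h2 : ∀ᶠ x : ℕ in atTop, 2 ≤ (x : ℝ) ^ μ :=
    ((tendsto_rpow_atTop hμ).comp tendsto_natCast_atTop_atTop).eventually_ge_atTop 2
  obtain ⟨x₀, hx₀⟩ := eventually_atTop.1 (h.and h2)
  obtain ⟨q, hq1, hq⟩ := Nat.exists_infinite_primes (x₀ + ⌈(C + 1) ^ 2⌉₊ + 1)
  refine ⟨2 * C + 1 + √(q : ℝ), fun t ht => ?_⟩
  have t0 : 0 < √t := Real.sqrt_pos.2 (by linarith)
  have t1 : √t * √t = t := Real.mul_self_sqrt (by linarith)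
  have t2 : 1 ≤ √t := Real.one_le_sqrt.2 ht
  by_cases hs : t < q
  · refine ⟨q, q, hs, by linarith, hq, dvd_rfl, ?_⟩
    have q1 : (1 : ℝ) < q := by exact_mod_cast hq.one_lt
    calc (q : ℝ) ^ θ < (q : ℝ) ^ (1 : ℝ) := Real.rpow_lt_rpow_of_exponent_lt q1 (by linarith)
      _ = q := Real.rpow_one _
  have q2 : ((x₀ + ⌈(C + 1) ^ 2⌉₊ + 1 : ℕ) : ℝ) ≤ t := (Nat.cast_le.2 hq1).trans (not_lt.1 hs)
  push_cast at q2
  have q3 := Nat.le_ceil ((C + 1) ^ 2)
  have q4 : C + 1 ≤ √t := Real.le_sqrt_of_sq_le (by linarith [Nat.cast_nonneg (α := ℝ) x₀])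
  set x : ℕ := ⌈t + 2 * C * √t⌉₊ with hx
  have cs : 0 ≤ C * √t := by positivity
  have x1 : t + 2 * C * √t ≤ x := Nat.le_ceil _
  have x2 : (x : ℝ) < t + 2 * C * √t + 1 := Nat.ceil_lt_add_one (by linarith)
  have x3 : x₀ ≤ x := by
    have : (x₀ : ℝ) ≤ x := by linarith [Nat.cast_nonneg (α := ℝ) ⌈(C + 1) ^ 2⌉₊]
    exact_mod_cast this
  have x4 : √(x : ℝ) ≤ 2 * √t := by
    rw [Real.sqrt_le_left (by positivity)]
    nlinarith
  obtain ⟨⟨n, p, hp, hpn, hn, hpx⟩, hx2⟩ := hx₀ x x3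
  obtain ⟨n1, n2⟩ := abs_lt.1 hn
  have x5 : C * √(x : ℝ) ≤ C * (2 * √t) := by gcongr
  have n3 : √(n : ℝ) < √t + 2 * C + 1 := by
    rw [Real.sqrt_lt' (by positivity)]
    nlinarith
  refine ⟨n, p, by linarith, by linarith [Real.sqrt_nonneg (q : ℝ)], hp, hpn, ?_⟩
  have x6 : (1 : ℝ) ≤ x := by linarith
  have n4 : (n : ℝ) ≤ 2 * x := by nlinarith
  have n5 : (1 : ℝ) ≤ n := by linarith
  have θ1 : 0 ≤ 5 / 6 - 2 * μ := by linarith
  calc (n : ℝ) ^ θ ≤ (n : ℝ) ^ (5 / 6 - 2 * μ) := Real.rpow_le_rpow_of_exponent_le n5 (by linarith)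
    _ ≤ (2 * x) ^ (5 / 6 - 2 * μ) := Real.rpow_le_rpow (by linarith) n4 θ1
    _ = 2 ^ (5 / 6 - 2 * μ) * (x : ℝ) ^ (5 / 6 - 2 * μ) := Real.mul_rpow (by norm_num) (by linarith)
    _ ≤ (x : ℝ) ^ μ * (x : ℝ) ^ (5 / 6 - 2 * μ) := by
      gcongr
      refine le_trans ?_ hx2
      calc (2 : ℝ) ^ (5 / 6 - 2 * μ) ≤ 2 ^ (1 : ℝ) :=
            Real.rpow_le_rpow_of_exponent_le (by norm_num) (by linarith)
        _ = 2 := Real.rpow_one _
    _ = (x : ℝ) ^ (5 / 6 - μ) := by rw [← Real.rpow_add (by linarith)]; congr 1; ring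
    _ < p := hpx

end Pool.Agent.Work.MP_82fd4a_nt
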