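import Pool.Agent.Work.MP_82fd4a_nt.NDefs
import Pool.Agent.Work.MP_82fd4a_nt.Fund

/-! The fundamental lemma for the primes between two bounds. -/

set_option autoImplicit false
open Filter Topology Finset

namespace Pool.Agent.Work.MP_82fd4a_nt

open Pool.Agent.Lib.ANT in
theorem nfund_prod {z w : ℝ} (z2 : 2 ≤ z) (zw : z ≤ w) :
    ∏ p ∈ (Ioc ⌊z⌋₊ ⌊w⌋₊).filter Nat.Prime, (1 - (p : ℝ)⁻¹) ≤
      2 * Real.exp (48 / Real.log 2) * Real.log z / Real.log w := by
  have a2 : 2 ≤ ⌊z⌋₊ := Nat.le_floor (by exact_mod_cast z2)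
  have ac : ⌊z⌋₊ ≤ ⌊w⌋₊ := Nat.floor_le_floor zw
  have az : (⌊z⌋₊ : ℝ) ≤ z := Nat.floor_le (by linarith)
  have wc : w < ⌊w⌋₊ + 1 := Nat.lt_floor_add_one w
  have t := (abs_le.1 (abs_sum_inv_prime_Ioc_sub_le _ _ a2 ac)).1
  generalize ⌊z⌋₊ = a at *
  generalize ⌊w⌋₊ = c at *
  have a2' : (2 : ℝ) ≤ a := by exact_mod_cast a2
  have c2' : (2 : ℝ) ≤ c := by exact_mod_cast a2.trans ac
  have l2 : 0 < Real.log 2 := Real.log_pos (by norm_num)
  have la : Real.log 2 ≤ Real.log a := Real.log_le_log (by norm_num) a2'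
  have lc : 0 < Real.log c := Real.log_pos (by linarith)
  have lw : 0 < Real.log w := Real.log_pos (by linarith)
  have lz : Real.log a ≤ Real.log z := Real.log_le_log (by linarith) az
  have lN : Real.log w ≤ 2 * Real.log c := by
    have := Real.log_le_log (by linarith) (show w ≤ (c : ℝ) ^ 2 by nlinarith)
    rw [Real.log_pow] at this
    exact_mod_cast this
  have t0 : 48 / Real.log a ≤ 48 / Real.log 2 := div_le_div_of_nonneg_left (by norm_num) l2 la
  calc _ ≤ ∏ p ∈ (Ioc a c).filter Nat.Prime, Real.exp (-(p : ℝ)⁻¹) :=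
        prod_le_prod (fun p hp => sub_nonneg.2 (inv_le_one_of_one_le₀
          (by exact_mod_cast (mem_filter.1 hp).2.one_le))) fun p _ => Real.one_sub_le_exp_neg _
    _ ≤ Real.exp (48 / Real.log 2 + (Real.log (Real.log a) - Real.log (Real.log c))) := by
        rw [← Real.exp_sum, sum_neg_distrib]
        exact Real.exp_le_exp.2 (by linarith)
    _ = Real.exp (48 / Real.log 2) * (Real.log a / Real.log c) := by
        rw [Real.exp_add, Real.exp_sub, Real.exp_log (by linarith), Real.exp_log lc]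
    _ ≤ Real.exp (48 / Real.log 2) * (2 * Real.log z / Real.log w) := by
        refine mul_le_mul_of_nonneg_left ?_ (Real.exp_pos _).le
        rw [div_le_div_iff₀ lc lw]
        nlinarith
    _ = _ := by ring

open Pool.Agent.Lib.ANT in
theorem fund_mid : ∃ C : ℝ, 0 < C ∧ ∀ s : ℝ, 10 ≤ s → ∀ᶠ z : ℝ in atTop, ∀ w : ℝ, z ≤ w →
    ∃ (E : Finset ℕ) (lam err : ℕ → ℝ), (∀ e ∈ E, 1 ≤ e ∧ Rough z e ∧ (e : ℝ) ≤ w ^ s) ∧
      (∀ e, |lam e| ≤ 2) ∧ (∀ e, |err e| ≤ 2) ∧
      (∀ n : ℕ, 1 ≤ n → |fr z w n - ∑ e ∈ E with e ∣ n, lam e| ≤ ∑ e ∈ E with e ∣ n, err e) ∧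
      ∑ e ∈ E, err e / e ≤ C * Real.log z / (s ^ 3 * Real.log w) := by
  classical
  obtain ⟨w₀, hw⟩ := fund_linHyp
  refine ⟨2 * Real.exp (48 / Real.log 2) * (14000 * 8), by positivity, fun s hs => ?_⟩
  filter_upwards [eventually_ge_atTop (2 : ℝ), eventually_ge_atTop (w₀ : ℝ)] with z z2 zw₀ w zw
  have z0 : 0 < z := by linarith
  have w0 : 0 < w := by linarith
  have w1 : 1 < w := by linarith
  have lz : 0 < Real.log z := Real.log_pos (by linarith)
  have lw := Real.log_pos w1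
  have B1 := nfund_prod z2 zw
  set a := ⌊z⌋₊ with ha
  set P1 := (Ioc a ⌊w⌋₊).filter Nat.Prime with hP1
  have mem : ∀ p : ℕ, p ∈ P1 ↔ p.Prime ∧ z < p ∧ (p : ℝ) ≤ w := fun p => by
    rw [hP1, mem_filter, mem_Ioc, ha, Nat.floor_lt z0.le, Nat.le_floor_iff w0.le, and_comm]
  have h0 : ∀ p ∈ (∅ : Finset ℕ), p ≤ a := fun p hp => absurd hp (notMem_empty p)
  have h1 : ∀ p ∈ P1, a < p := fun p hp => (mem_Ioc.1 (mem_filter.1 hp).1).1
  have hU : ∀ p ∈ ∅ ∪ P1, p ∈ P1 := fun p hp => by rwa [empty_union] at hp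
  have hP : ∀ p ∈ ∅ ∪ P1, p.Prime := fun p hp => ((mem p).1 (hU p hp)).1
  set D := w ^ s with hD
  have ww : w + 1 ≤ w ^ 2 := by nlinarith
  have D3 : (w + 1) ^ 3 ≤ D := by
    calc (w + 1) ^ 3 ≤ (w ^ 2) ^ 3 := pow_le_pow_left₀ (by linarith) ww 3
      _ = w ^ ((6 : ℕ) : ℝ) := by rw [Real.rpow_natCast]; ring
      _ ≤ D := Real.rpow_le_rpow_of_exponent_le w1.le (by push_cast; linarith)
  have wD : w < D := by
    have : w + 1 ≤ (w + 1) ^ 3 := le_self_pow₀ (by linarith) (by norm_num)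
    linarith
  set E := (Icc 1 ⌊D⌋₊).filter (Rough z) with hEdef
  have hF : ∀ e, ∀ d ∈ fundF e D a (∅ ∪ P1), ∀ p ∈ d, p ∈ P1 := fun e d hd p hp =>
    hU p (mem_powerset.1 (mem_filter.1 hd).1 hp)
  have hF' : ∀ e, ∀ d ∈ fundF e D a (∅ ∪ P1), ∀ p ∈ d, p.Prime := fun e d hd p hp =>
    ((mem p).1 (hF e d hd p hp)).1
  have hE : ∀ e ≤ 1, ∀ d ∈ fundF e D a (∅ ∪ P1), ∏ p ∈ d, p ∈ E := by
    intro e he d hd
    have hd2 := (mem_filter.1 hd).2
    rw [filter_true_of_mem fun p hp => h1 p (hF e d hd p hp)] at hd2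
    have a1 := prod_lt_of_rOK he hd2 (by linarith) fun p hp =>
      ⟨(hF' e d hd p hp).pos, ((mem p).1 (hF e d hd p hp)).2.2.trans_lt wD⟩
    refine mem_filter.2 ⟨mem_Icc.2 ⟨prod_pos fun p hp => (hF' e d hd p hp).pos,
      Nat.le_floor (by rw [Nat.cast_prod]; exact a1.le)⟩, fun q hq hqd => ?_⟩
    obtain ⟨p, hp, hqp⟩ := hq.prime.exists_mem_finset_dvd hqd
    rw [(Nat.prime_dvd_prime_iff_eq hq (hF' e d hd p hp)).1 hqp]
    exact ((mem p).1 (hF e d hd p hp)).2.1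
  refine ⟨E, fundLam (fundF 0 D a (∅ ∪ P1)),
    fun m => fundLam (fundF 0 D a (∅ ∪ P1)) m - fundLam (fundF 1 D a (∅ ∪ P1)) m,
    fun e he => ⟨(mem_Icc.1 (mem_filter.1 he).1).1, (mem_filter.1 he).2,
      (Nat.le_floor_iff (by positivity)).1 (mem_Icc.1 (mem_filter.1 he).1).2⟩,
    fun e => (fund_abs_lam _ (hF' 0) e).trans (by norm_num), fun e => ?_, fun n _ => ?_, ?_⟩
  · have a0 := abs_le.1 (fund_abs_lam _ (hF' 0) e)
    have a1 := abs_le.1 (fund_abs_lam _ (hF' 1) e)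
    rw [abs_le]
    constructor <;> linarith [a0.1, a0.2, a1.1, a1.2]
  · rw [sum_sub_distrib, fund_point 0 D a ∅ P1 h0 h1 hP E (hE 0 zero_le_one) n,
      fund_point 1 D a ∅ P1 h0 h1 hP E (hE 1 le_rfl) n]
    have u := fund_upper D (P1.filter fun p => p ∣ n)
    have l := sum_rSet_lower D (P1.filter fun p => p ∣ n)
    have hr : fr z w n = if P1.filter (fun p => p ∣ n) = ∅ then 1 else 0 := by
      unfold fr
      refine if_congr ?_ rfl rfl
      rw [filter_eq_empty_iff]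
      refine ⟨fun h p hp hd => ?_, fun h p hp hd => ?_⟩
      · obtain ⟨k1, k2, k3⟩ := (mem p).1 hp
        exact (h p k1 hd).elim (not_le.2 k2) (not_lt.2 k3)
      · by_contra hc
        rw [not_or, not_le, not_lt] at hc
        exact h ((mem p).2 ⟨hp, hc⟩) hd
    rw [hr, if_pos (fun p hp => absurd hp (notMem_empty p)), one_mul, one_mul, abs_le]
    constructor <;> linarith
  · have hb : below P1 (w + 1) = P1 :=
      filter_true_of_mem fun p hp => by linarith [((mem p).1 hp).2.2]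
    have H := hw P1 fun p hp =>
      ⟨((mem p).1 hp).1, Nat.cast_lt.1 (zw₀.trans_lt ((mem p).1 hp).2.1)⟩
    have k := fund_diff H (z := w + 1) (by linarith) D3
    rw [Pool.Agent.Lib.ANT.VV, hb] at k
    simp only [sub_div]
    rw [sum_sub_distrib, fund_main 0 D a ∅ P1 h0 h1 E (hE 0 zero_le_one),
      fund_main 1 D a ∅ P1 h0 h1 E (hE 1 le_rfl), prod_empty, one_mul, one_mul]
    refine k.trans ?_
    have l1 : 0 < Real.log (w + 1) := Real.log_pos (by linarith)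
    have l2 : Real.log (w + 1) ≤ 2 * Real.log w := by
      have := Real.log_le_log (by linarith) ww
      rw [Real.log_pow] at this
      exact_mod_cast this
    have B2 : s / 2 ≤ Real.log D / Real.log (w + 1) := by
      rw [hD, Real.log_rpow w0, le_div_iff₀ l1]
      nlinarith
    have s0 : 0 < s / 2 := by linarith
    have B3 : 14000 / (Real.log D / Real.log (w + 1)) ^ 3 ≤ 14000 / (s / 2) ^ 3 :=
      div_le_div_of_nonneg_left (by norm_num) (by positivity) (pow_le_pow_left₀ s0.le B2 3)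
    refine (mul_le_mul B1 B3 (by have := s0.trans_le B2; positivity) (by positivity)).trans
      (le_of_eq ?_)
    have : s ≠ 0 := by linarith
    field_simp
    ring

end Pool.Agent.Work.MP_82fd4a_nt
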