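import Pool.Agent.Work.MP_82fd4a_nt.NSumU

/-! Integers with a huge smooth part are rare. -/

set_option autoImplicit false
open Filter Topology Finset

namespace Pool.Agent.Work.MP_82fd4a_nt

open ArithmeticFunction in
/-- the square of the logarithm as a divisor sum -/
lemma hs_log_sq {e : ℕ} (he : e ≠ 0) : Real.log e ^ 2 = ∑ m ∈ e.divisors,
    (vonMangoldt m * Real.log m + ∑ m' ∈ (e / m).divisors, vonMangoldt m * vonMangoldt m') := by
  rw [sq]
  nth_rewrite 1 [← vonMangoldt_sum]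
  rw [sum_mul]
  refine sum_congr rfl fun m hm => ?_
  obtain ⟨k, rfl⟩ := Nat.dvd_of_mem_divisors hm
  have hm0 : m ≠ 0 := left_ne_zero_of_mul he
  have hk0 : k ≠ 0 := right_ne_zero_of_mul he
  rw [← mul_sum, vonMangoldt_sum, Nat.mul_div_cancel_left _ (Nat.pos_of_ne_zero hm0),
    Nat.cast_mul, Real.log_mul (by exact_mod_cast hm0) (by exact_mod_cast hk0), mul_add]

open ArithmeticFunction in
/-- the majorant -/
noncomputable def hsG (M : Finset ℕ) (q N : ℕ) : ℝ := ∑ m ∈ M,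
  (vonMangoldt m * Real.log m * (if q * m ∣ N then 1 else 0)
    + ∑ m' ∈ M, vonMangoldt m * vonMangoldt m' * (if q * (m * m') ∣ N then 1 else 0))

open ArithmeticFunction in
lemma hs_term_nonneg (M : Finset ℕ) (q N m : ℕ) :
    0 ≤ vonMangoldt m * Real.log m * (if q * m ∣ N then 1 else 0)
    + ∑ m' ∈ M, vonMangoldt m * vonMangoldt m' * (if q * (m * m') ∣ N then 1 else 0) := by
  have h1 : 0 ≤ vonMangoldt m := vonMangoldt_nonneg
  have h2 : 0 ≤ Real.log m := Real.log_natCast_nonneg m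
  refine add_nonneg (by positivity) (sum_nonneg fun m' _ => ?_)
  have h3 : 0 ≤ vonMangoldt m' := vonMangoldt_nonneg
  positivity

lemma hsG_nonneg (M : Finset ℕ) (q N : ℕ) : 0 ≤ hsG M q N :=
  sum_nonneg fun m _ => hs_term_nonneg M q N m

open ArithmeticFunction in
lemma hs_le_G {M : Finset ℕ} {e : ℕ} (he : e ≠ 0) (hM : e.divisors ⊆ M) (q n : ℕ) :
    Real.log e ^ 2 ≤ hsG M q (q * e * n) := by
  rw [hs_log_sq he]
  refine le_trans (sum_le_sum fun m hm => ?_)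
    (sum_le_sum_of_subset_of_nonneg hM fun m _ _ => hs_term_nonneg M q (q * e * n) m)
  have hme : m ∣ e := Nat.dvd_of_mem_divisors hm
  rw [if_pos ((Nat.mul_dvd_mul_left q hme).mul_right n), mul_one]
  refine add_le_add le_rfl (le_trans (sum_le_sum fun m' hm' => ?_)
    (sum_le_sum_of_subset_of_nonneg
      ((Nat.divisors_subset_of_dvd he (Nat.div_dvd_of_dvd hme)).trans hM) fun m' _ _ => ?_))
  · rw [if_pos ((Nat.mul_dvd_mul_left q
      (Nat.mul_dvd_of_dvd_div hme (Nat.dvd_of_mem_divisors hm'))).mul_right n), mul_one]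
  · have h1 : 0 ≤ vonMangoldt m := vonMangoldt_nonneg
    have h3 : 0 ≤ vonMangoldt m' := vonMangoldt_nonneg
    positivity

lemma hs_coprime {z w : ℝ} (hzw : z ≤ w) {e n : ℕ} (he : Smooth z e) (hn : Rough w n) :
    e.Coprime n := by
  refine Nat.coprime_of_dvd fun p hp h1 h2 => ?_
  have := he.2 p hp h1
  have := hn p hp h2
  linarith

/-- the smooth part is unique -/
lemma hs_inj {x : ℕ} {z w : ℝ} (hzw : z ≤ w) {q : ℕ} (hq : 0 < q) {S : Finset ℕ}
    (hS : ∀ e ∈ S, Smooth z e) {F : ℕ → ℝ} (hF : ∀ N, 0 ≤ F N)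
    (hF' : ∀ N, F N ≠ 0 → N ∈ Icc 1 (2 * x)) :
    ∑ e ∈ S, ∑ n ∈ Icc 1 (2 * x), rf w n * F (q * e * n) ≤ ∑ N ∈ Icc 1 (2 * x), F N := by
  have e1 : ∑ e ∈ S, ∑ n ∈ Icc 1 (2 * x), rf w n * F (q * e * n)
      = ∑ p ∈ S ×ˢ (Icc 1 (2 * x)).filter (Rough w), F (q * p.1 * p.2) := by
    rw [sum_product]
    refine sum_congr rfl fun e _ => ?_
    rw [sum_filter]
    refine sum_congr rfl fun n _ => ?_
    unfold rf
    split_ifs <;> simp
  rw [e1, ← sum_image (g := fun p : ℕ × ℕ => q * p.1 * p.2), ← sum_filter_ne_zero]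
  · exact sum_le_sum_of_subset_of_nonneg (fun N hN => hF' N (mem_filter.1 hN).2) fun N _ _ => hF N
  · rintro ⟨e, n⟩ h ⟨e', n'⟩ h' heq
    rw [mem_coe, mem_product, mem_filter] at h h'
    have h0 : e * n = e' * n' := by
      refine Nat.eq_of_mul_eq_mul_left hq ?_
      simpa only [mul_assoc] using heq
    have h1 : e = e' := Nat.dvd_antisymm
      ((hs_coprime hzw (hS e h.1) h'.2.2).dvd_of_dvd_mul_right (h0 ▸ dvd_mul_right e n))
      ((hs_coprime hzw (hS e' h'.1) h.2.2).dvd_of_dvd_mul_right (h0 ▸ dvd_mul_right e' n'))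
    subst h1
    rw [Nat.eq_of_mul_eq_mul_left (Nat.pos_of_ne_zero (hS e h.1).1) h0]

lemma hs_dvd (x : ℕ) {T : ℝ} (hT : 0 ≤ T) {d : ℕ} (hd : 0 < d) :
    ∑ N ∈ Icc 1 (2 * x), (if d ∣ N then 1 else 0) * gk x T N ≤ Gam x T / d + 2 := by
  rw [← ker_dvd x T hd]
  linarith [(abs_le.1 (sum_gk_mul x hT hd)).2]

open ArithmeticFunction in
lemma hs_sum_G (x : ℕ) {T : ℝ} (hT : 0 ≤ T) {q : ℕ} (hq : 0 < q) {M : Finset ℕ}
    (hM : ∀ m ∈ M, 0 < m) :
    ∑ N ∈ Icc 1 (2 * x), hsG M q N * gk x T N ≤ Gam x T / q *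
      (∑ m ∈ M, vonMangoldt m / m * Real.log m + (∑ m ∈ M, vonMangoldt m / m) ^ 2)
      + 2 * (∑ m ∈ M, vonMangoldt m * Real.log m + (∑ m ∈ M, vonMangoldt m) ^ 2) := by
  unfold hsG
  simp only [sum_mul, add_mul]
  rw [sum_comm, sq, sq, sum_mul_sum, sum_mul_sum, ← sum_add_distrib, ← sum_add_distrib, mul_sum,
    mul_sum, ← sum_add_distrib]
  refine sum_le_sum fun m hm => ?_
  have h1 : 0 ≤ vonMangoldt m := vonMangoldt_nonneg
  have h2 : 0 ≤ Real.log m := Real.log_natCast_nonneg m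
  have hm0 := hM m hm
  rw [sum_add_distrib, sum_comm, mul_add, mul_add, add_add_add_comm, mul_sum, mul_sum,
    ← sum_add_distrib]
  refine add_le_add ?_ (sum_le_sum fun m' hm' => ?_)
  · simp only [mul_assoc (vonMangoldt m * Real.log m)]
    rw [← mul_sum]
    refine (mul_le_mul_of_nonneg_left (hs_dvd x hT (Nat.mul_pos hq hm0)) (by positivity)).trans_eq ?_
    push_cast
    ring
  · have h3 : 0 ≤ vonMangoldt m' := vonMangoldt_nonneg
    simp only [mul_assoc (vonMangoldt m * vonMangoldt m')]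
    rw [← mul_sum]
    refine (mul_le_mul_of_nonneg_left
      (hs_dvd x hT (Nat.mul_pos hq (Nat.mul_pos hm0 (hM m' hm')))) (by positivity)).trans_eq ?_
    push_cast
    ring

open ArithmeticFunction in
lemma hs_E1 {X : ℕ} {z : ℝ} (hz : 0 ≤ z) {M : Finset ℕ} (hM : ∀ m ∈ M, m ≤ X ∧ Smooth z m) :
    ∑ m ∈ M, vonMangoldt m ≤ z * Real.log X := by
  have hX : 0 ≤ Real.log X := Real.log_natCast_nonneg X
  calc ∑ m ∈ M, vonMangoldt m
      ≤ ∑ m ∈ M, ∑ p ∈ Ioc 0 ⌊z⌋₊, if m ∈ (p ^ Nat.log p X).divisors then vonMangoldt m else 0 := by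
        refine sum_le_sum fun m hm => ?_
        have hn : ∀ p ∈ Ioc 0 ⌊z⌋₊,
            0 ≤ if m ∈ (p ^ Nat.log p X).divisors then vonMangoldt m else 0 := fun p _ => by
          split_ifs
          exacts [vonMangoldt_nonneg, le_rfl]
        by_cases h : IsPrimePow m
        · obtain ⟨p, k, hp, hk, rfl⟩ := (isPrimePow_nat_iff m).1 h
          have hpz := (hM _ hm).2.2 p hp (dvd_pow_self p hk.ne')
          refine le_trans ?_ (single_le_sum hn (mem_Ioc.2 ⟨hp.pos, Nat.le_floor hpz⟩))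
          rw [if_pos (Nat.mem_divisors.2 ⟨pow_dvd_pow p
            (Nat.le_log_of_pow_le hp.one_lt (hM _ hm).1), pow_ne_zero _ hp.ne_zero⟩)]
        · exact (vonMangoldt_eq_zero_iff.2 h).le.trans (sum_nonneg hn)
    _ ≤ ∑ p ∈ Ioc 0 ⌊z⌋₊, Real.log X := by
        rw [sum_comm]
        refine sum_le_sum fun p hp => ?_
        rw [← sum_filter]
        refine (sum_le_sum_of_subset_of_nonneg (t := (p ^ Nat.log p X).divisors)
          (fun m hm => (mem_filter.1 hm).2) fun _ _ _ => vonMangoldt_nonneg).trans ?_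
        rw [vonMangoldt_sum]
        rcases eq_or_ne X 0 with rfl | h0
        · simp
        · exact Real.log_le_log (by exact_mod_cast pow_pos (mem_Ioc.1 hp).1 _)
            (by exact_mod_cast Nat.pow_log_le_self p h0)
    _ ≤ z * Real.log X := by
        rw [sum_const, Nat.card_Ioc, nsmul_eq_mul]
        exact mul_le_mul_of_nonneg_right (by simpa using Nat.floor_le hz) hX

open ArithmeticFunction in
lemma hs_S {X : ℕ} {z : ℝ} (hz : 1 ≤ z) {M : Finset ℕ} (hM : ∀ m ∈ M, m ≤ X ∧ Smooth z m)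
    {f : ℕ → ℝ} {a b : ℝ} (ha : 0 ≤ a) (hb : 0 ≤ b) (hfa : ∀ m ∈ M, (m : ℝ) ≤ z → f m ≤ a)
    (hfb : ∀ m ∈ M, f m ≤ b) :
    ∑ m ∈ M, vonMangoldt m / m * f m ≤ (Real.log z + 6) * a + 8 * b := by
  have hn : ∀ m : ℕ, 0 ≤ vonMangoldt m / m := fun m =>
    div_nonneg vonMangoldt_nonneg (Nat.cast_nonneg _)
  have hfl : 0 < ⌊z⌋₊ := Nat.floor_pos.2 hz
  rw [← sum_filter_add_sum_filter_not M Nat.Prime]
  refine add_le_add ?_ ?_
  · have hle : ∀ m ∈ M.filter Nat.Prime, (m : ℝ) ≤ z := fun m hm =>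
      (hM m (mem_filter.1 hm).1).2.2 m (mem_filter.1 hm).2 dvd_rfl
    refine (sum_le_sum fun m hm => mul_le_mul_of_nonneg_left
      (hfa m (mem_filter.1 hm).1 (hle m hm)) (hn m)).trans ?_
    rw [← sum_mul]
    refine mul_le_mul_of_nonneg_right ((sum_le_sum_of_subset_of_nonneg (t := Ioc 0 ⌊z⌋₊)
      (fun m hm => mem_Ioc.2 ⟨(mem_filter.1 hm).2.pos, Nat.le_floor (hle m hm)⟩)
      fun m _ _ => hn m).trans ?_) ha
    have h1 := (abs_le.1 (Lib.ANT.abs_sum_vonMangoldt_div_sub_log_le _ hfl)).2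
    have h2 : Real.log ⌊z⌋₊ ≤ Real.log z :=
      Real.log_le_log (by exact_mod_cast hfl) (Nat.floor_le (by linarith))
    linarith
  · refine (sum_le_sum fun m hm => mul_le_mul_of_nonneg_left
      (hfb m (mem_filter.1 hm).1) (hn m)).trans ?_
    rw [← sum_mul]
    refine mul_le_mul_of_nonneg_right ((sum_le_sum_of_subset_of_nonneg ?_
      fun m _ _ => hn m).trans (Lib.ANT.sum_vonMangoldt_div_not_prime_le X)) hb
    intro m hm
    rw [mem_filter] at hm ⊢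
    exact ⟨mem_Ioc.2 ⟨Nat.pos_of_ne_zero (hM m hm.1).2.1, (hM m hm.1).1⟩, hm.2⟩

open ArithmeticFunction in
theorem huge_smooth : ∃ C : ℝ, 0 < C ∧ ∀ ρ : ℝ, 0 < ρ → ρ ≤ 1 / 100 → ∀ᶠ x : ℕ in atTop,
    ∀ (q : ℕ) (w T : ℝ), 1 ≤ q → (q : ℝ) ≤ (x : ℝ) ^ (1 / 10 : ℝ) → (x : ℝ) ^ ρ ≤ w → 1 ≤ T →
    T ≤ √(x : ℝ) →
    ∑ e ∈ Sm x ((x : ℝ) ^ ρ) (fun e => (x : ℝ) ^ (3 / 10 : ℝ) < e), ∑ n ∈ Icc 1 (2 * x),
      rf w n * gk x T (q * e * n) ≤ C * ρ ^ 2 * Gam x T / q := by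
  refine ⟨100, by norm_num, fun ρ hρ hρ1 => ?_⟩
  filter_upwards [su_ev (128 / ρ ^ 2) (show (0 : ℝ) < 38 / 100 by norm_num),
    (Real.tendsto_log_atTop.comp tendsto_natCast_atTop_atTop).eventually_ge_atTop (20 / ρ ^ 2),
    eventually_ge_atTop 2] with x hx1 hx2 hx q w T hq hqx hw hT hTx
  have hx0 : (0 : ℝ) < x := by exact_mod_cast (by omega : 0 < x)
  have hx1' : (1 : ℝ) ≤ x := by exact_mod_cast (by omega : 1 ≤ x)
  have hq0 : (0 : ℝ) < q := by exact_mod_cast hq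
  simp only [Function.comp] at hx2
  set L := Real.log x with hL
  set z := (x : ℝ) ^ ρ with hz
  set M := Sm x z fun _ => True with hMd
  have hρ2 : 0 < ρ ^ 2 := by positivity
  have hL1 : 20 ≤ ρ ^ 2 * L := by rwa [div_le_iff₀' hρ2] at hx2
  have hL0 : 0 < L := by
    by_contra h
    nlinarith [mul_nonneg hρ2.le (neg_nonneg.2 (not_lt.1 h))]
  have hL2 : 2000 ≤ ρ * L := by nlinarith [mul_pos hρ hL0]
  have hz1 : 1 ≤ z := Real.one_le_rpow hx1' hρ.le
  have hlz : Real.log z = ρ * L := Real.log_rpow hx0 ρ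
  have hmem : ∀ {U : ℕ → Prop} {s : ℕ},
      s ∈ Sm x z U ↔ (1 ≤ s ∧ s ≤ 2 * x) ∧ Smooth z s ∧ U s := by
    intro U s
    classical
    unfold Sm
    simp only [mem_filter, mem_Icc]
  have hM : ∀ m ∈ M, m ≤ 2 * x ∧ Smooth z m := fun m hm => ⟨(hmem.1 hm).1.2, (hmem.1 hm).2.1⟩
  have hM0 : ∀ m ∈ M, (0 : ℝ) < m := fun m hm => by exact_mod_cast (hmem.1 hm).1.1
  have h2x : Real.log (2 * x : ℕ) ≤ 2 * L := by
    have : Real.log 2 ≤ L := Real.log_le_log two_pos (by exact_mod_cast hx)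
    rw [Nat.cast_mul, Real.log_mul (by norm_num) hx0.ne']
    push_cast
    linarith
  have hlog : ∀ m ∈ M, Real.log m ≤ 2 * L := fun m hm =>
    (Real.log_le_log (hM0 m hm) (by exact_mod_cast (hM m hm).1)).trans h2x
  have S1 := hs_S hz1 hM (f := fun _ => 1) zero_le_one zero_le_one (fun _ _ _ => le_rfl)
    fun _ _ => le_rfl
  have S2 := hs_S hz1 hM (f := fun m => Real.log m) (a := ρ * L) (b := 2 * L) (by positivity)
    (by positivity) (fun m hm h => hlz ▸ Real.log_le_log (hM0 m hm) h) hlog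
  simp only [mul_one, hlz] at S1 S2
  have S0 : 0 ≤ ∑ m ∈ M, vonMangoldt m / m :=
    sum_nonneg fun m _ => div_nonneg vonMangoldt_nonneg (Nat.cast_nonneg _)
  have E0 : 0 ≤ ∑ m ∈ M, vonMangoldt m := sum_nonneg fun m _ => vonMangoldt_nonneg
  have E1 : ∑ m ∈ M, vonMangoldt m ≤ z * (2 * L) :=
    (hs_E1 (by linarith) hM).trans (mul_le_mul_of_nonneg_left h2x (by linarith))
  have E2 : ∑ m ∈ M, vonMangoldt m * Real.log m ≤ (z * (2 * L)) ^ 2 := by
    refine (sum_le_sum fun m hm =>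
      mul_le_mul_of_nonneg_left (hlog m hm) vonMangoldt_nonneg).trans ?_
    rw [← sum_mul, sq]
    exact mul_le_mul E1 (le_mul_of_one_le_left (by positivity) hz1) (by positivity)
      (by positivity)
  have hΓ := su_Gam_ge (by omega : 1 ≤ x) hT hTx
  have hΓ0 : 0 ≤ Gam x T / q := div_nonneg (le_trans (by positivity) hΓ) hq0.le
  have hzΓ : 16 * z ^ 2 ≤ ρ ^ 2 * (Gam x T / q) := by
    have a1 : z ^ 2 ≤ (x : ℝ) ^ (2 / 100 : ℝ) := by
      rw [hz, ← Real.rpow_natCast, ← Real.rpow_mul hx0.le]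
      exact Real.rpow_le_rpow_of_exponent_le hx1' (by push_cast; linarith)
    have a2 : (x : ℝ) ^ (1 / 2 : ℝ)
        = (x : ℝ) ^ (38 / 100 : ℝ) * (x : ℝ) ^ (2 / 100 : ℝ) * (x : ℝ) ^ (1 / 10 : ℝ) := by
      rw [← Real.rpow_add hx0, ← Real.rpow_add hx0]
      norm_num
    have a3 : (x : ℝ) ^ (38 / 100 : ℝ) * (x : ℝ) ^ (2 / 100 : ℝ) / 8 ≤ Gam x T / q := by
      rw [le_div_iff₀ hq0]
      refine le_trans ?_ hΓ
      rw [a2, div_mul_eq_mul_div]
      gcongr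
    rw [div_le_iff₀' hρ2] at hx1
    have a4 : 0 ≤ (x : ℝ) ^ (2 / 100 : ℝ) := by positivity
    nlinarith [mul_le_mul_of_nonneg_left a3 hρ2.le, mul_le_mul_of_nonneg_right hx1 a4]
  have key : (3 / 10 * L) ^ 2 * ∑ e ∈ Sm x z (fun e => (x : ℝ) ^ (3 / 10 : ℝ) < e),
      ∑ n ∈ Icc 1 (2 * x), rf w n * gk x T (q * e * n)
      ≤ ∑ N ∈ Icc 1 (2 * x), hsG M q N * gk x T N := by
    refine le_trans ?_ (hs_inj (S := Sm x z fun e => (x : ℝ) ^ (3 / 10 : ℝ) < e) hw hq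
      (fun e he => (hmem.1 he).2.1) (F := fun N => hsG M q N * gk x T N)
      (fun N => mul_nonneg (hsG_nonneg _ _ _) (gk_nonneg _ _ _)) fun N hN => ?_)
    · rw [mul_sum]
      refine sum_le_sum fun e he => ?_
      rw [mul_sum]
      refine sum_le_sum fun n _ => ?_
      obtain ⟨h1, h2, h3⟩ := hmem.1 he
      have b1 : 3 / 10 * L ≤ Real.log e := by
        rw [hL, ← Real.log_rpow hx0]
        exact Real.log_le_log (by positivity) h3.le
      have b2 : e.divisors ⊆ M := fun m hm => hmem.2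
        ⟨⟨Nat.pos_of_mem_divisors hm, (Nat.divisor_le hm).trans h1.2⟩,
          ⟨(Nat.pos_of_mem_divisors hm).ne',
            fun p hp h => h2.2 p hp (h.trans (Nat.dvd_of_mem_divisors hm))⟩, trivial⟩
      rw [mul_left_comm]
      exact mul_le_mul_of_nonneg_left (mul_le_mul_of_nonneg_right
        ((pow_le_pow_left₀ (by positivity) b1 2).trans (hs_le_G h2.1 b2 q n))
        (gk_nonneg _ _ _)) (rf_nonneg _ _)
    · have := gk_ne_zero (right_ne_zero_of_mul hN)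
      exact mem_Icc.2 ⟨by omega, this.2⟩
  have c1 : (∑ m ∈ M, vonMangoldt m / m) ^ 2 ≤ (2 * (ρ * L)) ^ 2 :=
    pow_le_pow_left₀ S0 (by linarith) 2
  have c2 : ∑ m ∈ M, vonMangoldt m / m * Real.log m ≤ 3 * (ρ * L) ^ 2 := by
    nlinarith [mul_le_mul_of_nonneg_right hL1 hL0.le]
  have c3 : (∑ m ∈ M, vonMangoldt m) ^ 2 ≤ (z * (2 * L)) ^ 2 := pow_le_pow_left₀ E0 E1 2
  have fin := key.trans (hs_sum_G x (by linarith) hq fun m hm => (hmem.1 hm).1.1)
  refine le_of_mul_le_mul_left (fin.trans ?_) (show 0 < (3 / 10 * L) ^ 2 by positivity)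
  rw [mul_div_assoc]
  nlinarith [mul_le_mul_of_nonneg_left (add_le_add c2 c1) hΓ0,
    mul_le_mul_of_nonneg_left hzΓ (sq_nonneg L), mul_nonneg hΓ0 (sq_nonneg (ρ * L))]

end Pool.Agent.Work.MP_82fd4a_nt
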