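import Pool.Agent.Work.MP_82fd4a_nt.NSumI
import Pool.Agent.Work.MP_82fd4a_nt.NSumII
import Pool.Agent.Work.MP_82fd4a_nt.NGeom
import Pool.Agent.Work.MP_82fd4a_nt.Loss

/-! Integers with a large prime factor near every large integer. -/

set_option autoImplicit false
open Filter Topology Finset

namespace Pool.Agent.Work.MP_82fd4a_nt

lemma ev_rpow_le2 {c e : ℝ} (hc : 0 < c) (he : 0 < e) : ∀ᶠ x : ℕ in atTop, (x : ℝ) ^ (-c) ≤ e :=
  ((tendsto_rpow_neg_atTop hc).comp tendsto_natCast_atTop_atTop).eventually (ge_mem_nhds he)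

/-- the choice of the thresholds -/
lemma exists_num {x K J k B : ℕ} {η μ a : ℝ} (hx : 1 ≤ x) (hK : 1 ≤ K) (hη : 0 < η)
    (hη1 : η ≤ 1 / 100) (hμ1 : μ ≤ 1 / 100) (hk : 2 ≤ k * η) (hbig : 1000 ≤ μ * Real.log x)
    (ha : 0 < a) (hB : k + 1 ≤ B * a) (ha1 : a ≤ η) (ha3 : a * (2 * K + 3) ≤ μ / 10)
    (ha4 : a * (2 * K + 3) ≤ 1 / 30000) (hJ1 : J * a ≤ 1 / 13 + μ) (hJ2 : 1 / 13 + μ < (J + 1) * a) :
    ∃ (y δ : ℕ) (b : ℝ), Num2 x K J k B y δ η μ (a * Real.log x) b := by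
  set L := Real.log x with hLdef
  have hL0 : 0 ≤ L := Real.log_natCast_nonneg x
  have hμL : μ * L ≤ L / 100 := by linarith [mul_le_mul_of_nonneg_right hμ1 hL0]
  obtain ⟨l1, l2⟩ := log_sqrt_bounds hx
  have hΛ : 0 < a * L := mul_pos ha (by linarith)
  have g1 := mul_le_mul_of_nonneg_right ha3 hL0
  have g2 := mul_le_mul_of_nonneg_right ha4 hL0
  have g3 := mul_le_mul_of_nonneg_right hJ1 hL0
  have g4 := mul_le_mul_of_nonneg_right hJ2.le hL0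
  have g5 : 0 ≤ (K : ℝ) * (a * L) := by positivity
  have g6 : 0 ≤ (J : ℝ) * (a * L / 2) := by positivity
  have k0 : (0 : ℝ) ≤ k := Nat.cast_nonneg k
  have B0 : (0 : ℝ) < B := by
    by_contra h
    have := mul_nonpos_of_nonpos_of_nonneg (not_lt.1 h) ha.le
    linarith
  set b : ℝ := (L - K * (a * L) - J * (a * L / 2)) / (25600 * B) with hbdef
  have hu : 25600 * (B * b) = L - K * (a * L) - J * (a * L / 2) := by rw [hbdef]; field_simp
  have hb : 0 < b := div_pos (by linarith) (by positivity)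
  have f1 : 0 ≤ (Real.log x.sqrt - J * (a * L / 2)) / b := div_nonneg (by linarith) hb.le
  have f2 : 0 ≤ (K * (a * L) + a * L / 4 + 1 + k * b) / b := by positivity
  refine ⟨⌈(Real.log x.sqrt - J * (a * L / 2)) / b⌉₊, ⌈(K * (a * L) + a * L / 4 + 1 + k * b) / b⌉₊,
    b, ?_⟩
  exact
    { x1 := hx, K1 := hK, η0 := hη, η1 := hη1, μ1 := hμ1, kη := hk, big := hbig, b0 := hb, u := hu
      B1 := by exact_mod_cast B0
      kb := by
        have h1 := mul_le_mul_of_nonneg_right hB hb.le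
        have h2 : B * b ≤ L / 100 := by linarith
        have h3 := mul_le_mul_of_nonneg_left h2 ha.le
        linarith
      K2 := by linarith
      K3 := by linarith
      J1 := by linarith
      J2 := by linarith
      y1 := (div_le_iff₀ hb).1 (Nat.le_ceil _)
      y2 := by
        have := (Nat.ceil_lt_add_one f1).le
        rwa [div_add_one hb.ne', le_div_iff₀ hb] at this
      δ1 := (div_le_iff₀ hb).1 (Nat.le_ceil _)
      δ2 := by
        have := (Nat.ceil_lt_add_one f2).le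
        rwa [div_add_one hb.ne', le_div_iff₀ hb] at this }

theorem near2 {μ : ℝ} (hμ : 0 < μ) (hμ1 : μ ≤ 1 / 100) : ∃ C : ℝ, 0 < C ∧ ∀ᶠ x : ℕ in atTop,
    ∃ n p : ℕ, p.Prime ∧ p ∣ n ∧ |(n : ℝ) - x| < C * √(x : ℝ) ∧ (x : ℝ) ^ (25 / 26 - μ) < p := by
  classical
  obtain ⟨η₀, hη₀, hI⟩ := sum_Phi2 (ζ := 1 / 200) (c := μ / 50) (C₀ := 2 ^ 40) (by norm_num)
    (by positivity) (by positivity)
  set η : ℝ := min η₀ (1 / 100) with hηdef
  have hη : 0 < η := lt_min hη₀ (by norm_num)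
  have hη1 : η ≤ 1 / 100 := min_le_right _ _
  obtain ⟨ε₀, hε₀, ρ₀, hρ₀, hI⟩ := hI η hη (min_le_left _ _)
  set k : ℕ := ⌈2 / η⌉₊ with hk
  have hkη : 2 ≤ k * η := (div_le_iff₀ hη).1 (Nat.le_ceil _)
  obtain ⟨K, hK, hII⟩ := sum_Gd2 hη hη1 (ζ := 1 / 200 / 2 ^ 40) (by positivity) hε₀ k
  set a : ℝ := min (min η ρ₀) (min (μ / 10) (1 / 30000) / (2 * K + 3)) with hadef
  have ha : 0 < a :=
    lt_min (lt_min hη hρ₀) (div_pos (lt_min (by positivity) (by norm_num)) (by positivity))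
  have ha1 : a ≤ η := (min_le_left _ _).trans (min_le_left _ _)
  have ha0 : a ≤ ρ₀ := (min_le_left _ _).trans (min_le_right _ _)
  have ha2 : a * (2 * K + 3) ≤ min (μ / 10) (1 / 30000) :=
    (le_div_iff₀ (by positivity)).1 (min_le_right _ _)
  have ha3 := ha2.trans (min_le_left _ _)
  have ha4 := ha2.trans (min_le_right _ _)
  set J : ℕ := ⌊(1 / 13 + μ) / a⌋₊ with hJ
  have hJ1 : J * a ≤ 1 / 13 + μ := (le_div_iff₀ ha).1 (Nat.floor_le (by positivity))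
  have hJ2 : 1 / 13 + μ < (J + 1) * a := (div_lt_iff₀ ha).1 (Nat.lt_floor_add_one _)
  have hJ0 : 1 ≤ J := by
    rw [hJ, Nat.one_le_floor_iff, le_div_iff₀ ha]; linarith
  set B : ℕ := ⌈(k + 1) / a⌉₊ with hB
  have hB1 : k + 1 ≤ B * a := (div_le_iff₀ ha).1 (Nat.le_ceil _)
  set 𝒯₀ : Finset (Multiset ℕ) := (k • (range (56320 * B)).val).powerset.toFinset with h𝒯₀
  obtain ⟨ρ, hρ, hρ1, c₁, hc₁, h₂, hh₂, hII⟩ := hII a ha ha1 J (by linarith) 𝒯₀.card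
  obtain ⟨h₁, hh₁, hI⟩ := hI ρ hρ (by linarith) K J 𝒯₀.card c₁ hc₁ hK hJ0
  set h : ℝ := max h₁ h₂ with hhdef
  have hh : 1 ≤ h := hh₁.trans (le_max_left _ _)
  refine ⟨8 * h * 1600000, by positivity, ?_⟩
  have hL : Tendsto (fun x : ℕ => Real.log x) atTop atTop :=
    Real.tendsto_log_atTop.comp tendsto_natCast_atTop_atTop
  filter_upwards [hI, hII, sum_not_sqfree2 hη hη1 K J, sum_long2, sum_tail2,
    ev_sq_le h (by linarith), (hL.const_mul_atTop hμ).eventually_ge_atTop 1000,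
    ev_rpow_le2 (half_pos hη) (show (0 : ℝ) < 1 / (400 * (2 ^ 41 * 4 ^ k)) by positivity),
    eventually_ge_atTop 1] with x hIx hIIx hNx hLx hTx hT0 hbig he2 hx1
  obtain ⟨Typ, S, hSdef, hTyp, hSm, hPsi, hW1, hAt, hIIx⟩ := hIIx
  by_contra hcon
  obtain ⟨y, δ, b, H⟩ := exists_num hx1 hK hη hη1 hμ1 hkη hbig ha hB1 ha1 ha3 ha4 hJ1 hJ2
  have hS : ∀ s ∈ S, 1 ≤ s ∧ Real.log s ≤ a * Real.log x / 8 := fun s hs => by
    rw [hSdef] at hs
    obtain ⟨h1, -, h2⟩ := mem_filter.1 hs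
    exact ⟨(mem_Icc.1 h1).1, hTyp s h2⟩
  set L := Real.log x with hLdef
  have hL0 : 0 ≤ L := H.L0
  have hL1 : 100000 ≤ L := by linarith [H.μL]
  have hSz := H.sized hS
  set T : ℝ := x.sqrt / h with hT
  have hx1' : (1 : ℝ) ≤ x := by exact_mod_cast hx1
  have hsx : T ≤ √(x : ℝ) := (div_le_self (by positivity) hh).trans (sqrt_cast_le x)
  have hsx2 : √(x : ℝ) ≤ x := Real.sqrt_le_self_iff.2 (Or.inr hx1')
  have hL2 : 2 ≤ L ^ 2 := by nlinarith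
  have hG : 0 < Gam x T := Gam_pos (by linarith) (hsx.trans hsx2)
  have hG0 : 0 < Gam x (L ^ 2) := Gam_pos (by linarith) (hT0.trans (hsx.trans hsx2))
  have hT1 : T ≤ x.sqrt / h₁ :=
    div_le_div_of_nonneg_left (by positivity) (by linarith) (le_max_left _ _)
  have hT2 : T ≤ x.sqrt / h₂ :=
    div_le_div_of_nonneg_left (by positivity) (by linarith) (le_max_right _ _)
  have r1 := abs_le.1 (hIx (a * L) b Typ S (lam2 (256 * B) y) 𝒯₀ hSdef le_rfl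
    (by linarith [mul_le_mul_of_nonneg_right hρ1 hL0]) (by linarith [H.K3, H.ΛK, H.Λ0])
    (fun π hπ => H.prod_le hπ) hTyp hSm hPsi hAt H.b0 (fun d hd hr => H.cover hd hr)
    (abs_lam2_le H.F0 H.y0 H.y48) (sum_lam2_le H.F0 H.y0 H.y48 b) H.level T (L ^ 2) hT0 hT1 le_rfl
    (hT0.trans hT1))
  have r2 := abs_le.1 (hIIx b y (52 * (256 * B)) (fun τ => PhiN (256 * B) y τ / 2 ^ 40)
    (𝒯₀.filter fun τ => Good y (52 * (256 * B)) τ ∧ τ.card ≤ k ∧ 4 * L / 5 ≤ τ.sum * b)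
    (jj x y (52 * (256 * B)) (a * L) b) (abs_PhiN_le H.F0 H.y0 H.y48) (card_filter_le _ _) hSz
    (fun τ hτ => by
      obtain ⟨t1, t2, t3⟩ := (mem_filter.1 hτ).2
      exact ⟨t1, t2, H.types t1 t3⟩)
    (fun s hs π hπ n hn hr h1 _ h3 => by
      have c1 := H.card_le hn hr
      have c2 := H.low (H.log_n (hS s hs) hπ h1)
      have c3 := H.log_le c1
      exact mem_filter.2 ⟨H.cover hn hr, h3, c1,
        by linarith [H.kb1, H.b0, H.μL, H.K3, H.ΛK, H.Λ0]⟩)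
    (fun π hπ τ hτ d hd => by
      obtain ⟨t1, _, t3⟩ := (mem_filter.1 hτ).2
      exact H.window hπ t1 (H.types t1 t3).1 hd)
    T hT0 hT2)
  have r3 := hNx (a * L) S hSz T (by linarith) hsx
  have r4 := hNx (a * L) S hSz (L ^ 2) (by linarith) (hT0.trans hsx)
  have r5 := hLx K J (a * L) b B y δ S hSz H.b0 H.B1 H.u1 H.u2 H.δB H.y0 H.yδ
    fun s hs π hπ => by linarith [(H.log_m (hS s hs) hπ).1, H.u]
  have r6 := hTx K J (a * L) S hSz T (8 * h * 1600000 * √(x : ℝ)) (by linarith) hsx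
    (fun s hs π hπ p hp h1 => by
      by_contra h2
      exact hcon ⟨_, p, hp, dvd_mul_left _ _, not_le.1 h2,
        rpow_lt_of_log H.x0 (by exact_mod_cast hp.pos) (H.low (H.log_n (hS s hs) hπ h1))⟩)
  have r7 := SS_mono (T := T) fun s hs π hπ n hn h1 h2 =>
    (H.point hn (H.log_n (hS s hs) hπ h1) (H.log_n' (hS s hs) hπ (mem_Icc.1 hn).1 h2)).1
  have r8 := SS_mono (T := L ^ 2) fun s hs π hπ n hn h1 h2 =>
    (H.point hn (H.log_n (hS s hs) hπ h1) (H.log_n' (hS s hs) hπ (mem_Icc.1 hn).1 h2)).2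
  rw [SS_lin, SS_lin] at r7 r8
  set W := WW K J (a * L) S tau / L with hW
  have e1 : Real.exp (-(T * (8 * h * 1600000 * √(x : ℝ)) / (4 * x))) ≤ 1 / 1600000 := by
    have c1 : √(x : ℝ) ≤ 2 * x.sqrt := by
      have h3 : (x : ℝ) < ((x.sqrt : ℝ) + 1) ^ 2 := by exact_mod_cast Nat.lt_succ_sqrt' x
      have h4 : (1 : ℝ) ≤ x.sqrt := by exact_mod_cast Nat.sqrt_pos.2 hx1
      rw [Real.sqrt_le_left (by positivity)]
      nlinarith only [h3, h4]
    have c2 : 1600000 ≤ T * (8 * h * 1600000 * √(x : ℝ)) / (4 * x) := by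
      rw [le_div_iff₀ (by positivity), hT]
      have c3 : (x.sqrt : ℝ) / h * (8 * h * 1600000 * √(x : ℝ))
          = 1600000 * (4 * (2 * x.sqrt * √(x : ℝ))) := by field_simp; ring
      have c4 : (x : ℝ) ≤ 2 * x.sqrt * √(x : ℝ) := by
        calc (x : ℝ) = √(x : ℝ) * √(x : ℝ) := (Real.mul_self_sqrt H.x0.le).symm
          _ ≤ _ := by gcongr
      rw [c3]
      linarith only [c4]
    rw [Real.exp_neg, one_div]
    have c5 := Real.add_one_le_exp (T * (8 * h * 1600000 * √(x : ℝ)) / (4 * x))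
    exact inv_anti₀ (by norm_num) (by linarith only [c2, c5])
  have hW0 : 0 ≤ WW K J (a * L) S tau := su_WW_nonneg K J _ S tau_nonneg
  have s6 : SS x T K J (a * L) S tau (fun n => if n.Prime then 1 else 0) ≤ W / 100 * Gam x T := by
    refine r6.trans ?_
    calc _ ≤ 16000 * (1 / 1600000) * Gam x T * WW K J (a * L) S tau / L := by gcongr
      _ = _ := by rw [hW]; ring
  have e2 : 2 ^ 41 * 4 ^ k * (x : ℝ) ^ (-(η / 2)) ≤ 1 / 400 := by
    calc _ ≤ 2 ^ 41 * 4 ^ k * (1 / (400 * (2 ^ 41 * 4 ^ k)) : ℝ) := by gcongr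
      _ = _ := by field_simp
  have s3 := (mul_le_mul_of_nonneg_left r3 (show (0 : ℝ) ≤ 2 ^ 41 * 4 ^ k by positivity)).trans
    (show _ ≤ 1 / 400 * Gam x T by
      rw [mul_comm (Gam x T), ← mul_assoc]; exact mul_le_mul_of_nonneg_right e2 hG.le)
  have s4 := (mul_le_mul_of_nonneg_left r4 (show (0 : ℝ) ≤ 2 ^ 41 * 4 ^ k by positivity)).trans
    (show _ ≤ 1 / 400 * Gam x (L ^ 2) by
      rw [mul_comm (Gam x (L ^ 2)), ← mul_assoc]; exact mul_le_mul_of_nonneg_right e2 hG0.le)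
  have s5 : W / 30 * Gam x (L ^ 2) ≤ _ := le_trans (le_of_eq (by rw [hW]; ring)) r5
  have u1 := (div_le_iff₀ hG).2 (show _ ≤ (W / 100 + 1 / 400) * Gam x T from
    r7.trans ((add_le_add s6 s3).trans (le_of_eq (by ring))))
  have u2 := (le_div_iff₀ hG0).2 (show (W / 30 - 1 / 400) * Gam x (L ^ 2) ≤ _ from
    (le_of_eq (by ring)).trans (sub_le_iff_le_add.2 (s5.trans (r8.trans (add_le_add le_rfl s4)))))
  rw [add_div, mul_div_assoc] at u1 u2
  rw [mul_div_assoc, ← hW] at r1 r2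
  linarith only [r1.1, r2.2, u1, u2, hW1]

theorem large_prime_factor2 {θ : ℝ} (hθ : θ < 25 / 26) : ∃ C : ℝ, ∀ t : ℝ, 1 ≤ t → ∃ n p : ℕ,
    t < n ∧ √(n : ℝ) - √t < C ∧ p.Prime ∧ p ∣ n ∧ (n : ℝ) ^ θ < p := by
  set μ : ℝ := min (1 / 100) ((25 / 26 - θ) / 2) with hμdef
  have hμ : 0 < μ := lt_min (by norm_num) (by linarith)
  have hμ1 : μ ≤ 1 / 100 := min_le_left _ _
  have hμ2 : μ ≤ (25 / 26 - θ) / 2 := min_le_right _ _
  obtain ⟨C, hC, h⟩ := near2 hμ hμ1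
  have h2 : ∀ᶠ x : ℕ in atTop, 2 ≤ (x : ℝ) ^ μ :=
    ((tendsto_rpow_atTop hμ).comp tendsto_natCast_atTop_atTop).eventually_ge_atTop 2
  obtain ⟨x₀, hx₀⟩ := eventually_atTop.1 (h.and h2)
  obtain ⟨q, hq1, hq⟩ := Nat.exists_infinite_primes (x₀ + ⌈(C + 1) ^ 2⌉₊ + 1)
  refine ⟨2 * C + 1 + √(q : ℝ), fun t ht => ?_⟩
  have t0 : 0 < √t := Real.sqrt_pos.2 (by linarith)
  have t1 : √t * √t = t := Real.mul_self_sqrt (by linarith)
  have t2 : 1 ≤ √t := Real.one_le_sqrt.2 ht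
  by_cases hs : t < q
  · refine ⟨q, q, hs, by linarith, hq, dvd_rfl, ?_⟩
    have q1 : (1 : ℝ) < q := by exact_mod_cast hq.one_lt
    calc (q : ℝ) ^ θ < (q : ℝ) ^ (1 : ℝ) := Real.rpow_lt_rpow_of_exponent_lt q1 (by linarith)
      _ = q := Real.rpow_one _
  have q2 : ((x₀ + ⌈(C + 1) ^ 2⌉₊ + 1 : ℕ) : ℝ) ≤ t := (Nat.cast_le.2 hq1).trans (not_lt.1 hs)
  push_cast at q2
  have q3 := Nat.le_ceil ((C + 1) ^ 2)
  have q4 : C + 1 ≤ √t := Real.le_sqrt_of_sq_le (by linarith [Nat.cast_nonneg (α := ℝ) x₀])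
  set x : ℕ := ⌈t + 2 * C * √t⌉₊ with hx
  have cs : 0 ≤ C * √t := by positivity
  have x1 : t + 2 * C * √t ≤ x := Nat.le_ceil _
  have x2 : (x : ℝ) < t + 2 * C * √t + 1 := Nat.ceil_lt_add_one (by linarith)
  have x3 : x₀ ≤ x := by
    have : (x₀ : ℝ) ≤ x := by linarith [Nat.cast_nonneg (α := ℝ) ⌈(C + 1) ^ 2⌉₊]
    exact_mod_cast this
  have x4 : √(x : ℝ) ≤ 2 * √t := by
    rw [Real.sqrt_le_left (by positivity)]
    nlinarith
  obtain ⟨⟨n, p, hp, hpn, hn, hpx⟩, hx2⟩ := hx₀ x x3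
  obtain ⟨n1, n2⟩ := abs_lt.1 hn
  have x5 : C * √(x : ℝ) ≤ C * (2 * √t) := by gcongr
  have n3 : √(n : ℝ) < √t + 2 * C + 1 := by
    rw [Real.sqrt_lt' (by positivity)]
    nlinarith
  refine ⟨n, p, by linarith, by linarith [Real.sqrt_nonneg (q : ℝ)], hp, hpn, ?_⟩
  have x6 : (1 : ℝ) ≤ x := by linarith
  have n4 : (n : ℝ) ≤ 2 * x := by nlinarith
  have n5 : (1 : ℝ) ≤ n := by linarith
  have θ1 : 0 ≤ 25 / 26 - 2 * μ := by linarith
  calc (n : ℝ) ^ θ ≤ (n : ℝ) ^ (25 / 26 - 2 * μ) := Real.rpow_le_rpow_of_exponent_le n5 (by linarith)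
    _ ≤ (2 * x) ^ (25 / 26 - 2 * μ) := Real.rpow_le_rpow (by linarith) n4 θ1
    _ = 2 ^ (25 / 26 - 2 * μ) * (x : ℝ) ^ (25 / 26 - 2 * μ) :=
      Real.mul_rpow (by norm_num) (by linarith)
    _ ≤ (x : ℝ) ^ μ * (x : ℝ) ^ (25 / 26 - 2 * μ) := by
      gcongr
      refine le_trans ?_ hx2
      calc (2 : ℝ) ^ (25 / 26 - 2 * μ) ≤ 2 ^ (1 : ℝ) :=
            Real.rpow_le_rpow_of_exponent_le (by norm_num) (by linarith)
        _ = 2 := Real.rpow_one _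
    _ = (x : ℝ) ^ (25 / 26 - μ) := by rw [← Real.rpow_add (by linarith)]; congr 1; ring
    _ < p := hpx

end Pool.Agent.Work.MP_82fd4a_nt
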