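import Pool.Agent.Work.MP_82fd4a_nt.Setup

/-! Reindexing lemmas for the replacement of the divisor function. -/

set_option autoImplicit false
open Finset

namespace Pool.Agent.Work.MP_82fd4a_nt

/-- grouping pairs by their product -/
lemma qr_pairs (N : ℕ) (F : ℕ → ℕ → ℝ) (hF : ∀ a b, N < a * b → F a b = 0) :
    ∑ a ∈ Icc 1 N, ∑ b ∈ Icc 1 N, F a b = ∑ n ∈ Icc 1 N, ∑ a ∈ n.divisors, F a (n / a) := by
  have h1 : ∑ a ∈ Icc 1 N, ∑ b ∈ Icc 1 N, F a b
      = ∑ a ∈ Icc 1 N, ∑ b ∈ Icc 1 N, ∑ n ∈ Icc 1 N, if a * b = n then F a b else 0 := by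
    refine sum_congr rfl fun a ha => sum_congr rfl fun b hb => ?_
    rw [sum_ite_eq]
    split_ifs with h
    · rfl
    · apply hF
      rw [mem_Icc] at ha hb h
      have : 1 ≤ a * b := Nat.mul_pos ha.1 hb.1
      omega
  have h2 : ∑ a ∈ Icc 1 N, ∑ b ∈ Icc 1 N, ∑ n ∈ Icc 1 N, (if a * b = n then F a b else 0)
      = ∑ n ∈ Icc 1 N, ∑ a ∈ Icc 1 N, ∑ b ∈ Icc 1 N, if a * b = n then F a b else 0 := by
    rw [sum_comm (s := Icc 1 N) (t := Icc 1 N)
      (f := fun n a => ∑ b ∈ Icc 1 N, if a * b = n then F a b else 0)]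
    exact sum_congr rfl fun a _ => sum_comm
  rw [h1, h2]
  refine sum_congr rfl fun n hn => ?_
  rw [mem_Icc] at hn
  have h3 : n.divisors = (Icc 1 N).filter fun a => a ∣ n := by
    ext a
    rw [Nat.mem_divisors, mem_filter, mem_Icc]
    constructor
    · rintro ⟨h, _⟩
      exact ⟨⟨Nat.pos_of_dvd_of_pos h hn.1, (Nat.le_of_dvd hn.1 h).trans hn.2⟩, h⟩
    · rintro ⟨_, h⟩
      exact ⟨h, by omega⟩
  rw [h3, sum_filter]
  refine sum_congr rfl fun a ha => ?_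
  rw [mem_Icc] at ha
  split_ifs with h
  · rw [sum_eq_single (n / a)]
    · rw [if_pos (Nat.mul_div_cancel' h)]
    · intro c _ hc
      rw [if_neg]
      intro h'
      apply hc
      rw [← h', Nat.mul_div_cancel_left _ ha.1]
    · intro h'
      exfalso
      apply h'
      rw [mem_Icc]
      exact ⟨Nat.div_pos (Nat.le_of_dvd hn.1 h) ha.1, (Nat.div_le_self _ _).trans hn.2⟩
  · refine sum_eq_zero fun c _ => if_neg ?_
    intro h'
    exact h ⟨c, h'.symm⟩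

lemma qr_mem_Dt {x : ℕ} {w b : ℝ} {t : Multiset ℕ} {d : ℕ} :
    d ∈ Dt x w b t ↔ (1 ≤ d ∧ d ≤ 2 * x) ∧ Rough w d ∧ ty b d = t := by
  unfold Dt
  rw [mem_filter, mem_Icc]

lemma qr_mem_Sm {x : ℕ} {z : ℝ} {U : ℕ → Prop} {s : ℕ} :
    s ∈ Sm x z U ↔ (1 ≤ s ∧ s ≤ 2 * x) ∧ Smooth z s ∧ U s := by
  classical
  unfold Sm
  simp only [mem_filter, mem_Icc]

/-- the number of factorisations with prescribed types -/
noncomputable def qrCnt (w b : ℝ) (σ τ : Multiset ℕ) (n : ℕ) : ℝ :=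
  if Rough w n ∧ ty b n = τ then (#{d ∈ n.divisors | ty b d = σ} : ℝ) else 0

lemma qr_count {x : ℕ} (w b : ℝ) {σ τ : Multiset ℕ} (hσ : σ ≤ τ) (h : ℕ → ℝ)
    (hh : ∀ m, 2 * x < m → h m = 0) :
    ∑ d ∈ Dt x w b σ, ∑ e ∈ Dt x w b (τ - σ), h (d * e)
      = ∑ n ∈ Icc 1 (2 * x), qrCnt w b σ τ n * h n := by
  have h1 : ∑ d ∈ Dt x w b σ, ∑ e ∈ Dt x w b (τ - σ), h (d * e)
      = ∑ d ∈ Icc 1 (2 * x), ∑ e ∈ Icc 1 (2 * x),
        if (Rough w d ∧ ty b d = σ) ∧ (Rough w e ∧ ty b e = τ - σ) then h (d * e) else 0 := by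
    unfold Dt
    rw [sum_filter]
    refine sum_congr rfl fun d _ => ?_
    split_ifs with hd
    · rw [sum_filter]
      refine sum_congr rfl fun e _ => ?_
      simp only [hd, true_and, and_self]
    · refine (sum_eq_zero fun e _ => if_neg fun h' => hd h'.1).symm
  rw [h1, qr_pairs]
  · refine sum_congr rfl fun n hn => ?_
    rw [mem_Icc] at hn
    have key : ∀ d ∈ n.divisors,
        ((Rough w d ∧ ty b d = σ) ∧ (Rough w (n / d) ∧ ty b (n / d) = τ - σ)) ↔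
          ((Rough w n ∧ ty b n = τ) ∧ ty b d = σ) := by
      intro d hd
      have hdn : d ∣ n := Nat.dvd_of_mem_divisors hd
      have hd0 : d ≠ 0 := (Nat.pos_of_mem_divisors hd).ne'
      have he0 : n / d ≠ 0 := (Nat.div_pos (Nat.le_of_dvd hn.1 hdn) (Nat.pos_of_ne_zero hd0)).ne'
      have hmul : d * (n / d) = n := Nat.mul_div_cancel' hdn
      have hty : ty b n = ty b d + ty b (n / d) := by rw [← ty_mul b hd0 he0, hmul]
      have hr : Rough w n ↔ Rough w d ∧ Rough w (n / d) := by rw [← rough_mul, hmul]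
      constructor
      · rintro ⟨⟨a1, a2⟩, a3, a4⟩
        refine ⟨⟨hr.2 ⟨a1, a3⟩, ?_⟩, a2⟩
        rw [hty, a2, a4, add_tsub_cancel_of_le hσ]
      · rintro ⟨⟨a1, a2⟩, a3⟩
        refine ⟨⟨(hr.1 a1).1, a3⟩, (hr.1 a1).2, ?_⟩
        rw [← a2, hty, a3, add_tsub_cancel_left]
    have h2 : ∑ d ∈ n.divisors, (if (Rough w d ∧ ty b d = σ) ∧
          (Rough w (n / d) ∧ ty b (n / d) = τ - σ) then h (d * (n / d)) else 0)
        = ∑ d ∈ n.divisors, if (Rough w n ∧ ty b n = τ) ∧ ty b d = σ then h n else 0 := by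
      refine sum_congr rfl fun d hd => ?_
      rw [Nat.mul_div_cancel' (Nat.dvd_of_mem_divisors hd)]
      exact if_congr (key d hd) rfl rfl
    rw [h2]
    unfold qrCnt
    split_ifs with hc
    · simp only [hc, true_and, and_self]
      rw [← sum_filter, sum_const, nsmul_eq_mul]
    · rw [zero_mul]
      exact sum_eq_zero fun d _ => if_neg fun h' => hc h'.1
  · intro d e hde
    split_ifs
    · exact hh _ hde
    · rfl

lemma qr_gk_zero {x : ℕ} (T : ℝ) {q m : ℕ} (hq : 1 ≤ q) (hm : 2 * x < m) : gk x T (q * m) = 0 := by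
  by_contra h
  have h1 := (gk_ne_zero h).2
  have h2 : m ≤ q * m := Nat.le_mul_of_pos_left m hq
  omega

/-- the bilinear part as a sum over types -/
lemma qr_Gd {x y y' : ℕ} {T w b : ℝ} (𝒯 : Finset (Multiset ℕ)) (h𝒯 : ∀ τ ∈ 𝒯, Good y y' τ)
    {q : ℕ} (hq : 1 ≤ q)
    (hcov : ∀ n ∈ Icc 1 (2 * x), Rough w n → x < 2 * (q * n) → q * n ≤ 2 * x →
      Good y y' (ty b n) → ty b n ∈ 𝒯) :
    ∑ n ∈ Icc 1 (2 * x), rf w n * Gd b y y' n * gk x T (q * n)
      = ∑ τ ∈ 𝒯, aco y y' τ * ∑ d ∈ Dt x w b (sel y y' τ), ∑ e ∈ Dt x w b (τ - sel y y' τ),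
          gk x T (q * (d * e)) := by
  have h1 : ∀ τ ∈ 𝒯, aco y y' τ * ∑ d ∈ Dt x w b (sel y y' τ),
      ∑ e ∈ Dt x w b (τ - sel y y' τ), gk x T (q * (d * e))
      = ∑ n ∈ Icc 1 (2 * x), aco y y' τ * qrCnt w b (sel y y' τ) τ n * gk x T (q * n) := by
    intro τ hτ
    rw [qr_count w b (sel_spec (h𝒯 τ hτ)).1 (fun m => gk x T (q * m))
      (fun m hm => qr_gk_zero T hq hm), mul_sum]
    exact sum_congr rfl fun n _ => (mul_assoc _ _ _).symm
  rw [sum_congr rfl h1, sum_comm]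
  refine sum_congr rfl fun n hn => ?_
  rw [← sum_mul]
  by_cases hg : gk x T (q * n) = 0
  · rw [hg, mul_zero, mul_zero]
  congr 1
  have hs := gk_ne_zero hg
  unfold rf Gd qrCnt
  by_cases hr : Rough w n
  · rw [if_pos hr, one_mul]
    by_cases hG : Good y y' (ty b n)
    · rw [if_pos hG, sum_eq_single (ty b n)]
      · rw [if_pos ⟨hr, rfl⟩]
      · intro τ _ hτ
        rw [if_neg fun h' => hτ h'.2.symm, mul_zero]
      · intro h'
        exact absurd (hcov n hn hr hs.1 hs.2 hG) h'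
    · rw [if_neg hG]
      refine (sum_eq_zero fun τ hτ => ?_).symm
      rw [if_neg, mul_zero]
      intro h'
      apply hG
      rw [h'.2]
      exact h𝒯 τ hτ
  · rw [if_neg hr, zero_mul]
    refine (sum_eq_zero fun τ _ => ?_).symm
    rw [if_neg fun h' => hr h'.1, mul_zero]

/-- the total mass over all the types -/
lemma qr_mass {x k y y' : ℕ} {T w b : ℝ} (𝒯 : Finset (Multiset ℕ))
    (h𝒯 : ∀ τ ∈ 𝒯, Good y y' τ ∧ τ.card ≤ k) {q : ℕ} (hq : 1 ≤ q) :
    ∑ τ ∈ 𝒯, ∑ d ∈ Dt x w b (sel y y' τ), ∑ e ∈ Dt x w b (τ - sel y y' τ), gk x T (q * (d * e))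
      ≤ 2 ^ k * ∑ n ∈ Icc 1 (2 * x), rf w n * gk x T (q * n) := by
  have h1 : ∀ τ ∈ 𝒯, ∑ d ∈ Dt x w b (sel y y' τ),
      ∑ e ∈ Dt x w b (τ - sel y y' τ), gk x T (q * (d * e))
      = ∑ n ∈ Icc 1 (2 * x), qrCnt w b (sel y y' τ) τ n * gk x T (q * n) := fun τ hτ =>
    qr_count w b (sel_spec (h𝒯 τ hτ).1).1 (fun m => gk x T (q * m))
      (fun m hm => qr_gk_zero T hq hm)
  rw [sum_congr rfl h1, sum_comm, mul_sum]
  refine sum_le_sum fun n _ => ?_
  rw [← sum_mul, ← mul_assoc]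
  refine mul_le_mul_of_nonneg_right ?_ (gk_nonneg _ _ _)
  unfold rf qrCnt
  by_cases hr : Rough w n
  · rw [if_pos hr, mul_one]
    by_cases hm : ty b n ∈ 𝒯
    · rw [sum_eq_single (ty b n)]
      · rw [if_pos ⟨hr, rfl⟩]
        have h2 : (#{d ∈ n.divisors | ty b d = sel y y' (ty b n)} : ℝ) ≤ tau n := by
          unfold tau
          exact_mod_cast card_filter_le _ _
        have h3 : (2 : ℝ) ^ (ty b n).card ≤ 2 ^ k :=
          pow_le_pow_right₀ (by norm_num) (h𝒯 _ hm).2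
        exact h2.trans ((tau_le_card b n).trans h3)
      · intro τ _ hτ
        exact if_neg fun h' => hτ h'.2.symm
      · intro h'
        exact absurd hm h'
    · rw [sum_eq_zero]
      · positivity
      · intro τ hτ
        refine if_neg fun h' => hm ?_
        rw [h'.2]
        exact hτ
  · rw [if_neg hr, mul_zero]
    exact (sum_eq_zero fun τ _ => if_neg fun h' => hr h'.1).le

/-- different types give disjoint sets of pairs -/
lemma qr_disj {x y y' : ℕ} {w b : ℝ} (𝒯 : Finset (Multiset ℕ))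
    (h𝒯 : ∀ τ ∈ 𝒯, Good y y' τ ∧ Dt x w b (sel y y' τ) ⊆ D0 x w ∧
      Dt x w b (τ - sel y y' τ) ⊆ D0 x w) (f : ℕ → ℕ → ℝ) (hf : ∀ d e, 0 ≤ f d e) :
    ∑ τ ∈ 𝒯, ∑ d ∈ Dt x w b (sel y y' τ), ∑ e ∈ Dt x w b (τ - sel y y' τ), f d e
      ≤ ∑ d ∈ D0 x w, ∑ e ∈ D0 x w, f d e := by
  have hnn : ∀ (τ : Multiset ℕ) (d e : ℕ), 0 ≤ if ty b d + ty b e = τ then f d e else 0 := by
    intro τ d e
    split_ifs
    · exact hf d e
    · exact le_rfl
  have h1 : ∀ τ ∈ 𝒯, ∑ d ∈ Dt x w b (sel y y' τ), ∑ e ∈ Dt x w b (τ - sel y y' τ), f d e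
      ≤ ∑ d ∈ D0 x w, ∑ e ∈ D0 x w, if ty b d + ty b e = τ then f d e else 0 := by
    intro τ hτ
    obtain ⟨hG, h2, h3⟩ := h𝒯 τ hτ
    calc ∑ d ∈ Dt x w b (sel y y' τ), ∑ e ∈ Dt x w b (τ - sel y y' τ), f d e
        = ∑ d ∈ Dt x w b (sel y y' τ), ∑ e ∈ Dt x w b (τ - sel y y' τ),
            if ty b d + ty b e = τ then f d e else 0 := by
          refine sum_congr rfl fun d hd => sum_congr rfl fun e he => ?_
          rw [if_pos]
          rw [(qr_mem_Dt.1 hd).2.2, (qr_mem_Dt.1 he).2.2, add_tsub_cancel_of_le (sel_spec hG).1]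
      _ ≤ ∑ d ∈ Dt x w b (sel y y' τ), ∑ e ∈ D0 x w,
            if ty b d + ty b e = τ then f d e else 0 :=
          sum_le_sum fun d _ => sum_le_sum_of_subset_of_nonneg h3 fun e _ _ => hnn τ d e
      _ ≤ _ := sum_le_sum_of_subset_of_nonneg h2 fun d _ _ => sum_nonneg fun e _ => hnn τ d e
  refine (sum_le_sum h1).trans ?_
  rw [sum_comm]
  refine sum_le_sum fun d _ => ?_
  rw [sum_comm]
  refine sum_le_sum fun e _ => ?_
  rw [sum_ite_eq]
  split_ifs
  · exact le_rfl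
  · exact hf d e

open Classical in
lemma qr_Sm_sum {x : ℕ} {z : ℝ} (U V : ℕ → Prop) (F : ℕ → ℕ → ℝ) :
    ∑ a ∈ Sm x z U, ∑ c ∈ Sm x z V, F a c = ∑ a ∈ Icc 1 (2 * x), ∑ c ∈ Icc 1 (2 * x),
      if (Smooth z a ∧ U a) ∧ (Smooth z c ∧ V c) then F a c else 0 := by
  unfold Sm
  rw [sum_filter]
  refine sum_congr rfl fun a _ => ?_
  split_ifs with ha
  · rw [sum_filter]
    refine sum_congr rfl fun c _ => ?_
    simp only [ha, true_and, and_self]
  · refine (sum_eq_zero fun c _ => if_neg fun h' => ha h'.1).symm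

/-- pairs of smooth numbers whose product is typical -/
lemma qr_split {x : ℕ} {z : ℝ} (Typ Hi Lo : ℕ → Prop)
    (hmul : ∀ a c, Smooth z a → Smooth z c → ¬ Hi a → ¬ Lo a → ¬ Hi c → ¬ Lo c → Typ (a * c))
    (F : ℕ → ℕ → ℝ) (hF0 : ∀ a c, 0 ≤ F a c) (hF : ∀ a c, 2 * x < a * c → F a c = 0) :
    |∑ a ∈ Sm x z (fun _ => True), ∑ c ∈ Sm x z (fun _ => True), F a c
      - ∑ s ∈ Sm x z Typ, ∑ a ∈ s.divisors, F a (s / a)|
      ≤ ∑ a ∈ Sm x z Hi, ∑ c ∈ Sm x z (fun _ => True), F a c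
        + ∑ a ∈ Sm x z (fun _ => True), ∑ c ∈ Sm x z Hi, F a c
        + ∑ a ∈ Sm x z Lo, ∑ c ∈ Sm x z (fun _ => True), F a c
        + ∑ a ∈ Sm x z (fun _ => True), ∑ c ∈ Sm x z Lo, F a c := by
  classical
  have h1 : ∑ s ∈ Sm x z Typ, ∑ a ∈ s.divisors, F a (s / a)
      = ∑ a ∈ Icc 1 (2 * x), ∑ c ∈ Icc 1 (2 * x),
        if Smooth z (a * c) ∧ Typ (a * c) then F a c else 0 := by
    rw [qr_pairs]
    · unfold Sm
      rw [sum_filter]
      refine sum_congr rfl fun s _ => ?_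
      split_ifs with hs
      · refine sum_congr rfl fun a ha => ?_
        rw [Nat.mul_div_cancel' (Nat.dvd_of_mem_divisors ha), if_pos hs]
      · refine (sum_eq_zero fun a ha => ?_).symm
        rw [Nat.mul_div_cancel' (Nat.dvd_of_mem_divisors ha), if_neg hs]
    · intro a c hac
      split_ifs
      · exact hF a c hac
      · rfl
  rw [h1, qr_Sm_sum, qr_Sm_sum, qr_Sm_sum, qr_Sm_sum, qr_Sm_sum, ← sum_sub_distrib,
    ← sum_add_distrib, ← sum_add_distrib, ← sum_add_distrib]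
  refine (abs_sum_le_sum_abs _ _).trans (sum_le_sum fun a _ => ?_)
  rw [← sum_sub_distrib, ← sum_add_distrib, ← sum_add_distrib, ← sum_add_distrib]
  refine (abs_sum_le_sum_abs _ _).trans (sum_le_sum fun c _ => ?_)
  have h0 := hF0 a c
  by_cases ha : Smooth z a
  · by_cases hc : Smooth z c
    · have hac : Smooth z (a * c) := smooth_mul.2 ⟨ha, hc⟩
      have hm := hmul a c ha hc
      simp only [ha, hc, hac, true_and, and_true, and_self, if_true]
      by_cases hT : Typ (a * c)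
      · rw [if_pos hT, sub_self, abs_zero]
        split_ifs <;> linarith
      · rw [if_neg hT, sub_zero, abs_of_nonneg h0]
        split_ifs with g1 g2 g3 g4 g5 g6 g7 g8 g9 g10 g11 g12 g13 g14 g15 <;>
          first | linarith | exact absurd (hm ‹_› ‹_› ‹_› ‹_›) hT
    · have hac : ¬ Smooth z (a * c) := fun h => hc (smooth_mul.1 h).2
      simp [hc, hac]
  · have hac : ¬ Smooth z (a * c) := fun h => ha (smooth_mul.1 h).1
    simp [ha, hac]

end Pool.Agent.Work.MP_82fd4a_nt
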