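import Pool.Agent.Work.MP_82fd4a_nt.NHuge
import Pool.Agent.Work.MP_82fd4a_nt.Chern
import Pool.Agent.Work.MP_82fd4a_nt.QRepA

/-! The pairs of smooth numbers whose product is not typical. -/

set_option autoImplicit false
open Filter Topology Finset

namespace Pool.Agent.Work.MP_82fd4a_nt

lemma n2b_rf {η : ℝ} (hη : 0 < η) (hη1 : η ≤ 1 / 100) : ∀ᶠ x : ℕ in atTop, ∀ (m : ℕ) (T : ℝ),
    0 < m → (m : ℝ) ≤ (x : ℝ) ^ (36 / 100 : ℝ) → 1 ≤ T → T ≤ √(x : ℝ) →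
    ∑ n ∈ Icc 1 (2 * x), rf ((x : ℝ) ^ η) n * gk x T (m * n)
      ≤ 2 * Gam x T / (η * Real.log x) * (m : ℝ)⁻¹ := by
  filter_upwards [su_ev 336 (by norm_num : (0 : ℝ) < 1 / 20), eventually_ge_atTop 2]
    with x hx hx2 m T hm hm2 hT hTx
  have hx1 : (1 : ℝ) < x := by exact_mod_cast hx2
  have hx0 : (0 : ℝ) < x := by linarith
  have hL : 0 < Real.log x := Real.log_pos hx1
  have hw : (1 : ℝ) < (x : ℝ) ^ η := Real.one_lt_rpow hx1 hη
  have hG := su_Gam_ge (by omega) hT hTx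
  have hm0 : (0 : ℝ) < m := by exact_mod_cast hm
  refine (sum_rf_gk x (by linarith) hm hw).trans ?_
  rw [Real.log_rpow hx0]
  have e1 : ((x : ℝ) ^ η) ^ 4 ≤ (x : ℝ) ^ (1 / 25 : ℝ) := by
    rw [← Real.rpow_natCast, ← Real.rpow_mul hx0.le]
    exact Real.rpow_le_rpow_of_exponent_le hx1.le (by push_cast; linarith)
  have e2 : Real.log x ≤ (x : ℝ) ^ (1 / 20 : ℝ) / (1 / 20) :=
    Real.log_le_rpow_div hx0.le (by norm_num)
  have e3 : (x : ℝ) ^ (1 / 25 : ℝ) * (x : ℝ) ^ (1 / 20 : ℝ) = (x : ℝ) ^ (9 / 100 : ℝ) := by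
    rw [← Real.rpow_add hx0]; norm_num
  have e4 : (1 : ℝ) ≤ (x : ℝ) ^ (9 / 100 : ℝ) := Real.one_le_rpow hx1.le (by norm_num)
  have e5 : (x : ℝ) ^ (1 / 2 : ℝ) =
      (x : ℝ) ^ (1 / 20 : ℝ) * (x : ℝ) ^ (9 / 100 : ℝ) * (x : ℝ) ^ (36 / 100 : ℝ) := by
    rw [← Real.rpow_add hx0, ← Real.rpow_add hx0]; norm_num
  have e6 : 42 * (x : ℝ) ^ (9 / 100 : ℝ) ≤ Gam x T / m := by
    rw [le_div_iff₀ hm0]
    refine le_trans ?_ hG
    rw [e5, le_div_iff₀ (by norm_num)]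
    calc 42 * (x : ℝ) ^ (9 / 100 : ℝ) * m * 8 = 336 * (x : ℝ) ^ (9 / 100 : ℝ) * m := by ring
      _ ≤ _ := by gcongr
  have e7 : ((x : ℝ) ^ η) ^ 4 * (η * Real.log x) ≤ 20 * (x : ℝ) ^ (9 / 100 : ℝ) := by
    have h1 : η * Real.log x ≤ 20 * (x : ℝ) ^ (1 / 20 : ℝ) := by
      have : η * Real.log x ≤ 1 * Real.log x := by gcongr; linarith
      linarith
    calc _ ≤ (x : ℝ) ^ (1 / 25 : ℝ) * (20 * (x : ℝ) ^ (1 / 20 : ℝ)) := by gcongr
      _ = _ := by rw [← e3]; ring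
  have hηL : 0 < η * Real.log x := mul_pos hη hL
  have e8 : 2 * Gam x T / (η * Real.log x) * (m : ℝ)⁻¹ =
      2 * (Gam x T / m) / (η * Real.log x) := by ring
  rw [e8, div_add' _ _ _ hηL.ne', div_le_div_iff_of_pos_right hηL]
  nlinarith

open Classical in
theorem n2_atyp : ∃ C : ℝ, 0 < C ∧ ∀ η : ℝ, 0 < η → η ≤ 1 / 100 → ∀ ρ : ℝ, 0 < ρ → ρ ≤ η →
    ∀ᶠ x : ℕ in atTop, ∀ (K J : ℕ) (Λ ε₀ T : ℝ) (Typ : ℕ → Prop), Λ ≤ Real.log x / 100 →
    (∀ π ∈ tup K J Λ, ((∏ i, π i : ℕ) : ℝ) ≤ (x : ℝ) ^ (1 / 20 : ℝ)) →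
    (∀ P : Finset (ℕ × ℕ), (∀ p ∈ P, Smooth ((x : ℝ) ^ ρ) p.1 ∧ Smooth ((x : ℝ) ^ ρ) p.2 ∧
      ¬ Typ (p.1 * p.2)) → ∑ p ∈ P, ((p.1 * p.2 : ℕ) : ℝ)⁻¹ ≤ ε₀ * (ρ * Real.log x) ^ 2) →
    1 ≤ T → T ≤ √(x : ℝ) →
    ∑ e ∈ Sm x ((x : ℝ) ^ ρ) (fun e => Real.log e ≤ Λ / 8),
      ∑ e' ∈ Sm x ((x : ℝ) ^ ρ) (fun _ => True), (if Typ (e * e') then 0 else
        ∑ π ∈ tup K J Λ, ∑ n ∈ Icc 1 (2 * x),
          rf ((x : ℝ) ^ η) n * gk x T (e * e' * (∏ i, π i) * n))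
      ≤ (2 * ε₀ / η + C * ρ) * (ρ ^ 2 * Real.log x) * Psi K J Λ * Gam x T := by
  obtain ⟨C, hC, H⟩ := huge_smooth
  refine ⟨C * Real.exp 73, by positivity, fun η hη hη1 ρ hρ hρη => ?_⟩
  filter_upwards [H ρ hρ (hρη.trans hη1), n2b_rf hη hη1, su_ev 2 hρ, eventually_ge_atTop 2]
    with x hH hR hz hx2 K J Λ ε₀ T Typ hΛ hπ hP hT hTx
  have hx1 : (1 : ℝ) < x := by exact_mod_cast hx2
  have hx0 : (0 : ℝ) < x := by linarith
  have hL : 0 < Real.log x := Real.log_pos hx1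
  have hΓ : 0 ≤ Gam x T := sum_nonneg fun n _ => gk_nonneg _ _ _
  have hΨ := Psi_nonneg K J Λ
  set A := Sm x ((x : ℝ) ^ ρ) (fun e => Real.log e ≤ Λ / 8) with hA
  set B := Sm x ((x : ℝ) ^ ρ) (fun _ => True) with hB
  set G : ℕ → ℕ → ℝ := fun e e' => ∑ π ∈ tup K J Λ, ∑ n ∈ Icc 1 (2 * x),
    rf ((x : ℝ) ^ η) n * gk x T (e * e' * (∏ i, π i) * n) with hG
  have G0 : ∀ e e', 0 ≤ G e e' := fun e e' => sum_nonneg fun _ _ => sum_nonneg fun _ _ =>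
    mul_nonneg (rf_nonneg _ _) (gk_nonneg _ _ _)
  have hAe : ∀ e ∈ A, (e : ℝ) ≤ (x : ℝ) ^ (1 / 100 : ℝ) := fun e he => by
    obtain ⟨h1, -, h2⟩ := qr_mem_Sm.1 he
    rw [Real.le_rpow_iff_log_le (by exact_mod_cast h1.1) hx0]
    linarith
  have k1 : ∑ e ∈ A, ∑ e' ∈ B, (if ¬ Typ (e * e') ∧ (e' : ℝ) ≤ (x : ℝ) ^ (3 / 10 : ℝ) then G e e'
      else 0) ≤ 2 * ε₀ / η * (ρ ^ 2 * Real.log x) * Psi K J Λ * Gam x T := by
    rw [← sum_product', ← sum_filter]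
    set P := (A ×ˢ B).filter fun p => ¬ Typ (p.1 * p.2) ∧ (p.2 : ℝ) ≤ (x : ℝ) ^ (3 / 10 : ℝ)
    have h1 := hP P fun p hp => by
      obtain ⟨h1, h2⟩ := mem_filter.1 hp
      obtain ⟨h3, h4⟩ := mem_product.1 h1
      exact ⟨(qr_mem_Sm.1 h3).2.1, (qr_mem_Sm.1 h4).2.1, h2.1⟩
    calc _ ≤ ∑ p ∈ P, 2 * Gam x T / (η * Real.log x) * Psi K J Λ * ((p.1 * p.2 : ℕ) : ℝ)⁻¹ := by
          refine sum_le_sum fun p hp => ?_
          obtain ⟨h1, h2⟩ := mem_filter.1 hp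
          obtain ⟨h3, h4⟩ := mem_product.1 h1
          rw [Psi, mul_sum, sum_mul]
          refine sum_le_sum fun π hπ' => (hR _ T (Nat.mul_pos (Nat.mul_pos (qr_mem_Sm.1 h3).1.1
            (qr_mem_Sm.1 h4).1.1) (prod_pos_of_mem_tup hπ' _)) ?_ hT hTx).trans (le_of_eq ?_)
          · rw [Nat.cast_mul, Nat.cast_mul, show (36 / 100 : ℝ) = 1 / 100 + 3 / 10 + 1 / 20 by
              norm_num, Real.rpow_add hx0, Real.rpow_add hx0]
            have := hAe _ h3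
            have := h2.2
            have := hπ π hπ'
            gcongr
          · rw [Nat.cast_mul (p.1 * p.2), mul_inv]
            ring
      _ ≤ 2 * Gam x T / (η * Real.log x) * Psi K J Λ * (ε₀ * (ρ * Real.log x) ^ 2) := by
          rw [← mul_sum]
          exact mul_le_mul_of_nonneg_left h1 (by positivity)
      _ = _ := by field_simp
  have k2 : ∑ e ∈ A, ∑ e' ∈ B, (if (x : ℝ) ^ (3 / 10 : ℝ) < e' then G e e' else 0)
      ≤ C * Real.exp 73 * ρ * (ρ ^ 2 * Real.log x) * Psi K J Λ * Gam x T := by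
    have h1 := (sum_inv_smooth _ A fun s hs => (qr_mem_Sm.1 hs).2.1).trans (VV_le hz)
    rw [Real.log_rpow hx0] at h1
    calc _ ≤ ∑ e ∈ A, C * ρ ^ 2 * Gam x T * Psi K J Λ * (e : ℝ)⁻¹ := by
          refine sum_le_sum fun e he => ?_
          have h2 : B.filter (fun e' : ℕ => (x : ℝ) ^ (3 / 10 : ℝ) < e') =
              Sm x ((x : ℝ) ^ ρ) (fun e => (x : ℝ) ^ (3 / 10 : ℝ) < e) := by
            ext a
            simp only [hB, mem_filter, qr_mem_Sm, and_true, and_assoc]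
          rw [← sum_filter, h2, hG, sum_comm, Psi, mul_sum, sum_mul]
          refine sum_le_sum fun π hπ' => ?_
          have h3 := hH (e * ∏ i, π i) ((x : ℝ) ^ η) T
            (Nat.mul_pos (qr_mem_Sm.1 he).1.1 (prod_pos_of_mem_tup hπ' _)) ?_
            (Real.rpow_le_rpow_of_exponent_le hx1.le hρη) hT hTx
          · simp only [mul_right_comm e (∏ i, π i)] at h3
            refine h3.trans (le_of_eq ?_)
            rw [Nat.cast_mul, div_eq_mul_inv, mul_inv]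
            ring
          · refine le_trans ?_ (Real.rpow_le_rpow_of_exponent_le hx1.le
              (by norm_num : (1 / 100 + 1 / 20 : ℝ) ≤ 1 / 10))
            rw [Nat.cast_mul, Real.rpow_add hx0]
            have := hAe _ he
            have := hπ π hπ'
            gcongr
      _ ≤ C * ρ ^ 2 * Gam x T * Psi K J Λ * (Real.exp 73 * (ρ * Real.log x)) := by
          rw [← mul_sum]
          exact mul_le_mul_of_nonneg_left h1 (by positivity)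
      _ = _ := by ring
  refine le_trans ?_ ((add_le_add k1 k2).trans (le_of_eq (by ring)))
  rw [← sum_add_distrib]
  refine sum_le_sum fun e _ => ?_
  rw [← sum_add_distrib]
  refine sum_le_sum fun e' _ => ?_
  have := G0 e e'
  change (if Typ (e * e') then 0 else G e e') ≤ _
  by_cases h1 : Typ (e * e')
  · rw [if_pos h1, if_neg fun h => h.1 h1]
    split_ifs <;> linarith
  · rcases le_or_gt (e' : ℝ) ((x : ℝ) ^ (3 / 10 : ℝ)) with h2 | h2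
    · rw [if_neg h1, if_pos ⟨h1, h2⟩, if_neg (not_lt.2 h2), add_zero]
    · rw [if_neg h1, if_neg fun h => not_lt.2 h.2 h2, if_pos h2, zero_add]

end Pool.Agent.Work.MP_82fd4a_nt
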