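import Pool.Agent.Work.MP_82fd4a_nt.NTypeI
import Pool.Agent.Work.MP_82fd4a_nt.QBil
import Pool.Agent.Work.MP_82fd4a_nt.SumU

/-! The type I estimate for the structured sums. -/

set_option autoImplicit false
open Filter Topology Finset

namespace Pool.Agent.Work.MP_82fd4a_nt

/-- upper bound for the logarithm of a steering prime -/
noncomputable def nicHi (K J : ℕ) (Λ : ℝ) : Ix K J → ℝ
  | Sum.inl _ => 2 * Λ
  | Sum.inr _ => Λ / 2 + Λ / (100 * ((J : ℝ) + 1))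

lemma nic_log_le {K J : ℕ} {Λ : ℝ} (hΛ : 0 ≤ Λ) {I : Finset (Ix K J)} {π : Ix K J → ℕ}
    (h : π ∈ qbTup K J Λ I) : Real.log ((∏ i, π i : ℕ) : ℝ) ≤ ∑ i ∈ I, nicHi K J Λ i := by
  have e : ∏ i, π i = ∏ i ∈ I, π i :=
    (prod_subset (subset_univ I) fun i _ hi => (qb_mem_tup.1 h i).2 hi).symm
  rw [e, Nat.cast_prod, Real.log_prod]
  · refine sum_le_sum fun i hi => ?_
    have h1 := (qb_mem_tup.1 h i).1 hi
    cases i with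
    | inl i =>
      have h2 := (mem_Pr.1 h1).2.2
      have hi : ((i : ℕ) : ℝ) + 1 ≤ K := by exact_mod_cast i.2
      have hK0 : (0 : ℝ) < K := lt_of_lt_of_le (by positivity) hi
      have b1 : (((i : ℕ) : ℝ) + 1) * Λ / K ≤ Λ := by
        rw [div_le_iff₀ hK0]; nlinarith
      change _ ≤ 2 * Λ
      linarith
    | inr i => exact (mem_Pr.1 h1).2.2
  · intro i hi
    exact_mod_cast (prime_of_mem_stP ((qb_mem_tup.1 h i).1 hi)).ne_zero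

lemma nic_sum_coarse {K J j : ℕ} (hj : j ≤ J) (Λ : ℝ) :
    ∑ i ∈ coarse K J j, nicHi K J Λ i = j * (Λ / 2 + Λ / (100 * ((J : ℝ) + 1))) := by
  rw [coarse, sum_map]
  change ∑ _i ∈ univ.filter fun t : Fin J => (t : ℕ) < j,
    (Λ / 2 + Λ / (100 * ((J : ℝ) + 1))) = _
  rw [sum_const, Fin.card_filter_val_lt, min_eq_right hj, nsmul_eq_mul]

lemma nic_sum_compl {K J : ℕ} (hJ : 1 ≤ J) {Λ : ℝ} (hΛ : 0 ≤ Λ) :
    ∑ i ∈ (coarse K J (J - 1))ᶜ, nicHi K J Λ i ≤ 2 * K * Λ + Λ := by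
  have h1 := sum_add_sum_compl (coarse K J (J - 1)) (nicHi K J Λ)
  rw [nic_sum_coarse (Nat.sub_le J 1), Fintype.sum_sum_type, Nat.cast_sub hJ] at h1
  simp only [nicHi, sum_const, card_univ, Fintype.card_fin, nsmul_eq_mul] at h1
  have h2 := su_frac hJ hΛ
  push_cast at h1 h2
  simp only [nicHi]
  linarith

lemma nic_sum_alpha {σ : Type} (G : Finset ℕ) (R : Finset σ) (r : σ → ℕ) (φ F : ℕ → ℝ) :
    ∑ a ∈ (G ×ˢ R).image (fun p => p.1 * r p.2),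
      (∑ f ∈ G, ∑ t ∈ R, if f * r t = a then φ f else 0) * F a
      = ∑ f ∈ G, ∑ t ∈ R, φ f * F (f * r t) := by
  simp only [sum_mul]
  rw [sum_comm]
  refine sum_congr rfl fun f hf => ?_
  rw [sum_comm]
  refine sum_congr rfl fun t ht => ?_
  simp only [ite_mul, zero_mul]
  rw [sum_ite_eq, if_pos (mem_image.2 ⟨(f, t), mem_product.2 ⟨hf, ht⟩, rfl⟩)]

lemma nic_alpha_le {σ : Type} (G : Finset ℕ) (R : Finset σ) (r : σ → ℕ) (hr : ∀ t ∈ R, 0 < r t)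
    {φ : ℕ → ℝ} (hφ : ∀ f, |φ f| ≤ 2) (a : ℕ) :
    |∑ f ∈ G, ∑ t ∈ R, if f * r t = a then φ f else 0| ≤ 2 * qbRep (· ∈ G) R r a := by
  rw [qbRep_eq_sum G R r hr, mul_sum]
  refine (abs_sum_le_sum_abs _ _).trans (sum_le_sum fun f _ => ?_)
  rw [mul_sum]
  refine (abs_sum_le_sum_abs _ _).trans (sum_le_sum fun t _ => ?_)
  split_ifs
  · simpa using hφ f
  · simp

lemma nic_le_pow {η : ℝ} (hη : 0 < η) {x n : ℕ} (hx : 1 ≤ x) (hn : (n : ℝ) ≤ x) :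
    (n : ℝ) ≤ ((x : ℝ) ^ η) ^ ⌈1 / η⌉₊ := by
  have h1 : (1 : ℝ) ≤ x := by exact_mod_cast hx
  rw [← Real.rpow_natCast, ← Real.rpow_mul (by linarith)]
  refine hn.trans ?_
  have h3 : 1 ≤ η * (⌈1 / η⌉₊ : ℝ) := by
    have := Nat.le_ceil (1 / η)
    rw [div_le_iff₀ hη] at this
    linarith
  simpa using Real.rpow_le_rpow_of_exponent_le h1 h3

lemma nic_rearr {K J : ℕ} (Λ : ℝ) (I : Finset (Ix K J)) (E D₁ D₂ G : Finset ℕ) (φ F : ℕ → ℝ) :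
    ∑ e ∈ E, ∑ π ∈ tup K J Λ, ∑ d₁ ∈ D₁, ∑ d₂ ∈ D₂, ∑ f ∈ G,
        φ f * F (e * (∏ i, π i) * d₁ * d₂ * f)
      = ∑ e ∈ E, ∑ t ∈ qbTup K J Λ I ×ˢ D₂, ∑ f ∈ G, ∑ u ∈ qbTup K J Λ Iᶜ ×ˢ D₁,
        φ f * F (e * qbR t * (f * qbR u)) := by
  refine sum_congr rfl fun e _ => ?_
  have h := qb_sum_tup K J Λ I fun P P' => ∑ d₁ ∈ D₁, ∑ d₂ ∈ D₂, ∑ f ∈ G,
    φ f * F (e * (P * P') * d₁ * d₂ * f)
  simp only [prod_mul_prod_compl] at h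
  rw [h, sum_product]
  refine sum_congr rfl fun π _ => ?_
  rw [← sum_product', sum_comm]
  refine sum_congr rfl fun d _ => ?_
  rw [sum_comm]
  refine sum_congr rfl fun f _ => sum_congr rfl fun u _ => ?_
  simp only [qbR]
  congr 2
  ring

theorem n2_typeI {ρ c : ℝ} (hρ : 0 < ρ) (hρ1 : ρ ≤ 1) (hc : 0 < c) (K J : ℕ) (hK : 1 ≤ K)
    (hJ : 1 ≤ J) {ε : ℝ} (hε : 0 < ε) : ∃ h : ℝ, 1 ≤ h ∧ ∀ᶠ x : ℕ in atTop,
    ∀ (Λ : ℝ) (E D₁ D₂ G : Finset ℕ) (φ : ℕ → ℝ), ρ * Real.log x ≤ Λ / 2 →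
    (∀ e ∈ E, Smooth ((x : ℝ) ^ ρ) e ∧ Real.log e ≤ Λ / 8) →
    (∀ d ∈ D₁, 1 ≤ d ∧ Rough ((x : ℝ) ^ ρ) d ∧
      Real.log d + 2 * K * Λ + Λ ≤ (1 / 4 - c) * Real.log x) →
    (∀ d ∈ D₂, 1 ≤ d ∧ Rough ((x : ℝ) ^ ρ) d ∧
      Real.log d + J * (Λ / 2) ≤ Real.log x.sqrt + Λ / 4) →
    (∀ f ∈ G, 1 ≤ f ∧ Rough ((x : ℝ) ^ ρ) f ∧ (f : ℝ) ≤ (x : ℝ) ^ (c / 2)) → (∀ f, |φ f| ≤ 2) →
    ∀ T : ℝ, Real.log x ^ 2 ≤ T → T ≤ x.sqrt / h →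
    |∑ e ∈ E, ∑ π ∈ tup K J Λ, ∑ d₁ ∈ D₁, ∑ d₂ ∈ D₂, ∑ f ∈ G, φ f *
        (sG x T (e * (∏ i, π i) * d₁ * d₂ * f)
          - Gam x T / ((e * (∏ i, π i) * d₁ * d₂ * f : ℕ) : ℝ))|
      ≤ ε * Real.log x * Gam x T := by
  obtain ⟨h, h1, H⟩ := typeI2 hρ hρ1 (half_pos hc) (2 * (2 ^ ⌈1 / ρ⌉₊) ^ (K + J + 1)) hε
  refine ⟨h, h1, ?_⟩
  filter_upwards [H, eventually_ge_atTop 1] with x H hx
  intro Λ E D₁ D₂ G φ hΛ hE hD₁ hD₂ hG hφ T t1 t2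
  have hx1 : (1 : ℝ) ≤ x := by exact_mod_cast hx
  have hx0 : (0 : ℝ) < x := by linarith
  have hL : 0 ≤ Real.log x := Real.log_nonneg hx1
  have hz : 1 ≤ (x : ℝ) ^ ρ := Real.one_le_rpow hx1 hρ.le
  have hΛ' : Real.log ((x : ℝ) ^ ρ) ≤ Λ / 2 := by rwa [Real.log_rpow hx0]
  have hΛ0 : 0 ≤ Λ := by have := mul_nonneg hρ.le hL; linarith
  have hd₁ : ∀ d ∈ D₁, 1 ≤ d ∧ Rough ((x : ℝ) ^ ρ) d := fun d hd => ⟨(hD₁ d hd).1, (hD₁ d hd).2.1⟩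
  have hd₂ : ∀ d ∈ D₂, 1 ≤ d ∧ Rough ((x : ℝ) ^ ρ) d := fun d hd => ⟨(hD₂ d hd).1, (hD₂ d hd).2.1⟩
  set I := coarse K J (J - 1) with hI
  have r₁ : ∀ t ∈ qbTup K J Λ Iᶜ ×ˢ D₁, 0 < qbR t := fun t ht => (qb_R_spec hz hΛ' hd₁ ht).1
  have r₂ : ∀ t ∈ qbTup K J Λ I ×ˢ D₂, 0 < qbR t := fun t ht => (qb_R_spec hz hΛ' hd₂ ht).1
  have hlog : ∀ t : (Ix K J → ℕ) × ℕ, 0 < qbR t →
      Real.log (qbR t) = Real.log ((∏ i, t.1 i : ℕ) : ℝ) + Real.log t.2 := fun t ht => by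
    have h2 := ht.ne'
    unfold qbR at h2 ⊢
    rw [Nat.cast_mul, Real.log_mul (by exact_mod_cast left_ne_zero_of_mul h2)
      (by exact_mod_cast right_ne_zero_of_mul h2)]
  have hA : ∀ a ∈ (G ×ˢ (qbTup K J Λ Iᶜ ×ˢ D₁)).image (fun p => p.1 * qbR p.2),
      1 ≤ a ∧ Rough ((x : ℝ) ^ ρ) a ∧ (a : ℝ) ≤ (x : ℝ) ^ (1 / 4 - c / 2) := by
    intro a ha
    obtain ⟨⟨f, t⟩, hp, rfl⟩ := mem_image.1 ha
    obtain ⟨hf, ht⟩ := mem_product.1 hp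
    obtain ⟨f1, f2, f3⟩ := hG f hf
    refine ⟨Nat.mul_pos f1 (r₁ t ht), rough_mul.2 ⟨f2, (qb_R_spec hz hΛ' hd₁ ht).2⟩, ?_⟩
    have a0 : (0 : ℝ) < qbR t := by exact_mod_cast r₁ t ht
    have a1 : (qbR t : ℝ) ≤ (x : ℝ) ^ (1 / 4 - c) := by
      rw [← Real.log_le_log_iff a0 (by positivity), Real.log_rpow hx0, hlog t (r₁ t ht)]
      have b1 := (nic_log_le hΛ0 (mem_product.1 ht).1).trans (nic_sum_compl hJ hΛ0)
      have b2 := (hD₁ _ (mem_product.1 ht).2).2.2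
      linarith
    rw [show 1 / 4 - c / 2 = c / 2 + (1 / 4 - c) by ring, Real.rpow_add hx0]
    push_cast
    gcongr
  have hB : ∀ e ∈ E, ∀ t ∈ qbTup K J Λ I ×ˢ D₂, e * qbR t ∈ Icc 1 x.sqrt := by
    intro e he t ht
    have e0 : 0 < e := Nat.pos_of_ne_zero (hE e he).1.1
    have e1 : (0 : ℝ) < e := by exact_mod_cast e0
    have a0 : (0 : ℝ) < qbR t := by exact_mod_cast r₂ t ht
    have s0 : (0 : ℝ) < x.sqrt := by exact_mod_cast Nat.sqrt_pos.2 hx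
    refine mem_Icc.2 ⟨Nat.mul_pos e0 (r₂ t ht), ?_⟩
    rw [← Nat.cast_le (α := ℝ), Nat.cast_mul, ← Real.log_le_log_iff (mul_pos e1 a0) s0,
      Real.log_mul e1.ne' a0.ne', hlog t (r₂ t ht)]
    have b1 := nic_log_le hΛ0 (mem_product.1 ht).1
    rw [hI, nic_sum_coarse (Nat.sub_le J 1)] at b1
    have b2 := su_frac (Nat.sub_le J 1) hΛ0
    rw [Nat.cast_sub hJ] at b1 b2
    have b3 := (hD₂ _ (mem_product.1 ht).2).2.2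
    have b4 := (hE e he).2
    push_cast at b1 b2 ⊢
    linarith
  have key := H (fun a => ∑ f ∈ G, ∑ t ∈ qbTup K J Λ Iᶜ ×ˢ D₁, if f * qbR t = a then φ f else 0)
    (qbRep (· ∈ E) (qbTup K J Λ I ×ˢ D₂) qbR) _ (fun a ha => ?_) (fun b hb => ?_) hA T t1 t2
  · refine le_of_eq_of_le (congrArg _ ?_) key
    rw [nic_rearr Λ I E D₁ D₂ G φ fun n => sG x T n - Gam x T / n]
    simp only [mul_assoc, ← mul_sum, ← Nat.cast_mul]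
    rw [qb_sum_rep E _ qbR r₂]
    refine sum_congr rfl fun e he => sum_congr rfl fun t ht => ?_
    rw [if_pos (hB e he t ht), nic_sum_alpha G _ qbR φ
      fun a => sG x T (e * qbR t * a) - Gam x T / ((e * qbR t * a : ℕ) : ℝ)]
    simp only [mul_assoc, ← mul_sum]
  · refine (nic_alpha_le G _ qbR r₁ hφ a).trans (mul_le_mul_of_nonneg_left ?_ zero_le_two)
    refine qb_rep_le hz le_rfl hΛ' (fun f hf => by have := (hG f hf).1; omega) Iᶜ hd₁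
      (nic_le_pow hρ hx ((hA a ha).2.2.trans ?_))
    simpa using Real.rpow_le_rpow_of_exponent_le hx1 (by linarith : 1 / 4 - c / 2 ≤ 1)
  · rw [abs_of_nonneg (qbRep_nonneg _ _ _ _)]
    refine (qb_rep_le hz le_rfl hΛ' (fun e he => (hE e he).1.1) I hd₂
      (nic_le_pow hρ hx (by exact_mod_cast hb.trans (Nat.sqrt_le_self x)))).trans ?_
    exact le_mul_of_one_le_left (by positivity) one_le_two

end Pool.Agent.Work.MP_82fd4a_nt
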