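import Pool.Agent.Work.MP_82fd4a_nt.NSumIA
import Pool.Agent.Work.MP_82fd4a_nt.NSumIB
import Pool.Agent.Work.MP_82fd4a_nt.NSumIC
import Pool.Agent.Work.MP_82fd4a_nt.NFund
import Pool.Agent.Work.MP_82fd4a_nt.SumII

/-! The type I part of the decomposition. -/

set_option autoImplicit false
open Filter Topology Finset

namespace Pool.Agent.Work.MP_82fd4a_nt

lemma ns_types (x : ℕ) (w b : ℝ) (𝒯 : Finset (Multiset ℕ))
    (h : ∀ d ∈ Icc 1 (2 * x), Rough w d → ty b d ∈ 𝒯) (F : ℕ → ℝ) :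
    ∑ d ∈ (Icc 1 (2 * x)).filter (Rough w), F d = ∑ t ∈ 𝒯, ∑ d ∈ Dt x w b t, F d := by
  rw [← sum_fiberwise_of_maps_to (g := ty b) (t := 𝒯)
    (fun d hd => h d (mem_filter.1 hd).1 (mem_filter.1 hd).2)]
  refine sum_congr rfl fun t _ => sum_congr ?_ fun _ _ => rfl
  ext d
  simp only [Dt, mem_filter, and_assoc]

lemma ns_group {ι : Type*} (P : Finset ι) (x : ℕ) (w b : ℝ) (𝒯 : Finset (Multiset ℕ))
    (h : ∀ d ∈ Icc 1 (2 * x), Rough w d → ty b d ∈ 𝒯) (g : Multiset ℕ → Multiset ℕ → ℝ)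
    (H : ι → ℕ → ℕ → ℝ) {N : ℕ} {C B : ℝ} (hN : 𝒯.card ≤ N) (hg : ∀ t t', |g t t'| ≤ C)
    (hB : 0 ≤ B) (hH : ∀ t t', g t t' ≠ 0 →
      |∑ p ∈ P, ∑ d₁ ∈ Dt x w b t, ∑ d₂ ∈ Dt x w b t', H p d₁ d₂| ≤ B) :
    |∑ p ∈ P, ∑ d₁ ∈ (Icc 1 (2 * x)).filter (Rough w), ∑ d₂ ∈ (Icc 1 (2 * x)).filter (Rough w),
      g (ty b d₁) (ty b d₂) * H p d₁ d₂| ≤ (N : ℝ) ^ 2 * (C * B) := by
  have hC : 0 ≤ C := (abs_nonneg _).trans (hg 0 0)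
  have e1 : ∀ p ∈ P, ∑ d₁ ∈ (Icc 1 (2 * x)).filter (Rough w),
      ∑ d₂ ∈ (Icc 1 (2 * x)).filter (Rough w), g (ty b d₁) (ty b d₂) * H p d₁ d₂
      = ∑ t ∈ 𝒯, ∑ t' ∈ 𝒯, g t t' * ∑ d₁ ∈ Dt x w b t, ∑ d₂ ∈ Dt x w b t', H p d₁ d₂ := by
    intro p _
    rw [ns_types x w b 𝒯 h]
    refine sum_congr rfl fun t _ => ?_
    simp only [ns_types x w b 𝒯 h]
    rw [sum_comm]
    refine sum_congr rfl fun t' _ => ?_
    rw [mul_sum]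
    refine sum_congr rfl fun d₁ h1 => ?_
    rw [mul_sum]
    refine sum_congr rfl fun d₂ h2 => ?_
    rw [(mem_filter.1 h1).2.2, (mem_filter.1 h2).2.2]
  rw [sum_congr rfl e1, sum_comm]
  have e2 : ∀ t ∈ 𝒯, |∑ p ∈ P, ∑ t' ∈ 𝒯,
      g t t' * ∑ d₁ ∈ Dt x w b t, ∑ d₂ ∈ Dt x w b t', H p d₁ d₂| ≤ N * (C * B) := by
    intro t _
    rw [sum_comm]
    refine (abs_sum_le_sum_abs _ _).trans ((sum_le_card_nsmul _ _ (C * B) fun t' _ => ?_).trans ?_)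
    · rw [← mul_sum, abs_mul]
      by_cases h0 : g t t' = 0
      · rw [h0, abs_zero, zero_mul]; positivity
      · exact mul_le_mul (hg t t') (hH t t' h0) (abs_nonneg _) hC
    · rw [nsmul_eq_mul]
      exact mul_le_mul_of_nonneg_right (by exact_mod_cast hN) (by positivity)
  refine (abs_sum_le_sum_abs _ _).trans ((sum_le_card_nsmul _ _ _ e2).trans ?_)
  rw [nsmul_eq_mul, sq, mul_assoc]
  exact mul_le_mul_of_nonneg_right (by exact_mod_cast hN) (by positivity)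

lemma ns_pair_mass (x : ℕ) (w b : ℝ) (lam : Multiset ℕ → Multiset ℕ → ℝ) {C : ℝ}
    (hC : ∀ d : ℕ, ∑ d₁ ∈ d.divisors, |lam (ty b d₁) (ty b (d / d₁))| ≤ C)
    (h : ∀ d₁ ∈ (Icc 1 (2 * x)).filter (Rough w), ∀ d₂ ∈ (Icc 1 (2 * x)).filter (Rough w),
      lam (ty b d₁) (ty b d₂) ≠ 0 → d₁ * d₂ ≤ 2 * x) :
    ∑ d₁ ∈ (Icc 1 (2 * x)).filter (Rough w), ∑ d₂ ∈ (Icc 1 (2 * x)).filter (Rough w),
      |lam (ty b d₁) (ty b d₂)| * (1 / ((d₁ : ℝ) * d₂))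
      ≤ C * ∑ d ∈ (Icc 1 (2 * x)).filter (Rough w), (1 / (d : ℝ)) := by
  set D := (Icc 1 (2 * x)).filter (Rough w) with hD
  rw [← sum_product', ← sum_filter_of_ne (p := fun u : ℕ × ℕ => u.1 * u.2 ≤ 2 * x)
    (fun u hu h0 => h _ (mem_product.1 hu).1 _ (mem_product.1 hu).2
      (fun h1 => h0 (by rw [h1, abs_zero, zero_mul])))]
  rw [← sum_fiberwise_of_maps_to (g := fun u : ℕ × ℕ => u.1 * u.2) (t := D) ?_, mul_sum]
  · refine sum_le_sum fun d hd => ?_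
    have hd0 : d ≠ 0 := by
      have := (mem_Icc.1 (mem_filter.1 hd).1).1
      omega
    have h1 : ∑ u ∈ ((D ×ˢ D).filter fun u : ℕ × ℕ => u.1 * u.2 ≤ 2 * x) with u.1 * u.2 = d,
        |lam (ty b u.1) (ty b u.2)| * (1 / ((u.1 : ℝ) * u.2))
        ≤ ∑ u ∈ d.divisorsAntidiagonal, |lam (ty b u.1) (ty b u.2)| * (1 / ((u.1 : ℝ) * u.2)) := by
      refine sum_le_sum_of_subset_of_nonneg (fun u hu => ?_) fun _ _ _ => by positivity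
      exact Nat.mem_divisorsAntidiagonal.2 ⟨(mem_filter.1 hu).2, hd0⟩
    refine h1.trans ?_
    have h2 : ∑ u ∈ d.divisorsAntidiagonal, |lam (ty b u.1) (ty b u.2)| * (1 / ((u.1 : ℝ) * u.2))
        = (∑ u ∈ d.divisorsAntidiagonal, |lam (ty b u.1) (ty b u.2)|) * (1 / (d : ℝ)) := by
      rw [sum_mul]
      refine sum_congr rfl fun u hu => ?_
      rw [← (Nat.mem_divisorsAntidiagonal.1 hu).1, Nat.cast_mul]
    rw [h2, Nat.sum_divisorsAntidiagonal (fun u v => |lam (ty b u) (ty b v)|)]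
    exact mul_le_mul_of_nonneg_right (hC d) (by positivity)
  · intro u hu
    obtain ⟨h1, h2⟩ := mem_filter.1 hu
    obtain ⟨h3, h4⟩ := mem_product.1 h1
    obtain ⟨h5, h6⟩ := mem_filter.1 h3
    obtain ⟨h7, h8⟩ := mem_filter.1 h4
    exact mem_filter.2 ⟨mem_Icc.2 ⟨Nat.mul_pos (mem_Icc.1 h5).1 (mem_Icc.1 h7).1, h2⟩,
      rough_mul.2 ⟨h6, h8⟩⟩

/-- all the pairs of smooth numbers together -/
lemma ns_main (x : ℕ) (T : ℝ) {z w : ℝ} (hzw : z ≤ w) (b Λ : ℝ) (K J : ℕ) (E₁ : Finset ℕ)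
    (hE₁ : ∀ e ∈ E₁, 0 < e) (lam : Multiset ℕ → Multiset ℕ → ℝ) :
    ∑ e ∈ E₁, ∑ e' ∈ Sm x z (fun _ => True), ∑ π ∈ tup K J Λ, ∑ n ∈ Icc 1 (2 * x),
        rf w n * Phi2 b lam n * gk x T (e * e' * (∏ i, π i) * n)
      = ∑ p ∈ E₁ ×ˢ tup K J Λ, ∑ d₁ ∈ (Icc 1 (2 * x)).filter (Rough w),
        ∑ d₂ ∈ (Icc 1 (2 * x)).filter (Rough w), lam (ty b d₁) (ty b d₂) *
          ∑ j ∈ Icc 1 (2 * x), fr z w j * gk x T (p.1 * (∏ i, p.2 i) * d₁ * d₂ * j) := by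
  rw [sum_product]
  refine sum_congr rfl fun e he => ?_
  rw [sum_comm]
  refine sum_congr rfl fun π hπ => ?_
  have hπ0 := prod_pos_of_mem_tup hπ univ
  have h1 : ∀ e' ∈ Sm x z (fun _ => True), ∑ n ∈ Icc 1 (2 * x),
      rf w n * Phi2 b lam n * gk x T (e * e' * (∏ i, π i) * n) = _ := fun e' he' =>
    n2_expand x T w b lam (Nat.mul_pos (Nat.mul_pos (hE₁ e he)
      (qr_mem_Sm.1 he').1.1) hπ0)
  rw [sum_congr rfl h1, sum_comm]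
  refine sum_congr rfl fun d₁ h₁ => ?_
  rw [sum_comm]
  refine sum_congr rfl fun d₂ h₂ => ?_
  rw [← mul_sum, ← n2_free x T hzw (Nat.mul_pos (Nat.mul_pos (Nat.mul_pos (hE₁ e he) hπ0)
    (mem_Icc.1 (mem_filter.1 h₁).1).1) (mem_Icc.1 (mem_filter.1 h₂).1).1)]
  congr 1
  refine sum_congr rfl fun e' _ => sum_congr rfl fun k _ => ?_
  congr 2
  ring

open Classical in
/-- one value of the parameter: the normalised sum is close to a main term -/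
lemma ns_one (x : ℕ) (T : ℝ) {z w : ℝ} (hzw : z ≤ w) (b Λ : ℝ) (K J : ℕ) (Typ : ℕ → Prop)
    (lam : Multiset ℕ → Multiset ℕ → ℝ) (E : Finset ℕ) (ls err : ℕ → ℝ)
    {Ck A δ B₁ B₂ B₃ : ℝ} (hG : 0 < Gam x T) (hT : ∀ s, Typ s → Real.log s ≤ Λ / 8)
    (hE : ∀ e ∈ E, 1 ≤ e)
    (hpt : ∀ n : ℕ, 1 ≤ n → |fr z w n - ∑ e ∈ E with e ∣ n, ls e| ≤ ∑ e ∈ E with e ∣ n, err e)
    (hPhi : ∀ n ∈ Icc 1 (2 * x), Rough w n → |Phi2 b lam n| ≤ Ck) (hCk : 0 ≤ Ck)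
    (hA : ∑ e ∈ Sm x z (fun e => Real.log e ≤ Λ / 8), ∑ e' ∈ Sm x z (fun _ => True),
      (if Typ (e * e') then 0 else ∑ π ∈ tup K J Λ, ∑ n ∈ Icc 1 (2 * x),
        rf w n * gk x T (e * e' * (∏ i, π i) * n)) ≤ A * Gam x T)
    (h1 : |∑ p ∈ Sm x z (fun e => Real.log e ≤ Λ / 8) ×ˢ tup K J Λ,
      ∑ d₁ ∈ (Icc 1 (2 * x)).filter (Rough w), ∑ d₂ ∈ (Icc 1 (2 * x)).filter (Rough w),
        lam (ty b d₁) (ty b d₂) * ∑ f ∈ E, ls f * (sG x T (p.1 * (∏ i, p.2 i) * d₁ * d₂ * f)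
          - Gam x T / ((p.1 * (∏ i, p.2 i) * d₁ * d₂ * f : ℕ) : ℝ))| ≤ δ * Gam x T)
    (h2 : |∑ p ∈ Sm x z (fun e => Real.log e ≤ Λ / 8) ×ˢ tup K J Λ,
      ∑ d₁ ∈ (Icc 1 (2 * x)).filter (Rough w), ∑ d₂ ∈ (Icc 1 (2 * x)).filter (Rough w),
        |lam (ty b d₁) (ty b d₂)| * ∑ f ∈ E, err f * (sG x T (p.1 * (∏ i, p.2 i) * d₁ * d₂ * f)
          - Gam x T / ((p.1 * (∏ i, p.2 i) * d₁ * d₂ * f : ℕ) : ℝ))| ≤ δ * Gam x T)
    (hB₁ : ∑ e ∈ Sm x z (fun e => Real.log e ≤ Λ / 8), (e : ℝ)⁻¹ ≤ B₁)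
    (hB₂ : ∑ d₁ ∈ (Icc 1 (2 * x)).filter (Rough w), ∑ d₂ ∈ (Icc 1 (2 * x)).filter (Rough w),
      |lam (ty b d₁) (ty b d₂)| * (1 / ((d₁ : ℝ) * d₂)) ≤ B₂)
    (hB₃ : ∑ f ∈ E, err f / f ≤ B₃) (hB : 0 ≤ B₃) :
    |SS x T K J Λ (Sm x z Typ) tau (fun n => rf w n * Phi2 b lam n) / Gam x T
      - ∑ p ∈ Sm x z (fun e => Real.log e ≤ Λ / 8) ×ˢ tup K J Λ,
        ∑ d₁ ∈ (Icc 1 (2 * x)).filter (Rough w), ∑ d₂ ∈ (Icc 1 (2 * x)).filter (Rough w),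
          lam (ty b d₁) (ty b d₂) * ∑ f ∈ E, ls f *
            (1 / ((p.1 * (∏ i, p.2 i) * d₁ * d₂ * f : ℕ) : ℝ))|
      ≤ Ck * A + B₁ * Psi K J Λ * B₂ * B₃ + 2 * δ := by
  set E₁ := Sm x z (fun e => Real.log e ≤ Λ / 8) with hE₁def
  set D := (Icc 1 (2 * x)).filter (Rough w) with hD
  have hE₁ : ∀ e ∈ E₁, 0 < e := fun e he => (qr_mem_Sm.1 he).1.1
  have hD1 : ∀ d ∈ D, 0 < d := fun d hd => (mem_Icc.1 (mem_filter.1 hd).1).1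
  set G : ℕ → ℝ := fun s => ∑ π ∈ tup K J Λ, ∑ n ∈ Icc 1 (2 * x),
    rf w n * Phi2 b lam n * gk x T (s * (∏ i, π i) * n) with hGdef
  have hG0 : ∀ s, 2 * x < s → G s = 0 := by
    intro s hs
    refine sum_eq_zero fun π hπ => sum_eq_zero fun n hn => ?_
    have h0 : gk x T (s * (∏ i, π i) * n) = 0 := by
      by_contra h0
      have h3 := (gk_ne_zero h0).2
      have h4 : s ≤ s * (∏ i, π i) * n := by
        rw [mul_assoc]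
        exact Nat.le_mul_of_pos_right _
          (Nat.mul_pos (prod_pos_of_mem_tup hπ univ) (mem_Icc.1 hn).1)
      omega
    rw [h0, mul_zero]
  have e0 := n2_pairs x z (Λ / 8) Typ hT G hG0
  have e1 : SS x T K J Λ (Sm x z Typ) tau (fun n => rf w n * Phi2 b lam n)
      = ∑ s ∈ Sm x z Typ, tau s * G s := by
    unfold SS
    refine sum_congr rfl fun s _ => ?_
    simp only [hGdef, mul_sum]
    refine sum_congr rfl fun π _ => sum_congr rfl fun n _ => ?_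
    ring
  have e2 : |∑ e ∈ E₁, ∑ e' ∈ Sm x z (fun _ => True), if Typ (e * e') then 0 else G (e * e')|
      ≤ Ck * (A * Gam x T) := by
    refine le_trans ?_ (mul_le_mul_of_nonneg_left hA hCk)
    rw [mul_sum]
    refine (abs_sum_le_sum_abs _ _).trans (sum_le_sum fun e _ => ?_)
    rw [mul_sum]
    refine (abs_sum_le_sum_abs _ _).trans (sum_le_sum fun e' _ => ?_)
    split_ifs
    · simp
    simp only [hGdef, mul_sum]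
    refine (abs_sum_le_sum_abs _ _).trans (sum_le_sum fun π _ => ?_)
    refine (abs_sum_le_sum_abs _ _).trans (sum_le_sum fun n hn => ?_)
    rw [abs_mul, abs_mul, abs_of_nonneg (gk_nonneg _ _ _), abs_of_nonneg (rf_nonneg _ _),
      ← mul_assoc]
    refine mul_le_mul_of_nonneg_right ?_ (gk_nonneg _ _ _)
    unfold rf
    split_ifs with hr
    · rw [one_mul, mul_one]; exact hPhi n hn hr
    · simp
  have e3 := ns_main x T hzw b Λ K J E₁ hE₁ lam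
  have e4 : |∑ p ∈ E₁ ×ˢ tup K J Λ, ∑ d₁ ∈ D, ∑ d₂ ∈ D, lam (ty b d₁) (ty b d₂) *
        ∑ j ∈ Icc 1 (2 * x), fr z w j * gk x T (p.1 * (∏ i, p.2 i) * d₁ * d₂ * j)
      - ∑ p ∈ E₁ ×ˢ tup K J Λ, ∑ d₁ ∈ D, ∑ d₂ ∈ D, lam (ty b d₁) (ty b d₂) *
        ∑ f ∈ E, ls f * sG x T (p.1 * (∏ i, p.2 i) * d₁ * d₂ * f)|
      ≤ ∑ p ∈ E₁ ×ˢ tup K J Λ, ∑ d₁ ∈ D, ∑ d₂ ∈ D, |lam (ty b d₁) (ty b d₂)| *
        ∑ f ∈ E, err f * sG x T (p.1 * (∏ i, p.2 i) * d₁ * d₂ * f) := by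
    rw [← sum_sub_distrib]
    refine (abs_sum_le_sum_abs _ _).trans (sum_le_sum fun p hp => ?_)
    rw [← sum_sub_distrib]
    refine (abs_sum_le_sum_abs _ _).trans (sum_le_sum fun d₁ h₁ => ?_)
    rw [← sum_sub_distrib]
    refine (abs_sum_le_sum_abs _ _).trans (sum_le_sum fun d₂ h₂ => ?_)
    rw [← mul_sub, abs_mul]
    refine mul_le_mul_of_nonneg_left ?_ (abs_nonneg _)
    obtain ⟨hp1, hp2⟩ := mem_product.1 hp
    exact n2_sieve x T z w (Nat.mul_pos (Nat.mul_pos (Nat.mul_pos (hE₁ _ hp1)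
      (prod_pos_of_mem_tup hp2 univ)) (hD1 _ h₁)) (hD1 _ h₂)) E hE ls err hpt
  have split : ∀ (g : ℕ → ℕ → ℝ) (φ : ℕ → ℝ), ∑ p ∈ E₁ ×ˢ tup K J Λ, ∑ d₁ ∈ D, ∑ d₂ ∈ D,
        g d₁ d₂ * ∑ f ∈ E, φ f * (sG x T (p.1 * (∏ i, p.2 i) * d₁ * d₂ * f)
          - Gam x T / ((p.1 * (∏ i, p.2 i) * d₁ * d₂ * f : ℕ) : ℝ))
      = ∑ p ∈ E₁ ×ˢ tup K J Λ, ∑ d₁ ∈ D, ∑ d₂ ∈ D,
          g d₁ d₂ * ∑ f ∈ E, φ f * sG x T (p.1 * (∏ i, p.2 i) * d₁ * d₂ * f)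
        - Gam x T * ∑ p ∈ E₁ ×ˢ tup K J Λ, ∑ d₁ ∈ D, ∑ d₂ ∈ D, g d₁ d₂ * ∑ f ∈ E, φ f *
          (1 / ((p.1 * (∏ i, p.2 i) * d₁ * d₂ * f : ℕ) : ℝ)) := by
    intro g φ
    simp only [mul_sum, ← sum_sub_distrib]
    refine sum_congr rfl fun p _ => sum_congr rfl fun d₁ _ => sum_congr rfl fun d₂ _ =>
      sum_congr rfl fun f _ => ?_
    ring
  rw [split (fun d₁ d₂ => lam (ty b d₁) (ty b d₂))] at h1
  rw [split (fun d₁ d₂ => |lam (ty b d₁) (ty b d₂)|)] at h2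
  have e5 : ∑ p ∈ E₁ ×ˢ tup K J Λ, ∑ d₁ ∈ D, ∑ d₂ ∈ D, |lam (ty b d₁) (ty b d₂)| *
        ∑ f ∈ E, err f * (1 / ((p.1 * (∏ i, p.2 i) * d₁ * d₂ * f : ℕ) : ℝ))
      = (∑ e ∈ E₁, (e : ℝ)⁻¹) * Psi K J Λ * (∑ d₁ ∈ D, ∑ d₂ ∈ D,
        |lam (ty b d₁) (ty b d₂)| * (1 / ((d₁ : ℝ) * d₂))) * ∑ f ∈ E, err f / f := by
    unfold Psi
    rw [sum_mul_sum E₁, sum_product, mul_assoc, sum_mul]
    refine sum_congr rfl fun e _ => ?_
    rw [sum_mul]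
    refine sum_congr rfl fun π _ => ?_
    rw [sum_mul, mul_sum]
    refine sum_congr rfl fun d₁ _ => ?_
    rw [sum_mul, mul_sum]
    refine sum_congr rfl fun d₂ _ => ?_
    simp only [mul_sum]
    refine sum_congr rfl fun f _ => ?_
    push_cast
    ring
  have hP := Psi_nonneg K J Λ
  have n1 : 0 ≤ ∑ e ∈ E₁, (e : ℝ)⁻¹ := sum_nonneg fun _ _ => by positivity
  have n2 : 0 ≤ ∑ d₁ ∈ D, ∑ d₂ ∈ D, |lam (ty b d₁) (ty b d₂)| * (1 / ((d₁ : ℝ) * d₂)) :=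
    sum_nonneg fun _ _ => sum_nonneg fun _ _ => by positivity
  have e6 : (∑ e ∈ E₁, (e : ℝ)⁻¹) * Psi K J Λ * (∑ d₁ ∈ D, ∑ d₂ ∈ D,
        |lam (ty b d₁) (ty b d₂)| * (1 / ((d₁ : ℝ) * d₂))) * ∑ f ∈ E, err f / f
      ≤ B₁ * Psi K J Λ * B₂ * B₃ := by
    refine (mul_le_mul_of_nonneg_left hB₃ (by positivity)).trans
      (mul_le_mul_of_nonneg_right ?_ hB)
    exact mul_le_mul (mul_le_mul_of_nonneg_right hB₁ hP) hB₂ n2
      (mul_nonneg (n1.trans hB₁) hP)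
  rw [e5] at h2
  have e7 := mul_le_mul_of_nonneg_left e6 hG.le
  replace e0 := e3.symm.trans e0
  rw [e1, div_sub' hG.ne', abs_div, abs_of_pos hG, div_le_iff₀ hG]
  rw [abs_le] at h1 h2 e2 e4 ⊢
  constructor <;> nlinarith [h1.1, h1.2, h2.1, h2.2, e2.1, e2.2, e4.1, e4.2]

theorem sum_Phi2 {ζ c C₀ : ℝ} (hζ : 0 < ζ) (hc : 0 < c) (hC : 0 < C₀) :
    ∃ η₀ : ℝ, 0 < η₀ ∧ ∀ η : ℝ, 0 < η → η ≤ η₀ → ∃ ε₀ : ℝ, 0 < ε₀ ∧ ∃ ρ₀ : ℝ, 0 < ρ₀ ∧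
    ∀ ρ : ℝ, 0 < ρ → ρ ≤ ρ₀ → ∀ (K J N : ℕ) (c₁ : ℝ), 0 < c₁ → 1 ≤ K → 1 ≤ J →
    ∃ h : ℝ, 1 ≤ h ∧ ∀ᶠ x : ℕ in atTop, ∀ (Λ b : ℝ) (Typ : ℕ → Prop) (S : Finset ℕ)
      (lam : Multiset ℕ → Multiset ℕ → ℝ) (𝒯 : Finset (Multiset ℕ)),
    S = Sm x ((x : ℝ) ^ ρ) Typ → 𝒯.card ≤ N → ρ * Real.log x ≤ Λ / 2 → Λ ≤ Real.log x / 100 →
    (∀ π ∈ tup K J Λ, ((∏ i, π i : ℕ) : ℝ) ≤ (x : ℝ) ^ (1 / 20 : ℝ)) →
    (∀ s, Typ s → Real.log s ≤ Λ / 8) →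
    (ρ * Real.log x) ^ 2 / 4 ≤ ∑ s ∈ S, tau s / s → c₁ ≤ Psi K J Λ →
    (∀ P : Finset (ℕ × ℕ), (∀ p ∈ P, Smooth ((x : ℝ) ^ ρ) p.1 ∧ Smooth ((x : ℝ) ^ ρ) p.2 ∧
      ¬ Typ (p.1 * p.2)) → ∑ p ∈ P, ((p.1 * p.2 : ℕ) : ℝ)⁻¹ ≤ ε₀ * (ρ * Real.log x) ^ 2) →
    0 < b → (∀ d ∈ Icc 1 (2 * x), Rough ((x : ℝ) ^ η) d → ty b d ∈ 𝒯) →
    (∀ t t', |lam t t'| ≤ C₀) →
    (∀ d : ℕ, ∑ d₁ ∈ d.divisors, |lam (ty b d₁) (ty b (d / d₁))| ≤ C₀) →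
    (∀ d₁ ∈ Icc 1 (2 * x), ∀ d₂ ∈ Icc 1 (2 * x), Rough ((x : ℝ) ^ η) d₁ → Rough ((x : ℝ) ^ η) d₂ →
      lam (ty b d₁) (ty b d₂) ≠ 0 → Real.log d₁ + 2 * K * Λ + Λ ≤ (1 / 4 - c) * Real.log x ∧
        Real.log d₂ + J * (Λ / 2) ≤ Real.log x.sqrt + Λ / 4) →
    ∀ T T' : ℝ, Real.log x ^ 2 ≤ T → T ≤ x.sqrt / h → Real.log x ^ 2 ≤ T' → T' ≤ x.sqrt / h →
    |SS x T K J Λ S tau (fun n => rf ((x : ℝ) ^ η) n * Phi2 b lam n) / Gam x T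
      - SS x T' K J Λ S tau (fun n => rf ((x : ℝ) ^ η) n * Phi2 b lam n) / Gam x T'|
      ≤ ζ * WW K J Λ S tau / Real.log x := by
  obtain ⟨CF, hCF, hF⟩ := fund_mid
  obtain ⟨CA, hCA, hAt⟩ := n2_atyp
  have hexp : 0 < Real.exp 73 := Real.exp_pos _
  refine ⟨min (c / 20) (min (1 / 100) (ζ * c ^ 3 / (48 * (152 * Real.exp 73 * C₀ * CF)))),
    by positivity, fun η hη hη0 => ?_⟩
  have hη1 : η ≤ c / 20 := hη0.trans (min_le_left _ _)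
  have hη2 : η ≤ 1 / 100 := hη0.trans ((min_le_right _ _).trans (min_le_left _ _))
  have hη3 : η ≤ ζ * c ^ 3 / (48 * (152 * Real.exp 73 * C₀ * CF)) :=
    hη0.trans ((min_le_right _ _).trans (min_le_right _ _))
  set k := ⌈2 / η⌉₊ with hk
  set Ck : ℝ := C₀ * 2 ^ k with hCk
  have hCk0 : 0 < Ck := by positivity
  refine ⟨ζ * η / (96 * Ck), by positivity, min η (ζ / (48 * Ck * CA)), by positivity,
    fun ρ hρ hρ0 K J N c₁ hc₁ hK hJ => ?_⟩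
  have hρ1 : ρ ≤ η := hρ0.trans (min_le_left _ _)
  have hρ2 : ρ ≤ ζ / (48 * Ck * CA) := hρ0.trans (min_le_right _ _)
  set ε : ℝ := ζ * ρ ^ 2 * c₁ / (32 * (((N : ℝ) ^ 2 + 1) * C₀)) with hεdef
  have hε : 0 < ε := by positivity
  obtain ⟨h, hh, hI⟩ := n2_typeI hρ (by linarith) hc K J hK hJ hε
  refine ⟨h, hh, ?_⟩
  have hs : 10 ≤ c / (2 * η) := by rw [le_div_iff₀ (by positivity)]; linarith
  have ht : Tendsto (fun x : ℕ => (x : ℝ) ^ ρ) atTop atTop :=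
    (tendsto_rpow_atTop hρ).comp tendsto_natCast_atTop_atTop
  have hl : Tendsto (fun x : ℕ => Real.log x) atTop atTop :=
    Real.tendsto_log_atTop.comp tendsto_natCast_atTop_atTop
  filter_upwards [ht.eventually (hF _ hs), hI, hAt η hη hη2 ρ hρ hρ1,
    si_inv_rough hη (by linarith), eventually_ge_atTop 2, hl.eventually_ge_atTop 1,
    ht.eventually_ge_atTop 2] with x hx hI hAt hinv hx2 hL hz2
  intro Λ b Typ S lam 𝒯 hS hN hΛ1 hΛ2 hπ hTyp hW hPsi hpairs _ h𝒯 hlam hlam2 hsize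
    T T' hT1 hT2 hT1' hT2'
  subst hS
  have hx1 : (1 : ℝ) ≤ x := by exact_mod_cast (by omega : 1 ≤ x)
  have hx0 : (0 : ℝ) < x := by linarith
  have hzw : (x : ℝ) ^ ρ ≤ (x : ℝ) ^ η := Real.rpow_le_rpow_of_exponent_le hx1 hρ1
  obtain ⟨E, ls, err, hE, hls, herr, hpt, hsum⟩ := hx _ hzw
  have hlz : Real.log ((x : ℝ) ^ ρ) = ρ * Real.log x := Real.log_rpow hx0 ρ
  have hlw : Real.log ((x : ℝ) ^ η) = η * Real.log x := Real.log_rpow hx0 η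
  have hΛ0 : 0 ≤ Λ := by
    have : 0 ≤ ρ * Real.log x := by positivity
    linarith
  have hE' : ∀ f ∈ E, 1 ≤ f ∧ Rough ((x : ℝ) ^ ρ) f ∧ (f : ℝ) ≤ (x : ℝ) ^ (c / 2) := by
    intro f hf
    refine ⟨(hE f hf).1, (hE f hf).2.1, (hE f hf).2.2.trans_eq ?_⟩
    rw [← Real.rpow_mul hx0.le]
    congr 1
    field_simp
  have hsq : ((x.sqrt : ℕ) : ℝ) ≤ √(x : ℝ) := Real.nat_sqrt_le_real_sqrt
  have hsq1 : √(x : ℝ) ≤ x := by
    rw [Real.sqrt_le_left hx0.le]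
    exact le_self_pow₀ hx1 two_ne_zero
  have hPhi : ∀ n ∈ Icc 1 (2 * x), Rough ((x : ℝ) ^ η) n → |Phi2 b lam n| ≤ Ck := by
    intro n hn hr
    obtain ⟨hn1, hn2⟩ := mem_Icc.1 hn
    refine (abs_Phi2_le hlam2 n).trans (mul_le_mul_of_nonneg_left ?_ hC.le)
    refine pow_le_pow_right₀ one_le_two ?_
    have h1 := card_ty_le b (Real.one_le_rpow hx1 hη.le) (by omega : n ≠ 0) hr
    have h2 : Real.log n ≤ 2 * Real.log x := by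
      have h3 : (n : ℝ) ≤ (x : ℝ) ^ 2 := by
        have : n ≤ x ^ 2 := hn2.trans (by rw [sq]; exact Nat.mul_le_mul_right x hx2)
        exact_mod_cast this
      have h4 := Real.log_le_log (by exact_mod_cast hn1) h3
      rw [Real.log_pow] at h4
      exact_mod_cast h4
    rw [hlw] at h1
    have h3 : ((ty b n).card : ℝ) ≤ 2 / η := by
      rw [le_div_iff₀ hη]
      refine le_of_mul_le_mul_right ?_ (by linarith : 0 < Real.log x)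
      linarith
    exact_mod_cast h3.trans (Nat.le_ceil _)
  have hB₁ : ∑ e ∈ Sm x ((x : ℝ) ^ ρ) (fun e => Real.log e ≤ Λ / 8), (e : ℝ)⁻¹
      ≤ Real.exp 73 * (ρ * Real.log x) := by
    rw [← hlz]
    exact (sum_inv_smooth _ _ fun s hs => (qr_mem_Sm.1 hs).2.1).trans (VV_le hz2)
  have hB₂ := (ns_pair_mass x ((x : ℝ) ^ η) b lam hlam2 fun d₁ h₁ d₂ h₂ h0 => by
      obtain ⟨a1, a2⟩ := mem_filter.1 h₁
      obtain ⟨a3, a4⟩ := mem_filter.1 h₂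
      obtain ⟨b1, b2⟩ := hsize d₁ a1 d₂ a3 a2 a4 h0
      have p1 : (0 : ℝ) < d₁ := by exact_mod_cast (mem_Icc.1 a1).1
      have p2 : (0 : ℝ) < d₂ := by exact_mod_cast (mem_Icc.1 a3).1
      have p3 : (0 : ℝ) < (x.sqrt : ℕ) := by exact_mod_cast Nat.sqrt_pos.2 (by omega)
      have c1 : Real.log (x.sqrt : ℕ) ≤ Real.log x / 2 := by
        rw [← Real.log_sqrt hx0.le]
        exact Real.log_le_log p3 hsq
      have c2 : (1 : ℝ) ≤ J := by exact_mod_cast hJ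
      have c3 : 0 ≤ (K : ℝ) * Λ := by positivity
      have c4 : Real.log ((d₁ : ℝ) * d₂) ≤ Real.log x := by
        rw [Real.log_mul p1.ne' p2.ne']
        have c7 := mul_le_mul_of_nonneg_right c2 hΛ0
        have c8 : 0 ≤ c * Real.log x := by positivity
        linarith
      have c5 := (Real.log_le_log_iff (by positivity) hx0).1 c4
      have c6 : d₁ * d₂ ≤ x := by exact_mod_cast c5
      omega).trans (mul_le_mul_of_nonneg_left (hinv _ fun d hd => by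
        obtain ⟨a1, a2⟩ := mem_filter.1 hd
        exact ⟨(mem_Icc.1 a1).1, (mem_Icc.1 a1).2, a2⟩) hC.le)
  have hgroup : ∀ U : ℝ, Real.log x ^ 2 ≤ U → U ≤ x.sqrt / h → 0 < Gam x U →
      ∀ (g : Multiset ℕ → Multiset ℕ → ℝ) (φ : ℕ → ℝ), (∀ t t', |g t t'| ≤ C₀) →
      (∀ t t', g t t' ≠ 0 → lam t t' ≠ 0) → (∀ f, |φ f| ≤ 2) →
      |∑ p ∈ Sm x ((x : ℝ) ^ ρ) (fun e => Real.log e ≤ Λ / 8) ×ˢ tup K J Λ,
        ∑ d₁ ∈ (Icc 1 (2 * x)).filter (Rough ((x : ℝ) ^ η)),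
        ∑ d₂ ∈ (Icc 1 (2 * x)).filter (Rough ((x : ℝ) ^ η)),
        g (ty b d₁) (ty b d₂) * ∑ f ∈ E, φ f * (sG x U (p.1 * (∏ i, p.2 i) * d₁ * d₂ * f)
          - Gam x U / ((p.1 * (∏ i, p.2 i) * d₁ * d₂ * f : ℕ) : ℝ))|
        ≤ ((N : ℝ) ^ 2 * C₀ * ε * Real.log x) * Gam x U := by
    intro U hU1 hU2 hG g φ hg hg0 hφ
    refine (ns_group _ x _ b 𝒯 h𝒯 g _ hN hg (B := ε * Real.log x * Gam x U) (by positivity)
      fun t t' h0 => ?_).trans_eq (by ring)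
    rcases (Dt x ((x : ℝ) ^ η) b t).eq_empty_or_nonempty with h1 | ⟨u, hu⟩
    · simp only [h1, sum_empty, sum_const_zero, abs_zero]
      positivity
    rcases (Dt x ((x : ℝ) ^ η) b t').eq_empty_or_nonempty with h2 | ⟨v, hv⟩
    · simp only [h2, sum_empty, sum_const_zero, abs_zero]
      positivity
    rw [sum_product]
    have hr : ∀ d, Rough ((x : ℝ) ^ η) d → Rough ((x : ℝ) ^ ρ) d :=
      fun d hd p hp hpd => hzw.trans_lt (hd p hp hpd)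
    refine hI Λ _ _ _ E φ hΛ1 (fun e he => (qr_mem_Sm.1 he).2)
      (fun d hd => ?_) (fun d hd => ?_) hE' hφ U hU1 hU2
    · obtain ⟨a1, a2, a3⟩ := mem_filter.1 hd
      obtain ⟨b1, b2, b3⟩ := mem_filter.1 hv
      exact ⟨(mem_Icc.1 a1).1, hr d a2,
        (hsize d a1 v b1 a2 b2 (by rw [a3, b3]; exact hg0 _ _ h0)).1⟩
    · obtain ⟨a1, a2, a3⟩ := mem_filter.1 hd
      obtain ⟨b1, b2, b3⟩ := mem_filter.1 hu
      exact ⟨(mem_Icc.1 a1).1, hr d a2,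
        (hsize u b1 d a1 b2 a2 (by rw [a3, b3]; exact hg0 _ _ h0)).2⟩
  have one : ∀ U : ℝ, Real.log x ^ 2 ≤ U → U ≤ x.sqrt / h → _ := fun U hU1 hU2 => by
    have hU3 : 1 ≤ U := (one_le_pow₀ hL).trans hU1
    have hU4 : U ≤ √(x : ℝ) := (hU2.trans (div_le_self (by positivity) hh)).trans hsq
    have hG : 0 < Gam x U :=
      lt_of_lt_of_le (div_pos hx0 (by linarith)) (Gam_ge hU3 (hU4.trans hsq1))
    exact ns_one x U hzw b Λ K J Typ lam E ls err hG hTyp (fun e he => (hE e he).1) hpt hPhi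
      hCk0.le (hAt K J Λ _ U Typ hΛ2 hπ hpairs hU3 hU4)
      (hgroup U hU1 hU2 hG lam ls hlam (fun _ _ h0 => h0) hls)
      (hgroup U hU1 hU2 hG (fun t t' => |lam t t'|) err (fun t t' => by
        rw [abs_abs]; exact hlam t t') (fun _ _ h0 => abs_ne_zero.1 h0) herr)
      hB₁ hB₂ hsum (by rw [hlz, hlw]; positivity)
  have a1 := one T hT1 hT2
  have a2 := one T' hT1' hT2'
  have hP := Psi_nonneg K J Λ
  set R := ρ ^ 2 * Real.log x * Psi K J Λ with hR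
  have hR0 : 0 ≤ R := by positivity
  have f1 : Ck * ((2 * (ζ * η / (96 * Ck)) / η + CA * ρ) * (ρ ^ 2 * Real.log x) * Psi K J Λ)
      ≤ ζ / 24 * R := by
    have g1 : Ck * ((2 * (ζ * η / (96 * Ck)) / η + CA * ρ) * (ρ ^ 2 * Real.log x) * Psi K J Λ)
        = (ζ / 48 + ρ * (48 * Ck * CA) / 48) * R := by
      rw [hR]; field_simp; ring
    rw [g1]
    rw [le_div_iff₀ (by positivity)] at hρ2
    exact mul_le_mul_of_nonneg_right (by linarith) hR0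
  have f2 : Real.exp 73 * (ρ * Real.log x) * Psi K J Λ * (C₀ * (19 / η)) *
      (CF * Real.log ((x : ℝ) ^ ρ) / ((c / (2 * η)) ^ 3 * Real.log ((x : ℝ) ^ η)))
      ≤ ζ / 48 * R := by
    have g1 : Real.exp 73 * (ρ * Real.log x) * Psi K J Λ * (C₀ * (19 / η)) *
        (CF * Real.log ((x : ℝ) ^ ρ) / ((c / (2 * η)) ^ 3 * Real.log ((x : ℝ) ^ η)))
        = (η * (48 * (152 * Real.exp 73 * C₀ * CF)) / (48 * c ^ 3)) * R := by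
      rw [hR, hlz, hlw]; field_simp; ring
    rw [g1]
    rw [le_div_iff₀ (by positivity)] at hη3
    refine mul_le_mul_of_nonneg_right ?_ hR0
    rw [div_le_div_iff₀ (by positivity) (by positivity)]
    linarith
  have f3 : (N : ℝ) ^ 2 * C₀ * ε * Real.log x ≤ ζ / 32 * R := by
    have g1 : ((N : ℝ) ^ 2 + 1) * C₀ * ε * Real.log x = ζ / 32 * (ρ ^ 2 * Real.log x * c₁) := by
      rw [hεdef]; field_simp
    have g2 : ρ ^ 2 * Real.log x * c₁ ≤ R := mul_le_mul_of_nonneg_left hPsi (by positivity)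
    have g3 : 0 ≤ C₀ * ε * Real.log x := by positivity
    have g4 := mul_le_mul_of_nonneg_left g2 (by positivity : 0 ≤ ζ / 32)
    linarith
  have f4 : ζ / 4 * R ≤ ζ * WW K J Λ (Sm x ((x : ℝ) ^ ρ) Typ) tau / Real.log x := by
    rw [le_div_iff₀ (by linarith)]
    have g1 := mul_le_mul_of_nonneg_left (mul_le_mul_of_nonneg_right hW hP) hζ.le
    unfold WW
    calc ζ / 4 * R * Real.log x = ζ * ((ρ * Real.log x) ^ 2 / 4 * Psi K J Λ) := by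
          rw [hR]; ring
      _ ≤ _ := g1
  rw [abs_le] at a1 a2 ⊢
  constructor <;> linarith [a1.1, a1.2, a2.1, a2.2]

end Pool.Agent.Work.MP_82fd4a_nt
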