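import Pool.Agent.Work.MP_82fd4a_nt.NDefs
import Pool.Agent.Work.MP_82fd4a_nt.SumIA
import Pool.Agent.Work.MP_82fd4a_nt.QRepA

/-! Rearrangements of the type I sums. -/

set_option autoImplicit false
open Filter Topology Finset

namespace Pool.Agent.Work.MP_82fd4a_nt

lemma n2a_split (z : ℝ) {n : ℕ} (hn : n ≠ 0) : ∃ e k, e * k = n ∧ Smooth z e ∧ Rough z k := by
  induction n using Nat.recOnMul with
  | zero => exact absurd rfl hn
  | one =>
    exact ⟨1, 1, rfl, ⟨one_ne_zero, fun p hp h => absurd h hp.not_dvd_one⟩,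
      fun p hp h => absurd h hp.not_dvd_one⟩
  | prime p hp =>
    rcases le_or_gt (p : ℝ) z with h | h
    · exact ⟨p, 1, mul_one p, ⟨hn, fun q hq h' => (Nat.prime_dvd_prime_iff_eq hq hp).1 h' ▸ h⟩,
        fun p hp h => absurd h hp.not_dvd_one⟩
    · exact ⟨1, p, one_mul p, ⟨one_ne_zero, fun p hp h => absurd h hp.not_dvd_one⟩,
        fun q hq h' => (Nat.prime_dvd_prime_iff_eq hq hp).1 h' ▸ h⟩
  | mul a b ha hb =>
    obtain ⟨e, k, rfl, h1, h2⟩ := ha (left_ne_zero_of_mul hn)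
    obtain ⟨e', k', rfl, h1', h2'⟩ := hb (right_ne_zero_of_mul hn)
    exact ⟨e * e', k * k', mul_mul_mul_comm _ _ _ _, smooth_mul.2 ⟨h1, h1'⟩,
      rough_mul.2 ⟨h2, h2'⟩⟩

lemma n2a_dvd {z : ℝ} {e k e' k' : ℕ} (h : e * k = e' * k') (he : Smooth z e) (hk : Rough z k') :
    e ∣ e' :=
  (Nat.coprime_of_dvd fun p hp h1 h2 => not_lt.2 (he.2 p hp h1) (hk p hp h2)).dvd_of_dvd_mul_right
    (h ▸ dvd_mul_right e k)

lemma n2a_fr {z w : ℝ} (hzw : z ≤ w) {n : ℕ} (hn : n ≠ 0) :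
    ∑ e ∈ n.divisors, (if Smooth z e then rf w (n / e) else 0) = fr z w n := by
  obtain ⟨e, k, rfl, he, hk⟩ := n2a_split z hn
  rw [sum_eq_single e, if_pos he, Nat.mul_div_cancel_left _ (Nat.pos_of_ne_zero he.1)]
  · classical
    unfold rf fr
    refine if_congr ⟨fun h p hp hd => ?_, fun h p hp hd => ?_⟩ rfl rfl
    · exact ((Nat.Prime.dvd_mul hp).1 hd).imp (he.2 p hp) (h p hp)
    · exact (h p hp (hd.mul_left e)).resolve_left (not_le.2 (hk p hp hd))
  · intro a ha hne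
    unfold rf
    split_ifs with h1 h2
    · have h3 := Nat.mul_div_cancel' (Nat.dvd_of_mem_divisors ha)
      exact absurd (Nat.dvd_antisymm (n2a_dvd h3 h1 hk)
        (n2a_dvd h3.symm he fun p hp hd => hzw.trans_lt (h2 p hp hd))) hne
    · rfl
    · rfl
  · exact fun h => absurd (Nat.mem_divisors.2 ⟨dvd_mul_right e k, hn⟩) h

theorem n2_expand (x : ℕ) (T w b : ℝ) (lam : Multiset ℕ → Multiset ℕ → ℝ) {q : ℕ} (hq : 0 < q) :
    ∑ n ∈ Icc 1 (2 * x), rf w n * Phi2 b lam n * gk x T (q * n)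
      = ∑ d₁ ∈ (Icc 1 (2 * x)).filter (Rough w), ∑ d₂ ∈ (Icc 1 (2 * x)).filter (Rough w),
        lam (ty b d₁) (ty b d₂) * ∑ k ∈ Icc 1 (2 * x), rf w k * gk x T (q * d₁ * d₂ * k) := by
  let H : ℕ → ℕ → ℝ := fun d₁ d₂ => lam (ty b d₁) (ty b d₂) *
    ∑ k ∈ Icc 1 (2 * x), rf w (d₁ * d₂ * k) * gk x T (q * (d₁ * d₂ * k))
  let F : ℕ → ℕ → ℝ := fun d k => (∑ d₁ ∈ d.divisors, lam (ty b d₁) (ty b (d / d₁))) *
    (rf w (d * k) * gk x T (q * (d * k)))
  have h1 := qr_pairs (2 * x) H fun a c hac => by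
    simp only [H]
    rw [sum_eq_zero, mul_zero]
    intro k hk
    rw [qr_gk_zero T hq (hac.trans_le (Nat.le_mul_of_pos_right _ (mem_Icc.1 hk).1)), mul_zero]
  have h2 := qr_pairs (2 * x) F fun a c hac => by
    simp only [F]
    rw [qr_gk_zero T hq hac, mul_zero, mul_zero]
  calc _ = ∑ n ∈ Icc 1 (2 * x), ∑ d ∈ n.divisors, F d (n / d) := sum_congr rfl fun n _ => by
        unfold Phi2
        rw [mul_right_comm, mul_comm, sum_mul]
        refine sum_congr rfl fun d hd => ?_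
        simp only [F]
        rw [Nat.mul_div_cancel' (Nat.dvd_of_mem_divisors hd)]
    _ = ∑ d ∈ Icc 1 (2 * x), ∑ d₁ ∈ d.divisors, H d₁ (d / d₁) := by
        rw [← h2]
        refine sum_congr rfl fun d _ => ?_
        simp only [F, H]
        rw [← mul_sum, sum_mul]
        refine sum_congr rfl fun d₁ hd => ?_
        rw [Nat.mul_div_cancel' (Nat.dvd_of_mem_divisors hd)]
    _ = _ := by
        rw [← h1, sum_filter]
        refine sum_congr rfl fun d₁ _ => ?_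
        simp only [H, si_rf_mul, sum_filter, mul_assoc, ← mul_sum]
        split_ifs with h
        · refine sum_congr rfl fun d₂ _ => ?_
          split_ifs with h' <;> simp [rf, h, h']
        · simp [rf, h]

theorem n2_free (x : ℕ) (T : ℝ) {z w : ℝ} (hzw : z ≤ w) {q : ℕ} (hq : 0 < q) :
    ∑ e ∈ Sm x z (fun _ => True), ∑ k ∈ Icc 1 (2 * x), rf w k * gk x T (q * e * k)
      = ∑ j ∈ Icc 1 (2 * x), fr z w j * gk x T (q * j) := by
  classical
  have h1 := qr_pairs (2 * x) (fun e k => (if Smooth z e then rf w k else 0) * gk x T (q * (e * k)))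
    fun a c hac => by rw [qr_gk_zero T hq hac, mul_zero]
  calc _ = ∑ e ∈ Icc 1 (2 * x), ∑ k ∈ Icc 1 (2 * x),
        (if Smooth z e then rf w k else 0) * gk x T (q * (e * k)) := by
        unfold Sm
        rw [sum_filter]
        refine sum_congr rfl fun e _ => ?_
        by_cases h : Smooth z e <;> simp [h, mul_assoc]
    _ = _ := by
        rw [h1]
        refine sum_congr rfl fun n hn => ?_
        rw [← n2a_fr hzw (Nat.pos_iff_ne_zero.1 (mem_Icc.1 hn).1), sum_mul]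
        refine sum_congr rfl fun d hd => ?_
        rw [Nat.mul_div_cancel' (Nat.dvd_of_mem_divisors hd)]

theorem n2_sieve (x : ℕ) (T z w : ℝ) {q : ℕ} (hq : 0 < q) (E : Finset ℕ) (hE : ∀ e ∈ E, 1 ≤ e)
    (lam err : ℕ → ℝ)
    (h : ∀ n : ℕ, 1 ≤ n → |fr z w n - ∑ e ∈ E with e ∣ n, lam e| ≤ ∑ e ∈ E with e ∣ n, err e) :
    |∑ j ∈ Icc 1 (2 * x), fr z w j * gk x T (q * j) - ∑ e ∈ E, lam e * sG x T (q * e)|
      ≤ ∑ e ∈ E, err e * sG x T (q * e) := by
  change |_ - ∑ e ∈ E, lam e * siG x T (q * e)| ≤ ∑ e ∈ E, err e * siG x T (q * e)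
  rw [si_swap x T hq E hE, si_swap x T hq E hE, ← sum_sub_distrib]
  refine (abs_sum_le_sum_abs _ _).trans (sum_le_sum fun k hk => ?_)
  rw [← sub_mul, abs_mul, abs_of_nonneg (gk_nonneg _ _ _)]
  exact mul_le_mul_of_nonneg_right (h k (mem_Icc.1 hk).1) (gk_nonneg _ _ _)

open Classical in
theorem n2_pairs (x : ℕ) (z Y : ℝ) (Typ : ℕ → Prop) (hT : ∀ s, Typ s → Real.log s ≤ Y)
    (G : ℕ → ℝ) (hG : ∀ s, 2 * x < s → G s = 0) :
    ∑ e ∈ Sm x z (fun e => Real.log e ≤ Y), ∑ e' ∈ Sm x z (fun _ => True), G (e * e')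
      = ∑ s ∈ Sm x z Typ, tau s * G s + ∑ e ∈ Sm x z (fun e => Real.log e ≤ Y),
        ∑ e' ∈ Sm x z (fun _ => True), if Typ (e * e') then 0 else G (e * e') := by
  have h1 : ∑ s ∈ Sm x z Typ, tau s * G s = ∑ e ∈ Sm x z (fun e => Real.log e ≤ Y),
      ∑ e' ∈ Sm x z (fun _ => True), if Typ (e * e') then G (e * e') else 0 := by
    rw [qr_Sm_sum, qr_pairs]
    · unfold Sm
      rw [sum_filter]
      refine sum_congr rfl fun s hs => ?_
      split_ifs with h
      · rw [tau, ← nsmul_eq_mul, ← sum_const]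
        refine sum_congr rfl fun a ha => ?_
        have h2 := Nat.mul_div_cancel' (Nat.dvd_of_mem_divisors ha)
        have h3 : Smooth z a ∧ Smooth z (s / a) := smooth_mul.1 (h2.symm ▸ h.1)
        have h4 : Real.log a ≤ Real.log s := Real.log_le_log
          (Nat.cast_pos.2 (Nat.pos_of_mem_divisors ha)) (Nat.cast_le.2 (Nat.divisor_le ha))
        rw [h2, if_pos h.2, if_pos ⟨⟨h3.1, h4.trans (hT s h.2)⟩, h3.2, trivial⟩]
      · refine (sum_eq_zero fun a ha => ?_).symm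
        have h2 := Nat.mul_div_cancel' (Nat.dvd_of_mem_divisors ha)
        rw [h2]
        split_ifs with h3 h4
        · exact absurd ⟨h2 ▸ smooth_mul.2 ⟨h3.1.1, h3.2.1⟩, h4⟩ h
        · rfl
        · rfl
    · intro a c hac
      rw [hG _ hac, ite_self, ite_self]
  rw [h1, ← sum_add_distrib]
  refine sum_congr rfl fun e _ => ?_
  rw [← sum_add_distrib]
  refine sum_congr rfl fun e' _ => ?_
  split_ifs
  · exact (add_zero _).symm
  · exact (zero_add _).symm

end Pool.Agent.Work.MP_82fd4a_nt
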