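import Pool.Agent.Work.MP_82fd4a_nt.Kernel
import Pool.Agent.Work.MP_51e72e_nt.L2Unif

/-! Bilinear forms in short intervals: reduction to mean squares. -/

set_option autoImplicit false
open Filter Topology Finset MeasureTheory

namespace Pool.Agent.Work.MP_82fd4a_nt

open Pool.Agent.Lib.MR Pool.Agent.Work.MP_51e72e_nt

lemma tii_sqrt : Tendsto Nat.sqrt atTop atTop :=
  tendsto_atTop_atTop.2 fun b => ⟨b * b, fun _ ha => Nat.le_sqrt.2 ha⟩

lemma tii_MS_mono {F : ℝ → ℂ} (hF : Trig F) {T T' : ℝ} (hT : 0 < T) (h : T ≤ T') :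
    MS T Set.univ F ≤ MS T' Set.univ F := by
  unfold MS
  rw [Measure.restrict_univ, Measure.restrict_univ]
  refine integral_mono_measure ?_ (Eventually.of_forall fun _ => by positivity)
    (hF.integrable_sq _)
  refine withDensity_mono (Eventually.of_forall fun u => ENNReal.ofReal_le_ofReal ?_)
  have hT' : 0 < T' := hT.trans_le h
  unfold wt
  rw [div_le_div_iff₀ (by positivity) (by positivity)]
  have h1 : T ^ 2 ≤ T' ^ 2 := by gcongr
  nlinarith [mul_le_mul_of_nonneg_right h1 (sq_nonneg u)]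

/-- the bilinear form with the full kernel -/
lemma tii_full (S S' : Finset ℕ) (hS : ∀ a ∈ S, a ≠ 0) (hS' : ∀ a ∈ S', a ≠ 0) (x : ℕ)
    (A B : ℕ → ℝ) {T t : ℝ} (hT : 0 < T) (ht : 0 < t) :
    Real.pi * T * |∑ a ∈ S, ∑ b ∈ S', A a * B b *
      Real.exp (-(T * |Real.log (a * b : ℕ) - Real.log x|))| ≤
      (t * MS T Set.univ (DP S fun n => (A n : ℂ)) +
        MS T Set.univ (DP S' fun n => (B n : ℂ)) / t) / 2 := by
  have hπ := Real.pi_pos
  have hE : ∀ y : ℝ, Trig fun u => Complex.exp (Complex.I * ((u * y : ℝ) : ℂ)) := fun y =>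
    ⟨by fun_prop, 1, fun u => by
      beta_reduce; rw [mul_comm, Complex.norm_exp_ofReal_mul_I]⟩
  have tA := Trig.DP S fun n => (A n : ℂ)
  have tB := Trig.DP S' fun n => (B n : ℂ)
  have h1 : ∀ u, DP S (fun n => (A n : ℂ)) u * DP S' (fun n => (B n : ℂ)) u * nit x (-u) =
      ∑ a ∈ S, ∑ b ∈ S', ((A a * B b : ℝ) : ℂ) * Complex.exp (Complex.I *
        ((u * (Real.log (a * b : ℕ) - Real.log x) : ℝ) : ℂ)) := fun u => by
    rw [DP, DP, sum_mul_sum, sum_mul]
    refine sum_congr rfl fun a ha => ?_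
    rw [sum_mul]
    refine sum_congr rfl fun b hb => ?_
    rw [mul_mul_mul_comm, ← nit_mul (hS a ha) (hS' b hb), mul_assoc, nit, nit, ← Complex.exp_add]
    push_cast
    congr 2
    ring
  have h2 : ∫ u, DP S (fun n => (A n : ℂ)) u * DP S' (fun n => (B n : ℂ)) u * nit x (-u) ∂(cm T)
      = ((Real.pi * T * ∑ a ∈ S, ∑ b ∈ S', A a * B b *
        Real.exp (-(T * |Real.log (a * b : ℕ) - Real.log x|)) : ℝ) : ℂ) := by
    simp_rw [h1]
    rw [integral_finsetSum _ fun i _ =>
      (Trig.sum fun j _ => (Trig.const _).mul (hE _)).integrable _, mul_sum, Complex.ofReal_sum]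
    refine sum_congr rfl fun i _ => ?_
    rw [integral_finsetSum _ fun j _ => ((Trig.const _).mul (hE _)).integrable _, mul_sum,
      Complex.ofReal_sum]
    refine sum_congr rfl fun j _ => ?_
    rw [integral_const_mul, integral_cm_exp hT, ← Complex.ofReal_mul]
    congr 1
    ring
  have h3 := norm_integral_le_of_norm_le (μ := cm T)
    (f := fun u => DP S (fun n => (A n : ℂ)) u * DP S' (fun n => (B n : ℂ)) u * nit x (-u))
    (g := fun u => (t * ‖DP S (fun n => (A n : ℂ)) u‖ ^ 2 +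
      ‖DP S' (fun n => (B n : ℂ)) u‖ ^ 2 / t) / 2)
    ((((tA.integrable_sq _).const_mul t).add ((tB.integrable_sq _).div_const t)).div_const 2)
    (Eventually.of_forall fun u => by
      rw [norm_mul, norm_mul, norm_nit, mul_one]
      generalize ‖DP S (fun n => (A n : ℂ)) u‖ = p
      generalize ‖DP S' (fun n => (B n : ℂ)) u‖ = q
      have h4 : (t * p ^ 2 + q ^ 2 / t) / 2 - p * q = (t * p - q) ^ 2 / (2 * t) := by
        field_simp
        ring
      have h5 : 0 ≤ (t * p - q) ^ 2 / (2 * t) := by positivity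
      linarith)
  rw [h2, Complex.norm_real, Real.norm_eq_abs, abs_mul, abs_of_pos (by positivity),
    integral_div, integral_add ((tA.integrable_sq _).const_mul t)
      ((tB.integrable_sq _).div_const t), integral_const_mul, integral_div] at h3
  simpa only [MS, Measure.restrict_univ] using h3

lemma tii_trunc {x n : ℕ} (hx : 0 < x) (hn : 0 < n) {T : ℝ} (hT : 0 ≤ T) :
    |gk x T n - Real.exp (-(T * |Real.log n - Real.log x|))| ≤ Real.exp (-(T * Real.log 2)) := by
  unfold gk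
  split_ifs with h
  · simp only [sub_self, abs_zero]
    exact (Real.exp_pos _).le
  rw [zero_sub, abs_neg, abs_of_pos (Real.exp_pos _), Real.exp_le_exp, neg_le_neg_iff]
  refine mul_le_mul_of_nonneg_left ?_ hT
  have hx' : (0 : ℝ) < x := by exact_mod_cast hx
  have hn' : (0 : ℝ) < n := by exact_mod_cast hn
  rcases not_and_or.1 h with h | h
  · have h1 : (2 : ℝ) * n ≤ x := by exact_mod_cast not_lt.1 h
    have h2 := Real.log_le_log (by positivity) h1
    rw [Real.log_mul two_ne_zero hn'.ne'] at h2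
    exact le_abs.2 (Or.inr (by linarith))
  · have h1 : (2 : ℝ) * x ≤ n := by exact_mod_cast (not_le.1 h).le
    have h2 := Real.log_le_log (by positivity) h1
    rw [Real.log_mul two_ne_zero hx'.ne'] at h2
    exact le_abs.2 (Or.inl (by linarith))

/-- the bilinear form in terms of mean squares -/
lemma tii_bil (C : ℝ) : ∀ᶠ x : ℕ in atTop, ∀ A B : ℕ → ℝ,
    (∀ n ≤ 4 * x.sqrt, |A n| ≤ C) → (∀ n ≤ 4 * x.sqrt, |B n| ≤ C) → ∀ a b t : ℝ, 0 < t →
    ∀ T : ℝ, Real.log x ^ 2 ≤ T → T ≤ x.sqrt →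
    MS T Set.univ (DP (Ioc x.sqrt (2 * x.sqrt)) fun n => (A n : ℂ)) ≤
      Real.pi * a * (x.sqrt : ℝ) ^ 2 →
    MS T Set.univ (DP (Icc 1 (4 * x.sqrt)) fun n => (B n : ℂ)) ≤ Real.pi * b * (x.sqrt : ℝ) ^ 2 →
    |Bil x T A B| ≤ (4 * (t * a + b / t) + 1 / x) * Gam x T := by
  have hl : Tendsto (fun x : ℕ => Real.log x) atTop atTop :=
    Real.tendsto_log_atTop.comp tendsto_natCast_atTop_atTop
  filter_upwards [tii_sqrt.eventually_ge_atTop 8, hl.eventually_ge_atTop 5,
    (tendsto_natCast_atTop_atTop (R := ℝ)).eventually_ge_atTop (4 * C ^ 2)]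
    with x hX hL hC A B hA hB a b t ht T hT hTX mA mB
  set X := x.sqrt with hXdef
  have hπ := Real.pi_pos
  have hC0 : 0 ≤ C := (abs_nonneg _).trans (hA 0 (Nat.zero_le _))
  have hX8 : (8 : ℝ) ≤ X := by exact_mod_cast hX
  have hXx : (X : ℝ) ^ 2 ≤ x := by exact_mod_cast Nat.sqrt_le' x
  have hx0 : (0 : ℝ) < x := by nlinarith
  have hxn : 0 < x := by exact_mod_cast hx0
  have hT1 : 1 ≤ T := by nlinarith
  have hT0 : 0 < T := by linarith
  have hG := Gam_ge (x := x) hT1 (by nlinarith)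
  rw [div_le_iff₀ (by positivity)] at hG
  have hG0 : 0 ≤ Gam x T := sum_nonneg fun n _ => gk_nonneg _ _ _
  have hG1 : 1 ≤ Gam x T := by
    by_contra h
    have h' := (not_le.1 h).le
    nlinarith
  have ha : 0 ≤ a := by
    have h1 := (MS_nonneg _ _ _).trans mA
    by_contra h
    have : Real.pi * a * (X : ℝ) ^ 2 < 0 :=
      mul_neg_of_neg_of_pos (mul_neg_of_pos_of_neg hπ (not_le.1 h)) (by positivity)
    linarith
  have hb : 0 ≤ b := by
    have h1 := (MS_nonneg _ _ _).trans mB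
    by_contra h
    have : Real.pi * b * (X : ℝ) ^ 2 < 0 :=
      mul_neg_of_neg_of_pos (mul_neg_of_pos_of_neg hπ (not_le.1 h)) (by positivity)
    linarith
  set F := ∑ a ∈ Ioc X (2 * X), ∑ b ∈ Icc 1 (4 * X), A a * B b *
    Real.exp (-(T * |Real.log (a * b : ℕ) - Real.log x|)) with hF
  have h1 : |F| ≤ 4 * (t * a + b / t) * Gam x T := by
    have h2 := tii_full (Ioc X (2 * X)) (Icc 1 (4 * X))
      (fun a ha => by have := (mem_Ioc.1 ha).1; omega)
      (fun a ha => by have := (mem_Icc.1 ha).1; omega) x A B hT0 ht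
    rw [← hF] at h2
    have h3 : Real.pi * T * |F| ≤ Real.pi * ((t * a + b / t) * (X : ℝ) ^ 2 / 2) := by
      refine h2.trans ?_
      calc _ ≤ (t * (Real.pi * a * (X : ℝ) ^ 2) + Real.pi * b * (X : ℝ) ^ 2 / t) / 2 := by gcongr
        _ = _ := by ring
    rw [mul_assoc] at h3
    have h4 := le_of_mul_le_mul_left h3 hπ
    have h5 : 0 ≤ t * a + b / t := by positivity
    refine le_of_mul_le_mul_left (h4.trans ?_) hT0
    calc _ ≤ (t * a + b / t) * (Gam x T * (8 * T)) / 2 := by gcongr; exact hXx.trans hG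
      _ = _ := by ring
  have h2 : |Bil x T A B - F| ≤ 1 / x := by
    rw [Bil, hF, ← sum_sub_distrib]
    have h3 : ∀ a ∈ Ioc X (2 * X), |∑ b ∈ Icc 1 (4 * X), A a * B b * gk x T (a * b) -
        ∑ b ∈ Icc 1 (4 * X), A a * B b * Real.exp (-(T * |Real.log (a * b : ℕ) - Real.log x|))| ≤
        4 * X * (C ^ 2 * Real.exp (-(T * Real.log 2))) := by
      intro a ha
      obtain ⟨a1, a2⟩ := mem_Ioc.1 ha
      rw [← sum_sub_distrib]
      refine (abs_sum_le_sum_abs _ _).trans ((sum_le_card_nsmul _ _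
        (C ^ 2 * Real.exp (-(T * Real.log 2))) fun b hb => ?_).trans (le_of_eq (by simp)))
      obtain ⟨b1, b2⟩ := mem_Icc.1 hb
      rw [← mul_sub, abs_mul, abs_mul, sq]
      have := hA a (by omega)
      have := hB b b2
      have := tii_trunc (x := x) (n := a * b) hxn (Nat.mul_pos (by omega) b1) hT0.le
      gcongr
    refine (abs_sum_le_sum_abs _ _).trans ((sum_le_card_nsmul _ _ _ h3).trans ?_)
    have h4 : Real.exp (-(T * Real.log 2)) ≤ 1 / x ^ 3 := by
      have h5 : 3 * Real.log x ≤ T * Real.log 2 := by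
        have := Real.log_two_gt_d9
        nlinarith
      calc _ ≤ Real.exp (-(3 * Real.log x)) := Real.exp_le_exp.2 (by linarith)
        _ = _ := by
          rw [Real.exp_neg, show (3 : ℝ) * Real.log x = ((3 : ℕ) : ℝ) * Real.log x by norm_num,
            Real.exp_nat_mul, Real.exp_log hx0, one_div]
    rw [Nat.card_Ioc, show 2 * X - X = X by omega, nsmul_eq_mul]
    calc (X : ℝ) * (4 * X * (C ^ 2 * Real.exp (-(T * Real.log 2))))
        = (X : ℝ) ^ 2 * (4 * C ^ 2) * Real.exp (-(T * Real.log 2)) := by ring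
      _ ≤ (x : ℝ) * x * (1 / (x : ℝ) ^ 3) := by gcongr
      _ = _ := by field_simp
  have h3 := abs_sub_abs_le_abs_sub (Bil x T A B) F
  have h4 : 1 / (x : ℝ) ≤ 1 / x * Gam x T := le_mul_of_one_le_right (by positivity) hG1
  linarith

lemma tii_mean {X : ℕ} {S : Finset ℕ} (hS : S ⊆ Icc 1 (4 * X)) (A : ℕ → ℝ) {a T : ℝ} (hT : 0 < T)
    (hTX : T ≤ X) (h : ∑ n ∈ Icc 1 (4 * X), A n ^ 2 ≤ a * X) :
    MS T Set.univ (DP S fun n => (A n : ℂ)) ≤ Real.pi * (9 * a) * (X : ℝ) ^ 2 := by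
  have hπ := Real.pi_pos
  refine (mean_value hS _ hT).trans ?_
  have h1 : ∑ n ∈ S, ‖(A n : ℂ)‖ ^ 2 ≤ a * X := by
    simp only [Complex.norm_real, Real.norm_eq_abs, sq_abs]
    exact (sum_le_sum_of_subset_of_nonneg hS fun _ _ _ => sq_nonneg _).trans h
  push_cast
  calc _ ≤ Real.pi * (X + 2 * (4 * X)) * (a * X) := by gcongr
    _ = _ := by ring

lemma tii_sub (X : ℕ) : Ioc X (2 * X) ⊆ Icc 1 (4 * X) := fun n hn => by
  have := mem_Ioc.1 hn
  exact mem_Icc.2 ⟨by omega, by omega⟩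

end Pool.Agent.Work.MP_82fd4a_nt
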