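import Pool.Agent.Work.MP_82fd4a_nt.NVar
import Pool.Agent.Work.MP_82fd4a_nt.TypeIIA

/-! The type I estimate with two variables. -/

set_option autoImplicit false
open Filter Topology Finset

namespace Pool.Agent.Work.MP_82fd4a_nt

open Pool.Agent.Lib.MR

lemma nti_abs_fa {a : ℕ} (ha : 1 ≤ a) (k : ℕ) : |fa a k| ≤ 1 := by
  have h1 : (1 : ℝ) ≤ a := by exact_mod_cast ha
  have h2 : 1 / (a : ℝ) ≤ 1 := (div_le_one (by linarith)).2 h1
  have h3 : 0 ≤ 1 / (a : ℝ) := by positivity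
  unfold fa
  split_ifs <;> rw [abs_le] <;> constructor <;> linarith

/-- the mean square of a combination of centred indicators -/
lemma nti_ms (A : Finset ℕ) (hA : ∀ a ∈ A, 1 ≤ a) (α : ℕ → ℝ) {C G : ℝ}
    (hα : ∀ a ∈ A, |α a| ≤ C) (hC : 0 ≤ C)
    (hG : ∑ a ∈ A, ∑ a' ∈ A, (Nat.gcd a a' : ℝ) / (a * a') ≤ G) (K : ℕ) {T : ℝ} (hT : 0 < T) :
    MS T Set.univ (DP (Icc 1 K) fun k => ((∑ a ∈ A, α a * fa a k : ℝ) : ℂ)) ≤
      Real.pi * (C ^ 2 * (4 * T * K * G + 20 * (#A : ℝ) ^ 2 * (T + K))) := by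
  have hπ := Real.pi_pos
  have h := MS_eq (Icc 1 K) id (fun k => ((∑ a ∈ A, α a * fa a k : ℝ) : ℂ)) hT
  simp only [id] at h
  rw [show DP (Icc 1 K) (fun k => ((∑ a ∈ A, α a * fa a k : ℝ) : ℂ)) =
    fun u => ∑ i ∈ Icc 1 K, ((∑ a ∈ A, α a * fa a i : ℝ) : ℂ) * nit i u from rfl, h]
  simp only [Complex.conj_ofReal, ← Complex.ofReal_mul, Complex.ofReal_re]
  have e : ∑ k ∈ Icc 1 K, ∑ k' ∈ Icc 1 K, (∑ a ∈ A, α a * fa a k) * (∑ a ∈ A, α a * fa a k') *
      Real.exp (-(T * |Real.log k - Real.log k'|)) = ∑ a ∈ A, ∑ a' ∈ A, α a * α a' *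
      ∑ k ∈ Icc 1 K, ∑ k' ∈ Icc 1 K,
        fa a k * fa a' k' * Real.exp (-(T * |Real.log k - Real.log k'|)) := by
    simp only [sum_mul_sum]
    simp only [sum_mul, mul_sum]
    rw [sum_congr rfl fun k _ => sum_comm, sum_comm]
    refine sum_congr rfl fun a _ => ?_
    rw [sum_congr rfl fun k _ => sum_comm, sum_comm]
    exact sum_congr rfl fun a' _ => sum_congr rfl fun k _ => sum_congr rfl fun k' _ => by ring
  rw [e, mul_assoc]
  refine mul_le_mul_of_nonneg_left ?_ hπ.le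
  have h1 : ∑ a ∈ A, ∑ a' ∈ A, α a * α a' * ∑ k ∈ Icc 1 K, ∑ k' ∈ Icc 1 K,
      fa a k * fa a' k' * Real.exp (-(T * |Real.log k - Real.log k'|)) ≤
      ∑ a ∈ A, ∑ a' ∈ A, C ^ 2 * (4 * K * ((Nat.gcd a a' : ℝ) / (a * a')) + 20 * (1 + K / T)) := by
    refine sum_le_sum fun a ha => sum_le_sum fun a' ha' => (le_abs_self _).trans ?_
    rw [abs_mul, abs_mul, sq, ← mul_div_assoc]
    have := hα a ha
    have := hα a' ha'
    have := var_pair (hA a ha) (hA a' ha') K hT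
    gcongr
  have h2 : ∑ a ∈ A, ∑ a' ∈ A,
      C ^ 2 * (4 * K * ((Nat.gcd a a' : ℝ) / (a * a')) + 20 * (1 + K / T)) =
      C ^ 2 * (4 * K * (∑ a ∈ A, ∑ a' ∈ A, (Nat.gcd a a' : ℝ) / (a * a')) +
        (#A : ℝ) ^ 2 * (20 * (1 + K / T))) := by
    simp only [← mul_sum, sum_add_distrib, sum_const, nsmul_eq_mul]
    ring
  rw [h2] at h1
  calc _ ≤ T * (C ^ 2 * (4 * K * G + (#A : ℝ) ^ 2 * (20 * (1 + K / T)))) := by
        refine mul_le_mul_of_nonneg_left (h1.trans ?_) hT.le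
        gcongr
    _ = _ := by field_simp

/-- one dyadic window -/
lemma nti_window {x B : ℕ} (hx : 0 < x) (hB : 0 < B) {T t : ℝ} (hT : 0 < T) (ht : 0 < t)
    (S : Finset ℕ) (hS : ∀ b ∈ S, B ≤ b ∧ b < 2 * B) (β c : ℕ → ℝ) {C D M : ℝ} (hC : 0 ≤ C)
    (hD : 0 ≤ D) (hβ : ∀ b ∈ S, |β b| ≤ C) (hc : ∀ k, |c k| ≤ D)
    (hM : MS T Set.univ (DP (Icc 1 (2 * x / B)) fun k => (c k : ℂ)) ≤ Real.pi * M) :
    |∑ b ∈ S, ∑ k ∈ Icc 1 (2 * x), β b * c k * gk x T (b * k)| ≤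
      (t * ((T + 4 * B) * (B * C ^ 2)) + M / t) / (2 * T) +
        2 * x * (C * D * Real.exp (-(T * Real.log 2))) := by
  have hπ := Real.pi_pos
  set K := 2 * x / B with hK
  have hcard : #S ≤ B := by
    have : S ⊆ Ico B (2 * B) := fun b hb => mem_Ico.2 (hS b hb)
    refine (card_le_card this).trans ?_
    rw [Nat.card_Ico]; omega
  have hcard' : (#S : ℝ) ≤ B := by exact_mod_cast hcard
  have hBK : (B : ℝ) * K ≤ 2 * x := by exact_mod_cast Nat.mul_div_le (2 * x) B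
  have e1 : ∑ b ∈ S, ∑ k ∈ Icc 1 (2 * x), β b * c k * gk x T (b * k) =
      ∑ b ∈ S, ∑ k ∈ Icc 1 K, β b * c k * gk x T (b * k) := by
    refine sum_congr rfl fun b hb => (sum_subset (Icc_subset_Icc_right (Nat.div_le_self _ _))
      fun k hk hk' => ?_).symm
    have h0 : gk x T (b * k) = 0 := by
      by_contra h
      refine hk' (mem_Icc.2 ⟨(mem_Icc.1 hk).1, (Nat.le_div_iff_mul_le hB).2 ?_⟩)
      have h1 := (gk_ne_zero h).2
      have h2 := Nat.mul_le_mul_right k (hS b hb).1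
      rw [mul_comm]
      omega
    rw [h0, mul_zero]
  rw [e1]
  set F := ∑ b ∈ S, ∑ k ∈ Icc 1 K, β b * c k *
    Real.exp (-(T * |Real.log (b * k : ℕ) - Real.log x|)) with hF
  have h1 : |F| ≤ (t * ((T + 4 * B) * (B * C ^ 2)) + M / t) / (2 * T) := by
    have h2 := tii_full S (Icc 1 K) (fun b hb => by have := (hS b hb).1; omega)
      (fun a ha => by have := (mem_Icc.1 ha).1; omega) x β c hT ht
    rw [← hF] at h2
    have h3 : MS T Set.univ (DP S fun n => (β n : ℂ)) ≤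
        Real.pi * ((T + 4 * B) * (B * C ^ 2)) := by
      refine (mean_value (N := 2 * B) (fun b hb => mem_Icc.2
        ⟨by have := (hS b hb).1; omega, (hS b hb).2.le⟩) _ hT).trans ?_
      have h4 : ∑ n ∈ S, ‖(β n : ℂ)‖ ^ 2 ≤ B * C ^ 2 := by
        refine (sum_le_card_nsmul _ _ (C ^ 2) fun n hn => ?_).trans ?_
        · rw [Complex.norm_real, Real.norm_eq_abs]
          exact pow_le_pow_left₀ (abs_nonneg _) (hβ n hn) 2
        · rw [nsmul_eq_mul]; gcongr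
      push_cast
      calc _ ≤ Real.pi * (T + 2 * (2 * B)) * (B * C ^ 2) := by gcongr
        _ = _ := by ring
    have h4 : Real.pi * (T * |F|) ≤
        Real.pi * ((t * ((T + 4 * B) * (B * C ^ 2)) + M / t) / 2) := by
      rw [← mul_assoc]
      refine h2.trans ?_
      calc _ ≤ (t * (Real.pi * ((T + 4 * B) * (B * C ^ 2))) + Real.pi * M / t) / 2 := by gcongr
        _ = _ := by ring
    have h5 := le_of_mul_le_mul_left h4 hπ
    rw [le_div_iff₀ (by positivity)]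
    linarith
  have h2 : |∑ b ∈ S, ∑ k ∈ Icc 1 K, β b * c k * gk x T (b * k) - F| ≤
      2 * x * (C * D * Real.exp (-(T * Real.log 2))) := by
    rw [hF, ← sum_sub_distrib]
    have h3 : ∀ b ∈ S, |∑ k ∈ Icc 1 K, β b * c k * gk x T (b * k) -
        ∑ k ∈ Icc 1 K, β b * c k * Real.exp (-(T * |Real.log (b * k : ℕ) - Real.log x|))| ≤
        K * (C * D * Real.exp (-(T * Real.log 2))) := by
      intro b hb
      rw [← sum_sub_distrib]
      refine (abs_sum_le_sum_abs _ _).trans ((sum_le_card_nsmul _ _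
        (C * D * Real.exp (-(T * Real.log 2))) fun k hk => ?_).trans (le_of_eq (by simp)))
      rw [← mul_sub, abs_mul, abs_mul]
      have := hβ b hb
      have := hc k
      have := tii_trunc (x := x) (n := b * k) hx
        (Nat.mul_pos (by have := (hS b hb).1; omega) (mem_Icc.1 hk).1) hT.le
      gcongr
    refine (abs_sum_le_sum_abs _ _).trans ((sum_le_card_nsmul _ _ _ h3).trans ?_)
    rw [nsmul_eq_mul, ← mul_assoc]
    refine mul_le_mul_of_nonneg_right (le_trans ?_ hBK) (by positivity)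
    gcongr
  have h3 := abs_sub_abs_le_abs_sub (∑ b ∈ S, ∑ k ∈ Icc 1 K, β b * c k * gk x T (b * k)) F
  linarith

/-- splitting off the mean -/
lemma nti_split (x : ℕ) (T : ℝ) (α β : ℕ → ℝ) (A S : Finset ℕ) (hA : ∀ a ∈ A, 1 ≤ a)
    (hS : ∀ b ∈ S, 1 ≤ b) :
    ∑ b ∈ S, ∑ a ∈ A, β b * α a * (sG x T (b * a) - Gam x T / (b * a)) =
      ∑ b ∈ S, ∑ k ∈ Icc 1 (2 * x), β b * (∑ a ∈ A, α a * fa a k) * gk x T (b * k) +
        (∑ a ∈ A, α a * (1 / a)) * ∑ b ∈ S, β b * (sG x T b - Gam x T / b) := by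
  rw [mul_sum, ← sum_add_distrib]
  refine sum_congr rfl fun b hb => ?_
  simp only [mul_sum, sum_mul]
  rw [sum_comm, ← sum_add_distrib]
  refine sum_congr rfl fun a ha => ?_
  have h1 := si_dvd_sum x T (hS b hb) (hA a ha) fun _ => 1
  have h2 : sG x T (b * a) = ∑ k ∈ Icc 1 (2 * x), fa a k * gk x T (b * k) + 1 / a * sG x T b := by
    unfold sG
    simp only [one_mul, ← mul_assoc] at h1
    rw [← h1, mul_sum, ← sum_add_distrib]
    refine sum_congr rfl fun k _ => ?_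
    unfold fa
    split_ifs <;> ring
  have h3 : ∑ k ∈ Icc 1 (2 * x), β b * (α a * fa a k) * gk x T (b * k) =
      β b * α a * ∑ k ∈ Icc 1 (2 * x), fa a k * gk x T (b * k) := by
    rw [mul_sum]
    exact sum_congr rfl fun k _ => by ring
  rw [h2, h3]
  ring

theorem typeI2 {ρ c : ℝ} (hρ : 0 < ρ) (hρ1 : ρ ≤ 1) (hc : 0 < c) (C : ℝ) {ε : ℝ} (hε : 0 < ε) :
    ∃ h : ℝ, 1 ≤ h ∧ ∀ᶠ x : ℕ in atTop, ∀ (α β : ℕ → ℝ) (A : Finset ℕ),
    (∀ n ∈ A, |α n| ≤ C) → (∀ n ≤ x.sqrt, |β n| ≤ C) →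
    (∀ a ∈ A, 1 ≤ a ∧ Rough ((x : ℝ) ^ ρ) a ∧ (a : ℝ) ≤ (x : ℝ) ^ (1 / 4 - c)) →
    ∀ T : ℝ, Real.log x ^ 2 ≤ T → T ≤ x.sqrt / h →
    |∑ b ∈ Icc 1 x.sqrt, ∑ a ∈ A, β b * α a * (sG x T (b * a) - Gam x T / (b * a))|
      ≤ ε * Real.log x * Gam x T := by
  set E : ℝ := |C| + 1 with hE
  have hE1 : 1 ≤ E := by have := abs_nonneg C; linarith
  have hE0 : 0 < E := by linarith
  have hCE : C ≤ E := by have := le_abs_self C; linarith
  set δ : ℝ := ε / 8 with hδ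
  have hδ0 : 0 < δ := by positivity
  set G : ℝ := (19 / ρ) ^ 3 with hG
  have hG0 : 0 < G := by positivity
  have hl : Tendsto (fun x : ℕ => Real.log x) atTop atTop :=
    Real.tendsto_log_atTop.comp tendsto_natCast_atTop_atTop
  refine ⟨max 1 (5120 * G * E ^ 4 / δ ^ 2), le_max_left _ _, ?_⟩
  filter_upwards [tii_sqrt.eventually_ge_atTop 8, hl.eventually_ge_atTop 5,
    hl.eventually_ge_atTop (32 * E ^ 2 * (19 / ρ) / ε),
    (tendsto_natCast_atTop_atTop (R := ℝ)).eventually_ge_atTop (2 * E ^ 2 / δ),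
    ((tendsto_rpow_atTop (show 0 < 2 * c by positivity)).comp
      tendsto_natCast_atTop_atTop).eventually_ge_atTop (51200 * E ^ 4 / δ ^ 2),
    sum_gcd_le hρ hρ1, si_inv_rough hρ hρ1]
    with x hX hL hL2 hx2 hx3 hgcd hinv α β A hα hβ hA T hT hTX
  simp only [Function.comp] at hx3
  set X := x.sqrt with hXdef
  set L := Real.log x with hLdef
  have hX8 : (8 : ℝ) ≤ X := by exact_mod_cast hX
  have hXn : X * X ≤ x := Nat.sqrt_le x
  have hXx : (X : ℝ) ^ 2 ≤ x := by exact_mod_cast Nat.sqrt_le' x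
  have hx1 : (1 : ℝ) ≤ x := by nlinarith
  have hx0 : (0 : ℝ) < x := by linarith
  have hxn : 0 < x := by exact_mod_cast hx0
  have hT1 : 1 ≤ T := by nlinarith
  have hT0 : 0 < T := by linarith
  have hTX1 : T ≤ X := hTX.trans (div_le_self (by linarith) (le_max_left _ _))
  have hTX2 : 5120 * G * E ^ 4 * T ≤ δ ^ 2 * X := by
    have h1 : T ≤ X / (5120 * G * E ^ 4 / δ ^ 2) :=
      hTX.trans (by gcongr; exact le_max_right _ _)
    rw [div_div_eq_mul_div, le_div_iff₀ (by positivity)] at h1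
    linarith
  have hΓ := Gam_ge (x := x) hT1 (by nlinarith)
  rw [div_le_iff₀ (by positivity)] at hΓ
  have hΓ0 : 0 ≤ Gam x T := sum_nonneg fun n _ => gk_nonneg _ _ _
  have hΓX : (X : ℝ) ≤ 8 * Gam x T := by
    by_contra h
    have h' := (not_le.1 h).le
    nlinarith
  have hΓ1 : 1 ≤ Gam x T := by linarith
  have hA1 : ∀ a ∈ A, 1 ≤ a := fun a ha => (hA a ha).1
  have hpow : (x : ℝ) ^ (1 / 4 - c) ≤ x := by
    conv_rhs => rw [← Real.rpow_one x]
    exact Real.rpow_le_rpow_of_exponent_le hx1 (by linarith)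
  have hA2 : ∀ a ∈ A, 1 ≤ a ∧ a ≤ 2 * x ∧ Rough ((x : ℝ) ^ ρ) a := fun a ha => by
    obtain ⟨a1, a2, a3⟩ := hA a ha
    have a4 : a ≤ x := by exact_mod_cast a3.trans hpow
    exact ⟨a1, by omega, a2⟩
  have hcard : (#A : ℝ) ≤ (x : ℝ) ^ (1 / 4 - c) := by
    have h1 : A ⊆ Icc 1 ⌊(x : ℝ) ^ (1 / 4 - c)⌋₊ := fun a ha =>
      mem_Icc.2 ⟨hA1 a ha, Nat.le_floor (hA a ha).2.2⟩
    have h2 := card_le_card h1
    rw [Nat.card_Icc, Nat.add_sub_cancel] at h2
    exact le_trans (by exact_mod_cast h2) (Nat.floor_le (by positivity))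
  have hcard2 : 51200 * E ^ 4 * (X * (#A : ℝ) ^ 2) ≤ δ ^ 2 * x := by
    have h1 : (X : ℝ) ≤ (x : ℝ) ^ (1 / 2 : ℝ) := by
      rw [← Real.sqrt_eq_rpow]
      exact Real.le_sqrt_of_sq_le hXx
    have h2 : (x : ℝ) ^ (2 * c) * ((x : ℝ) ^ (1 / 2 : ℝ) * ((x : ℝ) ^ (1 / 4 - c)) ^ 2) = x := by
      rw [sq, ← Real.rpow_add hx0, ← Real.rpow_add hx0, ← Real.rpow_add hx0]
      conv_rhs => rw [← Real.rpow_one x]
      congr 1
      ring
    rw [div_le_iff₀ (by positivity)] at hx3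
    calc _ ≤ (x : ℝ) ^ (2 * c) * δ ^ 2 *
          ((x : ℝ) ^ (1 / 2 : ℝ) * ((x : ℝ) ^ (1 / 4 - c)) ^ 2) := by gcongr
      _ = δ ^ 2 * ((x : ℝ) ^ (2 * c) *
          ((x : ℝ) ^ (1 / 2 : ℝ) * ((x : ℝ) ^ (1 / 4 - c)) ^ 2)) := by ring
      _ = _ := by rw [h2]
  have hα' : ∀ a ∈ A, |α a| ≤ E := fun a ha => (hα a ha).trans hCE
  have hβ' : ∀ b ∈ Icc 1 X, |β b| ≤ E := fun b hb => (hβ b (mem_Icc.1 hb).2).trans hCE
  rw [nti_split x T α β A _ hA1 fun b hb => (mem_Icc.1 hb).1]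
  have s2 : |(∑ a ∈ A, α a * (1 / a)) * ∑ b ∈ Icc 1 X, β b * (sG x T b - Gam x T / b)| ≤
      ε / 2 * L * Gam x T := by
    have h1 : |∑ a ∈ A, α a * (1 / a)| ≤ E * (19 / ρ) := by
      refine (abs_sum_le_sum_abs _ _).trans
        (le_trans ?_ (mul_le_mul_of_nonneg_left (hinv A hA2) hE0.le))
      rw [mul_sum]
      refine sum_le_sum fun a ha => ?_
      rw [abs_mul, abs_of_nonneg (by positivity : 0 ≤ 1 / (a : ℝ))]
      have := hα' a ha
      gcongr
    have h2 : |∑ b ∈ Icc 1 X, β b * (sG x T b - Gam x T / b)| ≤ X * (E * 2) := by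
      refine (abs_sum_le_sum_abs _ _).trans ((sum_le_card_nsmul _ _ (E * 2) fun b hb => ?_).trans
        (le_of_eq (by simp)))
      rw [abs_mul]
      have := hβ' b hb
      have : |sG x T b - Gam x T / b| ≤ 2 := sum_gk_mul x hT0.le (mem_Icc.1 hb).1
      gcongr
    rw [div_le_iff₀ hε] at hL2
    rw [abs_mul]
    calc _ ≤ E * (19 / ρ) * (8 * Gam x T * (E * 2)) := by
          refine mul_le_mul h1 (h2.trans ?_) (abs_nonneg _) (by positivity)
          gcongr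
      _ = 32 * E ^ 2 * (19 / ρ) * (Gam x T / 2) := by ring
      _ ≤ L * ε * (Gam x T / 2) := by gcongr
      _ = _ := by ring
  have hc' : ∀ k, |∑ a ∈ A, α a * fa a k| ≤ E * x := fun k => by
    refine (abs_sum_le_sum_abs _ _).trans ((sum_le_card_nsmul _ _ E fun a ha => ?_).trans ?_)
    · rw [abs_mul]
      exact (mul_le_of_le_one_right (abs_nonneg _) (nti_abs_fa (hA1 a ha) k)).trans (hα' a ha)
    · rw [nsmul_eq_mul, mul_comm]
      exact mul_le_mul_of_nonneg_left (hcard.trans hpow) hE0.le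
  have hexp : Real.exp (-(T * Real.log 2)) ≤ 1 / x ^ 3 := by
    have h5 : 3 * L ≤ T * Real.log 2 := by
      have := Real.log_two_gt_d9
      nlinarith
    calc _ ≤ Real.exp (-(3 * L)) := Real.exp_le_exp.2 (by linarith)
      _ = _ := by
        rw [Real.exp_neg, show (3 : ℝ) * L = ((3 : ℕ) : ℝ) * L by norm_num,
          Real.exp_nat_mul, hLdef, Real.exp_log hx0, one_div]
  have win : ∀ i ∈ range (Nat.log 2 X + 1), |∑ b ∈ Icc 1 X with Nat.log 2 b = i,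
      ∑ k ∈ Icc 1 (2 * x), β b * (∑ a ∈ A, α a * fa a k) * gk x T (b * k)| ≤
        2 * δ * Gam x T := by
    intro i hi
    set B : ℕ := 2 ^ i with hB
    have hB0 : 0 < B := by positivity
    have hBX : B ≤ X := Nat.pow_le_of_le_log (by omega) (by have := mem_range.1 hi; omega)
    have hB0' : (0 : ℝ) < B := by exact_mod_cast hB0
    have hBX' : (B : ℝ) ≤ X := by exact_mod_cast hBX
    have hBK : (B : ℝ) * (2 * x / B : ℕ) ≤ 2 * x := by exact_mod_cast Nat.mul_div_le (2 * x) B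
    have hXK : (X : ℝ) ≤ (2 * x / B : ℕ) := by
      have h1 : X * B ≤ X * X := Nat.mul_le_mul_left X hBX
      exact_mod_cast (Nat.le_div_iff_mul_le hB0).2 (by omega)
    have hw := nti_window hxn hB0 hT0 (t := δ * x / (40 * E ^ 2 * X * B)) (by positivity)
      ((Icc 1 X).filter fun b => Nat.log 2 b = i) (fun b hb => by
        obtain ⟨b1, b2⟩ := mem_filter.1 hb
        have b3 : b ≠ 0 := by have := (mem_Icc.1 b1).1; omega
        rw [hB, ← b2, ← pow_succ']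
        exact ⟨Nat.pow_log_le_self 2 b3, Nat.lt_pow_succ_log_self one_lt_two b⟩)
      β (fun k => ∑ a ∈ A, α a * fa a k) hE0.le (by positivity)
      (fun b hb => hβ' b (mem_filter.1 hb).1) hc'
      (nti_ms A hA1 α hα' hE0.le (hgcd A hA2) (2 * x / B) hT0)
    refine hw.trans ?_
    generalize ((2 * x / B : ℕ) : ℝ) = K at *
    have hK0 : 0 ≤ K := by linarith
    have w1 : δ * x / (40 * E ^ 2 * X * B) * ((T + 4 * B) * (B * E ^ 2)) ≤ δ * x / 8 := by
      calc _ ≤ δ * x / (40 * E ^ 2 * X * B) * ((X + 4 * X) * (B * E ^ 2)) := by gcongr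
        _ = _ := by field_simp; ring
    have w2 : E ^ 2 * (4 * T * K * G + 20 * (#A : ℝ) ^ 2 * (T + K)) /
        (δ * x / (40 * E ^ 2 * X * B)) ≤ δ * x / 8 := by
      rw [div_div_eq_mul_div, div_le_iff₀ (by positivity)]
      have w3 : T ≤ K := hTX1.trans hXK
      have w4 : 5120 * G * E ^ 4 * T * X ≤ δ ^ 2 * x := by
        calc _ ≤ δ ^ 2 * X * X := by gcongr
          _ = δ ^ 2 * (X : ℝ) ^ 2 := by ring
          _ ≤ _ := by gcongr
      calc _ ≤ E ^ 2 * (4 * T * K * G + 20 * (#A : ℝ) ^ 2 * (K + K)) * (40 * E ^ 2 * X * B) := by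
            gcongr
        _ = (B * K) * ((5120 * G * E ^ 4 * T * X + 51200 * E ^ 4 * (X * (#A : ℝ) ^ 2)) / 32) := by
            ring
        _ ≤ (2 * x) * ((δ ^ 2 * x + δ ^ 2 * x) / 32) := by gcongr
        _ = _ := by ring
    have w5 : 2 * x * (E * (E * x) * Real.exp (-(T * Real.log 2))) ≤ δ * Gam x T := by
      rw [div_le_iff₀ hδ0] at hx2
      calc _ ≤ 2 * x * (E * (E * x) * (1 / x ^ 3)) := by gcongr
        _ = 2 * E ^ 2 / x := by field_simp
        _ ≤ δ := by rw [div_le_iff₀ hx0]; linarith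
        _ ≤ _ := le_mul_of_one_le_right hδ0.le hΓ1
    have w6 : (δ * x / 8 + δ * x / 8) / (2 * T) ≤ δ * Gam x T := by
      rw [div_le_iff₀ (by positivity)]
      have := mul_le_mul_of_nonneg_left hΓ hδ0.le
      linarith
    calc _ ≤ (δ * x / 8 + δ * x / 8) / (2 * T) + δ * Gam x T := by gcongr
      _ ≤ _ := by linarith
  have s1 : |∑ b ∈ Icc 1 X, ∑ k ∈ Icc 1 (2 * x),
      β b * (∑ a ∈ A, α a * fa a k) * gk x T (b * k)| ≤ ε / 2 * L * Gam x T := by
    rw [← sum_fiberwise_of_maps_to (t := range (Nat.log 2 X + 1)) (g := Nat.log 2)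
      fun b hb => mem_range.2 (Nat.lt_succ_of_le (Nat.log_mono_right (mem_Icc.1 hb).2))]
    refine (abs_sum_le_sum_abs _ _).trans ((sum_le_card_nsmul _ _ _ win).trans ?_)
    rw [card_range, nsmul_eq_mul]
    have h1 : ((Nat.log 2 X + 1 : ℕ) : ℝ) ≤ 2 * L := by
      have h2 : (2 : ℝ) ^ Nat.log 2 X ≤ X := by
        exact_mod_cast Nat.pow_log_le_self 2 (by omega : X ≠ 0)
      have h3 := Real.log_le_log (by positivity) (h2.trans (show (X : ℝ) ≤ x by nlinarith))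
      rw [Real.log_pow, ← hLdef] at h3
      have h4 := Real.log_two_gt_d9
      have h5 : (0 : ℝ) ≤ Nat.log 2 X := Nat.cast_nonneg _
      push_cast
      nlinarith
    calc _ ≤ 2 * L * (2 * δ * Gam x T) := by gcongr
      _ = _ := by rw [hδ]; ring
  refine (abs_add_le _ _).trans ?_
  linarith

end Pool.Agent.Work.MP_82fd4a_nt
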