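import Pool.Agent.Work.MP_82fd4a_nt.NDefs
import Pool.Agent.Work.MP_82fd4a_nt.SumIA

/-! Correlations of the centred indicators of multiples. -/

set_option autoImplicit false
open Filter Topology Finset

namespace Pool.Agent.Work.MP_82fd4a_nt

/-- Abel summation with decreasing weights, two sided -/
lemma nv_abel (u g : ℕ → ℝ) {E M : ℝ} (k : ℕ) (hE : 0 ≤ E) (hM : 0 ≤ M)
    (hS : ∀ c ≤ k, |∑ i ∈ range c, u i| ≤ E) (hg : ∀ i j, i ≤ j → j < k → g j ≤ g i)
    (h0 : ∀ i < k, 0 ≤ g i) (h1 : ∀ i < k, g i ≤ M) : |∑ i ∈ range k, u i * g i| ≤ E * M := by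
  have key : ∀ (u : ℕ → ℝ) (k : ℕ), (∀ c ≤ k, ∑ i ∈ range c, u i ≤ E) →
      (∀ i j, i ≤ j → j < k → g j ≤ g i) → (∀ i < k, g i ≤ M) → ∀ t : ℝ, t ≤ M →
      (∀ i < k, t ≤ g i) → ∑ i ∈ range k, u i * g i ≤ E * (M - t) + (∑ i ∈ range k, u i) * t := by
    intro u k
    induction k with
    | zero => intro _ _ _ t ht _; simpa using mul_nonneg hE (sub_nonneg.2 ht)
    | succ k ih =>
      intro hS hg h1 t _ ht
      have a1 := ih (fun c hc => hS c (by omega)) (fun i j hij hj => hg i j hij (by omega))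
        (fun i hi => h1 i (by omega)) (g k) (h1 k (by omega)) (fun i hi => hg i k hi.le (by omega))
      have a2 := hS (k + 1) le_rfl
      have a3 := ht k (by omega)
      rw [sum_range_succ] at a2
      rw [sum_range_succ, sum_range_succ]
      nlinarith [mul_nonneg (sub_nonneg.2 a2) (sub_nonneg.2 a3)]
  have b1 := key u k (fun c hc => (abs_le.1 (hS c hc)).2) hg h1 0 hM h0
  have b2 := key (fun i => - u i) k (fun c hc => by
    rw [sum_neg_distrib]; linarith [(abs_le.1 (hS c hc)).1]) hg h1 0 hM h0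
  simp only [neg_mul, sum_neg_distrib] at b2
  rw [abs_le]
  constructor <;> linarith

/-- indicator of divisibility -/
noncomputable def nvI (m n : ℕ) : ℝ := if m ∣ n then 1 else 0

lemma nv_count {m : ℕ} (hm : 0 < m) (s c : ℕ) :
    |∑ i ∈ range c, (nvI m (s + i) - 1 / (m : ℝ))| ≤ 1 := by
  obtain ⟨t, ht⟩ : ∃ t, s + m = t + 1 := ⟨s + m - 1, by omega⟩
  have h1 : ∑ i ∈ range c, nvI m (s + i) = (((t + c) / m : ℕ) : ℝ) - ((t / m : ℕ) : ℝ) := by
    induction c with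
    | zero => simp
    | succ c ih =>
      rw [sum_range_succ, ih, ← add_assoc, Nat.succ_div]
      have e : m ∣ t + c + 1 ↔ m ∣ s + c := by
        rw [show t + c + 1 = (s + c) + m by omega]
        exact Nat.dvd_add_self_right
      unfold nvI
      by_cases h : m ∣ s + c
      · rw [if_pos h, if_pos (e.2 h)]; push_cast; ring
      · rw [if_neg h, if_neg (fun h' => h (e.1 h'))]; push_cast; ring
  have hm' : (0 : ℝ) < m := by exact_mod_cast hm
  have fl : ∀ n : ℕ, ((n / m : ℕ) : ℝ) ≤ n / m ∧ (n : ℝ) / m ≤ ((n / m : ℕ) : ℝ) + 1 := by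
    intro n
    refine ⟨Nat.cast_div_le, ?_⟩
    rw [div_le_iff₀ hm']
    have := Nat.lt_div_mul_add (a := n) hm
    have h2 : (n : ℝ) < ((n / m : ℕ) : ℝ) * m + m := by exact_mod_cast this
    linarith
  rw [sum_sub_distrib, h1, sum_const, card_range, nsmul_eq_mul]
  obtain ⟨a1, a2⟩ := fl (t + c)
  obtain ⟨a3, a4⟩ := fl t
  push_cast at a1 a2
  rw [add_div] at a1 a2
  rw [mul_one_div, abs_le]
  constructor <;> linarith

/-- the mean value of the correlation at shift `r` -/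
noncomputable def nvPsi (a a' r : ℕ) : ℝ :=
  ((Nat.gcd a a' : ℝ) * nvI (Nat.gcd a a') r - 1) / (a * a')

lemma nv_corr {a a' : ℕ} (ha : 0 < a) (ha' : 0 < a') (r c : ℕ) :
    |∑ i ∈ range c, (fa a (i + 1) * fa a' (i + 1 + r) - nvPsi a a' r)| ≤ 3 := by
  have hA : (1 : ℝ) ≤ a := by exact_mod_cast ha
  have hA' : (1 : ℝ) ≤ a' := by exact_mod_cast ha'
  have hj : |∑ i ∈ range c, (nvI a (i + 1) * nvI a' (i + 1 + r)
      - (Nat.gcd a a' : ℝ) * nvI (Nat.gcd a a') r / (a * a'))| ≤ 1 := by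
    by_cases h : Nat.gcd a a' ∣ r
    · obtain ⟨s, hs1, hs2⟩ := Nat.chineseRemainder' (a := 0) (b := r) (n := a) (m := a')
        ((Nat.modEq_zero_iff_dvd.2 h).symm)
      have hl : 0 < Nat.lcm a a' := Nat.lcm_pos ha ha'
      have := nv_count hl (s + 1) c
      refine le_of_eq_of_le ?_ this
      congr 1
      refine sum_congr rfl fun i _ => ?_
      have e1 : a ∣ s + 1 + i ↔ a ∣ i + 1 := by
        rw [show s + 1 + i = s + (i + 1) by omega]
        exact Nat.dvd_add_right (Nat.modEq_zero_iff_dvd.1 hs1)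
      have e2 : a' ∣ s + 1 + i ↔ a' ∣ i + 1 + r := by
        have : s + 1 + i ≡ i + 1 + r [MOD a'] := by
          rw [show s + 1 + i = (i + 1) + s by omega]
          exact Nat.ModEq.add_left _ hs2
        exact this.dvd_iff dvd_rfl
      have e3 : ((Nat.gcd a a' : ℕ) : ℝ) * (Nat.lcm a a' : ℕ) = a * a' := by
        exact_mod_cast Nat.gcd_mul_lcm a a'
      have hl' : (0 : ℝ) < (Nat.lcm a a' : ℕ) := by exact_mod_cast hl
      have hg' : (0 : ℝ) < (Nat.gcd a a' : ℕ) := by exact_mod_cast Nat.gcd_pos_of_pos_left _ ha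
      congr 1
      · unfold nvI
        simp only [Nat.lcm_dvd_iff, e1, e2]
        by_cases h1 : a ∣ i + 1 <;> by_cases h2 : a' ∣ i + 1 + r <;> simp [h1, h2]
      · unfold nvI
        rw [if_pos h, ← e3]
        field_simp
    · rw [sum_eq_zero]
      · simp
      intro i _
      unfold nvI
      rw [if_neg h]
      by_cases h1 : a ∣ i + 1
      · by_cases h2 : a' ∣ i + 1 + r
        · exact absurd ((Nat.dvd_add_right ((Nat.gcd_dvd_left a a').trans h1)).1
            ((Nat.gcd_dvd_right a a').trans h2)) h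
        · simp [h2]
      · simp [h1]
  have h1 := nv_count ha 1 c
  have h2 := nv_count ha' (1 + r) c
  have e : ∑ i ∈ range c, (fa a (i + 1) * fa a' (i + 1 + r) - nvPsi a a' r)
      = ∑ i ∈ range c, (nvI a (i + 1) * nvI a' (i + 1 + r)
          - (Nat.gcd a a' : ℝ) * nvI (Nat.gcd a a') r / (a * a'))
        - 1 / (a' : ℝ) * ∑ i ∈ range c, (nvI a (1 + i) - 1 / (a : ℝ))
        - 1 / (a : ℝ) * ∑ i ∈ range c, (nvI a' (1 + r + i) - 1 / (a' : ℝ)) := by
    rw [mul_sum, mul_sum, ← sum_sub_distrib, ← sum_sub_distrib]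
    refine sum_congr rfl fun i _ => ?_
    rw [show 1 + i = i + 1 by omega, show 1 + r + i = i + 1 + r by omega]
    unfold fa nvPsi nvI
    field_simp
    ring
  have b1 : 1 / (a : ℝ) ≤ 1 := by rw [div_le_one (by linarith)]; exact hA
  have b2 : 1 / (a' : ℝ) ≤ 1 := by rw [div_le_one (by linarith)]; exact hA'
  have c1 : 0 ≤ 1 / (a : ℝ) := by positivity
  have c2 : 0 ≤ 1 / (a' : ℝ) := by positivity
  rw [e]
  refine (abs_sub _ _).trans ?_
  refine (add_le_add_left (abs_sub _ _) _).trans ?_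
  rw [abs_mul, abs_mul, abs_of_nonneg c1, abs_of_nonneg c2]
  nlinarith [mul_le_mul b1 h2 (abs_nonneg _) zero_le_one, mul_le_mul b2 h1 (abs_nonneg _) zero_le_one]

lemma nv_psi_sum {a a' : ℕ} (ha : 0 < a) (c : ℕ) :
    |∑ r ∈ range c, nvPsi a a' r| ≤ (Nat.gcd a a' : ℝ) / (a * a') := by
  have hg : 0 < Nat.gcd a a' := Nat.gcd_pos_of_pos_left _ ha
  have hg' : (0 : ℝ) < (Nat.gcd a a' : ℕ) := by exact_mod_cast hg
  have h := nv_count hg 0 c
  have e : ∑ r ∈ range c, nvPsi a a' r = (Nat.gcd a a' : ℝ) / (a * a') *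
      ∑ i ∈ range c, (nvI (Nat.gcd a a') (0 + i) - 1 / ((Nat.gcd a a' : ℕ) : ℝ)) := by
    rw [mul_sum]
    refine sum_congr rfl fun i _ => ?_
    unfold nvPsi
    rw [zero_add, div_mul_eq_mul_div, mul_sub, mul_one_div_cancel hg'.ne']
  rw [e, abs_mul, abs_of_nonneg (by positivity)]
  exact mul_le_of_le_one_right (by positivity) h

/-- the kernel along a diagonal -/
noncomputable def nvK (T : ℝ) (r i : ℕ) : ℝ :=
  Real.exp (-(T * (Real.log ((i + 1 + r : ℕ) : ℝ) - Real.log ((i + 1 : ℕ) : ℝ))))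

lemma nvK_pos (T : ℝ) (r i : ℕ) : 0 < nvK T r i := Real.exp_pos _

lemma nvK_mono {T : ℝ} (hT : 0 < T) (r : ℕ) {i j : ℕ} (h : i ≤ j) : nvK T r i ≤ nvK T r j := by
  unfold nvK
  rw [Real.exp_le_exp, neg_le_neg_iff]
  refine mul_le_mul_of_nonneg_left ?_ hT.le
  have h' : (i : ℝ) ≤ j := by exact_mod_cast h
  have hi : (0 : ℝ) ≤ i := Nat.cast_nonneg _
  have hr : (0 : ℝ) ≤ r := Nat.cast_nonneg _
  push_cast
  rw [← Real.log_div (by linarith) (by linarith), ← Real.log_div (by linarith) (by linarith)]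
  refine Real.log_le_log (div_pos (by linarith) (by linarith)) ?_
  rw [div_le_div_iff₀ (by linarith) (by linarith)]
  nlinarith

lemma nvK_anti {T : ℝ} (hT : 0 < T) (i : ℕ) {r s : ℕ} (h : r ≤ s) : nvK T s i ≤ nvK T r i := by
  unfold nvK
  rw [Real.exp_le_exp, neg_le_neg_iff]
  refine mul_le_mul_of_nonneg_left (sub_le_sub_right ?_ _) hT.le
  exact Real.log_le_log (by positivity) (by exact_mod_cast (by omega : i + 1 + r ≤ i + 1 + s))

lemma nvK_le {T : ℝ} (hT : 0 < T) {K r i : ℕ} (h : i + 1 + r ≤ K) :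
    nvK T r i ≤ Real.exp (-(T / K * r)) := by
  unfold nvK
  rw [Real.exp_le_exp, neg_le_neg_iff, div_mul_eq_mul_div, mul_div_assoc]
  refine mul_le_mul_of_nonneg_left ?_ hT.le
  have hi : (0 : ℝ) ≤ i := Nat.cast_nonneg _
  have hr : (0 : ℝ) ≤ r := Nat.cast_nonneg _
  have h' : (i : ℝ) + 1 + r ≤ K := by exact_mod_cast h
  push_cast
  have h1 := Real.one_sub_inv_le_log_of_pos
    (div_pos (by linarith : (0 : ℝ) < i + 1 + r) (by linarith : (0 : ℝ) < i + 1))
  rw [Real.log_div (by linarith) (by linarith), inv_div] at h1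
  refine le_trans ?_ h1
  rw [one_sub_div (by linarith), show (i : ℝ) + 1 + r - (i + 1) = r by ring]
  exact div_le_div_of_nonneg_left hr (by linarith) h'

lemma nvK_le_one {T : ℝ} (hT : 0 < T) (r i : ℕ) : nvK T r i ≤ 1 := by
  have := nvK_anti hT i (Nat.zero_le r)
  simpa [nvK] using this

lemma nv_exp_sum {T : ℝ} (hT : 0 < T) (K : ℕ) :
    ∑ r ∈ range K, Real.exp (-(T / K * r)) ≤ 1 + K / T := by
  rcases K with _ | K
  · simp
  have hK : (0 : ℝ) < ((K + 1 : ℕ) : ℝ) := by positivity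
  have := Pool.Agent.Lib.MR.sum_exp_neg_le (div_pos hT hK) K
  rw [sum_range_succ', one_div_div] at *
  simp only [Nat.cast_zero, mul_zero, neg_zero, Real.exp_zero]
  push_cast at this ⊢
  linarith

lemma nv_half {a a' : ℕ} (ha : 0 < a) (ha' : 0 < a') (K : ℕ) {T : ℝ} (hT : 0 < T) :
    |∑ r ∈ range K, ∑ i ∈ range (K - r), fa a (i + 1) * fa a' (i + 1 + r) * nvK T r i|
      ≤ K * (Nat.gcd a a' : ℝ) / (a * a') + 6 * (1 + K / T) := by
  have e : ∑ r ∈ range K, ∑ i ∈ range (K - r), fa a (i + 1) * fa a' (i + 1 + r) * nvK T r i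
      = ∑ r ∈ range K, ∑ i ∈ range (K - r),
          (fa a (i + 1) * fa a' (i + 1 + r) - nvPsi a a' r) * nvK T r i
        + ∑ r ∈ range K, nvPsi a a' r * ∑ i ∈ range (K - r), nvK T r i := by
    rw [← sum_add_distrib]
    refine sum_congr rfl fun r _ => ?_
    rw [mul_sum, ← sum_add_distrib]
    exact sum_congr rfl fun i _ => by ring
  have h1 : ∀ r ∈ range K, |∑ i ∈ range (K - r),
      (fa a (i + 1) * fa a' (i + 1 + r) - nvPsi a a' r) * nvK T r i|
      ≤ 6 * Real.exp (-(T / K * r)) := by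
    intro r _
    set M := Real.exp (-(T / K * r)) with hM
    have hM0 : 0 ≤ M := (Real.exp_pos _).le
    set u : ℕ → ℝ := fun i => fa a (i + 1) * fa a' (i + 1 + r) - nvPsi a a' r with hu
    have a1 := nv_abel u (fun i => M - nvK T r i) (E := 3) (M := M) (K - r) (by norm_num) hM0
      (fun c _ => nv_corr ha ha' r c) (fun i j hij _ => by linarith [nvK_mono hT r hij])
      (fun i hi => sub_nonneg.2 (nvK_le hT (by omega))) (fun i _ => by linarith [nvK_pos T r i])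
    have a2 : |∑ i ∈ range (K - r), u i| ≤ 3 := nv_corr ha ha' r (K - r)
    have e2 : ∑ i ∈ range (K - r), u i * nvK T r i
        = M * ∑ i ∈ range (K - r), u i - ∑ i ∈ range (K - r), u i * (M - nvK T r i) := by
      rw [mul_sum, ← sum_sub_distrib]
      exact sum_congr rfl fun i _ => by ring
    show |∑ i ∈ range (K - r), u i * nvK T r i| ≤ 6 * M
    rw [e2]
    refine (abs_sub _ _).trans ?_
    rw [abs_mul, abs_of_nonneg hM0]
    nlinarith [mul_le_mul_of_nonneg_left a2 hM0]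
  have h2 := nv_abel (nvPsi a a') (fun r => ∑ i ∈ range (K - r), nvK T r i)
    (E := (Nat.gcd a a' : ℝ) / (a * a')) (M := K) K (by positivity) (Nat.cast_nonneg _)
    (fun c _ => nv_psi_sum ha c)
    (fun r s hrs _ => (sum_le_sum fun i _ => nvK_anti hT i hrs).trans
      (sum_le_sum_of_subset_of_nonneg (range_subset_range.2 (by omega))
        fun i _ _ => (nvK_pos T r i).le))
    (fun r _ => sum_nonneg fun i _ => (nvK_pos T r i).le)
    (fun r _ => by
      refine (sum_le_card_nsmul _ _ 1 fun i _ => nvK_le_one hT r i).trans ?_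
      rw [card_range, nsmul_one]
      exact_mod_cast Nat.sub_le K r)
  have h3 := (abs_sum_le_sum_abs _ _).trans (sum_le_sum h1)
  rw [← mul_sum] at h3
  have h4 := nv_exp_sum hT K
  rw [e, mul_div_assoc]
  refine (abs_add_le _ _).trans ?_
  linarith

lemma nv_tri (G : ℕ → ℕ → ℝ) (K : ℕ) :
    ∑ r ∈ range (K + 1), ∑ i ∈ range (K + 1 - r), G i (i + r)
      = ∑ r ∈ range K, ∑ i ∈ range (K - r), G i (i + r) + ∑ i ∈ range (K + 1), G i K := by
  have e : ∑ r ∈ range (K + 1), ∑ i ∈ range (K + 1 - r), G i (i + r)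
      = ∑ r ∈ range (K + 1), (∑ i ∈ range (K - r), G i (i + r) + G (K + 1 - 1 - r) K) := by
    refine sum_congr rfl fun r hr => ?_
    rw [mem_range] at hr
    rw [show K + 1 - r = K - r + 1 by omega, sum_range_succ, show K - r + r = K by omega,
      show K + 1 - 1 - r = K - r by omega]
  rw [e, sum_add_distrib, sum_range_reflect (fun i => G i K), sum_range_succ]
  simp

lemma nv_split (G : ℕ → ℕ → ℝ) (K : ℕ) :
    ∑ i ∈ range K, ∑ j ∈ range K, G i j
      = ∑ r ∈ range K, ∑ i ∈ range (K - r), G i (i + r)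
        + ∑ r ∈ range K, ∑ i ∈ range (K - r), G (i + r) i - ∑ i ∈ range K, G i i := by
  induction K with
  | zero => simp
  | succ K ih =>
    rw [nv_tri G K, nv_tri (fun i j => G j i) K]
    simp only [sum_range_succ, sum_add_distrib]
    linarith

theorem var_pair {a a' : ℕ} (ha : 0 < a) (ha' : 0 < a') (K : ℕ) {T : ℝ} (hT : 0 < T) :
    |∑ k ∈ Icc 1 K, ∑ k' ∈ Icc 1 K,
        fa a k * fa a' k' * Real.exp (-(T * |Real.log k - Real.log k'|))|
      ≤ 4 * K * (Nat.gcd a a' : ℝ) / (a * a') + 20 * (1 + K / T) := by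
  have hI : ∀ f : ℕ → ℝ, ∑ k ∈ Icc 1 K, f k = ∑ i ∈ range K, f (i + 1) := fun f => by
    rw [range_eq_Ico, sum_Ico_add' f 0 K 1, zero_add, Ico_add_one_right_eq_Icc]
  simp only [hI]
  rw [nv_split (fun i j => fa a (i + 1) * fa a' (j + 1) *
    Real.exp (-(T * |Real.log ((i + 1 : ℕ) : ℝ) - Real.log ((j + 1 : ℕ) : ℝ)|))) K]
  have hl : ∀ i r : ℕ, 0 ≤ Real.log ((i + 1 + r : ℕ) : ℝ) - Real.log ((i + 1 : ℕ) : ℝ) :=
    fun i r => sub_nonneg.2 (Real.log_le_log (by positivity)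
      (by exact_mod_cast (by omega : i + 1 ≤ i + 1 + r)))
  have h1 := nv_half ha ha' K hT
  have h2 := nv_half ha' ha K hT
  have e1 : ∑ r ∈ range K, ∑ i ∈ range (K - r), fa a (i + 1) * fa a' (i + r + 1) *
      Real.exp (-(T * |Real.log ((i + 1 : ℕ) : ℝ) - Real.log ((i + r + 1 : ℕ) : ℝ)|))
      = ∑ r ∈ range K, ∑ i ∈ range (K - r), fa a (i + 1) * fa a' (i + 1 + r) * nvK T r i := by
    refine sum_congr rfl fun r _ => sum_congr rfl fun i _ => ?_
    rw [show i + r + 1 = i + 1 + r by omega, abs_sub_comm, abs_of_nonneg (hl i r)]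
    rfl
  have e2 : ∑ r ∈ range K, ∑ i ∈ range (K - r), fa a (i + r + 1) * fa a' (i + 1) *
      Real.exp (-(T * |Real.log ((i + r + 1 : ℕ) : ℝ) - Real.log ((i + 1 : ℕ) : ℝ)|))
      = ∑ r ∈ range K, ∑ i ∈ range (K - r), fa a' (i + 1) * fa a (i + 1 + r) * nvK T r i := by
    refine sum_congr rfl fun r _ => sum_congr rfl fun i _ => ?_
    rw [show i + r + 1 = i + 1 + r by omega, abs_of_nonneg (hl i r), mul_comm (fa a _)]
    rfl
  have h3 := nv_corr ha ha' 0 K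
  have h4 := nv_psi_sum (a' := a') ha 1
  rw [sum_range_one] at h4
  have e3 : ∑ i ∈ range K, fa a (i + 1) * fa a' (i + 1) *
      Real.exp (-(T * |Real.log ((i + 1 : ℕ) : ℝ) - Real.log ((i + 1 : ℕ) : ℝ)|))
      = ∑ i ∈ range K, (fa a (i + 1) * fa a' (i + 1 + 0) - nvPsi a a' 0) + K * nvPsi a a' 0 := by
    rw [sum_sub_distrib, sum_const, card_range, nsmul_eq_mul, sub_add_cancel]
    exact sum_congr rfl fun i _ => by simp
  rw [e1, e2, e3]
  rw [Nat.gcd_comm a' a, mul_comm (a' : ℝ) a] at h2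
  have hK : (0 : ℝ) ≤ K := Nat.cast_nonneg _
  have h5 : |(K : ℝ) * nvPsi a a' 0| ≤ K * ((Nat.gcd a a' : ℝ) / (a * a')) := by
    rw [abs_mul, abs_of_nonneg hK]
    exact mul_le_mul_of_nonneg_left h4 hK
  have h6 : 0 ≤ (K : ℝ) * ((Nat.gcd a a' : ℝ) / (a * a')) := by positivity
  have h7 : 0 ≤ (K : ℝ) / T := by positivity
  rw [mul_div_assoc] at h1 h2
  rw [mul_div_assoc, mul_assoc 4]
  rw [abs_le] at h1 h2 h3 h5 ⊢
  constructor <;> linarith [h1.1, h1.2, h2.1, h2.2, h3.1, h3.2, h5.1, h5.2]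

theorem sum_gcd_le {ρ : ℝ} (hρ : 0 < ρ) (hρ1 : ρ ≤ 1) : ∀ᶠ x : ℕ in atTop, ∀ A : Finset ℕ,
    (∀ a ∈ A, 1 ≤ a ∧ a ≤ 2 * x ∧ Rough ((x : ℝ) ^ ρ) a) →
    ∑ a ∈ A, ∑ a' ∈ A, (Nat.gcd a a' : ℝ) / (a * a') ≤ (19 / ρ) ^ 3 := by
  filter_upwards [si_inv_rough hρ hρ1] with x hx A hA
  set G := (Icc 1 (2 * x)).filter (Rough ((x : ℝ) ^ ρ)) with hG
  have hGs := hx G fun d hd => by
    obtain ⟨h1, h2⟩ := mem_filter.1 hd
    exact ⟨(mem_Icc.1 h1).1, (mem_Icc.1 h1).2, h2⟩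
  have hd : ∀ a ∈ A, ∀ d, d ∣ a → d ∈ G := by
    intro a ha d hd
    obtain ⟨h1, h2, h3⟩ := hA a ha
    exact mem_filter.2 ⟨mem_Icc.2 ⟨Nat.pos_of_dvd_of_pos hd h1, (Nat.le_of_dvd h1 hd).trans h2⟩,
      fun p hp hpd => h3 p hp (hpd.trans hd)⟩
  let φ : ℕ × ℕ → ℕ × ℕ × ℕ := fun p => (Nat.gcd p.1 p.2, p.1 / Nat.gcd p.1 p.2, p.2 / Nat.gcd p.1 p.2)
  let f : ℕ × ℕ × ℕ → ℝ := fun q => 1 / (q.1 : ℝ) * (1 / (q.2.1 : ℝ) * (1 / (q.2.2 : ℝ)))
  have hinj : Set.InjOn φ ↑(A ×ˢ A) := by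
    intro p _ q _ h
    simp only [φ, Prod.mk.injEq] at h
    obtain ⟨h1, h2, h3⟩ := h
    refine Prod.ext ?_ ?_
    · rw [← Nat.mul_div_cancel' (Nat.gcd_dvd_left p.1 p.2), h2, h1,
        Nat.mul_div_cancel' (Nat.gcd_dvd_left q.1 q.2)]
    · rw [← Nat.mul_div_cancel' (Nat.gcd_dvd_right p.1 p.2), h3, h1,
        Nat.mul_div_cancel' (Nat.gcd_dvd_right q.1 q.2)]
  have h0 : 0 ≤ ∑ d ∈ G, 1 / (d : ℝ) := sum_nonneg fun d _ => by positivity
  calc ∑ a ∈ A, ∑ a' ∈ A, (Nat.gcd a a' : ℝ) / (a * a')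
      = ∑ p ∈ A ×ˢ A, f (φ p) := by
        rw [sum_product]
        refine sum_congr rfl fun a ha => sum_congr rfl fun a' ha' => ?_
        have p1 : (0 : ℝ) < a := by exact_mod_cast (hA a ha).1
        have p2 : (0 : ℝ) < a' := by exact_mod_cast (hA a' ha').1
        have p3 : (0 : ℝ) < (Nat.gcd a a' : ℕ) := by
          exact_mod_cast Nat.gcd_pos_of_pos_left _ (hA a ha).1
        simp only [f, φ]
        rw [Nat.cast_div (Nat.gcd_dvd_left a a') p3.ne', Nat.cast_div (Nat.gcd_dvd_right a a') p3.ne']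
        field_simp
    _ = ∑ q ∈ (A ×ˢ A).image φ, f q := (sum_image hinj).symm
    _ ≤ ∑ q ∈ G ×ˢ G ×ˢ G, f q := by
        refine sum_le_sum_of_subset_of_nonneg ?_ fun q _ _ => by simp only [f]; positivity
        intro q hq
        obtain ⟨p, hp, rfl⟩ := mem_image.1 hq
        obtain ⟨h1, h2⟩ := mem_product.1 hp
        exact mem_product.2 ⟨hd _ h1 _ (Nat.gcd_dvd_left _ _), mem_product.2
          ⟨hd _ h1 _ (Nat.div_dvd_of_dvd (Nat.gcd_dvd_left _ _)),
            hd _ h2 _ (Nat.div_dvd_of_dvd (Nat.gcd_dvd_right _ _))⟩⟩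
    _ = (∑ d ∈ G, 1 / (d : ℝ)) ^ 3 := by
        simp only [f, sum_product, ← mul_sum, ← sum_mul]
        ring
    _ ≤ (19 / ρ) ^ 3 := pow_le_pow_left₀ h0 hGs 3

end Pool.Agent.Work.MP_82fd4a_nt
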