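import Mathlib.Data.Nat.Log
import Mathlib.Data.Nat.Bitwise

/-! Bit sliced arithmetic: the programs. A natural number is a vector of bits, one for each lane,
and a list of natural numbers is a vector of numbers written in base two. -/

set_option autoImplicit false

namespace Pool.Agent.Work.MP_82fd4a_nt.BS

noncomputable section

/-- evaluate a number before it is used -/
def fz {α : Type} (v : ℕ) (k : ℕ → α) : α := Nat.rec (k 0) (fun n _ => k (Nat.succ n)) v

/-- test for zero -/
def iz {α : Type} (v : ℕ) (a b : α) : α := Bool.rec b a (Nat.beq v 0)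

/-- test for an inequality -/
def il {α : Type} (u v : ℕ) (a b : α) : α := Bool.rec b a (Nat.ble u v)

/-- conjunction, the second argument is evaluated only if needed -/
def az (a b : ℕ) : ℕ := iz a 0 (Nat.land a b)

/-- the first and not the second -/
def an (a b : ℕ) : ℕ := iz a 0 (Nat.xor a (Nat.land a b))

/-- evaluate a list -/
def fl {α : Type} (l : List ℕ) : (List ℕ → α) → α :=
  List.rec (fun k => k []) (fun h _ ih k => fz h fun h' => ih fun t => k (h' :: t)) l

/-- evaluate a list of lists -/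
def fll {α : Type} (l : List (List ℕ)) : (List (List ℕ) → α) → α :=
  List.rec (fun k => k []) (fun h _ ih k => fl h fun h' => ih fun t => k (h' :: t)) l

/-- add a carry -/
def inc (a : List ℕ) : ℕ → List ℕ :=
  List.rec (fun c => iz c [] [c]) (fun h t ih c => iz c (h :: t) (Nat.xor h c :: ih (Nat.land h c))) a

/-- addition with a carry -/
def adc (a : List ℕ) : List ℕ → ℕ → List ℕ :=
  List.rec (fun b c => inc b c) (fun h t ih b c => List.rec (inc (h :: t) c)
    (fun h' t' _ => Nat.xor (Nat.xor h h') c ::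
      ih t' (Nat.lor (Nat.land h h') (Nat.land (Nat.xor h h') c))) b) a

/-- addition -/
def add (a b : List ℕ) : List ℕ := adc a b 0

/-- subtract a borrow -/
def dec (a : List ℕ) : ℕ → List ℕ :=
  List.rec (fun _ => []) (fun h t ih c => iz c (h :: t) (Nat.xor h c :: ih (an c h))) a

/-- subtraction with a borrow -/
def sbc (a : List ℕ) : List ℕ → ℕ → List ℕ :=
  List.rec (fun _ _ => []) (fun h t ih b c => List.rec (dec (h :: t) c)
    (fun h' t' _ => Nat.xor (Nat.xor h h') c ::
      ih t' (Nat.xor c (Nat.land (Nat.xor h h') (Nat.xor h' c)))) b) a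

/-- comparison with a constant -/
def gtc (a : List ℕ) : ℕ → ℕ → ℕ :=
  List.rec (fun K g => iz K g 0) (fun h _ ih K g =>
    ih (Nat.div K 2) (iz (Nat.mod K 2) (Nat.lor h g) (Nat.land h g))) a

/-- larger than a constant -/
def gt (a : List ℕ) (K : ℕ) : ℕ := gtc a K 0

/-- equality with a constant on the lanes of the last argument -/
def eqc (a : List ℕ) : ℕ → ℕ → ℕ :=
  List.rec (fun K g => iz K g 0) (fun h _ ih K g =>
    iz g 0 (ih (Nat.div K 2) (iz (Nat.mod K 2) (an g h) (Nat.land g h)))) a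

/-- equality of two numbers on the lanes of the last argument -/
def eqv (a : List ℕ) : List ℕ → ℕ → ℕ :=
  List.rec (fun b g => eqc b 0 g) (fun h t ih b g => List.rec (eqc (h :: t) 0 g)
    (fun h' t' _ => ih t' (an g (Nat.xor h h'))) b) a

/-- a constant on the lanes of `o` -/
def cst (o : ℕ) (f : ℕ) : ℕ → List ℕ :=
  Nat.rec (fun _ => []) (fun _ ih K => iz K [] (iz (Nat.mod K 2) 0 o :: fz (Nat.div K 2) ih)) f

/-- apply a function to all the entries -/
def mp {α β : Type} (f : α → β) (a : List α) : List β := List.rec [] (fun h _ ih => f h :: ih) a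

/-- restriction to the lanes of `g` -/
def msk (g : ℕ) (a : List ℕ) : List ℕ := iz g [] (mp (Nat.land g) a)

/-- disjunction of all the bits -/
def orp (a : List ℕ) : List ℕ → List ℕ :=
  List.rec (fun b => b) (fun h t ih b => List.rec (h :: t) (fun h' t' _ => Nat.lor h h' :: ih t') b) a

/-- the constant `K` on the lanes of `g`, and `a` on the others -/
def sel (g K : ℕ) (a : List ℕ) : List ℕ :=
  iz g a (orp (cst g 100 K) (mp (fun h => an h g) a))

/-- multiplication -/
def mul (a b : List ℕ) : List ℕ := List.rec [] (fun h _ ih => add (msk h a) (0 :: ih)) b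

/-- division by a power of two -/
def drp (n : ℕ) : List ℕ → List ℕ :=
  Nat.rec (fun a => a) (fun _ ih a => List.rec [] (fun _ t _ => ih t) a) n

/-- remove the leading zeros -/
def trim (a : List ℕ) : List ℕ :=
  List.rec [] (fun h _ ih => List.rec (iz h [] [h]) (fun h' t' _ => h :: h' :: t') ih) a

/-- rounded product -/
def mulu (o sh : ℕ) (a b : List ℕ) : List ℕ := fl (trim (inc (drp sh (mul a b)) o)) fun x => x

/-- table look up -/
def lk (o : ℕ) (a : List ℕ) (g : ℕ → ℕ) (n : ℕ) : ℕ → List ℕ :=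
  Nat.rec (fun _ => []) (fun _ ih v =>
    iz (eqc a v o) (fz (Nat.succ v) ih) (orp (cst (eqc a v o) 100 (g v)) (fz (Nat.succ v) ih))) n

/-- the value in the first lane -/
def v0 (a : List ℕ) : ℕ := List.rec 0 (fun h _ ih => Nat.add (Nat.mod h 2) (Nat.mul 2 ih)) a

/-- sum over the first `2 ^ n` lanes -/
def lanes (n : ℕ) : List ℕ → ℕ :=
  Nat.rec v0 (fun n ih a => fl (add a (mp (fun h => Nat.shiftRight h (Nat.pow 2 n)) a)) fun x =>
    ih (mp (fun h => Nat.mod h (Nat.pow 2 (Nat.pow 2 n))) x)) n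

/-- put two vectors side by side -/
def cat (n : ℕ) (a : List (List ℕ)) : List (List ℕ) → List (List ℕ) :=
  List.rec (fun _ => []) (fun h _ ih b => List.rec [] (fun h' t' _ =>
    orp h (mp (fun p => Nat.shiftLeft p n) h') :: ih t') b) a

/-- the lanes below `n` -/
def ones (n : ℕ) : ℕ := Nat.sub (Nat.pow 2 n) 1

/-- the lists with smallest entry zero, then the others -/
def gstep (i : ℕ) (G : ℕ → ℕ × List (List ℕ)) (s q : ℕ) : ℕ × List (List ℕ) :=
  Nat.rec ((G s).1, [] :: (G s).2) (fun q ih =>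
    fz (Nat.add s (Nat.mul (Nat.succ q) (Nat.succ i))) fun s' =>
      (Nat.add (G s').1 ih.1, cat (G s').1 ([] :: (G s').2) (mp (fun a => inc a (ones ih.1)) ih.2))) q

/-- all the sorted lists of length `i + 1` with sum `s` -/
def gen (i : ℕ) : ℕ → ℕ × List (List ℕ) :=
  Nat.rec (fun s => (1, [cst 1 8 s])) (fun i ih s => fz (Nat.mod s (Nat.succ (Nat.succ i))) fun s0 =>
    gstep (Nat.succ i) ih s0 (Nat.div s (Nat.succ (Nat.succ i)))) i

/-- the lanes with a subsum in the forbidden range -/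
def dead (k r : ℕ) (cs : List (List ℕ)) : List ℕ → ℕ → ℕ :=
  List.rec (fun a n => fz (Nat.sub (Nat.add 47 (Nat.min (Nat.sub k n) r)) r) fun A =>
      fz (Nat.sub 52 (Nat.min n r)) fun B => il B A 0 (an (gt a A) (gt a B)))
    (fun c _ ih a n => Nat.lor (ih (add a c) (Nat.succ n)) (ih a n)) cs

/-- parity of the initial segments -/
def pxor (M : ℕ) (n : ℕ) : ℕ → ℕ :=
  Nat.rec (fun x => x) (fun j ih x => ih (Nat.land M (Nat.xor x (Nat.shiftLeft x (Nat.pow 2 j))))) n

/-- move the lanes of `mv` down by `s` and keep those of `kp` -/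
def mov (kp mv s : ℕ) (p : ℕ) : ℕ := Nat.lor (Nat.land p kp) (Nat.shiftRight (Nat.land p mv) s)

/-- one checked stage of the compression -/
def stage {α : Type} (m mv0 s : ℕ) (cs : List (List ℕ)) (k : ℕ → List (List ℕ) → α) : α :=
  fz (Nat.land m mv0) fun mv => fz (an m mv) fun kp =>
    iz mv (k m cs) (iz (Nat.lor (Nat.mod mv (Nat.pow 2 s)) (Nat.land kp (Nat.shiftRight mv s)))
      (fz (Nat.lor kp (Nat.shiftRight mv s)) fun m' => fll (mp (mp (mov kp mv s)) cs) (k m')) (k m cs))

/-- compression of the lanes of `m` -/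
def cpr {α : Type} (M lg : ℕ) (k : ℕ → List (List ℕ) → α) (n : ℕ) :
    ℕ → ℕ → ℕ → List (List ℕ) → α :=
  Nat.rec (fun _ _ m cs => k m cs) (fun _ ih s mk m cs =>
    fz (pxor M lg mk) fun q => stage m q s cs fun m' cs' =>
      fz (an mk q) fun mk' => fz (Nat.mul 2 s) fun s' => ih s' mk' m' cs') n

/-- sum of a list of numbers -/
def sl (l : List ℕ) : ℕ := List.rec 0 (fun h _ ih => Nat.add h ih) l

/-- length of a list -/
def ln (l : List ℕ) : ℕ := List.rec 0 (fun _ _ ih => Nat.succ ih) l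

/-- the sum of the entries with the multiplicities given by the digits in base four -/
def sumM (cs : List (List ℕ)) : ℕ → List ℕ :=
  List.rec (fun _ => []) (fun c _ ih m => iz m [] (iz (Nat.mod m 4) (fz (Nat.div m 4) ih)
    (il (Nat.mod m 4) 1 (add c (fz (Nat.div m 4) ih)) (add c (add c (fz (Nat.div m 4) ih)))))) cs

/-- the sum of the digits -/
def cntM (cs : List (List ℕ)) : ℕ → ℕ :=
  List.rec (fun _ => 0) (fun _ _ ih m => Nat.add (Nat.mod m 4) (fz (Nat.div m 4) ih)) cs

/-- the three conditions -/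
def Lm (o r : ℕ) (cs : List (List ℕ)) (m : ℕ) : ℕ :=
  an o (gt (sumM cs m) (Nat.sub 52 (Nat.min (cntM cs m) r)))

/-- sum and length bounded by a constant -/
def Qm (o K : ℕ) (cs : List (List ℕ)) (m : ℕ) : ℕ := an o (gt (sumM cs m) (Nat.sub K (cntM cs m)))

/-- evaluate a condition on a list -/
def ev (X : ℕ → ℕ) (s : List ℕ) : ℕ := fz (sl s) X

/-- evaluate a condition on a list and a base -/
def ev2 (X : ℕ → ℕ) (s : List ℕ) (m : ℕ) : ℕ := fz (Nat.add (sl s) m) X

/-- combine over the splittings -/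
def spl {α : Type} (op : α → α → α) (l : List ℕ) : (List ℕ → List ℕ → α) → α :=
  List.rec (fun f => f [] []) (fun a _ ih f =>
    op (ih fun p q => f (a :: p) q) (ih fun p q => f p (a :: q))) l

/-- a bit as a number -/
def bit (g : ℕ) : List ℕ := iz g [] [g]

section rule

variable (o : ℕ) (L Q H : ℕ → ℕ)

def adm (D : List ℕ) : ℕ := spl Nat.lor D fun p q => az (ev Q p) (ev L q)

def safe (D : List ℕ) (e : ℕ) : ℕ :=
  spl Nat.lor D fun p q => az (az (ev Q p) (ev L q)) (Nat.lor (ev2 H q e) (ev2 Q p e))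

def fix (t : List ℕ) (x : ℕ) : ℕ := spl Nat.lor t fun p _ => an (ev Q p) (ev2 L p x)

def step (a : ℕ) (t : List ℕ) : ℕ :=
  List.rec (ev L [a]) (fun b t _ => List.rec (ev Q [a]) (fun c t _ => List.rec 0 (fun d t _ =>
    List.rec (az (adm L Q [a, b, c, d]) (Nat.lor (fix L Q [a, b, c] d) (safe L Q H [a, b, c, d] a)))
      (fun e t _ => List.rec (adm L Q [a, b, c, d, e]) (fun f t _ =>
        iz (Nat.mod (ln t) 2) (ev L (a :: b :: c :: d :: e :: f :: t)) (ev Q [a])) t) t) t) t) t

def step' (a : ℕ) (t : List ℕ) : ℕ := iz (Nat.xor (ln t) 2) (adm L Q (a :: t)) (step L Q H a t)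

def chi (D : List ℕ) : ℕ := List.rec o (fun a t ih => az ih (step' L Q H a t)) D

def admL (s : List ℕ) (m : ℕ) : ℕ := spl Nat.lor s fun p _ => an (ev Q p) (ev2 L p m)

def fixL (s : List ℕ) (m : ℕ) : ℕ := spl Nat.lor s fun p q => az (ev Q p) (ev2 L q m)

def wt (g e : ℕ) (t ρ : List ℕ) : ℕ :=
  List.rec 0 (fun c t _ => List.rec (az (an (az g (ev Q [c])) (ev Q [e, c])) (ev2 L ρ c))
    (fun b t _ => List.rec 0 (fun a t _ => List.rec
      (fz (sl ρ) fun m => fz (Nat.add m e) fun m' =>
        an (az (az (az (az g (ev Q [a])) (admL L Q [b, a] (Nat.add m' c))) (admL L Q [c, b, a] m'))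
          (fixL L Q [c, b, a] m')) (admL L Q [e, c, b, a] m))
      (fun _ _ _ => 0) t) t) t) t

def w (E : List ℕ) : List ℕ :=
  List.rec [] (fun e E' _ => fz (an o (ev L (e :: E'))) fun g =>
    iz g [] (spl add E' fun t ρ => bit (wt L Q g e t ρ))) E

/-- number of the negative terms of the upper bound sieve -/
def ubN (E F : List ℕ) : List ℕ :=
  List.rec [] (fun q _ ih => add (bit (safe L Q H (q :: E) q)) ih) F

/-- number of the positive terms of the upper bound sieve, except the first -/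
def ubP (E F : List ℕ) : List ℕ :=
  List.rec [] (fun q' F' ih => add ih (List.rec [] (fun q _ ih' =>
    add (bit (az (safe L Q H (q :: E) q) (adm L Q (q' :: q :: E)))) ih') F')) F

def wub (E F : List ℕ) : List ℕ :=
  List.rec [] (fun h t _ => il (ln E) 4
    (mul (sbc (inc (ubP L Q H E F) o) (ubN L Q H E F) 0) (h :: t)) (h :: t)) (w o L Q E)

def loss (l : List ℕ) : List ℕ :=
  trim (sbc (add (spl add l fun D _ => iz (Nat.mod (ln D) 2) [] (bit (chi o L Q H D)))
      (spl add l (wub o L Q H)))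
    (spl add l fun D _ => iz (Nat.mod (ln D) 2) (bit (chi o L Q H D)) []) 0)

end rule

/-- disjunction over the sublists of length `n` -/
def orN (l : List ℕ) : ℕ → (List ℕ → ℕ) → ℕ :=
  List.rec (fun n f => iz n (f []) 0) (fun a t ih n f => iz n (f [])
    (il n (ln t) (Nat.lor (fz (Nat.pred n) fun n' => ih n' fun p => f (a :: p)) (ih n f))
      (fz (Nat.pred n) fun n' => ih n' fun p => f (a :: p)))) l

/-- long, with a large sum -/
def Am (L : ℕ → ℕ) (cs : List (List ℕ)) (K m : ℕ) : ℕ :=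
  az (az (L m) (gt (sumM cs m) 43)) (gt (sumM cs m) K)

/-- base of the Kronecker substitution -/
def Bs : ℕ := Nat.pow 2 96

/-- the generating function of one coordinate -/
def G1 : ℕ := Nat.div (Nat.sub (Nat.pow Bs 256) 1) (Nat.sub Bs 1)

/-- the number `cT` -/
def ct (n n' r s : ℕ) : ℕ :=
  fz (Nat.sub (Nat.mul 256 r) (Nat.add 256 (Nat.add n n'))) fun lo =>
    Nat.mod (Nat.mod (Nat.shiftRight
      (Nat.mul (Nat.mod (Nat.pow G1 n) (Nat.pow 2 (Nat.mul 24576 s))) (Nat.pow G1 n'))
      (Nat.mul 96 lo)) (Nat.pow 2 (Nat.mul 96 (Nat.sub (Nat.add (Nat.mul 256 r) 2) lo))))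
      (Nat.sub Bs 1)

/-- improve the bound for the volume -/
def upd (A T : ℕ) (V : List ℕ) : List ℕ := fl (sel (az A (gt V T)) T V) fun x => x

/-- bound for the volume in units of `2 ^ sh` -/
def volV (o k r sh : ℕ) (L : ℕ → ℕ) (cs : List (List ℕ)) (l : List ℕ) (n : ℕ) : List ℕ :=
  Nat.rec (cst o 100 (Nat.succ (Nat.shiftRight (ct 0 (Nat.pred k) r 48) sh))) (fun n V =>
    Nat.rec V (fun s V' => fz (orN l (Nat.succ n) (ev (Am L cs (Nat.sub 46 s)))) fun A => iz A V'
      (upd A (Nat.succ (Nat.shiftRight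
        (ct (Nat.succ n) (Nat.sub k (Nat.add n 2)) r (Nat.succ s)) sh)) V')) (Nat.min (Nat.succ n) 4)) n

/-- rounded reciprocal -/
def rcp (v : ℕ) : ℕ := Nat.succ (Nat.div 1048576 v)

/-- product of the reciprocals of the coordinates of the extreme point -/
def pendV (o sh r : ℕ) (cs : List (List ℕ)) : List ℕ → ℕ → List ℕ :=
  List.rec (fun P _ => P) (fun c _ ih P n => ih
    (mulu o sh P (lk o c (fun v => rcp (il n r (Nat.succ v) v)) 44 4)) (Nat.pred n)) cs

/-- product of the factorials of the multiplicities -/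
def mfV (o : ℕ) (cs : List (List ℕ)) : List ℕ :=
  List.rec [o] (fun c t ih => fl (trim (mul ih
    (List.rec [o] (fun c' _ ih' => inc ih' (eqv c c' o)) t))) fun x => x) cs

/-- reciprocal of that product -/
def mfR (o : ℕ) (M : List ℕ) (keys : List ℕ) : List ℕ :=
  List.rec (cst o 100 1048576) (fun K _ ih =>
    fl (sel (gt M (Nat.pred K)) (rcp K) ih) fun x => x) keys

/-- the powers of four -/
def pw (n : ℕ) : ℕ → List ℕ := Nat.rec (fun _ => []) (fun _ ih v => v :: fz (Nat.mul 4 v) ih) n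

/-- entry of a table -/
def nth (l : List ℕ) : ℕ → ℕ :=
  List.rec (fun _ => 0) (fun h _ ih n => iz n h (fz (Nat.pred n) ih)) l

/-- the loss of the types with at least ten parts -/
def mark (o W : ℕ) (tab : List (List ℕ)) (cs : List (List ℕ)) : List ℕ :=
  List.rec [] (fun c0 _ _ => List.rec (cst o 100 W) (fun c _ ih => add ih
    (List.rec (fun _ => []) (fun row _ ih' a => fz (eqc c0 a o) fun g =>
      iz g (ih' (Nat.succ a)) (orp (lk g c (nth row) 44 4) (ih' (Nat.succ a)))) tab 4)) cs) cs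

def keys : List ℕ := [3628800, 362880, 80640, 40320, 30240, 17280, 14400, 10080, 5760, 5040, 4320,
  2880, 1440, 960, 864, 720, 576, 480, 432, 288, 240, 216, 192, 144, 120, 96, 72, 48, 36, 32, 24,
  16, 12, 8, 6, 4, 2]

/-- upper bounds for the loss of a marked block -/
def tab : List (List ℕ) :=
  [[0, 0, 0, 0, 0, 0, 0, 0, 18346, 20385, 0, 0, 4452, 4794, 5136, 0, 727, 770, 813, 856, 91, 95,
  99, 103, 117, 10, 10, 11, 12, 12, 1, 1, 1, 1, 1, 1, 1, 1, 1, 1, 1, 1, 1, 1, 1, 0, 0, 0], [0,
  0, 0, 0, 0, 0, 0, 0, 18346, 36994, 40694, 44393, 4452, 15788, 16915, 18043, 19898, 24898,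
  4856, 5111, 5457, 6647, 6949, 7251, 1173, 1397, 1451, 1504, 1559, 1640, 252, 260, 268, 280,
  288, 296, 40, 41, 43, 44, 45, 46, 6, 6, 6, 6, 6, 6], [0, 0, 0, 0, 0, 0, 0, 0, 18346, 36994,
  56117, 61219, 70771, 87209, 32167, 34312, 37183, 43200, 53477, 56292, 59197, 15768, 19286,
  20124, 20972, 21987, 23603, 24477, 5918, 6150, 6528, 6739, 6950, 7164, 7408, 1559, 1603, 1646,
  1695, 1739, 1782, 1826, 335, 343, 351, 359, 366, 374], [0, 0, 0, 0, 0, 0, 0, 0, 18346, 36994,
  56117, 75779, 86545, 104196, 126890, 153612, 56586, 63745, 75164, 91138, 95785, 101276,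
  108681, 118852, 41667, 43510, 45954, 49559, 51330, 53128, 55072, 57394, 17244, 17770, 18326,
  18982, 19510, 20037, 20570, 21126, 5449, 5581, 5714, 5847, 5980, 6113, 6246, 6379], [0, 0, 0,
  0, 0, 0, 0, 0, 18346, 36994, 56117, 75779, 100449, 119170, 142933, 170724, 202646, 218396,
  98103, 115284, 137128, 144587, 153961, 166100, 181626, 189067, 197109, 80505, 86948, 89974,
  93147, 96697, 100932, 103994, 107086, 110279, 38492, 39533, 40579, 41647, 42776, 43819, 44863,
  45906, 46949, 13995, 14300, 14604], [0, 0, 0, 0, 0, 0, 0, 0, 18346, 36994, 56117, 75779,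
  100449, 132558, 157278, 186025, 218903, 257914, 280120, 306881, 163149, 191566, 203075,
  217350, 235011, 256648, 267289, 279092, 292627, 308446, 141202, 146302, 152087, 158909,
  163616, 168424, 173452, 178868, 183581, 188316, 73033, 75022, 76809, 78595, 80381, 82167,
  83954, 85740], [0, 0, 0, 0, 0, 0, 0, 0, 18346, 36994, 56117, 75779, 100449, 132558, 170250,
  199862, 233604, 273480, 320306, 349183, 382721, 421594, 255032, 271566, 291486, 315382,
  343995, 358640, 375016, 393676, 415208, 429148, 443772, 222026, 232132, 238897, 245883,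
  253256, 261221, 267947, 274733, 281642, 288758, 295473, 125004, 127782, 130560, 133337]]

/-- the sum over the lanes -/
def fin (k r sh shv nv lg : ℕ) (X : ℕ → (ℕ → ℕ) → List (List ℕ) → List ℕ → List ℕ) (o : ℕ)
    (cs0 : List (List ℕ)) : ℕ :=
  fll (mp trim cs0) fun cs => fl (pw k 1) fun l => lanes lg
    (mul (mulu o 20 (mulu o 20 (pendV o sh r cs (cst o 100 1048576) k) (mfR o (mfV o cs) keys))
      (volV o k r shv (Lm o r cs) cs l nv)) (X o (Lm o r cs) cs l))

/-- the lanes that survive -/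
def alive (k r M : ℕ) (cs : List (List ℕ)) : ℕ :=
  an (an M (List.rec 0 (fun c _ ih => Nat.lor (gt c 47) ih) cs))
    (List.rec 0 (fun _ t _ => dead k r t [] 0) cs)

/-- the whole computation -/
def run (k r sh shv nv : ℕ) (X : ℕ → (ℕ → ℕ) → List (List ℕ) → List ℕ → List ℕ) : ℕ :=
  fz (gen (Nat.pred k) (Nat.sub (Nat.sub 100 r) (Nat.mul 4 k))).1 fun N => fz (ones N) fun M =>
    fll (mp (add (cst M 8 4)) (gen (Nat.pred k) (Nat.sub (Nat.sub 100 r) (Nat.mul 4 k))).2) fun cs =>
      fz (alive k r M cs) fun m => fz (Nat.succ (Nat.log2 N)) fun lg =>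
        cpr M lg (fin k r sh shv nv lg X) lg 1 (Nat.land M (Nat.shiftLeft (Nat.xor M m) 1)) m cs

/-- exact loss -/
def XE (o : ℕ) (L : ℕ → ℕ) (cs : List (List ℕ)) (l : List ℕ) : List ℕ :=
  loss o L (Qm o 26 cs) (Qm o 52 cs) l

/-- constant loss -/
def XC (W o : ℕ) (_ : ℕ → ℕ) (_ : List (List ℕ)) (_ : List ℕ) : List ℕ := cst o 100 W

/-- loss with the marked block -/
def XM (W : ℕ) (tab : List (List ℕ)) (o : ℕ) (_ : ℕ → ℕ) (cs : List (List ℕ)) (_ : List ℕ) :
    List ℕ := mark o W tab cs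

/-- the value in the lane `i` -/
def val (a : List ℕ) (i : ℕ) : ℕ := a.foldr (fun h r => (h.testBit i).toNat + 2 * r) 0

/-- the list of the values in the lane `i` -/
def row (cs : List (List ℕ)) (i : ℕ) : List ℕ := cs.map (val · i)

end

end Pool.Agent.Work.MP_82fd4a_nt.BS
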