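import Pool.Agent.Work.MP_82fd4a_nt.NumD

/-! Bit sliced arithmetic: the inequality that is checked by computation. -/

set_option autoImplicit false

namespace Pool.Agent.Work.MP_82fd4a_nt.BS

/-- the result of the computation is at most `v` in units of `10 ^ (-8)` -/
def Chk (k r sh shv nv : ℕ) (X : ℕ → (ℕ → ℕ) → List (List ℕ) → List ℕ → List ℕ) (v : ℕ) : Prop :=
  run k r sh shv nv X * 2 ^ (shv + sh * k) * 10 ^ 8 ≤ v * (2 ^ (20 * k) * 256 ^ (k - 1))

instance (k r sh shv nv : ℕ) (X : ℕ → (ℕ → ℕ) → List (List ℕ) → List ℕ → List ℕ) (v : ℕ) :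
    Decidable (Chk k r sh shv nv X v) := Nat.decLe _ _

end Pool.Agent.Work.MP_82fd4a_nt.BS
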