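import Mathlib
import Pool.Agent.Work.MP_82fd4a_nt.NumD

/-! Bit sliced arithmetic: the meaning of the basic programs. -/

set_option autoImplicit false

namespace Pool.Agent.Work.MP_82fd4a_nt.BS

theorem fz_eq {α : Type} (v : ℕ) (k : ℕ → α) : fz v k = k v := by cases v <;> rfl

theorem iz_eq {α : Type} (v : ℕ) (a b : α) : iz v a b = if v = 0 then a else b := by
  cases v <;> rfl

theorem il_eq {α : Type} (u v : ℕ) (a b : α) : il u v a b = if u ≤ v then a else b := by
  unfold il
  by_cases h : u ≤ v
  · rw [if_pos h, Nat.ble_eq_true_of_le h]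
  · rw [if_neg h, Bool.eq_false_iff.2 fun h' => h (Nat.le_of_ble_eq_true h')]

theorem fl_eq {α : Type} (l : List ℕ) (k : List ℕ → α) : fl l k = k l := by
  induction l generalizing k with
  | nil => rfl
  | cons h t ih => exact (fz_eq h fun h' => fl t fun t => k (h' :: t)).trans (ih _)

theorem fll_eq {α : Type} (l : List (List ℕ)) (k : List (List ℕ) → α) : fll l k = k l := by
  induction l generalizing k with
  | nil => rfl
  | cons h t ih => exact (fl_eq h fun h' => fll t fun t => k (h' :: t)).trans (ih _)

theorem mp_eq {α β : Type} (f : α → β) (a : List α) : mp f a = a.map f := by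
  induction a with
  | nil => rfl
  | cons h t ih => exact congrArg (f h :: ·) ih

theorem sl_eq (l : List ℕ) : sl l = l.sum := by
  induction l with
  | nil => rfl
  | cons h t ih => exact congrArg (h + ·) ih

theorem ln_eq (l : List ℕ) : ln l = l.length := by
  induction l with
  | nil => rfl
  | cons h t ih => exact congrArg Nat.succ ih

theorem val_nil (i : ℕ) : val [] i = 0 := rfl

theorem val_cons (h : ℕ) (t : List ℕ) (i : ℕ) :
    val (h :: t) i = (h.testBit i).toNat + 2 * val t i := rfl

theorem tb_land (a b i : ℕ) : (Nat.land a b).testBit i = (a.testBit i && b.testBit i) :=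
  Nat.testBit_and a b i

theorem tb_lor (a b i : ℕ) : (Nat.lor a b).testBit i = (a.testBit i || b.testBit i) :=
  Nat.testBit_or a b i

theorem tb_xor (a b i : ℕ) : (Nat.xor a b).testBit i = (a.testBit i ^^ b.testBit i) :=
  Nat.testBit_xor a b i

theorem tb_az (a b i : ℕ) : (az a b).testBit i = (a.testBit i && b.testBit i) := by
  unfold az
  rw [iz_eq]
  split_ifs with h
  · simp [h]
  · exact tb_land a b i

theorem tb_an (a b i : ℕ) : (an a b).testBit i = (a.testBit i && !b.testBit i) := by
  unfold an
  rw [iz_eq]
  split_ifs with h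
  · simp [h]
  · rw [tb_xor, tb_land]
    cases a.testBit i <;> cases b.testBit i <;> rfl

theorem val_bit (g i : ℕ) : val (bit g) i = (g.testBit i).toNat := by
  unfold bit
  rw [iz_eq]
  split_ifs with h
  · simp [h, val_nil]
  · simp [val_cons, val_nil]

theorem s1_val_map {f : ℕ → ℕ} {i j : ℕ} (h : ∀ x, (f x).testBit i = x.testBit j) (a : List ℕ) :
    val (mp f a) i = val a j := by
  rw [mp_eq]
  induction a with
  | nil => rfl
  | cons x t ih => rw [List.map_cons, val_cons, val_cons, h, ih]

theorem s1_val_map0 {f : ℕ → ℕ} {i : ℕ} (h : ∀ x, (f x).testBit i = false) (a : List ℕ) :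
    val (mp f a) i = 0 := by
  rw [mp_eq]
  induction a with
  | nil => rfl
  | cons x t ih => rw [List.map_cons, val_cons, h, ih]; rfl

theorem val_inc (a : List ℕ) (c i : ℕ) : val (inc a c) i = val a i + (c.testBit i).toNat := by
  induction a generalizing c with
  | nil => exact (val_bit c i).trans (Nat.zero_add _).symm
  | cons h t ih =>
    have e : inc (h :: t) c = iz c (h :: t) (Nat.xor h c :: inc t (Nat.land h c)) := rfl
    rw [e, iz_eq]
    split_ifs with hc
    · simp [hc]
    · rw [val_cons, val_cons, ih, tb_xor, tb_land]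
      cases h.testBit i <;> cases c.testBit i <;> simp <;> omega

theorem s1_val_adc (a b : List ℕ) (c i : ℕ) :
    val (adc a b c) i = val a i + val b i + (c.testBit i).toNat := by
  induction a generalizing b c with
  | nil =>
    have e : adc [] b c = inc b c := rfl
    rw [e, val_inc, val_nil, Nat.zero_add]
  | cons h t ih =>
    cases b with
    | nil =>
      have e : adc (h :: t) [] c = inc (h :: t) c := rfl
      rw [e, val_inc, val_nil, Nat.add_zero]
    | cons h' t' =>
      have e : adc (h :: t) (h' :: t') c = Nat.xor (Nat.xor h h') c ::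
        adc t t' (Nat.lor (Nat.land h h') (Nat.land (Nat.xor h h') c)) := rfl
      rw [e, val_cons, val_cons, val_cons, ih, tb_lor, tb_land, tb_land, tb_xor, tb_xor]
      cases h.testBit i <;> cases h'.testBit i <;> cases c.testBit i <;> simp <;> omega

theorem val_add (a b : List ℕ) (i : ℕ) : val (add a b) i = val a i + val b i := by
  unfold add
  rw [s1_val_adc]
  simp

theorem s1_val_dec (a : List ℕ) (c i : ℕ) : val a i ≤ val (dec a c) i + (c.testBit i).toNat := by
  induction a generalizing c with
  | nil => exact Nat.zero_le _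
  | cons h t ih =>
    have e : dec (h :: t) c = iz c (h :: t) (Nat.xor h c :: dec t (an c h)) := rfl
    rw [e, iz_eq]
    split_ifs with hc
    · exact Nat.le_add_right _ _
    · have := ih (an c h)
      rw [val_cons, val_cons, tb_xor]
      rw [tb_an] at this
      revert this
      cases h.testBit i <;> cases c.testBit i <;> simp <;> omega

theorem s1_val_sbc (a b : List ℕ) (c i : ℕ) :
    val a i ≤ val (sbc a b c) i + val b i + (c.testBit i).toNat := by
  induction a generalizing b c with
  | nil => exact Nat.zero_le _
  | cons h t ih =>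
    cases b with
    | nil => exact s1_val_dec (h :: t) c i
    | cons h' t' =>
      have e : sbc (h :: t) (h' :: t') c = Nat.xor (Nat.xor h h') c ::
        sbc t t' (Nat.xor c (Nat.land (Nat.xor h h') (Nat.xor h' c))) := rfl
      have := ih t' (Nat.xor c (Nat.land (Nat.xor h h') (Nat.xor h' c)))
      rw [tb_xor, tb_land, tb_xor, tb_xor] at this
      rw [e, val_cons, val_cons, val_cons, tb_xor, tb_xor]
      revert this
      cases h.testBit i <;> cases h'.testBit i <;> cases c.testBit i <;> simp <;> omega

theorem val_sbc (a b : List ℕ) (i : ℕ) : val a i ≤ val (sbc a b 0) i + val b i := by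
  simpa using s1_val_sbc a b 0 i

theorem s1_tb_gtc (a : List ℕ) (K g i : ℕ) :
    (gtc a K g).testBit i = true ↔ K < val a i ∨ (val a i = K ∧ g.testBit i = true) := by
  induction a generalizing K g with
  | nil =>
    have e : gtc [] K g = iz K g 0 := rfl
    rw [e, iz_eq, val_nil]
    split_ifs with h
    · simp [h]
    · simp [Ne.symm h]
  | cons h t ih =>
    have e : gtc (h :: t) K g = gtc t (K / 2) (iz (K % 2) (Nat.lor h g) (Nat.land h g)) := rfl
    rw [e, ih, iz_eq, val_cons]
    split_ifs with hK
    · rw [tb_lor]
      cases h.testBit i <;> cases g.testBit i <;> simp <;> omega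
    · rw [tb_land]
      cases h.testBit i <;> cases g.testBit i <;> simp <;> omega

theorem tb_gt (a : List ℕ) (K i : ℕ) : (gt a K).testBit i = decide (K < val a i) := by
  rw [Bool.eq_iff_iff, decide_eq_true_iff]
  unfold gt
  rw [s1_tb_gtc]
  simp

theorem tb_eqc (a : List ℕ) (K g i : ℕ) :
    (eqc a K g).testBit i = (g.testBit i && decide (val a i = K)) := by
  induction a generalizing K g with
  | nil =>
    have e : eqc [] K g = iz K g 0 := rfl
    rw [e, iz_eq, val_nil]
    split_ifs with h
    · simp [h]
    · simp [Ne.symm h]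
  | cons h t ih =>
    have e : eqc (h :: t) K g =
      iz g 0 (eqc t (K / 2) (iz (K % 2) (an g h) (Nat.land g h))) := rfl
    rw [e, iz_eq, iz_eq]
    split_ifs with hg hK
    · simp [hg]
    · rw [ih, tb_an, val_cons, Bool.eq_iff_iff]
      cases h.testBit i <;> cases g.testBit i <;> simp <;> omega
    · rw [ih, tb_land, val_cons, Bool.eq_iff_iff]
      cases h.testBit i <;> cases g.testBit i <;> simp <;> omega

theorem tb_eqv (a b : List ℕ) (g i : ℕ) :
    (eqv a b g).testBit i = (g.testBit i && decide (val a i = val b i)) := by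
  induction a generalizing b g with
  | nil =>
    have e : eqv [] b g = eqc b 0 g := rfl
    rw [e, tb_eqc, val_nil]
    simp only [eq_comm]
  | cons h t ih =>
    cases b with
    | nil => exact tb_eqc (h :: t) 0 g i
    | cons h' t' =>
      have e : eqv (h :: t) (h' :: t') g = eqv t t' (an g (Nat.xor h h')) := rfl
      rw [e, ih, tb_an, tb_xor, val_cons, val_cons, Bool.eq_iff_iff]
      cases h.testBit i <;> cases h'.testBit i <;> cases g.testBit i <;> simp <;> omega

theorem val_cst {f K : ℕ} (h : K < 2 ^ f) (o i : ℕ) :
    val (cst o f K) i = if o.testBit i then K else 0 := by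
  induction f generalizing K with
  | zero =>
    have : K = 0 := by omega
    subst this
    rw [ite_self]
    rfl
  | succ f ih =>
    have e : cst o (f + 1) K = iz K [] (iz (K % 2) 0 o :: fz (K / 2) (cst o f)) := rfl
    rw [e, iz_eq, iz_eq, fz_eq]
    have h2 : K / 2 < 2 ^ f := by
      rw [pow_succ] at h
      omega
    by_cases hK : K = 0
    · simp [hK, val_nil]
    · rw [if_neg hK, val_cons, ih h2]
      by_cases hK2 : K % 2 = 0
      · rw [if_pos hK2]
        cases o.testBit i <;> simp
        omega
      · rw [if_neg hK2]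
        cases o.testBit i <;> simp
        omega

theorem s1_orp_cons (h h' : ℕ) (t t' : List ℕ) :
    orp (h :: t) (h' :: t') = Nat.lor h h' :: orp t t' := rfl

theorem le_val_orp (a b : List ℕ) (i : ℕ) :
    val a i ≤ val (orp a b) i ∧ val b i ≤ val (orp a b) i := by
  induction a generalizing b with
  | nil => exact ⟨Nat.zero_le _, le_rfl⟩
  | cons h t ih =>
    cases b with
    | nil => exact ⟨le_rfl, Nat.zero_le _⟩
    | cons h' t' =>
      have := ih t'
      rw [s1_orp_cons, val_cons, val_cons, val_cons, tb_lor]
      cases h.testBit i <;> cases h'.testBit i <;> simp <;> omega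

theorem val_orp (a b : List ℕ) {i : ℕ} (h : val a i = 0 ∨ val b i = 0) :
    val (orp a b) i = val a i + val b i := by
  induction a generalizing b with
  | nil => exact (Nat.zero_add _).symm
  | cons x t ih =>
    cases b with
    | nil => rfl
    | cons x' t' =>
      rw [val_cons, val_cons] at h
      have := ih t' (by omega)
      rw [s1_orp_cons, val_cons, val_cons, val_cons, tb_lor, this]
      revert h
      cases x.testBit i <;> cases x'.testBit i <;> simp <;> omega

theorem val_sel {K : ℕ} (h : K < 2 ^ 100) (g : ℕ) (a : List ℕ) (i : ℕ) :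
    val (sel g K a) i = if g.testBit i then K else val a i := by
  unfold sel
  rw [iz_eq]
  by_cases hg : g = 0
  · simp [hg]
  rw [if_neg hg]
  have h1 := val_cst h g i
  cases hb : g.testBit i with
  | true =>
    have h2 : val (mp (fun h => an h g) a) i = 0 :=
      s1_val_map0 (fun x => by rw [tb_an, hb]; simp) a
    rw [val_orp _ _ (Or.inr h2), h1, h2, hb]
    simp
  | false =>
    have h2 : val (mp (fun h => an h g) a) i = val a i :=
      s1_val_map (fun x => by rw [tb_an, hb]; simp) a
    rw [hb] at h1
    rw [val_orp _ _ (Or.inl h1), h1, h2]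
    simp

theorem s1_val_msk (g : ℕ) (a : List ℕ) (i : ℕ) :
    val (msk g a) i = val a i * (g.testBit i).toNat := by
  unfold msk
  rw [iz_eq]
  split_ifs with hg
  · simp [hg, val_nil]
  · cases hb : g.testBit i with
    | true =>
      rw [s1_val_map (j := i) (fun x => by rw [tb_land, hb]; simp) a]
      simp
    | false =>
      rw [s1_val_map0 (fun x => by rw [tb_land, hb]; simp) a]
      simp

theorem val_mul (a b : List ℕ) (i : ℕ) : val (mul a b) i = val a i * val b i := by
  induction b with
  | nil => rfl
  | cons h t ih =>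
    have e : mul a (h :: t) = add (msk h a) (0 :: mul a t) := rfl
    rw [e, val_add, s1_val_msk, val_cons, val_cons, ih, Nat.zero_testBit]
    simp only [Bool.toNat_false]
    ring

theorem val_trim (a : List ℕ) (i : ℕ) : val (trim a) i = val a i := by
  induction a with
  | nil => rfl
  | cons h t ih =>
    have e : trim (h :: t) =
      List.rec (iz h [] [h]) (fun h' t' _ => h :: h' :: t') (trim t) := rfl
    rw [e, val_cons, ← ih]
    cases trim t with
    | nil => exact val_bit h i
    | cons h' t' => rfl

theorem s1_val_drp (n : ℕ) (a : List ℕ) (i : ℕ) : val (drp n a) i = val a i / 2 ^ n := by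
  induction n generalizing a with
  | zero => exact (Nat.div_one _).symm
  | succ n ih =>
    cases a with
    | nil => exact (Nat.zero_div _).symm
    | cons h t =>
      have e : drp (n + 1) (h :: t) = drp n t := rfl
      rw [e, ih, val_cons, pow_succ', ← Nat.div_div_eq_div_mul]
      congr 1
      cases h.testBit i <;> simp <;> omega

theorem val_mulu {o i : ℕ} (ho : o.testBit i = true) (sh : ℕ) (a b : List ℕ) :
    val a i * val b i ≤ 2 ^ sh * val (mulu o sh a b) i := by
  unfold mulu
  rw [fl_eq, val_trim, val_inc, s1_val_drp, val_mul, ho]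
  exact (Nat.lt_mul_div_succ _ (by positivity)).le

theorem val_lk {o i : ℕ} (ho : o.testBit i = true) (a : List ℕ) (g : ℕ → ℕ) {n v : ℕ}
    (h1 : v ≤ val a i) (h2 : val a i < v + n) (hg : g (val a i) < 2 ^ 100) :
    g (val a i) ≤ val (lk o a g n v) i := by
  induction n generalizing v with
  | zero => omega
  | succ n ih =>
    have e : lk o a g (n + 1) v = iz (eqc a v o) (fz (v + 1) (lk o a g n))
      (orp (cst (eqc a v o) 100 (g v)) (fz (v + 1) (lk o a g n))) := rfl
    rw [e, iz_eq, fz_eq]
    by_cases hv : val a i = v
    · have hb : (eqc a v o).testBit i = true := by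
        rw [tb_eqc, ho, hv]
        simp
      have h0 : eqc a v o ≠ 0 := by
        intro h0
        rw [h0] at hb
        simp at hb
      rw [if_neg h0]
      refine le_trans (le_of_eq ?_) (le_val_orp _ _ i).1
      rw [hv] at hg
      rw [val_cst hg, hb, hv]
      simp
    · have := ih (v := v + 1) (by omega) (by omega)
      split_ifs
      · exact this
      · exact this.trans (le_val_orp _ _ i).2

theorem s1_v0 (a : List ℕ) : v0 a = val a 0 := by
  induction a with
  | nil => rfl
  | cons h t ih =>
    have e : v0 (h :: t) = h % 2 + 2 * v0 t := rfl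
    rw [e, ih, val_cons, Nat.toNat_testBit]
    simp

theorem lanes_eq (n : ℕ) (a : List ℕ) : lanes n a = ∑ i ∈ Finset.range (2 ^ n), val a i := by
  induction n generalizing a with
  | zero =>
    have e : lanes 0 a = v0 a := rfl
    rw [e, s1_v0]
    simp
  | succ n ih =>
    have e : lanes (n + 1) a = fl (add a (mp (fun h => h >>> (2 ^ n)) a)) fun x =>
      lanes n (mp (fun h => h % 2 ^ (2 ^ n)) x) := rfl
    rw [e, fl_eq, ih, pow_succ, mul_two, Finset.sum_range_add, ← Finset.sum_add_distrib]
    refine Finset.sum_congr rfl fun i hi => ?_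
    have hi' := Finset.mem_range.mp hi
    rw [s1_val_map (j := i) (fun x => by rw [Nat.testBit_mod_two_pow]; simp [hi']), val_add,
      s1_val_map (j := 2 ^ n + i) (fun x => Nat.testBit_shiftRight x)]

theorem val_shl (a : List ℕ) (n i : ℕ) :
    val (mp (fun p => Nat.shiftLeft p n) a) i = if i < n then 0 else val a (i - n) := by
  have e : ∀ x : ℕ, (Nat.shiftLeft x n).testBit i = (decide (i ≥ n) && x.testBit (i - n)) :=
    fun x => Nat.testBit_shiftLeft x
  split_ifs with h
  · exact s1_val_map0 (fun x => by rw [e]; simp [h]) a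
  · exact s1_val_map (fun x => by rw [e]; simp [not_lt.mp h]) a

theorem tb_ones (n i : ℕ) : (ones n).testBit i = decide (i < n) :=
  Nat.testBit_two_pow_sub_one n i

theorem nth_eq (l : List ℕ) (n : ℕ) : nth l n = l.getD n 0 := by
  induction l generalizing n with
  | nil => rfl
  | cons h t ih =>
    have e : nth (h :: t) n = iz n h (fz (Nat.pred n) (nth t)) := rfl
    rw [e, iz_eq, fz_eq]
    cases n with
    | zero => rfl
    | succ n => simp [ih]

end Pool.Agent.Work.MP_82fd4a_nt.BS
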