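import Pool.Agent.Work.MP_82fd4a_nt.Rule

/-! Sums over the splittings of a list. -/

set_option autoImplicit false

namespace Pool.Agent.Work.MP_82fd4a_nt

/-- sum over the splittings -/
def ssum (l : List ℕ) (f : List ℕ → List ℕ → ℤ) : ℤ := ((splits l).map fun p => f p.1 p.2).sum

lemma ssum_nil (f : List ℕ → List ℕ → ℤ) : ssum [] f = f [] [] := by simp [ssum, splits]

lemma ssum_cons (a : ℕ) (t : List ℕ) (f : List ℕ → List ℕ → ℤ) :
    ssum (a :: t) f = ssum t (fun p q => f (a :: p) q) + ssum t fun p q => f p (a :: q) := by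
  simp [ssum, splits, List.map_map, Function.comp_def]

lemma ssum_add (l : List ℕ) (f g : List ℕ → List ℕ → ℤ) :
    ssum l (fun p q => f p q + g p q) = ssum l f + ssum l g := by
  unfold ssum; rw [List.sum_map_add]

lemma ssum_sub (l : List ℕ) (f g : List ℕ → List ℕ → ℤ) :
    ssum l (fun p q => f p q - g p q) = ssum l f - ssum l g := by
  induction l generalizing f g with
  | nil => simp [ssum_nil]
  | cons a t ih => simp only [ssum_cons, ih]; ring

lemma ssum_mul (l : List ℕ) (c : ℤ) (f : List ℕ → List ℕ → ℤ) :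
    ssum l (fun p q => c * f p q) = c * ssum l f := by
  unfold ssum; rw [List.sum_map_mul_left]

lemma ssum_le {l : List ℕ} {f g : List ℕ → List ℕ → ℤ}
    (h : ∀ p ∈ splits l, f p.1 p.2 ≤ g p.1 p.2) : ssum l f ≤ ssum l g :=
  List.sum_le_sum h

lemma ssum_congr {l : List ℕ} {f g : List ℕ → List ℕ → ℤ}
    (h : ∀ p ∈ splits l, f p.1 p.2 = g p.1 p.2) : ssum l f = ssum l g :=
  le_antisymm (ssum_le fun p hp => (h p hp).le) (ssum_le fun p hp => (h p hp).ge)

lemma ssum_zero (l : List ℕ) : ssum l (fun _ _ => 0) = 0 := by simp [ssum]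

lemma ssum_nonneg {l : List ℕ} {f : List ℕ → List ℕ → ℤ} (h : ∀ p ∈ splits l, 0 ≤ f p.1 p.2) :
    0 ≤ ssum l f := by
  rw [← ssum_zero l]; exact ssum_le h

lemma ssum_swap (l : List ℕ) (f : List ℕ → List ℕ → ℤ) :
    ssum l f = ssum l fun p q => f q p := by
  induction l generalizing f with
  | nil => simp [ssum_nil]
  | cons a t ih =>
    rw [ssum_cons, ssum_cons, ih fun p q => f (a :: p) q, ih fun p q => f p (a :: q), add_comm]

/-- splitting into three parts in the two possible orders -/
lemma ssum_assoc (l : List ℕ) (f : List ℕ → List ℕ → List ℕ → ℤ) :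
    ssum l (fun D u => ssum D fun E s => f E s u) = ssum l fun E F => ssum F fun s u => f E s u := by
  induction l generalizing f with
  | nil => simp [ssum_nil]
  | cons a t ih =>
    simp only [ssum_cons, ssum_add]
    rw [ih fun E s u => f (a :: E) s u, ih fun E s u => f E (a :: s) u,
      ih fun E s u => f E s (a :: u), add_assoc]

/-- a function of the length of the first part -/
lemma ssum_length (l : List ℕ) (φ : ℕ → ℤ) : ssum l (fun p _ => φ p.length) =
    ∑ n ∈ Finset.range (l.length + 1), (l.length.choose n : ℤ) * φ n := by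
  induction l generalizing φ with
  | nil => simp [ssum_nil]
  | cons a t ih =>
    rw [ssum_cons, List.length_cons, Finset.sum_range_succ' _ (t.length + 1)]
    simp only [List.length_cons]
    rw [ih fun n => φ (n + 1), ih φ, Finset.sum_range_succ' (fun n => (t.length.choose n : ℤ) * φ n)]
    simp only [Nat.choose_succ_succ', Nat.cast_add, add_mul, Finset.sum_add_distrib,
      Nat.choose_zero_right]
    rw [Finset.sum_range_succ (fun n => (t.length.choose (n + 1) : ℤ) * φ (n + 1))]
    simp [add_assoc]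

lemma splits_length {l : List ℕ} {p : List ℕ × List ℕ} (h : p ∈ splits l) :
    p.1.length + p.2.length = l.length := by
  rw [← List.length_append]; exact (splits_perm h).length_eq

lemma splits_sum {l : List ℕ} {p : List ℕ × List ℕ} (h : p ∈ splits l) :
    p.1.sum + p.2.sum = l.sum := by
  rw [← List.sum_append]; exact (splits_perm h).sum_eq

lemma mem_splits_cons {a : ℕ} {t : List ℕ} {p : List ℕ × List ℕ} : p ∈ splits (a :: t) ↔
    (∃ q ∈ splits t, p = (a :: q.1, q.2)) ∨ ∃ q ∈ splits t, p = (q.1, a :: q.2) := by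
  simp only [splits, List.mem_append, List.mem_map, eq_comm]

/-- every partition of a list up to order comes from a splitting -/
lemma exists_split {l s t : List ℕ} (h : (s ++ t).Perm l) :
    ∃ p ∈ splits l, p.1.Perm s ∧ p.2.Perm t := by
  induction l generalizing s t with
  | nil =>
    have h1 := h.eq_nil
    rw [List.append_eq_nil_iff] at h1
    exact ⟨([], []), by simp [splits], by simp [h1.1], by simp [h1.2]⟩
  | cons a l ih =>
    have ha : a ∈ s ++ t := h.symm.subset List.mem_cons_self
    rcases List.mem_append.1 ha with h1 | h1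
    · have h2 := List.perm_cons_erase h1
      obtain ⟨p, hp, h3, h4⟩ := ih (s := s.erase a) (t := t)
        (((h2.append_right t).symm.trans h).cons_inv)
      exact ⟨_, mem_splits_cons.2 (Or.inl ⟨p, hp, rfl⟩), (h3.cons a).trans h2.symm, h4⟩
    · have h2 := List.perm_cons_erase h1
      obtain ⟨p, hp, h3, h4⟩ := ih (s := s) (t := t.erase a)
        ((List.perm_middle.symm.trans ((h2.append_left s).symm.trans h)).cons_inv)
      exact ⟨_, mem_splits_cons.2 (Or.inr ⟨p, hp, rfl⟩), h3, (h4.cons a).trans h2.symm⟩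

namespace RD

variable (R : RD)

lemma w_cons (e : ℕ) (E : List ℕ) : R.w (e :: E) =
    (1 - ind (R.L (e :: E))) * ssum E fun t ρ => ind (R.wt e t ρ) := by
  by_cases h : R.L (e :: E)
  · rw [w, if_pos h, ind_pos h]; simp
  · rw [w, if_neg h, ind_neg h]; simp [ssum]

lemma w_nonneg (E : List ℕ) : 0 ≤ R.w E := by
  cases E with
  | nil => exact le_rfl
  | cons e E =>
    rw [w_cons]
    exact mul_nonneg (sub_nonneg.2 (ind_le_one _)) (ssum_nonneg fun _ _ => ind_nonneg _)

lemma UB_eq (E F : List ℕ) : R.UB E F = ssum F fun s _ => R.chiU E s := rfl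

/-- the value of the sieve -/
theorem PhiL_eq (l : List ℕ) : R.PhiL l = ssum l (fun D _ => (-1) ^ D.length * ind (R.chi D))
    - ssum l fun E F => R.w E * R.UB E F := by
  have h : R.PhiL l = ssum l fun D _ =>
      (-1) ^ D.length * ind (R.chi D) - ssum D fun E s => R.w E * R.chiU E s := rfl
  rw [h, ssum_sub, ssum_assoc l fun E s _ => R.w E * R.chiU E s]
  simp only [ssum_mul, UB_eq]

end RD

/-- a sorted list of large parts, without subsum in the bilinear range -/
structure Hyp (F y δ : ℕ) (l : List ℕ) : Prop where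
  δF : δ < F
  y0 : 0 < y
  yδ : y + 2 * δ ≤ 48 * F
  sorted : l.Pairwise (· ≤ ·)
  big : ∀ a ∈ l, 4 * F ≤ a
  bad : ∀ s : List ℕ, s.Subperm l → s.sum < y ∨ 52 * F < s.sum
  lo : 100 * F ≤ l.sum + δ
  hi : l.sum ≤ 100 * F + δ

end Pool.Agent.Work.MP_82fd4a_nt
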