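import Pool.Agent.Work.MP_82fd4a_nt.NumS1
import Pool.Agent.Work.MP_82fd4a_nt.RuleA

/-! Bit sliced arithmetic: enumeration of the boxes. -/

set_option autoImplicit false

namespace Pool.Agent.Work.MP_82fd4a_nt.BS

theorem S2_row_cons (c : List ℕ) (t : List (List ℕ)) (j : ℕ) :
    row (c :: t) j = val c j :: row t j := rfl

theorem S2_row_length (cs : List (List ℕ)) (j : ℕ) : (row cs j).length = cs.length :=
  List.length_map _

theorem S2_cat_cons (n : ℕ) (h h' : List ℕ) (t t' : List (List ℕ)) :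
    cat n (h :: t) (h' :: t') = orp h (mp (fun p => Nat.shiftLeft p n) h') :: cat n t t' := rfl

theorem S2_row_cat (N j : ℕ) (a b : List (List ℕ)) (hl : a.length = b.length)
    (h0 : N ≤ j → ∀ x ∈ row a j, x = 0) :
    row (cat N a b) j = if j < N then row a j else row b (j - N) := by
  induction a generalizing b with
  | nil =>
    cases b with
    | nil => split_ifs <;> rfl
    | cons h' t' => simp at hl
  | cons h t ih =>
    cases b with
    | nil => simp at hl
    | cons h' t' =>
      rw [S2_cat_cons, S2_row_cons, S2_row_cons, S2_row_cons,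
        ih t' (by simpa using hl) fun hj x hx => h0 hj x (List.mem_cons_of_mem _ hx)]
      by_cases hj : j < N
      · rw [if_pos hj, if_pos hj, val_orp _ _ (Or.inr (by rw [val_shl, if_pos hj])), val_shl,
          if_pos hj, add_zero]
      · have h1 : val h j = 0 := h0 (not_lt.1 hj) _ List.mem_cons_self
        rw [if_neg hj, if_neg hj, val_orp _ _ (Or.inl h1), val_shl, if_neg hj, h1, zero_add]

theorem S2_row_inc (N j : ℕ) (cs : List (List ℕ)) :
    row (mp (fun a => inc a (ones N)) cs) j = (row cs j).map (· + (decide (j < N)).toNat) := by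
  rw [mp_eq, row, row, List.map_map, List.map_map]
  refine List.map_congr_left fun a _ => ?_
  simp only [Function.comp_apply, val_inc, tb_ones]

theorem S2_sum_sub (e : ℕ) (d : List ℕ) (h : ∀ x ∈ d, e ≤ x) :
    (d.map (· - e)).sum + e * d.length = d.sum := by
  induction d with
  | nil => simp
  | cons x t ih =>
    have h1 := ih fun y hy => h y (List.mem_cons_of_mem _ hy)
    have h2 := h x List.mem_cons_self
    simp only [List.map_cons, List.sum_cons, List.length_cons, mul_add, mul_one]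
    omega

theorem S2_map_sub (e : ℕ) (d : List ℕ) (h : ∀ x ∈ d, e ≤ x) :
    (d.map (· - e)).map (· + e) = d := by
  rw [List.map_map]
  conv_rhs => rw [← List.map_id d]
  exact List.map_congr_left fun x hx => Nat.sub_add_cancel (h x hx)

theorem S2_sorted_sub (e : ℕ) {d : List ℕ} (hd : d.Pairwise (· ≤ ·)) :
    (d.map (· - e)).Pairwise (· ≤ ·) :=
  hd.map _ fun _ _ h => Nat.sub_le_sub_right h e

/-- the invariant of the enumeration -/
def S2Good (n s : ℕ) (P : ℕ × List (List ℕ)) : Prop :=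
  P.2.length = n ∧ (∀ j, P.1 ≤ j → ∀ x ∈ row P.2 j, x = 0) ∧
    ∀ d : List ℕ, d.Pairwise (· ≤ ·) → d.length = n → d.sum = s → ∃ j < P.1, row P.2 j = d

theorem S2_gstep_succ (i : ℕ) (G : ℕ → ℕ × List (List ℕ)) (s q : ℕ) : gstep i G s (q + 1) =
    ((G (s + (q + 1) * (i + 1))).1 + (gstep i G s q).1,
      cat (G (s + (q + 1) * (i + 1))).1 ([] :: (G (s + (q + 1) * (i + 1))).2)
        (mp (fun a => inc a (ones (gstep i G s q).1)) (gstep i G s q).2)) :=
  fz_eq (s + (q + 1) * (i + 1)) fun s' => ((G s').1 + (gstep i G s q).1,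
    cat (G s').1 ([] :: (G s').2) (mp (fun a => inc a (ones (gstep i G s q).1)) (gstep i G s q).2))

theorem S2_head {n s : ℕ} {P : ℕ × List (List ℕ)} (hP : S2Good n s P) :
    (∀ j, P.1 ≤ j → ∀ x ∈ row ([] :: P.2) j, x = 0) ∧ ∀ d : List ℕ, (0 :: d).Pairwise (· ≤ ·) →
      (0 :: d).length = n + 1 → (0 :: d).sum = s → ∃ j < P.1, row ([] :: P.2) j = 0 :: d := by
  refine ⟨fun j hj x hx => ?_, fun d hd hl hs => ?_⟩
  · rcases List.mem_cons.1 hx with h | h
    · exact h
    · exact hP.2.1 j hj x h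
  · obtain ⟨j, hj, h⟩ := hP.2.2 d hd.of_cons (by simpa using hl) (by simpa using hs)
    exact ⟨j, hj, by rw [S2_row_cons, val_nil, h]⟩

theorem S2_pos {x : ℕ} {d : List ℕ} (hd : ((x + 1) :: d).Pairwise (· ≤ ·)) :
    ∀ y ∈ (x + 1) :: d, 1 ≤ y := by
  intro y hy
  rcases List.mem_cons.1 hy with h | h
  · omega
  · have := (List.pairwise_cons.1 hd).1 y h
    omega

theorem S2_gstep (i : ℕ) (G : ℕ → ℕ × List (List ℕ)) (hG : ∀ s < 256, S2Good i s (G s)) {s : ℕ}
    (hs : s < i + 1) (q : ℕ) (hq : s + q * (i + 1) < 256) :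
    S2Good (i + 1) (s + q * (i + 1)) (gstep i G s q) := by
  induction q with
  | zero =>
    rw [zero_mul, add_zero] at hq ⊢
    have h := hG s hq
    refine ⟨congrArg Nat.succ h.1, (S2_head h).1, fun d hd hl hsum => ?_⟩
    match d, hd, hl, hsum with
    | [], _, hl, _ => simp at hl
    | 0 :: d, hd, hl, hsum => exact (S2_head h).2 d hd hl hsum
    | (x + 1) :: d, hd, hl, hsum =>
      have := S2_sum_sub 1 _ (S2_pos hd)
      omega
  | succ q ih =>
    have e : s + (q + 1) * (i + 1) = s + q * (i + 1) + (i + 1) := by ring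
    have ih' := ih (by omega)
    have h := hG _ hq
    rw [S2_gstep_succ]
    generalize gstep i G s q = P at ih' ⊢
    generalize G (s + (q + 1) * (i + 1)) = R at h ⊢
    have hrow : ∀ j, row (cat R.1 ([] :: R.2) (mp (fun a => inc a (ones P.1)) P.2)) j =
        if j < R.1 then row ([] :: R.2) j else
          (row P.2 (j - R.1)).map (· + (decide (j - R.1 < P.1)).toNat) := fun j => by
      rw [S2_row_cat _ _ _ _ (by rw [mp_eq, List.length_map, ih'.1, List.length_cons, h.1])
        ((S2_head h).1 j), S2_row_inc]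
    refine ⟨?_, fun j hj x hx => ?_, fun d hd hl hsum => ?_⟩
    · have h1 := congrArg List.length (hrow R.1)
      rw [if_neg (lt_irrefl _), S2_row_length, List.length_map, S2_row_length, ih'.1] at h1
      exact h1
    · have hj' : R.1 + P.1 ≤ j := hj
      have hx' : x ∈ row (cat R.1 ([] :: R.2) (mp (fun a => inc a (ones P.1)) P.2)) j := hx
      rw [hrow, if_neg (by omega), decide_eq_false (by omega : ¬ j - R.1 < P.1)] at hx'
      obtain ⟨y, hy, rfl⟩ := List.mem_map.1 hx'
      exact ih'.2.1 _ (by omega) y hy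
    · show ∃ j < R.1 + P.1, row (cat R.1 ([] :: R.2) (mp (fun a => inc a (ones P.1)) P.2)) j = d
      match d, hd, hl, hsum with
      | [], _, hl, _ => simp at hl
      | 0 :: d, hd, hl, hsum =>
        obtain ⟨j, hj, h1⟩ := (S2_head h).2 d hd hl hsum
        exact ⟨j, by omega, by rw [hrow, if_pos hj, h1]⟩
      | (x + 1) :: d, hd, hl, hsum =>
        have h1 := S2_sum_sub 1 _ (S2_pos hd)
        obtain ⟨j, hj, h2⟩ := ih'.2.2 _ (S2_sorted_sub 1 hd) (by rw [List.length_map, hl])
          (by omega)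
        refine ⟨R.1 + j, by omega, ?_⟩
        rw [hrow, if_neg (by omega), Nat.add_sub_cancel_left, decide_eq_true hj, h2]
        exact S2_map_sub 1 _ (S2_pos hd)

theorem S2_gen_succ (i s : ℕ) :
    gen (i + 1) s = gstep (i + 1) (gen i) (s % (i + 1 + 1)) (s / (i + 1 + 1)) :=
  fz_eq (s % (i + 1 + 1)) fun s0 => gstep (i + 1) (gen i) s0 (s / (i + 1 + 1))

theorem S2_gen (i : ℕ) : ∀ s < 256, S2Good (i + 1) s (gen i s) := by
  induction i with
  | zero =>
    intro s hs
    have hv : ∀ j, row [cst 1 8 s] j = [if (1 : ℕ).testBit j then s else 0] := fun j => by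
      rw [S2_row_cons, val_cst (by omega)]
      rfl
    refine ⟨rfl, fun j hj x hx => ?_, fun d _ hl hsum => ⟨0, Nat.one_pos, ?_⟩⟩
    · have hj' : 1 ≤ j := hj
      have hx' : x ∈ row [cst 1 8 s] j := hx
      have h1 : (1 : ℕ).testBit j = false :=
        Nat.testBit_lt_two_pow (Nat.one_lt_two_pow (by omega))
      rw [hv, h1] at hx'
      simpa using hx'
    · show row [cst 1 8 s] 0 = d
      obtain ⟨y, rfl⟩ := List.length_eq_one_iff.1 hl
      rw [hv]
      simpa using hsum.symm
  | succ i ih =>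
    intro s hs
    have e : s % (i + 1 + 1) + s / (i + 1 + 1) * (i + 1 + 1) = s := Nat.mod_add_div' _ _
    have h := S2_gstep (i + 1) (gen i) ih (Nat.mod_lt s (Nat.succ_pos _)) (s / (i + 1 + 1))
      (by rw [e]; exact hs)
    rw [e] at h
    rw [S2_gen_succ]
    exact h

theorem gen_spec (i : ℕ) {s : ℕ} (hs : s < 256) (d : List ℕ) (hd : d.Pairwise (· ≤ ·))
    (hl : d.length = i + 1) (h : d.sum = s) : ∃ j < (gen i s).1, row (gen i s).2 j = d :=
  (S2_gen i s hs).2.2 d hd hl h

theorem S2_dead_nil (k r : ℕ) (a : List ℕ) (n : ℕ) : dead k r [] a n =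
    if 52 - min n r ≤ 47 + min (k - n) r - r then 0 else
      an (gt a (47 + min (k - n) r - r)) (gt a (52 - min n r)) := by
  rw [← il_eq]
  exact (fz_eq (47 + min (k - n) r - r) fun A => fz (52 - min n r) fun B =>
    il B A 0 (an (gt a A) (gt a B))).trans (fz_eq (52 - min n r) fun B =>
      il B (47 + min (k - n) r - r) 0 (an (gt a (47 + min (k - n) r - r)) (gt a B)))

theorem S2_dead_cons (k r : ℕ) (c : List ℕ) (t : List (List ℕ)) (a : List ℕ) (n : ℕ) :
    dead k r (c :: t) a n = Nat.lor (dead k r t (add a c) (n + 1)) (dead k r t a n) := rfl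

theorem S2_dead (k r j : ℕ) (t : List (List ℕ)) (a : List ℕ) (n : ℕ)
    (h : (dead k r t a n).testBit j = true) : ∃ p ∈ splits (row t j),
      47 + min (k - (n + p.1.length)) r - r < val a j + p.1.sum ∧
        val a j + p.1.sum ≤ 52 - min (n + p.1.length) r := by
  induction t generalizing a n with
  | nil =>
    refine ⟨([], []), List.mem_singleton.2 rfl, ?_⟩
    rw [S2_dead_nil] at h
    split_ifs at h with h1
    · simp at h
    · rw [tb_an, tb_gt, tb_gt] at h
      simpa using h
  | cons c t ih =>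
    rw [S2_dead_cons, tb_lor, Bool.or_eq_true] at h
    rw [S2_row_cons]
    rcases h with h | h
    · obtain ⟨p, hp, h1⟩ := ih _ _ h
      refine ⟨(val c j :: p.1, p.2), mem_splits_cons.2 (Or.inl ⟨p, hp, rfl⟩), ?_⟩
      rw [val_add] at h1
      have e1 : n + (val c j :: p.1).length = n + 1 + p.1.length := by
        rw [List.length_cons]
        ring
      have e2 : val a j + (val c j :: p.1).sum = val a j + val c j + p.1.sum := by
        rw [List.sum_cons]
        ring
      simp only [e1, e2]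
      exact h1
    · obtain ⟨p, hp, h1⟩ := ih _ _ h
      exact ⟨(p.1, val c j :: p.2), mem_splits_cons.2 (Or.inr ⟨p, hp, rfl⟩), h1⟩

theorem S2_big (j : ℕ) (cs : List (List ℕ)) (h : ∀ x ∈ row cs j, x ≤ 47) :
    (List.rec 0 (fun c _ ih => Nat.lor (gt c 47) ih) cs : ℕ).testBit j = false := by
  induction cs with
  | nil => exact Nat.zero_testBit j
  | cons c t ih =>
    have h1 := ih fun x hx => h x (List.mem_cons_of_mem _ hx)
    have h2 : val c j ≤ 47 := h _ List.mem_cons_self
    refine (tb_lor (gt c 47) _ j).trans ?_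
    rw [h1, tb_gt, decide_eq_false (by omega)]
    rfl

theorem alive_spec {k r M j : ℕ} {cs : List (List ℕ)} (hM : M.testBit j = true) (hk : k ≤ 10)
    (hl : (row cs j).length = k) (h : Alive r (row cs j)) : (alive k r M cs).testBit j = true := by
  have h1 := S2_big j cs fun x hx => (h.2.1 x hx).2
  have h2 : (List.rec 0 (fun _ t _ => dead k r t [] 0) cs : ℕ).testBit j = false := by
    cases cs with
    | nil => exact Nat.zero_testBit j
    | cons c t =>
      show (dead k r t [] 0).testBit j = false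
      by_contra hc
      obtain ⟨p, hp, h3, h4⟩ := S2_dead k r j t [] 0 (by simpa using hc)
      rw [S2_row_cons] at h hl
      have hm : (p.1, val c j :: p.2) ∈ splits (val c j :: row t j) :=
        mem_splits_cons.2 (Or.inr ⟨p, hp, rfl⟩)
      have h5 : p.1.sum + (val c j :: p.2).sum = _ := splits_sum hm
      have h6 : p.1.length + (val c j :: p.2).length = _ := splits_length hm
      obtain ⟨-, -, h7, h8, h9⟩ := h
      rw [val_nil, zero_add, zero_add] at h3 h4
      have h10 : ¬ ((val c j :: p.2).sum + min (val c j :: p.2).length r ≤ 52) :=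
        (h9 _ hm (show p.1.sum + min p.1.length r ≤ 52 by omega)).2
      omega
  unfold alive
  rw [tb_an, tb_an, h1, h2, hM]
  rfl

theorem S2_val_map (f : ℕ → ℕ) {j j' : ℕ} (h : ∀ p, (f p).testBit j' = p.testBit j) (a : List ℕ) :
    val (mp f a) j' = val a j := by
  rw [mp_eq]
  induction a with
  | nil => rfl
  | cons x t ih => rw [List.map_cons, val_cons, val_cons, h, ih]

theorem S2_row_map (f : ℕ → ℕ) {j j' : ℕ} (h : ∀ p, (f p).testBit j' = p.testBit j)
    (cs : List (List ℕ)) : row (mp (mp f) cs) j' = row cs j := by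
  rw [mp_eq, row, row, List.map_map]
  exact List.map_congr_left fun a _ => S2_val_map f h a

theorem S2_tb_shr (a s j : ℕ) : (Nat.shiftRight a s).testBit j = a.testBit (s + j) :=
  Nat.testBit_shiftRight a

theorem S2_stage {α : Type} (m mv0 s : ℕ) (cs : List (List ℕ)) (K : ℕ → List (List ℕ) → α) :
    ∃ (m' : ℕ) (cs' : List (List ℕ)), stage m mv0 s cs K = K m' cs' ∧
      ∀ j, m.testBit j = true → ∃ j' ≤ j, m'.testBit j' = true ∧ row cs' j' = row cs j := by
  unfold stage
  rw [fz_eq, fz_eq, iz_eq, iz_eq, fz_eq, fll_eq]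
  generalize Nat.land m mv0 = mv
  split_ifs with h1 h2
  · exact ⟨m, cs, rfl, fun j hj => ⟨j, le_rfl, hj, rfl⟩⟩
  · refine ⟨_, _, rfl, fun j hj => ?_⟩
    have h3 : ∀ i, ((decide (i < s) && mv.testBit i) ||
        ((an m mv).testBit i && mv.testBit (s + i))) = false := fun i => by
      have h4 := congrArg (fun x => Nat.testBit x i) h2
      simp only [tb_lor, tb_land, S2_tb_shr, Nat.zero_testBit] at h4
      rw [← h4]
      exact congrArg (· || _) (Nat.testBit_mod_two_pow mv s i).symm
    cases hv : mv.testBit j with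
    | false =>
      have h5 : (an m mv).testBit j = true := by
        rw [tb_an, hj, hv]
        rfl
      have h6 : mv.testBit (s + j) = false := by simpa [h5, hv] using h3 j
      refine ⟨j, le_rfl, by rw [tb_lor, h5, Bool.true_or], S2_row_map _ (fun p => ?_) cs⟩
      rw [mov, tb_lor, S2_tb_shr, tb_land, tb_land, h5, h6]
      simp
    | true =>
      have h5 : s ≤ j := by
        by_contra hc
        simpa [hv, not_le.1 hc] using h3 j
      have e : s + (j - s) = j := Nat.add_sub_cancel' h5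
      have h6 : (an m mv).testBit (j - s) = false := by
        have h7 := h3 (j - s)
        rw [e, hv, Bool.or_eq_false_iff, Bool.and_true] at h7
        exact h7.2
      refine ⟨j - s, Nat.sub_le _ _, by rw [tb_lor, S2_tb_shr, e, hv, Bool.or_true],
        S2_row_map _ (fun p => ?_) cs⟩
      rw [mov, tb_lor, S2_tb_shr, tb_land, tb_land, h6, e, hv]
      simp
  · exact ⟨m, cs, rfl, fun j hj => ⟨j, le_rfl, hj, rfl⟩⟩

theorem S2_cpr_succ {α : Type} (M lg : ℕ) (K : ℕ → List (List ℕ) → α) (n s mk m : ℕ)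
    (cs : List (List ℕ)) : cpr M lg K (n + 1) s mk m cs =
      fz (pxor M lg mk) fun q => stage m q s cs fun m' cs' =>
        fz (an mk q) fun mk' => fz (Nat.mul 2 s) fun s' => cpr M lg K n s' mk' m' cs' := rfl

theorem cpr_spec {α : Type} (M lg : ℕ) (K : ℕ → List (List ℕ) → α) (n s mk m : ℕ)
    (cs : List (List ℕ)) : ∃ (m' : ℕ) (cs' : List (List ℕ)), cpr M lg K n s mk m cs = K m' cs' ∧
      ∀ j, m.testBit j = true → ∃ j' ≤ j, m'.testBit j' = true ∧ row cs' j' = row cs j := by
  induction n generalizing s mk m cs with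
  | zero => exact ⟨m, cs, rfl, fun j hj => ⟨j, le_rfl, hj, rfl⟩⟩
  | succ n ih =>
    rw [S2_cpr_succ, fz_eq]
    obtain ⟨m1, cs1, h1, h2⟩ := S2_stage m (pxor M lg mk) s cs fun m' cs' =>
      fz (an mk (pxor M lg mk)) fun mk' => fz (Nat.mul 2 s) fun s' => cpr M lg K n s' mk' m' cs'
    obtain ⟨m2, cs2, h3, h4⟩ := ih (Nat.mul 2 s) (an mk (pxor M lg mk)) m1 cs1
    refine ⟨m2, cs2, ?_, fun j hj => ?_⟩
    · rw [h1, fz_eq, fz_eq, h3]
    · obtain ⟨j1, h5, h6, h7⟩ := h2 j hj
      obtain ⟨j2, h8, h9, h10⟩ := h4 j1 h6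
      exact ⟨j2, h8.trans h5, h9, h10.trans h7⟩

/-- every box occurs in a lane -/
theorem run_spec {k r : ℕ} (hk1 : 1 ≤ k) (hk : k ≤ 10) (sh shv nv : ℕ)
    (X : ℕ → (ℕ → ℕ) → List (List ℕ) → List ℕ → List ℕ) :
    ∃ (lg o : ℕ) (cs : List (List ℕ)), run k r sh shv nv X = fin k r sh shv nv lg X o cs ∧
      ∀ c : List ℕ, c.length = k → Alive r c →
        ∃ j < 2 ^ lg, o.testBit j = true ∧ row cs j = c := by
  have hg := fun d hd hl h => gen_spec (Nat.pred k) (s := Nat.sub (Nat.sub 100 r) (Nat.mul 4 k))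
    (show 100 - r - 4 * k < 256 by omega) d hd hl h
  unfold run
  rw [fz_eq, fz_eq, fll_eq, fz_eq, fz_eq]
  generalize gen (Nat.pred k) (Nat.sub (Nat.sub 100 r) (Nat.mul 4 k)) = P at hg ⊢
  obtain ⟨o, cs, h1, h2⟩ := cpr_spec (ones P.1) (Nat.succ (Nat.log2 P.1))
    (fin k r sh shv nv (Nat.succ (Nat.log2 P.1)) X) (Nat.succ (Nat.log2 P.1)) 1
    (Nat.land (ones P.1) (Nat.shiftLeft (Nat.xor (ones P.1)
      (alive k r (ones P.1) (mp (add (cst (ones P.1) 8 4)) P.2))) 1))
    (alive k r (ones P.1) (mp (add (cst (ones P.1) 8 4)) P.2)) (mp (add (cst (ones P.1) 8 4)) P.2)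
  refine ⟨_, o, cs, h1, fun c hc ha => ?_⟩
  have h4 : ∀ x ∈ c, 4 ≤ x := fun x hx => (ha.2.1 x hx).1
  have h3 := S2_sum_sub 4 c h4
  have h5 := ha.2.2.1
  obtain ⟨j, hj, h6⟩ := hg _ (S2_sorted_sub 4 ha.1)
    (by rw [List.length_map, hc]; exact (Nat.succ_pred_eq_of_pos hk1).symm)
    (show _ = 100 - r - 4 * k by rw [hc] at h3; omega)
  have hM : (ones P.1).testBit j = true := by rw [tb_ones, decide_eq_true hj]
  have h7 : row (mp (add (cst (ones P.1) 8 4)) P.2) j = c := by
    rw [← S2_map_sub 4 c h4, ← h6, mp_eq, row, row, List.map_map, List.map_map]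
    refine List.map_congr_left fun a _ => ?_
    simp only [Function.comp_apply]
    rw [val_add, val_cst (by norm_num), if_pos hM, add_comm]
  obtain ⟨j', h8, h9, h10⟩ := h2 j (alive_spec hM hk (by rw [h7, hc]) (by rw [h7]; exact ha))
  exact ⟨j', h8.trans_lt (hj.trans Nat.lt_log2_self), h9, h10.trans h7⟩

end Pool.Agent.Work.MP_82fd4a_nt.BS
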