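import Pool.Agent.Work.MP_82fd4a_nt.NumS1
import Pool.Agent.Work.MP_82fd4a_nt.RuleA

/-! Bit sliced arithmetic: sums over subsets given by their digits. -/

set_option autoImplicit false

namespace Pool.Agent.Work.MP_82fd4a_nt.BS

/-- the entry that corresponds to a power of four -/
def ent (c : List ℕ) (x : ℕ) : ℕ := c.getD (Nat.log 4 x) 0

theorem pw_cons (n v : ℕ) : pw (n + 1) v = v :: pw n (4 * v) :=
  congrArg (v :: ·) (fz_eq (Nat.mul 4 v) (pw n))

theorem pw_mul (n v : ℕ) : pw n (4 * v) = (pw n v).map (4 * ·) := by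
  induction n generalizing v with
  | zero => rfl
  | succ n ih => rw [pw_cons, pw_cons, List.map_cons, ← ih]

theorem pw_succ (n : ℕ) : pw (n + 1) 1 = 1 :: (pw n 1).map (4 * ·) := by rw [pw_cons, pw_mul]

theorem pw_ne_zero {n x : ℕ} (h : x ∈ pw n 1) : x ≠ 0 := by
  induction n generalizing x with
  | zero => exact absurd h List.not_mem_nil
  | succ n ih =>
    rw [pw_succ, List.mem_cons, List.mem_map] at h
    rcases h with rfl | ⟨y, hy, rfl⟩
    · exact one_ne_zero
    · exact mul_ne_zero four_ne_zero (ih hy)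

theorem ent_one (a : ℕ) (c : List ℕ) : ent (a :: c) 1 = a := by
  rw [ent, Nat.log_one_right, List.getD_cons_zero]

theorem ent_four (a : ℕ) (c : List ℕ) {x : ℕ} (hx : x ≠ 0) : ent (a :: c) (4 * x) = ent c x := by
  rw [ent, ent, mul_comm, Nat.log_mul_base (by norm_num) hx, List.getD_cons_succ]

theorem pw_map (c : List ℕ) : (pw c.length 1).map (ent c) = c := by
  induction c with
  | nil => rfl
  | cons a c ih =>
    rw [List.length_cons, pw_succ, List.map_cons, ent_one, List.map_map]
    refine congrArg (a :: ·) (Eq.trans (List.map_congr_left fun x hx => ?_) ih)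
    exact ent_four a c (pw_ne_zero hx)

theorem subperm_pw_succ {n : ℕ} {s : List ℕ} (hs : s.Subperm (pw (n + 1) 1 ++ pw (n + 1) 1)) :
    ∃ d ≤ 2, ∃ t : List ℕ, t.Subperm (pw n 1 ++ pw n 1) ∧
      s.Perm (List.replicate d 1 ++ t.map (4 * ·)) := by
  have h : (pw (n + 1) 1 ++ pw (n + 1) 1).Perm
      (List.replicate 2 1 ++ (pw n 1 ++ pw n 1).map (4 * ·)) := by
    rw [pw_succ, List.map_append]
    exact List.Perm.cons 1 List.perm_middle
  obtain ⟨l, hl, hl'⟩ := hs.trans h.subperm
  obtain ⟨l1, l2, rfl, h1, h2⟩ := List.sublist_append_iff.1 hl'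
  obtain ⟨d, hd, rfl⟩ := List.sublist_replicate_iff.1 h1
  obtain ⟨t, ht, rfl⟩ := List.sublist_map_iff.1 h2
  exact ⟨d, hd, t, ht.subperm, hl.symm⟩

theorem val_sumM_zero (cs : List (List ℕ)) (i : ℕ) : val (sumM cs 0) i = 0 := by
  cases cs <;> rfl

theorem val_sumM_cons (c : List ℕ) (cs : List (List ℕ)) (i : ℕ) {m : ℕ} (hm : m % 4 ≤ 2) :
    val (sumM (c :: cs) m) i = m % 4 * val c i + val (sumM cs (m / 4)) i := by
  have h : sumM (c :: cs) m = iz m [] (iz (m % 4) (fz (m / 4) (sumM cs))
      (il (m % 4) 1 (add c (fz (m / 4) (sumM cs))) (add c (add c (fz (m / 4) (sumM cs)))))) := rfl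
  rw [h, iz_eq, iz_eq, il_eq, fz_eq]
  split_ifs with h0 h1 h2
  · rw [h0, val_nil, Nat.zero_mod, Nat.zero_div, val_sumM_zero, zero_mul]
  · rw [h1, zero_mul, zero_add]
  · rw [val_add, show m % 4 = 1 by omega, one_mul]
  · rw [val_add, val_add, show m % 4 = 2 by omega, two_mul, add_assoc]

theorem cntM_cons (c : List ℕ) (cs : List (List ℕ)) (m : ℕ) :
    cntM (c :: cs) m = m % 4 + cntM cs (m / 4) :=
  congrArg (m % 4 + ·) (fz_eq (m / 4) (cntM cs))

theorem sumM_spec (cs : List (List ℕ)) (i : ℕ) {s : List ℕ}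
    (hs : s.Subperm (pw cs.length 1 ++ pw cs.length 1)) :
    val (sumM cs s.sum) i = (s.map (ent (row cs i))).sum ∧ cntM cs s.sum = s.length := by
  induction cs generalizing s with
  | nil =>
    obtain rfl : s = [] := List.subperm_nil.1 hs
    exact ⟨rfl, rfl⟩
  | cons c cs ih =>
    obtain ⟨d, hd, t, ht, hp⟩ := subperm_pw_succ hs
    obtain ⟨h1, h2⟩ := ih ht
    have h3 : s.sum = d + 4 * t.sum := by
      rw [hp.sum_eq, List.sum_append, List.sum_replicate, smul_eq_mul, mul_one,
        List.sum_map_mul_left, List.map_id']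
    have h4 : s.sum % 4 = d := by omega
    have h5 : s.sum / 4 = t.sum := by omega
    have h6 : (t.map (4 * ·)).map (ent (row (c :: cs) i)) = t.map (ent (row cs i)) := by
      rw [List.map_map]
      refine List.map_congr_left fun x hx => ent_four _ _ ?_
      exact (List.mem_append.1 (ht.subset hx)).elim pw_ne_zero pw_ne_zero
    constructor
    · rw [val_sumM_cons c cs i (by omega), h4, h5, h1, (hp.map _).sum_eq, List.map_append,
        List.sum_append, h6, List.map_replicate, List.sum_replicate, smul_eq_mul]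
      exact congrArg (d * · + _) (ent_one _ _).symm
    · rw [cntM_cons, h4, h5, h2, hp.length_eq, List.length_append, List.length_replicate,
        List.length_map]

theorem tb_Lm {o i : ℕ} (ho : o.testBit i = true) {r : ℕ} (hr : r ≤ 52) (cs : List (List ℕ))
    {s : List ℕ} (hs : s.Subperm (pw cs.length 1 ++ pw cs.length 1)) :
    (Lm o r cs s.sum).testBit i = true ↔ (RB r).L (s.map (ent (row cs i))) := by
  obtain ⟨h1, h2⟩ := sumM_spec cs i hs
  have h3 : Nat.sub 52 (Nat.min s.length r) = 52 - min s.length r := rfl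
  rw [Lm, tb_an, tb_gt, ho, h1, h2, h3, Bool.true_and, Bool.not_eq_true', decide_eq_false_iff_not]
  change _ ↔ _ + min (s.map (ent (row cs i))).length r ≤ 52
  rw [List.length_map]
  omega

theorem pw_length (n v : ℕ) : (pw n v).length = n := by
  induction n generalizing v with
  | zero => rfl
  | succ n ih => rw [pw_cons, List.length_cons, ih]

theorem tb_Qm {o i : ℕ} (ho : o.testBit i = true) {K : ℕ} (cs : List (List ℕ))
    (hK : 2 * cs.length ≤ K) {s : List ℕ} (hs : s.Subperm (pw cs.length 1 ++ pw cs.length 1)) :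
    (Qm o K cs s.sum).testBit i = true ↔ (s.map (ent (row cs i))).sum + s.length ≤ K := by
  obtain ⟨h1, h2⟩ := sumM_spec cs i hs
  have h3 : Nat.sub K s.length = K - s.length := rfl
  have h4 := hs.length_le
  rw [List.length_append, pw_length] at h4
  rw [Qm, tb_an, tb_gt, ho, h1, h2, h3, Bool.true_and, Bool.not_eq_true', decide_eq_false_iff_not]
  omega

theorem tb_orN (l : List ℕ) (n : ℕ) (f : List ℕ → ℕ) {i : ℕ} (h : (orN l n f).testBit i = true) :
    ∃ p ∈ splits l, p.1.length = n ∧ (f p.1).testBit i = true := by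
  induction l generalizing n f with
  | nil =>
    have h1 : orN [] n f = iz n (f []) 0 := rfl
    rw [h1, iz_eq] at h
    split_ifs at h with h0
    · exact ⟨([], []), nil_mem_splits _, h0.symm, h⟩
    · simp at h
  | cons a t ih =>
    have h1 : orN (a :: t) n f = iz n (f []) (il n (ln t)
        (Nat.lor (fz (Nat.pred n) fun n' => orN t n' fun p => f (a :: p)) (orN t n f))
        (fz (Nat.pred n) fun n' => orN t n' fun p => f (a :: p))) := rfl
    rw [h1, iz_eq, il_eq, fz_eq] at h
    by_cases h0 : n = 0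
    · rw [if_pos h0] at h
      exact ⟨([], a :: t), nil_mem_splits _, h0.symm, h⟩
    · have key : (orN t (Nat.pred n) fun p => f (a :: p)).testBit i = true →
          ∃ p ∈ splits (a :: t), p.1.length = n ∧ (f p.1).testBit i = true := fun h2 => by
        obtain ⟨p, hp, h3, h4⟩ := ih _ _ h2
        refine ⟨(a :: p.1, p.2), mem_splits_cons.2 (Or.inl ⟨p, hp, rfl⟩), ?_, h4⟩
        rw [List.length_cons, h3]
        exact Nat.succ_pred h0
      rw [if_neg h0] at h
      split_ifs at h
      · rw [tb_lor, Bool.or_eq_true] at h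
        refine h.elim key fun h2 => ?_
        obtain ⟨p, hp, h3, h4⟩ := ih _ _ h2
        exact ⟨(p.1, a :: p.2), mem_splits_cons.2 (Or.inr ⟨p, hp, rfl⟩), h3, h4⟩
      · exact key h

theorem cT_mono (n n' r : ℕ) {s s' : ℕ} (h : s ≤ s') : cT n n' r s ≤ cT n n' r s' := by
  exact Finset.sum_le_sum_of_subset (Finset.range_subset_range.2 (Nat.mul_le_mul_left _ h))

end Pool.Agent.Work.MP_82fd4a_nt.BS
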