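import Pool.Agent.Work.MP_82fd4a_nt.NumS1
import Pool.Agent.Work.MP_82fd4a_nt.RuleA

/-! Bit sliced arithmetic: the rule. -/

set_option autoImplicit false

namespace Pool.Agent.Work.MP_82fd4a_nt.BS

/-- the conditions read off in the lane `i` -/
def RM (L Q H : ℕ → ℕ) (i : ℕ) : RD where
  L s := (L s.sum).testBit i = true
  Q s := (Q s.sum).testBit i = true
  H s := (H s.sum).testBit i = true

theorem s4_az (a b i : ℕ) :
    (az a b).testBit i = true ↔ a.testBit i = true ∧ b.testBit i = true := by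
  rw [tb_az, Bool.and_eq_true]

theorem s4_an (a b i : ℕ) :
    (an a b).testBit i = true ↔ a.testBit i = true ∧ ¬ b.testBit i = true := by
  rw [tb_an, Bool.and_eq_true, Bool.not_eq_true', Bool.not_eq_true]

theorem s4_lor (a b i : ℕ) :
    (Nat.lor a b).testBit i = true ↔ a.testBit i = true ∨ b.testBit i = true := by
  rw [tb_lor, Bool.or_eq_true]

theorem s4_ev (X : ℕ → ℕ) (s : List ℕ) : ev X s = X s.sum := by rw [ev, fz_eq, sl_eq]

theorem s4_ev2 (X : ℕ → ℕ) (s : List ℕ) (m : ℕ) : ev2 X s m = X (s.sum + m) := by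
  rw [ev2, fz_eq, sl_eq]; rfl

theorem s4_spl_cons {α : Type} (op : α → α → α) (a : ℕ) (t : List ℕ) (f : List ℕ → List ℕ → α) :
    spl op (a :: t) f =
      op (spl op t fun p q => f (a :: p) q) (spl op t fun p q => f p (a :: q)) := rfl

theorem s4_splor (l : List ℕ) (f : List ℕ → List ℕ → ℕ) (i : ℕ) :
    (spl Nat.lor l f).testBit i = true ↔ ∃ p ∈ splits l, (f p.1 p.2).testBit i = true := by
  induction l generalizing f with
  | nil =>
    change (f [] []).testBit i = true ↔ _
    simp [splits]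
  | cons a t ih =>
    rw [s4_spl_cons, s4_lor, ih, ih]
    constructor
    · rintro (⟨p, hp, h⟩ | ⟨p, hp, h⟩)
      · exact ⟨_, mem_splits_cons.2 (Or.inl ⟨p, hp, rfl⟩), h⟩
      · exact ⟨_, mem_splits_cons.2 (Or.inr ⟨p, hp, rfl⟩), h⟩
    · rintro ⟨p, hp, h⟩
      rcases mem_splits_cons.1 hp with ⟨q, hq, rfl⟩ | ⟨q, hq, rfl⟩
      · exact Or.inl ⟨q, hq, h⟩
      · exact Or.inr ⟨q, hq, h⟩

theorem s4_spladd (l : List ℕ) (f : List ℕ → List ℕ → List ℕ) (i : ℕ) :
    (val (spl add l f) i : ℤ) = ssum l fun p q => (val (f p q) i : ℤ) := by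
  induction l generalizing f with
  | nil => rw [ssum_nil]; rfl
  | cons a t ih => rw [s4_spl_cons, val_add, ssum_cons, Nat.cast_add, ih, ih]

theorem s4_bit (g i : ℕ) : (val (bit g) i : ℤ) = ind (g.testBit i = true) := by
  rw [val_bit]
  cases h : g.testBit i
  · rw [ind_neg (by simp)]; rfl
  · rw [ind_pos rfl]; rfl

section rule

variable (L Q H : ℕ → ℕ) (i : ℕ)

theorem s4_L (s : List ℕ) : (ev L s).testBit i = true ↔ (RM L Q H i).L s := by
  rw [s4_ev]; rfl

theorem s4_Q (s : List ℕ) : (ev Q s).testBit i = true ↔ (RM L Q H i).Q s := by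
  rw [s4_ev]; rfl

theorem s4_L2 (s : List ℕ) (x : ℕ) : (ev2 L s x).testBit i = true ↔ (RM L Q H i).L (x :: s) := by
  rw [s4_ev2, add_comm]; rfl

theorem s4_Q2 (s : List ℕ) (x : ℕ) : (ev2 Q s x).testBit i = true ↔ (RM L Q H i).Q (x :: s) := by
  rw [s4_ev2, add_comm]; rfl

theorem s4_H2 (s : List ℕ) (x : ℕ) : (ev2 H s x).testBit i = true ↔ (RM L Q H i).H (x :: s) := by
  rw [s4_ev2, add_comm]; rfl

theorem s4_L3 (s base : List ℕ) :
    (ev2 L s base.sum).testBit i = true ↔ (RM L Q H i).L (s ++ base) := by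
  rw [s4_ev2, ← List.sum_append]; rfl

theorem s4_adm (D : List ℕ) : (adm L Q D).testBit i = true ↔ (RM L Q H i).adm D := by
  simp only [adm, RD.adm, s4_splor, s4_az, s4_L L Q H, s4_Q L Q H]

theorem s4_safe (D : List ℕ) (e : ℕ) :
    (safe L Q H D e).testBit i = true ↔ (RM L Q H i).safe D e := by
  simp only [safe, RD.safe, s4_splor, s4_az, s4_lor, s4_L L Q H, s4_Q L Q H, s4_H2 L Q H,
    s4_Q2 L Q H, and_assoc]

theorem s4_fix (t : List ℕ) (x : ℕ) : (fix L Q t x).testBit i = true ↔ (RM L Q H i).fix t x := by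
  simp only [fix, RD.fix, s4_splor, s4_an, s4_Q L Q H, s4_L2 L Q H]

theorem s4_step' (a : ℕ) (t : List ℕ) :
    step' L Q H a t = if t.length = 2 then adm L Q (a :: t) else step L Q H a t := by
  rw [step', iz_eq, ln_eq]
  exact if_congr Nat.xor_eq_zero_iff rfl rfl

theorem s4_step (a : ℕ) (t : List ℕ) :
    (step' L Q H a t).testBit i = true ↔ (RM L Q H i).step a t := by
  rw [s4_step']
  match t with
  | [] => exact s4_L L Q H i [a]
  | [_] => exact s4_Q L Q H i [a]
  | [b, c] => exact s4_adm L Q H i [a, b, c]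
  | [b, c, d] =>
    change (az (adm L Q [a, b, c, d])
      (Nat.lor (fix L Q [a, b, c] d) (safe L Q H [a, b, c, d] a))).testBit i = true ↔ _
    rw [s4_az, s4_lor, s4_adm L Q H, s4_fix L Q H, s4_safe]
    rfl
  | [b, c, d, e] => exact s4_adm L Q H i [a, b, c, d, e]
  | b :: c :: d :: e :: f :: t =>
    rw [if_neg (by simp)]
    change (iz (Nat.mod (ln t) 2) (ev L (a :: b :: c :: d :: e :: f :: t))
      (ev Q [a])).testBit i = true ↔ _
    rw [iz_eq, ln_eq, RD.step]
    by_cases h : Even t.length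
    · rw [if_pos h, if_pos (show Nat.mod t.length 2 = 0 from Nat.even_iff.1 h), s4_L L Q H]
    · rw [if_neg h, if_neg (show ¬ Nat.mod t.length 2 = 0 from fun h' => h (Nat.even_iff.2 h')),
        s4_Q L Q H]

theorem s4_chi {o : ℕ} (ho : o.testBit i = true) (D : List ℕ) :
    (chi o L Q H D).testBit i = true ↔ (RM L Q H i).chi D := by
  induction D with
  | nil => exact iff_of_true ho trivial
  | cons a t ih =>
    change (az (chi o L Q H t) (step' L Q H a t)).testBit i = true ↔ _
    rw [s4_az, ih, s4_step]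
    rfl

theorem s4_admL (s base : List ℕ) :
    (admL L Q s base.sum).testBit i = true ↔ (RM L Q H i).admL s base := by
  simp only [admL, RD.admL, s4_splor, s4_an, s4_Q L Q H, s4_L3 L Q H]

theorem s4_fixL (s base : List ℕ) :
    (fixL L Q s base.sum).testBit i = true ↔ (RM L Q H i).fixL s base := by
  simp only [fixL, RD.fixL, s4_splor, s4_az, s4_Q L Q H, s4_L3 L Q H]

theorem s4_wt (g e : ℕ) (t ρ : List ℕ) :
    (wt L Q g e t ρ).testBit i = true ↔ g.testBit i = true ∧ (RM L Q H i).wt e t ρ := by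
  match t with
  | [] => exact iff_of_false (by simp [wt]) fun h => h.2
  | [c] =>
    change (az (an (az g (ev Q [c])) (ev Q [e, c])) (ev2 L ρ c)).testBit i = true ↔ _
    rw [s4_az, s4_an, s4_az, s4_Q L Q H, s4_Q L Q H, s4_L2 L Q H, and_assoc, and_assoc]
    rfl
  | [_, _] => exact iff_of_false (by simp [wt]) fun h => h.2
  | [c, b, a] =>
    change (fz (sl ρ) fun m => fz (Nat.add m e) fun m' =>
        an (az (az (az (az g (ev Q [a])) (admL L Q [b, a] (Nat.add m' c))) (admL L Q [c, b, a] m'))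
          (fixL L Q [c, b, a] m')) (admL L Q [e, c, b, a] m)).testBit i = true ↔ _
    have h1 : Nat.add ρ.sum e = (e :: ρ).sum := by
      rw [List.sum_cons, add_comm]; rfl
    have h2 : Nat.add (e :: ρ).sum c = (e :: c :: ρ).sum := by
      change (e :: ρ).sum + c = _
      simp only [List.sum_cons]; ring
    rw [fz_eq, fz_eq, sl_eq, h1, h2, s4_an, s4_az, s4_az, s4_az, s4_az, s4_Q L Q H,
      s4_admL L Q H, s4_admL L Q H, s4_admL L Q H, s4_fixL L Q H, and_assoc, and_assoc,
      and_assoc, and_assoc]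
    rfl
  | _ :: _ :: _ :: _ :: _ => exact iff_of_false (by simp [wt]) fun h => h.2

theorem s4_w {o : ℕ} (ho : o.testBit i = true) (E : List ℕ) :
    (val (w o L Q E) i : ℤ) = (RM L Q H i).w E := by
  cases E with
  | nil => rfl
  | cons e E =>
    change (val (fz (an o (ev L (e :: E))) fun g =>
      iz g [] (spl add E fun t ρ => bit (wt L Q g e t ρ))) i : ℤ) = _
    have hg : (an o (ev L (e :: E))).testBit i = true ↔ ¬ (RM L Q H i).L (e :: E) := by
      rw [s4_an, s4_L L Q H]
      exact and_iff_right ho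
    rw [fz_eq, iz_eq, RD.w_cons]
    generalize an o (ev L (e :: E)) = g at hg
    by_cases h : (RM L Q H i).L (e :: E)
    · rw [ind_pos h, sub_self, zero_mul]
      split_ifs
      · rfl
      · rw [s4_spladd, ← ssum_zero E]
        refine ssum_congr fun p _ => ?_
        rw [s4_bit, ind_neg]
        rw [s4_wt L Q H]
        exact fun h' => hg.1 h'.1 h
    · have h1 := hg.2 h
      have h2 : g ≠ 0 := by
        rintro rfl
        simp at h1
      rw [ind_neg h, sub_zero, one_mul, if_neg h2, s4_spladd]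
      refine ssum_congr fun p _ => ?_
      rw [s4_bit]
      exact ind_congr ((s4_wt L Q H i g e _ _).trans (and_iff_right h1))

theorem s4_sum0 (F : List ℕ) (g : List ℕ → ℤ) (hg : ∀ a p, g (a :: p) = 0) :
    ssum F (fun p _ => g p) = g [] := by
  induction F with
  | nil => rw [ssum_nil]
  | cons a t ih => simp only [ssum_cons, hg, ssum_zero, ih, zero_add]

theorem s4_sum1 (F : List ℕ) (g : List ℕ → ℤ) (hg : ∀ a b p, g (a :: b :: p) = 0) :
    ssum F (fun p _ => g p) = g [] + (F.map fun q => g [q]).sum := by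
  induction F with
  | nil => rw [ssum_nil]; simp
  | cons a t ih =>
    rw [ssum_cons, ih, s4_sum0 t (fun p => g (a :: p)) (hg a), List.map_cons, List.sum_cons]
    ring

theorem s4_inner {E : List ℕ} (hE : E.length ≤ 4) (q' : ℕ) (F : List ℕ) :
    (val (List.rec (motive := fun _ => List ℕ) [] (fun q _ ih' =>
      add (bit (az (safe L Q H (q :: E) q) (adm L Q (q' :: q :: E)))) ih') F) i : ℤ) =
      (F.map fun q => (RM L Q H i).chiU E [q', q]).sum := by
  induction F with
  | nil => rfl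
  | cons q t ih =>
    rw [List.map_cons, List.sum_cons, ← ih]
    change (val (add _ _) i : ℤ) = _
    rw [val_add, Nat.cast_add, s4_bit]
    congr 1
    refine ind_congr ?_
    rw [s4_az, s4_safe, s4_adm L Q H]
    exact and_congr (and_iff_right hE).symm Iff.rfl

theorem s4_UB {E : List ℕ} (hE : E.length ≤ 4) (F : List ℕ) :
    (RM L Q H i).UB E F = 1 + (val (ubP L Q H E F) i : ℤ) - val (ubN L Q H E F) i := by
  rw [RD.UB_eq]
  induction F with
  | nil => rw [ssum_nil]; rfl
  | cons q t ih =>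
    rw [ssum_cons, ih, s4_sum1 t (fun p => (RM L Q H i).chiU E (q :: p)) fun _ _ _ => rfl,
      ← s4_inner L Q H i hE]
    change _ = 1 + (val (add (ubP L Q H E t) _) i : ℤ) -
      val (add (bit (safe L Q H (q :: E) q)) (ubN L Q H E t)) i
    have h1 : (RM L Q H i).chiU E [q] = -ind ((safe L Q H (q :: E) q).testBit i = true) := by
      rw [s4_safe]
      exact congrArg Neg.neg (ind_congr (and_iff_right hE))
    rw [val_add, val_add, Nat.cast_add, Nat.cast_add, s4_bit, h1]
    ring

theorem s4_UB' (R : RD) {E : List ℕ} (hE : ¬ E.length ≤ 4) (F : List ℕ) : R.UB E F = 1 := by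
  rw [RD.UB_eq]
  refine s4_sum0 F (R.chiU E) fun a p => ?_
  match p with
  | [] =>
    change -ind _ = 0
    rw [ind_neg fun h => hE h.1, neg_zero]
  | [_] => exact ind_neg fun h => hE h.1.1
  | _ :: _ :: _ => rfl

theorem s4_wub {o : ℕ} (ho : o.testBit i = true) (E F : List ℕ) :
    (RM L Q H i).w E * (RM L Q H i).UB E F ≤ val (wub o L Q H E F) i := by
  have h1 := s4_w L Q H i ho E
  unfold wub
  generalize w o L Q E = W at h1
  cases W with
  | nil =>
    rw [← h1, val_nil, Nat.cast_zero, zero_mul]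
  | cons h t =>
    change _ ≤ (val (il (ln E) 4
      (mul (sbc (inc (ubP L Q H E F) o) (ubN L Q H E F) 0) (h :: t)) (h :: t)) i : ℤ)
    rw [il_eq, ln_eq]
    split_ifs with hE
    · rw [val_mul, Nat.cast_mul, h1, mul_comm]
      refine mul_le_mul_of_nonneg_right ?_ (RD.w_nonneg _ E)
      have h2 := val_sbc (inc (ubP L Q H E F) o) (ubN L Q H E F) i
      rw [val_inc, ho, Bool.toNat_true] at h2
      rw [s4_UB L Q H i hE]
      omega
    · rw [s4_UB' _ hE, mul_one, h1]

end rule

theorem loss_spec {o i : ℕ} (ho : o.testBit i = true) (L Q H : ℕ → ℕ) (l : List ℕ) :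
    -(RM L Q H i).PhiL l ≤ val (loss o L Q H l) i := by
  rw [RD.PhiL_eq, loss, val_trim]
  have h1 := val_sbc (add (spl add l fun D _ => iz (Nat.mod (ln D) 2) [] (bit (chi o L Q H D)))
      (spl add l (wub o L Q H)))
    (spl add l fun D _ => iz (Nat.mod (ln D) 2) (bit (chi o L Q H D)) []) i
  have h2 : ssum l (fun E F => (RM L Q H i).w E * (RM L Q H i).UB E F) ≤
      val (spl add l (wub o L Q H)) i := by
    rw [s4_spladd]
    exact ssum_le fun p _ => s4_wub L Q H i ho p.1 p.2
  have h3 : ssum l (fun D _ => (-1) ^ D.length * ind ((RM L Q H i).chi D)) =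
      (val (spl add l fun D _ => iz (Nat.mod (ln D) 2) (bit (chi o L Q H D)) []) i : ℤ) -
      val (spl add l fun D _ => iz (Nat.mod (ln D) 2) [] (bit (chi o L Q H D))) i := by
    rw [s4_spladd, s4_spladd, ← ssum_sub]
    refine ssum_congr fun p _ => ?_
    rw [iz_eq, iz_eq, ln_eq, ← ind_congr (s4_chi L Q H i ho p.1), ← s4_bit]
    rcases Nat.even_or_odd p.1.length with h | h
    · have h4 : Nat.mod p.1.length 2 = 0 := Nat.even_iff.1 h
      rw [if_pos h4, if_pos h4, h.neg_one_pow, val_nil]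
      simp
    · have h4 : ¬ Nat.mod p.1.length 2 = 0 := fun h' =>
        Nat.not_even_iff_odd.2 h (Nat.even_iff.2 h')
      rw [if_neg h4, if_neg h4, h.neg_one_pow, val_nil]
      simp
  rw [val_add] at h1
  rw [h3]
  omega

end Pool.Agent.Work.MP_82fd4a_nt.BS
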