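import Pool.Agent.Work.MP_82fd4a_nt.NumS1
import Pool.Agent.Work.MP_82fd4a_nt.RuleA
import Pool.Agent.Work.MP_82fd4a_nt.RuleEqs

/-! The Kronecker substitution. -/

set_option autoImplicit false

namespace Pool.Agent.Work.MP_82fd4a_nt.BS

open Finset Polynomial

theorem s5_lt {B : ℕ} (f : ℕ → ℕ) (hf : ∀ i, f i < B) (m : ℕ) :
    ∑ i ∈ range m, f i * B ^ i < B ^ m := by
  induction m with
  | zero => simp
  | succ m ih =>
    rw [sum_range_succ, pow_succ]
    have := Nat.mul_le_mul_left (B ^ m) (hf m)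
    rw [Nat.mul_succ] at this
    rw [mul_comm (f m)]
    omega

theorem s5_split (B : ℕ) (f : ℕ → ℕ) (m k : ℕ) : ∑ i ∈ range (m + k), f i * B ^ i =
    ∑ i ∈ range m, f i * B ^ i + B ^ m * ∑ i ∈ range k, f (m + i) * B ^ i := by
  rw [sum_range_add, mul_sum]
  congr 1
  exact sum_congr rfl fun i _ => by rw [pow_add]; ring

theorem s5_mod {B : ℕ} (f : ℕ → ℕ) (hf : ∀ i, f i < B) (m k : ℕ) :
    (∑ i ∈ range (m + k), f i * B ^ i) % B ^ m = ∑ i ∈ range m, f i * B ^ i := by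
  rw [s5_split, Nat.add_mul_mod_self_left, Nat.mod_eq_of_lt (s5_lt f hf m)]

theorem s5_div {B : ℕ} (f : ℕ → ℕ) (hf : ∀ i, f i < B) (m k : ℕ) :
    (∑ i ∈ range (m + k), f i * B ^ i) / B ^ m = ∑ i ∈ range k, f (m + i) * B ^ i := by
  have hB : 0 < B ^ m := pow_pos ((Nat.zero_le _).trans_lt (hf 0)) m
  rw [s5_split, Nat.add_mul_div_left _ _ hB, Nat.div_eq_of_lt (s5_lt f hf m), zero_add]

theorem s5_digit {B : ℕ} (hB : 1 ≤ B) (f : ℕ → ℕ) (m : ℕ) :
    ∑ i ∈ range m, f i * B ^ i ≡ ∑ i ∈ range m, f i [MOD B - 1] := by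
  have h : B ≡ 1 [MOD B - 1] := ((Nat.modEq_iff_dvd' hB).2 dvd_rfl).symm
  induction m with
  | zero => rfl
  | succ m ih =>
    rw [sum_range_succ, sum_range_succ]
    refine ih.add ?_
    have := (h.pow m).mul_left (f m)
    rwa [one_pow, mul_one] at this

theorem s5_eval (p : ℕ[X]) (B m : ℕ) :
    p.eval B = ∑ i ∈ range (m + (p.natDegree + 1)), p.coeff i * B ^ i :=
  eval_eq_sum_range' (by omega) B

theorem s5_sum_le (p : ℕ[X]) (m k : ℕ) : ∑ i ∈ range k, p.coeff (m + i) ≤ p.eval 1 := by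
  rw [s5_eval p 1 (m + k), add_assoc, sum_range_add, sum_range_add]
  simp only [one_pow, mul_one]
  omega

theorem s5_coeff_le (p : ℕ[X]) (i : ℕ) : p.coeff i ≤ p.eval 1 := by
  simpa using s5_sum_le p i 1

theorem s5_window {B : ℕ} (p : ℕ[X]) (hp : p.eval 1 < B - 1) (m k : ℕ) :
    p.eval B / B ^ m % B ^ k % (B - 1) = ∑ i ∈ range k, p.coeff (m + i) := by
  have hf : ∀ i, p.coeff i < B := fun i => by
    have := s5_coeff_le p i
    omega
  rw [s5_eval p B (m + k), add_assoc, s5_div _ hf, s5_mod _ (fun i => hf _),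
    s5_digit (by omega), Nat.mod_eq_of_lt ((s5_sum_le p m k).trans_lt hp)]

theorem s5_coeff (n u : ℕ) : ((∑ i ∈ range 256, X ^ i : ℕ[X]) ^ n).coeff u = cN n u := by
  induction n generalizing u with
  | zero => rw [pow_zero, coeff_one, cN]
  | succ n ih =>
    rw [pow_succ, mul_sum, finsetSum_coeff, cN]
    exact sum_congr rfl fun x _ => by rw [coeff_mul_X_pow', ih]

theorem s5_main {B : ℕ} {p q : ℕ[X]} (h : p.eval 1 * q.eval 1 < B - 1) (hq : 1 ≤ q.eval 1)
    (S M lo : ℕ) : p.eval B % B ^ S * q.eval B / B ^ lo % B ^ (M - lo) % (B - 1) =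
      ∑ u ∈ range S, ∑ v ∈ range M,
        if lo ≤ u + v ∧ u + v < M then p.coeff u * q.coeff v else 0 := by
  have h1 : p.eval 1 ≤ p.eval 1 * q.eval 1 := Nat.le_mul_of_pos_right _ hq
  have hf : ∀ i, p.coeff i < B := fun i => by
    have := s5_coeff_le p i
    omega
  obtain ⟨t, ht⟩ : ∃ t : ℕ[X], t = ∑ i ∈ range S, monomial i (p.coeff i) := ⟨_, rfl⟩
  have t1 : ∀ x, t.eval x = ∑ i ∈ range S, p.coeff i * x ^ i := fun x => by
    rw [ht, eval_finsetSum]
    exact sum_congr rfl fun i _ => eval_monomial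
  have t2 : ∀ u, t.coeff u = if u < S then p.coeff u else 0 := fun u => by
    rw [ht, finsetSum_coeff]
    simp only [coeff_monomial, sum_ite_eq', mem_range]
  have t3 : t.eval 1 ≤ p.eval 1 := by
    rw [t1]
    simpa using s5_sum_le p 0 S
  have t4 : (t * q).eval 1 < B - 1 := by
    rw [eval_mul]
    exact (Nat.mul_le_mul_right _ t3).trans_lt h
  have t5 : ∀ i ∈ range (M - lo), (t * q).coeff (lo + i) = ∑ u ∈ range S, ∑ v ∈ range M,
      if u + v = lo + i then p.coeff u * q.coeff v else 0 := by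
    intro i hi
    have hi' := mem_range.1 hi
    rw [coeff_mul, ← sum_product', ← sum_filter]
    simp only [t2, ite_mul, zero_mul]
    rw [← sum_filter]
    refine sum_congr ?_ fun _ _ => rfl
    ext x
    simp only [mem_filter, HasAntidiagonal.mem_antidiagonal, mem_product, mem_range]
    omega
  rw [s5_eval p B S, s5_mod _ hf, ← t1, ← eval_mul, s5_window _ t4, sum_congr rfl t5, sum_comm]
  refine sum_congr rfl fun u _ => ?_
  rw [sum_comm]
  refine sum_congr rfl fun v _ => ?_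
  split_ifs with hc
  · rw [sum_eq_single_of_mem (u + v - lo) (mem_range.2 (by omega)), if_pos (by omega)]
    exact fun b _ hb => if_neg (by omega)
  · exact sum_eq_zero fun i hi => if_neg (by have := mem_range.1 hi; omega)

theorem s5_G1 : G1 = (∑ i ∈ range 256, X ^ i : ℕ[X]).eval (2 ^ 96) := by
  rw [eval_finsetSum]
  simp only [eval_pow, eval_X]
  rw [Nat.geomSum_eq (by norm_num)]
  rfl

theorem s5_one : (∑ i ∈ range 256, X ^ i : ℕ[X]).eval 1 = 256 := by
  rw [eval_finsetSum]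
  simp only [eval_pow, eval_X, one_pow, sum_const, card_range, smul_eq_mul, mul_one]

theorem s5_ct (n n' r s : ℕ) : ct n n' r s = G1 ^ n % (2 ^ 96) ^ (256 * s) * G1 ^ n' /
    (2 ^ 96) ^ (256 * r - (256 + (n + n'))) %
      (2 ^ 96) ^ (256 * r + 2 - (256 * r - (256 + (n + n')))) % (2 ^ 96 - 1) := by
  rw [← pow_mul, ← pow_mul, ← pow_mul, ← mul_assoc, ← Nat.shiftRight_eq_div_pow]
  exact fz_eq _ _

theorem ct_eq {n n' : ℕ} (h : n + n' ≤ 11) (r s : ℕ) : ct n n' r s = cT n n' r s := by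
  have h1 : 256 ^ n * 256 ^ n' < 2 ^ 96 - 1 := by
    rw [← pow_add]
    exact (Nat.pow_le_pow_right (by norm_num) h).trans_lt (by norm_num)
  rw [s5_ct, s5_G1, ← eval_pow, ← eval_pow, s5_main (by rwa [eval_pow, eval_pow, s5_one])
    (by rw [eval_pow, s5_one]; exact Nat.one_le_pow _ _ (by norm_num)), cT]
  refine sum_congr rfl fun u _ => sum_congr rfl fun v _ => ?_
  rw [s5_coeff, s5_coeff]
  exact if_congr (by omega) rfl rfl

theorem ct_lt (n n' r s : ℕ) : ct n n' r s < 2 ^ 96 := by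
  rw [s5_ct]
  exact (Nat.mod_lt _ (by norm_num)).trans (by norm_num)

end Pool.Agent.Work.MP_82fd4a_nt.BS
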