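import Pool.Agent.Work.MP_82fd4a_nt.NumS3
import Pool.Agent.Work.MP_82fd4a_nt.NumS5
import Pool.Agent.Work.MP_82fd4a_nt.RuleEqs

/-! Bit sliced arithmetic: the weights. -/

set_option autoImplicit false

namespace Pool.Agent.Work.MP_82fd4a_nt.BS

lemma s6_le_shift (x sh : ℕ) : x ≤ 2 ^ sh * Nat.succ (Nat.shiftRight x sh) := by
  have h : Nat.shiftRight x sh = x / 2 ^ sh := Nat.shiftRight_eq_div_pow x sh
  rw [h]
  exact (Nat.lt_mul_div_succ x (by positivity)).le

lemma s6_shift_lt {x : ℕ} (sh : ℕ) (hx : x < 2 ^ 96) : Nat.succ (Nat.shiftRight x sh) < 2 ^ 100 := by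
  have h : Nat.shiftRight x sh = x / 2 ^ sh := Nat.shiftRight_eq_div_pow x sh
  rw [h]
  have h2 : x / 2 ^ sh ≤ x := Nat.div_le_self _ _
  have h3 : (2 : ℕ) ^ 96 + 1 < 2 ^ 100 := by norm_num
  omega

lemma s6_row_length (cs : List (List ℕ)) (i : ℕ) : (row cs i).length = cs.length :=
  List.length_map _

lemma s6_val_upd {T : ℕ} (hT : T < 2 ^ 100) (A : ℕ) (V : List ℕ) (i : ℕ) :
    val (upd A T V) i = if (A.testBit i && decide (T < val V i)) then T else val V i := by
  unfold upd
  rw [fl_eq, val_sel hT, tb_az, tb_gt]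

lemma s6_step {o i : ℕ} (ho : o.testBit i = true) {r : ℕ} (hr : r ≤ 52) (cs : List (List ℕ))
    (hk : cs.length ≤ 10) (sh n s : ℕ)
    (h : (orN (pw cs.length 1) (Nat.succ n) (ev (Am (Lm o r cs) cs (Nat.sub 46 s)))).testBit i = true) :
    Vm r (row cs i) ≤ 2 ^ sh * Nat.succ (Nat.shiftRight
      (ct (Nat.succ n) (Nat.sub cs.length (Nat.add n 2)) r (Nat.succ s)) sh) := by
  obtain ⟨p, hp, hl, hb⟩ := tb_orN _ _ _ h
  have hsub : p.1.Subperm (pw cs.length 1 ++ pw cs.length 1) :=
    ((splits_sublist hp).1.trans (List.sublist_append_left _ _)).subperm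
  unfold ev at hb
  rw [fz_eq, sl_eq] at hb
  unfold Am at hb
  rw [tb_az, tb_az, tb_gt, tb_gt, Bool.and_eq_true, Bool.and_eq_true, tb_Lm ho hr cs hsub,
    (sumM_spec cs i hsub).1, decide_eq_true_eq, decide_eq_true_eq] at hb
  have hc : (pw cs.length 1).map (ent (row cs i)) = row cs i := by
    have h0 := pw_map (row cs i)
    rwa [s6_row_length] at h0
  have hq : (p.1.map (ent (row cs i)), p.2.map (ent (row cs i))) ∈ splits (row cs i) := by
    have h0 := splits_map (ent (row cs i)) (pw cs.length 1)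
    rw [hc] at h0
    rw [h0]
    exact List.mem_map.2 ⟨p, hp, rfl⟩
  have h1 := Vm_le hq hb.1.1
  have h2 := splits_length hq
  simp only [List.length_map, s6_row_length] at h1 h2
  have hl' : p.1.length = n + 1 := hl
  have e1 : Nat.sub cs.length (Nat.add n 2) = cs.length - (n + 2) := rfl
  have e2 : Nat.sub 46 s = 46 - s := rfl
  have h3 := hb.2
  rw [e2] at h3
  refine le_trans ?_ (s6_le_shift _ sh)
  rw [e1, ct_eq (by omega)]
  rw [hl', show cs.length - 1 - (n + 1) = cs.length - (n + 2) by omega] at h1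
  exact h1.trans (cT_mono _ _ _ (by omega))

lemma s6_rec (Q : List ℕ → Prop) (V : List ℕ) (F : ℕ → List ℕ → List ℕ) (h0 : Q V)
    (h : ∀ s V', Q V' → Q (F s V')) (m : ℕ) : Q (Nat.rec V F m) := by
  induction m with
  | zero => exact h0
  | succ s ih => exact h s _ ih

theorem volV_spec {o i : ℕ} (ho : o.testBit i = true) {r : ℕ} (hr : r ≤ 52) (cs : List (List ℕ))
    (hk : cs.length ≤ 10) (sh nv : ℕ) :
    Vm r (row cs i) ≤ 2 ^ sh * val (volV o cs.length r sh (Lm o r cs) cs (pw cs.length 1) nv) i := by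
  induction nv with
  | zero =>
    have e : volV o cs.length r sh (Lm o r cs) cs (pw cs.length 1) 0 =
      cst o 100 (Nat.succ (Nat.shiftRight (ct 0 (Nat.pred cs.length) r 48) sh)) := rfl
    rw [e, val_cst (s6_shift_lt sh (ct_lt _ _ _ _)), if_pos ho]
    refine le_trans ?_ (s6_le_shift _ sh)
    have e1 : Nat.pred cs.length = cs.length - 1 := rfl
    rw [e1, ct_eq (by omega)]
    have h1 := Vm_le (r := r) (nil_mem_splits (row cs i)) (by simp [RB])
    simpa [s6_row_length] using h1
  | succ n ih =>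
    have e : volV o cs.length r sh (Lm o r cs) cs (pw cs.length 1) (n + 1) =
      Nat.rec (volV o cs.length r sh (Lm o r cs) cs (pw cs.length 1) n)
        (fun s V' => fz (orN (pw cs.length 1) (Nat.succ n) (ev (Am (Lm o r cs) cs (Nat.sub 46 s))))
          fun A => iz A V' (upd A (Nat.succ (Nat.shiftRight
            (ct (Nat.succ n) (Nat.sub cs.length (Nat.add n 2)) r (Nat.succ s)) sh)) V'))
        (Nat.min (Nat.succ n) 4) := rfl
    rw [e]
    refine s6_rec (fun V => Vm r (row cs i) ≤ 2 ^ sh * val V i) _ _ ih (fun s V' ihs => ?_) _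
    rw [fz_eq, iz_eq]
    split_ifs with hA
    · exact ihs
    · rw [s6_val_upd (s6_shift_lt sh (ct_lt _ _ _ _))]
      split_ifs with hB
      · rw [Bool.and_eq_true] at hB
        exact s6_step ho hr cs hk sh n s hB.1
      · exact ihs

lemma s6_rcp {v : ℕ} (hv : 0 < v) : 2 ^ 20 ≤ rcp v * v := by
  have e : rcp v = 1048576 / v + 1 := rfl
  rw [e, mul_comm]
  exact (Nat.lt_mul_div_succ 1048576 hv).le

lemma s6_rcp_lt (v : ℕ) : rcp v < 2 ^ 100 := by
  have e : rcp v = 1048576 / v + 1 := rfl
  have h : 1048576 / v ≤ 1048576 := Nat.div_le_self _ _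
  have h3 : 1048576 + 1 < 2 ^ 100 := by norm_num
  omega

lemma s6_pend_cons (r a : ℕ) (c : List ℕ) :
    pend r (a :: c) = (if c.length + 1 ≤ r then a + 1 else a) * pend r c := by
  unfold pend
  rw [List.length_cons]
  split_ifs with h
  · rw [show c.length + 1 - r = 0 by omega, show c.length - r = 0 by omega]
    simp
  · rw [show c.length + 1 - r = (c.length - r) + 1 by omega]
    simp [mul_assoc]

theorem pendV_spec {o i : ℕ} (ho : o.testBit i = true) (sh r : ℕ) (cs : List (List ℕ))
    (h : ∀ a ∈ row cs i, 4 ≤ a ∧ a ≤ 47) (P : List ℕ) :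
    val P i * 2 ^ (20 * cs.length) ≤
      2 ^ (sh * cs.length) * val (pendV o sh r cs P cs.length) i * pend r (row cs i) := by
  induction cs generalizing P with
  | nil =>
    have e : pendV o sh r [] P ([] : List (List ℕ)).length = P := rfl
    rw [e]
    simp [pend, row]
  | cons c t ih =>
    have e : pendV o sh r (c :: t) P (c :: t).length = pendV o sh r t
      (mulu o sh P (lk o c (fun v => rcp (il (t.length + 1) r (Nat.succ v) v)) 44 4)) t.length := rfl
    have er : row (c :: t) i = val c i :: row t i := rfl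
    rw [er] at h
    have hc := h _ List.mem_cons_self
    have h1 := ih (fun a ha => h a (List.mem_cons_of_mem _ ha))
      (mulu o sh P (lk o c (fun v => rcp (il (t.length + 1) r (Nat.succ v) v)) 44 4))
    have h2 := val_mulu ho sh P (lk o c (fun v => rcp (il (t.length + 1) r (Nat.succ v) v)) 44 4)
    have h3 := val_lk ho c (fun v => rcp (il (t.length + 1) r (Nat.succ v) v)) (n := 44) (v := 4)
      hc.1 (by omega) (s6_rcp_lt _)
    rw [e, er, s6_pend_cons, s6_row_length, List.length_cons]
    have ew : il (t.length + 1) r (Nat.succ (val c i)) (val c i) =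
      if t.length + 1 ≤ r then val c i + 1 else val c i := il_eq _ _ _ _
    beta_reduce at h3
    rw [ew] at h3
    have hw : 0 < (if t.length + 1 ≤ r then val c i + 1 else val c i) := by
      split_ifs <;> omega
    have h4 := s6_rcp hw
    generalize (if t.length + 1 ≤ r then val c i + 1 else val c i) = w at *
    generalize val (lk o c (fun v => rcp (il (t.length + 1) r (Nat.succ v) v)) 44 4) i = K at *
    generalize val (pendV o sh r t
      (mulu o sh P (lk o c (fun v => rcp (il (t.length + 1) r (Nat.succ v) v)) 44 4)) t.length) i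
      = R at *
    generalize val (mulu o sh P (lk o c (fun v => rcp (il (t.length + 1) r (Nat.succ v) v)) 44 4)) i
      = P' at *
    have h5 : val P i * 2 ^ 20 ≤ 2 ^ sh * P' * w :=
      calc val P i * 2 ^ 20 ≤ val P i * (K * w) :=
            Nat.mul_le_mul_left _ (h4.trans (Nat.mul_le_mul_right _ h3))
        _ = val P i * K * w := (mul_assoc _ _ _).symm
        _ ≤ _ := Nat.mul_le_mul_right _ h2
    calc val P i * 2 ^ (20 * (t.length + 1)) = val P i * 2 ^ 20 * 2 ^ (20 * t.length) := by
          rw [mul_add, pow_add]; ring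
      _ ≤ 2 ^ sh * P' * w * 2 ^ (20 * t.length) := Nat.mul_le_mul_right _ h5
      _ = 2 ^ sh * w * (P' * 2 ^ (20 * t.length)) := by ring
      _ ≤ 2 ^ sh * w * (2 ^ (sh * t.length) * R * pend r (row t i)) := Nat.mul_le_mul_left _ h1
      _ = _ := by rw [mul_add, pow_add]; ring

lemma s6_val_one {o i : ℕ} (ho : o.testBit i = true) : val [o] i = 1 := by
  rw [val_cons, val_nil, ho]; rfl

lemma s6_count {o i : ℕ} (ho : o.testBit i = true) (c : List ℕ) (t : List (List ℕ)) :
    val (List.rec [o] (fun c' _ ih' => inc ih' (eqv c c' o)) t) i =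
      (row t i).count (val c i) + 1 := by
  induction t with
  | nil => exact s6_val_one ho
  | cons c' t ih =>
    have er : row (c' :: t) i = val c' i :: row t i := rfl
    refine (val_inc _ _ _).trans ?_
    rw [ih, tb_eqv, ho, er, List.count_cons]
    by_cases h : val c i = val c' i
    · simp [h]
    · have h' : ¬ val c' i = val c i := fun h0 => h h0.symm
      simp [h, h']

theorem mfV_spec {o i : ℕ} (ho : o.testBit i = true) (cs : List (List ℕ)) :
    val (mfV o cs) i = mf (row cs i) := by
  induction cs with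
  | nil => exact s6_val_one ho
  | cons c t ih =>
    have e : mfV o (c :: t) = fl (trim (mul (mfV o t)
      (List.rec [o] (fun c' _ ih' => inc ih' (eqv c c' o)) t))) fun x => x := rfl
    have er : row (c :: t) i = val c i :: row t i := rfl
    rw [e, fl_eq, val_trim, val_mul, ih, s6_count ho, er, mf, mul_comm]

theorem mfR_spec {o i : ℕ} (ho : o.testBit i = true) (M : List ℕ) (hM : 0 < val M i)
    (ks : List ℕ) (hk : ∀ K ∈ ks, 0 < K) : 2 ^ 20 ≤ val (mfR o M ks) i * val M i := by
  induction ks with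
  | nil =>
    have e : mfR o M [] = cst o 100 1048576 := rfl
    rw [e, val_cst (by norm_num), if_pos ho]
    exact Nat.le_mul_of_pos_right _ hM
  | cons K t ih =>
    have e : mfR o M (K :: t) = fl (sel (gt M (Nat.pred K)) (rcp K) (mfR o M t)) fun x => x := rfl
    rw [e, fl_eq, val_sel (s6_rcp_lt K), tb_gt]
    have hK := hk K List.mem_cons_self
    split_ifs with h
    · rw [decide_eq_true_eq] at h
      have e1 : Nat.pred K = K - 1 := rfl
      exact (s6_rcp hK).trans (Nat.mul_le_mul_left _ (by omega))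
    · exact ih fun K hK => hk K (List.mem_cons_of_mem _ hK)

theorem Wk_ten : Wk 10 = 31446 := by
  decide +kernel

lemma s6_tab : ∀ a ∈ Finset.Icc 4 10, ∀ b ∈ Finset.Icc 4 47,
    Tm b (a + 1) ≤ nth (tab.getD (a - 4) []) b := by
  decide +kernel

theorem Tm_le_tab {a b : ℕ} (h1 : 4 ≤ a) (h2 : a ≤ 10) (h3 : 4 ≤ b) (h4 : b ≤ 47) :
    Tm b (a + 1) ≤ nth (tab.getD (a - 4) []) b :=
  s6_tab a (Finset.mem_Icc.2 ⟨h1, h2⟩) b (Finset.mem_Icc.2 ⟨h3, h4⟩)

/-- the look up in the two dimensional table -/
noncomputable def s6_inner (o : ℕ) (c0 c : List ℕ) (T : List (List ℕ)) : ℕ → List ℕ :=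
  List.rec (fun _ => []) (fun row _ ih' a => fz (eqc c0 a o) fun g =>
    iz g (ih' (Nat.succ a)) (orp (lk g c (nth row) 44 4) (ih' (Nat.succ a)))) T

lemma s6_inner_spec {o i : ℕ} (ho : o.testBit i = true) (c0 c : List ℕ) (T : List (List ℕ))
    (hT : ∀ w ∈ T, ∀ v, nth w v < 2 ^ 100) (h3 : 4 ≤ val c i) (h4 : val c i ≤ 47) (a : ℕ)
    (ha : a ≤ val c0 i) :
    nth (T.getD (val c0 i - a) []) (val c i) ≤ val (s6_inner o c0 c T a) i := by
  induction T generalizing a with
  | nil => exact Nat.zero_le _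
  | cons w T ih =>
    have e : s6_inner o c0 c (w :: T) a = fz (eqc c0 a o) fun g =>
      iz g (s6_inner o c0 c T (Nat.succ a))
        (orp (lk g c (nth w) 44 4) (s6_inner o c0 c T (Nat.succ a))) := rfl
    rw [e, fz_eq, iz_eq]
    by_cases h : val c0 i = a
    · have hg : (eqc c0 a o).testBit i = true := by rw [tb_eqc, ho, h]; simp
      have hg0 : eqc c0 a o ≠ 0 := fun h0 => by rw [h0] at hg; simp at hg
      rw [if_neg hg0, h, Nat.sub_self, List.getD_cons_zero]
      exact (val_lk hg c (nth w) h3 (by omega) (hT w List.mem_cons_self _)).trans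
        (le_val_orp _ _ _).1
    · have h5 := ih (fun w hw => hT w (List.mem_cons_of_mem _ hw)) (a + 1) (by omega)
      rw [show val c0 i - a = (val c0 i - (a + 1)) + 1 by omega, List.getD_cons_succ]
      split_ifs with h0
      · exact h5
      · exact h5.trans (le_val_orp _ _ _).2

lemma s6_tab_lt : ∀ w ∈ tab, ∀ v, nth w v < 2 ^ 100 := by
  have h : ∀ w ∈ tab, ∀ x ∈ w, x < 2 ^ 100 := by decide +kernel
  intro w hw v
  rw [nth_eq]
  by_cases hv : v < w.length
  · rw [List.getD_eq_getElem _ _ hv]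
    exact h w hw _ (List.getElem_mem hv)
  · rw [List.getD_eq_default _ _ (not_lt.1 hv)]
    positivity

lemma s6_mark {o i : ℕ} (ho : o.testBit i = true) (c0 : List ℕ) (h1 : 4 ≤ val c0 i)
    (h2 : val c0 i ≤ 10) (t : List (List ℕ)) (h : ∀ a ∈ row t i, 4 ≤ a ∧ a ≤ 47) :
    (31446 : ℝ) + ((row t i).map fun b => (Tm b (val c0 i + 1) : ℝ)).sum ≤
      val (List.rec (cst o 100 31446) (fun c _ ih => add ih (s6_inner o c0 c tab 4)) t) i := by
  induction t with
  | nil =>
    have e : val (cst o 100 31446) i = 31446 := by rw [val_cst (by norm_num), if_pos ho]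
    have e2 : val (List.rec (cst o 100 31446)
      (fun c _ ih => add ih (s6_inner o c0 c tab 4)) ([] : List (List ℕ))) i = 31446 := e
    rw [e2]
    simp [row]
  | cons c t ih =>
    have er : row (c :: t) i = val c i :: row t i := rfl
    rw [er] at h
    have hc := h _ List.mem_cons_self
    have h5 := ih fun a ha => h a (List.mem_cons_of_mem _ ha)
    have e2 : val (List.rec (cst o 100 31446)
      (fun c _ ih => add ih (s6_inner o c0 c tab 4)) (c :: t)) i =
        val (List.rec (cst o 100 31446) (fun c _ ih => add ih (s6_inner o c0 c tab 4)) t) i +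
          val (s6_inner o c0 c tab 4) i := val_add _ _ _
    have h6 := s6_inner_spec ho c0 c tab s6_tab_lt hc.1 hc.2 4 h1
    have h7 := Tm_le_tab h1 h2 hc.1 hc.2
    have h8 : (Tm (val c i) (val c0 i + 1) : ℝ) ≤ val (s6_inner o c0 c tab 4) i := by
      have h9 : Tm (val c i) (val c0 i + 1) ≤ (val (s6_inner o c0 c tab 4) i : ℚ) :=
        h7.trans (Nat.cast_le.2 h6)
      exact_mod_cast h9
    rw [e2, er, List.map_cons, List.sum_cons, Nat.cast_add]
    linarith

theorem mark_spec {o i : ℕ} (ho : o.testBit i = true) {r : ℕ} (cs : List (List ℕ))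
    (hk : cs.length = 10) (h : Alive r (row cs i)) :
    LB r (row cs i) ≤ val (mark o 31446 tab cs) i := by
  cases cs with
  | nil => simp at hk
  | cons c0 t =>
    have e : mark o 31446 tab (c0 :: t) = List.rec (cst o 100 31446)
      (fun c _ ih => add ih (s6_inner o c0 c tab 4)) (c0 :: t) := rfl
    have er : row (c0 :: t) i = val c0 i :: row t i := rfl
    obtain ⟨hs, hb, hsum, -, -⟩ := h
    have h1 : 4 ≤ val c0 i := (hb _ (er ▸ List.mem_cons_self)).1
    have h2 : val c0 i ≤ 10 := by
      rw [er] at hs hsum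
      have h3 := List.card_nsmul_le_sum (row t i) (val c0 i) (List.pairwise_cons.1 hs).1
      rw [s6_row_length, smul_eq_mul] at h3
      rw [List.length_cons] at hk
      rw [List.sum_cons] at hsum
      have h4 : t.length = 9 := by omega
      rw [h4] at h3
      omega
    have h5 := s6_mark ho c0 h1 h2 (c0 :: t) hb
    unfold LB
    rw [if_neg (by rw [s6_row_length]; omega), Wk_ten, e]
    have e3 : (row (c0 :: t) i).headI = val c0 i := rfl
    rw [e3]
    exact_mod_cast h5

end Pool.Agent.Work.MP_82fd4a_nt.BS
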