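import Pool.Agent.Work.MP_82fd4a_nt.NumS2
import Pool.Agent.Work.MP_82fd4a_nt.NumS4
import Pool.Agent.Work.MP_82fd4a_nt.NumS6
import Pool.Agent.Work.MP_82fd4a_nt.RuleMap
import Pool.Agent.Work.MP_82fd4a_nt.RuleBound
import Pool.Agent.Work.MP_82fd4a_nt.LossT

/-! Bit sliced arithmetic: the whole computation. -/

set_option autoImplicit false

namespace Pool.Agent.Work.MP_82fd4a_nt.BS

/-- the program bounds the loss -/
def XOK (k r : ℕ) (X : ℕ → (ℕ → ℕ) → List (List ℕ) → List ℕ → List ℕ) : Prop :=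
  ∀ (o i : ℕ) (cs : List (List ℕ)), o.testBit i = true → cs.length = k → Alive r (row cs i) →
    LB r (row cs i) ≤ val (X o (Lm o r cs) cs (pw k 1)) i

lemma s7_len (cs : List (List ℕ)) (i : ℕ) : (row cs i).length = cs.length := List.length_map _

lemma s7_trim (cs : List (List ℕ)) (i : ℕ) : row (mp trim cs) i = row cs i := by
  rw [mp_eq, row, row, List.map_map]
  exact List.map_congr_left fun a _ => val_trim a i

lemma s7_mf (c : List ℕ) : 0 < mf c := by
  induction c with
  | nil => exact Nat.one_pos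
  | cons a c ih => exact Nat.mul_pos (Nat.succ_pos _) ih

lemma s7_arith {u T A B a R b V c pe m W : ℕ} (hu : 0 < u) (h1 : u * T ≤ A * a * pe)
    (h2 : a * R ≤ u * b) (h3 : u ≤ R * m) (h4 : b * V ≤ u * c) (h5 : W ≤ B * V) :
    W * T ≤ c * (B * A) * (pe * m) := by
  refine Nat.le_of_mul_le_mul_left (c := u * u) ?_ (Nat.mul_pos hu hu)
  calc u * u * (W * T) = (u * T) * u * W := by ring
    _ ≤ (A * a * pe) * (R * m) * (B * V) := by gcongr
    _ = (a * R) * V * (B * A * (pe * m)) := by ring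
    _ ≤ (u * b) * V * (B * A * (pe * m)) := by gcongr
    _ = u * (b * V) * (B * A * (pe * m)) := by ring
    _ ≤ u * (u * c) * (B * A * (pe * m)) := by gcongr
    _ = _ := by ring

lemma s7_vol {o i r : ℕ} (ho : o.testBit i = true) (cs : List (List ℕ)) (hk : cs.length ≤ 10)
    (h : Alive r (row cs i)) (sh shv nv : ℕ) :
    vol r (row cs i) ≤ val (mulu o 20 (mulu o 20 (pendV o sh r cs (cst o 100 1048576) cs.length)
      (mfR o (mfV o cs) keys)) (volV o cs.length r shv (Lm o r cs) cs (pw cs.length 1) nv)) i *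
        ((2 : ℝ) ^ (shv + sh * cs.length) / (2 ^ (20 * cs.length) * 256 ^ (cs.length - 1))) := by
  have hr : r ≤ 52 := by
    have := h.2.2.2.1
    rw [s7_len] at this
    omega
  have h1 := pendV_spec ho sh r cs h.2.1 (cst o 100 1048576)
  rw [val_cst (by norm_num), if_pos ho, show 1048576 = 2 ^ 20 by norm_num] at h1
  have h3 := mfR_spec ho (mfV o cs) (by rw [mfV_spec ho]; exact s7_mf _) keys (by decide)
  rw [mfV_spec ho] at h3
  have key := s7_arith (by norm_num) h1 (val_mulu ho 20 _ _) h3 (val_mulu ho 20 _ _)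
    (volV_spec ho hr cs hk shv nv)
  have hp : 0 < pend r (row cs i) := Nat.pos_of_ne_zero fun h0 => by
    rw [h0, mul_zero] at h1
    exact absurd h1 (not_le.2 (by positivity))
  have hp' : (0 : ℝ) < pend r (row cs i) := by exact_mod_cast hp
  have hm' : (0 : ℝ) < mf (row cs i) := by exact_mod_cast s7_mf _
  have key' := (Nat.cast_le (α := ℝ)).2 key
  push_cast at key'
  rw [vol, s7_len, ← mul_div_assoc, div_le_div_iff₀ (by positivity) (by positivity), pow_add]
  have := mul_le_mul_of_nonneg_right key' (show (0 : ℝ) ≤ 256 ^ (cs.length - 1) by positivity)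
  rw [show 1048576 = 2 ^ 20 by norm_num]
  push_cast
  linarith

theorem XE_ok {k : ℕ} (hk : k ≤ 9) (r : ℕ) : XOK k r XE := by
  rintro o i cs ho rfl h
  have hr : r ≤ 52 := by
    have := h.2.2.2.1
    rw [s7_len] at this
    omega
  have h1 := loss_spec ho (Lm o r cs) (Qm o 26 cs) (Qm o 52 cs) (pw cs.length 1)
  rw [PhiL_map _ (RB r) (ent (row cs i)) _
    (fun s hs => tb_Lm ho hr cs (hs.trans (List.sublist_append_left _ _).subperm))
    (fun s hs => by
      have := tb_Qm ho (K := 26) cs (by omega) hs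
      rwa [← List.length_map (ent (row cs i))] at this)
    (fun s hs => by
      have := tb_Qm ho (K := 52) cs (by omega) hs
      rwa [← List.length_map (ent (row cs i))] at this)] at h1
  have h2 := pw_map (row cs i)
  rw [s7_len] at h2
  rw [h2] at h1
  rw [LB, if_pos (by rw [s7_len]; exact hk)]
  exact max_le (Nat.cast_nonneg _) (by exact_mod_cast h1)

theorem XC_ok {k W : ℕ} (hk : k ≤ 9) (hW : Wk k ≤ W) (hW1 : W < 2 ^ 100) (r : ℕ) :
    XOK k r (XC W) := by
  rintro o i cs ho rfl -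
  have h1 := neg_PhiL_le (RB r) (row cs i)
  rw [s7_len] at h1
  rw [LB, if_pos (by rw [s7_len]; exact hk), XC, val_cst hW1, if_pos ho]
  refine max_le (Nat.cast_nonneg _) ?_
  exact_mod_cast h1.trans (Nat.cast_le.2 hW)

theorem XM_ok (r : ℕ) : XOK 10 r (XM 31446 tab) := by
  intro o i cs ho hk h
  exact mark_spec ho cs hk h

theorem run_sound {k r sh shv nv v : ℕ} (hk1 : 1 ≤ k) (hk : k ≤ 10)
    {X : ℕ → (ℕ → ℕ) → List (List ℕ) → List ℕ → List ℕ} (hX : XOK k r X)
    (h : run k r sh shv nv X * 2 ^ (shv + sh * k) * 10 ^ 8 ≤ v * (2 ^ (20 * k) * 256 ^ (k - 1))) :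
    ∑ c ∈ Boxes k with 100 - c.sum = r, LB r c * vol r c ≤ v / 10 ^ 8 := by
  obtain ⟨lg, o, cs0, e, hc⟩ := run_spec (r := r) hk1 hk sh shv nv X
  rw [e, fin, fll_eq, fl_eq, lanes_eq] at h
  simp only [← s7_trim cs0] at hc
  generalize mp trim cs0 = cs at h hc
  set Z := mul (mulu o 20 (mulu o 20 (pendV o sh r cs (cst o 100 1048576) k)
    (mfR o (mfV o cs) keys)) (volV o k r shv (Lm o r cs) cs (pw k 1) nv))
      (X o (Lm o r cs) cs (pw k 1)) with hZ
  set D : ℝ := (2 : ℝ) ^ (shv + sh * k) / (2 ^ (20 * k) * 256 ^ (k - 1)) with hD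
  have hD0 : 0 ≤ D := by positivity
  have hS : ∀ c ∈ (Boxes k).filter (fun c => 100 - c.sum = r), c.length = k ∧ Alive r c := by
    intro c hc
    obtain ⟨h1, h2⟩ := Finset.mem_filter.1 hc
    exact h2 ▸ mem_Boxes.1 h1
  choose! j hj1 hj2 hj3 using hc
  have h1 : ∀ c ∈ (Boxes k).filter (fun c => 100 - c.sum = r),
      LB r c * vol r c ≤ val Z (j c) * D := by
    intro c hc
    obtain ⟨hl, ha⟩ := hS c hc
    have e1 := hj3 c hl ha
    have hcs : cs.length = k := by rw [← s7_len cs (j c), e1, hl]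
    have ha' : Alive r (row cs (j c)) := by rwa [e1]
    have h2 := hX o (j c) cs (hj2 c hl ha) hcs ha'
    have h3 := s7_vol (hj2 c hl ha) cs (hcs ▸ hk) ha' sh shv nv
    rw [hcs, e1] at h3
    rw [e1] at h2
    have h4 : 0 ≤ vol r c := by unfold vol; positivity
    rw [hZ, val_mul, Nat.cast_mul, mul_right_comm, mul_comm (LB r c)]
    exact (mul_le_mul_of_nonneg_left h2 h4).trans
      (mul_le_mul_of_nonneg_right h3 (Nat.cast_nonneg _))
  refine (Finset.sum_le_sum h1).trans ?_
  rw [← Finset.sum_mul, ← Finset.sum_image (f := fun i => (val Z i : ℝ)) (g := j)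
    (fun c hc c' hc' he => by
      rw [← hj3 c (hS c hc).1 (hS c hc).2, he, hj3 c' (hS c' hc').1 (hS c' hc').2])]
  refine (mul_le_mul_of_nonneg_right (Finset.sum_le_sum_of_subset_of_nonneg
    (t := Finset.range (2 ^ lg)) ?_ fun _ _ _ => Nat.cast_nonneg _) hD0).trans ?_
  · intro i hi
    obtain ⟨c, hc, rfl⟩ := Finset.mem_image.1 hi
    exact Finset.mem_range.2 (hj1 c (hS c hc).1 (hS c hc).2)
  · rw [hD, ← mul_div_assoc, div_le_div_iff₀ (by positivity) (by positivity)]
    exact_mod_cast h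

end Pool.Agent.Work.MP_82fd4a_nt.BS
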