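import Pool.Agent.Work.MP_82fd4a_nt.Setup
import Pool.Agent.Work.MP_82fd4a_nt.TypeI
import Pool.Agent.Work.MP_82fd4a_nt.Fund
import Pool.Agent.Work.MP_82fd4a_nt.SumIA

/-! The linear part of the decomposition. -/

set_option autoImplicit false
open Filter Topology Finset

namespace Pool.Agent.Work.MP_82fd4a_nt

/-- one value of the parameter: the normalised sum is close to a main term -/
lemma si_one (x : ℕ) (T z b Λ : ℝ) (y K J : ℕ) (S E : Finset ℕ) (lam err : ℕ → ℝ) {δ B₁ B₂ : ℝ}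
    (hG : 0 < Gam x T) (hS : ∀ p ∈ S ×ˢ tup K J Λ, 0 < p.1 * ∏ i, p.2 i)
    (hE : ∀ e ∈ E, 1 ≤ e)
    (h : ∀ n : ℕ, 1 ≤ n → |rf z n - ∑ e ∈ E with e ∣ n, lam e| ≤ ∑ e ∈ E with e ∣ n, err e)
    (h1 : |∑ p ∈ S ×ˢ tup K J Λ, tau p.1 *
        ∑ d ∈ siD x z b y, (ArithmeticFunction.moebius d : ℝ) * ∑ e ∈ E, lam e *
        (siG x T ((p.1 * ∏ i, p.2 i) * d * e)
          - Gam x T / (((p.1 * ∏ i, p.2 i : ℕ) : ℝ) * d * e))| ≤ Gam x T * δ)
    (h2 : |∑ p ∈ S ×ˢ tup K J Λ, tau p.1 * ∑ d ∈ siD x z b y, (1 : ℝ) * ∑ e ∈ E, err e *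
        (siG x T ((p.1 * ∏ i, p.2 i) * d * e)
          - Gam x T / (((p.1 * ∏ i, p.2 i : ℕ) : ℝ) * d * e))| ≤ Gam x T * δ)
    (hB₁ : ∑ d ∈ siD x z b y, (1 / (d : ℝ)) ≤ B₁) (hB₂ : ∑ e ∈ E, err e / e ≤ B₂) (hB : 0 ≤ B₂) :
    |SS x T K J Λ S tau (fun n => rf z n * Phi b y n) / Gam x T
      - ∑ p ∈ S ×ˢ tup K J Λ, tau p.1 *
        ∑ d ∈ siD x z b y, (ArithmeticFunction.moebius d : ℝ) * ∑ e ∈ E, lam e *
          (1 / (((p.1 * ∏ i, p.2 i : ℕ) : ℝ) * d * e))|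
      ≤ WW K J Λ S tau * (B₁ * B₂) + 2 * δ := by
  set P := S ×ˢ tup K J Λ with hP
  set D := siD x z b y with hD
  have hD1 : ∀ d ∈ D, 0 < d := fun d hd => (mem_Icc.1 (mem_filter.1 hd).1).1
  have e1 : SS x T K J Λ S tau (fun n => rf z n * Phi b y n)
      = ∑ p ∈ P, tau p.1 * ∑ d ∈ D, (ArithmeticFunction.moebius d : ℝ) *
          ∑ k ∈ Icc 1 (2 * x), rf z k * gk x T ((p.1 * ∏ i, p.2 i) * d * k) := by
    unfold SS
    rw [← sum_product']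
    refine sum_congr rfl fun p hp => ?_
    rw [← si_expand x T z b y (hS p hp), mul_sum]
    refine sum_congr rfl fun n _ => ?_
    ring
  -- the sieve error
  have e2 : |SS x T K J Λ S tau (fun n => rf z n * Phi b y n)
      - ∑ p ∈ P, tau p.1 * ∑ d ∈ D, (ArithmeticFunction.moebius d : ℝ) *
          ∑ e ∈ E, lam e * siG x T ((p.1 * ∏ i, p.2 i) * d * e)|
      ≤ ∑ p ∈ P, tau p.1 * ∑ d ∈ D, (1 : ℝ) *
          ∑ e ∈ E, err e * siG x T ((p.1 * ∏ i, p.2 i) * d * e) := by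
    rw [e1, ← sum_sub_distrib]
    refine (abs_sum_le_sum_abs _ _).trans (sum_le_sum fun p hp => ?_)
    rw [← mul_sub, abs_mul, abs_of_nonneg (tau_nonneg _), ← sum_sub_distrib]
    refine mul_le_mul_of_nonneg_left ?_ (tau_nonneg _)
    refine (abs_sum_le_sum_abs _ _).trans (sum_le_sum fun d hd => ?_)
    rw [← mul_sub, abs_mul]
    refine mul_le_mul ?_ (si_sieve x T z (Nat.mul_pos (hS p hp) (hD1 d hd)) E hE lam err h)
      (abs_nonneg _) zero_le_one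
    exact_mod_cast ArithmeticFunction.abs_moebius_le_one
  have split : ∀ c f : ℕ → ℝ, ∑ p ∈ P, tau p.1 * ∑ d ∈ D, c d * ∑ e ∈ E, f e *
        (siG x T ((p.1 * ∏ i, p.2 i) * d * e)
          - Gam x T / (((p.1 * ∏ i, p.2 i : ℕ) : ℝ) * d * e))
      = ∑ p ∈ P, tau p.1 * ∑ d ∈ D, c d * ∑ e ∈ E, f e * siG x T ((p.1 * ∏ i, p.2 i) * d * e)
        - Gam x T * ∑ p ∈ P, tau p.1 * ∑ d ∈ D, c d * ∑ e ∈ E, f e *
          (1 / (((p.1 * ∏ i, p.2 i : ℕ) : ℝ) * d * e)) := by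
    intro c f
    simp only [mul_sum, ← sum_sub_distrib]
    refine sum_congr rfl fun p _ => sum_congr rfl fun d _ => sum_congr rfl fun e _ => ?_
    ring
  rw [split] at h1
  rw [split (fun _ => 1)] at h2
  have e3 : ∑ p ∈ P, tau p.1 * ∑ d ∈ D, (1 : ℝ) * ∑ e ∈ E, err e *
          (1 / (((p.1 * ∏ i, p.2 i : ℕ) : ℝ) * d * e))
      = WW K J Λ S tau * ((∑ d ∈ D, (1 / (d : ℝ))) * ∑ e ∈ E, err e / e) := by
    unfold WW Psi
    rw [sum_mul_sum S, ← sum_product', sum_mul, sum_mul_sum D]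
    refine sum_congr rfl fun p _ => ?_
    simp only [mul_sum]
    refine sum_congr rfl fun d _ => sum_congr rfl fun e _ => ?_
    push_cast
    ring
  have hW : 0 ≤ WW K J Λ S tau :=
    mul_nonneg (sum_nonneg fun s _ => div_nonneg (tau_nonneg s) (Nat.cast_nonneg s))
      (Psi_nonneg _ _ _)
  have hDn : 0 ≤ ∑ d ∈ D, (1 / (d : ℝ)) := sum_nonneg fun _ _ => by positivity
  have e4 : (∑ d ∈ D, (1 / (d : ℝ))) * ∑ e ∈ E, err e / e ≤ B₁ * B₂ :=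
    (mul_le_mul_of_nonneg_left hB₂ hDn).trans (mul_le_mul_of_nonneg_right hB₁ hB)
  rw [e3] at h2
  have e5 := mul_le_mul_of_nonneg_left (mul_le_mul_of_nonneg_left e4 hW) hG.le
  rw [div_sub' hG.ne', abs_div, abs_of_pos hG, div_le_iff₀ hG]
  rw [abs_le] at h1 h2 e2 ⊢
  constructor <;> nlinarith [h1.1, h1.2, h2.1, h2.2, e2.1, e2.2]

theorem sum_Phi {ζ : ℝ} (hζ : 0 < ζ) : ∃ η₀ : ℝ, 0 < η₀ ∧ ∀ η : ℝ, 0 < η → η ≤ η₀ → ∀ K J : ℕ,
    ∀ᶠ x : ℕ in atTop, ∀ (Λ M b : ℝ) (y : ℕ) (S : Finset ℕ), Sized x K J Λ S M →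
    (∀ d ∈ Icc 1 (2 * x), Rough ((x : ℝ) ^ η) d → (ty b d).sum < y →
      d * M ≤ (x : ℝ) ^ (1 / 2 + del)) →
    ∀ T T' : ℝ, Real.log x ^ 2 ≤ T → T ≤ √(x : ℝ) → Real.log x ^ 2 ≤ T' → T' ≤ √(x : ℝ) →
    |SS x T K J Λ S tau (fun n => rf ((x : ℝ) ^ η) n * Phi b y n) / Gam x T
      - SS x T' K J Λ S tau (fun n => rf ((x : ℝ) ^ η) n * Phi b y n) / Gam x T'|
      ≤ ζ * WW K J Λ S tau / Real.log x + 4 * (x : ℝ) ^ (-del) := by
  obtain ⟨C, hC, hF⟩ := fund_lemma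
  have hdel : 0 < del := by unfold del; norm_num
  have hdel1 : del ≤ 1 := by unfold del; norm_num
  refine ⟨min (del / 10) (ζ * del ^ 3 / (38 * C)), by positivity, fun η hη hη0 K J => ?_⟩
  have hη1 : η ≤ del / 10 := hη0.trans (min_le_left _ _)
  have hη2 : η ≤ ζ * del ^ 3 / (38 * C) := hη0.trans (min_le_right _ _)
  have hs : 10 ≤ del / η := by rw [le_div_iff₀ hη]; linarith
  have ht : Tendsto (fun x : ℕ => (x : ℝ) ^ η) atTop atTop :=
    (tendsto_rpow_atTop hη).comp tendsto_natCast_atTop_atTop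
  have hl : Tendsto (fun x : ℕ => Real.log x) atTop atTop :=
    Real.tendsto_log_atTop.comp tendsto_natCast_atTop_atTop
  filter_upwards [ht.eventually (hF _ hs), si_typeI K J, si_inv_rough hη (by linarith),
    eventually_ge_atTop 1, hl.eventually_ge_atTop 1]
    with x hx hI hinv hx1 hL Λ M b y S hS hd T T' hT1 hT2 hT1' hT2'
  obtain ⟨E, lam, err, hE, hlam, herr, hpt, hsum⟩ := hx
  have hx1' : (1 : ℝ) ≤ x := by exact_mod_cast hx1
  have hx0 : (0 : ℝ) < x := by linarith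
  set z := (x : ℝ) ^ η with hz
  have hE' : ∀ e ∈ E, 1 ≤ e ∧ (e : ℝ) ≤ (x : ℝ) ^ del := by
    intro e he
    refine ⟨(hE e he).1, (hE e he).2.trans_eq ?_⟩
    rw [hz, ← Real.rpow_mul hx0.le]
    congr 1
    field_simp
  have hD : ∀ d ∈ siD x z b y, 1 ≤ d ∧ d * M ≤ (x : ℝ) ^ (1 / 2 + del) := by
    intro d hd'
    obtain ⟨h1, h2, h3⟩ := mem_filter.1 hd'
    exact ⟨(mem_Icc.1 h1).1, hd d h1 h2 h3⟩
  have hB₁ := hinv (siD x z b y) fun d hd' => by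
    obtain ⟨h1, h2, _⟩ := mem_filter.1 hd'
    exact ⟨(mem_Icc.1 h1).1, (mem_Icc.1 h1).2, h2⟩
  have hP : ∀ p ∈ S ×ˢ tup K J Λ, 0 < p.1 * ∏ i, p.2 i := by
    intro p hp
    obtain ⟨hp1, hp2⟩ := mem_product.1 hp
    have h1 := (hS.2.2 _ hp1 _ hp2).1
    have h2 : (0 : ℝ) < M := (Real.rpow_pos_of_pos hx0 _).trans_le hS.1
    exact_mod_cast h2.trans_le h1
  have hlz : Real.log z = η * Real.log x := Real.log_rpow hx0 η
  have hsq : √(x : ℝ) ≤ x := by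
    rw [Real.sqrt_le_left hx0.le]
    nlinarith
  have one : ∀ U : ℝ, Real.log x ^ 2 ≤ U → U ≤ √(x : ℝ) → _ := fun U hU1 hU2 =>
    si_one x U z b Λ y K J S E lam err
      (lt_of_lt_of_le (div_pos hx0 (by nlinarith)) (Gam_ge (by nlinarith) (hU2.trans hsq)))
      hP (fun e he => (hE e he).1) hpt
      (hI Λ M S hS _ E (fun d => (ArithmeticFunction.moebius d : ℝ)) lam hD hE'
        (fun d => by exact_mod_cast ArithmeticFunction.abs_moebius_le_one) hlam U hU1 hU2)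
      (hI Λ M S hS _ E (fun _ => 1) err hD hE' (fun _ => by simp) herr U hU1 hU2)
      hB₁ hsum (by rw [hlz]; positivity)
  have a1 := one T hT1 hT2
  have a2 := one T' hT1' hT2'
  have hW : 0 ≤ WW K J Λ S tau :=
    mul_nonneg (sum_nonneg fun s _ => div_nonneg (tau_nonneg s) (Nat.cast_nonneg s))
      (Psi_nonneg _ _ _)
  have hc : 2 * (19 / η * (C / ((del / η) ^ 3 * Real.log z))) ≤ ζ / Real.log x := by
    have h1 : 2 * (19 / η * (C / ((del / η) ^ 3 * Real.log z)))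
        = (η * (38 * C) / del ^ 3) / Real.log x := by
      rw [hlz]; field_simp; ring
    rw [h1]
    refine div_le_div_of_nonneg_right ?_ (by linarith)
    rw [le_div_iff₀ (by positivity)] at hη2
    rw [div_le_iff₀ (by positivity)]
    exact hη2
  have hc2 := mul_le_mul_of_nonneg_left hc hW
  have hc3 : WW K J Λ S tau * (ζ / Real.log x) = ζ * WW K J Λ S tau / Real.log x := by ring
  rw [abs_le] at a1 a2 ⊢
  constructor <;> linarith [a1.1, a1.2, a2.1, a2.2]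

end Pool.Agent.Work.MP_82fd4a_nt
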