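import Pool.Agent.Work.MP_82fd4a_nt.Conv
import Pool.Agent.Work.MP_82fd4a_nt.ConvEqs

/-! Higher moments and the maximum of random subset sums. -/

set_option autoImplicit false
open Finset

namespace Pool.Agent.Work.MP_82fd4a_nt

variable {Q : ℕ} [NeZero Q]

lemma recb_binom {u v : ℝ} (hu : 0 ≤ u) (hv : 0 ≤ v) (m : ℕ) :
    (u + v) ^ (m + 2) ≤ u ^ (m + 2) + v ^ (m + 2) +
      (2 ^ (m + 2) - 2) * (u ^ (m + 1) * v + u * v ^ (m + 1)) := by
  induction m with
  | zero =>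
    norm_num
    nlinarith [mul_nonneg hu hv]
  | succ m ih =>
    have hp : 0 ≤ u ^ (m + 1) := pow_nonneg hu _
    have hq : 0 ≤ v ^ (m + 1) := pow_nonneg hv _
    have hc : (0 : ℝ) ≤ 2 ^ (m + 2) - 2 := by
      have : (1 : ℝ) ≤ 2 ^ m := one_le_pow₀ (by norm_num)
      have e : (2 : ℝ) ^ (m + 2) = 4 * 2 ^ m := by ring
      linarith
    have key : u ^ m * v + u * v ^ m ≤ u ^ (m + 1) + v ^ (m + 1) := by
      have : 0 ≤ (u ^ m - v ^ m) * (u - v) := by
        rcases le_total u v with h | h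
        · exact mul_nonneg_of_nonpos_of_nonpos (sub_nonpos.2 (pow_le_pow_left₀ hu h m))
            (sub_nonpos.2 h)
        · exact mul_nonneg (sub_nonneg.2 (pow_le_pow_left₀ hv h m)) (sub_nonneg.2 h)
      rw [pow_succ, pow_succ]
      nlinarith
    have h1 := mul_le_mul_of_nonneg_right ih (add_nonneg hu hv)
    have h2 := mul_le_mul_of_nonneg_left key (mul_nonneg hc (mul_nonneg hu hv))
    have h3 : 0 ≤ u ^ (m + 2) * v + u * v ^ (m + 2) := by positivity
    have e1 : (u + v) ^ (m + 1 + 2) = (u + v) ^ (m + 2) * (u + v) := by ring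
    have e2 : (u ^ (m + 2) + v ^ (m + 2) +
        (2 ^ (m + 2) - 2) * (u ^ (m + 1) * v + u * v ^ (m + 1))) * (u + v) =
        u ^ (m + 1 + 2) + v ^ (m + 1 + 2) + (u ^ (m + 2) * v + u * v ^ (m + 2)) +
          (2 ^ (m + 2) - 2) * (u ^ (m + 2) * v + u * v ^ (m + 2)) +
          (2 ^ (m + 2) - 2) * (u * v) * (u ^ m * v + u * v ^ m) := by ring
    have e3 : (2 ^ (m + 2) - 2) * (u * v) * (u ^ (m + 1) + v ^ (m + 1)) =
        (2 ^ (m + 2) - 2) * (u ^ (m + 2) * v + u * v ^ (m + 2)) := by ring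
    have e4 : ((2 : ℝ) ^ (m + 1 + 2) - 2) * (u ^ (m + 1 + 1) * v + u * v ^ (m + 1 + 1)) =
        2 * ((2 ^ (m + 2) - 2) * (u ^ (m + 2) * v + u * v ^ (m + 2))) +
          2 * (u ^ (m + 2) * v + u * v ^ (m + 2)) := by ring
    rw [e1, e4]
    rw [e2] at h1
    rw [e3] at h2
    linarith

lemma recb_half {u v : ℝ} (hu : 0 ≤ u) (hv : 0 ≤ v) (m : ℕ) :
    ((u + v) / 2) ^ (m + 2) ≤ (u ^ (m + 2) + v ^ (m + 2)) / 2 ^ (m + 2) +
      (u ^ (m + 1) * v + u * v ^ (m + 1)) := by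
  have h := recb_binom hu hv m
  have h2 : (0 : ℝ) < 2 ^ (m + 2) := by positivity
  have h3 : 0 ≤ u ^ (m + 1) * v + u * v ^ (m + 1) := by positivity
  rw [div_pow, div_le_iff₀ h2, add_mul, div_mul_cancel₀ _ h2.ne']
  nlinarith

omit [NeZero Q] in
lemma recb_mu_nonneg {f : ZMod Q → ℝ} (h0 : ∀ g, 0 ≤ f g) (l : List (ZMod Q)) (y : ZMod Q) :
    0 ≤ mu l f y := by
  induction l generalizing y with
  | nil => exact h0 y
  | cons a l ih => exact div_nonneg (add_nonneg (ih _) (ih _)) (by norm_num)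

lemma recb_shift (F : ZMod Q → ℝ) (b : ZMod Q) : ∑ y, F (y - b) = ∑ y, F y :=
  Equiv.sum_comp (Equiv.subRight b) F

lemma recb_mu_sum (f : ZMod Q → ℝ) (l : List (ZMod Q)) : ∑ y, mu l f y = ∑ y, f y := by
  induction l with
  | nil => rfl
  | cons a l ih =>
    simp only [mu, av]
    rw [← sum_div, sum_add_distrib, recb_shift (mu l f) a, ih]
    ring

omit [NeZero Q] in
lemma recb_mu_le {f g : ZMod Q → ℝ} {c : ℝ} {e : ZMod Q} (h : ∀ t, f t ≤ c * g (t + e))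
    (l : List (ZMod Q)) (y : ZMod Q) : mu l f y ≤ c * mu l g (y + e) := by
  induction l generalizing y with
  | nil => exact h y
  | cons a l ih =>
    simp only [mu, av]
    have h1 := ih y
    have h2 := ih (y - a)
    rw [show y - a + e = y + e - a by ring] at h2
    linarith

lemma recb_push (l : Law) (a : ℕ → ZMod Q) (φ : ZMod Q → ℝ) :
    ∑ p ∈ l.supp, l.wt p * φ (a p) = ∑ g, l.push a g * φ g := by
  simp only [Law.push, sum_mul]
  rw [← sum_fiberwise l.supp a]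
  refine sum_congr rfl fun g _ => sum_congr rfl fun p hp => ?_
  rw [(mem_filter.1 hp).2]

lemma recb_cross (l : Law) (a : ℕ → ZMod Q) {ρ : ℝ} (hρ : ∀ g, l.push a g ≤ ρ)
    {F G : ZMod Q → ℝ} (hF : ∀ y, 0 ≤ F y) (hG : ∀ y, 0 ≤ G y) :
    ∑ p ∈ l.supp, l.wt p * ∑ y, F y * G (y - a p) ≤ ρ * ((∑ y, F y) * ∑ y, G y) := by
  rw [recb_push l a fun g => ∑ y, F y * G (y - g)]
  calc ∑ g, l.push a g * ∑ y, F y * G (y - g) ≤ ∑ g, ρ * ∑ y, F y * G (y - g) :=
        sum_le_sum fun g _ => mul_le_mul_of_nonneg_right (hρ g)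
          (sum_nonneg fun y _ => mul_nonneg (hF _) (hG _))
    _ = _ := by
        rw [← mul_sum, sum_comm, sum_mul]
        congr 1
        refine sum_congr rfl fun y _ => ?_
        rw [← mul_sum]
        congr 1
        exact Equiv.sum_comp (Equiv.subLeft y) G

lemma recb_lower {h Y : ℝ} (h0 : 0 ≤ h) (hY : 0 < Y) (m : ℕ) :
    h ^ (m + 1) ≤ Y ^ m * h + h ^ (m + 2) / Y := by
  rcases le_total h Y with hh | hh
  · have h1 : h ^ (m + 1) ≤ Y ^ m * h := by
      rw [pow_succ]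
      exact mul_le_mul_of_nonneg_right (pow_le_pow_left₀ h0 hh m) h0
    have h2 : 0 ≤ h ^ (m + 2) / Y := by positivity
    linarith
  · have h1 : h ^ (m + 1) ≤ h ^ (m + 2) / Y := by
      rw [le_div_iff₀ hY, pow_succ h (m + 1)]
      exact mul_le_mul_of_nonneg_left hh (pow_nonneg h0 _)
    have h2 : 0 ≤ Y ^ m * h := by positivity
    linarith

lemma recb_step (l : Law) (hl : l.Prob) (a : ℕ → ZMod Q) {ρ Y : ℝ} (hρ0 : 0 ≤ ρ) (hY : 0 < Y)
    (hρ : ∀ g, l.push a g ≤ ρ) {h : ZMod Q → ℝ} (h0 : ∀ y, 0 ≤ h y) (h1 : ∑ y, h y = 1) (m : ℕ) :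
    ∑ p ∈ l.supp, l.wt p * ∑ y, av (a p) h y ^ (m + 2) ≤
      2 * ρ * Y ^ m + (1 / 2 ^ (m + 1) + 2 * ρ / Y) * ∑ y, h y ^ (m + 2) := by
  have e1 : ∀ b : ZMod Q, ∑ y, av b h y ^ (m + 2) ≤ (∑ y, h y ^ (m + 2)) / 2 ^ (m + 1) +
      (∑ y, h y ^ (m + 1) * h (y - b) + ∑ y, h y * h (y - b) ^ (m + 1)) := by
    intro b
    refine (sum_le_sum fun y _ => recb_half (h0 y) (h0 (y - b)) m).trans (le_of_eq ?_)
    rw [sum_add_distrib, sum_add_distrib, ← sum_div, sum_add_distrib,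
      recb_shift (fun y => h y ^ (m + 2)) b]
    congr 1
    field_simp
    ring
  have c1 := recb_cross l a hρ (F := fun y => h y ^ (m + 1)) (G := h)
    (fun y => pow_nonneg (h0 y) _) h0
  have c2 := recb_cross l a hρ (F := h) (G := fun y => h y ^ (m + 1)) h0
    (fun y => pow_nonneg (h0 y) _)
  have c3 : ∑ y, h y ^ (m + 1) ≤ Y ^ m + (∑ y, h y ^ (m + 2)) / Y := by
    refine (sum_le_sum fun y _ => recb_lower (h0 y) hY m).trans (le_of_eq ?_)
    rw [sum_add_distrib, ← mul_sum, h1, mul_one, sum_div]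
  rw [h1, mul_one] at c1
  rw [h1, one_mul] at c2
  have c4 := mul_le_mul_of_nonneg_left c3 hρ0
  calc ∑ p ∈ l.supp, l.wt p * ∑ y, av (a p) h y ^ (m + 2)
      ≤ ∑ p ∈ l.supp, l.wt p * ((∑ y, h y ^ (m + 2)) / 2 ^ (m + 1) +
        (∑ y, h y ^ (m + 1) * h (y - a p) + ∑ y, h y * h (y - a p) ^ (m + 1))) :=
        sum_le_sum fun p hp => mul_le_mul_of_nonneg_left (e1 _) (hl.1 p hp)
    _ = (∑ y, h y ^ (m + 2)) / 2 ^ (m + 1) +
        (∑ p ∈ l.supp, l.wt p * ∑ y, h y ^ (m + 1) * h (y - a p) +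
          ∑ p ∈ l.supp, l.wt p * ∑ y, h y * h (y - a p) ^ (m + 1)) := by
        simp only [mul_add, sum_add_distrib]
        rw [← sum_mul, hl.2, one_mul]
    _ ≤ _ := by
        have e : 2 * ρ * Y ^ m + (1 / 2 ^ (m + 1) + 2 * ρ / Y) * ∑ y, h y ^ (m + 2) =
            (∑ y, h y ^ (m + 2)) / 2 ^ (m + 1) +
              2 * (ρ * (Y ^ m + (∑ y, h y ^ (m + 2)) / Y)) := by ring
        rw [e]
        linarith

lemma recb_num {Y ρ : ℝ} (hY : 0 < Y) (hρ : 0 ≤ ρ) (m : ℕ) :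
    2 * ρ * Y ^ m + (1 / 2 ^ (m + 1) + 2 * ρ / Y) * Y ^ (m + 1) ≤
      (Y / 2 + 2 ^ (m + 2) * ρ) ^ (m + 1) := by
  have h1 : (Y / 2) ^ m ≤ (Y / 2 + 2 ^ (m + 2) * ρ) ^ m :=
    pow_le_pow_left₀ (by positivity) (le_add_of_nonneg_right (by positivity)) m
  have h2 := mul_le_mul_of_nonneg_right h1
    (show 0 ≤ Y / 2 + 2 ^ (m + 2) * ρ by positivity)
  rw [← pow_succ] at h2
  refine le_trans (le_of_eq ?_) h2
  rw [div_pow]
  field_simp
  ring

/-- higher moments of a probability -/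
theorem rec_pow' (a : ℕ → ZMod Q) {k : ℕ} (hk : 2 ≤ k) (f : ZMod Q → ℝ) (h0 : ∀ g, 0 ≤ f g)
    (hf : ∑ g, f g = 1) {X ρ : ℝ} (hX : 0 < X) (hρ : 0 ≤ ρ) (hfX : ∑ g, f g ^ k ≤ X ^ (k - 1))
    (ls : List Law) (h1 : ∀ l ∈ ls, l.Prob)
    (h2 : ∀ pre l tl, ls = pre ++ l :: tl → ∀ g, l.push a g ≤ 2 ^ pre.length * ρ) :
    Ex ls (fun as => ∑ g, mu (as.map a) f g ^ k)
      ≤ (X / 2 ^ ls.length + 2 ^ k * ls.length * ρ) ^ (k - 1) := by
  obtain ⟨m, rfl⟩ : ∃ m, k = m + 2 := ⟨k - 2, by omega⟩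
  rw [show m + 2 - 1 = m + 1 from rfl] at hfX ⊢
  induction ls generalizing ρ with
  | nil => simpa [Ex, mu] using hfX
  | cons l tl ih =>
    have htl : ∀ l' ∈ tl, l'.Prob := fun l' hl' => h1 l' (List.mem_cons_of_mem _ hl')
    have hl := h1 l List.mem_cons_self
    have IH := ih (ρ := 2 * ρ) (by positivity) htl fun pre l' tl' e g => by
      have := h2 (l :: pre) l' tl' (by rw [e]; rfl) g
      rw [List.length_cons, pow_succ] at this
      linarith
    have hρl : ∀ g, l.push a g ≤ ρ := fun g => by simpa using h2 [] l tl rfl g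
    set Y : ℝ := X / 2 ^ tl.length + 2 ^ (m + 2) * tl.length * (2 * ρ) with hYd
    have hY : 0 < Y := by positivity
    have e1 : Ex (l :: tl) (fun as => ∑ g, mu (as.map a) f g ^ (m + 2)) =
        Ex tl fun as => ∑ p ∈ l.supp, l.wt p * ∑ y, av (a p) (mu (as.map a) f) y ^ (m + 2) := by
      rw [Ex_sum tl l.supp]
      simp only [Ex, Ex_mul, List.map_cons, mu]
    have e2 : X / 2 ^ (l :: tl).length + 2 ^ (m + 2) * ((l :: tl).length : ℕ) * ρ =
        Y / 2 + 2 ^ (m + 2) * ρ := by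
      rw [hYd, List.length_cons]
      push_cast
      ring
    rw [e1, e2]
    refine (Ex_mono htl fun as _ => recb_step l hl a hρ hY hρl (recb_mu_nonneg h0 _)
      ((recb_mu_sum f _).trans hf) m).trans ?_
    rw [Ex_add, Ex_const htl, Ex_mul]
    refine le_trans ?_ (recb_num hY hρ m)
    have : 0 ≤ 1 / 2 ^ (m + 1) + 2 * ρ / Y := by positivity
    have := mul_le_mul_of_nonneg_left IH this
    linarith

lemma recb_sum_val (F : ℕ → ℝ) : ∑ y : ZMod Q, F y.val = ∑ i ∈ range Q, F i := by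
  refine sum_bij' (fun y _ => y.val) (fun i _ => (i : ZMod Q)) (fun y _ => ?_)
    (fun i _ => mem_univ _) (fun y _ => ?_) (fun i hi => ?_) (fun y _ => rfl)
  · exact mem_range.2 (ZMod.val_lt y)
  · exact ZMod.natCast_zmod_val y
  · exact ZMod.val_cast_of_lt (mem_range.1 hi)

lemma recb_box_pow {w : ℕ} (hQ : w ≤ Q) (j : ℕ) :
    ∑ y, box Q w y ^ (j + 1) = w * (1 / (w : ℝ)) ^ (j + 1) := by
  have e : ∀ y : ZMod Q, box Q w y ^ (j + 1) =
      (fun i : ℕ => if i < w then (1 / (w : ℝ)) ^ (j + 1) else 0) y.val := by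
    intro y
    simp only [box]
    split_ifs <;> simp
  rw [sum_congr rfl fun y _ => e y,
    recb_sum_val fun i : ℕ => if i < w then (1 / (w : ℝ)) ^ (j + 1) else 0, ← sum_filter]
  have : (range Q).filter (fun i => i < w) = range w := by
    ext i
    simp only [mem_filter, mem_range]
    omega
  rw [this, sum_const, card_range, nsmul_eq_mul]

omit [NeZero Q] in
lemma recb_box_nonneg (w : ℕ) (y : ZMod Q) : 0 ≤ box Q w y := by
  unfold box
  split_ifs <;> positivity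

omit [NeZero Q] in
lemma recb_box_le {v e : ℕ} (he : e < v) (hQ : 2 * v ≤ Q) (t : ZMod Q) :
    box Q v t ≤ 2 * box Q (2 * v) (t + e) := by
  by_cases h : t.val < v
  · have h1 : (t + (e : ZMod Q)).val < 2 * v := by
      refine (ZMod.val_add_le _ _).trans_lt ?_
      rw [ZMod.val_cast_of_lt (by omega)]
      omega
    have hv : (0 : ℝ) < v := by exact_mod_cast (show 0 < v by omega)
    simp only [box, if_pos h, if_pos h1]
    push_cast
    apply le_of_eq
    field_simp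
  · have := recb_box_nonneg (2 * v) (t + (e : ZMod Q))
    rw [box, if_neg h]
    linarith

lemma recb_sup {v : ℕ} (hQ : 2 * v ≤ Q) (l : List (ZMod Q)) (k : ℕ) (y : ZMod Q) :
    v * mu l (box Q v) y ^ k ≤ 2 ^ k * ∑ g, mu l (box Q (2 * v)) g ^ k := by
  have h0 := recb_mu_nonneg (recb_box_nonneg (Q := Q) (2 * v)) l
  calc v * mu l (box Q v) y ^ k = ∑ _e ∈ range v, mu l (box Q v) y ^ k := by
        rw [sum_const, card_range, nsmul_eq_mul]
    _ ≤ ∑ e ∈ range v, 2 ^ k * mu l (box Q (2 * v)) (y + (e : ℕ)) ^ k := by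
        refine sum_le_sum fun e he => ?_
        rw [← mul_pow]
        exact pow_le_pow_left₀ (recb_mu_nonneg (recb_box_nonneg v) l y)
          (recb_mu_le (recb_box_le (mem_range.1 he) hQ) l y) k
    _ ≤ ∑ e ∈ range Q, 2 ^ k * mu l (box Q (2 * v)) (y + (e : ℕ)) ^ k :=
        sum_le_sum_of_subset_of_nonneg (range_subset_range.2 (by omega))
          fun e _ _ => mul_nonneg (by positivity) (pow_nonneg (h0 _) _)
    _ = _ := by
        rw [← mul_sum, ← recb_sum_val fun e => mu l (box Q (2 * v)) (y + (e : ℕ)) ^ k]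
        congr 1
        simp only [ZMod.natCast_zmod_val]
        exact Equiv.sum_comp (Equiv.addLeft y) fun g => mu l (box Q (2 * v)) g ^ k

lemma recb_sq {S B : ℝ} (hS : 0 ≤ S) (hB : 0 < B) (m : ℕ) :
    S ^ 2 ≤ B ^ 2 + S ^ (m + 2) / B ^ m := by
  rcases le_total S B with h | h
  · have h1 := pow_le_pow_left₀ hS h 2
    have h2 : 0 ≤ S ^ (m + 2) / B ^ m := by positivity
    linarith
  · have h1 : S ^ 2 ≤ S ^ (m + 2) / B ^ m := by
      rw [le_div_iff₀ (by positivity), pow_add, mul_comm]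
      exact mul_le_mul_of_nonneg_right (pow_le_pow_left₀ hB.le h m) (by positivity)
    have h2 : 0 ≤ B ^ 2 := by positivity
    linarith

/-- second moment of the maximum -/
theorem sup_sq' (a : ℕ → ZMod Q) {k : ℕ} (hk : 3 ≤ k) {v : ℕ} (hv : 0 < v) (hQ : 2 * v ≤ Q)
    {ρ X B : ℝ} (hρ : 0 ≤ ρ) (hB : 0 < B) (ls : List Law) (h1 : ∀ l ∈ ls, l.Prob)
    (h2 : ∀ pre l tl, ls = pre ++ l :: tl → ∀ g, l.push a g ≤ 2 ^ pre.length * ρ)
    (hX : 1 / (v * 2 ^ ls.length) + 2 ^ k * ls.length * ρ ≤ X) :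
    Ex ls (fun as => ‖mu (as.map a) (box Q v)‖ ^ 2)
      ≤ B ^ 2 + 2 ^ k * X ^ (k - 1) / (v * B ^ (k - 2)) := by
  obtain ⟨m, rfl⟩ : ∃ m, k = m + 2 := ⟨k - 2, by omega⟩
  have hv' : (0 : ℝ) < v := by exact_mod_cast hv
  have hs : ∑ g, box Q (2 * v) g = 1 := by
    have := recb_box_pow hQ 0
    simp only [zero_add, pow_one] at this
    rw [this]
    push_cast
    field_simp
  have hp : ∑ g, box Q (2 * v) g ^ (m + 2) ≤ (1 / (v : ℝ)) ^ (m + 2 - 1) := by
    rw [recb_box_pow hQ (m + 1), show m + 2 - 1 = m + 1 from rfl, pow_succ' _ (m + 1),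
      ← mul_assoc, mul_one_div_cancel (by positivity), one_mul]
    refine pow_le_pow_left₀ (by positivity) (one_div_le_one_div_of_le hv' ?_) _
    push_cast
    linarith
  have R := rec_pow' a (k := m + 2) (by omega) (box Q (2 * v)) (recb_box_nonneg _) hs
    (X := 1 / (v : ℝ)) (by positivity) hρ hp ls h1 h2
  have R2 : Ex ls (fun as => ∑ g, mu (as.map a) (box Q (2 * v)) g ^ (m + 2)) ≤
      X ^ (m + 2 - 1) := by
    refine R.trans (pow_le_pow_left₀ (by positivity) ?_ _)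
    rwa [div_div]
  have pt : ∀ l : List (ZMod Q), ‖mu l (box Q v)‖ ^ 2 ≤
      B ^ 2 + 2 ^ (m + 2) / (v * B ^ m) * ∑ g, mu l (box Q (2 * v)) g ^ (m + 2) := by
    intro l
    have hn : 0 ≤ B ^ 2 + 2 ^ (m + 2) / (v * B ^ m) * ∑ g, mu l (box Q (2 * v)) g ^ (m + 2) := by
      have : 0 ≤ ∑ g, mu l (box Q (2 * v)) g ^ (m + 2) :=
        sum_nonneg fun g _ => pow_nonneg (recb_mu_nonneg (recb_box_nonneg _) l g) _
      positivity
    rw [← Real.le_sqrt (norm_nonneg _) hn, pi_norm_le_iff_of_nonneg (Real.sqrt_nonneg _)]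
    intro y
    rw [Real.norm_eq_abs]
    apply Real.abs_le_sqrt
    refine (recb_sq (recb_mu_nonneg (recb_box_nonneg v) l y) hB m).trans (add_le_add le_rfl ?_)
    have := recb_sup hQ l (m + 2) y
    rw [div_mul_eq_mul_div, ← div_div, div_le_div_iff_of_pos_right (by positivity),
      le_div_iff₀ hv', mul_comm]
    exact this
  refine (Ex_mono h1 fun as _ => pt _).trans ?_
  rw [Ex_add, Ex_const h1, Ex_mul, show m + 2 - 2 = m from rfl, ← div_mul_eq_mul_div]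
  exact add_le_add le_rfl (mul_le_mul_of_nonneg_left R2 (by positivity))

end Pool.Agent.Work.MP_82fd4a_nt
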