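import Pool.Agent.Work.MP_82fd4a_nt.RecA
import Pool.Agent.Work.MP_82fd4a_nt.RecB

/-! Moment recursions for random subset sums. -/

set_option autoImplicit false
open Finset

namespace Pool.Agent.Work.MP_82fd4a_nt

variable {Q : ℕ} [NeZero Q]

/-- the kernel of mean zero is almost annihilated by a law of small variation -/
theorem conv_Kd_sq (ν : ZMod Q → ℝ) {ρ : ℝ} (h0 : ∀ g, 0 ≤ ν g) (h1 : ∀ g, ν g ≤ ρ)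
    (h2 : ∑ g, |ν g - ν (g - 1)| ≤ ρ) {r w : ℕ} (hr : r ≤ w) (hw : 0 < w) (hQ : 3 * w ≤ Q) :
    ∑ y, conv ν (Kd Q r w) y ^ 2 ≤ 6 * w * ρ ^ 2 :=
  conv_Kd_sq' ν h0 h1 h2 hr hw hQ

theorem Kd_sq {r w : ℕ} (hw : 0 < w) (hQ : 2 * w ≤ Q) : ∑ y, Kd Q r w y ^ 2 ≤ 2 / w :=
  Kd_sq' hw hQ

/-- second moment with a kernel of mean zero -/
theorem rec_two (a : ℕ → ZMod Q) (K : ZMod Q → ℝ) {c y B : ℝ} (hc : 0 < c) (hy : 0 < y)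
    (hB : 0 < B) (hK : ∑ g, K g ^ 2 ≤ y ^ 2 * c) (ls : List Law) (h1 : ∀ l ∈ ls, l.Prob)
    (h2 : ∀ l tl, (l :: tl) <:+ ls →
      ∑ g, conv (l.push a) K g ^ 2 ≤ (B * (5 / 7) ^ tl.length) ^ 2 * c) :
    Ex ls (fun as => ∑ g, mu (as.map a) K g ^ 2)
      ≤ ((5 / 7) ^ ls.length * (y + 2 * ls.length * B)) ^ 2 * c :=
  rec_two' a K hc hy hB hK ls h1 h2

/-- higher moments of a probability -/
theorem rec_pow (a : ℕ → ZMod Q) {k : ℕ} (hk : 2 ≤ k) (f : ZMod Q → ℝ) (h0 : ∀ g, 0 ≤ f g)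
    (hf : ∑ g, f g = 1) {X ρ : ℝ} (hX : 0 < X) (hρ : 0 ≤ ρ) (hfX : ∑ g, f g ^ k ≤ X ^ (k - 1))
    (ls : List Law) (h1 : ∀ l ∈ ls, l.Prob)
    (h2 : ∀ pre l tl, ls = pre ++ l :: tl → ∀ g, l.push a g ≤ 2 ^ pre.length * ρ) :
    Ex ls (fun as => ∑ g, mu (as.map a) f g ^ k)
      ≤ (X / 2 ^ ls.length + 2 ^ k * ls.length * ρ) ^ (k - 1) :=
  rec_pow' a hk f h0 hf hX hρ hfX ls h1 h2

/-- second moment of the maximum -/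
theorem sup_sq (a : ℕ → ZMod Q) {k : ℕ} (hk : 3 ≤ k) {v : ℕ} (hv : 0 < v) (hQ : 2 * v ≤ Q)
    {ρ X B : ℝ} (hρ : 0 ≤ ρ) (hB : 0 < B) (ls : List Law) (h1 : ∀ l ∈ ls, l.Prob)
    (h2 : ∀ pre l tl, ls = pre ++ l :: tl → ∀ g, l.push a g ≤ 2 ^ pre.length * ρ)
    (hX : 1 / (v * 2 ^ ls.length) + 2 ^ k * ls.length * ρ ≤ X) :
    Ex ls (fun as => ‖mu (as.map a) (box Q v)‖ ^ 2)
      ≤ B ^ 2 + 2 ^ k * X ^ (k - 1) / (v * B ^ (k - 2)) :=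
  sup_sq' a hk hv hQ hρ hB ls h1 h2 hX

/-- one scale: the upper primes spread the mass, the lower primes produce cancellation -/
theorem one_scale (a : ℕ → ZMod Q) (l₂ l₁ l₀ : List Law) (h₂ : ∀ l ∈ l₂, l.Prob)
    (h₁ : ∀ l ∈ l₁, l.Prob) (h₀ : ∀ l ∈ l₀, l.Prob) {r w m W : ℕ} (hr : 0 < r) (hrw : r ≤ w)
    (hm : ∀ l ∈ l₁, ∀ p ∈ l.supp, (a p).val ≤ m) (hW : l₁.length * m + 3 * w ≤ W) (hQ : W ≤ Q)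
    {y σ Θ : ℝ} (hy : 0 < y) (hΘ : 0 < Θ)
    (e₁ : Ex l₁ (fun as => ∑ g, mu (as.map a) (Kd Q r w) g ^ 2) ≤ y ^ 2 / r)
    (e₂ : Ex l₂ (fun as => ‖mu (as.map a) (box Q r)‖ ^ 2) ≤ σ ^ 2)
    (e₃ : Ex l₂ (fun as => ‖mu (as.map a) (box Q W)‖ ^ 2) ≤ σ ^ 2)
    (e₄ : y ^ 2 * σ ^ 2 * W ≤ Θ ^ 2 * r) :
    Ex (l₂ ++ (l₁ ++ l₀)) (fun as => ‖mu (as.map a) (conv (box Q r) (Kd Q r w))‖) ≤ Θ :=
  one_scale' a l₂ l₁ l₀ h₂ h₁ h₀ hr hrw hm hW hQ hy hΘ e₁ e₂ e₃ e₄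

end Pool.Agent.Work.MP_82fd4a_nt
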