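import Pool.Agent.Work.MP_82fd4a_nt.Conv
import Pool.Agent.Work.MP_82fd4a_nt.ConvEqs

/-! Convolution algebra and the second moment recursion for random subset sums. -/

set_option autoImplicit false
open Finset

namespace Pool.Agent.Work.MP_82fd4a_nt

variable {Q : ℕ} [NeZero Q]

lemma reca_sum_sub (f : ZMod Q → ℝ) (a : ZMod Q) : ∑ y, f (y - a) = ∑ y, f y :=
  Fintype.sum_equiv (Equiv.subRight a) _ _ fun _ => rfl

lemma reca_sum_sub' (f : ZMod Q → ℝ) (a : ZMod Q) : ∑ y, f (a - y) = ∑ y, f y :=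
  Fintype.sum_equiv (Equiv.subLeft a) _ _ fun _ => rfl

lemma conv_comm (f g : ZMod Q → ℝ) : conv f g = conv g f := by
  funext y
  unfold conv
  rw [← reca_sum_sub' (fun t => f t * g (y - t)) y]
  exact sum_congr rfl fun t _ => by simp [mul_comm]

lemma conv_av (a : ZMod Q) (f g : ZMod Q → ℝ) : conv f (av a g) = av a (conv f g) := by
  funext y
  simp only [conv, av]
  rw [← sum_add_distrib, sum_div]
  refine sum_congr rfl fun t _ => ?_
  rw [sub_right_comm y t a]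
  ring

lemma conv_mu (l : List (ZMod Q)) (f g : ZMod Q → ℝ) : conv f (mu l g) = mu l (conv f g) := by
  induction l with
  | nil => rfl
  | cons a l ih => simp only [mu]; rw [conv_av, ih]

lemma mu_conv (l : List (ZMod Q)) (f g : ZMod Q → ℝ) : conv (mu l f) g = mu l (conv f g) := by
  rw [conv_comm, conv_mu, conv_comm]

lemma conv_sub (f g h : ZMod Q → ℝ) (y : ZMod Q) :
    conv f (fun t => g t - h t) y = conv f g y - conv f h y := by
  simp only [conv, mul_sub, sum_sub_distrib]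

omit [NeZero Q] in
lemma mu_append (l₁ l₂ : List (ZMod Q)) (f : ZMod Q → ℝ) :
    mu (l₁ ++ l₂) f = mu l₁ (mu l₂ f) := by
  induction l₁ with
  | nil => rfl
  | cons a l ih => simp only [List.cons_append, mu, ih]

omit [NeZero Q] in
lemma av_comm (a b : ZMod Q) (f : ZMod Q → ℝ) : av a (av b f) = av b (av a f) := by
  funext y
  simp only [av]
  rw [sub_right_comm y a b]
  ring

omit [NeZero Q] in
lemma mu_av (l : List (ZMod Q)) (a : ZMod Q) (f : ZMod Q → ℝ) : mu l (av a f) = av a (mu l f) := by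
  induction l with
  | nil => rfl
  | cons b l ih => simp only [mu]; rw [ih, av_comm]

omit [NeZero Q] in
lemma mu_comm (l₁ l₂ : List (ZMod Q)) (f : ZMod Q → ℝ) : mu l₁ (mu l₂ f) = mu l₂ (mu l₁ f) := by
  induction l₁ with
  | nil => rfl
  | cons a l ih => simp only [mu]; rw [ih, mu_av]

omit [NeZero Q] in
lemma av_nonneg (a : ZMod Q) {f : ZMod Q → ℝ} (h : ∀ y, 0 ≤ f y) (y : ZMod Q) : 0 ≤ av a f y :=
  div_nonneg (add_nonneg (h _) (h _)) zero_le_two

omit [NeZero Q] in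
lemma mu_nonneg (l : List (ZMod Q)) {f : ZMod Q → ℝ} (h : ∀ y, 0 ≤ f y) (y : ZMod Q) :
    0 ≤ mu l f y := by
  induction l generalizing y with
  | nil => exact h y
  | cons a l ih => exact av_nonneg a ih y

lemma sum_av (a : ZMod Q) (f : ZMod Q → ℝ) : ∑ y, av a f y = ∑ y, f y := by
  simp only [av]
  rw [← sum_div, sum_add_distrib, reca_sum_sub]
  ring

lemma sum_mu (l : List (ZMod Q)) (f : ZMod Q → ℝ) : ∑ y, mu l f y = ∑ y, f y := by
  induction l with
  | nil => rfl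
  | cons a l ih => simp only [mu]; rw [sum_av, ih]

lemma norm_av_le (a : ZMod Q) (f : ZMod Q → ℝ) : ‖av a f‖ ≤ ‖f‖ := by
  refine (pi_norm_le_iff_of_nonneg (norm_nonneg _)).2 fun y => ?_
  have h1 := norm_le_pi_norm f y
  have h2 := norm_le_pi_norm f (y - a)
  rw [Real.norm_eq_abs, abs_le] at *
  simp only [av]
  constructor <;> linarith [h1.1, h1.2, h2.1, h2.2]

lemma norm_mu_le (l : List (ZMod Q)) (f : ZMod Q → ℝ) : ‖mu l f‖ ≤ ‖f‖ := by
  induction l with
  | nil => exact le_rfl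
  | cons a l ih => exact (norm_av_le a _).trans ih

lemma sum_av_sq (a : ZMod Q) (f : ZMod Q → ℝ) :
    ∑ y, av a f y ^ 2 = (∑ y, f y ^ 2 + ∑ y, f y * f (y - a)) / 2 := by
  have h := reca_sum_sub (fun y => f y ^ 2) a
  have e : ∀ y, av a f y ^ 2 = (f y ^ 2 + f (y - a) ^ 2 + 2 * (f y * f (y - a))) / 4 := fun y => by
    simp only [av]; ring
  simp only [e]
  rw [← sum_div, sum_add_distrib, sum_add_distrib, h, ← mul_sum]
  ring

lemma sum_av_sq_le (a : ZMod Q) (f : ZMod Q → ℝ) : ∑ y, av a f y ^ 2 ≤ ∑ y, f y ^ 2 := by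
  have h := reca_sum_sub (fun y => f y ^ 2) a
  have e : ∑ y, av a f y ^ 2 ≤ ∑ y, (f y ^ 2 + f (y - a) ^ 2) / 2 := sum_le_sum fun y _ => by
    simp only [av]; nlinarith [sq_nonneg (f y - f (y - a))]
  rw [← sum_div, sum_add_distrib, h] at e
  linarith

lemma sum_mu_sq_le (l : List (ZMod Q)) (f : ZMod Q → ℝ) : ∑ y, mu l f y ^ 2 ≤ ∑ y, f y ^ 2 := by
  induction l with
  | nil => exact le_rfl
  | cons a l ih => exact (sum_av_sq_le a _).trans ih

lemma sum_push (l : Law) (a : ℕ → ZMod Q) (φ : ZMod Q → ℝ) :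
    ∑ p ∈ l.supp, l.wt p * φ (a p) = ∑ g, l.push a g * φ g := by
  rw [← sum_fiberwise l.supp a]
  refine sum_congr rfl fun g _ => ?_
  rw [Law.push, sum_mul]
  exact sum_congr rfl fun p hp => by rw [(mem_filter.1 hp).2]

lemma reca_sum_val (f : ℕ → ℝ) : ∑ y : ZMod Q, f y.val = ∑ i ∈ range Q, f i := by
  refine sum_nbij' (fun y => y.val) (fun i => (i : ZMod Q)) (fun y _ => ?_) (fun _ _ => mem_univ _)
    (fun y _ => ?_) (fun i hi => ?_) fun _ _ => rfl
  · exact mem_range.2 (ZMod.val_lt y)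
  · exact ZMod.natCast_zmod_val y
  · exact ZMod.val_cast_of_lt (mem_range.1 hi)

omit [NeZero Q] in
lemma box_nonneg (w : ℕ) (y : ZMod Q) : 0 ≤ box Q w y := by
  unfold box; split_ifs <;> positivity

omit [NeZero Q] in
lemma box_le (w : ℕ) (y : ZMod Q) : box Q w y ≤ 1 / w := by
  unfold box; split_ifs
  · exact le_rfl
  · positivity

lemma sum_box {w : ℕ} (hw : 0 < w) (hQ : w ≤ Q) : ∑ y, box Q w y = 1 := by
  unfold box
  rw [reca_sum_val (Q := Q) fun i => if i < w then (1 : ℝ) / w else 0, ← sum_filter]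
  have : (range Q).filter (fun i => i < w) = range w := by
    ext i; simp only [mem_filter, mem_range]; omega
  rw [this, sum_const, card_range, nsmul_eq_mul]
  have : (w : ℝ) ≠ 0 := by positivity
  field_simp

/-- the function vanishes outside the classes of the natural numbers below `H` -/
def RecaSupp (H : ℕ) (f : ZMod Q → ℝ) : Prop := ∀ t, f t ≠ 0 → ∃ h : ℕ, h < H ∧ t = h

lemma reca_supp_box (w : ℕ) : RecaSupp w (box Q w) := fun t ht => by
  refine ⟨t.val, ?_, (ZMod.natCast_zmod_val t).symm⟩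
  by_contra h
  exact ht (if_neg h)

omit [NeZero Q] in
lemma RecaSupp.mono {H H' : ℕ} {f : ZMod Q → ℝ} (h : RecaSupp H f) (hH : H ≤ H') :
    RecaSupp H' f := fun t ht => by
  obtain ⟨k, hk, e⟩ := h t ht
  exact ⟨k, hk.trans_le hH, e⟩

omit [NeZero Q] in
lemma RecaSupp.av {H : ℕ} {f : ZMod Q → ℝ} (h : RecaSupp H f) (r : ℕ) :
    RecaSupp (H + r) (av (r : ZMod Q) f) := fun t ht => by
  by_cases h1 : f t = 0
  · have h2 : f (t - r) ≠ 0 := fun h2 => ht (by simp [MP_82fd4a_nt.av, h1, h2])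
    obtain ⟨k, hk, e⟩ := h _ h2
    exact ⟨k + r, by omega, by push_cast; rw [← e]; ring⟩
  · obtain ⟨k, hk, e⟩ := h _ h1
    exact ⟨k, by omega, e⟩

lemma reca_supp_Kd {r w : ℕ} (hr : r ≤ w) : RecaSupp (3 * w) (Kd Q r w) := fun t ht => by
  by_cases h1 : box Q w t = 0
  · have h2 : av (r : ZMod Q) (box Q (2 * w)) t ≠ 0 := fun h2 => ht (by simp [Kd, h1, h2])
    exact (((reca_supp_box (2 * w)).av r).mono (by omega)) t h2
  · exact ((reca_supp_box w).mono (by omega)) t h1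

lemma RecaSupp.mu {H m : ℕ} {f : ZMod Q → ℝ} (h : RecaSupp H f) (l : List (ZMod Q))
    (hl : ∀ a ∈ l, a.val ≤ m) : RecaSupp (l.length * m + H) (mu l f) := by
  induction l with
  | nil => simpa [MP_82fd4a_nt.mu] using h
  | cons a l ih =>
    have h1 := (ih fun b hb => hl b (List.mem_cons_of_mem _ hb)).av a.val
    rw [ZMod.natCast_zmod_val] at h1
    refine h1.mono ?_
    have := hl a List.mem_cons_self
    rw [List.length_cons, add_mul]
    omega

lemma reca_shift (ν : ZMod Q → ℝ) {ρ : ℝ} (h2 : ∑ g, |ν g - ν (g - 1)| ≤ ρ) (h : ℕ) :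
    ∑ y, |ν (y - h) - ν y| ≤ h * ρ := by
  induction h with
  | zero => simp
  | succ h ih =>
    have h3 := reca_sum_sub (fun g => |ν g - ν (g - 1)|) (h : ZMod Q)
    have h4 : ∑ y, |ν (y - (h + 1 : ℕ)) - ν y| ≤
        ∑ y, (|ν (y - h) - ν (y - h - 1)| + |ν (y - h) - ν y|) := sum_le_sum fun y _ => by
      have e : y - ((h + 1 : ℕ) : ZMod Q) = y - h - 1 := by push_cast; ring
      rw [e, abs_sub_comm (ν (y - h)) (ν (y - h - 1))]
      exact abs_sub_le _ _ _
    rw [sum_add_distrib, h3] at h4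
    push_cast at h4 ⊢
    linarith

lemma reca_conv_prob (ν P : ZMod Q → ℝ) {ρ : ℝ} (h0 : ∀ g, 0 ≤ ν g) (h1 : ∀ g, ν g ≤ ρ)
    (p0 : ∀ g, 0 ≤ P g) (p1 : ∑ g, P g = 1) (y : ZMod Q) :
    0 ≤ conv ν P y ∧ conv ν P y ≤ ρ := by
  rw [conv_comm]
  refine ⟨sum_nonneg fun t _ => mul_nonneg (p0 _) (h0 _), ?_⟩
  calc conv P ν y ≤ ∑ t, P t * ρ := sum_le_sum fun t _ => mul_le_mul_of_nonneg_left (h1 _) (p0 _)
    _ = ρ := by rw [← sum_mul, p1, one_mul]

lemma reca_conv_l1 (ν P : ZMod Q → ℝ) {ρ : ℝ} (h2 : ∑ g, |ν g - ν (g - 1)| ≤ ρ)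
    (p0 : ∀ g, 0 ≤ P g) (p1 : ∑ g, P g = 1) {H : ℕ} (hs : RecaSupp H P) :
    ∑ y, |conv ν P y - ν y| ≤ H * ρ := by
  have hρ : 0 ≤ ρ := (sum_nonneg fun g _ => abs_nonneg _).trans h2
  rw [conv_comm]
  have e : ∀ y, |conv P ν y - ν y| ≤ ∑ t, P t * |ν (y - t) - ν y| := fun y => by
    have : conv P ν y - ν y = ∑ t, P t * (ν (y - t) - ν y) := by
      simp only [mul_sub, sum_sub_distrib, ← sum_mul, p1, one_mul, conv]
    rw [this]
    refine (abs_sum_le_sum_abs _ _).trans (sum_le_sum fun t _ => ?_)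
    rw [abs_mul, abs_of_nonneg (p0 t)]
  calc ∑ y, |conv P ν y - ν y| ≤ ∑ y, ∑ t, P t * |ν (y - t) - ν y| := sum_le_sum fun y _ => e y
    _ = ∑ t, P t * ∑ y, |ν (y - t) - ν y| := by rw [sum_comm]; simp only [mul_sum]
    _ ≤ ∑ t, P t * (H * ρ) := sum_le_sum fun t _ => by
        by_cases ht : P t = 0
        · simp [ht]
        · obtain ⟨k, hk, rfl⟩ := hs t ht
          refine mul_le_mul_of_nonneg_left ((reca_shift ν h2 k).trans ?_) (p0 _)
          exact mul_le_mul_of_nonneg_right (by exact_mod_cast hk.le) hρ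
    _ = H * ρ := by rw [← sum_mul, p1, one_mul]

/-- the kernel of mean zero is almost annihilated by a law of small variation -/
theorem conv_Kd_sq' (ν : ZMod Q → ℝ) {ρ : ℝ} (h0 : ∀ g, 0 ≤ ν g) (h1 : ∀ g, ν g ≤ ρ)
    (h2 : ∑ g, |ν g - ν (g - 1)| ≤ ρ) {r w : ℕ} (hr : r ≤ w) (hw : 0 < w) (hQ : 3 * w ≤ Q) :
    ∑ y, conv ν (Kd Q r w) y ^ 2 ≤ 6 * w * ρ ^ 2 := by
  have hρ : 0 ≤ ρ := (h0 0).trans (h1 0)
  have a1 : ∑ g, box Q w g = 1 := sum_box hw (by omega)
  have b0 := av_nonneg (r : ZMod Q) (box_nonneg (Q := Q) (2 * w))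
  have b1 : ∑ g, av (r : ZMod Q) (box Q (2 * w)) g = 1 := by
    rw [sum_av, sum_box (by omega) (by omega)]
  have A := reca_conv_l1 ν _ h2 (box_nonneg w) a1 (reca_supp_box w)
  have B := reca_conv_l1 ν _ h2 b0 b1 (((reca_supp_box (2 * w)).av r).mono (H' := 3 * w) (by omega))
  have e : ∀ y, conv ν (Kd Q r w) y ^ 2 ≤ ρ * (|conv ν (box Q w) y - ν y| +
      |conv ν (av (r : ZMod Q) (box Q (2 * w))) y - ν y|) := fun y => by
    have e1 : conv ν (Kd Q r w) y =
        conv ν (box Q w) y - conv ν (av (r : ZMod Q) (box Q (2 * w))) y := conv_sub _ _ _ y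
    have e2 := reca_conv_prob ν _ h0 h1 (box_nonneg w) a1 y
    have e3 := reca_conv_prob ν _ h0 h1 b0 b1 y
    have e4 : |conv ν (Kd Q r w) y| ≤ ρ := by
      rw [e1, abs_le]; constructor <;> linarith [e2.1, e2.2, e3.1, e3.2]
    have e5 : |conv ν (Kd Q r w) y| ≤ |conv ν (box Q w) y - ν y| +
        |conv ν (av (r : ZMod Q) (box Q (2 * w))) y - ν y| := by
      rw [e1, abs_sub_comm _ (ν y), abs_sub_comm (ν y)]
      rw [abs_sub_comm (conv ν (av (r : ZMod Q) (box Q (2 * w))) y) (ν y)]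
      exact abs_sub_le _ _ _
    rw [← sq_abs, sq]
    exact mul_le_mul e4 e5 (abs_nonneg _) hρ
  have h := sum_le_sum fun y (_ : y ∈ univ) => e y
  rw [← mul_sum, sum_add_distrib] at h
  push_cast at B
  have hw' : (0 : ℝ) ≤ w := Nat.cast_nonneg _
  have h3 := mul_le_mul_of_nonneg_left (add_le_add A B) hρ
  nlinarith [mul_nonneg hw' (sq_nonneg ρ)]

theorem Kd_sq' {r w : ℕ} (hw : 0 < w) (hQ : 2 * w ≤ Q) : ∑ y, Kd Q r w y ^ 2 ≤ 2 / w := by
  have a1 : ∑ g, box Q w g = 1 := sum_box hw (by omega)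
  have b0 := av_nonneg (r : ZMod Q) (box_nonneg (Q := Q) (2 * w))
  have b1 : ∑ g, av (r : ZMod Q) (box Q (2 * w)) g = 1 := by
    rw [sum_av, sum_box (by omega) hQ]
  have hw' : (0 : ℝ) < w := by exact_mod_cast hw
  have b2 : ∀ y, av (r : ZMod Q) (box Q (2 * w)) y ≤ 1 / w := fun y => by
    have h1 := box_le (Q := Q) (2 * w) y
    have h2 := box_le (Q := Q) (2 * w) (y - r)
    have h3 : (1 : ℝ) / (2 * w : ℕ) ≤ 1 / w :=
      one_div_le_one_div_of_le hw' (by push_cast; linarith)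
    simp only [av]
    linarith
  have e : ∀ y, Kd Q r w y ^ 2 ≤ 1 / w * (box Q w y + av (r : ZMod Q) (box Q (2 * w)) y) :=
    fun y => by
    have h1 := box_nonneg (Q := Q) w y
    have h2 := box_le (Q := Q) w y
    have h3 := b0 y
    have h4 := b2 y
    simp only [Kd]
    nlinarith [mul_nonneg h1 h3, mul_le_mul_of_nonneg_left h2 h1, mul_le_mul_of_nonneg_left h4 h3]
  have h := sum_le_sum fun y (_ : y ∈ univ) => e y
  rw [← mul_sum, sum_add_distrib, a1, b1] at h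
  refine h.trans (le_of_eq ?_)
  ring

/-- second moment with a kernel of mean zero -/
theorem rec_two' (a : ℕ → ZMod Q) (K : ZMod Q → ℝ) {c y B : ℝ} (hc : 0 < c) (hy : 0 < y)
    (hB : 0 < B) (hK : ∑ g, K g ^ 2 ≤ y ^ 2 * c) (ls : List Law) (h1 : ∀ l ∈ ls, l.Prob)
    (h2 : ∀ l tl, (l :: tl) <:+ ls →
      ∑ g, conv (l.push a) K g ^ 2 ≤ (B * (5 / 7) ^ tl.length) ^ 2 * c) :
    Ex ls (fun as => ∑ g, mu (as.map a) K g ^ 2)
      ≤ ((5 / 7) ^ ls.length * (y + 2 * ls.length * B)) ^ 2 * c := by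
  induction ls with
  | nil => simpa [Ex, mu] using hK
  | cons l tl ih =>
    have htl : ∀ l' ∈ tl, l'.Prob := fun l' hl' => h1 l' (List.mem_cons_of_mem _ hl')
    have IH := ih htl fun l' tl' h => h2 l' tl' (h.trans (List.suffix_cons _ _))
    have hβ := h2 l tl (List.suffix_refl _)
    set Y : ℝ := (5 / 7) ^ tl.length * (y + 2 * tl.length * B) with hY
    set β : ℝ := B * (5 / 7) ^ tl.length with hβd
    have hY0 : 0 < Y := by positivity
    have hβ0 : 0 < β := by positivity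
    have key : ∀ as : List ℕ, ∑ p ∈ l.supp, l.wt p * ∑ g, mu ((p :: as).map a) K g ^ 2 ≤
        (1 / 2 + β / Y / 4) * ∑ g, mu (as.map a) K g ^ 2 + Y * β * c / 4 := fun as => by
      set f := mu (as.map a) K with hf
      have e1 : ∀ p, ∑ g, mu ((p :: as).map a) K g ^ 2 =
          (∑ g, f g ^ 2 + ∑ g, f g * f (g - a p)) / 2 := fun p => sum_av_sq (a p) f
      have e2 : ∑ p ∈ l.supp, l.wt p * ∑ g, f g * f (g - a p) =
          ∑ g, f g * mu (as.map a) (conv (l.push a) K) g := by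
        rw [← conv_mu, ← hf]
        simp only [mul_sum]
        rw [sum_comm]
        refine sum_congr rfl fun g _ => ?_
        rw [conv, ← sum_push l a fun t => f (g - t), mul_sum]
        exact sum_congr rfl fun p _ => by ring
      have e3 := (sum_mu_sq_le (as.map a) (conv (l.push a) K)).trans hβ
      have e4 : ∑ g, f g * mu (as.map a) (conv (l.push a) K) g ≤
          ∑ g, (β / Y / 2 * f g ^ 2 + Y / β / 2 * mu (as.map a) (conv (l.push a) K) g ^ 2) :=
        sum_le_sum fun g _ => by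
          have h := sq_nonneg (β * f g - Y * mu (as.map a) (conv (l.push a) K) g)
          have e : β / Y / 2 * f g ^ 2 + Y / β / 2 * mu (as.map a) (conv (l.push a) K) g ^ 2 -
              f g * mu (as.map a) (conv (l.push a) K) g =
              (β * f g - Y * mu (as.map a) (conv (l.push a) K) g) ^ 2 / (2 * Y * β) := by
            field_simp
            ring
          have := div_nonneg h (by positivity : 0 ≤ 2 * Y * β)
          linarith
      rw [sum_add_distrib, ← mul_sum, ← mul_sum] at e4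
      have e5 : Y / β / 2 * ∑ g, mu (as.map a) (conv (l.push a) K) g ^ 2 ≤ Y * β * c / 2 := by
        refine (mul_le_mul_of_nonneg_left e3 (by positivity)).trans (le_of_eq ?_)
        field_simp
      have e6 : ∑ p ∈ l.supp, l.wt p * ∑ g, mu ((p :: as).map a) K g ^ 2 =
          (∑ g, f g ^ 2 + ∑ p ∈ l.supp, l.wt p * ∑ g, f g * f (g - a p)) / 2 := by
        simp only [e1, ← mul_div_assoc, mul_add]
        rw [← sum_div, sum_add_distrib, ← sum_mul, (h1 l List.mem_cons_self).2, one_mul]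
      rw [e6, e2]
      linarith
    have h3 : Ex (l :: tl) (fun as => ∑ g, mu (as.map a) K g ^ 2) =
        Ex tl fun as => ∑ p ∈ l.supp, l.wt p * ∑ g, mu ((p :: as).map a) K g ^ 2 := by
      rw [Ex_sum tl l.supp]
      simp only [Ex, Ex_mul]
    rw [h3]
    refine (Ex_mono htl fun as _ => key as).trans ?_
    rw [Ex_add, Ex_mul, Ex_const htl]
    have h4 := mul_le_mul_of_nonneg_left IH (by positivity : 0 ≤ 1 / 2 + β / Y / 4)
    have h5 : (1 / 2 + β / Y / 4) * (Y ^ 2 * c) = (Y ^ 2 / 2 + Y * β / 4) * c := by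
      field_simp
    have h6 : (5 / 7 : ℝ) ^ (l :: tl).length * (y + 2 * ((l :: tl).length : ℕ) * B) =
        5 / 7 * (Y + 2 * β) := by
      rw [List.length_cons, hY, hβd]
      push_cast
      ring
    rw [h6]
    have h7 : Y ^ 2 / 2 + Y * β / 2 ≤ (5 / 7 * (Y + 2 * β)) ^ 2 := by
      nlinarith [mul_pos hY0 hβ0, sq_nonneg Y, sq_nonneg β]
    have h8 := mul_le_mul_of_nonneg_right h7 hc.le
    linarith

omit [NeZero Q] in
lemma reca_forall (a : ℕ → ZMod Q) {m : ℕ} {as : List ℕ} {ls : List Law}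
    (h : List.Forall₂ (fun p (l : Law) => p ∈ l.supp) as ls)
    (hm : ∀ l ∈ ls, ∀ p ∈ l.supp, (a p).val ≤ m) : ∀ g ∈ as.map a, g.val ≤ m := by
  induction h with
  | nil => simp
  | cons h _ ih =>
    intro g hg
    rw [List.map_cons, List.mem_cons] at hg
    rcases hg with rfl | hg
    · exact hm _ List.mem_cons_self _ h
    · exact ih (fun l hl => hm l (List.mem_cons_of_mem _ hl)) g hg

lemma reca_point (l : List (ZMod Q)) (f : ZMod Q → ℝ) {r W : ℕ} (hr : 0 < r) (hrQ : r ≤ Q)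
    (hW : 0 < W) (hQ : W ≤ Q) (hf : RecaSupp W f) {c : ℝ} (hc : 0 < c) :
    ‖conv f (mu l (box Q r))‖ ≤ c / 2 * ∑ g, f g ^ 2 +
      W / (4 * c) * (‖mu l (box Q r)‖ ^ 2 + ‖mu l (box Q W)‖ ^ 2) := by
  have hW' : (0 : ℝ) < W := by exact_mod_cast hW
  refine (pi_norm_le_iff_of_nonneg (by positivity)).2 fun y => ?_
  set h := mu l (box Q r) with hh
  have h0 : ∀ t, 0 ≤ h t := mu_nonneg l (box_nonneg r)
  have h1 : ∀ t, h t ≤ ‖h‖ := fun t => (le_abs_self _).trans (norm_le_pi_norm h t)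
  have e1 : ∀ t, |f t * h (y - t)| ≤
      c / 2 * f t ^ 2 + W * ‖h‖ / (2 * c) * (box Q W t * h (y - t)) := fun t => by
    by_cases ht : f t = 0
    · have := mul_nonneg (box_nonneg W t) (h0 (y - t))
      simp only [ht, zero_mul, abs_zero]
      positivity
    · obtain ⟨k, hk, rfl⟩ := hf t ht
      have hb : box Q W (k : ZMod Q) = 1 / W := by
        rw [box, if_pos]
        rw [ZMod.val_cast_of_lt (hk.trans_le hQ)]
        exact hk
      rw [hb, abs_mul, abs_of_nonneg (h0 _), ← sq_abs]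
      set u := |f k|
      set v := h (y - k)
      have hv0 : 0 ≤ v := h0 _
      have hv1 : v ≤ ‖h‖ := h1 _
      have e : (W : ℝ) * ‖h‖ / (2 * c) * (1 / W * v) = ‖h‖ * v / (2 * c) := by field_simp
      have e' : c / 2 * u ^ 2 + v * v / (2 * c) - u * v = (c * u - v) ^ 2 / (2 * c) := by
        field_simp
        ring
      have e'' : v * v / (2 * c) ≤ ‖h‖ * v / (2 * c) :=
        div_le_div_of_nonneg_right (mul_le_mul_of_nonneg_right hv1 hv0) (by positivity)
      have := div_nonneg (sq_nonneg (c * u - v)) (by positivity : 0 ≤ 2 * c)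
      rw [e]
      linarith
  have e2 : conv (box Q W) h y ≤ ‖mu l (box Q W)‖ := by
    rw [hh, conv_mu, ← mu_conv]
    exact (reca_conv_prob _ _ (mu_nonneg l (box_nonneg W))
      (fun t => (le_abs_self _).trans (norm_le_pi_norm (mu l (box Q W)) t)) (box_nonneg r)
      (sum_box hr hrQ) y).2
  rw [Real.norm_eq_abs, conv]
  refine (abs_sum_le_sum_abs _ _).trans ((sum_le_sum fun t _ => e1 t).trans ?_)
  rw [sum_add_distrib, ← mul_sum, ← mul_sum]
  have e3 := mul_le_mul_of_nonneg_left e2 (by positivity : 0 ≤ W * ‖h‖ / (2 * c))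
  have e4 : W * ‖h‖ / (2 * c) * ‖mu l (box Q W)‖ ≤
      W / (4 * c) * (‖h‖ ^ 2 + ‖mu l (box Q W)‖ ^ 2) := by
    have e : W * ‖h‖ / (2 * c) * ‖mu l (box Q W)‖ =
        W / (4 * c) * (2 * (‖h‖ * ‖mu l (box Q W)‖)) := by
      field_simp
      ring
    rw [e]
    exact mul_le_mul_of_nonneg_left (by nlinarith [sq_nonneg (‖h‖ - ‖mu l (box Q W)‖)])
      (by positivity)
  have e5 : conv (box Q W) h y = ∑ t, box Q W t * h (y - t) := rfl
  rw [← e5]
  linarith

/-- one scale: the upper primes spread the mass, the lower primes produce cancellation -/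
theorem one_scale' (a : ℕ → ZMod Q) (l₂ l₁ l₀ : List Law) (h₂ : ∀ l ∈ l₂, l.Prob)
    (h₁ : ∀ l ∈ l₁, l.Prob) (h₀ : ∀ l ∈ l₀, l.Prob) {r w m W : ℕ} (hr : 0 < r) (hrw : r ≤ w)
    (hm : ∀ l ∈ l₁, ∀ p ∈ l.supp, (a p).val ≤ m) (hW : l₁.length * m + 3 * w ≤ W) (hQ : W ≤ Q)
    {y σ Θ : ℝ} (hy : 0 < y) (hΘ : 0 < Θ)
    (e₁ : Ex l₁ (fun as => ∑ g, mu (as.map a) (Kd Q r w) g ^ 2) ≤ y ^ 2 / r)
    (e₂ : Ex l₂ (fun as => ‖mu (as.map a) (box Q r)‖ ^ 2) ≤ σ ^ 2)
    (e₃ : Ex l₂ (fun as => ‖mu (as.map a) (box Q W)‖ ^ 2) ≤ σ ^ 2)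
    (e₄ : y ^ 2 * σ ^ 2 * W ≤ Θ ^ 2 * r) :
    Ex (l₂ ++ (l₁ ++ l₀)) (fun as => ‖mu (as.map a) (conv (box Q r) (Kd Q r w))‖) ≤ Θ := by
  have hr' : (0 : ℝ) < r := by exact_mod_cast hr
  set c : ℝ := Θ * r / y ^ 2 with hc
  have hc0 : 0 < c := by positivity
  have hW0 : 0 < W := by omega
  rw [Ex_append]
  have step : ∀ as₂ : List ℕ,
      Ex (l₁ ++ l₀) (fun bs => ‖mu ((as₂ ++ bs).map a) (conv (box Q r) (Kd Q r w))‖) ≤
        Θ / 2 + W / (4 * c) * (‖mu (as₂.map a) (box Q r)‖ ^ 2 + ‖mu (as₂.map a) (box Q W)‖ ^ 2) := by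
    intro as₂
    rw [Ex_append]
    refine (Ex_mono h₁ (G := fun as₁ => c / 2 * ∑ g, mu (as₁.map a) (Kd Q r w) g ^ 2 +
      W / (4 * c) * (‖mu (as₂.map a) (box Q r)‖ ^ 2 + ‖mu (as₂.map a) (box Q W)‖ ^ 2))
      fun as₁ h => ?_).trans ?_
    · refine (Ex_mono h₀ fun as₀ _ => ?_).trans (Ex_const h₀ _).le
      have hs := (reca_supp_Kd (Q := Q) hrw).mu (as₁.map a) (reca_forall a h hm)
      rw [List.length_map, h.length_eq] at hs
      refine le_trans ?_ (reca_point (as₂.map a) _ hr (by omega) hW0 hQ (hs.mono hW) hc0)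
      rw [List.map_append, List.map_append, mu_append, mu_append, mu_comm (as₁.map a),
        mu_comm (as₂.map a) (as₀.map a), conv_mu, mu_conv, conv_comm]
      exact norm_mu_le _ _
    · rw [Ex_add, Ex_mul, Ex_const h₁]
      have h1 := mul_le_mul_of_nonneg_left e₁ (by positivity : 0 ≤ c / 2)
      have h2 : c / 2 * (y ^ 2 / r) = Θ / 2 := by rw [hc]; field_simp
      linarith
  refine (Ex_mono h₂ fun as₂ _ => step as₂).trans ?_
  rw [Ex_add, Ex_const h₂, Ex_mul, Ex_add]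
  have h1 := mul_le_mul_of_nonneg_left (add_le_add e₂ e₃) (by positivity : 0 ≤ W / (4 * c))
  have h2 : W / (4 * c) * (σ ^ 2 + σ ^ 2) = y ^ 2 * σ ^ 2 * W / (2 * Θ * r) := by
    rw [hc]; field_simp; ring
  have h3 : y ^ 2 * σ ^ 2 * W / (2 * Θ * r) ≤ Θ / 2 := by
    rw [div_le_iff₀ (by positivity)]
    nlinarith
  linarith

end Pool.Agent.Work.MP_82fd4a_nt
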