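import Pool.Agent.Work.MP_82fd4a_nt.Blocks

/-! Segments of blocks and elementary inequalities. -/

set_option autoImplicit false
open Filter Topology Finset

namespace Pool.Agent.Work.MP_82fd4a_nt

/-- the laws of the blocks `a, ..., a + k - 1` -/
noncomputable def sc_seg (f : ℕ → Law) (s : ℝ) (a k : ℕ) : List Law :=
  (List.range' a k).flatMap fun l => List.replicate (2 * nn s l) (f l)

lemma sc_uu_succ (s : ℝ) (l : ℕ) : uu s (l + 1) = uu s l + uu s l / 1000 := by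
  unfold uu gam
  ring

lemma sc_uu_mono {s : ℝ} (hs : 0 ≤ s) {a b : ℕ} (h : a ≤ b) : uu s a ≤ uu s b :=
  mul_le_mul_of_nonneg_left (pow_le_pow_right₀ (by unfold gam; norm_num) h) hs

lemma sc_uu_zero (s : ℝ) : uu s 0 = s := by simp [uu]

lemma sc_uu_ge {s : ℝ} (hs : 0 ≤ s) (a : ℕ) : s ≤ uu s a := by
  have := sc_uu_mono hs (Nat.zero_le a)
  rwa [sc_uu_zero] at this

lemma sc_lt_of_uu {s : ℝ} (hs : 0 ≤ s) {a b : ℕ} (h : uu s a < uu s (b + 1)) : a ≤ b := by
  by_contra hc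
  exact absurd (sc_uu_mono hs (show b + 1 ≤ a by omega)) (not_le.2 h)

lemma sc_exists {s t : ℝ} (hs : 0 < s) (ht : s ≤ t) : ∃ l, uu s l ≤ t ∧ t < uu s (l + 1) := by
  obtain ⟨l, h1, h2⟩ := exists_nat_pow_near (x := t / s) (y := 1 + gam)
    ((one_le_div hs).2 ht) (by unfold gam; norm_num)
  refine ⟨l, ?_, ?_⟩
  · rw [le_div_iff₀ hs] at h1
    unfold uu
    linarith
  · rw [div_lt_iff₀ hs] at h2
    unfold uu
    linarith

lemma sc_nn {s : ℝ} (hs : 10 ^ 6 ≤ s) (l : ℕ) :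
    1.998 * (uu s (l + 1) - uu s l) ≤ ((2 * nn s l : ℕ) : ℝ) ∧
      ((2 * nn s l : ℕ) : ℝ) ≤ 2 * (uu s (l + 1) - uu s l) := by
  have h0 := sc_uu_ge (by linarith : 0 ≤ s) l
  have h1 : (1 - gam) * gam * uu s l ≤ nn s l := Nat.le_ceil _
  have h2 : (nn s l : ℝ) < (1 - gam) * gam * uu s l + 1 :=
    Nat.ceil_lt_add_one (by unfold gam; nlinarith)
  rw [sc_uu_succ]
  unfold gam at h1 h2
  push_cast
  constructor <;> linarith

lemma sc_seg_succ (f : ℕ → Law) (s : ℝ) (a k : ℕ) :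
    sc_seg f s a (k + 1) = sc_seg f s a k ++ List.replicate (2 * nn s (a + k)) (f (a + k)) := by
  simp [sc_seg, List.range'_1_concat, List.flatMap_append]

lemma sc_seg_add (f : ℕ → Law) (s : ℝ) (a k m : ℕ) :
    sc_seg f s a (k + m) = sc_seg f s a k ++ sc_seg f s (a + k) m := by
  rw [sc_seg, ← List.range'_append_1, List.flatMap_append]
  rfl

lemma sc_len {s : ℝ} (hs : 10 ^ 6 ≤ s) (f : ℕ → Law) (a k : ℕ) :
    1.998 * (uu s (a + k) - uu s a) ≤ (sc_seg f s a k).length ∧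
      ((sc_seg f s a k).length : ℝ) ≤ 2 * (uu s (a + k) - uu s a) := by
  induction k with
  | zero => simp [sc_seg]
  | succ k ih =>
    have h := sc_nn hs (a + k)
    rw [sc_seg_succ, List.length_append, List.length_replicate, Nat.cast_add, ← add_assoc]
    constructor <;> linarith [ih.1, ih.2, h.1, h.2]

lemma sc_mem {f : ℕ → Law} {s : ℝ} {a k : ℕ} {l : Law} (h : l ∈ sc_seg f s a k) :
    ∃ j, a ≤ j ∧ j < a + k ∧ l = f j := by
  obtain ⟨j, hj, hl⟩ := List.mem_flatMap.1 h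
  exact ⟨j, (List.mem_range'_1.1 hj).1, (List.mem_range'_1.1 hj).2, List.eq_of_mem_replicate hl⟩

lemma sc_pos {s : ℝ} (hs : 10 ^ 6 ≤ s) (f : ℕ → Law) (a k : ℕ) (pre : List Law) (l : Law)
    (tl : List Law) (h : sc_seg f s a k = pre ++ l :: tl) :
    ∃ j, a ≤ j ∧ j < a + k ∧ l = f j ∧ 1.998 * (uu s j - uu s a) ≤ pre.length ∧
      (tl.length : ℝ) ≤ 2 * (uu s (a + k) - uu s j) := by
  induction k generalizing tl with
  | zero => simp [sc_seg] at h
  | succ k ih =>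
    have hn := sc_nn hs (a + k)
    have last : ∀ c : List Law, pre = sc_seg f s a k ++ c →
        List.replicate (2 * nn s (a + k)) (f (a + k)) = c ++ l :: tl →
        ∃ j, a ≤ j ∧ j < a + (k + 1) ∧ l = f j ∧ 1.998 * (uu s j - uu s a) ≤ pre.length ∧
          (tl.length : ℝ) ≤ 2 * (uu s (a + (k + 1)) - uu s j) := by
      intro c h1 h2
      refine ⟨a + k, by omega, by omega,
        List.eq_of_mem_replicate (n := 2 * nn s (a + k)) (by rw [h2]; simp), ?_, ?_⟩
      · rw [h1, List.length_append, Nat.cast_add]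
        linarith [(sc_len hs f a k).1, Nat.cast_nonneg (α := ℝ) c.length]
      · have h3 := congrArg List.length h2
        rw [List.length_replicate, List.length_append, List.length_cons] at h3
        have h4 : (tl.length : ℝ) ≤ ((2 * nn s (a + k) : ℕ) : ℝ) := by exact_mod_cast (by omega)
        rw [← add_assoc]
        linarith [hn.2]
    rw [sc_seg_succ, List.append_eq_append_iff] at h
    rcases h with ⟨c, h1, h2⟩ | ⟨c, h1, h2⟩
    · exact last c h1 h2
    · rcases List.cons_eq_append_iff.1 h2 with ⟨rfl, h3⟩ | ⟨c', rfl, h3⟩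
      · exact last [] (by simpa using h1.symm) (by simpa using h3)
      · obtain ⟨j, j1, j2, j3, j4, j5⟩ := ih c' h1
        refine ⟨j, j1, by omega, j3, j4, ?_⟩
        rw [h3, List.length_append, List.length_replicate, Nat.cast_add, ← add_assoc]
        linarith [hn.2]

lemma sc_five_ge (i : ℕ) : Real.exp (-(i / 2)) ≤ (5 / 7 : ℝ) ^ i := by
  rw [show -((i : ℝ) / 2) = i * (-(1 / 2)) by ring, Real.exp_nat_mul]
  refine pow_le_pow_left₀ (Real.exp_pos _).le ?_ i
  have := Real.add_one_le_exp (1 / 2 : ℝ)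
  rw [Real.exp_neg, inv_le_comm₀ (Real.exp_pos _) (by norm_num)]
  linarith

lemma sc_five_le (i : ℕ) : (5 / 7 : ℝ) ^ i ≤ Real.exp (-(i / 3)) := by
  rw [show -((i : ℝ) / 3) = i * (-(1 / 3)) by ring, Real.exp_nat_mul]
  refine pow_le_pow_left₀ (by norm_num) ?_ i
  have h1 : Real.exp (1 / 3 : ℝ) ^ 3 = Real.exp 1 := by
    rw [← Real.exp_nat_mul]
    norm_num
  have h2 : Real.exp (1 / 3 : ℝ) ≤ 7 / 5 := by
    refine le_of_not_gt fun h => ?_
    have h3 : (7 / 5 : ℝ) ^ 3 ≤ Real.exp (1 / 3 : ℝ) ^ 3 := pow_le_pow_left₀ (by norm_num) h.le 3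
    have := Real.exp_one_lt_d9
    rw [h1] at h3
    norm_num at h3
    linarith
  rw [Real.exp_neg, le_inv_comm₀ (by norm_num) (Real.exp_pos _)]
  linarith

lemma sc_two_ge (i : ℕ) : Real.exp (0.693 * i) ≤ (2 : ℝ) ^ i := by
  rw [mul_comm, Real.exp_nat_mul]
  refine pow_le_pow_left₀ (Real.exp_pos _).le ?_ i
  have := Real.log_two_gt_d9
  calc Real.exp 0.693 ≤ Real.exp (Real.log 2) := Real.exp_le_exp.2 (by linarith)
    _ = 2 := Real.exp_log (by norm_num)

lemma sc_big (K : ℝ) : ∃ u₀ : ℝ, ∀ u, u₀ ≤ u → K * u ≤ Real.exp (u / 1000) := by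
  refine ⟨2 * 10 ^ 6 * |K|, fun u hu => ?_⟩
  have h0 : 0 ≤ u := le_trans (by positivity) hu
  have h1 := Real.pow_div_factorial_le_exp (u / 1000) (by positivity) 2
  have h2 : K * u ≤ |K| * u := mul_le_mul_of_nonneg_right (le_abs_self K) h0
  have h3 : 2 * 10 ^ 6 * |K| * u ≤ u * u := mul_le_mul_of_nonneg_right hu h0
  norm_num [Nat.factorial] at h1
  nlinarith

end Pool.Agent.Work.MP_82fd4a_nt
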