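import Pool.Agent.Work.MP_82fd4a_nt.Blocks
import Pool.Agent.Work.MP_82fd4a_nt.ScaleA
import Pool.Agent.Work.MP_82fd4a_nt.Rec
import Pool.Agent.Work.MP_82fd4a_nt.Law

/-! The discrepancy at one scale. -/

set_option autoImplicit false
open Filter Topology Finset

namespace Pool.Agent.Work.MP_82fd4a_nt

variable {Q : ℕ} [NeZero Q]

omit [NeZero Q] in
lemma sc_push_nonneg {l : Law} (h : l.Prob) (a : ℕ → ZMod Q) (g : ZMod Q) : 0 ≤ l.push a g :=
  sum_nonneg fun p hp => h.1 p (mem_filter.1 hp).1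

/-- the lower primes produce cancellation -/
lemma sc_low {s : ℝ} (hs : 10 ^ 6 ≤ s) (a : ℕ → ZMod Q) (f : ℕ → Law) {M r w la k : ℕ}
    (hr : 0 < r) (hrw : r ≤ w) (hw : w ≤ M * r) (hQ : 3 * w ≤ Q) {u : ℝ} (hu : 1 ≤ u)
    (hla : uu s la ≤ 3 * u / 4) (hlb : uu s (la + k) ≤ 0.998 * u)
    (hlb' : 0.998 * u < uu s (la + k + 1)) (hP : ∀ j < la + k, (f j).Prob)
    (h1 : ∀ j < la + k, ∀ g, (f j).push a g ≤ 10 * Real.exp (uu s (j + 1)) / (r * Real.exp u))
    (h2 : ∀ j < la + k, ∑ g, |(f j).push a g - (f j).push a (g - 1)|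
      ≤ 10 * Real.exp (uu s (j + 1)) / (r * Real.exp u))
    (hK : (2 + 120 * (M + 1)) * u ≤ Real.exp (u / 1000)) :
    Ex (sc_seg f s la k) (fun as => ∑ g, mu (as.map a) (Kd Q r w) g ^ 2)
      ≤ Real.exp (-(0.163 * u)) ^ 2 / r := by
  have hs0 : 0 ≤ s := by linarith
  have hr' : (0 : ℝ) < r := by exact_mod_cast hr
  have hrw' : (r : ℝ) ≤ w := by exact_mod_cast hrw
  have hw' : (w : ℝ) ≤ M * r := by exact_mod_cast hw
  have hM : (0 : ℝ) ≤ M := Nat.cast_nonneg M
  have key := rec_two a (Kd Q r w) (c := 1 / r) (y := 2) (B := 30 * (M + 1)) (by positivity)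
    (by norm_num) (by positivity) ?_ (sc_seg f s la k) ?_ ?_
  · refine key.trans ?_
    rw [mul_one_div]
    refine div_le_div_of_nonneg_right (pow_le_pow_left₀ (by positivity) ?_ 2) hr'.le
    obtain ⟨l1, l2⟩ := sc_len hs f la k
    rw [sc_uu_succ] at hlb'
    have l3 := sc_uu_ge hs0 la
    set N := (sc_seg f s la k).length
    have e1 : (5 / 7 : ℝ) ^ N ≤ Real.exp (-(0.164 * u)) :=
      (sc_five_le N).trans (Real.exp_le_exp.2 (by linarith))
    have e2 : 2 + 2 * (N : ℝ) * (30 * (M + 1)) ≤ Real.exp (u / 1000) := by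
      have : (N : ℝ) * (M + 1) ≤ 2 * u * (M + 1) :=
        mul_le_mul_of_nonneg_right (by linarith) (by positivity)
      linarith
    calc _ ≤ Real.exp (-(0.164 * u)) * Real.exp (u / 1000) :=
          mul_le_mul e1 e2 (by positivity) (Real.exp_pos _).le
      _ = _ := by
          rw [← Real.exp_add]
          congr 1
          ring
  · refine (Kd_sq (by omega) (by omega)).trans ?_
    rw [mul_one_div, div_le_div_iff₀ (by linarith) hr']
    linarith
  · intro l hl
    obtain ⟨j, -, j2, rfl⟩ := sc_mem hl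
    exact hP j j2
  · rintro l tl ⟨pre, hpre⟩
    obtain ⟨j, j1, j2, rfl, -, j5⟩ := sc_pos hs f la k pre l tl hpre.symm
    refine (conv_Kd_sq _ (sc_push_nonneg (hP j j2) a) (h1 j j2) (h2 j j2) hrw (by omega)
      hQ).trans ?_
    have j6 : uu s j ≤ uu s (la + k) := sc_uu_mono hs0 j2.le
    have e1 : Real.exp (uu s (j + 1) - u) ≤ (5 / 7 : ℝ) ^ tl.length := by
      refine le_trans (Real.exp_le_exp.2 ?_) (sc_five_ge _)
      rw [sc_uu_succ]
      linarith
    have e2 : 10 * Real.exp (uu s (j + 1)) / (r * Real.exp u)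
        = 10 * Real.exp (uu s (j + 1) - u) / r := by
      rw [Real.exp_sub]
      field_simp
    rw [e2]
    set E := Real.exp (uu s (j + 1) - u)
    have hE : 0 < E := Real.exp_pos _
    calc 6 * (w : ℝ) * (10 * E / r) ^ 2 ≤ 6 * (M * r) * (10 * E / r) ^ 2 := by gcongr
      _ = 600 * M * E ^ 2 * (1 / r) := by field_simp; ring
      _ ≤ (30 * (M + 1)) ^ 2 * E ^ 2 * (1 / r) := by gcongr; nlinarith
      _ = (30 * (M + 1) * E) ^ 2 * (1 / r) := by ring
      _ ≤ _ := by gcongr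

/-- the upper primes spread the mass -/
lemma sc_up {s : ℝ} (hs : 10 ^ 6 ≤ s) (a : ℕ → ZMod Q) (f : ℕ → Law) {r v la : ℕ}
    (hr : 0 < r) (hrv : r ≤ v) (hQ : 2 * v ≤ Q) {u : ℝ} (hu : 1 ≤ u)
    (hla : uu s la ≤ 3 * u / 4) (hla' : 3 * u / 4 < uu s (la + 1)) (hP : ∀ j < la, (f j).Prob)
    (h1 : ∀ j < la, ∀ g, (f j).push a g ≤ 10 * Real.exp (uu s (j + 1)) / (r * Real.exp u))
    (hK : (Real.exp (2 * s) + 20 * 2 ^ 102 * Real.exp s) * u ≤ Real.exp (u / 1000))
    (hK' : (1 + 2 ^ 102) * u ≤ Real.exp (u / 1000)) :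
    Ex (sc_seg f s 0 la) (fun as => ‖mu (as.map a) (box Q v)‖ ^ 2)
      ≤ (Real.exp (0.0125 * u) / (r * Real.exp u)) ^ 2 := by
  have hs0 : 0 ≤ s := by linarith
  have hr' : (0 : ℝ) < r := by exact_mod_cast hr
  have hrv' : (r : ℝ) ≤ v := by exact_mod_cast hrv
  set zt := r * Real.exp u with hzt
  have hz : 0 < zt := by positivity
  have key := sup_sq a (k := 102) (by norm_num) (v := v) (by omega) hQ
    (ρ := 10 * Real.exp (u / 1000 + s) / zt) (X := Real.exp (0.002 * u) / zt)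
    (B := Real.exp (0.002 * u) / zt * Real.exp (u / 100)) (by positivity) (by positivity)
    (sc_seg f s 0 la) ?_ ?_ ?_
  · refine key.trans ?_
    have hT : (0 : ℝ) < 2 ^ 102 := by positivity
    generalize (2 : ℝ) ^ 102 = T at hK' hT ⊢
    set X := Real.exp (0.002 * u) / zt with hX
    have hX0 : 0 < X := by positivity
    have e1 : (X * Real.exp (u / 100)) ^ (102 - 2) = X ^ 100 * Real.exp u := by
      rw [mul_pow, ← Real.exp_nat_mul]
      congr 2
      push_cast
      ring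
    have e2 : 1 / zt ≤ X := by
      rw [hX]
      gcongr
      exact Real.one_le_exp (by linarith)
    have e3 : X ≤ X * Real.exp (u / 100) :=
      le_mul_of_one_le_right hX0.le (Real.one_le_exp (by linarith))
    have e4 : T * X ^ (102 - 1) / (v * (X ^ 100 * Real.exp u))
        ≤ T * (X * Real.exp (u / 100)) ^ 2 := by
      calc T * X ^ (102 - 1) / (v * (X ^ 100 * Real.exp u))
          ≤ T * X ^ (102 - 1) / (r * (X ^ 100 * Real.exp u)) := by gcongr
        _ = T * (X * (1 / zt)) := by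
          rw [hzt, show 102 - 1 = 100 + 1 from rfl, pow_succ]
          field_simp
        _ ≤ T * (X * X) := by gcongr
        _ = T * X ^ 2 := by ring
        _ ≤ _ := by gcongr
    have e5 : 1 + T ≤ Real.exp (u / 1000) := le_trans (by nlinarith) hK'
    have e6 : Real.exp (0.0125 * u) ^ 2
        = Real.exp (u / 1000) * (Real.exp (0.002 * u) * Real.exp (u / 100)) ^ 2 := by
      rw [← Real.exp_add, ← Real.exp_nat_mul, ← Real.exp_nat_mul, ← Real.exp_add]
      congr 1
      push_cast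
      ring
    rw [e1]
    calc _ ≤ (X * Real.exp (u / 100)) ^ 2 + T * (X * Real.exp (u / 100)) ^ 2 := by linarith
      _ = (1 + T) * (X * Real.exp (u / 100)) ^ 2 := by ring
      _ ≤ Real.exp (u / 1000) * (X * Real.exp (u / 100)) ^ 2 := by gcongr
      _ = _ := by
        rw [div_pow, e6, hX]
        ring
  · intro l hl
    obtain ⟨j, -, j2, rfl⟩ := sc_mem hl
    exact hP j (by omega)
  · intro pre l tl hpre g
    obtain ⟨j, -, j2, rfl, j4, -⟩ := sc_pos hs f 0 la pre l tl hpre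
    refine (h1 j (by omega) g).trans ?_
    rw [sc_uu_zero] at j4
    have j5 := sc_uu_ge hs0 j
    have j6 : uu s j ≤ uu s la := sc_uu_mono hs0 (by omega)
    have e1 : Real.exp (uu s j - s) ≤ (2 : ℝ) ^ pre.length :=
      le_trans (Real.exp_le_exp.2 (by linarith)) (sc_two_ge _)
    have e2 : Real.exp (uu s (j + 1)) ≤ Real.exp (uu s j - s) * Real.exp (u / 1000 + s) := by
      rw [← Real.exp_add, sc_uu_succ]
      exact Real.exp_le_exp.2 (by linarith)
    calc 10 * Real.exp (uu s (j + 1)) / zt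
        ≤ 10 * (Real.exp (uu s j - s) * Real.exp (u / 1000 + s)) / zt := by gcongr
      _ = Real.exp (uu s j - s) * (10 * Real.exp (u / 1000 + s) / zt) := by ring
      _ ≤ _ := by gcongr
  · obtain ⟨l1, l2⟩ := sc_len hs f 0 la
    rw [zero_add, sc_uu_zero] at l1 l2
    rw [sc_uu_succ] at hla'
    set N := (sc_seg f s 0 la).length
    have e1 : Real.exp (u - 2 * s) ≤ (2 : ℝ) ^ N :=
      le_trans (Real.exp_le_exp.2 (by linarith)) (sc_two_ge _)
    have e2 : 1 / ((v : ℝ) * 2 ^ N) ≤ Real.exp (2 * s) / zt := by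
      calc 1 / ((v : ℝ) * 2 ^ N) ≤ 1 / (r * Real.exp (u - 2 * s)) := by gcongr
        _ = _ := by
          rw [Real.exp_sub, hzt]
          field_simp
    have e3 : (N : ℝ) ≤ 2 * u := by linarith
    have e4 : 1 ≤ u * Real.exp (u / 1000) :=
      one_le_mul_of_one_le_of_one_le hu (Real.one_le_exp (by linarith))
    have e5 : Real.exp (0.002 * u) = Real.exp (u / 1000) * Real.exp (u / 1000) := by
      rw [← Real.exp_add]
      congr 1
      ring
    have hT : (0 : ℝ) < 2 ^ 102 := by positivity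
    generalize (2 : ℝ) ^ 102 = T at hK hT ⊢
    calc 1 / ((v : ℝ) * 2 ^ N) + T * N * (10 * Real.exp (u / 1000 + s) / zt)
        ≤ Real.exp (2 * s) * (u * Real.exp (u / 1000)) / zt
          + T * (2 * u) * (10 * Real.exp (u / 1000 + s) / zt) := by
          refine add_le_add (e2.trans ?_) (by gcongr)
          gcongr
          exact le_mul_of_one_le_right (Real.exp_pos _).le e4
      _ = (Real.exp (2 * s) + 20 * T * Real.exp s) * u * Real.exp (u / 1000) / zt := by
          rw [Real.exp_add]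
          ring
      _ ≤ _ := by
          rw [e5]
          gcongr

/-- the estimate for abstract laws -/
lemma sc_core {s : ℝ} (hs : 10 ^ 6 ≤ s) (a : ℕ → ZMod Q) (f : ℕ → Law) {M r w n : ℕ}
    (hr : 0 < r) (hrw : r ≤ w) (hw : w ≤ M * r) {u : ℝ} (hQ : 2 * (r * Real.exp u) ≤ Q)
    (hu : 2 * s ≤ u) (hn : 0.998 * u < uu s (n + 1)) (hP : ∀ j < n, (f j).Prob)
    (h1 : ∀ j < n, ∀ g, (f j).push a g ≤ 10 * Real.exp (uu s (j + 1)) / (r * Real.exp u))
    (h2 : ∀ j < n, ∑ g, |(f j).push a g - (f j).push a (g - 1)|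
      ≤ 10 * Real.exp (uu s (j + 1)) / (r * Real.exp u))
    (h3 : ∀ j < n, ∀ p ∈ (f j).supp, ((a p).val : ℝ) ≤ r * Real.exp u * Real.exp (-uu s j))
    (hK1 : (2 + 120 * (M + 1)) * u ≤ Real.exp (u / 1000))
    (hK2 : (Real.exp (2 * s) + 20 * 2 ^ 102 * Real.exp s) * u ≤ Real.exp (u / 1000))
    (hK3 : (1 + 2 ^ 102) * u ≤ Real.exp (u / 1000)) :
    Ex (sc_seg f s 0 n) (fun as => ‖mu (as.map a) (conv (box Q r) (Kd Q r w))‖)
      ≤ Real.exp (-(u / 50)) / (r * Real.exp u) := by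
  have hs0 : 0 ≤ s := by linarith
  have hu1 : 1 ≤ u := by linarith
  have hr' : (0 : ℝ) < r := by exact_mod_cast hr
  have hw' : (w : ℝ) ≤ M * r := by exact_mod_cast hw
  have hM : (0 : ℝ) ≤ M := Nat.cast_nonneg M
  obtain ⟨la, a1, a2⟩ := sc_exists (s := s) (t := 3 * u / 4) (by linarith) (by linarith)
  obtain ⟨lb, b1, b2⟩ := sc_exists (s := s) (t := 0.998 * u) (by linarith) (by linarith)
  obtain ⟨k, rfl⟩ := Nat.exists_eq_add_of_le
    (sc_lt_of_uu hs0 (show uu s la < uu s (lb + 1) by linarith))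
  obtain ⟨k', rfl⟩ := Nat.exists_eq_add_of_le
    (sc_lt_of_uu hs0 (show uu s (la + k) < uu s (n + 1) by linarith))
  rw [add_assoc, sc_seg_add, sc_seg_add, zero_add]
  set zt := r * Real.exp u with hzt
  have hz : 0 < zt := by positivity
  set N := (sc_seg f s la k).length with hN
  set m := ⌊zt * Real.exp (-uu s la)⌋₊ with hm
  have hW : ((N * m + 3 * w : ℕ) : ℝ) ≤ zt * Real.exp (-(0.748 * u)) := by
    have l2 := (sc_len hs f la k).2
    have l3 := sc_uu_ge hs0 la
    rw [sc_uu_succ] at a2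
    have e1 : (m : ℝ) ≤ zt * Real.exp (-(0.749 * u)) :=
      (Nat.floor_le (by positivity)).trans
        (mul_le_mul_of_nonneg_left (Real.exp_le_exp.2 (by linarith)) hz.le)
    have e2 : (r : ℝ) ≤ zt * Real.exp (-(0.749 * u)) := by
      rw [hzt, mul_assoc, ← Real.exp_add]
      exact le_mul_of_one_le_right hr'.le (Real.one_le_exp (by linarith))
    have e3 : (N : ℝ) ≤ 2 * u := by linarith
    have e4 : (M : ℝ) ≤ M * u := le_mul_of_one_le_right hM hu1
    push_cast
    calc (N : ℝ) * m + 3 * w ≤ 2 * u * (zt * Real.exp (-(0.749 * u)))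
          + 3 * (M * u * (zt * Real.exp (-(0.749 * u)))) := by
          refine add_le_add (by gcongr) ?_
          refine mul_le_mul_of_nonneg_left (hw'.trans ?_) (by norm_num)
          gcongr
      _ = (2 + 3 * M) * u * (zt * Real.exp (-(0.749 * u))) := by ring
      _ ≤ Real.exp (u / 1000) * (zt * Real.exp (-(0.749 * u))) := by
          refine mul_le_mul_of_nonneg_right (le_trans ?_ hK1) (by positivity)
          nlinarith
      _ = _ := by
          rw [mul_left_comm, ← Real.exp_add]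
          congr 2
          ring
  have hWQ : 2 * (N * m + 3 * w) ≤ Q := by
    have e1 : zt * Real.exp (-(0.748 * u)) ≤ zt :=
      mul_le_of_le_one_right hz.le (Real.exp_le_one_iff.2 (by linarith))
    have e2 : ((2 * (N * m + 3 * w) : ℕ) : ℝ) ≤ Q := by
      rw [Nat.cast_mul]
      push_cast at hW ⊢
      linarith
    exact_mod_cast e2
  refine one_scale a _ _ _ ?_ ?_ ?_ hr hrw (m := m) (W := N * m + 3 * w) ?_ le_rfl (by omega)
    (y := Real.exp (-(0.163 * u))) (σ := Real.exp (0.0125 * u) / zt) (Real.exp_pos _)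
    (by positivity) ?_ ?_ ?_ ?_
  · intro l hl
    obtain ⟨j, -, j2, rfl⟩ := sc_mem hl
    exact hP j (by omega)
  · intro l hl
    obtain ⟨j, -, j2, rfl⟩ := sc_mem hl
    exact hP j (by omega)
  · intro l hl
    obtain ⟨j, -, j2, rfl⟩ := sc_mem hl
    exact hP j (by omega)
  · intro l hl p hp
    obtain ⟨j, j1, j2, rfl⟩ := sc_mem hl
    refine Nat.le_floor ((h3 j (by omega) p hp).trans ?_)
    have := sc_uu_mono hs0 j1
    exact mul_le_mul_of_nonneg_left (Real.exp_le_exp.2 (by linarith)) hz.le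
  · exact sc_low hs a f hr hrw hw (by omega) hu1 a1 b1 b2 (fun j hj => hP j (by omega))
      (fun j hj => h1 j (by omega)) (fun j hj => h2 j (by omega)) hK1
  · exact sc_up hs a f hr le_rfl (by omega) hu1 a1 a2 (fun j hj => hP j (by omega))
      (fun j hj => h1 j (by omega)) hK2 hK3
  · exact sc_up hs a f hr (by omega) hWQ hu1 a1 a2 (fun j hj => hP j (by omega))
      (fun j hj => h1 j (by omega)) hK2 hK3
  · have e1 : (r : ℝ) = zt * Real.exp (-u) := by
      rw [hzt, mul_assoc, ← Real.exp_add, add_neg_cancel, Real.exp_zero, mul_one]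
    have e2 : Real.exp (-(0.163 * u)) ^ 2 * Real.exp (0.0125 * u) ^ 2 * Real.exp (-(0.748 * u))
        ≤ Real.exp (-(u / 50)) ^ 2 * Real.exp (-u) := by
      simp only [← Real.exp_nat_mul, ← Real.exp_add]
      refine Real.exp_le_exp.2 ?_
      push_cast
      linarith
    calc _ ≤ Real.exp (-(0.163 * u)) ^ 2 * (Real.exp (0.0125 * u) / zt) ^ 2
          * (zt * Real.exp (-(0.748 * u))) := by gcongr
      _ = Real.exp (-(0.163 * u)) ^ 2 * Real.exp (0.0125 * u) ^ 2 * Real.exp (-(0.748 * u))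
          / zt := by field_simp
      _ ≤ Real.exp (-(u / 50)) ^ 2 * Real.exp (-u) / zt := by gcongr
      _ = (Real.exp (-(u / 50)) / zt) ^ 2 * (zt * Real.exp (-u)) := by field_simp
      _ = _ := by rw [← e1]

theorem scale_num {s : ℝ} (hs : 10 ^ 6 ≤ s) (M : ℕ) : ∃ C u₀ : ℝ, 0 < C ∧ ∀ᶠ Z : ℝ in atTop,
    ∀ n : ℕ, uu s n ≤ (1 - gam) * Real.log Z → (1 - gam) * Real.log Z < uu s (n + 1) →
    ∀ δ : ℝ, 1 / Z ≤ δ → δ ≤ 1 → ∀ (Q : ℕ) [NeZero Q], 2 * (Z / δ) + 2 ≤ Q →
    ∀ r w : ℕ, 0 < r → r ≤ w → w ≤ M * r → u₀ ≤ Real.log (Z / (δ * r)) →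
    Real.log (Z / (δ * r)) ≤ (1 + gam) * Real.log Z →
    (∀ l ∈ pat (bls Z s n), l.Prob) ∧
    Ex (pat (bls Z s n)) (fun as => ‖mu (as.map (grid Q δ)) (conv (box Q r) (Kd Q r w))‖)
      ≤ C * (δ / Z) * Real.exp (-(Real.log (Z / (δ * r)) / 50)) := by
  obtain ⟨u1, hu1⟩ := sc_big (2 + 120 * (M + 1))
  obtain ⟨u2, hu2⟩ := sc_big (Real.exp (2 * s) + 20 * 2 ^ 102 * Real.exp s)
  obtain ⟨u3, hu3⟩ := sc_big (1 + 2 ^ 102)
  refine ⟨1, max (max u1 u2) (max u3 (2 * s)), one_pos, ?_⟩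
  filter_upwards [law_grid (γ := gam) (by unfold gam; norm_num), eventually_ge_atTop (1 : ℝ)]
    with Z hZ hZ1 n hn1 hn2 δ hδ1 hδ2 Q _ hQ r w hr hrw hw hu hu'
  have hs0 : 0 ≤ s := by linarith
  have hZ0 : 0 < Z := by linarith
  have hδ : 0 < δ := lt_of_lt_of_le (by positivity) hδ1
  have hr' : (0 : ℝ) < r := by exact_mod_cast hr
  have hL : 0 ≤ Real.log Z := Real.log_nonneg hZ1
  set u := Real.log (Z / (δ * r)) with hudef
  have hzt : r * Real.exp u = Z / δ := by
    rw [hudef, Real.exp_log (by positivity)]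
    field_simp
  have hpat : pat (bls Z s n) = sc_seg (fun l => law (blk Z s l)) s 0 n := by
    rw [pat, bls, List.flatMap_map, List.range_eq_range']
    rfl
  have hq : Z / δ + 2 ≤ Q := by
    have : 0 < Z / δ := by positivity
    linarith
  have hb : ∀ j < n, _ := fun j hj => hZ (Z * Real.exp (-uu s (j + 1))) (Z * Real.exp (-uu s j)) δ
    (by
      have h1 : uu s (j + 1) ≤ uu s n := sc_uu_mono hs0 hj
      rw [Real.rpow_def_of_pos hZ0]
      nth_rewrite 2 [← Real.exp_log hZ0]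
      rw [← Real.exp_add]
      exact Real.exp_le_exp.2 (by linarith))
    (by
      have h1 := sc_uu_ge hs0 j
      have h2 : (3 : ℝ) ≤ Real.exp (uu s j / 1000) :=
        le_trans (by linarith) (Real.add_one_le_exp _)
      have h3 : Real.exp (-uu s j) = Real.exp (uu s j / 1000) * Real.exp (-uu s (j + 1)) := by
        rw [← Real.exp_add, sc_uu_succ]
        congr 1
        ring
      rw [h3, mul_left_comm Z]
      gcongr)
    (mul_le_of_le_one_right hZ0.le (Real.exp_le_one_iff.2 (by linarith [sc_uu_ge hs0 j])))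
    hδ1 hδ2 Q hq
  have hρ : ∀ j, 10 * δ / (Z * Real.exp (-uu s (j + 1)))
      = 10 * Real.exp (uu s (j + 1)) / (r * Real.exp u) := by
    intro j
    rw [hzt, Real.exp_neg]
    field_simp
  have hP : ∀ j < n, (law (blk Z s j)).Prob := by
    intro j hj
    refine law_prob ?_
    have h1 := (abs_le.1 (hb j hj).1).1
    have h2 : Real.log (Z * Real.exp (-uu s j) / (Z * Real.exp (-uu s (j + 1))))
        = uu s j / 1000 := by
      rw [mul_div_mul_left _ _ hZ0.ne', ← Real.exp_sub, Real.log_exp, sc_uu_succ]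
      ring
    have h3 := sc_uu_ge hs0 j
    rw [h2] at h1
    unfold blk
    linarith
  rw [hpat]
  refine ⟨fun l hl => ?_, ?_⟩
  · obtain ⟨j, -, j2, rfl⟩ := sc_mem hl
    exact hP j (by omega)
  simp only [max_le_iff] at hu
  refine (sc_core hs (grid Q δ) (fun l => law (blk Z s l)) hr hrw hw (u := u) (by linarith) hu.2.2
    ?_ hP (fun j hj g => hρ j ▸ (hb j hj).2.1 g) (fun j hj => hρ j ▸ (hb j hj).2.2) ?_
    (hu1 u hu.1.1) (hu2 u hu.1.2) (hu3 u hu.2.1)).trans (le_of_eq ?_)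
  · unfold gam at hu' hn2
    linarith
  · intro j hj p hp
    have h1 : Real.log p ≤ Z * Real.exp (-uu s j) := (mem_Pr.1 hp).2.2
    have h2 : (grid Q δ p).val ≤ ⌊Real.log p / δ⌋₊ := by
      rw [grid, ZMod.val_natCast]
      exact Nat.mod_le _ _
    calc ((grid Q δ p).val : ℝ) ≤ ⌊Real.log p / δ⌋₊ := by exact_mod_cast h2
      _ ≤ Real.log p / δ := Nat.floor_le (div_nonneg (Real.log_natCast_nonneg p) hδ.le)
      _ ≤ Z * Real.exp (-uu s j) / δ := by gcongr
      _ = _ := by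
        rw [hzt]
        ring
  · rw [hzt]
    field_simp

end Pool.Agent.Work.MP_82fd4a_nt
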