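import Pool.Agent.Work.MP_82fd4a_nt.Types
import Pool.Agent.Work.MP_82fd4a_nt.Bridge

/-! The weighted sums over integers of the form smooth part times steering primes times `N`. -/

set_option autoImplicit false
open Finset

namespace Pool.Agent.Work.MP_82fd4a_nt

/-- indices of the steering primes -/
abbrev Ix (K J : ℕ) : Type := Fin K ⊕ Fin J

/-- the ranges of the steering primes -/
noncomputable def stP (K J : ℕ) (Λ : ℝ) : Ix K J → Finset ℕ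
  | Sum.inl i => Pr (Λ + (i : ℕ) * Λ / K) (Λ + ((i : ℕ) + 1) * Λ / K)
  | Sum.inr _ => Pr (Λ / 2) (Λ / 2 + Λ / (100 * (J + 1)))

/-- tuples of steering primes -/
noncomputable def tup (K J : ℕ) (Λ : ℝ) : Finset (Ix K J → ℕ) := Fintype.piFinset (stP K J Λ)

/-- the first `j` of the coarse steering primes -/
def coarse (K J j : ℕ) : Finset (Ix K J) :=
  (univ.filter fun t : Fin J => (t : ℕ) < j).map Function.Embedding.inr

/-- one fine steering prime and the first `j` coarse ones -/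
def part {K : ℕ} (J : ℕ) (i : Fin K) (j : ℕ) : Finset (Ix K J) := insert (Sum.inl i) (coarse K J j)

/-- logarithmic mass of the tuples -/
noncomputable def Psi (K J : ℕ) (Λ : ℝ) : ℝ := ∑ π ∈ tup K J Λ, ((∏ i, π i : ℕ) : ℝ)⁻¹

/-- the basic weighted sum -/
noncomputable def SS (x : ℕ) (T : ℝ) (K J : ℕ) (Λ : ℝ) (S : Finset ℕ) (wt c : ℕ → ℝ) : ℝ :=
  ∑ s ∈ S, ∑ π ∈ tup K J Λ, ∑ n ∈ Icc 1 (2 * x), wt s * c n * gk x T (s * (∏ i, π i) * n)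

/-- logarithmic mass of the weights -/
noncomputable def WW (K J : ℕ) (Λ : ℝ) (S : Finset ℕ) (wt : ℕ → ℝ) : ℝ :=
  (∑ s ∈ S, wt s / s) * Psi K J Λ

/-- the sum over factorisations into two parts of size about the square root of `x` -/
noncomputable def QQ (x : ℕ) (T : ℝ) (K J : ℕ) (Λ : ℝ) (A₁ A₂ : Finset ℕ) (I : Finset (Ix K J))
    (D₁ D₂ : Finset ℕ) : ℝ :=
  ∑ a ∈ A₁, ∑ b ∈ A₂, ∑ π ∈ tup K J Λ, ∑ d ∈ D₁, ∑ e ∈ D₂,
    if x.sqrt < a * (∏ i ∈ I, π i) * d ∧ a * (∏ i ∈ I, π i) * d ≤ 2 * x.sqrt then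
      gk x T (a * b * (∏ i, π i) * (d * e)) else 0

open Classical in
/-- smooth numbers up to `2 x` with a property -/
noncomputable def Sm (x : ℕ) (z : ℝ) (U : ℕ → Prop) : Finset ℕ :=
  (Icc 1 (2 * x)).filter fun s => Smooth z s ∧ U s

/-- rough numbers up to `2 x` of a given type -/
noncomputable def Dt (x : ℕ) (w b : ℝ) (t : Multiset ℕ) : Finset ℕ :=
  (Icc 1 (2 * x)).filter fun d => Rough w d ∧ ty b d = t

/-- large rough numbers up to `2 x` -/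
noncomputable def D0 (x : ℕ) (w : ℝ) : Finset ℕ :=
  (Icc 1 (2 * x)).filter fun d : ℕ => Rough w d ∧ (x : ℝ) ^ (3 / 10 : ℝ) ≤ d

/-- all the products lie between `M` and `M x ^ del` -/
def Sized (x K J : ℕ) (Λ : ℝ) (S : Finset ℕ) (M : ℝ) : Prop :=
  (x : ℝ) ^ (1 / 6 : ℝ) ≤ M ∧ M ≤ (x : ℝ) ^ (1 / 5 : ℝ) ∧ ∀ s ∈ S, ∀ π ∈ tup K J Λ,
    M ≤ ((s * ∏ i, π i : ℕ) : ℝ) ∧ ((s * ∏ i, π i : ℕ) : ℝ) ≤ M * (x : ℝ) ^ del

lemma mem_tup {K J : ℕ} {Λ : ℝ} {π : Ix K J → ℕ} : π ∈ tup K J Λ ↔ ∀ i, π i ∈ stP K J Λ i :=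
  Fintype.mem_piFinset

lemma prime_of_mem_stP {K J : ℕ} {Λ : ℝ} {i : Ix K J} {p : ℕ} (h : p ∈ stP K J Λ i) : p.Prime := by
  cases i <;> exact (mem_Pr.1 h).1

lemma lt_log_of_mem_stP {K J : ℕ} {Λ : ℝ} (hΛ : 0 ≤ Λ) {i : Ix K J} {p : ℕ}
    (h : p ∈ stP K J Λ i) : Λ / 2 < Real.log p := by
  cases i with
  | inl i =>
    have h1 := (mem_Pr.1 h).2.1
    have h2 : 0 ≤ ((i : ℕ) : ℝ) * Λ / K := by positivity
    linarith
  | inr i => exact (mem_Pr.1 h).2.1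

lemma prod_pos_of_mem_tup {K J : ℕ} {Λ : ℝ} {π : Ix K J → ℕ} (h : π ∈ tup K J Λ)
    (I : Finset (Ix K J)) : 0 < ∏ i ∈ I, π i :=
  prod_pos fun i _ => (prime_of_mem_stP (mem_tup.1 h i)).pos

lemma Psi_nonneg (K J : ℕ) (Λ : ℝ) : 0 ≤ Psi K J Λ := sum_nonneg fun _ _ => by positivity

lemma QQ_nonneg (x : ℕ) (T : ℝ) (K J : ℕ) (Λ : ℝ) (A₁ A₂ : Finset ℕ) (I : Finset (Ix K J))
    (D₁ D₂ : Finset ℕ) : 0 ≤ QQ x T K J Λ A₁ A₂ I D₁ D₂ :=
  sum_nonneg fun _ _ => sum_nonneg fun _ _ => sum_nonneg fun _ _ => sum_nonneg fun _ _ =>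
    sum_nonneg fun _ _ => by
      split_ifs
      · exact gk_nonneg _ _ _
      · exact le_rfl

end Pool.Agent.Work.MP_82fd4a_nt
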