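import Pool.Agent.Work.MP_82fd4a_nt.Conv
import Pool.Agent.Work.MP_678620_nt.Bonf

/-! Auxiliary lemmas for the transfer to independent random primes. -/

set_option autoImplicit false
open Finset

namespace Pool.Agent.Work.MP_82fd4a_nt

open Pool.Agent.Work.MP_678620_nt

lemma tr_Ex_nonneg {ls : List Law} (h : ∀ l ∈ ls, l.Prob) {G : List ℕ → ℝ}
    (hG : ∀ as, 0 ≤ G as) : 0 ≤ Ex ls G := by
  rw [← Ex_const h 0]
  exact Ex_mono h fun as _ => hG as

lemma tr_double (P : Finset ℕ) (f : Finset ℕ → ℝ) (j : ℕ) :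
    (j + 1 : ℝ) * ∑ S ∈ P.powersetCard (j + 1), f S
      = ∑ p ∈ P, ∑ T ∈ P.powersetCard j, if p ∈ T then 0 else f (insert p T) := by
  have h1 : (j + 1 : ℝ) * ∑ S ∈ P.powersetCard (j + 1), f S
      = ∑ T ∈ P.powersetCard (j + 1), ∑ _i ∈ T, f T := by
    rw [mul_sum]
    refine sum_congr rfl fun T hT => ?_
    rw [sum_const, (mem_powersetCard.1 hT).2, nsmul_eq_mul]; push_cast; ring
  have h2 : ∑ p ∈ P, ∑ T ∈ P.powersetCard j, (if p ∈ T then 0 else f (insert p T))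
      = ∑ T ∈ P.powersetCard j, ∑ p ∈ P \ T, f (insert p T) := by
    rw [sum_comm]
    refine sum_congr rfl fun T _ => ?_
    rw [sdiff_eq_filter, sum_filter]
    refine sum_congr rfl fun p _ => ?_
    by_cases h : p ∈ T <;> simp [h]
  rw [h1, h2, sum_sigma', sum_sigma']
  refine sum_bij' (fun x _ => ⟨x.1.erase x.2, x.2⟩) (fun x _ => ⟨insert x.2 x.1, x.2⟩)
    ?_ ?_ ?_ ?_ ?_
  · rintro ⟨T, i⟩ h
    obtain ⟨h1, h2⟩ := mem_sigma.1 h
    obtain ⟨h3, h4⟩ := mem_powersetCard.1 h1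
    refine mem_sigma.2 ⟨mem_powersetCard.2 ⟨(erase_subset _ _).trans h3, ?_⟩,
      mem_sdiff.2 ⟨h3 h2, notMem_erase _ _⟩⟩
    rw [card_erase_of_mem h2, h4]; rfl
  · rintro ⟨T, i⟩ h
    obtain ⟨h1, h2⟩ := mem_sigma.1 h
    obtain ⟨h3, h4⟩ := mem_powersetCard.1 h1
    obtain ⟨h5, h6⟩ := mem_sdiff.1 h2
    exact mem_sigma.2 ⟨mem_powersetCard.2 ⟨insert_subset h5 h3,
      by rw [card_insert_of_notMem h6, h4]⟩, mem_insert_self _ _⟩
  · rintro ⟨T, i⟩ h
    simp only [insert_erase (mem_sigma.1 h).2]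
  · rintro ⟨T, i⟩ h
    simp only [erase_insert (mem_sdiff.1 (mem_sigma.1 h).2).2]
  · rintro ⟨T, i⟩ h
    simp only [insert_erase (mem_sigma.1 h).2]

/-- the weight of a prime -/
noncomputable def trx (p : ℕ) : ℝ := 2 * (p : ℝ)⁻¹

lemma trx_nonneg (p : ℕ) : 0 ≤ trx p := by unfold trx; positivity

lemma tr_level (P : Finset ℕ) (hP : 0 < ∑ q ∈ P, (q : ℝ)⁻¹) (n : ℕ) :
    ∀ (m : ℕ) (Ψ : Finset ℕ → ℝ) (G : List ℕ → ℝ), n ≤ m → (∀ as, 0 ≤ G as) →
      (∀ S ∈ P.powersetCard m, ∀ as : List ℕ, as.Nodup → as.length = n → (∀ p ∈ as, p ∈ S) →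
        Ψ S ≤ G as) →
      ∑ S ∈ P.powersetCard m, (∏ p ∈ S, trx p) * Ψ S ≤
        (∑ p ∈ P, trx p) ^ m / m.factorial * Ex (List.replicate n (law P)) G := by
  induction n with
  | zero =>
    intro m Ψ G _ hG h
    have h1 := esym_le_pow (I := P) (ν := trx) (fun p _ => trx_nonneg p) m
    calc _ ≤ ∑ S ∈ P.powersetCard m, (∏ p ∈ S, trx p) * G [] :=
          sum_le_sum fun S hS => mul_le_mul_of_nonneg_left
            (h S hS [] List.nodup_nil rfl (by simp)) (prod_nonneg fun p _ => trx_nonneg p)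
      _ = esym P trx m * G [] := by rw [esym, sum_mul]
      _ ≤ _ := mul_le_mul_of_nonneg_right h1 (hG [])
  | succ n ih =>
    intro m Ψ G hm hG h
    obtain ⟨j, rfl⟩ : ∃ j, m = j + 1 := ⟨m - 1, by omega⟩
    have hX : ∑ p ∈ P, trx p = 2 * ∑ q ∈ P, (q : ℝ)⁻¹ := by rw [mul_sum]; rfl
    have h1 := tr_double P (fun S => (∏ p ∈ S, trx p) * Ψ S) j
    have h2 : ∀ p ∈ P, ∑ T ∈ P.powersetCard j,
        (if p ∈ T then 0 else (∏ q ∈ insert p T, trx q) * Ψ (insert p T)) ≤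
        trx p * ((∑ p ∈ P, trx p) ^ j / j.factorial *
          Ex (List.replicate n (law P)) fun as => G (p :: as)) := by
      intro p hp
      have h3 := ih j (fun T => if p ∈ T then 0 else Ψ (insert p T)) (fun as => G (p :: as))
        (by omega) (fun as => hG _) (by
          intro T hT as h4 h5 h6
          obtain ⟨h7, h8⟩ := mem_powersetCard.1 hT
          split_ifs with h9
          · exact hG _
          · refine h (insert p T) (mem_powersetCard.2 ⟨insert_subset hp h7,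
              by rw [card_insert_of_notMem h9, h8]⟩) (p :: as)
              (List.nodup_cons.2 ⟨fun h' => h9 (h6 p h'), h4⟩) (by simp [h5]) ?_
            intro q hq
            rcases List.mem_cons.1 hq with rfl | hq
            · exact mem_insert_self _ _
            · exact mem_insert_of_mem (h6 q hq))
      refine le_trans (le_of_eq ?_) (mul_le_mul_of_nonneg_left h3 (trx_nonneg p))
      rw [mul_sum]
      refine sum_congr rfl fun T _ => ?_
      split_ifs with h9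
      · simp
      · rw [prod_insert h9, mul_assoc]
    have h3 := sum_le_sum h2
    rw [← h1] at h3
    have h4 : Ex (List.replicate (n + 1) (law P)) G =
        ∑ p ∈ P, (p : ℝ)⁻¹ / (∑ q ∈ P, (q : ℝ)⁻¹) *
          Ex (List.replicate n (law P)) fun as => G (p :: as) := rfl
    have h5 : ∑ p ∈ P, trx p * ((∑ p ∈ P, trx p) ^ j / j.factorial *
          Ex (List.replicate n (law P)) fun as => G (p :: as)) =
        (j + 1 : ℝ) * ((∑ p ∈ P, trx p) ^ (j + 1) / (j + 1).factorial *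
          Ex (List.replicate (n + 1) (law P)) G) := by
      rw [h4, mul_sum, mul_sum]
      refine sum_congr rfl fun p _ => ?_
      rw [pow_succ, Nat.factorial_succ]
      nth_rewrite 3 [hX]
      have : (0 : ℝ) < j.factorial := by positivity
      have e : trx p = 2 * (p : ℝ)⁻¹ := rfl
      rw [e]
      generalize (∑ p ∈ P, trx p) ^ j = u
      generalize ∑ q ∈ P, (q : ℝ)⁻¹ = v at hP
      generalize (p : ℝ)⁻¹ = w
      push_cast
      field_simp
    rw [h5] at h3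
    exact le_of_mul_le_mul_left h3 (by positivity)

lemma tr_block (P : Finset ℕ) (hP : 0 < ∑ q ∈ P, (q : ℝ)⁻¹) (n : ℕ) (Ψ : Finset ℕ → ℝ)
    (G : List ℕ → ℝ) (hG : ∀ as, 0 ≤ G as)
    (h : ∀ S ⊆ P, Ψ S ≤ 0 ∨ (n ≤ S.card ∧ ∀ as : List ℕ, as.Nodup → as.length = n →
      (∀ p ∈ as, p ∈ S) → Ψ S ≤ G as)) :
    ∑ S ∈ P.powerset, (∏ p ∈ S, trx p) * Ψ S ≤
      Real.exp (∑ p ∈ P, trx p) * Ex (List.replicate n (law P)) G := by
  have hE : 0 ≤ Ex (List.replicate n (law P)) G :=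
    tr_Ex_nonneg (fun l hl => by rw [List.eq_of_mem_replicate hl]; exact law_prob hP) hG
  have hX : 0 ≤ ∑ p ∈ P, trx p := sum_nonneg fun p _ => trx_nonneg p
  rw [sum_powerset]
  calc _ ≤ ∑ m ∈ range (P.card + 1),
        (∑ p ∈ P, trx p) ^ m / m.factorial * Ex (List.replicate n (law P)) G := by
        refine sum_le_sum fun m _ => ?_
        by_cases hm : n ≤ m
        · refine tr_level P hP n m Ψ G hm hG fun S hS as h1 h2 h3 => ?_
          rcases h S (mem_powersetCard.1 hS).1 with h4 | h4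
          · exact h4.trans (hG _)
          · exact h4.2 as h1 h2 h3
        · refine le_trans (sum_nonpos fun S hS => ?_) (by positivity)
          obtain ⟨h1, h2⟩ := mem_powersetCard.1 hS
          rcases h S h1 with h4 | h4
          · exact mul_nonpos_of_nonneg_of_nonpos (prod_nonneg fun p _ => trx_nonneg p) h4
          · omega
    _ ≤ _ := by
        rw [← sum_mul]
        exact mul_le_mul_of_nonneg_right (Real.sum_le_exp_of_nonneg hX _) hE

lemma tr_tau_mul (a b : ℕ) : tau (a * b) ≤ tau a * tau b := by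
  unfold tau
  rw [Nat.divisors_mul]
  exact_mod_cast card_mul_le

lemma tr_tau_prime {p : ℕ} (hp : p.Prime) : tau p = 2 := by
  unfold tau
  rw [hp.divisors, card_pair hp.one_lt.ne]
  norm_num

lemma tr_tau_sq {p : ℕ} (hp : p.Prime) : tau (p ^ 2) = 3 := by
  unfold tau
  rw [Nat.divisors_prime_pow hp, card_map, card_range]
  norm_num

lemma tr_tau_prod (S : Finset ℕ) (h : ∀ p ∈ S, p.Prime) :
    tau (∏ p ∈ S, p) / ((∏ p ∈ S, p : ℕ) : ℝ) ≤ ∏ p ∈ S, trx p := by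
  induction S using Finset.induction_on with
  | empty => simp [tau]
  | insert p S hp ih =>
    have ih := ih fun q hq => h q (mem_insert_of_mem hq)
    rw [prod_insert hp, prod_insert hp, Nat.cast_mul]
    have h1 := tr_tau_mul p (∏ q ∈ S, q)
    rw [tr_tau_prime (h p (mem_insert_self _ _))] at h1
    calc _ ≤ 2 * tau (∏ q ∈ S, q) / (p * ((∏ p ∈ S, p : ℕ) : ℝ)) := by gcongr
      _ = trx p * (tau (∏ q ∈ S, q) / ((∏ p ∈ S, p : ℕ) : ℝ)) := by
        unfold trx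
        rw [mul_div_mul_comm, div_eq_mul_inv]
      _ ≤ _ := mul_le_mul_of_nonneg_left ih (trx_nonneg p)

lemma tr_cadd_prod (h : ℕ → ℝ) (S : Finset ℕ) (hS : ∀ p ∈ S, p.Prime) :
    cadd h (∏ p ∈ S, p) = ∑ p ∈ S, h p := by
  induction S using Finset.induction_on with
  | empty => simp [cadd_one]
  | insert p S hp ih =>
    have h1 := hS p (mem_insert_self _ _)
    have h2 : ∀ q ∈ S, q.Prime := fun q hq => hS q (mem_insert_of_mem hq)
    rw [prod_insert hp, sum_insert hp, cadd_mul h h1.ne_zero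
      (prod_ne_zero_iff.2 fun q hq => (h2 q hq).ne_zero), cadd_prime h h1, ih h2]

lemma tr_inv_factored (R B : Finset ℕ) (hB : ∀ t ∈ B, t ∈ Nat.factoredNumbers R) :
    ∑ t ∈ B, (t : ℝ)⁻¹ ≤ ∏ p ∈ R with p.Prime, (1 - (p : ℝ)⁻¹)⁻¹ := by
  let f : ℕ →* ℝ := ⟨⟨fun n => (n : ℝ)⁻¹, by simp⟩, fun a b => by simp [mul_comm]⟩
  have h := (EulerProduct.summable_and_hasSum_factoredNumbers_prod_filter_prime_geometric
    (f := f) (fun {p} hp => by
      show ‖(p : ℝ)⁻¹‖ < 1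
      rw [norm_inv, Real.norm_natCast]
      exact inv_lt_one_of_one_lt₀ (by exact_mod_cast hp.one_lt)) R).2
  have h2 := sum_le_hasSum (B.subtype (· ∈ Nat.factoredNumbers R))
    (fun m _ => show (0 : ℝ) ≤ ((m : ℕ) : ℝ)⁻¹ by positivity) h
  rwa [sum_subtype_of_mem (fun t : ℕ => (t : ℝ)⁻¹) hB] at h2

lemma tr_tau_factored (R B : Finset ℕ) (hB : ∀ t ∈ B, t ∈ Nat.factoredNumbers R) :
    ∑ t ∈ B, tau t / t ≤ (∏ p ∈ R with p.Prime, (1 - (p : ℝ)⁻¹)⁻¹) ^ 2 := by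
  set D := B.biUnion Nat.divisors with hD
  have hD' : ∀ t ∈ D, t ∈ Nat.factoredNumbers R := fun t ht => by
    obtain ⟨u, hu, ht⟩ := mem_biUnion.1 ht
    exact Nat.mem_factoredNumbers_of_dvd (hB u hu) (Nat.dvd_of_mem_divisors ht)
  have h1 := tr_inv_factored R D hD'
  have h0 : 0 ≤ ∑ t ∈ D, (t : ℝ)⁻¹ := sum_nonneg fun _ _ => by positivity
  refine le_trans ?_ (pow_le_pow_left₀ h0 h1 2)
  have h2 : ∀ t ∈ B, tau t / t = ∑ x ∈ t.divisorsAntidiagonal, (x.1 : ℝ)⁻¹ * (x.2 : ℝ)⁻¹ := by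
    intro t _
    rw [sum_congr rfl (g := fun _ => (t : ℝ)⁻¹) fun x hx => by
      rw [← mul_inv, ← Nat.cast_mul, (Nat.mem_divisorsAntidiagonal.1 hx).1], sum_const,
      nsmul_eq_mul, tau, ← Nat.map_div_right_divisors, card_map, div_eq_mul_inv]
  rw [sum_congr rfl h2, ← sum_biUnion, sq, sum_mul_sum, ← sum_product']
  · refine sum_le_sum_of_subset_of_nonneg (fun x hx => ?_) fun _ _ _ => by positivity
    obtain ⟨t, ht, hx⟩ := mem_biUnion.1 hx
    exact mem_product.2 ⟨mem_biUnion.2 ⟨t, ht, Nat.fst_mem_divisors_of_mem_antidiagonal hx⟩,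
      mem_biUnion.2 ⟨t, ht, Nat.snd_mem_divisors_of_mem_antidiagonal hx⟩⟩
  · intro a _ b _ hab
    refine disjoint_left.2 fun x h1 h2 => hab ?_
    rw [← (Nat.mem_divisorsAntidiagonal.1 h1).1, (Nat.mem_divisorsAntidiagonal.1 h2).1]

lemma tr_smooth_factored {z : ℝ} {t : ℕ} (h : Smooth z t) {p : ℕ} (hp : p.Prime) (hd : p ∣ t) :
    p ∈ Ioc 0 ⌊z⌋₊ := mem_Ioc.2 ⟨hp.pos, Nat.le_floor (h.2 p hp hd)⟩

lemma tr_exp_le {p : ℕ} (hp : p.Prime) : Real.exp (trx p) ≤ ((1 - (p : ℝ)⁻¹)⁻¹) ^ 2 := by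
  have h1 : (p : ℝ)⁻¹ < 1 := inv_lt_one_of_one_lt₀ (by exact_mod_cast hp.one_lt)
  have h2 : Real.exp (p : ℝ)⁻¹ ≤ (1 - (p : ℝ)⁻¹)⁻¹ := by
    rw [le_inv_comm₀ (Real.exp_pos _) (by linarith), ← Real.exp_neg]
    linarith [Real.add_one_le_exp (-(p : ℝ)⁻¹)]
  rw [trx, two_mul, Real.exp_add, ← sq]
  exact pow_le_pow_left₀ (Real.exp_pos _).le h2 2

lemma tr_sq (z : ℝ) (U : Finset ℕ) {y : ℝ} (hy : 1 ≤ y) (hU : ∀ p ∈ U, p.Prime ∧ y < p)
    (A : Finset ℕ) (hA : ∀ s ∈ A, Smooth z s ∧ ∃ p ∈ U, p ^ 2 ∣ s) :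
    ∑ s ∈ A, tau s / s ≤ VV z ^ 2 * (6 / y) := by
  have h0 : ∀ s : ℕ, 0 ≤ tau s / s := fun s => div_nonneg (tau_nonneg s) (Nat.cast_nonneg s)
  have h1 : ∑ s ∈ A, tau s / s ≤ ∑ p ∈ U, ∑ s ∈ A with p ^ 2 ∣ s, tau s / s := by
    simp only [sum_filter]
    rw [sum_comm]
    refine sum_le_sum fun s hs => ?_
    obtain ⟨p, hp, hd⟩ := (hA s hs).2
    have := single_le_sum (f := fun p => if p ^ 2 ∣ s then tau s / s else 0)
      (fun q _ => by split_ifs; exacts [h0 s, le_rfl]) hp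
    rwa [if_pos hd] at this
  have h2 : ∀ p ∈ U, ∑ s ∈ A with p ^ 2 ∣ s, tau s / s ≤ VV z ^ 2 * (3 * ((p : ℝ) ^ 2)⁻¹) := by
    intro p hp
    have hp' := (hU p hp).1
    have h3 := tr_tau_factored (Ioc 0 ⌊z⌋₊) ((A.filter (p ^ 2 ∣ ·)).image (· / p ^ 2)) (by
      intro t ht
      obtain ⟨s, hs, rfl⟩ := mem_image.1 ht
      obtain ⟨hs, hd⟩ := mem_filter.1 hs
      exact Nat.mem_factoredNumbers'.2 fun q hq hd' =>
        tr_smooth_factored (hA s hs).1 hq (hd'.trans (Nat.div_dvd_of_dvd hd)))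
    rw [sum_image (by
      intro a ha b hb hab
      have ha := (mem_filter.1 ha).2
      have hb := (mem_filter.1 hb).2
      rw [← Nat.div_mul_cancel ha, ← Nat.div_mul_cancel hb]
      exact congrArg (· * p ^ 2) hab)] at h3
    refine le_trans ?_ (mul_le_mul_of_nonneg_right h3 (by positivity))
    rw [sum_mul]
    refine sum_le_sum fun s hs => ?_
    obtain ⟨t, rfl⟩ := (mem_filter.1 hs).2
    rw [Nat.mul_div_cancel_left _ (pow_pos hp'.pos 2)]
    have h4 := tr_tau_mul (p ^ 2) t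
    rw [tr_tau_sq hp'] at h4
    calc _ ≤ 3 * tau t / ((p ^ 2 * t : ℕ) : ℝ) := by gcongr
      _ = _ := by
        push_cast
        rw [mul_div_mul_comm, div_eq_mul_inv, mul_comm]
  have h3 : ∑ p ∈ U, ((p : ℝ) ^ 2)⁻¹ ≤ 2 / y := by
    have h4 := sum_Ioo_inv_sq_le (α := ℝ) ⌊y⌋₊ (U.sup id + 1)
    refine le_trans (sum_le_sum_of_subset_of_nonneg (fun p hp => mem_Ioo.2 ⟨?_, ?_⟩)
      fun _ _ _ => by positivity) (h4.trans ?_)
    · exact (Nat.floor_lt (by linarith)).2 (hU p hp).2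
    · exact Nat.lt_succ_of_le (le_sup (f := id) hp)
    · exact div_le_div_of_nonneg_left (by norm_num) (by linarith) (Nat.lt_floor_add_one y).le
  refine h1.trans ((sum_le_sum h2).trans ?_)
  rw [← mul_sum, ← mul_sum]
  refine mul_le_mul_of_nonneg_left ?_ (sq_nonneg _)
  calc _ ≤ 3 * (2 / y) := by gcongr
    _ = _ := by ring

end Pool.Agent.Work.MP_82fd4a_nt
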