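import Pool.Agent.Work.MP_82fd4a_nt.Conv
import Pool.Agent.Work.MP_82fd4a_nt.Chern
import Pool.Agent.Work.MP_678620_nt.Bonf
import Pool.Agent.Work.MP_82fd4a_nt.TransA

/-! From smooth numbers weighted by the divisor function to independent random primes. -/

set_option autoImplicit false
open Finset

namespace Pool.Agent.Work.MP_82fd4a_nt

/-- the laws: `n` copies of the law of the block `P` for each pair -/
noncomputable def pat (bl : List (Finset ℕ × ℕ)) : List Law :=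
  bl.flatMap fun b => List.replicate b.2 (law b.1)

/-- the union of the blocks -/
def trU (bl : List (Finset ℕ × ℕ)) : Finset ℕ := bl.foldr (fun b t => b.1 ∪ t) ∅

lemma mem_trU {bl : List (Finset ℕ × ℕ)} {p : ℕ} : p ∈ trU bl ↔ ∃ b ∈ bl, p ∈ b.1 := by
  induction bl with
  | nil => simp [trU]
  | cons b bl ih =>
    have : trU (b :: bl) = b.1 ∪ trU bl := rfl
    simp [this, ih]

lemma tr_powerset_union {P U : Finset ℕ} (h : Disjoint P U) (f : Finset ℕ → ℝ) :
    ∑ S ∈ (P ∪ U).powerset, f S = ∑ S ∈ P.powerset, ∑ T ∈ U.powerset, f (S ∪ T) := by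
  rw [← sum_product']
  symm
  refine sum_nbij' (fun x => x.1 ∪ x.2) (fun S => (S ∩ P, S ∩ U)) ?_ ?_ ?_ ?_ ?_
  · rintro ⟨S, T⟩ hx
    obtain ⟨h1, h2⟩ := mem_product.1 hx
    exact mem_powerset.2 (union_subset_union (mem_powerset.1 h1) (mem_powerset.1 h2))
  · intro S _
    exact mem_product.2 ⟨mem_powerset.2 inter_subset_right, mem_powerset.2 inter_subset_right⟩
  · rintro ⟨S, T⟩ hx
    obtain ⟨h1, h2⟩ := mem_product.1 hx
    have h1 := mem_powerset.1 h1
    have h2 := mem_powerset.1 h2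
    have h3 := disjoint_left.1 h
    refine Prod.ext ?_ ?_ <;> ext p <;> simp only [mem_inter, mem_union]
    · exact ⟨fun a => a.1.elim id fun b => absurd (h2 b) (h3 a.2), fun a => ⟨Or.inl a, h1 a⟩⟩
    · exact ⟨fun a => a.1.elim (fun b => absurd a.2 (h3 (h1 b))) id, fun a => ⟨Or.inr a, h2 a⟩⟩
  · intro S hS
    show S ∩ P ∪ S ∩ U = S
    rw [← inter_union_distrib_left, inter_eq_left]
    exact mem_powerset.1 hS
  · intro _ _
    rfl

lemma tr_forall_replicate (P : Finset ℕ) (as : List ℕ) (h : ∀ p ∈ as, p ∈ P) :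
    List.Forall₂ (fun p (l : Law) => p ∈ l.supp) as (List.replicate as.length (law P)) := by
  induction as with
  | nil => exact List.Forall₂.nil
  | cons a as ih =>
    exact List.Forall₂.cons (h a List.mem_cons_self) (ih fun p hp => h p (List.mem_cons_of_mem _ hp))

lemma tr_pat_prob {bl : List (Finset ℕ × ℕ)} (hP : ∀ b ∈ bl, 0 < ∑ q ∈ b.1, (q : ℝ)⁻¹) :
    ∀ l ∈ pat bl, l.Prob := by
  intro l hl
  obtain ⟨b, hb, hl⟩ := List.mem_flatMap.1 hl
  rw [List.eq_of_mem_replicate hl]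
  exact law_prob (hP b hb)

lemma tr_multi (bl : List (Finset ℕ × ℕ)) (hd : bl.Pairwise fun b b' => Disjoint b.1 b'.1)
    (hP : ∀ b ∈ bl, 0 < ∑ q ∈ b.1, (q : ℝ)⁻¹) :
    ∀ (Φ : Finset ℕ → ℝ) (G : List ℕ → ℝ), (∀ as, 0 ≤ G as) →
      (∀ S ⊆ trU bl, Φ S ≤ 0 ∨ ((∀ b ∈ bl, b.2 ≤ (S ∩ b.1).card) ∧ ∀ as : List ℕ, as.Nodup →
        List.Forall₂ (fun p (l : Law) => p ∈ l.supp) as (pat bl) → (∀ p ∈ as, p ∈ S) →
        Φ S ≤ G as)) →
      ∑ S ∈ (trU bl).powerset, (∏ p ∈ S, trx p) * Φ S ≤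
        Real.exp (∑ p ∈ trU bl, trx p) * Ex (pat bl) G := by
  induction bl with
  | nil =>
    intro Φ G hG h
    have e : trU [] = ∅ := rfl
    have e' : Ex (pat []) G = G [] := rfl
    rw [e, e']
    simp only [powerset_empty, sum_singleton, prod_empty, sum_empty, Real.exp_zero, one_mul]
    rcases h ∅ (empty_subset _) with h1 | h1
    · exact h1.trans (hG _)
    · exact h1.2 [] List.nodup_nil List.Forall₂.nil (by simp)
  | cons b bl ih =>
    intro Φ G hG h
    obtain ⟨hd1, hd2⟩ := List.pairwise_cons.1 hd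
    have hP' : ∀ b ∈ bl, 0 < ∑ q ∈ b.1, (q : ℝ)⁻¹ := fun b' hb' => hP b' (List.mem_cons_of_mem _ hb')
    have ih := ih hd2 hP'
    have e : trU (b :: bl) = b.1 ∪ trU bl := rfl
    have e' : pat (b :: bl) = List.replicate b.2 (law b.1) ++ pat bl := List.flatMap_cons
    have hdis : Disjoint b.1 (trU bl) := disjoint_left.2 fun p hp hp' => by
      obtain ⟨b', hb', hp'⟩ := mem_trU.1 hp'
      exact disjoint_left.1 (hd1 b' hb') hp hp'
    rw [e] at h
    rw [e, e', tr_powerset_union hdis, sum_union hdis, Real.exp_add, Ex_append, mul_assoc,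
      ← Ex_mul]
    refine le_trans (le_of_eq ?_) (tr_block b.1 (hP b List.mem_cons_self) b.2
      (fun S => ∑ T ∈ (trU bl).powerset, (∏ p ∈ T, trx p) * Φ (S ∪ T)) _
      (fun as => mul_nonneg (Real.exp_pos _).le (tr_Ex_nonneg (tr_pat_prob hP') fun _ => hG _))
      fun S hS => ?_)
    · refine sum_congr rfl fun S hS => ?_
      rw [mul_sum]
      refine sum_congr rfl fun T hT => ?_
      rw [prod_union (hdis.mono (mem_powerset.1 hS) (mem_powerset.1 hT)), mul_assoc]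
    by_cases hn : b.2 ≤ S.card
    · refine Or.inr ⟨hn, fun as h1 h2 h3 => ih _ _ (fun _ => hG _) fun T hT => ?_⟩
      rcases h (S ∪ T) (union_subset_union hS hT) with h4 | ⟨h4, h5⟩
      · exact Or.inl h4
      refine Or.inr ⟨fun b' hb' => (h4 b' (List.mem_cons_of_mem _ hb')).trans (card_le_card ?_),
        fun bs h6 h7 h8 => h5 (as ++ bs) ?_ ?_ ?_⟩
      · intro p hp
        obtain ⟨h9, h10⟩ := mem_inter.1 hp
        refine mem_inter.2 ⟨(mem_union.1 h9).elim (fun h11 => ?_) id, h10⟩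
        exact absurd h10 (disjoint_left.1 (hd1 b' hb') (hS h11))
      · refine List.nodup_append.2 ⟨h1, h6, fun p hp q hq hpq => ?_⟩
        subst hpq
        exact disjoint_left.1 hdis (hS (h3 p hp)) (hT (h8 p hq))
      · rw [e', ← h2]
        exact List.rel_append (tr_forall_replicate b.1 as fun p hp => hS (h3 p hp)) h7
      · intro p hp
        rcases List.mem_append.1 hp with hp | hp
        · exact mem_union_left _ (h3 p hp)
        · exact mem_union_right _ (h8 p hp)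
    · refine Or.inl (sum_nonpos fun T hT => mul_nonpos_of_nonneg_of_nonpos
        (prod_nonneg fun p _ => trx_nonneg p) ?_)
      have hT := mem_powerset.1 hT
      rcases h (S ∪ T) (union_subset_union hS hT) with h4 | ⟨h4, -⟩
      · exact h4
      refine absurd ((h4 b List.mem_cons_self).trans (card_le_card ?_)) hn
      intro p hp
      obtain ⟨h9, h10⟩ := mem_inter.1 hp
      exact (mem_union.1 h9).elim id fun h11 => absurd (hT h11) (disjoint_left.1 hdis h10)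

theorem transfer (z : ℝ) (bl : List (Finset ℕ × ℕ))
    (hd : bl.Pairwise fun b b' => Disjoint b.1 b'.1) {y : ℝ} (hy : 1 ≤ y)
    (hP : ∀ b ∈ bl, b.1.Nonempty ∧ ∀ p ∈ b.1, p.Prime ∧ y < p ∧ (p : ℝ) ≤ z)
    (F : ℕ → ℝ) (G : List ℕ → ℝ) {M : ℝ} (hM : 0 ≤ M) (hF : ∀ s, F s ≤ M) (hG : ∀ as, 0 ≤ G as)
    (A : Finset ℕ) (hA : ∀ s ∈ A, Smooth z s ∧ ∀ b ∈ bl, (b.2 : ℝ) ≤ om b.1 s)
    (hFG : ∀ s ∈ A, ∀ as : List ℕ, as.Nodup →
      List.Forall₂ (fun p (l : Law) => p ∈ l.supp) as (pat bl) →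
      (∀ p ∈ as, p.Prime ∧ p ∣ s ∧ ¬ p ^ 2 ∣ s) → F s ≤ G as) :
    ∑ s ∈ A, tau s * F s / s ≤ VV z ^ 2 * (Ex (pat bl) G + 6 * M / y) := by
  set U := trU bl with hU
  have hUp : ∀ p ∈ U, p.Prime ∧ y < p ∧ (p : ℝ) ≤ z := fun p hp => by
    obtain ⟨b, hb, hp⟩ := mem_trU.1 hp
    exact (hP b hb).2 p hp
  have hpos : ∀ b ∈ bl, 0 < ∑ q ∈ b.1, (q : ℝ)⁻¹ := fun b hb =>
    sum_pos (fun q hq => inv_pos.2 (by exact_mod_cast ((hP b hb).2 q hq).1.pos)) (hP b hb).1
  rw [← sum_filter_add_sum_filter_not A (fun s => ∃ p ∈ U, p ^ 2 ∣ s), mul_add, add_comm]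
  refine add_le_add ?_ ?_
  swap
  · have h1 := tr_sq z U hy (fun p hp => ⟨(hUp p hp).1, (hUp p hp).2.1⟩)
      (A.filter fun s => ∃ p ∈ U, p ^ 2 ∣ s)
      fun s hs => ⟨(hA s (mem_filter.1 hs).1).1, (mem_filter.1 hs).2⟩
    calc _ ≤ ∑ s ∈ A with ∃ p ∈ U, p ^ 2 ∣ s, M * (tau s / s) := sum_le_sum fun s _ => by
          rw [mul_div_right_comm, mul_comm]
          exact mul_le_mul_of_nonneg_right (hF s) (div_nonneg (tau_nonneg s) (Nat.cast_nonneg s))
      _ ≤ M * (VV z ^ 2 * (6 / y)) := by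
          rw [← mul_sum]
          exact mul_le_mul_of_nonneg_left h1 hM
      _ = _ := by ring
  set B := A.filter fun s => ¬∃ p ∈ U, p ^ 2 ∣ s with hB
  let Φ : Finset ℕ → ℝ := fun S => (B.filter fun s => U.filter (· ∣ s) = S).fold max 0 F
  have hΦ0 : ∀ S, 0 ≤ Φ S := fun S => (le_fold_max _).2 (Or.inl le_rfl)
  have hdvd : ∀ s, ∏ p ∈ U.filter (· ∣ s), p ∣ s := fun s =>
    prod_primes_dvd s (fun p hp => (hUp p (mem_filter.1 hp).1).1.prime)
      fun p hp => (mem_filter.1 hp).2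
  have hcop : ∀ s ∈ B, ∀ p ∈ U, ¬p ∣ s / ∏ p ∈ U.filter (· ∣ s), p := by
    intro s hs p hp hd
    refine (mem_filter.1 hs).2 ⟨p, hp, ?_⟩
    have h1 : p ∣ s := hd.trans (Nat.div_dvd_of_dvd (hdvd s))
    have h2 : p ∣ ∏ p ∈ U.filter (· ∣ s), p := dvd_prod_of_mem _ (mem_filter.2 ⟨hp, h1⟩)
    rw [← Nat.div_mul_cancel (hdvd s), sq]
    exact mul_dvd_mul hd h2
  have hm := tr_multi bl hd hpos Φ G hG (by
    intro S _
    rcases (B.filter fun s => U.filter (· ∣ s) = S).eq_empty_or_nonempty with h | ⟨s, hs⟩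
    · left
      simp only [Φ, h, fold_empty, le_refl]
    right
    refine ⟨fun b hb => ?_, fun as h1 h2 h3 => (fold_max_le _).2 ⟨hG _, fun t ht => ?_⟩⟩
    · obtain ⟨hs', e⟩ := mem_filter.1 hs
      clear hs
      subst e
      have hs := hs'
      obtain ⟨h1, h2⟩ := hA s (mem_filter.1 hs).1
      have h3 := h2 b hb
      have h4 := Nat.div_mul_cancel (hdvd s)
      have h5 := h1.1
      rw [← h4] at h5
      rw [← h4, om, cadd_mul _ (left_ne_zero_of_mul h5) (right_ne_zero_of_mul h5),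
        tr_cadd_prod _ _ fun p hp => (hUp p (mem_filter.1 hp).1).1] at h3
      have h6 : cadd (fun p => if p ∈ b.1 then (1 : ℝ) else 0)
          (s / ∏ p ∈ U.filter (· ∣ s), p) = 0 := by
        refine List.sum_eq_zero fun x hx => ?_
        obtain ⟨p, hp, rfl⟩ := List.mem_map.1 hx
        exact if_neg fun h => hcop s hs p (mem_trU.2 ⟨b, hb, h⟩) (Nat.dvd_of_mem_primeFactorsList hp)
      rw [h6, zero_add, sum_boole, filter_mem_eq_inter] at h3
      exact_mod_cast h3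
    · obtain ⟨ht', e⟩ := mem_filter.1 ht
      rw [← e] at h3
      obtain ⟨h4, h5⟩ := mem_filter.1 ht'
      refine hFG t h4 as h1 h2 fun p hp => ?_
      obtain ⟨h6, h7⟩ := mem_filter.1 (h3 p hp)
      exact ⟨(hUp p h6).1, h7, fun h => h5 ⟨p, h6, h⟩⟩)
  set V := ∏ p ∈ (Ioc 0 ⌊z⌋₊ \ U) with p.Prime, (1 - (p : ℝ)⁻¹)⁻¹ with hV
  have hfib : ∀ S ∈ U.powerset, ∑ s ∈ B with U.filter (· ∣ s) = S, tau s * F s / s ≤
      V ^ 2 * ((∏ p ∈ S, trx p) * Φ S) := by
    intro S hS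
    have hS := mem_powerset.1 hS
    have h3 := tr_tau_factored (Ioc 0 ⌊z⌋₊ \ U)
      ((B.filter fun s => U.filter (· ∣ s) = S).image (· / ∏ p ∈ S, p)) (by
      intro t ht
      obtain ⟨s, hs, rfl⟩ := mem_image.1 ht
      obtain ⟨hs', e⟩ := mem_filter.1 hs
      clear hs
      subst e
      have hs := hs'
      exact Nat.mem_factoredNumbers'.2 fun q hq hd' => mem_sdiff.2
        ⟨tr_smooth_factored (hA s (mem_filter.1 hs).1).1 hq
          (hd'.trans (Nat.div_dvd_of_dvd (hdvd s))), fun h => hcop s hs q h hd'⟩)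
    rw [sum_image (by
      intro a ha b hb hab
      have ha' := hdvd a
      have hb' := hdvd b
      rw [(mem_filter.1 ha).2] at ha'
      rw [(mem_filter.1 hb).2] at hb'
      rw [← Nat.div_mul_cancel ha', ← Nat.div_mul_cancel hb']
      exact congrArg (· * ∏ p ∈ S, p) hab)] at h3
    refine le_trans ?_ (mul_le_mul_of_nonneg_right h3
      (mul_nonneg (prod_nonneg fun p _ => trx_nonneg p) (hΦ0 S)))
    rw [sum_mul]
    refine sum_le_sum fun s hs => ?_
    have h4 : F s ≤ Φ S := (le_fold_max _).2 (Or.inr ⟨s, hs, le_rfl⟩)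
    have h5 := hdvd s
    rw [(mem_filter.1 hs).2] at h5
    have h6 := tr_tau_prod S fun p hp => (hUp p (hS hp)).1
    have h7 : 0 < ∏ p ∈ S, p := prod_pos fun p hp => (hUp p (hS hp)).1.pos
    clear h3
    generalize ∏ p ∈ S, p = r at h5 h6 h7
    obtain ⟨t, rfl⟩ := h5
    rw [Nat.mul_div_cancel_left _ h7, mul_div_right_comm, ← mul_assoc]
    have h8 : 0 ≤ tau (r * t) / ((r * t : ℕ) : ℝ) := div_nonneg (tau_nonneg _) (Nat.cast_nonneg _)
    refine (mul_le_mul_of_nonneg_left h4 h8).trans (mul_le_mul_of_nonneg_right ?_ (hΦ0 S))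
    have h9 := tr_tau_mul r t
    calc _ ≤ tau r * tau t / ((r * t : ℕ) : ℝ) := by gcongr
      _ = tau t / t * (tau r / r) := by
        push_cast
        rw [mul_div_mul_comm, mul_comm]
      _ ≤ _ := mul_le_mul_of_nonneg_left h6 (div_nonneg (tau_nonneg _) (Nat.cast_nonneg _))
  have hVV : V ^ 2 * Real.exp (∑ p ∈ U, trx p) ≤ VV z ^ 2 := by
    have h1 : U ⊆ (Ioc 0 ⌊z⌋₊).filter Nat.Prime := fun p hp => mem_filter.2
      ⟨mem_Ioc.2 ⟨(hUp p hp).1.pos, Nat.le_floor (hUp p hp).2.2⟩, (hUp p hp).1⟩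
    have h2 : (Ioc 0 ⌊z⌋₊ \ U).filter Nat.Prime = (Ioc 0 ⌊z⌋₊).filter Nat.Prime \ U := by
      ext p
      simp only [mem_filter, mem_sdiff]
      tauto
    rw [VV, ← prod_sdiff h1, mul_pow, hV, h2, Real.exp_sum, ← prod_pow U]
    exact mul_le_mul_of_nonneg_left (prod_le_prod (fun _ _ => (Real.exp_pos _).le)
      fun p hp => tr_exp_le (hUp p hp).1) (sq_nonneg _)
  rw [← sum_fiberwise_of_maps_to (s := B) (t := U.powerset) (g := fun s => U.filter (· ∣ s))
    fun s _ => mem_powerset.2 (filter_subset _ _)]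
  refine (sum_le_sum hfib).trans ?_
  rw [← mul_sum]
  refine (mul_le_mul_of_nonneg_left hm (sq_nonneg _)).trans ?_
  rw [← mul_assoc]
  exact mul_le_mul_of_nonneg_right hVV (tr_Ex_nonneg (tr_pat_prob hpos) hG)

end Pool.Agent.Work.MP_82fd4a_nt
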