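import Pool.Agent.Work.MP_82fd4a_nt.Defs

/-! The combinatorial decomposition of the indicator of the primes. -/

set_option autoImplicit false
open Finset ArithmeticFunction

namespace Pool.Agent.Work.MP_82fd4a_nt

/-- the multiset of the rounded logarithms of the prime factors -/
noncomputable def ty (b : ℝ) (n : ℕ) : Multiset ℕ :=
  (n.primeFactorsList.map fun p : ℕ => ⌊Real.log p / b⌋₊ : List ℕ)

/-- truncated sum of the Moebius function over the divisors -/
noncomputable def Phi (b : ℝ) (y : ℕ) (n : ℕ) : ℝ :=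
  ∑ d ∈ n.divisors, if (ty b d).sum < y then (moebius d : ℝ) else 0

/-- the value of `Phi` on squarefree numbers of a given type -/
noncomputable def PhiM (y : ℕ) (τ : Multiset ℕ) : ℝ :=
  (τ.powerset.map fun t => if t.sum < y then (-1 : ℝ) ^ t.card else 0).sum

/-- some subsum lies in the bilinear range -/
def Good (y y' : ℕ) (τ : Multiset ℕ) : Prop := ∃ t, t ≤ τ ∧ y ≤ t.sum ∧ t.sum ≤ y'

noncomputable instance (y y' : ℕ) : DecidablePred (Good y y') := Classical.decPred _

/-- a chosen part in the bilinear range -/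
noncomputable def sel (y y' : ℕ) (τ : Multiset ℕ) : Multiset ℕ :=
  if h : Good y y' τ then h.choose else 0

/-- the coefficient of the bilinear form of a type -/
noncomputable def aco (y y' : ℕ) (τ : Multiset ℕ) : ℝ :=
  PhiM y τ / (τ.powerset.count (sel y y' τ) : ℝ)

/-- the bilinear part -/
noncomputable def Gd (b : ℝ) (y y' : ℕ) (n : ℕ) : ℝ :=
  if Good y y' (ty b n) then
    aco y y' (ty b n) * (#{d ∈ n.divisors | ty b d = sel y y' (ty b n)} : ℝ)
  else 0

lemma sel_spec {y y' : ℕ} {τ : Multiset ℕ} (h : Good y y' τ) :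
    sel y y' τ ≤ τ ∧ y ≤ (sel y y' τ).sum ∧ (sel y y' τ).sum ≤ y' := by
  unfold sel
  rw [dif_pos h]
  exact h.choose_spec

theorem ty_mul (b : ℝ) {m n : ℕ} (hm : m ≠ 0) (hn : n ≠ 0) : ty b (m * n) = ty b m + ty b n := by
  unfold ty
  rw [Multiset.coe_add, ← List.map_append, Multiset.coe_eq_coe]
  exact (Nat.perm_primeFactorsList_mul hm hn).map _

lemma typ_zero (b : ℝ) : ty b 0 = 0 := by simp [ty]

lemma typ_one (b : ℝ) : ty b 1 = 0 := by simp [ty]

lemma typ_prime (b : ℝ) {p : ℕ} (hp : p.Prime) : ty b p = {⌊Real.log p / b⌋₊} := by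
  simp [ty, Nat.primeFactorsList_prime hp]

lemma typ_prime_mul (b : ℝ) {p a : ℕ} (hp : p.Prime) (ha : a ≠ 0) :
    ty b (p * a) = ⌊Real.log p / b⌋₊ ::ₘ ty b a := by
  rw [ty_mul b hp.ne_zero ha, typ_prime b hp, Multiset.singleton_add]

lemma typ_card (b : ℝ) (n : ℕ) : (ty b n).card = n.primeFactorsList.length := by simp [ty]

lemma typ_log_mul {p a : ℕ} (hp : p.Prime) (ha : a ≠ 0) :
    Real.log ((p * a : ℕ) : ℝ) = Real.log p + Real.log a := by
  rw [Nat.cast_mul, Real.log_mul (by exact_mod_cast hp.ne_zero) (by exact_mod_cast ha)]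

theorem ty_sum_le {b : ℝ} (hb : 0 < b) (n : ℕ) : ((ty b n).sum : ℝ) * b ≤ Real.log n := by
  induction n using induction_on_primes with
  | zero => simp [typ_zero]
  | one => simp [typ_one]
  | prime_mul p a hp ih =>
    rcases eq_or_ne a 0 with rfl | ha
    · simp [typ_zero]
    rw [typ_prime_mul b hp ha, Multiset.sum_cons, typ_log_mul hp ha, Nat.cast_add, add_mul]
    have h0 : 0 ≤ Real.log p / b := div_nonneg (Real.log_natCast_nonneg p) hb.le
    have h1 := Nat.floor_le h0
    rw [le_div_iff₀ hb] at h1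
    linarith

theorem log_le_ty {b : ℝ} (hb : 0 < b) (n : ℕ) :
    Real.log n ≤ (((ty b n).sum : ℝ) + (ty b n).card) * b := by
  induction n using induction_on_primes with
  | zero => simp [typ_zero]
  | one => simp [typ_one]
  | prime_mul p a hp ih =>
    rcases eq_or_ne a 0 with rfl | ha
    · simp [typ_zero]
    rw [typ_prime_mul b hp ha, Multiset.sum_cons, Multiset.card_cons, typ_log_mul hp ha]
    have h1 := (Nat.lt_floor_add_one (Real.log p / b)).le
    rw [div_le_iff₀ hb] at h1
    rw [Nat.cast_add, Nat.cast_add, Nat.cast_one]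
    nlinarith

theorem card_ty_le (b : ℝ) {w : ℝ} (hw : 1 ≤ w) {n : ℕ} (hn : n ≠ 0) (h : Rough w n) :
    ((ty b n).card : ℝ) * Real.log w ≤ Real.log n := by
  induction n using induction_on_primes with
  | zero => exact absurd rfl hn
  | one => simp [typ_one]
  | prime_mul p a hp ih =>
    have ha : a ≠ 0 := right_ne_zero_of_mul hn
    have h1 := ih ha (rough_mul.1 h).2
    have h2 : w < p := h p hp (dvd_mul_right p a)
    have h3 : Real.log w ≤ Real.log p := Real.log_le_log (by linarith) h2.le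
    rw [typ_prime_mul b hp ha, Multiset.card_cons, typ_log_mul hp ha]
    push_cast
    nlinarith

theorem ty_le {b : ℝ} (hb : 0 < b) {n k B : ℕ} (hk : (ty b n).card ≤ k)
    (hB : Real.log n < B * b) : ty b n ≤ k • (range B).val := by
  rw [Multiset.le_iff_count]
  intro a
  by_cases ha : a ∈ ty b n
  · have haB : a < B := by
      unfold ty at ha
      rw [Multiset.mem_coe, List.mem_map] at ha
      obtain ⟨p, hp, rfl⟩ := ha
      have hn : n ≠ 0 := by rintro rfl; simp at hp
      have hpp := Nat.prime_of_mem_primeFactorsList hp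
      have hle : p ≤ n := Nat.le_of_dvd (Nat.pos_of_ne_zero hn) (Nat.dvd_of_mem_primeFactorsList hp)
      have h1 : Real.log p ≤ Real.log n :=
        Real.log_le_log (by exact_mod_cast hpp.pos) (by exact_mod_cast hle)
      rw [Nat.floor_lt (div_nonneg (Real.log_natCast_nonneg p) hb.le), div_lt_iff₀ hb]
      linarith
    rw [Multiset.count_nsmul,
      Multiset.count_eq_one_of_mem (range B).nodup (by simpa using haB), mul_one]
    exact (Multiset.count_le_card a _).trans hk
  · rw [Multiset.count_eq_zero_of_notMem ha]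
    exact Nat.zero_le _

open Pointwise in
theorem tau_le_card (b : ℝ) (n : ℕ) : tau n ≤ 2 ^ (ty b n).card := by
  unfold tau
  induction n using induction_on_primes with
  | zero => simp
  | one => simp [typ_one]
  | prime_mul p a hp ih =>
    rcases eq_or_ne a 0 with rfl | ha
    · simp
    rw [typ_prime_mul b hp ha, Multiset.card_cons, pow_succ, Nat.divisors_mul]
    have h1 : #(p.divisors * a.divisors) ≤ #p.divisors * #a.divisors := Finset.card_mul_le
    have h2 : #p.divisors = 2 := by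
      rw [hp.divisors, card_pair hp.one_lt.ne]
    rw [h2] at h1
    have h3 : (#(p.divisors * a.divisors) : ℝ) ≤ 2 * #a.divisors := by exact_mod_cast h1
    linarith

lemma typ_abs_PhiM_le (y : ℕ) (τ : Multiset ℕ) : |PhiM y τ| ≤ 2 ^ τ.card := by
  unfold PhiM
  refine (Multiset.abs_sum_le_sum_abs).trans ?_
  have h := Multiset.sum_le_card_nsmul
    ((τ.powerset.map fun t => if t.sum < y then (-1 : ℝ) ^ t.card else 0).map abs) 1 (by
      intro x hx
      simp only [Multiset.map_map, Multiset.mem_map, Function.comp] at hx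
      obtain ⟨t, -, rfl⟩ := hx
      split_ifs <;> simp)
  simpa using h

theorem abs_aco_le (y y' : ℕ) (τ : Multiset ℕ) : |aco y y' τ| ≤ 2 ^ τ.card := by
  unfold aco
  rw [abs_div, Nat.abs_cast]
  rcases Nat.eq_zero_or_pos (τ.powerset.count (sel y y' τ)) with h | h
  · rw [h]; simp
  · exact (div_le_self (abs_nonneg _) (by exact_mod_cast h)).trans (typ_abs_PhiM_le y τ)

theorem abs_Phi_le (b : ℝ) (y n : ℕ) : |Phi b y n| ≤ 2 ^ (ty b n).card := by
  unfold Phi
  refine (abs_sum_le_sum_abs _ _).trans (le_trans ?_ (tau_le_card b n))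
  unfold tau
  rw [← mul_one (#n.divisors : ℝ), ← nsmul_eq_mul]
  refine sum_le_card_nsmul _ _ _ fun d _ => ?_
  split_ifs
  · exact_mod_cast abs_moebius_le_one
  · simp

theorem abs_Gd_le (b : ℝ) (y y' n : ℕ) : |Gd b y y' n| ≤ 4 ^ (ty b n).card := by
  unfold Gd
  split_ifs
  · rw [abs_mul, Nat.abs_cast, show (4 : ℝ) = 2 * 2 by norm_num, mul_pow]
    refine mul_le_mul (abs_aco_le _ _ _) (le_trans ?_ (tau_le_card b n)) (Nat.cast_nonneg _)
      (by positivity)
    unfold tau
    exact_mod_cast card_filter_le _ _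
  · simp

/-- divisors of a squarefree number correspond to the parts of its type -/
lemma typ_sum_divisors (b : ℝ) {n : ℕ} (hn : Squarefree n) (F : Multiset ℕ → ℝ) :
    ∑ d ∈ n.divisors, F (ty b d) = ((ty b n).powerset.map F).sum := by
  induction n using induction_on_primes generalizing F with
  | zero => exact absurd hn not_squarefree_zero
  | one => simp [typ_one]
  | prime_mul p a hp ih =>
    obtain ⟨hc, -, ha⟩ := Nat.squarefree_mul_iff.1 hn
    rw [typ_prime_mul b hp ha.ne_zero, Multiset.powerset_cons, Multiset.map_add, Multiset.sum_add,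
      Multiset.map_map, ← ih ha, ← ih ha, Nat.divisors_mul, Finset.mul_def,
      sum_image hc.mul_injOn_divisors, sum_product, hp.divisors, sum_pair hp.one_lt.ne]
    congr 1
    · simp
    · refine sum_congr rfl fun d hd => ?_
      rw [typ_prime_mul b hp (Nat.pos_of_mem_divisors hd).ne']
      rfl

lemma typ_Phi_eq (b : ℝ) (y : ℕ) {n : ℕ} (hn : Squarefree n) : Phi b y n = PhiM y (ty b n) := by
  unfold Phi PhiM
  rw [← typ_sum_divisors b hn]
  refine sum_congr rfl fun d hd => ?_
  rw [moebius_apply_of_squarefree (hn.squarefree_of_dvd (Nat.dvd_of_mem_divisors hd)),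
    cardFactors_apply, typ_card]
  push_cast
  rfl

lemma typ_card_eq (b : ℝ) {n : ℕ} (hn : Squarefree n) (t : Multiset ℕ) :
    (#{d ∈ n.divisors | ty b d = t} : ℝ) = ((ty b n).powerset.count t : ℝ) := by
  have h := typ_sum_divisors b hn fun s => if s = t then 1 else 0
  rw [sum_boole] at h
  rw [h]
  generalize (ty b n).powerset = M
  induction M using Multiset.induction_on with
  | empty => simp
  | cons a M ih =>
    rw [Multiset.map_cons, Multiset.sum_cons, ih, Multiset.count_cons]
    by_cases h : a = t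
    · rw [if_pos h, if_pos h.symm]; push_cast; ring
    · rw [if_neg h, if_neg (Ne.symm h)]; simp

lemma typ_Gd_eq (b : ℝ) {y y' n : ℕ} (hn : Squarefree n) (h : Good y y' (ty b n)) :
    Gd b y y' n = PhiM y (ty b n) := by
  unfold Gd aco
  rw [if_pos h, typ_card_eq b hn, div_mul_cancel₀]
  have := Multiset.count_pos.2 (Multiset.mem_powerset.2 (sel_spec h).1)
  exact_mod_cast this.ne'

/-- pairing by a small element -/
lemma typ_PhiM_small {y y' e : ℕ} {σ : Multiset ℕ} (h : ¬ Good y y' (e ::ₘ σ))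
    (he : e + y ≤ y') : PhiM y (e ::ₘ σ) = 0 := by
  unfold PhiM
  rw [Multiset.powerset_cons, Multiset.map_add, Multiset.sum_add, Multiset.map_map,
    ← Multiset.sum_map_add]
  refine Multiset.sum_eq_zero fun x hx => ?_
  rw [Multiset.mem_map] at hx
  obtain ⟨t, ht, rfl⟩ := hx
  have h1 : ¬ (y ≤ (e ::ₘ t).sum ∧ (e ::ₘ t).sum ≤ y') := fun h' =>
    h ⟨_, Multiset.cons_le_cons e (Multiset.mem_powerset.1 ht), h'⟩
  simp only [Function.comp, Multiset.sum_cons, Multiset.card_cons] at h1 ⊢
  by_cases h2 : t.sum < y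
  · rw [if_pos h2, if_pos (by omega)]; ring
  · rw [if_neg h2, if_neg (by omega)]; ring

lemma typ_not_good {y y' : ℕ} {τ : Multiset ℕ} (h : ¬ Good y y' τ) :
    ∀ t ∈ τ.powerset, t.sum < y ∨ y' < t.sum := by
  intro t ht
  by_contra h'
  exact h ⟨t, Multiset.mem_powerset.1 ht, by omega, by omega⟩

/-- indicator of the small sums -/
noncomputable def typ_ind (y u : ℕ) : ℝ := if u < y then 1 else 0

lemma typ_PhiM_ind (y : ℕ) (τ : Multiset ℕ) :
    PhiM y τ = (τ.powerset.map fun t => typ_ind y t.sum * (-1 : ℝ) ^ t.card).sum := by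
  unfold PhiM typ_ind
  congr 1
  refine Multiset.map_congr rfl fun t _ => ?_
  split_ifs <;> simp

lemma typ_ind_compl {y y' S u v : ℕ} (hyy : y ≤ y') (h1 : 2 * y ≤ S) (h2 : S ≤ 2 * y')
    (hu : u < y ∨ y' < u) (hv : v < y ∨ y' < v) (huv : u + v = S) :
    typ_ind y u + typ_ind y v = 1 := by
  unfold typ_ind
  split_ifs <;> first | omega | simp

lemma typ_PhiM_two {y y' a c : ℕ} (h : ¬ Good y y' {a, c}) (hyy : y ≤ y')
    (h1 : 2 * y ≤ a + c) (h2 : a + c ≤ 2 * y') : PhiM y {a, c} = 0 := by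
  have h' := typ_not_good h
  rw [typ_PhiM_ind]
  simp only [Multiset.insert_eq_cons, ← Multiset.cons_zero, Multiset.powerset_cons,
    Multiset.powerset_zero, Multiset.map_add, Multiset.map_cons, Multiset.map_zero,
    Multiset.sum_add, Multiset.sum_cons, Multiset.sum_zero, Multiset.card_cons,
    Multiset.card_zero, Multiset.mem_add, Multiset.mem_cons, Multiset.notMem_zero, or_false,
    forall_eq, or_imp, forall_and, add_zero] at h' ⊢
  obtain ⟨⟨e0, e1⟩, e2, e3⟩ := h'
  have f0 := typ_ind_compl hyy h1 h2 e0 e3 (by omega)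
  have f1 := typ_ind_compl hyy h1 h2 e1 e2 (by omega)
  norm_num
  linarith

lemma typ_PhiM_three {y y' a c d : ℕ} (h : ¬ Good y y' {a, c, d}) (hy : 1 ≤ y) (hyy : y ≤ y')
    (h1 : 2 * y ≤ a + c + d) (h2 : a + c + d ≤ 2 * y') :
    PhiM y {a, c, d} = 0 ∨ (PhiM y {a, c, d} = -2 ∧ a < y ∧ c < y ∧ d < y) := by
  have h' := typ_not_good h
  rw [typ_PhiM_ind]
  simp only [Multiset.insert_eq_cons, ← Multiset.cons_zero, Multiset.powerset_cons,
    Multiset.powerset_zero, Multiset.map_add, Multiset.map_cons, Multiset.map_zero,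
    Multiset.sum_add, Multiset.sum_cons, Multiset.sum_zero, Multiset.card_cons,
    Multiset.card_zero, Multiset.mem_add, Multiset.mem_cons, Multiset.notMem_zero, or_false,
    forall_eq, or_imp, forall_and, add_zero] at h' ⊢
  unfold typ_ind
  split_ifs <;> first | omega | (left; norm_num; done) | (right; refine ⟨?_, ?_⟩ <;>
    first | omega | norm_num)

lemma typ_PhiM_four {y y' a c d e : ℕ} (h : ¬ Good y y' {a, c, d, e}) (hyy : y ≤ y')
    (h1 : 2 * y ≤ a + c + d + e) (h2 : a + c + d + e ≤ 2 * y') : PhiM y {a, c, d, e} = 0 := by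
  have h' := typ_not_good h
  rw [typ_PhiM_ind]
  simp only [Multiset.insert_eq_cons, ← Multiset.cons_zero, Multiset.powerset_cons,
    Multiset.powerset_zero, Multiset.map_add, Multiset.map_cons, Multiset.map_zero,
    Multiset.sum_add, Multiset.sum_cons, Multiset.sum_zero, Multiset.card_cons,
    Multiset.card_zero, Multiset.mem_add, Multiset.mem_cons, Multiset.notMem_zero, or_false,
    forall_eq, or_imp, forall_and, add_zero] at h' ⊢
  obtain ⟨⟨⟨⟨e0, e1⟩, e2, e3⟩, ⟨e4, e5⟩, e6, e7⟩, ⟨⟨e8, e9⟩, e10, e11⟩, ⟨e12, e13⟩, e14, e15⟩ := h'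
  have f0 := typ_ind_compl hyy h1 h2 e0 e15 (by omega)
  have f1 := typ_ind_compl hyy h1 h2 e1 e14 (by omega)
  have f2 := typ_ind_compl hyy h1 h2 e2 e13 (by omega)
  have f3 := typ_ind_compl hyy h1 h2 e3 e12 (by omega)
  have f4 := typ_ind_compl hyy h1 h2 e4 e11 (by omega)
  have f5 := typ_ind_compl hyy h1 h2 e5 e10 (by omega)
  have f6 := typ_ind_compl hyy h1 h2 e6 e9 (by omega)
  have f7 := typ_ind_compl hyy h1 h2 e7 e8 (by omega)
  norm_num
  linarith

/-- the decomposition -/
theorem Phi_sub_Gd (b : ℝ) {y y' n : ℕ} (hn : Squarefree n) (hy : 1 ≤ y) (hyy : y ≤ y')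
    (h1 : 2 * y ≤ (ty b n).sum) (h2 : (ty b n).sum ≤ 2 * y') (h3 : y' < (ty b n).sum)
    (h4 : (ty b n).sum + 5 * y ≤ 5 * y') :
    (n.Prime ∧ Phi b y n - Gd b y y' n = 1) ∨ (¬ n.Prime ∧ Phi b y n - Gd b y y' n = 0) ∨
      (¬ n.Prime ∧ Phi b y n - Gd b y y' n = -2 ∧ ∃ p q r : ℕ, p ≠ q ∧ p ≠ r ∧ q ≠ r ∧
        n = p * q * r ∧ ∀ t ∈ ({p, q, r} : Finset ℕ), t.Prime ∧
          y' < ⌊Real.log t / b⌋₊ + y ∧ ⌊Real.log t / b⌋₊ < y) := by
  by_cases hp : n.Prime
  · left
    refine ⟨hp, ?_⟩
    rw [typ_prime b hp, Multiset.sum_singleton] at h3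
    have hG : ¬ Good y y' (ty b n) := by
      rintro ⟨t, ht, h5, h6⟩
      rw [typ_prime b hp, Multiset.le_singleton] at ht
      rcases ht with rfl | rfl
      · simp at h5; omega
      · simp at h6; omega
    rw [typ_Phi_eq b y hn, Gd, if_neg hG, typ_prime b hp, PhiM, ← Multiset.cons_zero,
      Multiset.powerset_cons]
    have h5 : 0 < y := hy
    have h6 : ¬ ⌊Real.log n / b⌋₊ < y := by omega
    simp [h5, h6]
  right
  by_cases hG : Good y y' (ty b n)
  · left
    exact ⟨hp, by rw [typ_Phi_eq b y hn, typ_Gd_eq b hn hG, sub_self]⟩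
  rw [typ_Phi_eq b y hn, Gd, if_neg hG, sub_zero]
  by_cases hs : ∃ e ∈ ty b n, e + y ≤ y'
  · obtain ⟨e, he, hey⟩ := hs
    obtain ⟨σ, hσ⟩ := Multiset.exists_cons_of_mem he
    rw [hσ] at hG ⊢
    exact Or.inl ⟨hp, typ_PhiM_small hG hey⟩
  push Not at hs
  have hcard : (ty b n).card ≤ 4 := by
    have h5 := Multiset.card_nsmul_le_sum (s := ty b n) (a := y' - y + 1) fun e he => by
      have := hs e he
      omega
    rw [smul_eq_mul] at h5
    by_contra h6
    have h7 : 5 * (y' - y + 1) ≤ (ty b n).card * (y' - y + 1) :=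
      Nat.mul_le_mul_right _ (by omega)
    omega
  have hprod := Nat.prod_primeFactorsList hn.ne_zero
  have hnd := hn.nodup_primeFactorsList
  have hpr : ∀ p ∈ n.primeFactorsList, p.Prime := fun p h => Nat.prime_of_mem_primeFactorsList h
  rw [typ_card] at hcard
  unfold ty at *
  generalize n.primeFactorsList = l at *
  match l, hcard with
  | [], _ => simp at h3
  | [p], _ =>
    simp only [List.prod_cons, List.prod_nil, mul_one] at hprod
    exact absurd (hprod ▸ hpr p (by simp)) hp
  | [p, q], _ =>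
    left
    simp only [List.map_cons, List.map_nil, Multiset.sum_coe, List.sum_cons, List.sum_nil,
      add_zero] at h1 h2
    exact ⟨hp, typ_PhiM_two hG hyy h1 h2⟩
  | [p, q, r], _ =>
    simp only [List.map_cons, List.map_nil, Multiset.sum_coe, List.sum_cons, List.sum_nil,
      add_zero, ← add_assoc] at h1 h2
    rcases typ_PhiM_three hG hy hyy h1 h2 with h5 | ⟨h5, h6, h7, h8⟩
    · exact Or.inl ⟨hp, h5⟩
    · simp only [List.nodup_cons, List.mem_cons, List.not_mem_nil, or_false, not_or] at hnd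
      refine Or.inr ⟨hp, h5, p, q, r, hnd.1.1, hnd.1.2, hnd.2.1, ?_, ?_⟩
      · rw [← hprod]; simp [mul_assoc]
      · intro t ht
        simp only [mem_insert, mem_singleton] at ht
        rcases ht with rfl | rfl | rfl
        · exact ⟨hpr _ (by simp), hs _ (by simp), h6⟩
        · exact ⟨hpr _ (by simp), hs _ (by simp), h7⟩
        · exact ⟨hpr _ (by simp), hs _ (by simp), h8⟩
  | [p, q, r, s], _ =>
    left
    simp only [List.map_cons, List.map_nil, Multiset.sum_coe, List.sum_cons, List.sum_nil,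
      add_zero, ← add_assoc] at h1 h2
    exact ⟨hp, typ_PhiM_four hG hyy h1 h2⟩

end Pool.Agent.Work.MP_82fd4a_nt
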